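import Mathlib
import Pool.Agent.MRZ.Sup
import Pool.Agent.Lib.PrimePairsMoment

/-!
# SWP (short windows at primes): definitions

Problem MP_0bfb7f_nt, project of helper80. Goal: the values `μ(p+1), …, μ(p+H)` for windows *shorter* than `log X`
(windows containing on average less than one prime), for almost all primes `p ≤ X`. New ingredient: the dilation
trick. If `d ≤ H/ℓ` then the multiples of `d` in `(p, p+H]` are `d m`, `m ∈ (p/d, (p+H)/d]`, a window of length `≥ ℓ`;
for `d ∈ (D, 2D]` the points `p/d` (`p ≤ X` prime) cover a positive proportion of the integers up to `X/D` as soon as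
`D² ≥ log X`, and they do so without concentration (upper bound sieve for pairs `d m + j`, `d' m + j'`), so the
Matomäki–Radziwiłł theorem for windows of *bounded* length applies to almost all of the windows `(p/d, p/d+ℓ]`.

* `PP X` = the primes `p ≤ X`; `QQ u v` = the primes `q` with `e^u < q ≤ e^v`; `SQ' u v = ∑_{q ∈ QQ u v} 1/q`;
* `rr X b 𝒟 y` = number of pairs `(d, p)`, `d ∈ 𝒟`, `√X < p ≤ X` prime, with `⌊p/(b d)⌋ = y`.
-/

set_option autoImplicit false

namespace Pool.SWP

open Finset Pool.MRZ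

/-- primes `p ≤ X` -/
def PP (X : ℕ) : Finset ℕ := (Icc 1 X).filter Nat.Prime

/-- primes `q` with `e^u < q ≤ e^v` -/
noncomputable def QQ (u v : ℕ) : Finset ℕ :=
  (Ioc ⌊Real.exp (u : ℝ)⌋₊ ⌊Real.exp (v : ℝ)⌋₊).filter Nat.Prime

/-- `∑ 1/q` over `QQ u v` -/
noncomputable def RS (u v : ℕ) : ℝ := ∑ q ∈ QQ u v, (1 : ℝ) / q

/-- number of pairs `(d, p)`, `d ∈ 𝒟`, `√X < p ≤ X` prime, with `⌊p/(b d)⌋ = y` -/
def rr (X b : ℕ) (𝒟 : Finset ℕ) (y : ℕ) : ℕ :=
  ∑ d ∈ 𝒟, ((PP X).filter (fun p => Nat.sqrt X < p ∧ p / (b * d) = y)).card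

end Pool.SWP
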