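import Mathlib
import Pool.Agent.SWP.Defs

/-!
# SWP/TwoForms: sieve upper bounds for two linear forms and for one linear form

Copy of `card_prime_pairs_le` of `Pool/Agent/Lib/PrimePairs.lean` (the case `n`, `n + d`) with the forms
`a₁ n + b₁`, `a₂ n + b₂`.

* `two_forms_le`. Let `Δ = |a₁b₂ - a₂b₁| ≠ 0`, sift by the primes `p ≤ z = y²`, `p ∤ D := 2a₁a₂Δ`: `prodPrimes =
  primProd D z`. For squarefree `e` coprime to `a₁a₂Δ` the number of `n ∈ (M, M+N]` with `e ∣ (a₁n+b₁)(a₂n+b₂)` is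
  `τ(e)/e · N + O(τ(e))`: as in `abs_count_mul_sub_le`, split by `a = gcd(e, a₁n+b₁)`: then `e/a ∣ a₂n+b₂` (a prime
  dividing both `a₁n+b₁` and `a₂n+b₂` divides `Δ`), and `a ∣ a₁n+b₁`, `b ∣ a₂n+b₂` for coprime `a, b` coprime to `a₁a₂`
  is one residue class mod `ab`. `n ↦ (a₁n+b₁)(a₂n+b₂)` is injective (`a₁, a₂ > 0`, strictly increasing), so the
  `support` can be its image. If `a₁n+b₁` is prime, `n > M ≥ z`, it is `> z`, so it is coprime to `primProd D z`.
  `G ≥ ∑_{l ∈ SQ D z} τ(l)/l ≥ (1/2)(∑_{l∈SQ D y} 1/l)²` (`sq_sum_SQ_le`) and `log_le_SQ` give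
  `N/G ≤ 8 F(D)² N/(log y)²`.
* `one_form_le`: the same with one form and density `1/e`: sift by `p ≤ z = y`, `p ∤ a`: `G ≥ ∑_{l∈SQ a y} 1/l ≥
  log y/(2F(a))` (`log_le_SQ`), error `≤ y^6`.
* `card_AP_le`: there is `C` such that for `X ≥ 2`, `E ≥ 1`, `E^4 ≤ X` and every `h`:
  `#{p ≤ X prime : E ∣ p + h} ≤ C F(E) X/(E log X)`: the `p ≡ -h (mod E)` are `p = E n + b`, `0 ≤ b < E`, `n ≤ X/E`; use
  `one_form_le` with `M = ⌊X^{1/8}⌋`-ish, `y = ⌊X^{1/16}⌋`, `N = X/E`; the `n ≤ M` contribute `≤ X^{1/8} ≤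
  C X/(E log X)`. For bounded `X` trivial.
-/

set_option autoImplicit false

namespace Pool.SWP

open Finset Pool.MRZ Pool.Agent.Lib.PrimePairs

namespace TwoForms

open BoundingSieve Pool.Agent.Lib.SelbergUpper

/-- a sieve -/
noncomputable def sv (M N D z : ℕ) (f : ℕ → ℕ) (nu : ArithmeticFunction ℝ)
    (hmult : nu.IsMultiplicative) (hpos : ∀ p : ℕ, p.Prime → 0 < nu p)
    (hlt : ∀ p : ℕ, p.Prime → p ∣ primProd D z → nu p < 1) : BoundingSieve where
  support := (Ioc M (M + N)).image f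
  prodPrimes := primProd D z
  prodPrimes_squarefree := primProd_squarefree _ _
  weights := fun _ => 1
  weights_nonneg := fun _ => zero_le_one
  totalMass := N
  nu := nu
  nu_mult := hmult
  nu_pos_of_prime := fun p hp _ => hpos p hp
  nu_lt_one_of_prime := hlt

theorem sv_le (M N D z : ℕ) (f : ℕ → ℕ) (hf : Function.Injective f) (nu : ArithmeticFunction ℝ)
    (hmult : nu.IsMultiplicative) (hpos : ∀ p : ℕ, p.Prime → 0 < nu p)
    (hlt : ∀ p : ℕ, p.Prime → p ∣ primProd D z → nu p < 1)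
    (hnu : ∀ e : ℕ, 0 < e → (1 : ℝ) / e ≤ nu e) (hz : 1 ≤ z)
    (hrem : ∀ e, e ∣ primProd D z →
      |(((Ioc M (M + N)).filter (fun n => e ∣ f n)).card : ℝ) - nu e * N| ≤ e)
    (P : ℕ → Prop) [DecidablePred P] (hP : ∀ n, M < n → P n → (primProd D z).Coprime (f n)) :
    0 < ∑ l ∈ SQ D z, nu l ∧
    (((Ioc M (M + N)).filter P).card : ℝ) ≤ N / (∑ l ∈ SQ D z, nu l) + (z : ℝ) ^ 6 := by
  have hms : ∀ e, (sv M N D z f nu hmult hpos hlt).multSum e =
      (((Ioc M (M + N)).filter (fun n => e ∣ f n)).card : ℝ) := by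
    intro e
    unfold BoundingSieve.multSum sv
    simp only
    rw [Finset.sum_image (fun a _ b _ h => hf h)]
    rw [Finset.card_filter]
    push_cast
    rfl
  have hr : ∀ e, e ∣ primProd D z → |(sv M N D z f nu hmult hpos hlt).rem e| ≤ e := by
    intro e he
    unfold BoundingSieve.rem
    rw [hms]
    exact hrem e he
  have hs : (((Ioc M (M + N)).filter P).card : ℝ) ≤ (sv M N D z f nu hmult hpos hlt).siftedSum := by
    unfold BoundingSieve.siftedSum sv
    simp only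
    rw [Finset.sum_image (fun a _ b _ h => hf h)]
    rw [Finset.card_filter]
    push_cast
    apply Finset.sum_le_sum
    intro n hn
    rw [Finset.mem_Ioc] at hn
    by_cases h : P n
    · rw [if_pos h, if_pos (hP n hn.1 h)]
    · rw [if_neg h]
      split_ifs <;> norm_num
  have hmain := siftedSum_le (sv M N D z f nu hmult hpos hlt) z hz (z : ℝ) ((z : ℝ) ^ 2)
    (by positivity)
    (by
      intro e he hez
      have he' : e ∣ primProd D z := he
      have he0 : e ≠ 0 := ((primProd_squarefree D z).squarefree_of_dvd he').ne_zero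
      have hepos : 0 < e := Nat.pos_of_ne_zero he0
      have hepos' : (0 : ℝ) < e := by exact_mod_cast hepos
      change (nu e)⁻¹ ≤ _
      have h1 := hnu e hepos
      have h2 : (nu e)⁻¹ ≤ (1 / (e : ℝ))⁻¹ := inv_anti₀ (by positivity) h1
      rw [one_div, inv_inv] at h2
      exact h2.trans (by exact_mod_cast hez))
    (by
      intro e he hez
      refine (hr e he).trans ?_
      exact_mod_cast hez)
  have hPz : primProd D z ≠ 0 := (primProd_squarefree _ _).ne_zero
  have hG : ∑ l ∈ SQ D z, nu l ≤ G (sv M N D z f nu hmult hpos hlt) z := by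
    unfold G
    have hsub : SQ D z ⊆
        ((sv M N D z f nu hmult hpos hlt).prodPrimes.divisors.filter (fun l => l ≤ z)) := by
      intro l hl
      rw [mem_SQ] at hl
      rw [Finset.mem_filter, Nat.mem_divisors]
      exact ⟨⟨dvd_primProd_of_squarefree hl.2.1 hl.1.2 hl.2.2, hPz⟩, hl.1.2⟩
    refine le_trans ?_ (Finset.sum_le_sum_of_subset_of_nonneg hsub ?_)
    · apply Finset.sum_le_sum
      intro l hl
      rw [mem_SQ] at hl
      have hlP : l ∣ (sv M N D z f nu hmult hpos hlt).prodPrimes :=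
        dvd_primProd_of_squarefree hl.2.1 hl.1.2 hl.2.2
      rw [selbergTerms_apply]
      change _ ≤ nu l * _
      have h1 : (1 : ℝ) ≤ ∏ p ∈ l.primeFactors,
          (1 - (sv M N D z f nu hmult hpos hlt).nu p)⁻¹ := by
        have : ∀ p ∈ l.primeFactors, (1 : ℝ) ≤ (1 - (sv M N D z f nu hmult hpos hlt).nu p)⁻¹ := by
          intro p hp
          have hp' := Nat.prime_of_mem_primeFactors hp
          have hpP := (Nat.dvd_of_mem_primeFactors hp).trans hlP
          have h2 := (sv M N D z f nu hmult hpos hlt).nu_lt_one_of_prime p hp' hpP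
          have h3 := (sv M N D z f nu hmult hpos hlt).nu_pos_of_prime p hp' hpP
          rw [one_le_inv₀ (by linarith)]
          linarith
        calc (1 : ℝ) = ∏ p ∈ l.primeFactors, (1 : ℝ) := by simp
          _ ≤ _ := Finset.prod_le_prod (fun _ _ => zero_le_one) this
      have h4 : (0 : ℝ) ≤ nu l := by
        have := hnu l (by omega)
        have h5 : (0 : ℝ) ≤ 1 / (l : ℝ) := by positivity
        linarith
      nlinarith
    · intro l hl _
      rw [Finset.mem_filter, Nat.mem_divisors] at hl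
      exact (selbergTerms_pos hl.1.1).le
  have hS : 0 < ∑ l ∈ SQ D z, nu l := by
    apply Finset.sum_pos
    · intro l hl
      rw [mem_SQ] at hl
      have h1 := hnu l (by omega)
      have h2 : (0 : ℝ) < 1 / (l : ℝ) := by
        have : (0 : ℝ) < l := by exact_mod_cast (by omega : 0 < l)
        positivity
      linarith
    · refine ⟨1, ?_⟩
      rw [mem_SQ]
      exact ⟨⟨le_refl 1, hz⟩, squarefree_one, Nat.coprime_one_left _⟩
  refine ⟨hS, (hs.trans hmain).trans ?_⟩
  have h6 : (z : ℝ) ^ 2 * (z : ℝ) ^ 2 * (z : ℝ) ^ 2 = (z : ℝ) ^ 6 := by ring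
  rw [h6]
  have h7 : (N : ℝ) / G (sv M N D z f nu hmult hpos hlt) z ≤ N / (∑ l ∈ SQ D z, nu l) :=
    div_le_div_of_nonneg_left (Nat.cast_nonneg N) hS hG
  have h8 : (sv M N D z f nu hmult hpos hlt).totalMass = (N : ℝ) := rfl
  rw [h8]
  linarith

/-- the density `1/n` -/
noncomputable def nuOne : ArithmeticFunction ℝ := ⟨fun n => (1 : ℝ) / n, by simp⟩

theorem nuOne_apply (n : ℕ) : nuOne n = (1 : ℝ) / n := rfl

theorem nuOne_mult : nuOne.IsMultiplicative := by
  constructor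
  · simp [nuOne_apply]
  · intro m n _
    rw [nuOne_apply, nuOne_apply, nuOne_apply]
    push_cast
    rw [div_mul_div_comm, one_mul]

/-- the divisibility condition is a residue class -/
theorem exists_res (a m b : ℕ) (ha : 0 < a) (h : a.Coprime m) :
    ∃ r : ℕ, ∀ n : ℕ, a ∣ m * n + b ↔ n ≡ r [MOD a] := by
  have : NeZero a := ⟨ha.ne'⟩
  let u : (ZMod a)ˣ := ZMod.unitOfCoprime m h.symm
  have hu : (u : ZMod a) = (m : ZMod a) := ZMod.coe_unitOfCoprime m h.symm
  refine ⟨(-(b : ZMod a) * ((u⁻¹ : (ZMod a)ˣ) : ZMod a)).val, fun n => ?_⟩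
  rw [← ZMod.natCast_eq_natCast_iff, ZMod.natCast_val, ZMod.cast_id', id,
    ← ZMod.natCast_eq_zero_iff]
  push_cast
  rw [← hu]
  constructor
  · intro h1
    have h2 : (u : ZMod a) * n = -(b : ZMod a) := eq_neg_of_add_eq_zero_left h1
    rw [← h2]
    rw [mul_comm (u : ZMod a), mul_assoc, Units.mul_inv, mul_one]
  · intro h1
    rw [h1, mul_comm (u : ZMod a), mul_assoc, Units.inv_mul, mul_one]
    ring

theorem count_pair (M N a₁ b₁ a₂ b₂ a b : ℕ) (ha : 0 < a) (hb : 0 < b) (hab : a.Coprime b)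
    (h1 : a.Coprime a₁) (h2 : b.Coprime a₂) :
    |(((Ioc M (M + N)).filter (fun n => a ∣ a₁ * n + b₁ ∧ b ∣ a₂ * n + b₂)).card : ℝ) -
      (N : ℝ) / ((a * b : ℕ) : ℝ)| ≤ 1 := by
  obtain ⟨r₁, hr₁⟩ := exists_res a a₁ b₁ ha h1
  obtain ⟨r₂, hr₂⟩ := exists_res b a₂ b₂ hb h2
  obtain ⟨r, hr1, hr2⟩ := Nat.chineseRemainder hab r₁ r₂
  have hset : (Ioc M (M + N)).filter (fun n => a ∣ a₁ * n + b₁ ∧ b ∣ a₂ * n + b₂) =
      (Ioc M (M + N)).filter (fun n => n ≡ r [MOD a * b]) := by
    apply Finset.filter_congr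
    intro n _
    rw [← Nat.modEq_and_modEq_iff_modEq_mul hab, hr₁, hr₂]
    exact ⟨fun h => ⟨h.1.trans hr1.symm, h.2.trans hr2.symm⟩,
      fun h => ⟨h.1.trans hr1, h.2.trans hr2⟩⟩
  rw [hset]
  have := abs_count_modEq_sub_le M (M + N) (a * b) r (by omega) (by positivity)
  push_cast at this ⊢
  simpa using this

theorem dvd_dist {p a₁ b₁ a₂ b₂ n : ℕ} (h1 : p ∣ a₁ * n + b₁) (h2 : p ∣ a₂ * n + b₂) :
    p ∣ Nat.dist (a₁ * b₂) (a₂ * b₁) := by
  have e1 : p ∣ a₂ * (a₁ * n + b₁) := Dvd.dvd.mul_left h1 _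
  have e2 : p ∣ a₁ * (a₂ * n + b₂) := Dvd.dvd.mul_left h2 _
  have e3 : a₂ * (a₁ * n + b₁) = a₁ * a₂ * n + a₂ * b₁ := by ring
  have e4 : a₁ * (a₂ * n + b₂) = a₁ * a₂ * n + a₁ * b₂ := by ring
  rcases le_total (a₁ * b₂) (a₂ * b₁) with h | h
  · rw [Nat.dist_eq_sub_of_le h]
    have := Nat.dvd_sub e1 e2
    rw [e3, e4, Nat.add_sub_add_left] at this
    exact this
  · rw [Nat.dist_eq_sub_of_le_right h]
    have := Nat.dvd_sub e2 e1
    rw [e3, e4, Nat.add_sub_add_left] at this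
    exact this

theorem count_mul (M N a₁ b₁ a₂ b₂ e : ℕ) (he : Squarefree e) (h1 : e.Coprime a₁)
    (h2 : e.Coprime a₂) (h3 : e.Coprime (Nat.dist (a₁ * b₂) (a₂ * b₁))) :
    |(((Ioc M (M + N)).filter (fun n => e ∣ (a₁ * n + b₁) * (a₂ * n + b₂))).card : ℝ) -
      (e.divisors.card : ℝ) / e * N| ≤ e.divisors.card := by
  have he0 : e ≠ 0 := he.ne_zero
  have hepos : 0 < e := Nat.pos_of_ne_zero he0
  have hcard : ((Ioc M (M + N)).filter (fun n => e ∣ (a₁ * n + b₁) * (a₂ * n + b₂))).card =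
      ∑ a ∈ e.divisors, ((Ioc M (M + N)).filter
        (fun n => a ∣ a₁ * n + b₁ ∧ e / a ∣ a₂ * n + b₂)).card := by
    rw [Finset.card_eq_sum_card_fiberwise (f := fun n => Nat.gcd e (a₁ * n + b₁))
      (t := e.divisors)]
    · apply Finset.sum_congr rfl
      intro a ha
      have hae : a ∣ e := (Nat.mem_divisors.mp ha).1
      have ha0 : 0 < a := Nat.pos_of_dvd_of_pos hae hepos
      congr 1
      rw [Finset.filter_filter]
      apply Finset.filter_congr
      intro n _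
      obtain ⟨b, rfl⟩ := hae
      have hb0 : 0 < b := Nat.pos_of_ne_zero (right_ne_zero_of_mul he0)
      rw [Nat.mul_div_cancel_left b ha0]
      have hab : a.Coprime b := (Nat.squarefree_mul_iff.mp he).1
      constructor
      · rintro ⟨h4, h5⟩
        have han : a ∣ a₁ * n + b₁ := by rw [← h5]; exact Nat.gcd_dvd_right _ _
        refine ⟨han, ?_⟩
        obtain ⟨k, hk⟩ := han
        have h6 : Nat.gcd b k = 1 := by
          rw [hk, Nat.gcd_mul_left] at h5
          exact (Nat.eq_of_mul_eq_mul_left ha0 (by rw [h5, mul_one]))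
        rw [hk, mul_assoc] at h4
        have h7 : b ∣ k * (a₂ * n + b₂) := (Nat.mul_dvd_mul_iff_left ha0).mp h4
        exact Nat.Coprime.dvd_of_dvd_mul_left h6 h7
      · rintro ⟨h4, h5⟩
        refine ⟨Nat.mul_dvd_mul h4 h5, ?_⟩
        have hbn : b.Coprime (a₁ * n + b₁) := by
          by_contra hcon
          obtain ⟨p, hp, hpb, hpn⟩ := Nat.Prime.not_coprime_iff_dvd.mp hcon
          have h6 : p ∣ Nat.dist (a₁ * b₂) (a₂ * b₁) := dvd_dist hpn (hpb.trans h5)
          have h7 : p ∣ a * b := Dvd.dvd.mul_left hpb a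
          have := Nat.dvd_gcd h7 h6
          rw [h3] at this
          exact hp.one_lt.ne' (Nat.dvd_one.mp this)
        rw [Nat.Coprime.gcd_mul_right_cancel a hbn]
        exact Nat.gcd_eq_left h4
    · intro n _
      simp only [Finset.mem_coe, Nat.mem_divisors]
      exact ⟨Nat.gcd_dvd_left _ _, he0⟩
  rw [hcard]
  push_cast
  have h4 : (e.divisors.card : ℝ) / e * N = ∑ a ∈ e.divisors, (N : ℝ) / e := by
    rw [Finset.sum_const, nsmul_eq_mul]; ring
  rw [h4, ← Finset.sum_sub_distrib]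
  refine (Finset.abs_sum_le_sum_abs _ _).trans ?_
  have h5 : ∀ a ∈ e.divisors,
      |(((Ioc M (M + N)).filter (fun n => a ∣ a₁ * n + b₁ ∧ e / a ∣ a₂ * n + b₂)).card : ℝ) -
        (N : ℝ) / e| ≤ 1 := by
    intro a ha
    have hae : a ∣ e := (Nat.mem_divisors.mp ha).1
    obtain ⟨b, rfl⟩ := hae
    have ha0 : 0 < a := Nat.pos_of_ne_zero (left_ne_zero_of_mul he0)
    have hb0 : 0 < b := Nat.pos_of_ne_zero (right_ne_zero_of_mul he0)
    rw [Nat.mul_div_cancel_left b ha0]
    exact count_pair M N a₁ b₁ a₂ b₂ a b ha0 hb0 (Nat.squarefree_mul_iff.mp he).1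
      (Nat.Coprime.coprime_dvd_left (Dvd.intro _ rfl) h1)
      (Nat.Coprime.coprime_dvd_left (Dvd.intro_left _ rfl) h2)
  refine (Finset.sum_le_sum h5).trans ?_
  simp

theorem count_one (M N a b e : ℕ) (he : 0 < e) (h : e.Coprime a) :
    |(((Ioc M (M + N)).filter (fun n => e ∣ a * n + b)).card : ℝ) - (1 : ℝ) / e * N| ≤ 1 := by
  obtain ⟨r, hr⟩ := exists_res e a b he h
  have hset : (Ioc M (M + N)).filter (fun n => e ∣ a * n + b) =
      (Ioc M (M + N)).filter (fun n => n ≡ r [MOD e]) := by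
    apply Finset.filter_congr
    intro n _
    exact hr n
  rw [hset]
  have := abs_count_modEq_sub_le M (M + N) e r (by omega) he
  push_cast at this ⊢
  have e1 : (1 : ℝ) / e * N = ((M : ℝ) + N - M) / e := by ring
  rw [e1]
  exact this

theorem F_ge_one {n : ℕ} (hn : 0 < n) : 1 ≤ F n := by
  unfold F
  have h := Finset.single_le_sum (f := fun e : ℕ => (1 : ℝ) / e) (s := n.divisors)
    (fun e _ => by positivity) (Nat.one_mem_divisors.2 hn.ne')
  simpa using h

theorem y_sq {y : ℕ} (hy : 2 ≤ y) : y + 1 ≤ y ^ 2 := by nlinarith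

theorem exists_y (X : ℕ) : ∃ y : ℕ, y ^ 16 ≤ X ∧ X < (y + 1) ^ 16 := by
  obtain ⟨s₁, hs₁⟩ : ∃ s, s = Nat.sqrt X := ⟨_, rfl⟩
  obtain ⟨s₂, hs₂⟩ : ∃ s, s = Nat.sqrt s₁ := ⟨_, rfl⟩
  obtain ⟨s₃, hs₃⟩ : ∃ s, s = Nat.sqrt s₂ := ⟨_, rfl⟩
  obtain ⟨y, hy⟩ : ∃ s, s = Nat.sqrt s₃ := ⟨_, rfl⟩
  have a1 : s₁ ^ 2 ≤ X := by rw [hs₁]; exact Nat.sqrt_le' X
  have a2 : s₂ ^ 2 ≤ s₁ := by rw [hs₂]; exact Nat.sqrt_le' s₁
  have a3 : s₃ ^ 2 ≤ s₂ := by rw [hs₃]; exact Nat.sqrt_le' s₂
  have a4 : y ^ 2 ≤ s₃ := by rw [hy]; exact Nat.sqrt_le' s₃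
  have b1 : X < (s₁ + 1) ^ 2 := by rw [hs₁]; exact Nat.lt_succ_sqrt' X
  have b2 : s₁ + 1 ≤ (s₂ + 1) ^ 2 := by rw [hs₂]; exact Nat.lt_succ_sqrt' s₁
  have b3 : s₂ + 1 ≤ (s₃ + 1) ^ 2 := by rw [hs₃]; exact Nat.lt_succ_sqrt' s₂
  have b4 : s₃ + 1 ≤ (y + 1) ^ 2 := by rw [hy]; exact Nat.lt_succ_sqrt' s₃
  refine ⟨y, ?_, ?_⟩
  · calc y ^ 16 = (((y ^ 2) ^ 2) ^ 2) ^ 2 := by ring
      _ ≤ ((s₃ ^ 2) ^ 2) ^ 2 := by gcongr
      _ ≤ (s₂ ^ 2) ^ 2 := by gcongr
      _ ≤ s₁ ^ 2 := by gcongr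
      _ ≤ X := a1
  · calc X < (s₁ + 1) ^ 2 := b1
      _ ≤ ((s₂ + 1) ^ 2) ^ 2 := by gcongr
      _ ≤ (((s₃ + 1) ^ 2) ^ 2) ^ 2 := by gcongr
      _ ≤ ((((y + 1) ^ 2) ^ 2) ^ 2) ^ 2 := by gcongr
      _ = (y + 1) ^ 16 := by ring

theorem Ey_le {X E y : ℕ} (hX : 2 ≤ X) (hEX : E ^ 4 ≤ X) (hy : 2 ≤ y) (hy1 : y ^ 16 ≤ X) :
    E * y ^ 7 ≤ X := by
  have h1 : y ^ 28 ≤ y ^ 32 := Nat.pow_le_pow_right (by omega) (by norm_num)
  have h2 : y ^ 32 ≤ X ^ 2 := by
    have : y ^ 32 = (y ^ 16) ^ 2 := by rw [← pow_mul]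
    rw [this]
    exact Nat.pow_le_pow_left hy1 2
  have h3 : E ^ 4 * y ^ 28 ≤ X * X ^ 2 := Nat.mul_le_mul hEX (h1.trans h2)
  have h4 : X * X ^ 2 ≤ X ^ 4 := by
    rw [← pow_succ']
    exact Nat.pow_le_pow_right (by omega) (by norm_num)
  have h5 : (E * y ^ 7) ^ 4 = E ^ 4 * y ^ 28 := by rw [mul_pow, ← pow_mul]
  have e1 : (E * y ^ 7) ^ 4 ≤ X ^ 4 := by
    rw [h5]
    exact h3.trans h4
  exact (Nat.pow_le_pow_iff_left (by norm_num)).1 e1

end TwoForms

open TwoForms

theorem two_forms_le (a₁ b₁ a₂ b₂ M N y : ℕ) (h₁ : 0 < a₁) (h₂ : 0 < a₂) (hΔ : a₁ * b₂ ≠ a₂ * b₁)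
    (hy : 2 ≤ y) (hyM : y ^ 2 ≤ M) :
    (((Ioc M (M + N)).filter (fun n => (a₁ * n + b₁).Prime ∧ (a₂ * n + b₂).Prime)).card : ℝ) ≤
      8 * F (2 * a₁ * a₂ * Nat.dist (a₁ * b₂) (a₂ * b₁)) ^ 2 * N / Real.log y ^ 2 + (y : ℝ) ^ 12 := by
  set Δ := Nat.dist (a₁ * b₂) (a₂ * b₁) with hΔdef
  have hΔ0 : 0 < Δ := Nat.dist_pos_of_ne hΔ
  set D := 2 * a₁ * a₂ * Δ with hD
  have hD0 : 0 < D := by positivity
  have hinj : Function.Injective (fun n : ℕ => (a₁ * n + b₁) * (a₂ * n + b₂)) := by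
    have key : ∀ a b : ℕ, a < b → (a₁ * a + b₁) * (a₂ * a + b₂) < (a₁ * b + b₁) * (a₂ * b + b₂) := by
      intro a b hab
      have e1 : a₁ * a < a₁ * b := Nat.mul_lt_mul_of_pos_left hab h₁
      have e2 : a₂ * a < a₂ * b := Nat.mul_lt_mul_of_pos_left hab h₂
      calc (a₁ * a + b₁) * (a₂ * a + b₂) ≤ (a₁ * b + b₁) * (a₂ * a + b₂) :=
            Nat.mul_le_mul_right _ (by omega)
        _ < (a₁ * b + b₁) * (a₂ * b + b₂) := Nat.mul_lt_mul_of_pos_left (by omega) (by omega)
    intro a b hab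
    simp only at hab
    rcases lt_trichotomy a b with h | h | h
    · have := key a b h
      omega
    · exact h
    · have := key b a h
      omega
  obtain ⟨hS, hmain⟩ := sv_le M N D (y ^ 2) (fun n => (a₁ * n + b₁) * (a₂ * n + b₂)) hinj nuPair
    nuPair_mult
    (by
      intro p hp
      rw [nuPair_prime hp]
      have := hp.pos
      positivity)
    (by
      intro p hp hpd
      rw [nuPair_prime hp]
      have h2 : p ≠ 2 := by
        rintro rfl
        apply ((dvd_primProd_iff hp).mp hpd).2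
        rw [hD, mul_assoc, mul_assoc]
        exact Dvd.intro _ rfl
      have h3 : 2 < p := lt_of_le_of_ne hp.two_le h2.symm
      rw [div_lt_one (by exact_mod_cast hp.pos)]
      exact_mod_cast h3)
    (by
      intro e he
      rw [nuPair_apply]
      have h1 : (1 : ℝ) ≤ e.divisors.card := by
        have : 0 < e.divisors.card :=
          Finset.card_pos.mpr ⟨1, Nat.mem_divisors.mpr ⟨one_dvd _, he.ne'⟩⟩
        exact_mod_cast this
      have he' : (0 : ℝ) < e := by exact_mod_cast he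
      exact div_le_div_of_nonneg_right h1 he'.le)
    (by nlinarith)
    (by
      intro e he
      have hc := coprime_primProd D (y ^ 2) he
      have hca₁ : e.Coprime a₁ := Nat.Coprime.coprime_dvd_right
        (by rw [hD]; exact ⟨2 * a₂ * Δ, by ring⟩) hc
      have hca₂ : e.Coprime a₂ := Nat.Coprime.coprime_dvd_right
        (by rw [hD]; exact ⟨2 * a₁ * Δ, by ring⟩) hc
      have hcΔ : e.Coprime Δ := Nat.Coprime.coprime_dvd_right
        (by rw [hD]; exact ⟨2 * a₁ * a₂, by ring⟩) hc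
      have h1 := count_mul M N a₁ b₁ a₂ b₂ e
        ((primProd_squarefree D (y ^ 2)).squarefree_of_dvd he) hca₁ hca₂ hcΔ
      rw [nuPair_apply]
      refine h1.trans ?_
      exact_mod_cast Nat.card_divisors_le_self e)
    (fun n => (a₁ * n + b₁).Prime ∧ (a₂ * n + b₂).Prime)
    (by
      intro n hn hp
      have hnz : y ^ 2 < n := by omega
      apply Nat.Coprime.mul_right
      · by_contra hcon
        obtain ⟨p, hp', hpe, hpD⟩ := Nat.Prime.not_coprime_iff_dvd.mp hcon
        have h1 := ((dvd_primProd_iff hp').mp hpe).1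
        have h2 := (Nat.prime_dvd_prime_iff_eq hp' hp.1).mp hpD
        have h3 : n ≤ a₁ * n := Nat.le_mul_of_pos_left n h₁
        omega
      · by_contra hcon
        obtain ⟨p, hp', hpe, hpD⟩ := Nat.Prime.not_coprime_iff_dvd.mp hcon
        have h1 := ((dvd_primProd_iff hp').mp hpe).1
        have h2 := (Nat.prime_dvd_prime_iff_eq hp' hp.2).mp hpD
        have h3 : n ≤ a₂ * n := Nat.le_mul_of_pos_left n h₂
        omega)
  have h3 := sq_sum_SQ_le D y (y ^ 2) le_rfl
  have h4 := log_le_SQ D y hD0 (by omega)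
  have hlog : 0 < Real.log y := Real.log_pos (by exact_mod_cast (by omega : 1 < y))
  have hG0 : ∑ l ∈ SQ D (y ^ 2), (l.divisors.card : ℝ) / l = ∑ l ∈ SQ D (y ^ 2), nuPair l :=
    Finset.sum_congr rfl fun l _ => (nuPair_apply l).symm
  rw [hG0] at h3
  set S := ∑ l ∈ SQ D y, (1 : ℝ) / l with hSdef
  set G0 := ∑ l ∈ SQ D (y ^ 2), nuPair l with hG0def
  have h5 : Real.log y ^ 2 ≤ 8 * F D ^ 2 * G0 := by
    have h6 : Real.log y ^ 2 ≤ (2 * F D * S) ^ 2 := by
      apply pow_le_pow_left₀ hlog.le h4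
    calc Real.log y ^ 2 ≤ (2 * F D * S) ^ 2 := h6
      _ = 4 * F D ^ 2 * S ^ 2 := by ring
      _ ≤ 4 * F D ^ 2 * (2 * G0) := by gcongr
      _ = 8 * F D ^ 2 * G0 := by ring
  have h8 : (N : ℝ) / G0 ≤ 8 * F D ^ 2 * N / Real.log y ^ 2 := by
    rw [div_le_div_iff₀ hS (by positivity)]
    have : (0 : ℝ) ≤ N := Nat.cast_nonneg N
    nlinarith
  refine hmain.trans ?_
  push_cast
  have h9 : ((y : ℝ) ^ 2) ^ 6 = (y : ℝ) ^ 12 := by ring
  rw [h9]
  linarith

theorem one_form_le (a b M N y : ℕ) (ha : 0 < a) (hy : 2 ≤ y) (hyM : y ≤ M) :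
    (((Ioc M (M + N)).filter (fun n => (a * n + b).Prime)).card : ℝ) ≤
      2 * F a * N / Real.log y + (y : ℝ) ^ 6 := by
  have hinj : Function.Injective (fun n : ℕ => a * n + b) := by
    intro m n h
    simp only at h
    exact Nat.eq_of_mul_eq_mul_left ha (by omega)
  obtain ⟨hS, hmain⟩ := sv_le M N a y (fun n => a * n + b) hinj nuOne nuOne_mult
    (by
      intro p hp
      rw [nuOne_apply]
      have : (0 : ℝ) < p := by exact_mod_cast hp.pos
      positivity)
    (by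
      intro p hp _
      rw [nuOne_apply, div_lt_one (by exact_mod_cast hp.pos)]
      exact_mod_cast hp.one_lt)
    (by
      intro e _
      rw [nuOne_apply])
    (by omega)
    (by
      intro e he
      have he0 : 0 < e := Nat.pos_of_ne_zero
        ((primProd_squarefree a y).squarefree_of_dvd he).ne_zero
      have h1 := count_one M N a b e he0 (coprime_primProd a y he)
      rw [nuOne_apply]
      refine h1.trans ?_
      exact_mod_cast he0)
    (fun n => (a * n + b).Prime)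
    (by
      intro n hn hp
      by_contra hcon
      obtain ⟨p, hp', hpe, hpD⟩ := Nat.Prime.not_coprime_iff_dvd.mp hcon
      have h1 := ((dvd_primProd_iff hp').mp hpe).1
      have h2 := (Nat.prime_dvd_prime_iff_eq hp' hp).mp hpD
      have h3 : n ≤ a * n := Nat.le_mul_of_pos_left n ha
      omega)
  have h4 := log_le_SQ a y ha (by omega)
  have hlog : 0 < Real.log y := Real.log_pos (by exact_mod_cast (by omega : 1 < y))
  have hG0 : ∑ l ∈ SQ a y, (1 : ℝ) / l = ∑ l ∈ SQ a y, nuOne l :=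
    Finset.sum_congr rfl fun l _ => (nuOne_apply l).symm
  rw [hG0] at h4
  refine hmain.trans ?_
  have h8 : (N : ℝ) / ∑ l ∈ SQ a y, nuOne l ≤ 2 * F a * N / Real.log y := by
    rw [div_le_div_iff₀ hS hlog]
    have : (0 : ℝ) ≤ N := Nat.cast_nonneg N
    nlinarith
  linarith

theorem card_AP_le : ∃ C : ℝ, 0 < C ∧ ∀ X E h : ℕ, 2 ≤ X → 1 ≤ E → E ^ 4 ≤ X →
    (((PP X).filter (fun p => E ∣ p + h)).card : ℝ) ≤ C * F E * X / (E * Real.log X) := by
  refine ⟨128, by norm_num, ?_⟩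
  intro X E h hX hE hEX
  have hlogX : 0 < Real.log X := Real.log_pos (by exact_mod_cast (by omega : 1 < X))
  have hF := F_ge_one (n := E) hE
  have hEX' : E ≤ X := (Nat.le_self_pow (by norm_num) E).trans hEX
  have hE' : (0 : ℝ) < E := by exact_mod_cast hE
  have hX' : (0 : ℝ) < X := by exact_mod_cast (by omega : 0 < X)
  -- the residue
  set b := (E - h % E) % E with hb
  have hmod : ∀ p ∈ (PP X).filter (fun p => E ∣ p + h), p % E = b := by
    intro p hp
    have hp2 := (Finset.mem_filter.1 hp).2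
    have h2 : (p + h) ≡ (b + h) [MOD E] := by
      have h3 : (b + h) ≡ 0 [MOD E] := by
        have h4 : b + h ≡ (E - h % E) + h % E [MOD E] :=
          Nat.ModEq.add (Nat.mod_modEq _ _) (Nat.mod_modEq _ _).symm
        have h5 : (E - h % E) + h % E = E := Nat.sub_add_cancel (Nat.mod_lt h hE).le
        rw [h5] at h4
        exact h4.trans (by simp [Nat.ModEq])
      exact (Nat.modEq_zero_iff_dvd.2 hp2).trans h3.symm
    have h3 : p ≡ b [MOD E] := Nat.ModEq.add_right_cancel' h h2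
    have h4 : b % E = b := by rw [hb, Nat.mod_mod]
    rw [← h4]
    exact h3
  have hcount : ((PP X).filter (fun p => E ∣ p + h)).card ≤
      ((Finset.range (X / E + 1)).filter (fun n => (E * n + b).Prime)).card := by
    apply Finset.card_le_card_of_injOn (fun p => p / E)
    · intro p hp
      have hp' := Finset.mem_filter.1 hp
      have hp1 := hp'.1
      unfold PP at hp1
      rw [Finset.mem_filter, Finset.mem_Icc] at hp1
      rw [Finset.mem_coe, Finset.mem_filter, Finset.mem_range]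
      refine ⟨Nat.lt_succ_of_le (Nat.div_le_div_right hp1.1.2), ?_⟩
      have h1 : E * (p / E) + b = p := by
        rw [← hmod p hp]
        exact Nat.div_add_mod p E
      rw [h1]
      exact hp1.2
    · intro p hp q hq hpq
      have h1 : E * (p / E) + b = p := by
        rw [← hmod p hp]
        exact Nat.div_add_mod p E
      have h2 : E * (q / E) + b = q := by
        rw [← hmod q hq]
        exact Nat.div_add_mod q E
      simp only at hpq
      rw [← h1, ← h2, hpq]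
  have hcount' : (((PP X).filter (fun p => E ∣ p + h)).card : ℝ) ≤
      (((Finset.range (X / E + 1)).filter (fun n => (E * n + b).Prime)).card : ℝ) := by
    exact_mod_cast hcount
  refine hcount'.trans ?_
  obtain ⟨y, hy1, hy2⟩ := exists_y X
  have hNle : ((X / E : ℕ) : ℝ) ≤ (X : ℝ) / E := Nat.cast_div_le
  have hXE1 : (1 : ℝ) ≤ (X : ℝ) / E := by
    rw [le_div_iff₀ hE', one_mul]
    exact_mod_cast hEX'
  by_cases hy : 2 ≤ y
  · -- the main case
    have hsplit : ((Finset.range (X / E + 1)).filter (fun n => (E * n + b).Prime)).card ≤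
        (y + 1) + ((Ioc y (y + X / E)).filter (fun n => (E * n + b).Prime)).card := by
      have hsub : (Finset.range (X / E + 1)).filter (fun n => (E * n + b).Prime) ⊆
          Finset.range (y + 1) ∪ (Ioc y (y + X / E)).filter (fun n => (E * n + b).Prime) := by
        intro n hn
        rw [Finset.mem_filter, Finset.mem_range] at hn
        rw [Finset.mem_union, Finset.mem_range, Finset.mem_filter, Finset.mem_Ioc]
        by_cases h1 : n < y + 1
        · exact Or.inl h1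
        · exact Or.inr ⟨by omega, hn.2⟩
      have h1 := (Finset.card_le_card hsub).trans (Finset.card_union_le _ _)
      rwa [Finset.card_range] at h1
    have hsplit' : (((Finset.range (X / E + 1)).filter (fun n => (E * n + b).Prime)).card : ℝ) ≤
        ((y : ℝ) + 1) + (((Ioc y (y + X / E)).filter (fun n => (E * n + b).Prime)).card : ℝ) := by
      exact_mod_cast hsplit
    have hone := one_form_le E b y (X / E) y hE hy le_rfl
    have hlogy : 0 < Real.log y := Real.log_pos (by exact_mod_cast (by omega : 1 < y))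
    have hy' : (2 : ℝ) ≤ y := by exact_mod_cast hy
    -- log X ≤ 32 log y
    have hXy : X ≤ y ^ 32 := by
      have e2 : (y + 1) ^ 16 ≤ (y ^ 2) ^ 16 := Nat.pow_le_pow_left (y_sq hy) 16
      rw [← pow_mul] at e2
      exact hy2.le.trans e2
    have hlog32 : Real.log X ≤ 32 * Real.log y := by
      have e1 : Real.log X ≤ Real.log ((y : ℝ) ^ 32) := by
        apply Real.log_le_log hX'
        exact_mod_cast hXy
      rw [Real.log_pow] at e1
      exact_mod_cast e1
    have hlogyy : Real.log y ≤ y := by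
      have := Real.log_le_sub_one_of_pos (by linarith : (0 : ℝ) < y)
      linarith
    have hEy : E * y ^ 7 ≤ X := Ey_le hX hEX hy hy1
    have hEy' : (E : ℝ) * (y : ℝ) ^ 7 ≤ X := by exact_mod_cast hEy
    have hK : (0 : ℝ) < X / (E * Real.log X) := by positivity
    have hy6 : (y : ℝ) ^ 6 ≤ 32 * (X / (E * Real.log X)) := by
      rw [mul_div_assoc', le_div_iff₀ (by positivity)]
      have e1 : Real.log X ≤ 32 * (y : ℝ) := by linarith
      calc (y : ℝ) ^ 6 * (E * Real.log X) ≤ (y : ℝ) ^ 6 * (E * (32 * (y : ℝ))) := by gcongr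
        _ = 32 * (E * (y : ℝ) ^ 7) := by ring
        _ ≤ 32 * X := by gcongr
    have hy1' : (y : ℝ) + 1 ≤ (y : ℝ) ^ 6 := by
      have e1 : (y : ℝ) + 1 ≤ (y : ℝ) ^ 2 := by exact_mod_cast y_sq hy
      have e2 : (y : ℝ) ^ 2 ≤ (y : ℝ) ^ 6 := pow_le_pow_right₀ (by linarith) (by norm_num)
      linarith
    have hmain : 2 * F E * ((X / E : ℕ) : ℝ) / Real.log y ≤
        64 * F E * (X / (E * Real.log X)) := by
      have e0 : 0 ≤ F E := by linarith
      have e1 : 2 * F E * ((X / E : ℕ) : ℝ) / Real.log y ≤ 2 * F E * ((X : ℝ) / E) / Real.log y := by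
        gcongr
      refine e1.trans ?_
      rw [div_le_iff₀ hlogy]
      have e2 : 2 * F E * ((X : ℝ) / E) =
          64 * F E * (X / (E * Real.log X)) * (Real.log X / 32) := by
        field_simp
        ring
      rw [e2]
      have e3 : Real.log X / 32 ≤ Real.log y := by linarith
      gcongr
    have hfin : 128 * F E * (X : ℝ) / (E * Real.log X) =
        64 * F E * (X / (E * Real.log X)) + 64 * F E * (X / (E * Real.log X)) := by ring
    rw [hfin]
    have h64 : 64 * (X / (E * Real.log X)) ≤ 64 * F E * (X / (E * Real.log X)) := by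
      have e1 : 1 * (X / (E * Real.log X)) ≤ F E * (X / (E * Real.log X)) :=
        mul_le_mul_of_nonneg_right hF hK.le
      linarith
    linarith
  · -- the small case
    have hXs : X ≤ 2 ^ 16 := by
      have e1 : y + 1 ≤ 2 := by omega
      calc X ≤ (y + 1) ^ 16 := hy2.le
        _ ≤ 2 ^ 16 := by gcongr
    have hlog12 : Real.log X ≤ 12 := by
      have e1 : Real.log X ≤ Real.log ((2 : ℝ) ^ 16) := by
        apply Real.log_le_log hX'
        exact_mod_cast hXs
      rw [Real.log_pow] at e1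
      have := Real.log_two_lt_d9
      push_cast at e1
      linarith
    have hc : (((Finset.range (X / E + 1)).filter (fun n => (E * n + b).Prime)).card : ℝ) ≤
        ((X / E : ℕ) : ℝ) + 1 := by
      have := Finset.card_filter_le (Finset.range (X / E + 1)) (fun n => (E * n + b).Prime)
      rw [Finset.card_range] at this
      exact_mod_cast this
    have h2 : ((X / E : ℕ) : ℝ) + 1 ≤ 2 * ((X : ℝ) / E) := by linarith
    refine hc.trans (h2.trans ?_)
    have hXE0 : (0 : ℝ) < (X : ℝ) / E := by positivity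
    have e1 : 128 * F E * (X : ℝ) / (E * Real.log X) = 128 * F E * ((X : ℝ) / E) / Real.log X := by
      field_simp
    rw [e1, le_div_iff₀ hlogX]
    have e2 : 2 * ((X : ℝ) / E) * Real.log X ≤ 2 * ((X : ℝ) / E) * 12 := by gcongr
    have e3 : 1 * ((X : ℝ) / E) ≤ F E * ((X : ℝ) / E) := mul_le_mul_of_nonneg_right hF hXE0.le
    linarith

end Pool.SWP
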