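import Mathlib
import Pool.Agent.SWP.Defs

/-!
# SWP/FSum: sums of the singular factor `F(n) = ∑_{e ∣ n} 1/e`

* `F_mul_le : F(mn) ≤ F(m) F(n)` (every divisor of `mn` is a product of a divisor of `m` and one of `n`);
  `F_ge_one`, `F_dvd : m ∣ n → F m ≤ F n` (`n > 0`); `F_two_pow : F(2^k) ≤ 2`; `F_prime : F(q) ≤ 2`.
  (`F_ge_one` is also in `Pool/Agent/MRZ/PairUp.lean`, namespace `Pool.MRZ.PairUpAux`.)
* `F_delta`: for `d, d', b ≥ 1`, `g = gcd(d,d')`:
  `∑_{j<bd} ∑_{j'<bd', d j' ≠ d' j} F(|d j' - d' j|)² ≤ C F(g)² (b d)(b d')`.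
  Proof: `|dj' - d'j| = g u` with `1 ≤ u ≤ b d d'/g`; for a given value `v = ±g u` of `dj' - d'j` two solutions
  `(j, j')` differ by a multiple of `(d/g, d'/g)` and `j < bd`, so there are at most `bg` solutions. So the sum is at
  most `2 b g ∑_{u ≤ bdd'/g} F(gu)² ≤ 2bg F(g)² ∑_{u≤bdd'/g} F(u)² ≤ 2bg F(g)² W⁴ b d d'/g` (`F² ≤ F⁴` as `F ≥ 1`, and
  `sum_F_pow_four_le` of `Pool/Agent/Lib/PrimePairsMoment.lean`).
-/

set_option autoImplicit false

namespace Pool.SWP

open Finset Pool.MRZ Pool.Agent.Lib.PrimePairs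

theorem F_ge_one (n : ℕ) (hn : 0 < n) : 1 ≤ F n := by
  unfold F
  have h := Finset.single_le_sum (f := fun e : ℕ => (1 : ℝ) / e) (fun e _ => by positivity)
    (Nat.one_mem_divisors.2 hn.ne')
  simpa using h

theorem F_mul_le (m n : ℕ) (hm : 0 < m) (hn : 0 < n) : F (m * n) ≤ F m * F n := by
  unfold F
  rw [Finset.sum_mul_sum, ← Finset.sum_product']
  have hinj : Set.InjOn (fun e : ℕ => (Nat.gcd e m, e / Nat.gcd e m))
      ((m * n).divisors : Set ℕ) := by
    intro a _ b _ hab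
    simp only [Prod.mk.injEq] at hab
    have h1 := Nat.mul_div_cancel' (Nat.gcd_dvd_left a m)
    have h2 := Nat.mul_div_cancel' (Nat.gcd_dvd_left b m)
    rw [← h1, ← h2, hab.2, hab.1]
  have hsum : ∑ e ∈ (m * n).divisors, (1 : ℝ) / e =
      ∑ p ∈ ((m * n).divisors).image (fun e : ℕ => (Nat.gcd e m, e / Nat.gcd e m)),
        (1 : ℝ) / p.1 * (1 / p.2) := by
    rw [Finset.sum_image hinj]
    refine Finset.sum_congr rfl fun e he => ?_
    have h1 := Nat.mul_div_cancel' (Nat.gcd_dvd_left e m)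
    rw [one_div_mul_one_div]
    congr 1
    exact_mod_cast h1.symm
  rw [hsum]
  refine Finset.sum_le_sum_of_subset_of_nonneg ?_ fun p _ _ => by positivity
  intro p hp
  rw [Finset.mem_image] at hp
  obtain ⟨e, he, rfl⟩ := hp
  have hed := Nat.dvd_of_mem_divisors he
  rw [Finset.mem_product]
  refine ⟨Nat.mem_divisors.2 ⟨Nat.gcd_dvd_right e m, hm.ne'⟩, Nat.mem_divisors.2 ⟨?_, hn.ne'⟩⟩
  have hg : 0 < Nat.gcd e m := Nat.gcd_pos_of_pos_right e hm
  have hcop : Nat.Coprime (e / Nat.gcd e m) (m / Nat.gcd e m) := Nat.coprime_div_gcd_div_gcd hg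
  have h3 : e / Nat.gcd e m ∣ (m / Nat.gcd e m) * n := by
    have h4 : m * n = Nat.gcd e m * ((m / Nat.gcd e m) * n) := by
      rw [← mul_assoc, Nat.mul_div_cancel' (Nat.gcd_dvd_right e m)]
    have h5 : Nat.gcd e m * (e / Nat.gcd e m) ∣ Nat.gcd e m * ((m / Nat.gcd e m) * n) := by
      rw [Nat.mul_div_cancel' (Nat.gcd_dvd_left e m), ← h4]
      exact hed
    exact Nat.dvd_of_mul_dvd_mul_left hg h5
  exact hcop.dvd_of_dvd_mul_left h3

theorem F_dvd (m n : ℕ) (hn : 0 < n) (h : m ∣ n) : F m ≤ F n := by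
  unfold F
  exact Finset.sum_le_sum_of_subset_of_nonneg (Nat.divisors_subset_of_dvd hn.ne' h)
    fun p _ _ => by positivity

theorem F_two_pow (k : ℕ) : F (2 ^ k) ≤ 2 := by
  unfold F
  rw [Nat.divisors_prime_pow Nat.prime_two, Finset.sum_map]
  simp only [Function.Embedding.coeFn_mk]
  have h : ∀ j : ℕ, ∑ i ∈ range j, (1 : ℝ) / ((2 ^ i : ℕ) : ℝ) = 2 - 2 / 2 ^ j := by
    intro j
    induction j with
    | zero => simp
    | succ j ih =>
      rw [Finset.sum_range_succ, ih]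
      push_cast
      field_simp
      ring
  rw [h]
  have : (0 : ℝ) ≤ 2 / 2 ^ (k + 1) := by positivity
  linarith

theorem F_prime (q : ℕ) (hq : q.Prime) : F q ≤ 2 := by
  unfold F
  rw [hq.divisors, Finset.sum_pair hq.one_lt.ne]
  have h1 : (1 : ℝ) ≤ q := by exact_mod_cast hq.one_lt.le
  have h2 : (1 : ℝ) / q ≤ 1 := by
    rw [div_le_one (by linarith)]
    exact h1
  simp only [Nat.cast_one, div_one]
  linarith

namespace FSumAux

/-- the number of solutions -/
theorem card_inj (d d' b : ℕ) (hd : 1 ≤ d) (T : Finset (ℕ × ℕ))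
    (hT1 : ∀ p ∈ T, p.1 < b * d)
    (hT2 : ∀ p ∈ T, ∀ q ∈ T, (d : ℤ) * ((p.2 : ℤ) - q.2) = (d' : ℤ) * ((p.1 : ℤ) - q.1)) :
    T.card ≤ b * Nat.gcd d d' := by
  have hg : 0 < Nat.gcd d d' := Nat.gcd_pos_of_pos_left d' hd
  obtain ⟨g, hgd⟩ : ∃ g, g = Nat.gcd d d' := ⟨_, rfl⟩
  rw [← hgd] at hg ⊢
  obtain ⟨d1, h1⟩ : g ∣ d := hgd ▸ Nat.gcd_dvd_left d d'
  obtain ⟨d1', h1'⟩ : g ∣ d' := hgd ▸ Nat.gcd_dvd_right d d'
  have hd1 : 0 < d1 := by
    rcases Nat.eq_zero_or_pos d1 with h | h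
    · rw [h] at h1; omega
    · exact h
  have hcop : Nat.Coprime d1 d1' := by
    have h2 := Nat.coprime_div_gcd_div_gcd (m := d) (n := d') (by rw [← hgd]; exact hg)
    rw [← hgd] at h2
    have e1 : d / g = d1 := by rw [h1]; exact Nat.mul_div_cancel_left d1 hg
    have e2 : d' / g = d1' := by rw [h1']; exact Nat.mul_div_cancel_left d1' hg
    rwa [e1, e2] at h2
  have hcard : T.card ≤ (range (b * g)).card := by
    refine Finset.card_le_card_of_injOn (fun p => p.1 / d1) ?_ ?_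
    · intro p hp
      have h3 := hT1 p hp
      simp only [Finset.coe_range, Set.mem_Iio]
      rw [Nat.div_lt_iff_lt_mul hd1]
      calc p.1 < b * d := h3
        _ = b * g * d1 := by rw [h1]; ring
    · intro p hp q hq hpq
      simp only at hpq
      have h4 := hT2 p hp q hq
      have h5 : (d1 : ℤ) * ((p.2 : ℤ) - q.2) = (d1' : ℤ) * ((p.1 : ℤ) - q.1) := by
        have hgz : (g : ℤ) ≠ 0 := by exact_mod_cast hg.ne'
        apply mul_left_cancel₀ hgz
        have e1 : (d : ℤ) = g * d1 := by rw [h1]; push_cast; ring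
        have e2 : (d' : ℤ) = g * d1' := by rw [h1']; push_cast; ring
        rw [e1, e2] at h4
        linarith
      have h6 : (d1 : ℤ) ∣ (p.1 : ℤ) - q.1 := by
        have h7 : (d1 : ℤ) ∣ (d1' : ℤ) * ((p.1 : ℤ) - q.1) := ⟨_, h5.symm⟩
        have h8 : IsCoprime (d1 : ℤ) (d1' : ℤ) := Nat.isCoprime_iff_coprime.2 hcop
        exact h8.dvd_of_dvd_mul_left h7
      have h9 : p.1 % d1 = q.1 % d1 := by
        have h10 : (q.1 : ℤ) ≡ (p.1 : ℤ) [ZMOD (d1 : ℤ)] := Int.modEq_iff_dvd.2 h6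
        exact (Int.natCast_modEq_iff.1 h10).symm
      have h11 : p.1 = q.1 := by
        rw [← Nat.div_add_mod p.1 d1, ← Nat.div_add_mod q.1 d1, hpq, h9]
      have h12 : p.2 = q.2 := by
        rw [h11, sub_self, mul_zero] at h4
        have hdz : (d : ℤ) ≠ 0 := by
          have : 0 < d := hd
          exact_mod_cast this.ne'
        rcases mul_eq_zero.1 h4 with h13 | h13
        · exact absurd h13 hdz
        · have : (p.2 : ℤ) = q.2 := by linarith
          exact_mod_cast this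
      exact Prod.ext h11 h12
  rwa [Finset.card_range] at hcard

theorem card_dist (d d' b v : ℕ) (hd : 1 ≤ d) (hv : 0 < v) :
    (((range (b * d)) ×ˢ (range (b * d'))).filter
      (fun p : ℕ × ℕ => Nat.dist (d * p.2) (d' * p.1) = v)).card ≤ 2 * (b * Nat.gcd d d') := by
  have hsub : ((range (b * d)) ×ˢ (range (b * d'))).filter
      (fun p : ℕ × ℕ => Nat.dist (d * p.2) (d' * p.1) = v) ⊆
      (((range (b * d)) ×ˢ (range (b * d'))).filter
        (fun p : ℕ × ℕ => d * p.2 = d' * p.1 + v)) ∪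
      (((range (b * d)) ×ˢ (range (b * d'))).filter
        (fun p : ℕ × ℕ => d' * p.1 = d * p.2 + v)) := by
    intro p hp
    rw [Finset.mem_filter] at hp
    rw [Finset.mem_union, Finset.mem_filter, Finset.mem_filter]
    obtain ⟨hp1, hp2⟩ := hp
    unfold Nat.dist at hp2
    rcases le_total (d * p.2) (d' * p.1) with h | h
    · right
      refine ⟨hp1, ?_⟩
      omega
    · left
      refine ⟨hp1, ?_⟩
      omega
  refine (Finset.card_le_card hsub).trans ((Finset.card_union_le _ _).trans ?_)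
  have c1 : (((range (b * d)) ×ˢ (range (b * d'))).filter
        (fun p : ℕ × ℕ => d * p.2 = d' * p.1 + v)).card ≤ b * Nat.gcd d d' := by
    refine card_inj d d' b hd _ ?_ ?_
    · intro p hp
      rw [Finset.mem_filter, Finset.mem_product, Finset.mem_range] at hp
      exact hp.1.1
    · intro p hp q hq
      rw [Finset.mem_filter] at hp hq
      have e1 : (d : ℤ) * p.2 = d' * p.1 + v := by exact_mod_cast hp.2
      have e2 : (d : ℤ) * q.2 = d' * q.1 + v := by exact_mod_cast hq.2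
      linarith
  have c2 : (((range (b * d)) ×ˢ (range (b * d'))).filter
        (fun p : ℕ × ℕ => d' * p.1 = d * p.2 + v)).card ≤ b * Nat.gcd d d' := by
    refine card_inj d d' b hd _ ?_ ?_
    · intro p hp
      rw [Finset.mem_filter, Finset.mem_product, Finset.mem_range] at hp
      exact hp.1.1
    · intro p hp q hq
      rw [Finset.mem_filter] at hp hq
      have e1 : (d' : ℤ) * p.1 = d * p.2 + v := by exact_mod_cast hp.2
      have e2 : (d' : ℤ) * q.1 = d * q.2 + v := by exact_mod_cast hq.2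
      linarith
  linarith

end FSumAux

open FSumAux

theorem F_delta : ∃ C : ℝ, 0 < C ∧ ∀ d d' b : ℕ, 1 ≤ d → 1 ≤ d' → 1 ≤ b →
    ∑ j ∈ range (b * d), ∑ j' ∈ (range (b * d')).filter (fun j' => d * j' ≠ d' * j),
      F (Nat.dist (d * j') (d' * j)) ^ 2 ≤ C * F (Nat.gcd d d') ^ 2 * (b * d) * (b * d') := by
  have hW := W_nonneg
  refine ⟨2 * W ^ 4 + 1, by positivity, fun d d' b hd hd' hb => ?_⟩
  have hg : 0 < Nat.gcd d d' := Nat.gcd_pos_of_pos_left d' hd
  obtain ⟨g, hgd⟩ : ∃ g, g = Nat.gcd d d' := ⟨_, rfl⟩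
  rw [← hgd] at hg ⊢
  obtain ⟨d1, h1⟩ : g ∣ d := hgd ▸ Nat.gcd_dvd_left d d'
  obtain ⟨d1', h1'⟩ : g ∣ d' := hgd ▸ Nat.gcd_dvd_right d d'
  obtain ⟨U, hU⟩ : ∃ U, U = b * d1 * d' := ⟨_, rfl⟩
  obtain ⟨P, hP⟩ : ∃ P : Finset (ℕ × ℕ), P = ((range (b * d)) ×ˢ (range (b * d'))).filter
      (fun p : ℕ × ℕ => d * p.2 ≠ d' * p.1) := ⟨_, rfl⟩
  have hS : ∑ j ∈ range (b * d), ∑ j' ∈ (range (b * d')).filter (fun j' => d * j' ≠ d' * j),
      F (Nat.dist (d * j') (d' * j)) ^ 2 = ∑ p ∈ P, F (Nat.dist (d * p.2) (d' * p.1)) ^ 2 := by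
    rw [hP, Finset.sum_filter, Finset.sum_product]
    refine Finset.sum_congr rfl fun j _ => ?_
    rw [Finset.sum_filter]
  rw [hS]
  -- the map to `u`
  have hdvd : ∀ p : ℕ × ℕ, g ∣ Nat.dist (d * p.2) (d' * p.1) := by
    intro p
    unfold Nat.dist
    have e1 : g ∣ d * p.2 := by rw [h1]; exact (Dvd.intro _ rfl).mul_right _
    have e2 : g ∣ d' * p.1 := by rw [h1']; exact (Dvd.intro _ rfl).mul_right _
    exact Nat.dvd_add (Nat.dvd_sub e1 e2) (Nat.dvd_sub e2 e1)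
  have hmaps : ∀ p ∈ P, Nat.dist (d * p.2) (d' * p.1) / g ∈ Icc 1 U := by
    intro p hp
    rw [hP, Finset.mem_filter, Finset.mem_product, Finset.mem_range, Finset.mem_range] at hp
    obtain ⟨⟨hp1, hp2⟩, hp3⟩ := hp
    have hpos : 0 < Nat.dist (d * p.2) (d' * p.1) := by
      unfold Nat.dist
      omega
    have hle : Nat.dist (d * p.2) (d' * p.1) ≤ g * U := by
      have e1 : d * p.2 ≤ d * (b * d') := Nat.mul_le_mul_left d hp2.le
      have e2 : d' * p.1 ≤ d' * (b * d) := Nat.mul_le_mul_left d' hp1.le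
      have e3 : d' * (b * d) = d * (b * d') := by ring
      have e4 : g * U = d * (b * d') := by rw [hU, h1]; ring
      unfold Nat.dist
      omega
    rw [Finset.mem_Icc]
    constructor
    · exact Nat.div_pos (Nat.le_of_dvd hpos (hdvd p)) hg
    · exact Nat.div_le_of_le_mul hle
  rw [← Finset.sum_fiberwise_of_maps_to hmaps]
  have hfib : ∀ u ∈ Icc 1 U, ∑ p ∈ P.filter (fun p => Nat.dist (d * p.2) (d' * p.1) / g = u),
      F (Nat.dist (d * p.2) (d' * p.1)) ^ 2 ≤ (2 * (b * g) : ℝ) * (F g ^ 2 * F u ^ 4) := by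
    intro u hu
    rw [Finset.mem_Icc] at hu
    have hu0 : 0 < u := hu.1
    have hval : ∀ p ∈ P.filter (fun p => Nat.dist (d * p.2) (d' * p.1) / g = u),
        F (Nat.dist (d * p.2) (d' * p.1)) ^ 2 ≤ F g ^ 2 * F u ^ 4 := by
      intro p hp
      rw [Finset.mem_filter] at hp
      have e1 : Nat.dist (d * p.2) (d' * p.1) = g * u := by
        rw [← hp.2, Nat.mul_div_cancel' (hdvd p)]
      rw [e1]
      have e2 := F_mul_le g u hg hu0
      have e3 := F_ge_one u hu0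
      have e4 : F (g * u) ^ 2 ≤ (F g * F u) ^ 2 := pow_le_pow_left₀ (F_nonneg _) e2 2
      have e5 : F u ^ 2 ≤ F u ^ 4 := pow_le_pow_right₀ e3 (by norm_num)
      calc F (g * u) ^ 2 ≤ (F g * F u) ^ 2 := e4
        _ = F g ^ 2 * F u ^ 2 := by ring
        _ ≤ F g ^ 2 * F u ^ 4 := mul_le_mul_of_nonneg_left e5 (by positivity)
    refine (Finset.sum_le_card_nsmul _ _ _ hval).trans ?_
    rw [nsmul_eq_mul]
    refine mul_le_mul_of_nonneg_right ?_ (by positivity)
    have hc : (P.filter (fun p => Nat.dist (d * p.2) (d' * p.1) / g = u)).card ≤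
        2 * (b * g) := by
      have h3 := card_dist d d' b (g * u) hd (Nat.mul_pos hg hu0)
      rw [← hgd] at h3
      refine le_trans (Finset.card_le_card ?_) h3
      intro p hp
      rw [Finset.mem_filter, hP, Finset.mem_filter] at hp
      rw [Finset.mem_filter]
      refine ⟨hp.1.1, ?_⟩
      rw [← hp.2, Nat.mul_div_cancel' (hdvd p)]
    exact_mod_cast hc
  calc ∑ u ∈ Icc 1 U, ∑ p ∈ P.filter (fun p => Nat.dist (d * p.2) (d' * p.1) / g = u),
        F (Nat.dist (d * p.2) (d' * p.1)) ^ 2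
      ≤ ∑ u ∈ Icc 1 U, (2 * (b * g) : ℝ) * (F g ^ 2 * F u ^ 4) := Finset.sum_le_sum hfib
    _ = (2 * (b * g) : ℝ) * F g ^ 2 * ∑ u ∈ Icc 1 U, F u ^ 4 := by
        rw [Finset.mul_sum]
        refine Finset.sum_congr rfl fun u _ => ?_
        ring
    _ ≤ (2 * (b * g) : ℝ) * F g ^ 2 * (W ^ 4 * U) :=
        mul_le_mul_of_nonneg_left (sum_F_pow_four_le U) (by positivity)
    _ = 2 * W ^ 4 * F g ^ 2 * (b * d) * (b * d') := by
        rw [hU]
        have e1 : (d : ℝ) = g * d1 := by rw [h1]; push_cast; ring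
        rw [e1]
        push_cast
        ring
    _ ≤ (2 * W ^ 4 + 1) * F g ^ 2 * (b * d) * (b * d') := by
        have : (0 : ℝ) ≤ F g ^ 2 * (b * d) * (b * d') := by positivity
        nlinarith

end Pool.SWP
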