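import Mathlib
import Pool.Agent.SWP.TwoForms
import Pool.Agent.SWP.FSum
import Pool.Agent.MRZ.PairUp

/-!
# SWP/SecMom: the points `p/(bd)` do not concentrate

For `X ≥ X₀`, `D ≥ 1`, `b = 2^k`, `(bD)^100 ≤ X`, `𝒟 ⊆ (D, 2D]` with `∑_{d∈𝒟} F(d)³ ≤ B #𝒟`, `B ≥ 1`:
`∑_{y ≤ X} rr X b 𝒟 y² ≤ C B² (#𝒟² bD X/(log X)² + #𝒟 X/log X)`.

Proof. `rr(y) = #{(d, j) : d ∈ 𝒟, 0 ≤ j < bd, bdy + j prime, √X < bdy + j ≤ X}` (`p = bdy + j`). Expand the square.
* `(d,j) = (d',j')`: in total the number of pairs `(d,p)`, at most `#𝒟 π(X) ≤ C #𝒟 X/log X`.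
* `(d,j) ≠ (d',j')`, `dj' = d'j`: none. `p = bdy+j`, `p' = bd'y+j'` satisfy `d'p = dp'`; both are primes
  `> √X > 2D ≥ d, d'`, so `p ∣ d p'`, `p ∤ d`, `p = p'`, `d = d'`, `j = j'`.
* `dj' ≠ d'j`: the number of `y` is, by `two_forms_le` with `a₁ = bd`, `b₁ = j`, `a₂ = bd'`, `b₂ = j'`, `M = ⌊X^{1/3}⌋`
  (as `bdy + j > √X` forces `y ≥ √X/(2bD) - 1 ≥ X^{0.45}`), `N = ⌊X/(bD)⌋` (`y ≤ X/(bd) < X/(bD)`) and `y = z :=
  ⌊X^{1/40}⌋`, at most `8 F(2b²dd' · b|dj'-d'j|)² (X/(bD))/(log z)² + z^{12}`. `F(2b³dd'v) ≤ F(2^{3k+1}) F(d) F(d') F(v) ≤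
  2 F(d)F(d')F(v)`. Sum over `j < bd`, `j' < bd'` by `F_delta`: `≤ C F(d)²F(d')²F(g)² (2bD)² X/(bD (log X)²) +
  (2bD)² X^{0.3}`, `F(g)² ≤ F(d) F(d')`. Sum over `d, d'`: `∑_{d,d'} F(d)³ F(d')³ ≤ B² #𝒟²`. The error terms
  `#𝒟² 4b²D² X^{0.3} ≤ #𝒟² bD X/(log X)²` for large `X` because `(bD)^100 ≤ X`.
-/

set_option autoImplicit false

namespace Pool.SWP

open Finset Pool.MRZ Pool.Agent.Lib.PrimePairs

/-- indicator that `b d y + j` is a prime in `(√X, X]` -/
noncomputable def smg (X b d j y : ℕ) : ℝ :=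
  if (b * d * y + j).Prime ∧ Nat.sqrt X < b * d * y + j ∧ b * d * y + j ≤ X then 1 else 0

lemma smg_nonneg (X b d j y : ℕ) : 0 ≤ smg X b d j y := by
  unfold smg
  split_ifs
  · exact zero_le_one
  · exact le_rfl

lemma smg_le_one (X b d j y : ℕ) : smg X b d j y ≤ 1 := by
  unfold smg
  split_ifs
  · exact le_rfl
  · exact zero_le_one

lemma sm_count (X b d y : ℕ) (hbd : 0 < b * d) :
    (((PP X).filter (fun p => Nat.sqrt X < p ∧ p / (b * d) = y)).card : ℝ) =
      ∑ j ∈ range (b * d), smg X b d j y := by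
  unfold smg
  rw [← Finset.sum_filter, Finset.sum_const, nsmul_eq_mul, mul_one]
  norm_cast
  refine Finset.card_bij (fun p _ => p % (b * d)) ?_ ?_ ?_
  · intro p hp
    simp only [PP, mem_filter, mem_Icc] at hp
    obtain ⟨⟨⟨h1, h2⟩, h3⟩, h4, h5⟩ := hp
    have h6 : b * d * y + p % (b * d) = p := by
      rw [← h5]
      exact Nat.div_add_mod p (b * d)
    rw [mem_filter, mem_range]
    refine ⟨Nat.mod_lt _ hbd, ?_⟩
    rw [h6]
    exact ⟨h3, h4, h2⟩
  · intro p hp p' hp' h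
    simp only [PP, mem_filter, mem_Icc] at hp hp'
    have h1 := Nat.div_add_mod p (b * d)
    have h2 := Nat.div_add_mod p' (b * d)
    rw [hp.2.2] at h1
    rw [hp'.2.2] at h2
    have h' : p % (b * d) = p' % (b * d) := h
    rw [← h1, ← h2, h']
  · intro j hj
    rw [mem_filter, mem_range] at hj
    obtain ⟨h1, h2, h3, h4⟩ := hj
    refine ⟨b * d * y + j, ?_, ?_⟩
    · simp only [PP, mem_filter, mem_Icc]
      refine ⟨⟨⟨h2.one_lt.le, h4⟩, h2⟩, h3, ?_⟩
      rw [Nat.mul_add_div hbd, Nat.div_eq_of_lt h1, add_zero]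
    · show (b * d * y + j) % (b * d) = j
      rw [Nat.mul_add_mod, Nat.mod_eq_of_lt h1]

lemma sm_rr (X b y : ℕ) (𝒟 : Finset ℕ) (hb : 0 < b) (hD : ∀ d ∈ 𝒟, 0 < d) :
    (rr X b 𝒟 y : ℝ) = ∑ d ∈ 𝒟, ∑ j ∈ range (b * d), smg X b d j y := by
  unfold rr
  push_cast
  exact Finset.sum_congr rfl fun d hd => sm_count X b d y (Nat.mul_pos hb (hD d hd))

/-- coincidences -/
lemma sm_diag {X b d d' j j' y : ℕ} (hd : 0 < d) (hd' : 0 < d') (hb : 0 < b)
    (hdX : d ≤ Nat.sqrt X) (hdX' : d' ≤ Nat.sqrt X)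
    (h : d * j' = d' * j) (h1 : smg X b d j y ≠ 0) (h2 : smg X b d' j' y ≠ 0) :
    d' = d ∧ j' = j := by
  unfold smg at h1 h2
  have g1 : (b * d * y + j).Prime ∧ Nat.sqrt X < b * d * y + j ∧ b * d * y + j ≤ X := by
    by_contra hc
    rw [if_neg hc] at h1
    exact h1 rfl
  have g2 : (b * d' * y + j').Prime ∧ Nat.sqrt X < b * d' * y + j' ∧ b * d' * y + j' ≤ X := by
    by_contra hc
    rw [if_neg hc] at h2
    exact h2 rfl
  obtain ⟨p1, q1, -⟩ := g1
  obtain ⟨p2, q2, -⟩ := g2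
  have e : d' * (b * d * y + j) = d * (b * d' * y + j') := by
    have : d' * (b * d * y + j) = b * d * d' * y + d' * j := by ring
    rw [this, ← h]
    ring
  have h3 : (b * d * y + j) ∣ d * (b * d' * y + j') := ⟨d', by rw [← e]; ring⟩
  have h4 : ¬ (b * d * y + j) ∣ d := fun hc => by
    have := Nat.le_of_dvd hd hc
    omega
  have h5 : (b * d * y + j) ∣ (b * d' * y + j') := (p1.dvd_mul.1 h3).resolve_left h4
  have h6 : b * d * y + j = b * d' * y + j' := (Nat.prime_dvd_prime_iff_eq p1 p2).1 h5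
  have h7 : d' = d := by
    rw [← h6] at e
    exact Nat.eq_of_mul_eq_mul_right p1.pos e
  subst h7
  refine ⟨rfl, ?_⟩
  omega

/-- the off-diagonal terms -/
lemma sm_off {X D b d d' j j' z : ℕ} (hb : 0 < b) (hD : 0 < D) (hd : D < d) (hd2 : d ≤ 2 * D)
    (hd' : D < d') (hd2' : d' ≤ 2 * D) (hj : j < b * d) (hj' : j' < b * d')
    (hne : d * j' ≠ d' * j) (hz : 2 ≤ z) (hzX : 2 * (b * D) * (z ^ 2 + 1) ≤ Nat.sqrt X) :
    ∑ y ∈ range (X + 1), smg X b d j y * smg X b d' j' y ≤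
      8 * F (2 * (b * d) * (b * d') * Nat.dist ((b * d) * j') ((b * d') * j)) ^ 2 *
        ((X / (b * D) : ℕ) : ℝ) / Real.log z ^ 2 + (z : ℝ) ^ 12 := by
  have hne' : (b * d) * j' ≠ (b * d') * j := by
    intro hc
    apply hne
    have : b * (d * j') = b * (d' * j) := by
      rw [← mul_assoc, ← mul_assoc]
      exact hc
    exact Nat.eq_of_mul_eq_mul_left hb this
  refine le_trans ?_ (two_forms_le (b * d) j (b * d') j' (z ^ 2) (X / (b * D)) z
    (Nat.mul_pos hb (by omega)) (Nat.mul_pos hb (by omega)) hne' hz le_rfl)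
  have h1 : ∀ y ∈ range (X + 1), smg X b d j y * smg X b d' j' y ≤
      if y ∈ (Ioc (z ^ 2) (z ^ 2 + X / (b * D))).filter
        (fun n => (b * d * n + j).Prime ∧ (b * d' * n + j').Prime) then (1 : ℝ) else 0 := by
    intro y _
    by_cases h : ((b * d * y + j).Prime ∧ Nat.sqrt X < b * d * y + j ∧ b * d * y + j ≤ X) ∧
        ((b * d' * y + j').Prime ∧ Nat.sqrt X < b * d' * y + j' ∧ b * d' * y + j' ≤ X)
    · rw [if_pos]
      · calc smg X b d j y * smg X b d' j' y ≤ 1 * 1 :=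
            mul_le_mul (smg_le_one _ _ _ _ _) (smg_le_one _ _ _ _ _) (smg_nonneg _ _ _ _ _)
              zero_le_one
          _ = 1 := one_mul 1
      · rw [mem_filter, mem_Ioc]
        refine ⟨⟨?_, ?_⟩, h.1.1, h.2.1⟩
        · by_contra hc
          have hc' : y ≤ z ^ 2 := not_lt.1 hc
          have h2 : b * d * y + j < 2 * (b * D) * (z ^ 2 + 1) := by
            calc b * d * y + j < b * d * y + b * d := by omega
              _ = b * d * (y + 1) := by ring
              _ ≤ b * d * (z ^ 2 + 1) := Nat.mul_le_mul_left _ (by omega)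
              _ ≤ b * (2 * D) * (z ^ 2 + 1) :=
                  Nat.mul_le_mul_right _ (Nat.mul_le_mul_left _ hd2)
              _ = 2 * (b * D) * (z ^ 2 + 1) := by ring
          have := h.1.2.1
          omega
        · have h3 : y ≤ X / (b * D) := by
            rw [Nat.le_div_iff_mul_le (Nat.mul_pos hb hD)]
            calc y * (b * D) = b * D * y := by ring
              _ ≤ b * d * y := Nat.mul_le_mul_right _ (Nat.mul_le_mul_left _ hd.le)
              _ ≤ b * d * y + j := Nat.le_add_right _ _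
              _ ≤ X := h.1.2.2
          omega
    · have h0 : smg X b d j y * smg X b d' j' y = 0 := by
        unfold smg
        by_cases h2 : (b * d * y + j).Prime ∧ Nat.sqrt X < b * d * y + j ∧ b * d * y + j ≤ X
        · have h3 : ¬ ((b * d' * y + j').Prime ∧ Nat.sqrt X < b * d' * y + j' ∧
              b * d' * y + j' ≤ X) := fun h3 => h ⟨h2, h3⟩
          rw [if_neg h3, mul_zero]
        · rw [if_neg h2, zero_mul]
      rw [h0]
      split_ifs
      · exact zero_le_one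
      · exact le_rfl
  refine (Finset.sum_le_sum h1).trans ?_
  rw [← Finset.sum_filter, Finset.sum_const, nsmul_eq_mul, mul_one]
  exact_mod_cast Finset.card_le_card (fun y hy => (mem_filter.1 hy).2)

/-- the singular factor -/
lemma sm_F {b k d d' v : ℕ} (hb : b = 2 ^ k) (hd : 0 < d) (hd' : 0 < d') (hv : 0 < v) :
    F (2 * (b * d) * (b * d') * (b * v)) ≤ 2 * (F d * (F d' * F v)) := by
  have h1 : 2 * (b * d) * (b * d') * (b * v) = 2 ^ (3 * k + 1) * (d * (d' * v)) := by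
    rw [hb]
    ring
  rw [h1]
  have h2 := F_mul_le (2 ^ (3 * k + 1)) (d * (d' * v)) (by positivity) (by positivity)
  have h3 := F_mul_le d (d' * v) hd (by positivity)
  have h4 := F_mul_le d' v hd' hv
  have h5 := F_two_pow (3 * k + 1)
  have n1 := F_nonneg d
  have n2 := F_nonneg (d * (d' * v))
  calc F (2 ^ (3 * k + 1) * (d * (d' * v))) ≤ F (2 ^ (3 * k + 1)) * F (d * (d' * v)) := h2
    _ ≤ 2 * F (d * (d' * v)) := mul_le_mul_of_nonneg_right h5 n2
    _ ≤ 2 * (F d * F (d' * v)) := by linarith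
    _ ≤ 2 * (F d * (F d' * F v)) := by
        have := mul_le_mul_of_nonneg_left h4 n1
        linarith

/-- the level `z` -/
lemma sm_level {X W : ℕ} (hX : 2 ^ 200 ≤ X) (hW : W ^ 100 ≤ X) (hW0 : 1 ≤ W) :
    ∃ z : ℕ, 2 ≤ z ∧ 2 * W * (z ^ 2 + 1) ≤ Nat.sqrt X ∧ Real.log X / 50 ≤ Real.log z ∧
      4 * (W : ℝ) * (z : ℝ) ^ 12 * Real.log X ^ 2 ≤ X := by
  have hX0 : (0 : ℝ) < X := by
    have : 0 < X := lt_of_lt_of_le (by positivity) hX
    exact_mod_cast this
  have hXr : (2 : ℝ) ^ 200 ≤ X := by exact_mod_cast hX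
  set t : ℝ := (X : ℝ) ^ ((1 : ℝ) / 200) with ht
  have ht200 : t ^ 200 = X := by
    rw [ht, ← Real.rpow_natCast, ← Real.rpow_mul hX0.le]
    norm_num
  have ht0 : 0 < t := Real.rpow_pos_of_pos hX0 _
  have ht2 : 2 ≤ t := by
    by_contra hc
    have hc' : t < 2 := not_le.1 hc
    have := pow_lt_pow_left₀ hc' ht0.le (n := 200) (by norm_num)
    rw [ht200] at this
    linarith
  have hWt : (W : ℝ) ≤ t ^ 2 := by
    by_contra hc
    have hc' : t ^ 2 < W := not_le.1 hc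
    have h1 := pow_lt_pow_left₀ hc' (by positivity) (n := 100) (by norm_num)
    rw [← pow_mul, show 2 * 100 = 200 by norm_num, ht200] at h1
    have h2 : ((W : ℝ)) ^ 100 ≤ X := by exact_mod_cast hW
    linarith
  have hlogt : Real.log t = Real.log X / 200 := by
    rw [ht, Real.log_rpow hX0]
    ring
  have h4 : t ^ 4 ≤ (⌊t ^ 5⌋₊ : ℝ) := by
    have h5 := Nat.lt_floor_add_one (t ^ 5)
    have h6 : t ^ 5 = t ^ 4 * t := by ring
    have h7 : t ^ 4 * 2 ≤ t ^ 4 * t := mul_le_mul_of_nonneg_left ht2 (by positivity)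
    have h8 : 1 ≤ t ^ 4 := one_le_pow₀ (by linarith)
    linarith
  have h5 : (⌊t ^ 5⌋₊ : ℝ) ≤ t ^ 5 := Nat.floor_le (by positivity)
  have ht4 : (16 : ℝ) ≤ t ^ 4 := by
    calc (16 : ℝ) = 2 ^ 4 := by norm_num
      _ ≤ t ^ 4 := pow_le_pow_left₀ (by norm_num) ht2 4
  have hzr : (2 : ℝ) ≤ (⌊t ^ 5⌋₊ : ℝ) := by linarith
  have hz2 : 2 ≤ ⌊t ^ 5⌋₊ := by exact_mod_cast hzr
  set z := ⌊t ^ 5⌋₊ with hz
  refine ⟨z, hz2, ?_, ?_, ?_⟩
  · rw [Nat.le_sqrt]
    have h6 : ((2 * W * (z ^ 2 + 1) : ℕ) : ℝ) ≤ 4 * t ^ 12 := by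
      push_cast
      have h7 : (z : ℝ) ^ 2 + 1 ≤ 2 * t ^ 10 := by
        have h8 : (z : ℝ) ^ 2 ≤ t ^ 10 := by
          calc (z : ℝ) ^ 2 ≤ (t ^ 5) ^ 2 := pow_le_pow_left₀ (by positivity) h5 2
            _ = t ^ 10 := by ring
        have h9 : 1 ≤ t ^ 10 := one_le_pow₀ (by linarith)
        linarith
      calc 2 * (W : ℝ) * ((z : ℝ) ^ 2 + 1) ≤ 2 * t ^ 2 * (2 * t ^ 10) := by gcongr
        _ = 4 * t ^ 12 := by ring
    have h7 : (((2 * W * (z ^ 2 + 1)) * (2 * W * (z ^ 2 + 1)) : ℕ) : ℝ) ≤ (X : ℝ) := by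
      push_cast at h6 ⊢
      have h8 : (2 * (W : ℝ) * ((z : ℝ) ^ 2 + 1)) * (2 * (W : ℝ) * ((z : ℝ) ^ 2 + 1)) ≤
          (4 * t ^ 12) * (4 * t ^ 12) := by gcongr
      have h9 : (4 * t ^ 12) * (4 * t ^ 12) ≤ t ^ 200 := by
        calc (4 * t ^ 12) * (4 * t ^ 12) = 16 * t ^ 24 := by ring
          _ ≤ t ^ 4 * t ^ 24 := by gcongr
          _ = t ^ 28 := by ring
          _ ≤ t ^ 200 := pow_le_pow_right₀ (by linarith) (by norm_num)
      rw [← ht200]
      exact h8.trans h9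
    exact_mod_cast h7
  · have h6 : Real.log (t ^ 4) ≤ Real.log z := Real.log_le_log (by positivity) h4
    rw [Real.log_pow, hlogt] at h6
    push_cast at h6
    linarith
  · have h6 := Pool.MRZ.PairUpAux.logsq_le X (by
      calc (1 : ℝ) ≤ 2 ^ 200 := by norm_num
        _ ≤ X := hXr)
    have h7 : Real.sqrt X = t ^ 100 := by
      rw [← ht200, show (200 : ℕ) = 100 * 2 by norm_num, pow_mul]
      exact Real.sqrt_sq (by positivity)
    rw [h7] at h6
    have h8 : (z : ℝ) ^ 12 ≤ t ^ 60 := by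
      calc (z : ℝ) ^ 12 ≤ (t ^ 5) ^ 12 := pow_le_pow_left₀ (by positivity) h5 12
        _ = t ^ 60 := by ring
    calc 4 * (W : ℝ) * (z : ℝ) ^ 12 * Real.log X ^ 2 ≤ 4 * t ^ 2 * t ^ 60 * (16 * t ^ 100) := by
          gcongr
      _ = (4 * 16) * t ^ 162 := by ring
      _ ≤ (t ^ 4 * t ^ 4) * t ^ 162 := by
          gcongr
          linarith
      _ = t ^ 170 := by ring
      _ ≤ t ^ 200 := pow_le_pow_right₀ (by linarith) (by norm_num)
      _ = X := ht200

/-- expansion of the square -/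
lemma sm_expand (X b y : ℕ) (𝒟 : Finset ℕ) (hb : 0 < b) (hD : ∀ d ∈ 𝒟, 0 < d)
    (hX : ∀ d ∈ 𝒟, d ≤ Nat.sqrt X) :
    (∑ d ∈ 𝒟, ∑ j ∈ range (b * d), smg X b d j y) ^ 2 ≤
      ∑ d ∈ 𝒟, ∑ j ∈ range (b * d), smg X b d j y +
      ∑ d ∈ 𝒟, ∑ d' ∈ 𝒟, ∑ j ∈ range (b * d),
        ∑ j' ∈ (range (b * d')).filter (fun j' => d * j' ≠ d' * j),
          smg X b d j y * smg X b d' j' y := by
  rw [sq, Finset.sum_mul, ← Finset.sum_add_distrib]
  apply Finset.sum_le_sum
  intro d hd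
  rw [Finset.sum_mul, Finset.sum_comm (s := 𝒟) (t := range (b * d)), ← Finset.sum_add_distrib]
  apply Finset.sum_le_sum
  intro j hj
  rw [Finset.mul_sum]
  have h1 : ∀ d' ∈ 𝒟, smg X b d j y * ∑ j' ∈ range (b * d'), smg X b d' j' y ≤
      (if d' = d then smg X b d j y else 0) +
      ∑ j' ∈ (range (b * d')).filter (fun j' => d * j' ≠ d' * j),
          smg X b d j y * smg X b d' j' y := by
    intro d' hd'
    rw [Finset.mul_sum, ← Finset.sum_filter_add_sum_filter_not (range (b * d'))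
      (fun j' => d * j' ≠ d' * j), add_comm]
    apply add_le_add_left
    have h2 : ∀ j' ∈ (range (b * d')).filter (fun j' => ¬ d * j' ≠ d' * j),
        smg X b d j y * smg X b d' j' y ≤
          if j' = j then (if d' = d then smg X b d j y else 0) else 0 := by
      intro j' hj'
      have h3 : d * j' = d' * j := not_not.1 (mem_filter.1 hj').2
      by_cases h4 : smg X b d j y * smg X b d' j' y = 0
      · rw [h4]
        split_ifs
        · exact smg_nonneg _ _ _ _ _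
        · exact le_rfl
        · exact le_rfl
      · obtain ⟨h5, h6⟩ := mul_ne_zero_iff.1 h4
        obtain ⟨h7, h8⟩ := sm_diag (hD d hd) (hD d' hd') hb (hX d hd) (hX d' hd') h3 h5 h6
        rw [if_pos h8, if_pos h7]
        calc smg X b d j y * smg X b d' j' y ≤ smg X b d j y * 1 :=
              mul_le_mul_of_nonneg_left (smg_le_one _ _ _ _ _) (smg_nonneg _ _ _ _ _)
          _ = _ := mul_one _
    refine (Finset.sum_le_sum h2).trans ?_
    rw [Finset.sum_ite_eq']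
    split_ifs
    · exact le_rfl
    · exact le_rfl
    · exact smg_nonneg _ _ _ _ _
    · exact le_rfl
  refine (Finset.sum_le_sum h1).trans ?_
  rw [Finset.sum_add_distrib, Finset.sum_ite_eq', if_pos hd]

lemma sm_PP (X : ℕ) (h : 2 ≤ X) {C : ℝ} (hC : ∀ X E h : ℕ, 2 ≤ X → 1 ≤ E → E ^ 4 ≤ X →
    (((PP X).filter (fun p => E ∣ p + h)).card : ℝ) ≤ C * F E * X / (E * Real.log X)) :
    ((PP X).card : ℝ) ≤ C * F 1 * X / Real.log X := by
  have h1 := hC X 1 0 h le_rfl (by omega)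
  rw [Finset.filter_true_of_mem (fun p _ => one_dvd _), Nat.cast_one, one_mul] at h1
  exact h1

lemma sm_first (X b d : ℕ) (hbd : 0 < b * d) :
    ∑ y ∈ range (X + 1), ∑ j ∈ range (b * d), smg X b d j y ≤ ((PP X).card : ℝ) := by
  have h1 : ∀ y ∈ range (X + 1), ∑ j ∈ range (b * d), smg X b d j y =
      (((((PP X).filter (fun p => Nat.sqrt X < p)).filter
        (fun p => p / (b * d) = y)).card : ℕ) : ℝ) := by
    intro y _
    rw [← sm_count X b d y hbd, Finset.filter_filter]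
  rw [Finset.sum_congr rfl h1]
  norm_cast
  rw [← Finset.card_eq_sum_card_fiberwise (f := fun p => p / (b * d))
    (s := (PP X).filter (fun p => Nat.sqrt X < p)) (t := range (X + 1))]
  · exact Finset.card_le_card (Finset.filter_subset _ _)
  · intro p hp
    have hp' : p ∈ (PP X).filter (fun p => Nat.sqrt X < p) := hp
    simp only [PP, mem_filter, mem_Icc] at hp'
    have h2 : p / (b * d) ≤ X := (Nat.div_le_self _ _).trans hp'.1.1.2
    exact Finset.mem_coe.2 (mem_range.2 (Nat.lt_succ_of_le h2))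

theorem second_moment : ∃ (C : ℝ) (X₀ : ℕ), 0 < C ∧ ∀ (X D b k : ℕ) (𝒟 : Finset ℕ) (B : ℝ), X₀ ≤ X →
    1 ≤ D → b = 2 ^ k → (b * D) ^ 100 ≤ X → 𝒟 ⊆ Ioc D (2 * D) → 1 ≤ B →
    ∑ d ∈ 𝒟, F d ^ 3 ≤ B * 𝒟.card →
    ∑ y ∈ range (X + 1), (rr X b 𝒟 y : ℝ) ^ 2 ≤
      C * B ^ 2 * ((𝒟.card : ℝ) ^ 2 * (b * D) * X / Real.log X ^ 2 + 𝒟.card * X / Real.log X) := by
  obtain ⟨C₁, hC₁, hAP⟩ := card_AP_le
  obtain ⟨C₂, hC₂, hF⟩ := F_delta
  have hF1 : 1 ≤ F 1 := F_ge_one 1 one_pos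
  refine ⟨320000 * C₂ + 1 + C₁ * F 1, 2 ^ 200, by positivity, ?_⟩
  intro X D b k 𝒟 B hX hD1 hbk hbD hDD hB1 hFB
  have hb0 : 0 < b := by
    rw [hbk]
    positivity
  have hW0 : 1 ≤ b * D := Nat.mul_pos hb0 hD1
  have hX2 : 2 ≤ X := le_trans (by norm_num) hX
  have hX0 : (0 : ℝ) < X := by
    have : 0 < X := by omega
    exact_mod_cast this
  have hlogX : 0 < Real.log X := Real.log_pos (by exact_mod_cast (by omega : 1 < X))
  obtain ⟨z, hz2, hzX, hzlog, hzerr⟩ := sm_level hX hbD hW0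
  have hmem : ∀ d ∈ 𝒟, D < d ∧ d ≤ 2 * D := fun d hd => mem_Ioc.1 (hDD hd)
  have hd0 : ∀ d ∈ 𝒟, 0 < d := fun d hd => by
    have := (hmem d hd).1
    omega
  have hdX : ∀ d ∈ 𝒟, d ≤ Nat.sqrt X := by
    intro d hd
    refine le_trans ?_ hzX
    calc d ≤ 2 * D := (hmem d hd).2
      _ ≤ 2 * (b * D) := Nat.mul_le_mul_left _ (Nat.le_mul_of_pos_left D hb0)
      _ ≤ 2 * (b * D) * (z ^ 2 + 1) := Nat.le_mul_of_pos_right _ (by positivity)
  have hWr : (0 : ℝ) < (b : ℝ) * D := by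
    have : 0 < b * D := hW0
    exact_mod_cast this
  have hlogz : 0 < Real.log z := Real.log_pos (by exact_mod_cast (by omega : 1 < z))
  -- the pairs
  have hpair : ∀ d ∈ 𝒟, ∀ d' ∈ 𝒟, ∑ j ∈ range (b * d),
      ∑ j' ∈ (range (b * d')).filter (fun j' => d * j' ≠ d' * j),
        ∑ y ∈ range (X + 1), smg X b d j y * smg X b d' j' y ≤
      (320000 * C₂ * (F d ^ 3 * F d' ^ 3) + 1) * ((b * D) * X / Real.log X ^ 2) := by
    intro d hd d' hd'
    have m1 := hmem d hd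
    have m2 := hmem d' hd'
    have p1 := hd0 d hd
    have p2 := hd0 d' hd'
    have f1 : 0 ≤ F d := F_nonneg d
    have f2 : 0 ≤ F d' := F_nonneg d'
    set N : ℝ := ((X / (b * D) : ℕ) : ℝ) with hN
    have hN0 : 0 ≤ N := Nat.cast_nonneg _
    have hN1 : N ≤ X / ((b : ℝ) * D) := by
      have h := Nat.cast_div_le (α := ℝ) (m := X) (n := b * D)
      push_cast at h
      rw [hN]
      exact_mod_cast h
    have t1 : ∀ j ∈ range (b * d), ∀ j' ∈ (range (b * d')).filter (fun j' => d * j' ≠ d' * j),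
        ∑ y ∈ range (X + 1), smg X b d j y * smg X b d' j' y ≤
          32 * (F d ^ 2 * F d' ^ 2) * N / Real.log z ^ 2 *
            F (Nat.dist (d * j') (d' * j)) ^ 2 + (z : ℝ) ^ 12 := by
      intro j hj j' hj'
      rw [mem_range] at hj
      rw [mem_filter, mem_range] at hj'
      refine (sm_off hb0 hD1 m1.1 m1.2 m2.1 m2.2 hj hj'.1 hj'.2 hz2 hzX).trans ?_
      have e1 : Nat.dist ((b * d) * j') ((b * d') * j) = b * Nat.dist (d * j') (d' * j) := by
        rw [mul_assoc, mul_assoc, Nat.dist_mul_left]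
      rw [e1]
      have hv : 0 < Nat.dist (d * j') (d' * j) := Nat.dist_pos_of_ne hj'.2
      have e2 := sm_F hbk p1 p2 hv
      have e3 : F (2 * (b * d) * (b * d') * (b * Nat.dist (d * j') (d' * j))) ^ 2 ≤
          (2 * (F d * (F d' * F (Nat.dist (d * j') (d' * j))))) ^ 2 :=
        pow_le_pow_left₀ (F_nonneg _) e2 2
      have e4 : 0 ≤ N / Real.log z ^ 2 := by positivity
      have e5 := mul_le_mul_of_nonneg_right e3 e4
      calc 8 * F (2 * (b * d) * (b * d') * (b * Nat.dist (d * j') (d' * j))) ^ 2 * N /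
            Real.log z ^ 2 + (z : ℝ) ^ 12
          = 8 * (F (2 * (b * d) * (b * d') * (b * Nat.dist (d * j') (d' * j))) ^ 2 *
            (N / Real.log z ^ 2)) + (z : ℝ) ^ 12 := by ring
        _ ≤ 8 * ((2 * (F d * (F d' * F (Nat.dist (d * j') (d' * j))))) ^ 2 *
            (N / Real.log z ^ 2)) + (z : ℝ) ^ 12 := by linarith
        _ = _ := by ring
    have t2 : ∑ j ∈ range (b * d), ∑ j' ∈ (range (b * d')).filter (fun j' => d * j' ≠ d' * j),
        ∑ y ∈ range (X + 1), smg X b d j y * smg X b d' j' y ≤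
        32 * (F d ^ 2 * F d' ^ 2) * N / Real.log z ^ 2 *
          (∑ j ∈ range (b * d), ∑ j' ∈ (range (b * d')).filter (fun j' => d * j' ≠ d' * j),
            F (Nat.dist (d * j') (d' * j)) ^ 2) + ((b * d : ℝ) * (b * d')) * (z : ℝ) ^ 12 := by
      calc _ ≤ ∑ j ∈ range (b * d), ∑ j' ∈ (range (b * d')).filter (fun j' => d * j' ≠ d' * j),
            (32 * (F d ^ 2 * F d' ^ 2) * N / Real.log z ^ 2 *
              F (Nat.dist (d * j') (d' * j)) ^ 2 + (z : ℝ) ^ 12) :=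
            Finset.sum_le_sum fun j hj => Finset.sum_le_sum fun j' hj' => t1 j hj j' hj'
        _ = ∑ j ∈ range (b * d), (32 * (F d ^ 2 * F d' ^ 2) * N / Real.log z ^ 2 *
              (∑ j' ∈ (range (b * d')).filter (fun j' => d * j' ≠ d' * j),
              F (Nat.dist (d * j') (d' * j)) ^ 2) +
              (((range (b * d')).filter (fun j' => d * j' ≠ d' * j)).card : ℝ) *
                (z : ℝ) ^ 12) := by
            refine Finset.sum_congr rfl fun j _ => ?_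
            rw [Finset.sum_add_distrib, Finset.mul_sum, Finset.sum_const, nsmul_eq_mul]
        _ ≤ ∑ j ∈ range (b * d), (32 * (F d ^ 2 * F d' ^ 2) * N / Real.log z ^ 2 *
              (∑ j' ∈ (range (b * d')).filter (fun j' => d * j' ≠ d' * j),
              F (Nat.dist (d * j') (d' * j)) ^ 2) + (b * d' : ℝ) * (z : ℝ) ^ 12) := by
            refine Finset.sum_le_sum fun j _ => ?_
            have h3 : (((range (b * d')).filter (fun j' => d * j' ≠ d' * j)).card : ℝ) ≤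
                (b * d' : ℝ) := by
              have := Finset.card_filter_le (range (b * d')) (fun j' => d * j' ≠ d' * j)
              rw [card_range] at this
              exact_mod_cast this
            have h4 := mul_le_mul_of_nonneg_right h3 (by positivity : (0 : ℝ) ≤ (z : ℝ) ^ 12)
            linarith
        _ = _ := by
            rw [Finset.sum_add_distrib, ← Finset.mul_sum, Finset.sum_const, nsmul_eq_mul,
              card_range]
            push_cast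
            ring
    refine t2.trans ?_
    have t3 := hF d d' b p1 p2 hb0
    have g1 : F (Nat.gcd d d') ≤ F d := F_dvd _ _ p1 (Nat.gcd_dvd_left d d')
    have g2 : F (Nat.gcd d d') ≤ F d' := F_dvd _ _ p2 (Nat.gcd_dvd_right d d')
    have g3 : F (Nat.gcd d d') ^ 2 ≤ F d * F d' := by
      rw [sq]
      exact mul_le_mul g1 g2 (F_nonneg _) f1
    have dr1 : (d : ℝ) ≤ 2 * D := by exact_mod_cast m1.2
    have dr2 : (d' : ℝ) ≤ 2 * D := by exact_mod_cast m2.2
    have q1 : (b * d : ℝ) * (b * d') ≤ 4 * ((b : ℝ) * D) ^ 2 := by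
      calc (b * d : ℝ) * (b * d') ≤ (b * (2 * D)) * (b * (2 * D)) := by gcongr
        _ = _ := by ring
    have t4 : ∑ j ∈ range (b * d), ∑ j' ∈ (range (b * d')).filter (fun j' => d * j' ≠ d' * j),
        F (Nat.dist (d * j') (d' * j)) ^ 2 ≤ C₂ * (F d * F d') * (4 * ((b : ℝ) * D) ^ 2) := by
      refine t3.trans ?_
      calc C₂ * F (Nat.gcd d d') ^ 2 * (b * d) * (b * d') =
          C₂ * F (Nat.gcd d d') ^ 2 * ((b * d : ℝ) * (b * d')) := by ring
        _ ≤ C₂ * (F d * F d') * (4 * ((b : ℝ) * D) ^ 2) := by gcongr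
    have t5 : N / Real.log z ^ 2 ≤ (X / ((b : ℝ) * D)) / (Real.log X / 50) ^ 2 := by
      gcongr
    have t6 : 32 * (F d ^ 2 * F d' ^ 2) * N / Real.log z ^ 2 *
          (∑ j ∈ range (b * d), ∑ j' ∈ (range (b * d')).filter (fun j' => d * j' ≠ d' * j),
            F (Nat.dist (d * j') (d' * j)) ^ 2) ≤
        320000 * C₂ * (F d ^ 3 * F d' ^ 3) * ((b * D) * X / Real.log X ^ 2) := by
      calc 32 * (F d ^ 2 * F d' ^ 2) * N / Real.log z ^ 2 *
          (∑ j ∈ range (b * d), ∑ j' ∈ (range (b * d')).filter (fun j' => d * j' ≠ d' * j),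
            F (Nat.dist (d * j') (d' * j)) ^ 2)
          = 32 * (F d ^ 2 * F d' ^ 2) * (N / Real.log z ^ 2) *
          (∑ j ∈ range (b * d), ∑ j' ∈ (range (b * d')).filter (fun j' => d * j' ≠ d' * j),
            F (Nat.dist (d * j') (d' * j)) ^ 2) := by ring
        _ ≤ 32 * (F d ^ 2 * F d' ^ 2) * ((X / ((b : ℝ) * D)) / (Real.log X / 50) ^ 2) *
            (C₂ * (F d * F d') * (4 * ((b : ℝ) * D) ^ 2)) := by
            have s1 : 0 ≤ ∑ j ∈ range (b * d),
                ∑ j' ∈ (range (b * d')).filter (fun j' => d * j' ≠ d' * j),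
                F (Nat.dist (d * j') (d' * j)) ^ 2 :=
              Finset.sum_nonneg fun j _ => Finset.sum_nonneg fun j' _ => by positivity
            gcongr
        _ = _ := by
            field_simp
            ring
    have t7 : ((b * d : ℝ) * (b * d')) * (z : ℝ) ^ 12 ≤ (b * D) * X / Real.log X ^ 2 := by
      rw [le_div_iff₀ (by positivity)]
      have hzerr' : 4 * ((b : ℝ) * D) * (z : ℝ) ^ 12 * Real.log X ^ 2 ≤ X := by
        have h := hzerr
        push_cast at h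
        exact h
      calc ((b * d : ℝ) * (b * d')) * (z : ℝ) ^ 12 * Real.log X ^ 2 ≤
          (4 * ((b : ℝ) * D) ^ 2) * (z : ℝ) ^ 12 * Real.log X ^ 2 := by gcongr
        _ = ((b : ℝ) * D) * (4 * ((b : ℝ) * D) * (z : ℝ) ^ 12 * Real.log X ^ 2) := by ring
        _ ≤ ((b : ℝ) * D) * X := by gcongr
    calc _ ≤ 320000 * C₂ * (F d ^ 3 * F d' ^ 3) * ((b * D) * X / Real.log X ^ 2) +
          (b * D) * X / Real.log X ^ 2 := add_le_add t6 t7
      _ = _ := by ring
  -- summation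
  have hmain : ∑ y ∈ range (X + 1), (rr X b 𝒟 y : ℝ) ^ 2 ≤
      ∑ d ∈ 𝒟, ((PP X).card : ℝ) + ∑ d ∈ 𝒟, ∑ d' ∈ 𝒟,
        (320000 * C₂ * (F d ^ 3 * F d' ^ 3) + 1) * ((b * D) * X / Real.log X ^ 2) := by
    calc ∑ y ∈ range (X + 1), (rr X b 𝒟 y : ℝ) ^ 2 ≤
        ∑ y ∈ range (X + 1), (∑ d ∈ 𝒟, ∑ j ∈ range (b * d), smg X b d j y +
          ∑ d ∈ 𝒟, ∑ d' ∈ 𝒟, ∑ j ∈ range (b * d),
            ∑ j' ∈ (range (b * d')).filter (fun j' => d * j' ≠ d' * j),
              smg X b d j y * smg X b d' j' y) := by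
          refine Finset.sum_le_sum fun y _ => ?_
          rw [sm_rr X b y 𝒟 hb0 hd0]
          exact sm_expand X b y 𝒟 hb0 hd0 hdX
      _ = ∑ d ∈ 𝒟, ∑ y ∈ range (X + 1), ∑ j ∈ range (b * d), smg X b d j y +
          ∑ d ∈ 𝒟, ∑ d' ∈ 𝒟, ∑ j ∈ range (b * d),
            ∑ j' ∈ (range (b * d')).filter (fun j' => d * j' ≠ d' * j),
              ∑ y ∈ range (X + 1), smg X b d j y * smg X b d' j' y := by
          rw [Finset.sum_add_distrib, Finset.sum_comm]
          congr 1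
          rw [Finset.sum_comm]
          refine Finset.sum_congr rfl fun d _ => ?_
          rw [Finset.sum_comm]
          refine Finset.sum_congr rfl fun d' _ => ?_
          rw [Finset.sum_comm]
          refine Finset.sum_congr rfl fun j _ => ?_
          rw [Finset.sum_comm]
      _ ≤ _ := by
          apply add_le_add
          · exact Finset.sum_le_sum fun d hd =>
              sm_first X b d (Nat.mul_pos hb0 (hd0 d hd))
          · exact Finset.sum_le_sum fun d hd => Finset.sum_le_sum fun d' hd' =>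
              hpair d hd d' hd'
  refine hmain.trans ?_
  have e1 : ∑ d ∈ 𝒟, ∑ d' ∈ 𝒟,
        (320000 * C₂ * (F d ^ 3 * F d' ^ 3) + 1) * ((b * D) * X / Real.log X ^ 2) =
      (320000 * C₂ * (∑ d ∈ 𝒟, F d ^ 3) ^ 2 + (𝒟.card : ℝ) ^ 2) *
        ((b * D) * X / Real.log X ^ 2) := by
    have e2 : ∀ d ∈ 𝒟, ∑ d' ∈ 𝒟,
        (320000 * C₂ * (F d ^ 3 * F d' ^ 3) + 1) * ((b * D) * X / Real.log X ^ 2) =
        (320000 * C₂ * (F d ^ 3 * ∑ d' ∈ 𝒟, F d' ^ 3) + 𝒟.card) *
          ((b * D) * X / Real.log X ^ 2) := by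
      intro d _
      rw [← Finset.sum_mul, Finset.sum_add_distrib, Finset.sum_const, nsmul_eq_mul, mul_one,
        ← Finset.mul_sum, ← Finset.mul_sum]
    rw [Finset.sum_congr rfl e2, ← Finset.sum_mul, Finset.sum_add_distrib, Finset.sum_const,
      nsmul_eq_mul, ← Finset.mul_sum, ← Finset.sum_mul]
    ring
  rw [e1, Finset.sum_const, nsmul_eq_mul]
  have hcard0 : (0 : ℝ) ≤ 𝒟.card := Nat.cast_nonneg _
  have hFs : (∑ d ∈ 𝒟, F d ^ 3) ^ 2 ≤ (B * 𝒟.card) ^ 2 := by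
    apply pow_le_pow_left₀ _ hFB 2
    exact Finset.sum_nonneg fun d _ => by
      have := F_nonneg d
      positivity
  have hP := sm_PP X hX2 hAP
  have hBB : 1 ≤ B ^ 2 := one_le_pow₀ hB1
  have hQ : 0 ≤ ((b : ℝ) * D) * X / Real.log X ^ 2 := by positivity
  have hR : 0 ≤ (𝒟.card : ℝ) * X / Real.log X := by positivity
  calc (𝒟.card : ℝ) * ((PP X).card : ℝ) +
      (320000 * C₂ * (∑ d ∈ 𝒟, F d ^ 3) ^ 2 + (𝒟.card : ℝ) ^ 2) *
        ((b * D) * X / Real.log X ^ 2)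
      ≤ (𝒟.card : ℝ) * (C₁ * F 1 * X / Real.log X) +
      (320000 * C₂ * (B * 𝒟.card) ^ 2 + (𝒟.card : ℝ) ^ 2) *
        ((b * D) * X / Real.log X ^ 2) := by gcongr
    _ = (C₁ * F 1) * ((𝒟.card : ℝ) * X / Real.log X) +
        (320000 * C₂ * B ^ 2 + 1) * ((𝒟.card : ℝ) ^ 2 * (((b : ℝ) * D) * X / Real.log X ^ 2)) := by
        ring
    _ ≤ ((320000 * C₂ + 1 + C₁ * F 1) * B ^ 2) * ((𝒟.card : ℝ) * X / Real.log X) +
        ((320000 * C₂ + 1 + C₁ * F 1) * B ^ 2) *
          ((𝒟.card : ℝ) ^ 2 * (((b : ℝ) * D) * X / Real.log X ^ 2)) := by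
        have k1 : 0 < C₁ * F 1 := by positivity
        apply add_le_add
        · apply mul_le_mul_of_nonneg_right _ hR
          nlinarith
        · apply mul_le_mul_of_nonneg_right _ (by positivity)
          nlinarith
    _ = _ := by ring

end Pool.SWP
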