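import Mathlib
import Pool.Agent.SWP.SecMom
import Pool.Agent.Lib.PNT

/-!
# SWP/CoreS: averages over the points `p/(bd)` are controlled by averages over all integers

With the assumptions of `second_moment`, `0 ≤ f ≤ 1` and `∑_{y ≤ X/(bD)} f(y) ≤ m X/(bD)`:
`∑_{d∈𝒟} ∑_{p≤X} f(⌊p/(bd)⌋) ≤ C B (X/log X) √m √(#𝒟² + #𝒟 log X/(bD)) + #𝒟 √X`.

Proof. The primes `p ≤ √X` contribute at most `#𝒟 √X`. The others: `∑_y rr(y) f(y)`, where `y ≤ X/(bd) ≤ X/(bD)`, so by
Cauchy–Schwarz it is at most `(∑ rr²)^{1/2} (∑_{y≤X/(bD)} f(y)²)^{1/2}`, `f² ≤ f`, and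
`(C B² (#𝒟² bD X/(log X)² + #𝒟 X/log X) · m X/(bD))^{1/2} = √C B √m (X/log X) (#𝒟² + #𝒟 log X/(bD))^{1/2}`.

`pi_lower`, `pi_upper`: `c X/log X ≤ #PP X ≤ C X/log X` (`Pool/Agent/Lib/PNT.lean`: `pi_nat`), for `X ≥ 2`.
-/

set_option autoImplicit false

namespace Pool.SWP

open Finset Pool.MRZ Pool.Agent.Lib.PrimePairs

lemma card_PP (X : ℕ) : (PP X).card = Nat.primeCounting X := by
  rw [← Nat.primesLE_card_eq_primeCounting]
  congr 1
  ext p
  simp only [PP, mem_filter, mem_Icc, Nat.mem_primesLE]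
  constructor
  · rintro ⟨⟨_, h1⟩, h2⟩
    exact ⟨h1, h2⟩
  · rintro ⟨h1, h2⟩
    exact ⟨⟨h2.one_lt.le, h1⟩, h2⟩

theorem pi_bounds : ∃ c C : ℝ, 0 < c ∧ 0 < C ∧ ∀ X : ℕ, 2 ≤ X →
    c * X / Real.log X ≤ ((PP X).card : ℝ) ∧ ((PP X).card : ℝ) ≤ C * X / Real.log X := by
  have h := Pool.Agent.Lib.PNT.pi_nat
  have h1 : ∀ᶠ n : ℕ in Filter.atTop, (1 : ℝ) / 2 < (Nat.primeCounting n : ℝ) * Real.log n / n :=
    h.eventually_const_lt (by norm_num)
  have h2 : ∀ᶠ n : ℕ in Filter.atTop, (Nat.primeCounting n : ℝ) * Real.log n / n < 2 :=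
    h.eventually_lt_const (by norm_num)
  obtain ⟨N, hN⟩ := Filter.eventually_atTop.1 (h1.and h2)
  have hlog2 : 0 < Real.log 2 := Real.log_pos (by norm_num)
  set M : ℕ := max N 2 with hM
  have hM2 : (2 : ℝ) ≤ M := by exact_mod_cast le_max_right N 2
  have hlogM : 0 < Real.log M := Real.log_pos (by linarith)
  refine ⟨min (1 / 2) (Real.log 2 / M), max 2 (Real.log M), ?_, ?_, ?_⟩
  · exact lt_min (by norm_num) (by positivity)
  · exact lt_max_of_lt_left (by norm_num)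
  · intro X hX
    have hXr : (2 : ℝ) ≤ X := by exact_mod_cast hX
    have hX0 : (0 : ℝ) < X := by linarith
    have hlog : 0 < Real.log X := Real.log_pos (by linarith)
    rw [card_PP]
    rcases le_total N X with hNX | hNX
    · obtain ⟨a1, a2⟩ := hN X hNX
      rw [lt_div_iff₀ hX0] at a1
      rw [div_lt_iff₀ hX0] at a2
      rw [div_le_iff₀ hlog, le_div_iff₀ hlog]
      constructor
      · have := mul_le_mul_of_nonneg_right (min_le_left (1 / 2 : ℝ) (Real.log 2 / M)) hX0.le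
        linarith
      · have := mul_le_mul_of_nonneg_right (le_max_left (2 : ℝ) (Real.log M)) hX0.le
        linarith
    · have hXM : (X : ℝ) ≤ M := by
        have : X ≤ M := hNX.trans (le_max_left _ _)
        exact_mod_cast this
      have hpi : (1 : ℝ) ≤ (Nat.primeCounting X : ℝ) := by
        have h3 : 1 ≤ Nat.primeCounting X := by
          have h4 := Nat.monotone_primeCounting hX
          have h5 : Nat.primeCounting 2 = 1 := by decide
          omega
        exact_mod_cast h3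
      have hpi2 : (Nat.primeCounting X : ℝ) ≤ X := by
        have h3 : (PP X).card ≤ X := by
          have := Finset.card_filter_le (Icc 1 X) Nat.Prime
          rw [Nat.card_Icc] at this
          simpa [PP] using this
        rw [card_PP] at h3
        exact_mod_cast h3
      rw [div_le_iff₀ hlog, le_div_iff₀ hlog]
      constructor
      · have b1 : min (1 / 2 : ℝ) (Real.log 2 / M) * X ≤ Real.log 2 / M * X :=
          mul_le_mul_of_nonneg_right (min_le_right _ _) hX0.le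
        have b2 : Real.log 2 / M * X ≤ Real.log 2 := by
          rw [div_mul_eq_mul_div, div_le_iff₀ (by linarith)]
          exact mul_le_mul_of_nonneg_left hXM hlog2.le
        have b3 : Real.log 2 ≤ Real.log X := Real.log_le_log (by norm_num) hXr
        have b4 : 1 * Real.log X ≤ (Nat.primeCounting X : ℝ) * Real.log X :=
          mul_le_mul_of_nonneg_right hpi hlog.le
        linarith
      · have b1 : Real.log M * X ≤ max 2 (Real.log M) * X :=
          mul_le_mul_of_nonneg_right (le_max_right _ _) hX0.le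
        have b2 : Real.log X ≤ Real.log M := Real.log_le_log hX0 hXM
        calc (Nat.primeCounting X : ℝ) * Real.log X ≤ X * Real.log M :=
              mul_le_mul hpi2 b2 hlog.le hX0.le
          _ = Real.log M * X := by ring
          _ ≤ _ := b1

lemma core_small (X b d : ℕ) (f : ℕ → ℝ) (hf : ∀ y, 0 ≤ f y ∧ f y ≤ 1) :
    ∑ p ∈ (PP X).filter (fun p => ¬ Nat.sqrt X < p), f (p / (b * d)) ≤ Real.sqrt X := by
  calc ∑ p ∈ (PP X).filter (fun p => ¬ Nat.sqrt X < p), f (p / (b * d))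
      ≤ ∑ p ∈ (PP X).filter (fun p => ¬ Nat.sqrt X < p), (1 : ℝ) :=
        Finset.sum_le_sum fun p _ => (hf _).2
    _ = (((PP X).filter (fun p => ¬ Nat.sqrt X < p)).card : ℝ) := by
        rw [Finset.sum_const, nsmul_eq_mul, mul_one]
    _ ≤ (Nat.sqrt X : ℝ) := by
        have h : ((PP X).filter (fun p => ¬ Nat.sqrt X < p)).card ≤ (Icc 1 (Nat.sqrt X)).card := by
          refine Finset.card_le_card fun p hp => ?_
          simp only [PP, mem_filter, mem_Icc, not_lt] at hp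
          exact mem_Icc.2 ⟨hp.1.1.1, hp.2⟩
        rw [Nat.card_Icc] at h
        exact_mod_cast (by omega : ((PP X).filter (fun p => ¬ Nat.sqrt X < p)).card ≤ Nat.sqrt X)
    _ ≤ Real.sqrt X := Real.nat_sqrt_le_real_sqrt

lemma core_large (X b D d : ℕ) (f : ℕ → ℝ) (hb : 0 < b) (hD : 0 < D) (hd : D < d) :
    ∑ p ∈ (PP X).filter (fun p => Nat.sqrt X < p), f (p / (b * d)) =
      ∑ y ∈ range (X / (b * D) + 1),
        (((PP X).filter (fun p => Nat.sqrt X < p ∧ p / (b * d) = y)).card : ℝ) * f y := by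
  rw [← Finset.sum_fiberwise_of_maps_to (g := fun p => p / (b * d))
    (t := range (X / (b * D) + 1))]
  · refine Finset.sum_congr rfl fun y _ => ?_
    rw [Finset.filter_filter]
    rw [Finset.sum_congr rfl (g := fun _ => f y)]
    · rw [Finset.sum_const, nsmul_eq_mul]
    · intro p hp
      rw [(mem_filter.1 hp).2.2]
  · intro p hp
    simp only [PP, mem_filter, mem_Icc] at hp
    rw [mem_range, Nat.lt_succ_iff]
    calc p / (b * d) ≤ X / (b * d) := Nat.div_le_div_right hp.1.1.2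
      _ ≤ X / (b * D) := Nat.div_le_div_left (Nat.mul_le_mul_left _ hd.le) (Nat.mul_pos hb hD)

theorem core : ∃ (C : ℝ) (X₀ : ℕ), 0 < C ∧ ∀ (X D b k : ℕ) (𝒟 : Finset ℕ) (B m : ℝ) (f : ℕ → ℝ), X₀ ≤ X →
    1 ≤ D → b = 2 ^ k → (b * D) ^ 100 ≤ X → 𝒟 ⊆ Ioc D (2 * D) → 1 ≤ B →
    ∑ d ∈ 𝒟, F d ^ 3 ≤ B * 𝒟.card → (∀ y, 0 ≤ f y ∧ f y ≤ 1) → 0 ≤ m →
    ∑ y ∈ range (X / (b * D) + 1), f y ≤ m * ((X : ℝ) / (b * D)) →
    ∑ d ∈ 𝒟, ∑ p ∈ PP X, f (p / (b * d)) ≤
      C * B * (X / Real.log X) * Real.sqrt m *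
        Real.sqrt ((𝒟.card : ℝ) ^ 2 + 𝒟.card * Real.log X / (b * D)) + 𝒟.card * Real.sqrt X := by
  obtain ⟨C, X₀, hC, hmom⟩ := second_moment
  refine ⟨Real.sqrt C, max X₀ 2, Real.sqrt_pos.2 hC, ?_⟩
  intro X D b k 𝒟 B m f hX hD1 hbk hbD hDD hB1 hFB hf hm hfm
  have hb0 : 0 < b := by
    rw [hbk]
    positivity
  have hX2 : 2 ≤ X := (le_max_right _ _).trans hX
  have hX0 : (0 : ℝ) < X := by
    have : 0 < X := by omega
    exact_mod_cast this
  have hlogX : 0 < Real.log X := Real.log_pos (by exact_mod_cast (by omega : 1 < X))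
  have hM := hmom X D b k 𝒟 B ((le_max_left _ _).trans hX) hD1 hbk hbD hDD hB1 hFB
  have hWr : (0 : ℝ) < (b : ℝ) * D := by
    have : 0 < b * D := Nat.mul_pos hb0 hD1
    exact_mod_cast this
  set Q : ℝ := C * B ^ 2 *
    ((𝒟.card : ℝ) ^ 2 * (b * D) * X / Real.log X ^ 2 + 𝒟.card * X / Real.log X) with hQ
  -- splitting
  have h1 : ∑ d ∈ 𝒟, ∑ p ∈ PP X, f (p / (b * d)) =
      ∑ d ∈ 𝒟, ∑ p ∈ (PP X).filter (fun p => Nat.sqrt X < p), f (p / (b * d)) +
      ∑ d ∈ 𝒟, ∑ p ∈ (PP X).filter (fun p => ¬ Nat.sqrt X < p), f (p / (b * d)) := by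
    rw [← Finset.sum_add_distrib]
    refine Finset.sum_congr rfl fun d _ => ?_
    rw [Finset.sum_filter_add_sum_filter_not]
  have h2 : ∑ d ∈ 𝒟, ∑ p ∈ (PP X).filter (fun p => ¬ Nat.sqrt X < p), f (p / (b * d)) ≤
      𝒟.card * Real.sqrt X := by
    calc _ ≤ ∑ d ∈ 𝒟, Real.sqrt X := Finset.sum_le_sum fun d _ => core_small X b d f hf
      _ = _ := by rw [Finset.sum_const, nsmul_eq_mul]
  have h3 : ∑ d ∈ 𝒟, ∑ p ∈ (PP X).filter (fun p => Nat.sqrt X < p), f (p / (b * d)) =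
      ∑ y ∈ range (X / (b * D) + 1), (rr X b 𝒟 y : ℝ) * f y := by
    rw [Finset.sum_congr rfl fun d hd => core_large X b D d f hb0 hD1 (mem_Ioc.1 (hDD hd)).1,
      Finset.sum_comm]
    refine Finset.sum_congr rfl fun y _ => ?_
    rw [rr, Nat.cast_sum, Finset.sum_mul]
  have h4 : ∑ y ∈ range (X / (b * D) + 1), (rr X b 𝒟 y : ℝ) * f y ≤
      Real.sqrt (∑ y ∈ range (X / (b * D) + 1), (rr X b 𝒟 y : ℝ) ^ 2) *
      Real.sqrt (∑ y ∈ range (X / (b * D) + 1), f y ^ 2) :=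
    Real.sum_mul_le_sqrt_mul_sqrt _ _ _
  have h5 : ∑ y ∈ range (X / (b * D) + 1), (rr X b 𝒟 y : ℝ) ^ 2 ≤ Q := by
    refine le_trans ?_ hM
    refine Finset.sum_le_sum_of_subset_of_nonneg ?_ fun y _ _ => sq_nonneg _
    intro y hy
    rw [mem_range] at hy ⊢
    have := Nat.div_le_self X (b * D)
    omega
  have h6 : ∑ y ∈ range (X / (b * D) + 1), f y ^ 2 ≤ m * ((X : ℝ) / (b * D)) := by
    refine le_trans (Finset.sum_le_sum fun y _ => ?_) hfm
    rw [sq]
    calc f y * f y ≤ f y * 1 := mul_le_mul_of_nonneg_left (hf y).2 (hf y).1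
      _ = f y := mul_one _
  have hQ0 : 0 ≤ Q := by
    rw [hQ]
    positivity
  have h7 : Real.sqrt Q * Real.sqrt (m * ((X : ℝ) / (b * D))) =
      Real.sqrt C * B * (X / Real.log X) * Real.sqrt m *
        Real.sqrt ((𝒟.card : ℝ) ^ 2 + 𝒟.card * Real.log X / (b * D)) := by
    rw [← Real.sqrt_mul hQ0]
    have e : Q * (m * ((X : ℝ) / (b * D))) = (B * (X / Real.log X)) ^ 2 *
        (C * (m * ((𝒟.card : ℝ) ^ 2 + 𝒟.card * Real.log X / (b * D)))) := by
      rw [hQ]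
      have hb' : (b : ℝ) ≠ 0 := by positivity
      have hD' : (D : ℝ) ≠ 0 := by
        have : 0 < D := hD1
        positivity
      field_simp
    rw [e, Real.sqrt_mul (sq_nonneg _), Real.sqrt_sq (by positivity), Real.sqrt_mul hC.le,
      Real.sqrt_mul hm]
    ring
  rw [h1]
  refine add_le_add ?_ h2
  rw [h3]
  refine h4.trans ?_
  rw [← h7]
  exact mul_le_mul (Real.sqrt_le_sqrt h5) (Real.sqrt_le_sqrt h6) (Real.sqrt_nonneg _)
    (Real.sqrt_nonneg _)

end Pool.SWP
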