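import Mathlib
import Pool.Agent.SWP.Defs
import Pool.Agent.MRZ.PVb
import Pool.Agent.Lib.PNT

/-!
# SWP/MertP: the sums `RS u v = ∑_{e^u < q ≤ e^v} 1/q`

* `RS_bounds`: there is `C > 0` with `log(v/u) - C ≤ RS u v ≤ log(v/u) + C` for `1 ≤ u ≤ v`
  (`PVb.mertens_nat` of `Pool/Agent/MRZ/PVb.lean`, see the proof of `LL_ge` there).
* `RS_pos`: for every real `κ > 1` there are `c > 0`, `u₀` such that `RS u v ≥ c` for `u ≥ u₀`, `v ≥ κ u`.
  Proof: by the prime number theorem (`pi_nat`), `#{q : y < q ≤ 2y} ≥ y/(2 log y)` for `y ≥ y₀`, so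
  `∑_{y<q≤2y} 1/q ≥ 1/(4 log y)`. The intervals `(e^u 2^i, e^u 2^{i+1}]`, `0 ≤ i < I`, `I = ⌊(κ' - 1)u/log 2⌋`,
  `κ' = min(κ, 2)`, are disjoint and contained in `(e^u, e^v]` and have `y ≤ e^{2u}`, so `RS u v ≥ I/(8u) ≥ c(κ)`
  for `u` large. (Round the endpoints to natural numbers.)
* `QQ_card`: `#QQ u v ≤ e^v`; `QQ_blocks`: for `V ≥ 1`, `QQ u v` is the disjoint union of the blocks `PV V w`,
  `V u ≤ w < V v` (`Pool.MRZ.PV`; compare `PVb.LL_eq`): stated as an identity of sums.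
-/

set_option autoImplicit false

namespace Pool.SWP

open Finset Pool.MRZ

lemma RS_eq (u v : ℕ) (huv : u ≤ v) :
    RS u v = PVb.S ⌊Real.exp (v : ℝ)⌋₊ - PVb.S ⌊Real.exp (u : ℝ)⌋₊ := by
  unfold RS QQ
  refine PVb.S_sub (Nat.floor_le_floor (Real.exp_le_exp.mpr ?_))
  exact_mod_cast huv

/-- `log log ⌊e^a⌋` is close to `log a` -/
lemma loglog_floor (a : ℕ) (ha : 1 ≤ a) : 2 ≤ ⌊Real.exp (a : ℝ)⌋₊ ∧
    Real.log (Real.log (⌊Real.exp (a : ℝ)⌋₊ : ℝ)) ≤ Real.log a ∧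
    Real.log a - Real.log 4 ≤ Real.log (Real.log (⌊Real.exp (a : ℝ)⌋₊ : ℝ)) := by
  have ha0 : (1 : ℝ) ≤ a := by exact_mod_cast ha
  have he : (2 : ℝ) ≤ Real.exp 1 := by
    have := Real.exp_one_gt_d9; linarith
  have hea : (2 : ℝ) ≤ Real.exp a := he.trans (Real.exp_le_exp.mpr ha0)
  have h2a : 2 ≤ ⌊Real.exp (a : ℝ)⌋₊ := Nat.le_floor (by exact_mod_cast hea)
  have h2a' : (2 : ℝ) ≤ (⌊Real.exp (a : ℝ)⌋₊ : ℝ) := by exact_mod_cast h2a
  refine ⟨h2a, ?_, ?_⟩
  · refine Real.log_le_log (Real.log_pos (by linarith)) ?_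
    have := Real.log_le_log (by linarith : (0 : ℝ) < (⌊Real.exp (a : ℝ)⌋₊ : ℝ))
      (Nat.floor_le (Real.exp_pos (a : ℝ)).le)
    rwa [Real.log_exp] at this
  · rw [← Real.log_div (by positivity) (by norm_num)]
    refine Real.log_le_log (by positivity) ?_
    have h5 : Real.exp a / 2 ≤ (⌊Real.exp (a : ℝ)⌋₊ : ℝ) := by
      have := Nat.lt_floor_add_one (Real.exp (a : ℝ))
      linarith
    have h6 := Real.log_le_log (by positivity) h5
    rw [Real.log_div (Real.exp_pos _).ne' (by norm_num), Real.log_exp] at h6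
    have h7 : Real.log 2 < 0.6931471808 := Real.log_two_lt_d9
    linarith

theorem RS_bounds : ∃ C : ℝ, 0 < C ∧ ∀ u v : ℕ, 1 ≤ u → u ≤ v →
    Real.log ((v : ℝ) / u) - C ≤ RS u v ∧ RS u v ≤ Real.log ((v : ℝ) / u) + C := by
  obtain ⟨C, hC0, hC⟩ := PVb.mertens_nat
  have hl4 : 0 < Real.log 4 := Real.log_pos (by norm_num)
  refine ⟨2 * C + Real.log 4, by positivity, fun u v hu huv => ?_⟩
  rw [RS_eq u v huv]
  obtain ⟨a1, a2, a3⟩ := loglog_floor u hu
  obtain ⟨b1, b2, b3⟩ := loglog_floor v (hu.trans huv)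
  have ea := hC _ a1
  have eb := hC _ b1
  rw [abs_le] at ea eb
  have hu0 : (0 : ℝ) < u := by exact_mod_cast hu
  have hv0 : (0 : ℝ) < v := by exact_mod_cast hu.trans huv
  rw [Real.log_div (by positivity) (by positivity)]
  constructor
  · linarith [ea.2, eb.1]
  · linarith [ea.1, eb.2]

/-- one block of length one, by the prime number theorem -/
lemma RS_block : ∃ u₀ : ℕ, ∀ j : ℕ, u₀ ≤ j → 1 / (2 * ((j : ℝ) + 1)) ≤ RS j (j + 1) := by
  have h := Pool.Agent.Lib.PNT.theta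
  rw [Metric.tendsto_atTop] at h
  obtain ⟨x₀, hx₀⟩ := h (1 / 20) (by norm_num)
  refine ⟨⌈x₀⌉₊, fun j hj => ?_⟩
  have hj0 : (0 : ℝ) ≤ j := Nat.cast_nonneg j
  have hxj : x₀ ≤ Real.exp (j : ℝ) := by
    have h1 : x₀ ≤ (j : ℝ) := (Nat.le_ceil x₀).trans (by exact_mod_cast hj)
    have h2 := Real.add_one_le_exp (j : ℝ)
    linarith
  have hejj : Real.exp ((j : ℝ) + 1) = Real.exp j * Real.exp 1 := Real.exp_add _ _
  have he1 : (2.7 : ℝ) < Real.exp 1 := by
    have := Real.exp_one_gt_d9; linarith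
  have hE : 0 < Real.exp (j : ℝ) := Real.exp_pos _
  have hE' : 0 < Real.exp ((j : ℝ) + 1) := Real.exp_pos _
  have hxj' : x₀ ≤ Real.exp ((j : ℝ) + 1) :=
    hxj.trans (Real.exp_le_exp.mpr (by linarith))
  have e1 := hx₀ _ hxj
  have e2 := hx₀ _ hxj'
  rw [Real.dist_eq, abs_lt] at e1 e2
  have t1 : Chebyshev.theta (Real.exp (j : ℝ)) ≤ 1.05 * Real.exp (j : ℝ) := by
    have : Chebyshev.theta (Real.exp (j : ℝ)) / Real.exp (j : ℝ) ≤ 1.05 := by
      linarith [e1.2]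
    rwa [div_le_iff₀ hE] at this
  have t2 : 0.95 * Real.exp ((j : ℝ) + 1) ≤ Chebyshev.theta (Real.exp ((j : ℝ) + 1)) := by
    have : 0.95 ≤ Chebyshev.theta (Real.exp ((j : ℝ) + 1)) / Real.exp ((j : ℝ) + 1) := by
      linarith [e2.1]
    rwa [le_div_iff₀ hE'] at this
  have hle : ⌊Real.exp (j : ℝ)⌋₊ ≤ ⌊Real.exp ((j : ℝ) + 1)⌋₊ :=
    Nat.floor_le_floor (Real.exp_le_exp.mpr (by linarith))
  have hsum : ∑ q ∈ QQ j (j + 1), Real.log q =
      Chebyshev.theta (Real.exp ((j : ℝ) + 1)) - Chebyshev.theta (Real.exp (j : ℝ)) := by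
    rw [Chebyshev.theta, Chebyshev.theta]
    unfold QQ
    push_cast
    rw [Finset.sum_filter, Finset.sum_filter, Finset.sum_filter]
    have := Finset.sum_Ioc_consecutive (fun p : ℕ => if p.Prime then Real.log p else 0)
      (Nat.zero_le ⌊Real.exp (j : ℝ)⌋₊) hle
    rw [← this]
    ring
  have hlow : (∑ q ∈ QQ j (j + 1), Real.log q) / (Real.exp ((j : ℝ) + 1) * ((j : ℝ) + 1)) ≤
      RS j (j + 1) := by
    unfold RS
    rw [Finset.sum_div]
    refine Finset.sum_le_sum fun q hq => ?_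
    unfold QQ at hq
    rw [Finset.mem_filter, Finset.mem_Ioc] at hq
    have hq0 : (0 : ℝ) < q := by exact_mod_cast hq.2.pos
    have hq1 : (q : ℝ) ≤ Real.exp ((j : ℝ) + 1) := by
      have := (Nat.le_floor_iff (Real.exp_pos _).le).1 hq.1.2
      push_cast at this
      exact this
    have hq2 : Real.log q ≤ (j : ℝ) + 1 := by
      have := Real.log_le_log hq0 hq1
      rwa [Real.log_exp] at this
    rw [div_le_div_iff₀ (by positivity) hq0]
    have hlq : 0 ≤ Real.log q := Real.log_nonneg (by exact_mod_cast hq.2.one_le)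
    nlinarith [mul_le_mul hq2 hq1 hq0.le (by positivity)]
  refine le_trans ?_ hlow
  rw [hsum, div_le_div_iff₀ (by positivity) (by positivity)]
  have hkey : Real.exp ((j : ℝ) + 1) / 2 ≤
      Chebyshev.theta (Real.exp ((j : ℝ) + 1)) - Chebyshev.theta (Real.exp (j : ℝ)) := by
    have h3 : 2.7 * Real.exp (j : ℝ) ≤ Real.exp ((j : ℝ) + 1) := by
      rw [hejj]
      nlinarith
    nlinarith
  nlinarith

theorem RS_pos (κ : ℝ) (hκ : 1 < κ) : ∃ (c : ℝ) (u₀ : ℕ), 0 < c ∧ ∀ u v : ℕ, u₀ ≤ u → κ * u ≤ v →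
    c ≤ RS u v := by
  obtain ⟨u₁, hu₁⟩ := RS_block
  have hκ0 : 0 < κ := by linarith
  refine ⟨(1 - 1 / κ) / 2, max u₁ 1, ?_, fun u v hu huv => ?_⟩
  · have : 1 / κ < 1 := by rw [div_lt_one hκ0]; exact hκ
    linarith
  · have hu1 : u₁ ≤ u := (le_max_left _ _).trans hu
    have hu2 : 1 ≤ u := (le_max_right _ _).trans hu
    have hu0 : (1 : ℝ) ≤ u := by exact_mod_cast hu2
    have hle' : (u : ℝ) ≤ v := by nlinarith
    have hle : u ≤ v := by exact_mod_cast hle'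
    have hv0 : (0 : ℝ) < v := by linarith
    have key : ∀ v' : ℕ, u ≤ v' → ∑ j ∈ Finset.Ico u v', RS j (j + 1) = RS u v' := by
      intro v' hv'
      rw [RS_eq u v' hv']
      induction v', hv' using Nat.le_induction with
      | base => simp
      | succ w hw ih =>
        rw [Finset.sum_Ico_succ_top hw, ih, RS_eq w (w + 1) (Nat.le_succ w)]
        ring
    rw [← key v hle]
    have h1 : ∑ j ∈ Finset.Ico u v, 1 / (2 * (v : ℝ)) ≤ ∑ j ∈ Finset.Ico u v, RS j (j + 1) := by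
      refine Finset.sum_le_sum fun j hj => ?_
      rw [Finset.mem_Ico] at hj
      refine le_trans ?_ (hu₁ j (hu1.trans hj.1))
      have : (j : ℝ) + 1 ≤ v := by exact_mod_cast hj.2
      exact one_div_le_one_div_of_le (by positivity) (by linarith)
    refine le_trans ?_ h1
    rw [Finset.sum_const, Nat.card_Ico, nsmul_eq_mul, Nat.cast_sub hle]
    have h2 : 1 - 1 / κ ≤ ((v : ℝ) - u) / v := by
      rw [le_div_iff₀ hv0, sub_mul, one_mul]
      have : (u : ℝ) ≤ 1 / κ * v := by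
        rw [one_div, ← div_eq_inv_mul, le_div_iff₀ hκ0]
        linarith
      linarith
    have h3 : ((v : ℝ) - u) * (1 / (2 * v)) = ((v : ℝ) - u) / v / 2 := by
      field_simp
    rw [h3]
    linarith

theorem QQ_card (u v : ℕ) : ((QQ u v).card : ℝ) ≤ Real.exp v := by
  have h1 : (QQ u v).card ≤ ⌊Real.exp (v : ℝ)⌋₊ := by
    unfold QQ
    refine (Finset.card_filter_le _ _).trans ?_
    rw [Nat.card_Ioc]
    omega
  calc ((QQ u v).card : ℝ) ≤ (⌊Real.exp (v : ℝ)⌋₊ : ℝ) := by exact_mod_cast h1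
    _ ≤ Real.exp v := Nat.floor_le (Real.exp_pos _).le

theorem QQ_blocks (V u v : ℕ) (hV : 1 ≤ V) (huv : u ≤ v) (f : ℕ → ℝ) :
    ∑ q ∈ QQ u v, f q = ∑ w ∈ Ico (V * u) (V * v), ∑ q ∈ PV V w, f q := by
  have hV0 : (0 : ℝ) < V := by exact_mod_cast hV
  have key : ∀ v0 v1 : ℕ, v0 ≤ v1 → ∑ w ∈ Ico v0 v1, ∑ q ∈ PV V w, f q =
      ∑ q ∈ (Ioc ⌊Real.exp ((v0 : ℝ) / V)⌋₊ ⌊Real.exp ((v1 : ℝ) / V)⌋₊).filter Nat.Prime, f q := by
    intro v0 v1 h
    induction v1, h using Nat.le_induction with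
    | base => simp
    | succ v1 h ih =>
      rw [Finset.sum_Ico_succ_top h, ih]
      unfold PV
      rw [Finset.sum_filter, Finset.sum_filter, Finset.sum_filter]
      push_cast
      refine Finset.sum_Ioc_consecutive (fun q : ℕ => if q.Prime then f q else 0) ?_ ?_
      · refine Nat.floor_le_floor (Real.exp_le_exp.mpr ?_)
        have : (v0 : ℝ) ≤ v1 := by exact_mod_cast h
        gcongr
      · refine Nat.floor_le_floor (Real.exp_le_exp.mpr ?_)
        gcongr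
        linarith
  rw [key _ _ (Nat.mul_le_mul_left V huv)]
  have e1 : ((V * v : ℕ) : ℝ) / V = v := by push_cast; field_simp
  have e2 : ((V * u : ℕ) : ℝ) / V = u := by push_cast; field_simp
  rw [e1, e2]
  rfl

end Pool.SWP
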