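import Mathlib
import Pool.Agent.SWP.CoreS
import Pool.Agent.SWP.MertP

/-!
# SWP/Dil: short windows at the points `p/q`

`|g| ≤ 1`, `Short g`. For `ε, κ > 0` and `X ≥ X₀`; `1 ≤ u ≤ v` natural numbers, `H` with
`(log X)^κ ≤ e^u`, `(log X)^{1+κ} ≤ e^u H`, `e^v (log X)^κ ≤ H ≤ (log X)²`:
`∑_{p≤X} ∑_{e^u<q≤e^v} |∑_{p/q<m≤(p+H)/q} g(m)| ≤ ε (1 + RS u v) H π(X)`.
(`p/q`, `(p+H)/q` are `Nat` divisions.)

Proof. Let `η ∈ (0, 1/100)` be small (in terms of `ε`), `V = ⌈1/η⌉`. By `QQ_blocks` we may treat a block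
`𝒟 = PV V w`, `Vu ≤ w < Vv`: `e^{w/V} < q ≤ e^{(w+1)/V}`. `D = ⌊e^{w/V}⌋ ≥ e^u - 1` is large, `𝒟 ⊆ (D, 2D]`, all
`F(q)³ ≤ 8` (`F_prime`), so `B = 8`. `L = ⌊H/D⌋ ≥ H/(2D)`; `L ≥ (log X)^κ/2` is large (`D ≤ e^v`). `b = 2^k` with
`ηL/2 < b ≤ ηL`. `(bD)^100 ≤ H^100 ≤ (log X)^200 ≤ X`.
(1) For `p` and `q ∈ 𝒟`, `y = ⌊p/(bq)⌋`: `b y ≤ p/q < b(y+1)`, `D < q ≤ e^{1/V}(D+1) ≤ (1+3η) D`, so
`H/q ∈ [(1-3η) H/D, H/D]` and the windows `(p/q,(p+H)/q]` and `(by, by+L]` differ by at most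
`2b + 3ηH/D + 4 ≤ 10ηL` elements. So `|∑_{p/q<m≤(p+H)/q} g| ≤ |∑_{by<m≤by+L} g| + 10ηL`.
(2) `f(y) = (1/L) |∑_{by<m≤by+L} g(m)| ∈ [0,1]`. By `Short g` (`η' = η`, length `L ≥ H₀`): for `Y = ⌊X/(bD)⌋ + 1`,
`∑_{y<Y} f(y) ≤ (1/(bL)) ∑_{x<bY} (|∑_{x<m≤x+L} g| + 2b) ≤ (1/(bL)) (η L bY + 2b·bY) ≤ 3ηY ≤ 6η X/(bD)`
(each `x ∈ [by, by+b)` gives `|∑_{by<m≤by+L} g| ≤ |∑_{x<m≤x+L} g| + 2b`). So `m = 6η` in `core`:
`∑_{q∈𝒟} ∑_p |…| ≤ L·[8C (X/log X) √(6η) √(#𝒟² + #𝒟 log X/(bD)) + #𝒟√X] + 10ηL #𝒟 π(X)`.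
`L #𝒟 ≤ (H/D) #𝒟 ≤ 2H ∑_{q∈𝒟} 1/q`; `bD ≥ ηLD/2 ≥ ηH/4`, `#𝒟 ≤ D`, so
`L √(#𝒟 log X/(bD)) ≤ (H/D) √(4 D log X/(ηH)) = H √(4 log X/(η H D))` and `H D ≥ H e^u/2 ≥ (log X)^{1+κ}/2`; this is
`≤ H √(8/η) (log X)^{-κ/2}`. Sum over the blocks (`V(v-u) ≤ 2V log log X + V` blocks since `e^v ≤ H ≤ (log X)²`):
`≤ C' √η H (X/log X) (RS u v + V (2 log log X + 1) √(8/η) (log X)^{-κ/2}) + (20η RS u v + …) H π(X)
≤ ε (1 + RS u v) H π(X)` for `η` small and then `X` large (`pi_bounds`).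
-/

set_option autoImplicit false

namespace Pool.SWP

open Finset Pool.MRZ Pool.Agent.Lib.PrimePairs

namespace DilAux

theorem prim_diff (g : ℕ → ℂ) (hg : ∀ n, ‖g n‖ ≤ 1) (c c' : ℕ) :
    ‖∑ n ∈ Ioc 0 c, g n - ∑ n ∈ Ioc 0 c', g n‖ ≤ |(c : ℝ) - c'| := by
  have key : ∀ a b : ℕ, a ≤ b → ‖∑ n ∈ Ioc 0 b, g n - ∑ n ∈ Ioc 0 a, g n‖ ≤ (b : ℝ) - a := by
    intro a b hab
    rw [← Finset.sum_Ioc_consecutive g (Nat.zero_le a) hab, add_sub_cancel_left]
    calc ‖∑ n ∈ Ioc a b, g n‖ ≤ ∑ n ∈ Ioc a b, ‖g n‖ := norm_sum_le _ _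
      _ ≤ ∑ n ∈ Ioc a b, (1 : ℝ) := Finset.sum_le_sum fun n _ => hg n
      _ = (b : ℝ) - a := by rw [Finset.sum_const, Nat.card_Ioc, nsmul_eq_mul, mul_one, Nat.cast_sub hab]
  rcases le_total c c' with h | h
  · rw [norm_sub_rev, abs_sub_comm]
    exact (key c c' h).trans (le_abs_self _)
  · exact (key c' c h).trans (le_abs_self _)

theorem win_diff (g : ℕ → ℂ) (hg : ∀ n, ‖g n‖ ≤ 1) (a c a' c' : ℕ) (h : a ≤ c) (h' : a' ≤ c') :
    ‖∑ n ∈ Ioc a c, g n‖ ≤ ‖∑ n ∈ Ioc a' c', g n‖ + |(a : ℝ) - a'| + |(c : ℝ) - c'| := by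
  have h1 := Finset.sum_Ioc_consecutive g (Nat.zero_le a) h
  have h2 := Finset.sum_Ioc_consecutive g (Nat.zero_le a') h'
  have h3 : ∑ n ∈ Ioc a c, g n = ∑ n ∈ Ioc a' c', g n +
      (∑ n ∈ Ioc 0 a', g n - ∑ n ∈ Ioc 0 a, g n) + (∑ n ∈ Ioc 0 c, g n - ∑ n ∈ Ioc 0 c', g n) := by
    rw [← h1, ← h2]; ring
  rw [h3]
  refine (norm_add_le _ _).trans (add_le_add ((norm_add_le _ _).trans (add_le_add le_rfl ?_)) ?_)
  · rw [abs_sub_comm]; exact prim_diff g hg a' a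
  · exact prim_diff g hg c c'

/-- averages over the multiples of `b` -/
theorem avg (g : ℕ → ℂ) (hg : ∀ n, ‖g n‖ ≤ 1) (b L Y : ℕ) :
    (b : ℝ) * ∑ y ∈ range Y, ‖∑ n ∈ Ioc (b * y) (b * y + L), g n‖ ≤
      ∑ x ∈ range (b * Y), ‖∑ n ∈ Ioc x (x + L), g n‖ + 2 * b * (b * Y) := by
  induction Y with
  | zero => simp
  | succ Y ih =>
    rw [Finset.sum_range_succ, Nat.mul_succ, Finset.sum_range_add, mul_add]
    have h1 : (b : ℝ) * ‖∑ n ∈ Ioc (b * Y) (b * Y + L), g n‖ ≤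
        ∑ x ∈ range b, ‖∑ n ∈ Ioc (b * Y + x) (b * Y + x + L), g n‖ + 2 * b * b := by
      have h2 : ∀ x ∈ range b, ‖∑ n ∈ Ioc (b * Y) (b * Y + L), g n‖ ≤
          ‖∑ n ∈ Ioc (b * Y + x) (b * Y + x + L), g n‖ + 2 * b := by
        intro x hx
        have hx' : (x : ℝ) ≤ b := by exact_mod_cast (Finset.mem_range.mp hx).le
        have h3 := win_diff g hg (b * Y) (b * Y + L) (b * Y + x) (b * Y + x + L) (by omega) (by omega)
        have h4 : |((b * Y : ℕ) : ℝ) - ((b * Y + x : ℕ) : ℝ)| = x := by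
          push_cast
          rw [show (b : ℝ) * Y - (b * Y + x) = -x by ring, abs_neg, abs_of_nonneg (Nat.cast_nonneg x)]
        have h5 : |((b * Y + L : ℕ) : ℝ) - ((b * Y + x + L : ℕ) : ℝ)| = x := by
          push_cast
          rw [show (b : ℝ) * Y + L - (b * Y + x + L) = -x by ring, abs_neg, abs_of_nonneg (Nat.cast_nonneg x)]
        rw [h4, h5] at h3
        linarith
      calc (b : ℝ) * ‖∑ n ∈ Ioc (b * Y) (b * Y + L), g n‖ =
          ∑ x ∈ range b, ‖∑ n ∈ Ioc (b * Y) (b * Y + L), g n‖ := by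
            rw [Finset.sum_const, Finset.card_range, nsmul_eq_mul]
        _ ≤ ∑ x ∈ range b, (‖∑ n ∈ Ioc (b * Y + x) (b * Y + x + L), g n‖ + 2 * b) := Finset.sum_le_sum h2
        _ = _ := by
            rw [Finset.sum_add_distrib, Finset.sum_const, Finset.card_range, nsmul_eq_mul]
            ring
    push_cast
    have h6 : 2 * (b : ℝ) * (b * (Y + 1)) = 2 * b * (b * Y) + 2 * b * b := by ring
    rw [h6]
    linarith

/-- comparison of the windows -/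
theorem point (g : ℕ → ℂ) (hg : ∀ n, ‖g n‖ ≤ 1) (η : ℝ) (hη : 0 < η) (hη1 : η ≤ 1 / 100)
    (H D L b q p : ℕ) (hD : 1 ≤ D) (hL : L = H / D) (hb : 1 ≤ b) (hb1 : (b : ℝ) ≤ η * L)
    (hq : D < q) (hq1 : (q : ℝ) ≤ (1 + 3 * η) * D) (h1L : 1 ≤ η * L) :
    ‖∑ m ∈ Ioc (p / q) ((p + H) / q), g m‖ ≤
      ‖∑ m ∈ Ioc (b * (p / (b * q))) (b * (p / (b * q)) + L), g m‖ + 7 * η * L := by
  have hq0 : 0 < q := by omega
  have hbq : p / (b * q) = p / q / b := by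
    rw [Nat.div_div_eq_div_mul, mul_comm]
  rw [hbq]
  have h1 : b * (p / q / b) ≤ p / q := Nat.mul_div_le _ _
  have h2 : p / q < b * (p / q / b) + b := by
    have := Nat.lt_mul_div_succ (p / q) hb
    rw [Nat.mul_succ] at this
    exact this
  have h3 : p / q + H / q ≤ (p + H) / q := Nat.div_add_div_le_add_div
  have h4 : (p + H) / q ≤ p / q + H / q + 1 := by
    rw [Nat.add_div hq0]
    split_ifs <;> omega
  have h5 : H / q ≤ L := by rw [hL]; exact Nat.div_le_div_left hq.le hD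
  have h6 : (L : ℝ) < (1 + 3 * η) * ((H / q : ℕ) + 1) := by
    have h7 : H < q * (H / q + 1) := Nat.lt_mul_div_succ H hq0
    have h8 : D * L ≤ H := by rw [hL]; exact Nat.mul_div_le _ _
    have h9 : ((D * L : ℕ) : ℝ) < ((q * (H / q + 1) : ℕ) : ℝ) := by exact_mod_cast lt_of_le_of_lt h8 h7
    push_cast at h9
    have hD0 : (0 : ℝ) < D := by exact_mod_cast hD
    have h10 : (q : ℝ) * ((H / q : ℕ) + 1) ≤ (1 + 3 * η) * D * ((H / q : ℕ) + 1) :=
      mul_le_mul_of_nonneg_right hq1 (by positivity)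
    have h11 : (D : ℝ) * L < D * ((1 + 3 * η) * ((H / q : ℕ) + 1)) := by
      calc (D : ℝ) * L < (q : ℝ) * ((H / q : ℕ) + 1) := by exact_mod_cast h9
        _ ≤ (1 + 3 * η) * D * ((H / q : ℕ) + 1) := h10
        _ = _ := by ring
    exact lt_of_mul_lt_mul_left h11 hD0.le
  have h12 := win_diff g hg (p / q) ((p + H) / q) (b * (p / q / b)) (b * (p / q / b) + L)
    ((Nat.le_add_right _ _).trans h3) (Nat.le_add_right _ _)
  set y := b * (p / q / b) with hy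
  set P := p / q with hP
  set W := (p + H) / q with hW
  set h := H / q with hh
  have r1 : (y : ℝ) ≤ P := by exact_mod_cast h1
  have r2 : (P : ℝ) ≤ y + b := by exact_mod_cast h2.le
  have r3 : (P : ℝ) + h ≤ W := by exact_mod_cast h3
  have r4 : (W : ℝ) ≤ P + h + 1 := by exact_mod_cast h4
  have r5 : (h : ℝ) ≤ L := by exact_mod_cast h5
  have h13 : |(P : ℝ) - y| ≤ b := by rw [abs_le]; constructor <;> linarith [Nat.cast_nonneg (α := ℝ) b]
  have h14 : |(W : ℝ) - ((y + L : ℕ) : ℝ)| ≤ b + (3 * η * L + 1 + 3 * η) := by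
    push_cast
    have h15 : 3 * η * (h : ℝ) ≤ 3 * η * L := mul_le_mul_of_nonneg_left r5 (by positivity)
    have hb0 : (0 : ℝ) ≤ b := Nat.cast_nonneg b
    have hL0 : 0 ≤ 3 * η * (L : ℝ) := by positivity
    rw [abs_le]; constructor <;> nlinarith
  have h16 : (3 : ℝ) * η ≤ 3 / 100 := by linarith
  nlinarith

/-- one block -/
theorem block (C : ℝ) (X₀ : ℕ) (hC : 0 < C)
    (hcore : ∀ (X D b k : ℕ) (𝒟 : Finset ℕ) (B m : ℝ) (f : ℕ → ℝ), X₀ ≤ X →
      1 ≤ D → b = 2 ^ k → (b * D) ^ 100 ≤ X → 𝒟 ⊆ Ioc D (2 * D) → 1 ≤ B →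
      ∑ d ∈ 𝒟, F d ^ 3 ≤ B * 𝒟.card → (∀ y, 0 ≤ f y ∧ f y ≤ 1) → 0 ≤ m →
      ∑ y ∈ range (X / (b * D) + 1), f y ≤ m * ((X : ℝ) / (b * D)) →
      ∑ d ∈ 𝒟, ∑ p ∈ PP X, f (p / (b * d)) ≤
        C * B * (X / Real.log X) * Real.sqrt m *
          Real.sqrt ((𝒟.card : ℝ) ^ 2 + 𝒟.card * Real.log X / (b * D)) + 𝒟.card * Real.sqrt X)
    (g : ℕ → ℂ) (hg : ∀ n, ‖g n‖ ≤ 1) (η : ℝ) (hη : 0 < η) (hη1 : η ≤ 1 / 100)
    (X H D L b k : ℕ) (𝒟 : Finset ℕ) (hX : X₀ ≤ X) (hD : 1 ≤ D) (hL : L = H / D) (hbk : b = 2 ^ k)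
    (hb1 : (b : ℝ) ≤ η * L) (hb2 : η * L < 2 * b)
    (h𝒟 : ∀ q ∈ 𝒟, D < q ∧ (q : ℝ) ≤ (1 + 3 * η) * D ∧ q.Prime) (h1L : 1 ≤ η * L)
    (hbD : (b * D) ^ 100 ≤ X)
    (hshort : ∑ x ∈ range (b * (X / (b * D) + 1)), ‖∑ n ∈ Ioc x (x + L), g n‖ ≤
      η * L * ((b * (X / (b * D) + 1) : ℕ) : ℝ))
    (κ : ℝ) (hlog : 0 < Real.log X) (hHD : Real.log X ^ (1 + κ) ≤ 2 * D * H) (hDH : 2 * D ≤ H) :
    ∑ q ∈ 𝒟, ∑ p ∈ PP X, ‖∑ m ∈ Ioc (p / q) ((p + H) / q), g m‖ ≤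
      H * ((16 * C * Real.sqrt (6 * η) * (X / Real.log X) + 2 * Real.sqrt X + 14 * η * (PP X).card) *
        (∑ q ∈ 𝒟, (1 : ℝ) / q) + 8 * C * (X / Real.log X) * Real.sqrt (48 / Real.log X ^ κ)) := by
  have hb : 1 ≤ b := by rw [hbk]; exact Nat.one_le_two_pow
  have hb0 : (0 : ℝ) < b := by exact_mod_cast hb
  have hD0 : (0 : ℝ) < D := by exact_mod_cast hD
  have hL0 : (0 : ℝ) < L := by
    rcases (Nat.cast_nonneg (α := ℝ) L).lt_or_eq with h | h
    · exact h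
    · rw [← h] at h1L; linarith
  have hH0 : (0 : ℝ) < H := by
    have : 0 < H := by omega
    exact_mod_cast this
  set n : ℝ := (𝒟.card : ℝ) with hn
  set S : ℝ := ∑ q ∈ 𝒟, (1 : ℝ) / q with hS
  set f : ℕ → ℝ := fun y => ‖∑ m ∈ Ioc (b * y) (b * y + L), g m‖ / L with hf
  have hf01 : ∀ y, 0 ≤ f y ∧ f y ≤ 1 := by
    intro y
    refine ⟨by positivity, ?_⟩
    rw [hf]
    simp only
    rw [div_le_one hL0]
    calc ‖∑ m ∈ Ioc (b * y) (b * y + L), g m‖ ≤ ∑ m ∈ Ioc (b * y) (b * y + L), ‖g m‖ := norm_sum_le _ _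
      _ ≤ ∑ m ∈ Ioc (b * y) (b * y + L), (1 : ℝ) := Finset.sum_le_sum fun m _ => hg m
      _ = L := by rw [Finset.sum_const, Nat.card_Ioc, nsmul_eq_mul, mul_one]; simp
  -- the mean of `f`
  have hbD1 : b * D ≤ X := by
    refine le_trans ?_ hbD
    exact Nat.le_self_pow (by norm_num) _
  have hYle : ((X / (b * D) + 1 : ℕ) : ℝ) ≤ 2 * ((X : ℝ) / (b * D)) := by
    have h1 : ((X / (b * D) : ℕ) : ℝ) ≤ (X : ℝ) / ((b * D : ℕ) : ℝ) := Nat.cast_div_le
    have h2 : (1 : ℝ) ≤ (X : ℝ) / (b * D) := by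
      rw [le_div_iff₀ (by positivity), one_mul]
      exact_mod_cast hbD1
    push_cast at h1 ⊢
    linarith
  have hmean : ∑ y ∈ range (X / (b * D) + 1), f y ≤ 6 * η * ((X : ℝ) / (b * D)) := by
    have h1 := avg g hg b L (X / (b * D) + 1)
    have h2 : ∑ y ∈ range (X / (b * D) + 1), f y =
        (∑ y ∈ range (X / (b * D) + 1), ‖∑ m ∈ Ioc (b * y) (b * y + L), g m‖) / L := by
      rw [Finset.sum_div]
    rw [h2, div_le_iff₀ hL0]
    set T := ∑ y ∈ range (X / (b * D) + 1), ‖∑ m ∈ Ioc (b * y) (b * y + L), g m‖ with hT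
    set Y : ℝ := ((X / (b * D) + 1 : ℕ) : ℝ) with hY
    have h3 : ((b * (X / (b * D) + 1) : ℕ) : ℝ) = b * Y := by rw [hY]; push_cast; ring
    rw [h3] at hshort
    have h4 : (b : ℝ) * T ≤ b * (3 * η * L * Y) := by
      have h5 : 2 * (b : ℝ) * (b * Y) ≤ 2 * (η * L) * (b * Y) :=
        mul_le_mul_of_nonneg_right (by linarith) (by positivity)
      linarith
    have h6 : T ≤ 3 * η * L * Y := le_of_mul_le_mul_left h4 hb0
    calc T ≤ 3 * η * L * Y := h6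
      _ ≤ 3 * η * L * (2 * ((X : ℝ) / (b * D))) := mul_le_mul_of_nonneg_left hYle (by positivity)
      _ = _ := by ring
  -- core
  have hsub : 𝒟 ⊆ Ioc D (2 * D) := by
    intro q hq
    obtain ⟨h1, h2, _⟩ := h𝒟 q hq
    rw [Finset.mem_Ioc]
    refine ⟨h1, ?_⟩
    have h3 : (q : ℝ) ≤ ((2 * D : ℕ) : ℝ) := by
      push_cast
      nlinarith
    exact_mod_cast h3
  have hF : ∑ d ∈ 𝒟, F d ^ 3 ≤ 8 * 𝒟.card := by
    have h1 : ∀ d ∈ 𝒟, F d ^ 3 ≤ 8 := by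
      intro d hd
      have h2 := F_prime d (h𝒟 d hd).2.2
      have h3 := F_nonneg d
      calc F d ^ 3 ≤ 2 ^ 3 := pow_le_pow_left₀ h3 h2 3
        _ = 8 := by norm_num
    calc ∑ d ∈ 𝒟, F d ^ 3 ≤ ∑ d ∈ 𝒟, (8 : ℝ) := Finset.sum_le_sum h1
      _ = 8 * 𝒟.card := by rw [Finset.sum_const, nsmul_eq_mul, mul_comm]
  have hc := hcore X D b k 𝒟 8 (6 * η) f hX hD hbk hbD hsub (by norm_num) hF hf01 (by positivity) hmean
  -- comparison
  have h1 : ∑ q ∈ 𝒟, ∑ p ∈ PP X, ‖∑ m ∈ Ioc (p / q) ((p + H) / q), g m‖ ≤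
      L * ∑ d ∈ 𝒟, ∑ p ∈ PP X, f (p / (b * d)) + 7 * η * L * n * (PP X).card := by
    rw [Finset.mul_sum]
    have h2 : 7 * η * L * n * (PP X).card = ∑ q ∈ 𝒟, ∑ p ∈ PP X, 7 * η * L := by
      rw [Finset.sum_const, Finset.sum_const, nsmul_eq_mul, nsmul_eq_mul]
      ring
    rw [h2, ← Finset.sum_add_distrib]
    refine Finset.sum_le_sum fun q hq => ?_
    rw [Finset.mul_sum, ← Finset.sum_add_distrib]
    refine Finset.sum_le_sum fun p _ => ?_
    obtain ⟨h3, h4, _⟩ := h𝒟 q hq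
    have h5 := point g hg η hη hη1 H D L b q p hD hL hb hb1 h3 h4 h1L
    refine h5.trans (le_of_eq ?_)
    rw [hf]
    simp only
    rw [mul_div_cancel₀ _ hL0.ne']
  -- estimates
  have hLH : (L : ℝ) ≤ H / D := by rw [hL]; exact Nat.cast_div_le
  have hnS : n ≤ 2 * D * S := by
    have h2 : ∀ q ∈ 𝒟, 1 / (2 * (D : ℝ)) ≤ 1 / (q : ℝ) := by
      intro q hq
      have h3 := Finset.mem_Ioc.mp (hsub hq)
      have h4 : (q : ℝ) ≤ 2 * D := by exact_mod_cast h3.2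
      have h5 : (0 : ℝ) < q := by
        have : 0 < q := by omega
        exact_mod_cast this
      exact one_div_le_one_div_of_le h5 h4
    have h3 : n * (1 / (2 * (D : ℝ))) ≤ S := by
      rw [hS, hn, ← nsmul_eq_mul, ← Finset.sum_const]
      exact Finset.sum_le_sum h2
    have h4 : n = n * (1 / (2 * (D : ℝ))) * (2 * D) := by field_simp
    rw [h4, mul_comm (2 * (D : ℝ)) S]
    exact mul_le_mul_of_nonneg_right h3 (by positivity)
  have hn0 : 0 ≤ n := Nat.cast_nonneg _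
  have hS0 : 0 ≤ S := Finset.sum_nonneg fun q _ => by positivity
  have hnD : n ≤ D := by
    have := Finset.card_le_card hsub
    rw [Nat.card_Ioc] at this
    have h2 : 𝒟.card ≤ D := by omega
    rw [hn]
    exact_mod_cast h2
  have hLn : L * n ≤ 2 * H * S := by
    calc L * n ≤ (H / D) * (2 * D * S) := mul_le_mul hLH hnS hn0 (by positivity)
      _ = 2 * H * S := by field_simp
  have hLD : (H : ℝ) / 2 ≤ L * D := by
    have h2 : H < D * (L + 1) := by rw [hL]; exact Nat.lt_mul_div_succ H hD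
    have h3 : (H : ℝ) ≤ D * (L + 1) := by exact_mod_cast h2.le
    have h4 : 2 * (D : ℝ) ≤ H := by exact_mod_cast hDH
    linarith
  have hbDr : η * H / 4 ≤ b * D := by
    have h2 : η * (L * D) ≤ 2 * (b * D) := by nlinarith
    have h3 : η * (H / 2) ≤ η * (L * D) := mul_le_mul_of_nonneg_left hLD hη.le
    linarith
  have hpow : 0 < Real.log X ^ κ := Real.rpow_pos_of_pos hlog κ
  have hsq : L * Real.sqrt (n * Real.log X / (b * D)) ≤ H * Real.sqrt (8 / (η * Real.log X ^ κ)) := by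
    have h2 : (L : ℝ) * Real.sqrt (n * Real.log X / (b * D)) =
        Real.sqrt (L ^ 2 * (n * Real.log X / (b * D))) := by
      rw [Real.sqrt_mul (by positivity), Real.sqrt_sq hL0.le]
    have h3 : (H : ℝ) * Real.sqrt (8 / (η * Real.log X ^ κ)) =
        Real.sqrt (H ^ 2 * (8 / (η * Real.log X ^ κ))) := by
      rw [Real.sqrt_mul (by positivity), Real.sqrt_sq hH0.le]
    rw [h2, h3]
    refine Real.sqrt_le_sqrt ?_
    have h4 : n * Real.log X / (b * D) ≤ D * Real.log X / (η * H / 4) := by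
      refine div_le_div₀ (by positivity) (mul_le_mul_of_nonneg_right hnD hlog.le) (by positivity) hbDr
    have h5 : (L : ℝ) ^ 2 ≤ (H / D) ^ 2 := pow_le_pow_left₀ hL0.le hLH 2
    calc (L : ℝ) ^ 2 * (n * Real.log X / (b * D)) ≤ (H / D) ^ 2 * (D * Real.log X / (η * H / 4)) :=
          mul_le_mul h5 h4 (by positivity) (by positivity)
      _ = H ^ 2 * (4 * Real.log X / (η * (D * H))) := by
          field_simp
      _ ≤ H ^ 2 * (8 / (η * Real.log X ^ κ)) := by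
          refine mul_le_mul_of_nonneg_left ?_ (by positivity)
          rw [div_le_div_iff₀ (by positivity) (by positivity)]
          have h6 : Real.log X * Real.log X ^ κ ≤ 2 * D * H := by
            rw [Real.rpow_add hlog, Real.rpow_one] at hHD
            exact hHD
          nlinarith
  have hsqrt : Real.sqrt (n ^ 2 + n * Real.log X / (b * D)) ≤ n + Real.sqrt (n * Real.log X / (b * D)) := by
    have h2 : 0 ≤ n * Real.log X / (b * D) := by positivity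
    refine Real.sqrt_le_iff.mpr ⟨by positivity, ?_⟩
    have h3 := Real.sq_sqrt h2
    have h4 := mul_nonneg hn0 (Real.sqrt_nonneg (n * Real.log X / (b * D)))
    nlinarith
  have hXl : (0 : ℝ) ≤ X / Real.log X := by positivity
  have hprod : Real.sqrt (6 * η) * Real.sqrt (8 / (η * Real.log X ^ κ)) = Real.sqrt (48 / Real.log X ^ κ) := by
    rw [← Real.sqrt_mul (by positivity)]
    congr 1
    field_simp
    norm_num
  calc ∑ q ∈ 𝒟, ∑ p ∈ PP X, ‖∑ m ∈ Ioc (p / q) ((p + H) / q), g m‖ ≤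
      L * ∑ d ∈ 𝒟, ∑ p ∈ PP X, f (p / (b * d)) + 7 * η * L * n * (PP X).card := h1
    _ ≤ L * (C * 8 * (X / Real.log X) * Real.sqrt (6 * η) *
          (n + Real.sqrt (n * Real.log X / (b * D))) + n * Real.sqrt X) + 7 * η * L * n * (PP X).card := by
        refine add_le_add (mul_le_mul_of_nonneg_left (hc.trans ?_) hL0.le) le_rfl
        exact add_le_add (mul_le_mul_of_nonneg_left hsqrt (by positivity)) le_rfl
    _ = (8 * C * (X / Real.log X) * Real.sqrt (6 * η) + Real.sqrt X + 7 * η * (PP X).card) * (L * n) +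
        8 * C * (X / Real.log X) * Real.sqrt (6 * η) * (L * Real.sqrt (n * Real.log X / (b * D))) := by ring
    _ ≤ (8 * C * (X / Real.log X) * Real.sqrt (6 * η) + Real.sqrt X + 7 * η * (PP X).card) * (2 * H * S) +
        8 * C * (X / Real.log X) * Real.sqrt (6 * η) * (H * Real.sqrt (8 / (η * Real.log X ^ κ))) :=
        add_le_add (mul_le_mul_of_nonneg_left hLn (by positivity))
          (mul_le_mul_of_nonneg_left hsq (by positivity))
    _ = H * ((16 * C * Real.sqrt (6 * η) * (X / Real.log X) + 2 * Real.sqrt X + 14 * η * (PP X).card) * S +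
        8 * C * (X / Real.log X) * (Real.sqrt (6 * η) * Real.sqrt (8 / (η * Real.log X ^ κ)))) := by ring
    _ = _ := by rw [hprod]

theorem ev_rpow (κ K : ℝ) (hκ : 0 < κ) : ∀ᶠ X : ℕ in Filter.atTop, K ≤ Real.log X ^ κ :=
  ((tendsto_rpow_atTop hκ).comp (Real.tendsto_log_atTop.comp tendsto_natCast_atTop_atTop)).eventually_ge_atTop K

theorem ev_pow (j : ℕ) (K : ℝ) (hK : 0 < K) : ∀ᶠ X : ℕ in Filter.atTop, K * Real.log X ^ j ≤ X := by
  have h1 := (Real.isLittleO_pow_log_id_atTop (n := j)).bound (inv_pos.mpr hK)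
  have h2 := tendsto_natCast_atTop_atTop (R := ℝ) |>.eventually h1
  filter_upwards [h2, Filter.eventually_ge_atTop 1] with X hX hX1
  simp only [id, Real.norm_eq_abs, Nat.abs_cast] at hX
  have h3 : Real.log X ^ j ≤ K⁻¹ * X := (le_abs_self _).trans hX
  calc K * Real.log X ^ j ≤ K * (K⁻¹ * X) := mul_le_mul_of_nonneg_left h3 hK.le
    _ = X := by field_simp

theorem ev_loglog (κ K : ℝ) (hκ : 0 < κ) (hK : 0 < K) :
    ∀ᶠ X : ℕ in Filter.atTop, K * Real.log (Real.log X) ≤ Real.log X ^ κ := by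
  have h1 := (isLittleO_log_rpow_atTop hκ).bound (inv_pos.mpr hK)
  have h2 := (Real.tendsto_log_atTop.comp (tendsto_natCast_atTop_atTop (R := ℝ))).eventually h1
  filter_upwards [h2, ev_rpow 1 1 one_pos] with X hX hX1
  rw [Real.rpow_one] at hX1
  simp only [Function.comp, Real.norm_eq_abs] at hX
  have h0 : 0 < Real.log X := by linarith
  have h4 : |Real.log X ^ κ| = Real.log X ^ κ := abs_of_pos (Real.rpow_pos_of_pos h0 κ)
  rw [h4] at hX
  have h3 : Real.log (Real.log X) ≤ K⁻¹ * Real.log X ^ κ := (le_abs_self _).trans hX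
  calc K * Real.log (Real.log X) ≤ K * (K⁻¹ * Real.log X ^ κ) := mul_le_mul_of_nonneg_left h3 hK.le
    _ = _ := by field_simp

end DilAux

open DilAux in
theorem dil (g : ℕ → ℂ) (hg : ∀ n, ‖g n‖ ≤ 1) (hs : Short g) (ε κ : ℝ) (hε : 0 < ε) (hκ : 0 < κ) :
    ∃ X₀ : ℕ, ∀ X H u v : ℕ, X₀ ≤ X → 1 ≤ u → u ≤ v →
      (Real.log X) ^ κ ≤ Real.exp u → (Real.log X) ^ (1 + κ) ≤ Real.exp u * H →
      Real.exp v * (Real.log X) ^ κ ≤ H → (H : ℝ) ≤ (Real.log X) ^ 2 →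
      ∑ p ∈ PP X, ∑ q ∈ QQ u v, ‖∑ m ∈ Ioc (p / q) ((p + H) / q), g m‖ ≤
        ε * (1 + RS u v) * H * (PP X).card := by
  obtain ⟨C, X₁, hC, hcore⟩ := core
  obtain ⟨c, _, hc, _, hpi⟩ := pi_bounds
  obtain ⟨η, hη, hη1, hη2, hη3⟩ : ∃ η : ℝ, 0 < η ∧ η ≤ 1 / 100 ∧ 14 * η ≤ ε / 4 ∧
      16 * C * Real.sqrt (6 * η) / c ≤ ε / 4 := by
    refine ⟨min (1 / 100) (min (ε / 56) ((ε * c / (64 * C)) ^ 2 / 6)), by positivity, min_le_left _ _, ?_, ?_⟩
    · have := (min_le_right (1 / 100 : ℝ) (min (ε / 56) ((ε * c / (64 * C)) ^ 2 / 6))).trans (min_le_left _ _)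
      linarith
    · have h1 := (min_le_right (1 / 100 : ℝ) (min (ε / 56) ((ε * c / (64 * C)) ^ 2 / 6))).trans (min_le_right _ _)
      have h2 : Real.sqrt (6 * min (1 / 100) (min (ε / 56) ((ε * c / (64 * C)) ^ 2 / 6))) ≤ ε * c / (64 * C) := by
        refine Real.sqrt_le_iff.mpr ⟨by positivity, ?_⟩
        linarith
      rw [div_le_iff₀ hc]
      calc 16 * C * Real.sqrt (6 * min (1 / 100) (min (ε / 56) ((ε * c / (64 * C)) ^ 2 / 6))) ≤
          16 * C * (ε * c / (64 * C)) := mul_le_mul_of_nonneg_left h2 (by positivity)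
        _ = ε / 4 * c := by field_simp; norm_num
  obtain ⟨H₁, X₂, hshort⟩ := hs η hη
  set V : ℕ := ⌈1 / η⌉₊ with hV
  have hV1 : 1 ≤ V := Nat.one_le_iff_ne_zero.mpr (Nat.pos_iff_ne_zero.mp (Nat.ceil_pos.mpr (by positivity)))
  have hVη : 1 / (V : ℝ) ≤ η := by
    have h1 : 1 / η ≤ V := Nat.le_ceil _
    rw [div_le_iff₀ (by positivity)]
    rw [div_le_iff₀ hη] at h1
    linarith
  have hev : ∀ᶠ X : ℕ in Filter.atTop, X₁ ≤ X ∧ 3 ≤ X ∧ 4 / η + 4 ≤ Real.log X ^ κ ∧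
      2 * (1 / η + H₁ + 2) ≤ Real.log X ^ κ ∧ 1 * Real.log X ^ 200 ≤ X ∧ (X₂ + 1 : ℝ) * Real.log X ^ 4 ≤ X ∧
      ((4 / (ε * c)) ^ 2) * Real.log X ^ 2 ≤ X ∧
      (16 * V * C * Real.sqrt 48 / (c * ε)) * Real.log (Real.log X) ≤ Real.log X ^ (κ / 2) ∧
      1 ≤ Real.log X ^ (1 : ℝ) := by
    filter_upwards [Filter.eventually_ge_atTop X₁, Filter.eventually_ge_atTop 3, ev_rpow κ (4 / η + 4) hκ,
      ev_rpow κ (2 * (1 / η + H₁ + 2)) hκ, ev_pow 200 1 one_pos, ev_pow 4 (X₂ + 1) (by positivity),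
      ev_pow 2 ((4 / (ε * c)) ^ 2) (by positivity),
      ev_loglog (κ / 2) (16 * V * C * Real.sqrt 48 / (c * ε)) (by positivity) (by positivity),
      ev_rpow 1 1 one_pos] with X h1 h2 h3 h4 h5 h6 h7 h8 h9
    exact ⟨h1, h2, h3, h4, h5, h6, h7, h8, h9⟩
  obtain ⟨X₀, hX₀⟩ := Filter.eventually_atTop.mp hev
  refine ⟨X₀, fun X H u v hX hu huv hu1 hu2 hv1 hH2 => ?_⟩
  obtain ⟨e1, e2, e3, e4, e5, e6, e7, e8, e9⟩ := hX₀ X hX
  rw [Real.rpow_one] at e9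
  set ℓ : ℝ := Real.log X with hℓ
  have hℓ0 : 0 < ℓ := by linarith
  set N : ℝ := ((PP X).card : ℝ) with hN
  have hNlow : c * X / ℓ ≤ N := (hpi X (by omega)).1
  have hX0 : (0 : ℝ) < X := by
    have : 0 < X := by omega
    exact_mod_cast this
  have hH0 : (0 : ℝ) ≤ H := Nat.cast_nonneg _
  have hpow : 0 < ℓ ^ κ := Real.rpow_pos_of_pos hℓ0 κ
  rw [Finset.sum_comm, QQ_blocks V u v hV1 huv
    (fun q => ∑ p ∈ PP X, ‖∑ m ∈ Ioc (p / q) ((p + H) / q), g m‖)]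
  set A1 : ℝ := 16 * C * Real.sqrt (6 * η) * (X / ℓ) + 2 * Real.sqrt X + 14 * η * N with hA1
  set A2 : ℝ := 8 * C * (X / ℓ) * Real.sqrt (48 / ℓ ^ κ) with hA2
  have hblock : ∀ w ∈ Ico (V * u) (V * v), ∑ q ∈ PV V w, ∑ p ∈ PP X, ‖∑ m ∈ Ioc (p / q) ((p + H) / q), g m‖ ≤
      H * (A1 * (∑ q ∈ PV V w, (1 : ℝ) / q) + A2) := by
    intro w hw
    rw [Finset.mem_Ico] at hw
    have hV0 : (0 : ℝ) < V := by exact_mod_cast hV1
    set x : ℝ := Real.exp ((w : ℝ) / V) with hx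
    have hx0 : 0 < x := Real.exp_pos _
    have h1 : Real.exp u ≤ x := by
      refine Real.exp_le_exp.mpr ?_
      rw [le_div_iff₀ hV0, mul_comm]
      exact_mod_cast hw.1
    have h2 : x ≤ Real.exp v := by
      refine Real.exp_le_exp.mpr ?_
      rw [div_le_iff₀ hV0, mul_comm]
      exact_mod_cast hw.2.le
    set D : ℕ := ⌊x⌋₊ with hD
    have hDx : (D : ℝ) ≤ x := Nat.floor_le hx0.le
    have hxD : x < D + 1 := Nat.lt_floor_add_one x
    have hηi : 0 < 4 / η := by positivity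
    have hDbig : 4 / η + 3 ≤ D := by linarith
    have hD1 : 1 ≤ D := by
      have : (1 : ℝ) ≤ D := by linarith
      exact_mod_cast this
    have hD0 : (0 : ℝ) < D := by exact_mod_cast hD1
    have hDH4 : 4 * (D : ℝ) ≤ H := by
      have h3 : 4 * Real.exp v ≤ Real.exp v * ℓ ^ κ := by
        have h3' : (4 : ℝ) ≤ ℓ ^ κ := by linarith
        rw [mul_comm]
        exact mul_le_mul_of_nonneg_left h3' (Real.exp_pos _).le
      linarith
    have hDH : 2 * D ≤ H := by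
      have : ((2 * D : ℕ) : ℝ) ≤ H := by push_cast; linarith
      exact_mod_cast this
    set L : ℕ := H / D with hL
    have hLbig : ℓ ^ κ - 1 < L := by
      have h3 : H < D * (L + 1) := Nat.lt_mul_div_succ H hD1
      have h4 : (H : ℝ) < D * (L + 1) := by exact_mod_cast h3
      have h5 : (D : ℝ) * ℓ ^ κ ≤ H :=
        (mul_le_mul_of_nonneg_right (hDx.trans h2) hpow.le).trans hv1
      have h6 : (D : ℝ) * ℓ ^ κ < D * (L + 1) := lt_of_le_of_lt h5 h4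
      have h7 := lt_of_mul_lt_mul_left h6 hD0.le
      linarith
    have h1η : 0 < 1 / η := by positivity
    have hH1 : (0 : ℝ) ≤ H₁ := Nat.cast_nonneg _
    have hL1 : 1 / η ≤ L := by linarith
    have h1L : 1 ≤ η * L := by
      rw [div_le_iff₀ hη] at hL1
      linarith
    have hLH1 : H₁ ≤ L := by
      have : (H₁ : ℝ) ≤ L := by linarith
      exact_mod_cast this
    set k : ℕ := Nat.log 2 ⌊η * L⌋₊ with hk
    have hfl : 1 ≤ ⌊η * (L : ℝ)⌋₊ := Nat.le_floor (by simpa using h1L)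
    have hb1 : (((2 ^ k : ℕ)) : ℝ) ≤ η * L := by
      have h3 : 2 ^ k ≤ ⌊η * (L : ℝ)⌋₊ := Nat.pow_log_le_self 2 (by omega)
      exact (Nat.cast_le.mpr h3).trans (Nat.floor_le (by positivity))
    have hb2 : η * L < 2 * ((2 ^ k : ℕ) : ℝ) := by
      have h3 : ⌊η * (L : ℝ)⌋₊ < 2 ^ (k + 1) := Nat.lt_pow_succ_log_self (by norm_num) _
      have h4 : ⌊η * (L : ℝ)⌋₊ + 1 ≤ 2 * 2 ^ k := by rw [pow_succ] at h3; omega
      have h5 := Nat.lt_floor_add_one (η * (L : ℝ))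
      have h6 : ((⌊η * (L : ℝ)⌋₊ + 1 : ℕ) : ℝ) ≤ ((2 * 2 ^ k : ℕ) : ℝ) := by exact_mod_cast h4
      push_cast at h6 ⊢
      linarith
    set b : ℕ := 2 ^ k with hbk
    have h𝒟 : ∀ q ∈ PV V w, D < q ∧ (q : ℝ) ≤ (1 + 3 * η) * D ∧ q.Prime := by
      intro q hq
      rw [PV, Finset.mem_filter, Finset.mem_Ioc] at hq
      refine ⟨hq.1.1, ?_, hq.2⟩
      have h3 : (q : ℝ) ≤ Real.exp (((w : ℝ) + 1) / V) :=
        (Nat.cast_le.mpr hq.1.2).trans (Nat.floor_le (Real.exp_pos _).le)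
      rw [add_div, Real.exp_add, ← hx] at h3
      have h4 : 0 ≤ 1 / (V : ℝ) := by positivity
      have h5 : Real.exp (1 / (V : ℝ)) ≤ 1 + 2 * (1 / (V : ℝ)) := by
        have h6 := Real.abs_exp_sub_one_sub_id_le (x := 1 / (V : ℝ)) (by rw [abs_of_nonneg h4]; linarith)
        have h7 := (le_abs_self _).trans h6
        have h8 : (1 / (V : ℝ)) ^ 2 ≤ 1 * (1 / (V : ℝ)) := by
          rw [sq]
          exact mul_le_mul_of_nonneg_right (by linarith) h4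
        linarith
      have h6 : Real.exp (1 / (V : ℝ)) ≤ 1 + 2 * η := by linarith
      have h7 : 4 + 3 * η ≤ η * D := by
        have := mul_le_mul_of_nonneg_left hDbig hη.le
        have h8 : η * (4 / η + 3) = 4 + 3 * η := by field_simp
        linarith
      calc (q : ℝ) ≤ x * Real.exp (1 / (V : ℝ)) := h3
        _ ≤ (D + 1) * (1 + 2 * η) := mul_le_mul hxD.le h6 (Real.exp_pos _).le (by positivity)
        _ = D + 2 * (η * D) + 1 + 2 * η := by ring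
        _ ≤ D + 3 * (η * D) := by linarith
        _ = (1 + 3 * η) * D := by ring
    have hLDH : (L : ℝ) * D ≤ H := by
      have : L * D ≤ H := Nat.div_mul_le_self H D
      exact_mod_cast this
    have hbDH : (b : ℝ) * D ≤ H := by
      have h3 : (b : ℝ) ≤ L := by
        have : η * (L : ℝ) ≤ 1 * L := mul_le_mul_of_nonneg_right (by linarith) (Nat.cast_nonneg _)
        linarith
      exact (mul_le_mul_of_nonneg_right h3 hD0.le).trans hLDH
    have hbD : (b * D) ^ 100 ≤ X := by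
      have h3 : ((b : ℝ) * D) ^ 100 ≤ X := by
        calc ((b : ℝ) * D) ^ 100 ≤ (ℓ ^ 2) ^ 100 :=
              pow_le_pow_left₀ (by positivity) (hbDH.trans hH2) 100
          _ = 1 * ℓ ^ 200 := by ring
          _ ≤ X := e5
      exact_mod_cast h3
    have hbig : (X₂ + 1 : ℝ) * ℓ ^ 2 ≤ ((b * (X / (b * D) + 1) : ℕ) : ℝ) := by
      have hb0 : 0 < b * D := Nat.mul_pos (by rw [hbk]; positivity) hD1
      have h3 : X < b * D * (X / (b * D) + 1) := Nat.lt_mul_div_succ X hb0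
      have h4 : (X : ℝ) ≤ D * ((b * (X / (b * D) + 1) : ℕ) : ℝ) := by
        have h5 : X ≤ D * (b * (X / (b * D) + 1)) := by
          rw [← mul_assoc, mul_comm D b]; exact h3.le
        exact_mod_cast h5
      have h5 : (D : ℝ) ≤ ℓ ^ 2 := by linarith
      have h6 : (X : ℝ) ≤ ℓ ^ 2 * ((b * (X / (b * D) + 1) : ℕ) : ℝ) :=
        h4.trans (mul_le_mul_of_nonneg_right h5 (Nat.cast_nonneg _))
      have h7 : ℓ ^ 2 * ((X₂ + 1 : ℝ) * ℓ ^ 2) ≤ ℓ ^ 2 * ((b * (X / (b * D) + 1) : ℕ) : ℝ) := by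
        refine le_trans (le_of_eq ?_) (e6.trans h6)
        ring
      exact le_of_mul_le_mul_left h7 (by positivity)
    have hX2 : (0 : ℝ) ≤ X₂ := Nat.cast_nonneg _
    have hl2 : 1 ≤ ℓ ^ 2 := one_le_pow₀ e9
    have hl3 : (X₂ + 1 : ℝ) ≤ (X₂ + 1 : ℝ) * ℓ ^ 2 := le_mul_of_one_le_right (by positivity) hl2
    have hl4 : ℓ ^ 2 ≤ (X₂ + 1 : ℝ) * ℓ ^ 2 := le_mul_of_one_le_left (by positivity) (by linarith)
    have hs1 := hshort (b * (X / (b * D) + 1)) L (by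
        have : (X₂ : ℝ) ≤ ((b * (X / (b * D) + 1) : ℕ) : ℝ) := by linarith
        exact_mod_cast this) hLH1 (by
        have h3 : (L : ℝ) ≤ H := by
          have : L ≤ H := Nat.div_le_self _ _
          exact_mod_cast this
        have : (L : ℝ) ≤ ((b * (X / (b * D) + 1) : ℕ) : ℝ) := by linarith
        exact_mod_cast this)
    have hHD : ℓ ^ (1 + κ) ≤ 2 * D * H := by
      have h3 : Real.exp u ≤ 2 * D := by linarith
      exact hu2.trans (mul_le_mul_of_nonneg_right h3 hH0)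
    exact block C X₁ hC hcore g hg η hη hη1 X H D L b k (PV V w) e1 hD1 hL hbk hb1 hb2 h𝒟 h1L hbD hs1
      κ hℓ0 hHD hDH
  have hsum : ∑ w ∈ Ico (V * u) (V * v), ∑ q ∈ PV V w, ∑ p ∈ PP X,
      ‖∑ m ∈ Ioc (p / q) ((p + H) / q), g m‖ ≤ H * (A1 * RS u v + V * v * A2) := by
    refine (Finset.sum_le_sum hblock).trans ?_
    rw [← Finset.mul_sum, Finset.sum_add_distrib, ← Finset.mul_sum, Finset.sum_const, Nat.card_Ico, nsmul_eq_mul]
    refine mul_le_mul_of_nonneg_left (add_le_add (le_of_eq ?_) ?_) hH0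
    · rw [RS, QQ_blocks V u v hV1 huv (fun q => (1 : ℝ) / q)]
    · refine mul_le_mul_of_nonneg_right ?_ (by positivity)
      have : V * v - V * u ≤ V * v := Nat.sub_le _ _
      exact_mod_cast this
  refine hsum.trans ?_
  have hXN : (X : ℝ) / ℓ ≤ N / c := by
    rw [le_div_iff₀ hc]
    calc (X : ℝ) / ℓ * c = c * X / ℓ := by ring
      _ ≤ N := hNlow
  have hN0 : 0 ≤ N := Nat.cast_nonneg _
  have hRS0 : 0 ≤ RS u v := Finset.sum_nonneg fun q _ => by positivity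
  have hsqX : 2 * Real.sqrt X ≤ ε / 2 * N := by
    have h1 : 4 / (ε * c) * ℓ ≤ Real.sqrt X := by
      refine Real.le_sqrt_of_sq_le ?_
      rw [mul_pow]
      exact e7
    have h2 : 4 * ℓ ≤ ε * c * Real.sqrt X := by
      have h3 : ε * c * (4 / (ε * c) * ℓ) ≤ ε * c * Real.sqrt X := mul_le_mul_of_nonneg_left h1 (by positivity)
      have h4 : ε * c * (4 / (ε * c) * ℓ) = 4 * ℓ := by field_simp
      linarith
    have h5 : 2 * Real.sqrt X ≤ ε / 2 * (c * X / ℓ) := by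
      rw [show ε / 2 * (c * (X : ℝ) / ℓ) = (ε * c * X) / (2 * ℓ) by field_simp, le_div_iff₀ (by positivity)]
      calc 2 * Real.sqrt X * (2 * ℓ) = Real.sqrt X * (4 * ℓ) := by ring
        _ ≤ Real.sqrt X * (ε * c * Real.sqrt X) := mul_le_mul_of_nonneg_left h2 (Real.sqrt_nonneg _)
        _ = ε * c * (Real.sqrt X * Real.sqrt X) := by ring
        _ = ε * c * X := by rw [Real.mul_self_sqrt hX0.le]
    exact h5.trans (mul_le_mul_of_nonneg_left hNlow (by positivity))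
  have hA1N : A1 ≤ ε * N := by
    have h1 : 16 * C * Real.sqrt (6 * η) * (X / ℓ) ≤ ε / 4 * N := by
      calc 16 * C * Real.sqrt (6 * η) * (X / ℓ) ≤ 16 * C * Real.sqrt (6 * η) * (N / c) :=
            mul_le_mul_of_nonneg_left hXN (by positivity)
        _ = 16 * C * Real.sqrt (6 * η) / c * N := by ring
        _ ≤ ε / 4 * N := mul_le_mul_of_nonneg_right hη3 hN0
    have h2 : 14 * η * N ≤ ε / 4 * N := mul_le_mul_of_nonneg_right hη2 hN0
    rw [hA1]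
    linarith
  have hA2N : V * v * A2 ≤ ε * N := by
    have h0 : 0 < ℓ ^ (κ / 2) := Real.rpow_pos_of_pos hℓ0 _
    have h1 : Real.sqrt (48 / ℓ ^ κ) = Real.sqrt 48 / ℓ ^ (κ / 2) := by
      rw [Real.sqrt_div (by norm_num)]
      congr 1
      rw [Real.sqrt_eq_rpow, ← Real.rpow_mul hℓ0.le]
      congr 1
      ring
    have h2 : (v : ℝ) ≤ 2 * Real.log ℓ := by
      have h3 : Real.exp v ≤ ℓ ^ 2 := by
        have h4 : Real.exp v * 1 ≤ Real.exp v * ℓ ^ κ := by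
          refine mul_le_mul_of_nonneg_left ?_ (Real.exp_pos _).le
          have : 0 < 4 / η := by positivity
          linarith
        linarith
      have h4 := Real.log_le_log (Real.exp_pos _) h3
      rw [Real.log_exp, Real.log_pow] at h4
      exact_mod_cast h4
    have h5 : 16 * V * C * Real.sqrt 48 * Real.log ℓ ≤ c * ε * ℓ ^ (κ / 2) := by
      have h6 : c * ε * ((16 * V * C * Real.sqrt 48 / (c * ε)) * Real.log ℓ) ≤ c * ε * ℓ ^ (κ / 2) :=
        mul_le_mul_of_nonneg_left e8 (by positivity)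
      have h7 : c * ε * ((16 * V * C * Real.sqrt 48 / (c * ε)) * Real.log ℓ) =
          16 * V * C * Real.sqrt 48 * Real.log ℓ := by field_simp
      linarith
    rw [hA2, h1]
    calc V * v * (8 * C * (X / ℓ) * (Real.sqrt 48 / ℓ ^ (κ / 2))) ≤
        V * (2 * Real.log ℓ) * (8 * C * (N / c) * (Real.sqrt 48 / ℓ ^ (κ / 2))) := by
          have hv0 : (0 : ℝ) ≤ v := Nat.cast_nonneg _
          refine mul_le_mul (mul_le_mul_of_nonneg_left h2 (by positivity)) ?_ (by positivity) ?_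
          · exact mul_le_mul_of_nonneg_right (mul_le_mul_of_nonneg_left hXN (by positivity)) (by positivity)
          · exact mul_nonneg (by positivity) (hv0.trans h2)
      _ = (16 * V * C * Real.sqrt 48 * Real.log ℓ) * (N / (c * ℓ ^ (κ / 2))) := by
          field_simp
          ring
      _ ≤ (c * ε * ℓ ^ (κ / 2)) * (N / (c * ℓ ^ (κ / 2))) :=
          mul_le_mul_of_nonneg_right h5 (by positivity)
      _ = ε * N := by field_simp
  calc H * (A1 * RS u v + V * v * A2) ≤ H * (ε * N * RS u v + ε * N) :=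
        mul_le_mul_of_nonneg_left (add_le_add (mul_le_mul_of_nonneg_right hA1N hRS0) hA2N) hH0
    _ = ε * (1 + RS u v) * H * N := by ring

end Pool.SWP
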