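import Mathlib
import Pool.Agent.SWP.MertP
import Pool.Agent.SWP.TwoForms

/-!
# SWP/TK: Turán–Kubilius in windows

`om 𝒬 n = #{q ∈ 𝒬 : q ∣ n}`.

* `tk`: `𝒬` a finite set of primes, `S = ∑_{q∈𝒬} 1/q`, `#𝒬² + #𝒬 + 2 S #𝒬 ≤ H`. Then for every `x`
  `∑_{x<n≤x+H} (om 𝒬 n - S)² ≤ (S + 1) H`. Proof: `|#{x<n≤x+H : e ∣ n} - H/e| ≤ 1`. `∑ om ≥ S H - #𝒬`,
  `∑ om² = ∑_{q≠q'} #{qq' ∣ n} + ∑_q #{q ∣ n} ≤ S²H + #𝒬² + S H + #𝒬`. So the sum is
  `≤ S²H + #𝒬² + SH + #𝒬 - 2S(SH - #𝒬) + S²H = SH + #𝒬² + #𝒬 + 2S#𝒬`.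
* `mu_dil`: for any `x, H` and a finite set `𝒬` of primes `> P`, `P ≥ 1`:
  `|∑_{x<n≤x+H} μ(n) om 𝒬 n + ∑_{q∈𝒬} ∑_{x/q<m≤(x+H)/q} μ(m)| ≤ H/P·1 + 2#𝒬`-type bound
  (`≤ ∑_{q∈𝒬} #{m ∈ (x/q,(x+H)/q] : q ∣ m} ≤ ∑_{q∈𝒬} (H/q² + 1)`), because `μ(qm) = -μ(m)` if `q ∤ m` and `= 0` if
  `q ∣ m`; the multiples of `q` in `(x, x+H]` are the `qm`, `m ∈ (x/q, (x+H)/q]`.
* `om_second`: the second moment over primes: there is `C` with, for `X ≥ 2`, `𝒬` a finite set of primes `≤ Z`,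
  `Z^8 ≤ X`, `Z ≤ H`: `∑_{p≤X} ∑_{p<n≤p+H} om 𝒬 n² ≤ C (1 + S)² H X/log X`. Proof: `om² = ∑_{q,q'} 1[q ∣ n, q' ∣ n]`.
  `q = q'`: for every `p` at most `H/q + 1 ≤ 2H/q` values of `n`; `π(X) ≤ CX/log X`. `q ≠ q'`:
  `∑_{h≤H} #{p ≤ X : qq' ∣ p + h} ≤ H · C F(qq') X/(qq' log X)` by `card_AP_le` (`(qq')^4 ≤ Z^8 ≤ X`), `F(qq') ≤ 4`.
-/

set_option autoImplicit false

namespace Pool.SWP

open Finset Pool.MRZ

/-- the number of prime divisors in `𝒬` -/
def om (𝒬 : Finset ℕ) (n : ℕ) : ℕ := (𝒬.filter (fun q => q ∣ n)).card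

/-- number of multiples of `e` in a window -/
lemma abs_card_dvd_sub_le (x H e : ℕ) (he : 0 < e) :
    |(((Ioc x (x + H)).filter (fun n => e ∣ n)).card : ℝ) - (H : ℝ) / e| ≤ 1 := by
  have h := Pool.Agent.Lib.PrimePairs.abs_count_modEq_sub_le x (x + H) e 0 (by omega) he
  have hset : (Ioc x (x + H)).filter (fun n => n ≡ 0 [MOD e]) = (Ioc x (x + H)).filter (fun n => e ∣ n) := by
    apply Finset.filter_congr
    intro n _
    exact Nat.modEq_zero_iff_dvd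
  rw [hset] at h
  push_cast at h
  simpa using h

lemma om_cast (𝒬 : Finset ℕ) (n : ℕ) : (om 𝒬 n : ℝ) = ∑ q ∈ 𝒬, if q ∣ n then (1 : ℝ) else 0 := by
  unfold om
  rw [Finset.card_filter]
  push_cast
  rfl

lemma om_castC (𝒬 : Finset ℕ) (n : ℕ) : (om 𝒬 n : ℂ) = ∑ q ∈ 𝒬, if q ∣ n then (1 : ℂ) else 0 := by
  unfold om
  rw [Finset.card_filter]
  push_cast
  rfl

lemma om_sq (𝒬 : Finset ℕ) (n : ℕ) :
    (om 𝒬 n : ℝ) ^ 2 = ∑ q ∈ 𝒬, ∑ q' ∈ 𝒬, if q ∣ n ∧ q' ∣ n then (1 : ℝ) else 0 := by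
  rw [om_cast, sq, Finset.sum_mul_sum]
  refine Finset.sum_congr rfl fun q _ => Finset.sum_congr rfl fun q' _ => ?_
  by_cases h1 : q ∣ n <;> by_cases h2 : q' ∣ n <;> simp [h1, h2]

lemma sum_ite_card {α : Type*} (s : Finset α) (p : α → Prop) [DecidablePred p] :
    ∑ n ∈ s, (if p n then (1 : ℝ) else 0) = ((s.filter p).card : ℝ) := by
  rw [Finset.card_filter]
  push_cast
  rfl

theorem tk (𝒬 : Finset ℕ) (h𝒬 : ∀ q ∈ 𝒬, q.Prime) (x H : ℕ)
    (hH : (𝒬.card : ℝ) ^ 2 + 𝒬.card + 2 * (∑ q ∈ 𝒬, (1 : ℝ) / q) * 𝒬.card ≤ H) :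
    ∑ n ∈ Ioc x (x + H), ((om 𝒬 n : ℝ) - ∑ q ∈ 𝒬, (1 : ℝ) / q) ^ 2 ≤ ((∑ q ∈ 𝒬, (1 : ℝ) / q) + 1) * H := by
  set S : ℝ := ∑ q ∈ 𝒬, (1 : ℝ) / q with hS
  have hS0 : 0 ≤ S := Finset.sum_nonneg fun q _ => by positivity
  have h1 : S * H - 𝒬.card ≤ ∑ n ∈ Ioc x (x + H), (om 𝒬 n : ℝ) := by
    have e1 : ∑ n ∈ Ioc x (x + H), (om 𝒬 n : ℝ) =
        ∑ q ∈ 𝒬, (((Ioc x (x + H)).filter (fun n => q ∣ n)).card : ℝ) := by
      simp_rw [om_cast]
      rw [Finset.sum_comm]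
      refine Finset.sum_congr rfl fun q _ => ?_
      rw [sum_ite_card]
    rw [e1, hS, Finset.sum_mul]
    have e2 : (𝒬.card : ℝ) = ∑ q ∈ 𝒬, (1 : ℝ) := by simp
    rw [e2, ← Finset.sum_sub_distrib]
    refine Finset.sum_le_sum fun q hq => ?_
    have := abs_card_dvd_sub_le x H q (h𝒬 q hq).pos
    rw [abs_le] at this
    have e3 : (1 : ℝ) / q * H = (H : ℝ) / q := by ring
    linarith [this.1]
  have h2 : ∑ n ∈ Ioc x (x + H), (om 𝒬 n : ℝ) ^ 2 ≤ S ^ 2 * H + (𝒬.card : ℝ) ^ 2 + S * H + 𝒬.card := by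
    have e1 : ∑ n ∈ Ioc x (x + H), (om 𝒬 n : ℝ) ^ 2 =
        ∑ q ∈ 𝒬, ∑ q' ∈ 𝒬, (((Ioc x (x + H)).filter (fun n => q ∣ n ∧ q' ∣ n)).card : ℝ) := by
      simp_rw [om_sq]
      rw [Finset.sum_comm]
      refine Finset.sum_congr rfl fun q _ => ?_
      rw [Finset.sum_comm]
      refine Finset.sum_congr rfl fun q' _ => ?_
      rw [sum_ite_card]
    rw [e1]
    have e2 : ∀ q ∈ 𝒬, ∀ q' ∈ 𝒬, (((Ioc x (x + H)).filter (fun n => q ∣ n ∧ q' ∣ n)).card : ℝ) ≤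
        (1 : ℝ) / q * (1 / q') * H + 1 + (if q = q' then (1 : ℝ) / q * H + 1 else 0) := by
      intro q hq q' hq'
      have hqp := h𝒬 q hq
      have hqp' := h𝒬 q' hq'
      by_cases hqq : q = q'
      · subst hqq
        rw [if_pos rfl]
        have hs : (Ioc x (x + H)).filter (fun n => q ∣ n ∧ q ∣ n) = (Ioc x (x + H)).filter (fun n => q ∣ n) := by
          apply Finset.filter_congr; intro n _; simp
        rw [hs]
        have := abs_card_dvd_sub_le x H q hqp.pos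
        rw [abs_le] at this
        have e3 : (1 : ℝ) / q * H = (H : ℝ) / q := by ring
        have e4 : (0 : ℝ) ≤ (1 : ℝ) / q * (1 / q) * H := by positivity
        linarith [this.2]
      · rw [if_neg hqq]
        have hco : q.Coprime q' := (Nat.coprime_primes hqp hqp').mpr hqq
        have hs : (Ioc x (x + H)).filter (fun n => q ∣ n ∧ q' ∣ n) =
            (Ioc x (x + H)).filter (fun n => q * q' ∣ n) := by
          apply Finset.filter_congr; intro n _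
          constructor
          · rintro ⟨ha, hb⟩; exact hco.mul_dvd_of_dvd_of_dvd ha hb
          · intro h; exact ⟨(Dvd.intro _ rfl).trans h, (Dvd.intro_left _ rfl).trans h⟩
        rw [hs]
        have := abs_card_dvd_sub_le x H (q * q') (Nat.mul_pos hqp.pos hqp'.pos)
        rw [abs_le] at this
        push_cast at this
        have e3 : (1 : ℝ) / q * (1 / q') * H = (H : ℝ) / (q * q') := by
          have : (q : ℝ) ≠ 0 := by exact_mod_cast hqp.pos.ne'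
          have : (q' : ℝ) ≠ 0 := by exact_mod_cast hqp'.pos.ne'
          field_simp
        linarith [this.2]
    calc ∑ q ∈ 𝒬, ∑ q' ∈ 𝒬, (((Ioc x (x + H)).filter (fun n => q ∣ n ∧ q' ∣ n)).card : ℝ)
        ≤ ∑ q ∈ 𝒬, ∑ q' ∈ 𝒬, ((1 : ℝ) / q * (1 / q') * H + 1 + (if q = q' then (1 : ℝ) / q * H + 1 else 0)) :=
          Finset.sum_le_sum fun q hq => Finset.sum_le_sum fun q' hq' => e2 q hq q' hq'
      _ = S ^ 2 * H + (𝒬.card : ℝ) ^ 2 + S * H + 𝒬.card := by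
          have f1 : ∀ q ∈ 𝒬, ∑ q' ∈ 𝒬, ((1 : ℝ) / q * (1 / q') * H + 1 + (if q = q' then (1 : ℝ) / q * H + 1 else 0)) =
              (1 : ℝ) / q * S * H + 𝒬.card + ((1 : ℝ) / q * H + 1) := by
            intro q hq
            rw [Finset.sum_add_distrib, Finset.sum_add_distrib, Finset.sum_ite_eq, if_pos hq]
            rw [← Finset.sum_mul, ← Finset.mul_sum]
            simp [hS]
          rw [Finset.sum_congr rfl f1, Finset.sum_add_distrib, Finset.sum_add_distrib, Finset.sum_add_distrib,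
            ← Finset.sum_mul, ← Finset.sum_mul, ← Finset.sum_mul]
          rw [← hS]
          simp
          ring
  have h3 : ∑ n ∈ Ioc x (x + H), ((om 𝒬 n : ℝ) - S) ^ 2 =
      ∑ n ∈ Ioc x (x + H), (om 𝒬 n : ℝ) ^ 2 - 2 * S * ∑ n ∈ Ioc x (x + H), (om 𝒬 n : ℝ) + S ^ 2 * H := by
    have e1 : ∀ n ∈ Ioc x (x + H), ((om 𝒬 n : ℝ) - S) ^ 2 = (om 𝒬 n : ℝ) ^ 2 - 2 * S * (om 𝒬 n : ℝ) + S ^ 2 := by
      intro n _; ring
    rw [Finset.sum_congr rfl e1, Finset.sum_add_distrib, Finset.sum_sub_distrib, ← Finset.mul_sum]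
    simp
    ring
  rw [h3]
  nlinarith [mul_le_mul_of_nonneg_left h1 hS0]

/-- the multiples of `q` in a window -/
lemma filter_dvd_eq_image (x H q : ℕ) (hq : 0 < q) :
    (Ioc x (x + H)).filter (fun n => q ∣ n) = (Ioc (x / q) ((x + H) / q)).image (fun m => q * m) := by
  ext n
  simp only [mem_filter, mem_Ioc, mem_image]
  constructor
  · rintro ⟨⟨h1, h2⟩, m, rfl⟩
    refine ⟨m, ⟨?_, ?_⟩, rfl⟩
    · rw [Nat.div_lt_iff_lt_mul hq, mul_comm]; exact h1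
    · rw [Nat.le_div_iff_mul_le hq, mul_comm]; exact h2
  · rintro ⟨m, ⟨h1, h2⟩, rfl⟩
    rw [Nat.div_lt_iff_lt_mul hq, mul_comm] at h1
    rw [Nat.le_div_iff_mul_le hq, mul_comm] at h2
    exact ⟨⟨h1, h2⟩, Dvd.intro _ rfl⟩

lemma sum_filter_dvd {β : Type*} [AddCommMonoid β] (x H q : ℕ) (hq : 0 < q) (f : ℕ → β) :
    ∑ n ∈ (Ioc x (x + H)).filter (fun n => q ∣ n), f n = ∑ m ∈ Ioc (x / q) ((x + H) / q), f (q * m) := by
  rw [filter_dvd_eq_image x H q hq, Finset.sum_image]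
  intro a _ b _ hab
  exact Nat.eq_of_mul_eq_mul_left hq hab

/-- number of multiples of `q` in the dilated window -/
lemma card_dvd_dil (x H q : ℕ) (hq : 0 < q) :
    (((Ioc (x / q) ((x + H) / q)).filter (fun m => q ∣ m)).card : ℝ) ≤ H / (q : ℝ) ^ 2 + 1 := by
  have h1 : ((Ioc (x / q) ((x + H) / q)).filter (fun m => q ∣ m)).card =
      ((Ioc x (x + H)).filter (fun n => q * q ∣ n)).card := by
    rw [← Finset.card_image_of_injective ((Ioc (x / q) ((x + H) / q)).filter (fun m => q ∣ m))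
      (fun a b hab => Nat.eq_of_mul_eq_mul_left hq hab : Function.Injective (fun m => q * m))]
    congr 1
    ext n
    simp only [mem_filter, mem_Ioc, mem_image]
    constructor
    · rintro ⟨m, ⟨⟨h1, h2⟩, h3⟩, rfl⟩
      rw [Nat.div_lt_iff_lt_mul hq, mul_comm] at h1
      rw [Nat.le_div_iff_mul_le hq, mul_comm] at h2
      exact ⟨⟨h1, h2⟩, Nat.mul_dvd_mul_left q h3⟩
    · rintro ⟨⟨h1, h2⟩, k, rfl⟩
      refine ⟨q * k, ⟨⟨?_, ?_⟩, Dvd.intro _ rfl⟩, by ring⟩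
      · rw [Nat.div_lt_iff_lt_mul hq]; linarith [show q * k * q = q * q * k by ring]
      · rw [Nat.le_div_iff_mul_le hq]; linarith [show q * k * q = q * q * k by ring]
  rw [h1]
  have := abs_card_dvd_sub_le x H (q * q) (Nat.mul_pos hq hq)
  rw [abs_le] at this
  push_cast at this
  have e : (q : ℝ) ^ 2 = q * q := by ring
  rw [e]
  linarith [this.2]

/-- length of the dilated window -/
lemma card_dil (x H q : ℕ) (hq : 0 < q) :
    (H : ℝ) / q - 1 ≤ ((Ioc (x / q) ((x + H) / q)).card : ℝ) := by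
  have h1 : (Ioc (x / q) ((x + H) / q)).card = ((Ioc x (x + H)).filter (fun n => q ∣ n)).card := by
    rw [filter_dvd_eq_image x H q hq, Finset.card_image_of_injective]
    exact fun a b hab => Nat.eq_of_mul_eq_mul_left hq hab
  rw [h1]
  have := abs_card_dvd_sub_le x H q hq
  rw [abs_le] at this
  linarith [this.1]

lemma moebius_prime_mul (q m : ℕ) (hq : q.Prime) :
    ArithmeticFunction.moebius (q * m) = if q ∣ m then 0 else -ArithmeticFunction.moebius m := by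
  by_cases h : q ∣ m
  · rw [if_pos h]
    apply ArithmeticFunction.moebius_eq_zero_of_not_squarefree
    intro hs
    obtain ⟨k, rfl⟩ := h
    have : q * q ∣ q * (q * k) := ⟨k, by ring⟩
    exact hq.one_lt.ne' (Nat.isUnit_iff.mp (hs q this))
  · rw [if_neg h]
    have hco : q.Coprime m := (Nat.Prime.coprime_iff_not_dvd hq).mpr h
    rw [ArithmeticFunction.isMultiplicative_moebius.map_mul_of_coprime hco,
      ArithmeticFunction.moebius_apply_prime hq]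
    ring

lemma norm_mu_le_one (m : ℕ) : ‖mu m‖ ≤ 1 := by
  unfold mu
  have := ArithmeticFunction.abs_moebius_le_one (n := m)
  rw [Complex.norm_intCast]
  exact_mod_cast this

theorem mu_dil (𝒬 : Finset ℕ) (h𝒬 : ∀ q ∈ 𝒬, q.Prime) (x H : ℕ) :
    ‖∑ n ∈ Ioc x (x + H), mu n * (om 𝒬 n : ℂ)‖ ≤
      ∑ q ∈ 𝒬, (‖∑ m ∈ Ioc (x / q) ((x + H) / q), mu m‖ + (H / (q : ℝ) ^ 2 + 1)) := by
  have h1 : ∑ n ∈ Ioc x (x + H), mu n * (om 𝒬 n : ℂ) =
      ∑ q ∈ 𝒬, ∑ m ∈ Ioc (x / q) ((x + H) / q), mu (q * m) := by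
    simp_rw [om_castC, Finset.mul_sum]
    rw [Finset.sum_comm]
    refine Finset.sum_congr rfl fun q hq => ?_
    rw [← sum_filter_dvd x H q (h𝒬 q hq).pos mu, Finset.sum_filter]
    refine Finset.sum_congr rfl fun n _ => ?_
    split_ifs <;> simp
  rw [h1]
  refine (norm_sum_le _ _).trans (Finset.sum_le_sum fun q hq => ?_)
  have hqp := h𝒬 q hq
  have h2 : ∑ m ∈ Ioc (x / q) ((x + H) / q), mu (q * m) =
      -(∑ m ∈ Ioc (x / q) ((x + H) / q), mu m) +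
        ∑ m ∈ (Ioc (x / q) ((x + H) / q)).filter (fun m => q ∣ m), mu m := by
    rw [Finset.sum_filter, ← Finset.sum_neg_distrib, ← Finset.sum_add_distrib]
    refine Finset.sum_congr rfl fun m _ => ?_
    unfold mu
    rw [moebius_prime_mul q m hqp]
    split_ifs <;> simp
  rw [h2]
  refine (norm_add_le _ _).trans ?_
  rw [norm_neg]
  have h3 : ‖∑ m ∈ (Ioc (x / q) ((x + H) / q)).filter (fun m => q ∣ m), mu m‖ ≤ H / (q : ℝ) ^ 2 + 1 := by
    refine (norm_sum_le _ _).trans ?_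
    refine le_trans (Finset.sum_le_card_nsmul _ _ 1 fun m _ => norm_mu_le_one m) ?_
    rw [nsmul_eq_mul, mul_one]
    exact card_dvd_dil x H q hqp.pos
  linarith

/-- the same for the numbers with `μ(n) = s` : lower bound for the weighted count -/
theorem sign_dil (𝒬 : Finset ℕ) (h𝒬 : ∀ q ∈ 𝒬, q.Prime) (x H : ℕ) (s : ℤ) (hs : s = 1 ∨ s = -1) (c₀ : ℝ)
    (hc₀ : 0 ≤ c₀) (hc₁ : c₀ ≤ 1) :
    (c₀ / 2) * H * (∑ q ∈ 𝒬, (1 : ℝ) / q) ≤
      (∑ n ∈ (Ioc x (x + H)).filter (fun n => ArithmeticFunction.moebius n = s), (om 𝒬 n : ℝ)) +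
      ∑ q ∈ 𝒬, (‖∑ m ∈ Ioc (x / q) ((x + H) / q), mu m‖ +
        ‖∑ m ∈ Ioc (x / q) ((x + H) / q), (mu m ^ 2 - (c₀ : ℂ))‖ + (H / (q : ℝ) ^ 2 + 3)) := by
  have h1 : ∑ n ∈ (Ioc x (x + H)).filter (fun n => ArithmeticFunction.moebius n = s), (om 𝒬 n : ℝ) =
      ∑ q ∈ 𝒬, ∑ m ∈ Ioc (x / q) ((x + H) / q),
        (if ArithmeticFunction.moebius (q * m) = s then (1 : ℝ) else 0) := by
    simp_rw [om_cast]
    rw [Finset.sum_comm]
    refine Finset.sum_congr rfl fun q hq => ?_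
    rw [← sum_filter_dvd x H q (h𝒬 q hq).pos
      (fun n => if ArithmeticFunction.moebius n = s then (1 : ℝ) else 0), Finset.sum_filter, Finset.sum_filter]
    refine Finset.sum_congr rfl fun n _ => ?_
    by_cases a : ArithmeticFunction.moebius n = s <;> by_cases b : q ∣ n <;> simp [a, b]
  rw [h1, Finset.mul_sum, ← Finset.sum_add_distrib]
  refine Finset.sum_le_sum fun q hq => ?_
  have hqp := h𝒬 q hq
  set I := Ioc (x / q) ((x + H) / q) with hI
  have key : ∀ m : ℕ, (if ArithmeticFunction.moebius (q * m) = s then (1 : ℝ) else 0) ≥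
      ((ArithmeticFunction.moebius m : ℝ) ^ 2 - s * (ArithmeticFunction.moebius m : ℝ)) / 2 -
        (if q ∣ m then (1 : ℝ) else 0) := by
    intro m
    rw [moebius_prime_mul q m hqp]
    have hm := ArithmeticFunction.moebius_eq_or m
    by_cases hd : q ∣ m
    · rw [if_pos hd, if_pos hd]
      have : (0 : ℤ) ≠ s := by rcases hs with rfl | rfl <;> norm_num
      rw [if_neg this]
      rcases hm with h | h | h <;> rcases hs with rfl | rfl <;> rw [h] <;> norm_num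
    · rw [if_neg hd, if_neg hd]
      rcases hm with h | h | h <;> rcases hs with rfl | rfl <;> rw [h] <;> norm_num
  have h2 : ∑ m ∈ I, (if ArithmeticFunction.moebius (q * m) = s then (1 : ℝ) else 0) ≥
      ((∑ m ∈ I, (ArithmeticFunction.moebius m : ℝ) ^ 2) - s * ∑ m ∈ I, (ArithmeticFunction.moebius m : ℝ)) / 2 -
        ((I.filter (fun m => q ∣ m)).card : ℝ) := by
    rw [← sum_ite_card I (fun m => q ∣ m), Finset.mul_sum, ← Finset.sum_sub_distrib, Finset.sum_div,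
      ← Finset.sum_sub_distrib]
    exact Finset.sum_le_sum fun m _ => key m
  have h3 := card_dvd_dil x H q hqp.pos
  rw [← hI] at h3
  have h4 := card_dil x H q hqp.pos
  rw [← hI] at h4
  have h5 : |∑ m ∈ I, (ArithmeticFunction.moebius m : ℝ)| = ‖∑ m ∈ I, mu m‖ := by
    have : ∑ m ∈ I, mu m = ((∑ m ∈ I, (ArithmeticFunction.moebius m : ℝ) : ℝ) : ℂ) := by
      unfold mu; push_cast; rfl
    rw [this, Complex.norm_real, Real.norm_eq_abs]
  have h6 : |(∑ m ∈ I, (ArithmeticFunction.moebius m : ℝ) ^ 2) - c₀ * (I.card : ℝ)| =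
      ‖∑ m ∈ I, (mu m ^ 2 - (c₀ : ℂ))‖ := by
    have : ∑ m ∈ I, (mu m ^ 2 - (c₀ : ℂ)) =
        (((∑ m ∈ I, (ArithmeticFunction.moebius m : ℝ) ^ 2) - c₀ * (I.card : ℝ) : ℝ) : ℂ) := by
      rw [Finset.sum_sub_distrib]
      unfold mu; push_cast
      simp [mul_comm]
    rw [this, Complex.norm_real, Real.norm_eq_abs]
  have h7 : (s : ℝ) * ∑ m ∈ I, (ArithmeticFunction.moebius m : ℝ) ≤ ‖∑ m ∈ I, mu m‖ := by
    rw [← h5]
    rcases hs with rfl | rfl
    · push_cast; rw [one_mul]; exact le_abs_self _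
    · push_cast; rw [neg_one_mul]; exact neg_le_abs _
  have h8 : c₀ * (I.card : ℝ) - ‖∑ m ∈ I, (mu m ^ 2 - (c₀ : ℂ))‖ ≤
      ∑ m ∈ I, (ArithmeticFunction.moebius m : ℝ) ^ 2 := by
    rw [← h6]
    have := neg_abs_le ((∑ m ∈ I, (ArithmeticFunction.moebius m : ℝ) ^ 2) - c₀ * (I.card : ℝ))
    linarith
  have h9 : c₀ * ((H : ℝ) / q - 1) ≤ c₀ * (I.card : ℝ) := mul_le_mul_of_nonneg_left h4 hc₀
  have h10 : c₀ / 2 * (H : ℝ) * ((1 : ℝ) / q) = c₀ * ((H : ℝ) / q) / 2 := by ring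
  have h11 := norm_nonneg (∑ m ∈ I, mu m)
  have h12 := norm_nonneg (∑ m ∈ I, (mu m ^ 2 - (c₀ : ℂ)))
  have h13 : 0 ≤ (H : ℝ) / (q : ℝ) ^ 2 := by positivity
  rw [h10]
  nlinarith

lemma F_mul_primes_le (q q' : ℕ) (hq : q.Prime) (hq' : q'.Prime) (hne : q ≠ q') :
    Pool.Agent.Lib.PrimePairs.F (q * q') ≤ 4 := by
  unfold Pool.Agent.Lib.PrimePairs.F
  have h1 : ∑ e ∈ (q * q').divisors, (1 : ℝ) / e ≤ ∑ e ∈ (q * q').divisors, (1 : ℝ) := by
    refine Finset.sum_le_sum fun e he => ?_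
    have : 0 < e := Nat.pos_of_mem_divisors he
    rw [div_le_one (by exact_mod_cast this)]
    exact_mod_cast this
  refine h1.trans ?_
  have hco : q.Coprime q' := (Nat.coprime_primes hq hq').mpr hne
  have h2 : (q * q').divisors.card = 4 := by
    rw [Nat.Coprime.card_divisors_mul hco, hq.divisors, hq'.divisors,
      Finset.card_pair hq.one_lt.ne, Finset.card_pair hq'.one_lt.ne]
  rw [Finset.sum_const, h2]
  norm_num

theorem om_second : ∃ C : ℝ, 0 < C ∧ ∀ (X H Z : ℕ) (𝒬 : Finset ℕ), 2 ≤ X → (∀ q ∈ 𝒬, q.Prime ∧ q ≤ Z) →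
    Z ^ 8 ≤ X → Z ≤ H →
    ∑ p ∈ PP X, ∑ n ∈ Ioc p (p + H), (om 𝒬 n : ℝ) ^ 2 ≤
      C * (1 + ∑ q ∈ 𝒬, (1 : ℝ) / q) ^ 2 * H * (X / Real.log X) := by
  obtain ⟨C, hC, hAP⟩ := card_AP_le
  refine ⟨4 * C, by positivity, ?_⟩
  intro X H Z 𝒬 hX h𝒬 hZX hZH
  have hlog : 0 < Real.log X := Real.log_pos (by exact_mod_cast (by omega : 1 < X))
  set S : ℝ := ∑ q ∈ 𝒬, (1 : ℝ) / q with hS
  have hS0 : 0 ≤ S := Finset.sum_nonneg fun q _ => by positivity
  set L : ℝ := X / Real.log X with hL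
  have hL0 : 0 ≤ L := by positivity
  -- pi bound
  have hpi : ((PP X).card : ℝ) ≤ C * L := by
    have h := hAP X 1 0 hX le_rfl (by simpa using (by omega : 1 ≤ X))
    have e1 : (PP X).filter (fun p => 1 ∣ p + 0) = PP X := by
      apply Finset.filter_true_of_mem; intro p _; exact one_dvd _
    rw [e1] at h
    have e2 : Pool.Agent.Lib.PrimePairs.F 1 = 1 := by simp [Pool.Agent.Lib.PrimePairs.F]
    rw [e2] at h
    refine h.trans (le_of_eq ?_)
    rw [hL]; push_cast; ring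
  have hpair : ∀ q ∈ 𝒬, ∀ q' ∈ 𝒬,
      ∑ p ∈ PP X, (((Ioc p (p + H)).filter (fun n => q ∣ n ∧ q' ∣ n)).card : ℝ) ≤
        4 * C * ((1 : ℝ) / q * (1 / q')) * H * L + (if q = q' then 2 * C * ((1 : ℝ) / q) * H * L else 0) := by
    intro q hq q' hq'
    obtain ⟨hqp, hqZ⟩ := h𝒬 q hq
    obtain ⟨hqp', hqZ'⟩ := h𝒬 q' hq'
    have hq0 : (0 : ℝ) < q := by exact_mod_cast hqp.pos
    have hq0' : (0 : ℝ) < q' := by exact_mod_cast hqp'.pos
    by_cases hqq : q = q'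
    · subst hqq
      rw [if_pos rfl]
      have e1 : ∀ p ∈ PP X, (((Ioc p (p + H)).filter (fun n => q ∣ n ∧ q ∣ n)).card : ℝ) ≤
          2 * ((1 : ℝ) / q) * H := by
        intro p _
        have hs : (Ioc p (p + H)).filter (fun n => q ∣ n ∧ q ∣ n) = (Ioc p (p + H)).filter (fun n => q ∣ n) := by
          apply Finset.filter_congr; intro n _; simp
        rw [hs]
        have := abs_card_dvd_sub_le p H q hqp.pos
        rw [abs_le] at this
        have e2 : (1 : ℝ) ≤ (H : ℝ) / q := by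
          rw [le_div_iff₀ hq0, one_mul]
          exact_mod_cast hqZ.trans hZH
        have e3 : 2 * ((1 : ℝ) / q) * H = 2 * ((H : ℝ) / q) := by ring
        linarith [this.2]
      have e4 := Finset.sum_le_card_nsmul _ _ _ e1
      rw [nsmul_eq_mul] at e4
      have e5 : ((PP X).card : ℝ) * (2 * ((1 : ℝ) / q) * H) ≤ C * L * (2 * ((1 : ℝ) / q) * H) :=
        mul_le_mul_of_nonneg_right hpi (by positivity)
      have e6 : 0 ≤ 4 * C * ((1 : ℝ) / q * (1 / q)) * H * L := by positivity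
      nlinarith
    · rw [if_neg hqq, add_zero]
      have hco : q.Coprime q' := (Nat.coprime_primes hqp hqp').mpr hqq
      have e1 : ∑ p ∈ PP X, (((Ioc p (p + H)).filter (fun n => q ∣ n ∧ q' ∣ n)).card : ℝ) =
          ∑ h ∈ Ioc 0 H, (((PP X).filter (fun p => q * q' ∣ p + h)).card : ℝ) := by
        have f1 : ∀ p ∈ PP X, (((Ioc p (p + H)).filter (fun n => q ∣ n ∧ q' ∣ n)).card : ℝ) =
            ∑ h ∈ Ioc 0 H, (if q * q' ∣ p + h then (1 : ℝ) else 0) := by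
          intro p _
          rw [← sum_ite_card]
          have hI : Ioc p (p + H) = (Ioc 0 H).image (fun h => p + h) := by
            ext n
            simp only [mem_Ioc, mem_image]
            constructor
            · rintro ⟨a, b⟩; exact ⟨n - p, ⟨by omega, by omega⟩, by omega⟩
            · rintro ⟨h, ⟨a, b⟩, rfl⟩; exact ⟨by omega, by omega⟩
          rw [hI, Finset.sum_image (fun a _ b _ hab => by simpa using hab)]
          refine Finset.sum_congr rfl fun h _ => ?_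
          have : (q ∣ p + h ∧ q' ∣ p + h) ↔ q * q' ∣ p + h := by
            constructor
            · rintro ⟨ha, hb⟩; exact hco.mul_dvd_of_dvd_of_dvd ha hb
            · intro h; exact ⟨(Dvd.intro _ rfl).trans h, (Dvd.intro_left _ rfl).trans h⟩
          by_cases hh : q * q' ∣ p + h
          · rw [if_pos hh, if_pos (this.mpr hh)]
          · rw [if_neg hh, if_neg (fun h' => hh (this.mp h'))]
        rw [Finset.sum_congr rfl f1, Finset.sum_comm]
        refine Finset.sum_congr rfl fun h _ => ?_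
        rw [sum_ite_card]
      rw [e1]
      have hE : (q * q') ^ 4 ≤ X := by
        calc (q * q') ^ 4 ≤ (Z * Z) ^ 4 := Nat.pow_le_pow_left (Nat.mul_le_mul hqZ hqZ') 4
          _ = Z ^ 8 := by ring
          _ ≤ X := hZX
      have e2 : ∀ h ∈ Ioc 0 H, (((PP X).filter (fun p => q * q' ∣ p + h)).card : ℝ) ≤
          4 * C * ((1 : ℝ) / q * (1 / q')) * L := by
        intro h _
        refine (hAP X (q * q') h hX (Nat.mul_pos hqp.pos hqp'.pos) hE).trans ?_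
        have f2 := F_mul_primes_le q q' hqp hqp' hqq
        have f3 : C * Pool.Agent.Lib.PrimePairs.F (q * q') * X / (((q * q' : ℕ) : ℝ) * Real.log X) =
            Pool.Agent.Lib.PrimePairs.F (q * q') * (C * ((1 : ℝ) / q * (1 / q')) * L) := by
          rw [hL]; push_cast; field_simp
        rw [f3]
        calc Pool.Agent.Lib.PrimePairs.F (q * q') * (C * ((1 : ℝ) / q * (1 / q')) * L)
            ≤ 4 * (C * ((1 : ℝ) / q * (1 / q')) * L) := mul_le_mul_of_nonneg_right f2 (by positivity)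
          _ = _ := by ring
      refine (Finset.sum_le_card_nsmul _ _ _ e2).trans (le_of_eq ?_)
      rw [nsmul_eq_mul, Nat.card_Ioc, Nat.sub_zero]
      ring
  have e1 : ∑ p ∈ PP X, ∑ n ∈ Ioc p (p + H), (om 𝒬 n : ℝ) ^ 2 =
      ∑ q ∈ 𝒬, ∑ q' ∈ 𝒬, ∑ p ∈ PP X, (((Ioc p (p + H)).filter (fun n => q ∣ n ∧ q' ∣ n)).card : ℝ) := by
    have f1 : ∀ p ∈ PP X, ∑ n ∈ Ioc p (p + H), (om 𝒬 n : ℝ) ^ 2 =
        ∑ q ∈ 𝒬, ∑ q' ∈ 𝒬, (((Ioc p (p + H)).filter (fun n => q ∣ n ∧ q' ∣ n)).card : ℝ) := by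
      intro p _
      simp_rw [om_sq]
      rw [Finset.sum_comm]
      refine Finset.sum_congr rfl fun q _ => ?_
      rw [Finset.sum_comm]
      refine Finset.sum_congr rfl fun q' _ => ?_
      rw [sum_ite_card]
    rw [Finset.sum_congr rfl f1, Finset.sum_comm]
    refine Finset.sum_congr rfl fun q _ => ?_
    rw [Finset.sum_comm]
  rw [e1]
  calc ∑ q ∈ 𝒬, ∑ q' ∈ 𝒬, ∑ p ∈ PP X, (((Ioc p (p + H)).filter (fun n => q ∣ n ∧ q' ∣ n)).card : ℝ)
      ≤ ∑ q ∈ 𝒬, ∑ q' ∈ 𝒬, (4 * C * ((1 : ℝ) / q * (1 / q')) * H * L +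
          (if q = q' then 2 * C * ((1 : ℝ) / q) * H * L else 0)) :=
        Finset.sum_le_sum fun q hq => Finset.sum_le_sum fun q' hq' => hpair q hq q' hq'
    _ = (4 * C * S ^ 2 + 2 * C * S) * H * L := by
        have f1 : ∀ q ∈ 𝒬, ∑ q' ∈ 𝒬, (4 * C * ((1 : ℝ) / q * (1 / q')) * H * L +
            (if q = q' then 2 * C * ((1 : ℝ) / q) * H * L else 0)) =
            (1 : ℝ) / q * (4 * C * S * H * L + 2 * C * H * L) := by
          intro q hq
          rw [Finset.sum_add_distrib, Finset.sum_ite_eq, if_pos hq]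
          have g1 : ∑ q' ∈ 𝒬, 4 * C * ((1 : ℝ) / q * (1 / q')) * H * L =
              (4 * C * ((1 : ℝ) / q) * H * L) * S := by
            rw [hS, Finset.mul_sum]
            refine Finset.sum_congr rfl fun q' _ => ?_
            ring
          rw [g1]; ring
        rw [Finset.sum_congr rfl f1, ← Finset.sum_mul, ← hS]
        ring
    _ ≤ 4 * C * (1 + S) ^ 2 * H * L := by
        have g1 : 4 * C * S ^ 2 + 2 * C * S ≤ 4 * C * (1 + S) ^ 2 := by nlinarith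
        have g2 : (0 : ℝ) ≤ (H : ℝ) * L := by positivity
        nlinarith [mul_le_mul_of_nonneg_right g1 g2]

end Pool.SWP
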