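import Mathlib
import Pool.Agent.SWP.Defs
import Pool.Agent.MRZ.SupLam

/-!
# SWP/SqfWin: squarefree numbers and both signs of `μ` in almost all windows of bounded length

* `short_sq`: there is `c₀ ≥ 1/3` (namely `c₀ = ∑_d μ(d)/d² = 6/π²`) such that `Short (fun n => μ(n)² - c₀)`.
  Proof: `μ(n)² = ∑_{d² ∣ n} μ(d)` for `n ≥ 1` (see `mu_eq` in `Pool/Agent/MRZ/SupLam.lean`, or
  `ArithmeticFunction.sum...`). For `D ≥ 1`: `∑_{x<n≤x+H} μ(n)² = ∑_{d≤D} μ(d) (H/d² + O(1)) + O(#{(n,d) : d > D, d² ∣ n})`.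
  The main term is `c₀ H + O(H/D)`; summed over `x < X` the last error is at most `∑_{d>D} H (X+H)/d² ≤ 2HX/D`. So
  `∑_{x<X} |…| ≤ X (D + 2H/D) + 2HX/D ≤ η H X` for `D = ⌈8/η⌉`, `H ≥ 2D/η`. `c₀ ≥ 1 - ∑_{d≥2} 1/d² ≥ 1/3`.
* `short_mu`: `Short mu` (`sup_mu` with `α = 0`).
* `sign_win`: for `η > 0` there are `L₀, Y₀` such that for `L ≥ L₀`, `Y ≥ Y₀`, `Y ≥ L`, the number of `y < Y` such that
  `#{n ∈ (y,y+L] : μ(n) = 1} < L/8` or `#{n ∈ (y,y+L] : μ(n) = -1} < L/8` is at most `η Y`. Proof: `2 #{μ = ±1} =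
  ∑μ² ± ∑μ ≥ L/3 - |∑(μ² - c₀)| - |∑μ|`; if this is `< L/4` then one of the two sums is `≥ L/24`; Markov.
-/

set_option autoImplicit false

namespace Pool.SWP

open Finset Pool.MRZ

theorem short_mu : Short mu := by
  intro η hη
  obtain ⟨H₀, X₀, h⟩ := sup_mu η hη
  refine ⟨H₀, X₀, fun X H hX hH hHX => ?_⟩
  have h1 := h X H hX hH hHX 0
  have h2 : ∀ n : ℕ, mu n * ee (0 * (n : ℝ)) = mu n := by
    intro n
    simp [ee]
  simp only [h2] at h1
  exact h1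

namespace SqfWinAux

open Filter Topology

/-- number of multiples of `k` in `(x, x + H]` -/
noncomputable def NN (H x k : ℕ) : ℝ := (((x + H) / k : ℕ) : ℝ) - ((x / k : ℕ) : ℝ)

theorem NN_nonneg (H x k : ℕ) : 0 ≤ NN H x k := by
  unfold NN
  have h : ((x / k : ℕ) : ℝ) ≤ (((x + H) / k : ℕ) : ℝ) := by
    exact_mod_cast Nat.div_le_div_right (Nat.le_add_right x H)
  linarith

theorem NN_near {H x k : ℕ} (hk : 0 < k) : |NN H x k - (H : ℝ) / k| ≤ 1 := by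
  have e0 := Nat.add_div (a := x) (b := H) hk
  have hkr : (0 : ℝ) < (k : ℝ) := by exact_mod_cast hk
  have h1 : ((H / k : ℕ) : ℝ) ≤ (H : ℝ) / k := Nat.cast_div_le
  have h2 : (H : ℝ) / k ≤ ((H / k : ℕ) : ℝ) + 1 := by
    rw [div_le_iff₀ hkr]
    have h3 := (Nat.lt_mul_div_succ H hk).le
    rw [mul_comm] at h3
    exact_mod_cast h3
  unfold NN
  rw [e0, abs_le]
  split_ifs
  · push_cast
    constructor <;> linarith
  · push_cast
    constructor <;> linarith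

theorem mu_sq_eq {n M : ℕ} (hn : 1 ≤ n) (hM : n ≤ M) :
    mu n ^ 2 = ∑ d ∈ (Finset.Ioc 0 M).filter (fun d => d ^ 2 ∣ n), mu d := by
  obtain ⟨a, b, hab, ha⟩ := Nat.sq_mul_squarefree n
  have hb : b ≠ 0 := by
    rintro rfl
    simp at hab
    omega
  have ha0 : a ≠ 0 := ha.ne_zero
  have hset : (Finset.Ioc 0 M).filter (fun d => d ^ 2 ∣ n) = b.divisors := by
    ext d
    rw [Finset.mem_filter, Finset.mem_Ioc, Nat.mem_divisors, ← hab,
      SupLamAux.sq_dvd_iff ha hb]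
    constructor
    · rintro ⟨_, h⟩
      exact ⟨h, hb⟩
    · rintro ⟨h, _⟩
      refine ⟨⟨Nat.pos_of_dvd_of_pos h (Nat.pos_of_ne_zero hb), ?_⟩, h⟩
      have h1 : d ≤ b := Nat.le_of_dvd (Nat.pos_of_ne_zero hb) h
      have h2 : b ≤ b ^ 2 := Nat.le_self_pow (by norm_num) b
      have h3 : b ^ 2 ≤ b ^ 2 * a := Nat.le_mul_of_pos_right _ (Nat.pos_of_ne_zero ha0)
      omega
  rw [hset, SupLamAux.sum_mu]
  by_cases h1 : b = 1
  · rw [if_pos h1]
    have hna : n = a := by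
      rw [← hab, h1]
      ring
    have hsq : Squarefree n := by rw [hna]; exact ha
    unfold mu
    have h2 := ArithmeticFunction.moebius_sq_eq_one_of_squarefree hsq
    exact_mod_cast h2
  · rw [if_neg h1]
    have hns : ¬ Squarefree n := by
      intro h
      have h2 := h b (by rw [← hab, ← pow_two]; exact Dvd.intro _ rfl)
      exact h1 (Nat.isUnit_iff.1 h2)
    unfold mu
    rw [ArithmeticFunction.moebius_eq_zero_of_not_squarefree hns]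
    simp

theorem sum_sq {H x M : ℕ} (hM : x + H ≤ M) :
    ∑ n ∈ Finset.Ioc x (x + H), mu n ^ 2 =
      ∑ d ∈ Finset.Ioc 0 M, mu d * ((NN H x (d ^ 2) : ℝ) : ℂ) := by
  have e1 : ∀ n ∈ Finset.Ioc x (x + H), mu n ^ 2 =
      ∑ d ∈ Finset.Ioc 0 M, (if d ^ 2 ∣ n then mu d else 0) := by
    intro n hn
    rw [Finset.mem_Ioc] at hn
    rw [mu_sq_eq (n := n) (M := M) (by omega) (by omega), Finset.sum_filter]
  rw [Finset.sum_congr rfl e1, Finset.sum_comm]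
  apply Finset.sum_congr rfl
  intro d hd
  have hd0 : 0 < d := (Finset.mem_Ioc.1 hd).1
  have hk : 0 < d ^ 2 := by positivity
  rw [← Finset.sum_filter, SupLamAux.reindex hk (fun _ => mu d), Finset.sum_const, Nat.card_Ioc,
    nsmul_eq_mul, mul_comm]
  congr 1
  unfold NN
  rw [Nat.cast_sub (Nat.div_le_div_right (Nat.le_add_right x H))]
  push_cast
  rfl

theorem hasSum_c : HasSum (fun d : ℕ => mu d / (d : ℂ) ^ 2) ((6 / Real.pi ^ 2 : ℝ) : ℂ) := by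
  have hs : 1 < (2 : ℂ).re := by norm_num
  have h1 : LSeriesSummable (fun n : ℕ => ((ArithmeticFunction.moebius n : ℤ) : ℂ)) 2 :=
    ArithmeticFunction.LSeriesSummable_moebius_iff.2 hs
  have h2 := ArithmeticFunction.LSeries_zeta_mul_Lseries_moebius hs
  rw [ArithmeticFunction.LSeries_zeta_eq_riemannZeta hs, riemannZeta_two] at h2
  have h3 : HasSum (LSeries.term (fun n : ℕ => ((ArithmeticFunction.moebius n : ℤ) : ℂ)) 2)
      (LSeries (fun n : ℕ => ((ArithmeticFunction.moebius n : ℤ) : ℂ)) 2) := h1.hasSum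
  have h4 : LSeries (fun n : ℕ => ((ArithmeticFunction.moebius n : ℤ) : ℂ)) 2 =
      ((6 / Real.pi ^ 2 : ℝ) : ℂ) := by
    have hpi : (Real.pi : ℂ) ≠ 0 := by exact_mod_cast Real.pi_ne_zero
    push_cast
    field_simp
    field_simp at h2
    linear_combination h2
  rw [h4] at h3
  have h5 : LSeries.term (fun n : ℕ => ((ArithmeticFunction.moebius n : ℤ) : ℂ)) 2 =
      fun d : ℕ => mu d / (d : ℂ) ^ 2 := by
    funext d
    rw [LSeries.term_def]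
    split_ifs with hd
    · rw [hd, mu_zero, zero_div]
    · unfold mu
      congr 1
      exact_mod_cast Complex.cpow_natCast (d : ℂ) 2
  rw [h5] at h3
  exact h3

theorem tail {c : ℂ} (hc : HasSum (fun d : ℕ => mu d / (d : ℂ) ^ 2) c) {D : ℕ} (hD : 0 < D) :
    ‖∑ d ∈ Finset.Ioc 0 D, mu d / (d : ℂ) ^ 2 - c‖ ≤ (D : ℝ)⁻¹ := by
  have h1 : Tendsto (fun M : ℕ => ∑ d ∈ Finset.Ioc 0 M, mu d / (d : ℂ) ^ 2) atTop (𝓝 c) := by
    have h2 := hc.tendsto_sum_nat.comp (tendsto_add_atTop_nat 1)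
    refine h2.congr fun M => ?_
    have h3 : Finset.Ioc 0 M ⊆ Finset.range (M + 1) := by
      intro d hd
      rw [Finset.mem_Ioc] at hd
      rw [Finset.mem_range]
      omega
    refine (Finset.sum_subset h3 fun d hd hd' => ?_).symm
    have : d = 0 := by
      rw [Finset.mem_range] at hd
      rw [Finset.mem_Ioc] at hd'
      omega
    rw [this, mu_zero, zero_div]
  have h2 : Tendsto (fun M : ℕ => ‖∑ d ∈ Finset.Ioc 0 D, mu d / (d : ℂ) ^ 2 -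
      ∑ d ∈ Finset.Ioc 0 M, mu d / (d : ℂ) ^ 2‖) atTop
      (𝓝 ‖∑ d ∈ Finset.Ioc 0 D, mu d / (d : ℂ) ^ 2 - c‖) :=
    (tendsto_const_nhds.sub h1).norm
  refine le_of_tendsto h2 ?_
  filter_upwards [eventually_ge_atTop D] with M hM
  rw [← Finset.sum_Ioc_consecutive _ (Nat.zero_le D) hM, sub_add_cancel_left, norm_neg]
  refine (norm_sum_le _ _).trans ?_
  have h3 : ∀ d ∈ Finset.Ioc D M, ‖mu d / (d : ℂ) ^ 2‖ ≤ ((d : ℝ) ^ 2)⁻¹ := by
    intro d _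
    rw [norm_div, norm_pow, Complex.norm_natCast, div_eq_mul_inv]
    exact mul_le_of_le_one_left (by positivity) (norm_mu_le d)
  refine (Finset.sum_le_sum h3).trans ?_
  have h4 := sum_Ioc_inv_sq_le_sub (α := ℝ) hD.ne' hM
  have h5 : (0 : ℝ) ≤ (M : ℝ)⁻¹ := by positivity
  linarith

theorem sum_NN {H X k : ℕ} (hHX : H ≤ X) :
    ∑ x ∈ Finset.range X, NN H x k ≤ 2 * H * X * (k : ℝ)⁻¹ := by
  unfold NN
  rw [Finset.sum_sub_distrib]
  have h2 := SupLamAux.sum_div X k H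
  have h3 : ((X + H : ℕ) : ℝ) / (k : ℝ) ≤ 2 * X * (k : ℝ)⁻¹ := by
    rw [div_eq_mul_inv]
    push_cast
    apply mul_le_mul_of_nonneg_right _ (by positivity)
    have : (H : ℝ) ≤ X := by exact_mod_cast hHX
    linarith
  have h4 := mul_le_mul_of_nonneg_left h3 (Nat.cast_nonneg (α := ℝ) H)
  linarith

theorem pt {c : ℂ} (hc : HasSum (fun d : ℕ => mu d / (d : ℂ) ^ 2) c) {D H x M : ℕ} (hD : 0 < D)
    (hDM : D ≤ M) (hM : x + H ≤ M) :
    ‖∑ n ∈ Finset.Ioc x (x + H), (mu n ^ 2 - c)‖ ≤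
      D + H * (D : ℝ)⁻¹ + ∑ d ∈ Finset.Ioc D M, NN H x (d ^ 2) := by
  have e : ∑ n ∈ Finset.Ioc x (x + H), (mu n ^ 2 - c) =
      (∑ d ∈ Finset.Ioc 0 D, mu d * ((NN H x (d ^ 2) - (H : ℝ) / (d ^ 2 : ℕ) : ℝ) : ℂ)) +
      (H : ℂ) * (∑ d ∈ Finset.Ioc 0 D, mu d / (d : ℂ) ^ 2 - c) +
      ∑ d ∈ Finset.Ioc D M, mu d * ((NN H x (d ^ 2) : ℝ) : ℂ) := by
    rw [Finset.sum_sub_distrib, sum_sq hM, Finset.sum_const, Nat.card_Ioc,
      ← Finset.sum_Ioc_consecutive _ (Nat.zero_le D) hDM, mul_sub, Finset.mul_sum]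
    have e2 : ∑ d ∈ Finset.Ioc 0 D, mu d * ((NN H x (d ^ 2) - (H : ℝ) / (d ^ 2 : ℕ) : ℝ) : ℂ) =
        ∑ d ∈ Finset.Ioc 0 D, mu d * ((NN H x (d ^ 2) : ℝ) : ℂ) -
        ∑ d ∈ Finset.Ioc 0 D, (H : ℂ) * (mu d / (d : ℂ) ^ 2) := by
      rw [← Finset.sum_sub_distrib]
      apply Finset.sum_congr rfl
      intro d _
      push_cast
      ring
    rw [e2, nsmul_eq_mul]
    have e3 : x + H - x = H := by omega
    rw [e3]
    ring
  rw [e]
  have h1 : ‖∑ d ∈ Finset.Ioc 0 D, mu d * ((NN H x (d ^ 2) - (H : ℝ) / (d ^ 2 : ℕ) : ℝ) : ℂ)‖ ≤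
      D := by
    refine (norm_sum_le _ _).trans ?_
    refine (Finset.sum_le_card_nsmul _ _ 1 ?_).trans (le_of_eq ?_)
    · intro d hd
      have hd0 : 0 < d := (Finset.mem_Ioc.1 hd).1
      rw [norm_mul, Complex.norm_real, Real.norm_eq_abs]
      exact mul_le_one₀ (norm_mu_le d) (abs_nonneg _) (NN_near (by positivity))
    · simp
  have h2 : ‖(H : ℂ) * (∑ d ∈ Finset.Ioc 0 D, mu d / (d : ℂ) ^ 2 - c)‖ ≤ H * (D : ℝ)⁻¹ := by
    rw [norm_mul, Complex.norm_natCast]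
    exact mul_le_mul_of_nonneg_left (tail hc hD) (Nat.cast_nonneg H)
  have h3 : ‖∑ d ∈ Finset.Ioc D M, mu d * ((NN H x (d ^ 2) : ℝ) : ℂ)‖ ≤
      ∑ d ∈ Finset.Ioc D M, NN H x (d ^ 2) := by
    refine (norm_sum_le _ _).trans (Finset.sum_le_sum fun d _ => ?_)
    rw [norm_mul, Complex.norm_real, Real.norm_eq_abs, abs_of_nonneg (NN_nonneg _ _ _)]
    exact mul_le_of_le_one_left (NN_nonneg _ _ _) (norm_mu_le d)
  refine (norm_add_le _ _).trans (add_le_add ((norm_add_le _ _).trans (add_le_add h1 h2)) h3)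

theorem short_sq' {c : ℂ} (hc : HasSum (fun d : ℕ => mu d / (d : ℂ) ^ 2) c) :
    Short (fun n => mu n ^ 2 - c) := by
  intro η hη
  obtain ⟨D, hD⟩ := exists_nat_ge (6 / η)
  have hDpos : (0 : ℝ) < D := lt_of_lt_of_le (by positivity) hD
  have hD0 : 0 < D := by exact_mod_cast hDpos
  obtain ⟨H2, hH2⟩ := exists_nat_ge (2 * D / η)
  refine ⟨H2, 0, ?_⟩
  intro X H _ hH hHX
  have h1 : ∑ x ∈ Finset.range X, ‖∑ n ∈ Finset.Ioc x (x + H), (mu n ^ 2 - c)‖ ≤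
      ∑ x ∈ Finset.range X, (D + H * (D : ℝ)⁻¹ + ∑ d ∈ Finset.Ioc D (2 * X + D), NN H x (d ^ 2)) := by
    apply Finset.sum_le_sum
    intro x hx
    rw [Finset.mem_range] at hx
    exact pt hc hD0 (by omega) (by omega)
  refine h1.trans ?_
  rw [Finset.sum_add_distrib, Finset.sum_const, Finset.card_range, nsmul_eq_mul, Finset.sum_comm]
  have h2 : ∑ d ∈ Finset.Ioc D (2 * X + D), ∑ x ∈ Finset.range X, NN H x (d ^ 2) ≤
      2 * H * X * (D : ℝ)⁻¹ := by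
    refine (Finset.sum_le_sum (fun d _ => sum_NN (k := d ^ 2) hHX)).trans ?_
    rw [← Finset.mul_sum]
    have h3 := sum_Ioc_inv_sq_le_sub (α := ℝ) hD0.ne' (by omega : D ≤ 2 * X + D)
    have h4 : (0 : ℝ) ≤ (((2 * X + D : ℕ) : ℝ))⁻¹ := by positivity
    have h5 : ∑ d ∈ Finset.Ioc D (2 * X + D), (((d ^ 2 : ℕ) : ℝ))⁻¹ =
        ∑ i ∈ Finset.Ioc D (2 * X + D), ((i : ℝ) ^ 2)⁻¹ := by
      apply Finset.sum_congr rfl
      intro d _
      push_cast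
      rfl
    rw [h5]
    exact mul_le_mul_of_nonneg_left (by linarith) (by positivity)
  have h6 : (D : ℝ)⁻¹ ≤ η / 6 := by
    rw [inv_le_comm₀ hDpos (by positivity)]
    have : (η / 6)⁻¹ = 6 / η := by rw [inv_div]
    rw [this]
    exact hD
  have h7 : (D : ℝ) ≤ η / 2 * H := by
    have h8 : 2 * D / η ≤ H := hH2.trans (by exact_mod_cast hH)
    rw [div_le_iff₀ hη] at h8
    linarith
  have hX0 : (0 : ℝ) ≤ X := Nat.cast_nonneg X
  have hH0 : (0 : ℝ) ≤ H := Nat.cast_nonneg H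
  have h9 : (X : ℝ) * (D + H * (D : ℝ)⁻¹) ≤ X * (η / 2 * H + H * (η / 6)) :=
    mul_le_mul_of_nonneg_left (add_le_add h7 (mul_le_mul_of_nonneg_left h6 hH0)) hX0
  have h10 : 2 * (H : ℝ) * X * (D : ℝ)⁻¹ ≤ 2 * H * X * (η / 6) :=
    mul_le_mul_of_nonneg_left h6 (by positivity)
  calc _ ≤ (X : ℝ) * (η / 2 * H + H * (η / 6)) + 2 * H * X * (η / 6) :=
        add_le_add h9 (h2.trans h10)
    _ = η * H * X := by ring

end SqfWinAux

theorem short_sq : ∃ c₀ : ℝ, 1 / 3 ≤ c₀ ∧ c₀ ≤ 1 ∧ Short (fun n => mu n ^ 2 - (c₀ : ℂ)) := by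
  have hp3 := Real.pi_gt_three
  have hp4 := Real.pi_lt_four
  refine ⟨6 / Real.pi ^ 2, ?_, ?_, SqfWinAux.short_sq' SqfWinAux.hasSum_c⟩
  · rw [le_div_iff₀ (by positivity)]
    nlinarith
  · rw [div_le_one (by positivity)]
    nlinarith

namespace SqfWinAux

theorem count_one (y L : ℕ) :
    (2 : ℂ) * (((Ioc y (y + L)).filter (fun n => ArithmeticFunction.moebius n = 1)).card : ℂ) =
      ∑ n ∈ Ioc y (y + L), mu n ^ 2 + ∑ n ∈ Ioc y (y + L), mu n := by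
  rw [← Finset.sum_add_distrib, Finset.card_filter]
  push_cast
  rw [Finset.mul_sum]
  apply Finset.sum_congr rfl
  intro n _
  rcases ArithmeticFunction.moebius_eq_or n with h | h | h
  · simp [mu, h]
  · norm_num [mu, h]
  · norm_num [mu, h]

theorem count_neg (y L : ℕ) :
    (2 : ℂ) * (((Ioc y (y + L)).filter (fun n => ArithmeticFunction.moebius n = -1)).card : ℂ) =
      ∑ n ∈ Ioc y (y + L), mu n ^ 2 - ∑ n ∈ Ioc y (y + L), mu n := by
  rw [← Finset.sum_sub_distrib, Finset.card_filter]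
  push_cast
  rw [Finset.mul_sum]
  apply Finset.sum_congr rfl
  intro n _
  rcases ArithmeticFunction.moebius_eq_or n with h | h | h
  · simp [mu, h]
  · norm_num [mu, h]
  · norm_num [mu, h]

theorem low {c : ℝ} (hc : 1 / 3 ≤ c) (y L N : ℕ) (σ : ℂ) (hσ : ‖σ‖ ≤ 1)
    (h : (2 : ℂ) * (N : ℂ) = ∑ n ∈ Ioc y (y + L), mu n ^ 2 + σ * ∑ n ∈ Ioc y (y + L), mu n)
    (hN : 8 * N < L) :
    (L : ℝ) / 12 ≤ ‖∑ n ∈ Ioc y (y + L), (mu n ^ 2 - (c : ℂ))‖ + ‖∑ n ∈ Ioc y (y + L), mu n‖ := by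
  have e : (((L : ℝ) * c : ℝ) : ℂ) = (2 : ℂ) * (N : ℂ) -
      (∑ n ∈ Ioc y (y + L), (mu n ^ 2 - (c : ℂ)) + σ * ∑ n ∈ Ioc y (y + L), mu n) := by
    rw [h, Finset.sum_sub_distrib, Finset.sum_const, Nat.card_Ioc, nsmul_eq_mul]
    have e3 : y + L - y = L := by omega
    rw [e3]
    push_cast
    ring
  have h1 : ‖(((L : ℝ) * c : ℝ) : ℂ)‖ = L * c := by
    rw [Complex.norm_real, Real.norm_eq_abs, abs_of_nonneg]
    have : (0 : ℝ) ≤ L := Nat.cast_nonneg L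
    nlinarith
  have h2 : ‖(2 : ℂ) * (N : ℂ)‖ = 2 * N := by
    rw [norm_mul, Complex.norm_natCast]
    simp
  have h3 : ‖σ * ∑ n ∈ Ioc y (y + L), mu n‖ ≤ ‖∑ n ∈ Ioc y (y + L), mu n‖ := by
    rw [norm_mul]
    exact mul_le_of_le_one_left (norm_nonneg _) hσ
  have h4 : (L : ℝ) * c ≤ 2 * N + (‖∑ n ∈ Ioc y (y + L), (mu n ^ 2 - (c : ℂ))‖ +
      ‖∑ n ∈ Ioc y (y + L), mu n‖) := by
    rw [← h1, e, ← h2]
    refine (norm_sub_le _ _).trans (add_le_add le_rfl ?_)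
    exact (norm_add_le _ _).trans (add_le_add le_rfl h3)
  have h5 : (8 : ℝ) * N ≤ L := by exact_mod_cast hN.le
  have h6 : (L : ℝ) * (1 / 3) ≤ L * c := mul_le_mul_of_nonneg_left hc (Nat.cast_nonneg L)
  linarith

end SqfWinAux

theorem sign_win (η : ℝ) (hη : 0 < η) : ∃ L₀ Y₀ : ℕ, ∀ L Y : ℕ, L₀ ≤ L → Y₀ ≤ Y → L ≤ Y →
    (((range Y).filter (fun y =>
      8 * ((Ioc y (y + L)).filter (fun n => ArithmeticFunction.moebius n = 1)).card < L ∨
      8 * ((Ioc y (y + L)).filter (fun n => ArithmeticFunction.moebius n = -1)).card < L)).card : ℝ) ≤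
      η * Y := by
  obtain ⟨c, hc1, hc2, hs⟩ := short_sq
  have hη' : 0 < η / 24 := by positivity
  obtain ⟨H1, X1, h1⟩ := hs (η / 24) hη'
  obtain ⟨H2, X2, h2⟩ := short_mu (η / 24) hη'
  refine ⟨max (max H1 H2) 1, max X1 X2, fun L Y hL hY hLY => ?_⟩
  have hL1 : H1 ≤ L := (le_max_left _ _).trans ((le_max_left _ _).trans hL)
  have hL2 : H2 ≤ L := (le_max_right _ _).trans ((le_max_left _ _).trans hL)
  have hL3 : 1 ≤ L := (le_max_right _ _).trans hL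
  have a1 := h1 Y L ((le_max_left _ _).trans hY) hL1 hLY
  have a2 := h2 Y L ((le_max_right _ _).trans hY) hL2 hLY
  have hLr : (1 : ℝ) ≤ L := by exact_mod_cast hL3
  set bad : Finset ℕ := (range Y).filter (fun y =>
      8 * ((Ioc y (y + L)).filter (fun n => ArithmeticFunction.moebius n = 1)).card < L ∨
      8 * ((Ioc y (y + L)).filter (fun n => ArithmeticFunction.moebius n = -1)).card < L) with hbad
  have key : ∀ y ∈ bad, (L : ℝ) / 12 ≤
      ‖∑ n ∈ Ioc y (y + L), (mu n ^ 2 - (c : ℂ))‖ + ‖∑ n ∈ Ioc y (y + L), mu n‖ := by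
    intro y hy
    rw [hbad, Finset.mem_filter] at hy
    rcases hy.2 with h | h
    · refine SqfWinAux.low hc1 y L _ 1 (by simp) ?_ h
      rw [SqfWinAux.count_one, one_mul]
    · refine SqfWinAux.low hc1 y L _ (-1) (by simp) ?_ h
      rw [SqfWinAux.count_neg]
      ring
  have h3 : (bad.card : ℝ) * ((L : ℝ) / 12) ≤ η / 24 * L * Y + η / 24 * L * Y := by
    rw [← nsmul_eq_mul]
    calc bad.card • ((L : ℝ) / 12) ≤ ∑ y ∈ bad,
          (‖∑ n ∈ Ioc y (y + L), (mu n ^ 2 - (c : ℂ))‖ + ‖∑ n ∈ Ioc y (y + L), mu n‖) :=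
          Finset.card_nsmul_le_sum _ _ _ key
      _ ≤ ∑ y ∈ range Y,
          (‖∑ n ∈ Ioc y (y + L), (mu n ^ 2 - (c : ℂ))‖ + ‖∑ n ∈ Ioc y (y + L), mu n‖) :=
          Finset.sum_le_sum_of_subset_of_nonneg (Finset.filter_subset _ _)
            (fun y _ _ => add_nonneg (norm_nonneg _) (norm_nonneg _))
      _ ≤ _ := by
          rw [Finset.sum_add_distrib]
          exact add_le_add a1 a2
  have h4 : (bad.card : ℝ) * ((L : ℝ) / 12) ≤ η * Y * ((L : ℝ) / 12) := by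
    refine h3.trans (le_of_eq ?_)
    ring
  exact le_of_mul_le_mul_right h4 (by positivity)

end Pool.SWP
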