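import Mathlib
import Pool.Agent.SWP.TK
import Pool.Agent.SWP.Dil
import Pool.Agent.SWP.SqfWin
import Pool.Agent.MRZ.Corr

/-!
# SWP/ShortMu: cancellation of `μ` on `(p, p+H]`, `(log X)^{1-δ} ≤ H ≤ X`, for almost all primes

* `long_mu`: for `ε > 0` there are `K, X₀` with `∑_{p≤X} |∑_{p<n≤p+H} μ(n)| ≤ ε H π(X)` for `X ≥ X₀`,
  `K log X ≤ H ≤ X`. Proof: `corr_mu` (`A = 1`, `h₀ = 0`) with `b_n` = the conjugate phase of `∑_{h≤H} μ(n+h)` gives
  `∑_{n≤X} Λ(n) |∑_{h≤H} μ(n+h)| ≤ ε' H X`. The primes `p ≤ √X` contribute at most `√X H`, the others at most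
  `(2/log X) ε' H X`; `π(X) ≥ c X/log X`.
* `short_mu_small`: for `ε > 0` there is `δ ∈ (0, 1/100)` such that the same bound holds for
  `(log X)^{1-δ} ≤ H ≤ (log X)²`, `X ≥ X₀`. Proof: `𝒬 = QQ u v`, `u = ⌈3δ log log X⌉`, `v = ⌊(1/4) log log X⌋`,
  `S = RS u v ≥ log(v/u) - C ≥ log(1/(13δ)) - C ≥ 16/ε²`-large for `δ` small (`RS_bounds`), and `S ≤ log(1/(12δ))+C+1`.
  For every `p`: `S |∑_{p<n≤p+H} μ(n)| ≤ |∑ μ(n) om(n)| + ∑ |om(n) - S| ≤ |∑ μ(n) om(n)| + ((S+1)H·H)^{1/2}` by `tk`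
  (`#𝒬 ≤ e^v ≤ (log X)^{1/4}`, so the hypothesis of `tk` holds for large `X`), and by `mu_dil`
  `|∑ μ om| ≤ ∑_{q∈𝒬} |∑_{p/q<m≤(p+H)/q} μ(m)| + H ∑_{q > e^u} 1/q² + #𝒬`. Sum over `p ≤ X` with `dil` (`g = mu`,
  `κ = 2δ`: `e^u ≥ (log X)^{3δ}`, `e^u H ≥ (log X)^{1+2δ}`, `e^v (log X)^{2δ} ≤ (log X)^{1-δ} ≤ H`):
  `∑_p |∑ μ| ≤ (1/S)(ε'(1+S) + o(1)) H π(X) + (1/S) √(S+1) H π(X) ≤ ε H π(X)`.
* `short_mu_all`: the combination: `(log X)^{1-δ} ≤ H ≤ X`.
-/

set_option autoImplicit false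

namespace Pool.SWP

open Finset Pool.MRZ

namespace ShortMuAux

/-- conjugate phase -/
noncomputable def ph (z : ℂ) : ℂ := (starRingEnd ℂ) z / (‖z‖ : ℂ)

lemma ph_mul (z : ℂ) : ph z * z = (‖z‖ : ℂ) := by
  unfold ph
  by_cases h : z = 0
  · simp [h]
  · have h1 : (‖z‖ : ℂ) ≠ 0 := by simpa using h
    rw [div_mul_eq_mul_div, mul_comm, Complex.mul_conj, Complex.normSq_eq_norm_sq]
    push_cast
    field_simp

lemma norm_ph_le (z : ℂ) : ‖ph z‖ ≤ 1 := by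
  unfold ph
  rw [norm_div, RCLike.norm_conj, Complex.norm_real, norm_norm]
  exact div_self_le_one _

lemma sum_shift (H n : ℕ) : ∑ m ∈ Ioc n (n + H), mu m = ∑ h ∈ Ioc 0 (0 + H), mu (n + h) := by
  refine sum_nbij' (fun m => m - n) (fun h => n + h) ?_ ?_ ?_ ?_ ?_
  · intro m hm
    rw [mem_Ioc] at hm ⊢
    omega
  · intro h hh
    rw [mem_Ioc] at hh ⊢
    omega
  · intro m hm
    rw [mem_Ioc] at hm
    show n + (m - n) = m
    omega
  · intro h _
    show n + h - n = h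
    omega
  · intro m hm
    rw [mem_Ioc] at hm
    congr 1
    omega

lemma norm_MS_le (H n : ℕ) : ‖∑ m ∈ Ioc n (n + H), mu m‖ ≤ H := by
  refine (norm_sum_le _ _).trans ((sum_le_sum fun m _ => norm_mu_le m).trans ?_)
  rw [sum_const, Nat.card_Ioc, nsmul_eq_mul, mul_one]
  have : n + H - n = H := by omega
  rw [this]

lemma weighted (X H : ℕ) (E : ℝ) (h : ∀ b : ℕ → ℂ, (∀ n, ‖b n‖ ≤ 1) →
    ∑ h ∈ Ioc 0 (0 + H), ‖∑ n ∈ Icc 1 X, (ArithmeticFunction.vonMangoldt n : ℂ) * b n * mu (n + h)‖ ≤ E) :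
    ∑ n ∈ Icc 1 X, ArithmeticFunction.vonMangoldt n * ‖∑ m ∈ Ioc n (n + H), mu m‖ ≤ E := by
  set M : ℕ → ℂ := fun n => ∑ m ∈ Ioc n (n + H), mu m with hM
  have h1 := h (fun n => ph (M n)) (fun n => norm_ph_le _)
  refine le_trans ?_ h1
  refine le_trans ?_ (norm_sum_le _ _)
  rw [sum_comm]
  have h2 : ∀ n ∈ Icc 1 X, ∑ h ∈ Ioc 0 (0 + H), (ArithmeticFunction.vonMangoldt n : ℂ) * ph (M n) *
      mu (n + h) = ((ArithmeticFunction.vonMangoldt n * ‖M n‖ : ℝ) : ℂ) := by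
    intro n _
    rw [← mul_sum, ← sum_shift, mul_assoc]
    have : ph (M n) * ∑ m ∈ Ioc n (n + H), mu m = (‖M n‖ : ℂ) := ph_mul (M n)
    rw [this]
    push_cast
    ring
  rw [sum_congr rfl h2, ← Complex.ofReal_sum, Complex.norm_real, Real.norm_eq_abs]
  exact le_abs_self _

end ShortMuAux

open ShortMuAux Filter

theorem long_mu (ε : ℝ) (hε : 0 < ε) : ∃ (K : ℝ) (X₀ : ℕ), ∀ X H : ℕ, X₀ ≤ X → K * Real.log X ≤ H → H ≤ X →
    ∑ p ∈ PP X, ‖∑ n ∈ Ioc p (p + H), mu n‖ ≤ ε * H * (PP X).card := by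
  obtain ⟨c, C, hc, hC, hpi⟩ := pi_bounds
  obtain ⟨K, X₁, hK, hcorr⟩ := corr_mu 1 le_rfl (ε * c / 4) (by positivity)
  have hlog : ∀ᶠ X : ℕ in atTop, Real.log X ≤ (ε * c / 2) * Real.sqrt X := by
    have h1 := (isLittleO_log_rpow_atTop (by norm_num : (0 : ℝ) < 1 / 2)).def
      (by positivity : 0 < ε * c / 2)
    have h2 := tendsto_natCast_atTop_atTop.eventually h1
    filter_upwards [h2, eventually_ge_atTop 1] with X hX hX1
    have hX1' : (1 : ℝ) ≤ X := by exact_mod_cast hX1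
    rw [Real.norm_eq_abs, Real.norm_eq_abs, abs_of_nonneg (Real.log_nonneg hX1'),
      abs_of_nonneg (by positivity), ← Real.sqrt_eq_rpow] at hX
    exact hX
  obtain ⟨X₂, hX₂⟩ := eventually_atTop.1 hlog
  refine ⟨K, max (max X₁ X₂) 2, fun X H hX hKH hHX => ?_⟩
  have hXa : X₁ ≤ X := (le_max_left _ _).trans ((le_max_left _ _).trans hX)
  have hXb : X₂ ≤ X := (le_max_right _ _).trans ((le_max_left _ _).trans hX)
  have hX2 : 2 ≤ X := (le_max_right _ _).trans hX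
  have hX2' : (2 : ℝ) ≤ X := by exact_mod_cast hX2
  have hX0 : (0 : ℝ) < X := by linarith
  have hlogpos : 0 < Real.log X := Real.log_pos (by linarith)
  have hW := weighted X H (ε * c / 4 * H * X) (fun b hb => by
    have := hcorr X H 0 b hXa hKH hHX (Nat.zero_le _) hb
    exact this)
  set M : ℕ → ℝ := fun n => ‖∑ m ∈ Ioc n (n + H), mu m‖ with hM
  have hM0 : ∀ n, 0 ≤ M n := fun n => norm_nonneg _
  have hMH : ∀ n, M n ≤ H := fun n => norm_MS_le H n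
  have hH0 : (0 : ℝ) ≤ H := by positivity
  -- split
  have hsplit : ∑ p ∈ PP X, M p = ∑ p ∈ (PP X).filter (fun p => p ≤ Nat.sqrt X), M p +
      ∑ p ∈ (PP X).filter (fun p => ¬ p ≤ Nat.sqrt X), M p :=
    (sum_filter_add_sum_filter_not _ _ _).symm
  have hsmall : ∑ p ∈ (PP X).filter (fun p => p ≤ Nat.sqrt X), M p ≤ Real.sqrt X * H := by
    calc ∑ p ∈ (PP X).filter (fun p => p ≤ Nat.sqrt X), M p
        ≤ ∑ p ∈ Icc 1 (Nat.sqrt X), (H : ℝ) := by
          refine (sum_le_sum fun p _ => hMH p).trans ?_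
          refine sum_le_sum_of_subset_of_nonneg ?_ (fun _ _ _ => hH0)
          intro p hp
          have h1 := mem_filter.1 hp
          have h2 := mem_Icc.1 (mem_filter.1 h1.1).1
          exact mem_Icc.2 ⟨h2.1, h1.2⟩
      _ = (Nat.sqrt X : ℝ) * H := by
          rw [sum_const, Nat.card_Icc, nsmul_eq_mul, Nat.add_sub_cancel]
      _ ≤ Real.sqrt X * H := mul_le_mul_of_nonneg_right Real.nat_sqrt_le_real_sqrt hH0
  have hlarge : ∑ p ∈ (PP X).filter (fun p => ¬ p ≤ Nat.sqrt X), M p ≤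
      2 / Real.log X * (ε * c / 4 * H * X) := by
    calc ∑ p ∈ (PP X).filter (fun p => ¬ p ≤ Nat.sqrt X), M p
        ≤ ∑ p ∈ (PP X).filter (fun p => ¬ p ≤ Nat.sqrt X),
            2 / Real.log X * (ArithmeticFunction.vonMangoldt p * M p) := by
          refine sum_le_sum fun p hp => ?_
          have h1 := mem_filter.1 hp
          have hpp : p.Prime := (mem_filter.1 h1.1).2
          have h2 : X < p * p := Nat.sqrt_lt.1 (not_le.1 h1.2)
          have hp0 : (0 : ℝ) < p := by exact_mod_cast hpp.pos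
          rw [ArithmeticFunction.vonMangoldt_apply_prime hpp]
          have h3 : Real.log X ≤ 2 * Real.log p := by
            have h4 : (X : ℝ) ≤ (p : ℝ) * p := by exact_mod_cast h2.le
            have h5 := Real.log_le_log hX0 h4
            rw [Real.log_mul hp0.ne' hp0.ne'] at h5
            linarith
          have h6 : 1 ≤ 2 / Real.log X * Real.log p := by
            rw [div_mul_eq_mul_div, le_div_iff₀ hlogpos]
            linarith
          calc M p = 1 * M p := (one_mul _).symm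
            _ ≤ (2 / Real.log X * Real.log p) * M p := mul_le_mul_of_nonneg_right h6 (hM0 p)
            _ = _ := by ring
      _ = 2 / Real.log X * ∑ p ∈ (PP X).filter (fun p => ¬ p ≤ Nat.sqrt X),
            ArithmeticFunction.vonMangoldt p * M p := by rw [mul_sum]
      _ ≤ 2 / Real.log X * ∑ n ∈ Icc 1 X, ArithmeticFunction.vonMangoldt n * M n := by
          refine mul_le_mul_of_nonneg_left ?_ (by positivity)
          refine sum_le_sum_of_subset_of_nonneg ?_ (fun n _ _ =>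
            mul_nonneg ArithmeticFunction.vonMangoldt_nonneg (hM0 n))
          intro p hp
          exact (mem_filter.1 (mem_filter.1 hp).1).1
      _ ≤ _ := mul_le_mul_of_nonneg_left hW (by positivity)
  have hpiX := (hpi X hX2).1
  have hsq : Real.sqrt X ≤ ε * c / 2 * (X / Real.log X) := by
    have h1 := hX₂ X hXb
    have h2 : Real.sqrt X * Real.sqrt X = X := Real.mul_self_sqrt hX0.le
    rw [mul_div_assoc', le_div_iff₀ hlogpos]
    calc Real.sqrt X * Real.log X ≤ Real.sqrt X * ((ε * c / 2) * Real.sqrt X) :=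
          mul_le_mul_of_nonneg_left h1 (Real.sqrt_nonneg _)
      _ = (ε * c / 2) * (Real.sqrt X * Real.sqrt X) := by ring
      _ = (ε * c / 2) * X := by rw [h2]
  show ∑ p ∈ PP X, M p ≤ _
  rw [hsplit]
  calc _ ≤ Real.sqrt X * H + 2 / Real.log X * (ε * c / 4 * H * X) := add_le_add hsmall hlarge
    _ ≤ (ε * c / 2 * (X / Real.log X)) * H + 2 / Real.log X * (ε * c / 4 * H * X) := by
        have := mul_le_mul_of_nonneg_right hsq hH0
        linarith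
    _ = ε * H * (c * X / Real.log X) := by ring
    _ ≤ ε * H * (PP X).card := mul_le_mul_of_nonneg_left hpiX (by positivity)

namespace ShortMuAux

/-- pointwise inequality -/
lemma point (𝒬 : Finset ℕ) (h𝒬 : ∀ q ∈ 𝒬, q.Prime) (x H : ℕ)
    (hH : (𝒬.card : ℝ) ^ 2 + 𝒬.card + 2 * (∑ q ∈ 𝒬, (1 : ℝ) / q) * 𝒬.card ≤ H) :
    (∑ q ∈ 𝒬, (1 : ℝ) / q) * ‖∑ n ∈ Ioc x (x + H), mu n‖ ≤
      ∑ q ∈ 𝒬, (‖∑ m ∈ Ioc (x / q) ((x + H) / q), mu m‖ + (H / (q : ℝ) ^ 2 + 1)) +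
        H * Real.sqrt ((∑ q ∈ 𝒬, (1 : ℝ) / q) + 1) := by
  set S := ∑ q ∈ 𝒬, (1 : ℝ) / q with hS
  have hS0 : 0 ≤ S := sum_nonneg fun q _ => by positivity
  have hH0 : (0 : ℝ) ≤ H := by positivity
  have h1 := tk 𝒬 h𝒬 x H hH
  have h2 := mu_dil 𝒬 h𝒬 x H
  have e : (S : ℂ) * ∑ n ∈ Ioc x (x + H), mu n = ∑ n ∈ Ioc x (x + H), mu n * (om 𝒬 n : ℂ) -
      ∑ n ∈ Ioc x (x + H), mu n * (((om 𝒬 n : ℝ) - S : ℝ) : ℂ) := by
    rw [← sum_sub_distrib, mul_sum]
    refine sum_congr rfl fun n _ => ?_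
    push_cast
    ring
  have h3 : ‖∑ n ∈ Ioc x (x + H), mu n * (((om 𝒬 n : ℝ) - S : ℝ) : ℂ)‖ ≤ H * Real.sqrt (S + 1) := by
    have h4 : ‖∑ n ∈ Ioc x (x + H), mu n * (((om 𝒬 n : ℝ) - S : ℝ) : ℂ)‖ ≤
        ∑ n ∈ Ioc x (x + H), |(om 𝒬 n : ℝ) - S| := by
      refine (norm_sum_le _ _).trans (sum_le_sum fun n _ => ?_)
      rw [norm_mul, Complex.norm_real, Real.norm_eq_abs]
      exact mul_le_of_le_one_left (abs_nonneg _) (norm_mu_le n)
    refine h4.trans ?_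
    have h5 := sq_sum_le_card_mul_sum_sq (s := Ioc x (x + H)) (f := fun n => |(om 𝒬 n : ℝ) - S|)
    have h6 : ((Ioc x (x + H)).card : ℝ) = H := by
      rw [Nat.card_Ioc]
      congr 1
      omega
    rw [h6] at h5
    simp only [sq_abs] at h5
    have h7 : (∑ n ∈ Ioc x (x + H), |(om 𝒬 n : ℝ) - S|) ^ 2 ≤ (H * Real.sqrt (S + 1)) ^ 2 := by
      rw [mul_pow, Real.sq_sqrt (by positivity)]
      calc _ ≤ _ := h5
        _ ≤ (H : ℝ) * ((S + 1) * H) := mul_le_mul_of_nonneg_left h1 hH0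
        _ = _ := by ring
    exact le_of_sq_le_sq h7 (by positivity)
  calc S * ‖∑ n ∈ Ioc x (x + H), mu n‖ = ‖(S : ℂ) * ∑ n ∈ Ioc x (x + H), mu n‖ := by
        rw [norm_mul, Complex.norm_real, Real.norm_eq_abs, abs_of_nonneg hS0]
    _ ≤ ‖∑ n ∈ Ioc x (x + H), mu n * (om 𝒬 n : ℂ)‖ +
        ‖∑ n ∈ Ioc x (x + H), mu n * (((om 𝒬 n : ℝ) - S : ℝ) : ℂ)‖ := by
        rw [e]
        exact norm_sub_le _ _
    _ ≤ _ := add_le_add h2 h3

end ShortMuAux

theorem short_mu_small (ε : ℝ) (hε : 0 < ε) : ∃ (δ : ℝ) (X₀ : ℕ), 0 < δ ∧ ∀ X H : ℕ, X₀ ≤ X →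
    (Real.log X) ^ (1 - δ) ≤ H → (H : ℝ) ≤ (Real.log X) ^ 2 →
    ∑ p ∈ PP X, ‖∑ n ∈ Ioc p (p + H), mu n‖ ≤ ε * H * (PP X).card := by
  obtain ⟨C, hC, hRS⟩ := RS_bounds
  set S0 : ℝ := 1 + 32 / ε ^ 2 with hS0
  have hS01 : 1 ≤ S0 := by
    have : 0 ≤ 32 / ε ^ 2 := by positivity
    linarith
  set δ : ℝ := Real.exp (-(S0 + C)) / 13 with hδ
  have hδ0 : 0 < δ := by positivity
  have hδ1 : δ ≤ 1 / 13 := by
    have : Real.exp (-(S0 + C)) ≤ 1 := Real.exp_le_one_iff.2 (by linarith)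
    rw [hδ]
    linarith
  have hlogδ : Real.log (1 / (13 * δ)) = S0 + C := by
    have : 1 / (13 * δ) = Real.exp (S0 + C) := by
      rw [hδ, Real.exp_neg]
      field_simp
    rw [this, Real.log_exp]
  obtain ⟨X₁, hdil⟩ := dil mu norm_mu_le short_mu (ε / 8) (2 * δ) (by positivity) (by positivity)
  set Sm : ℝ := Real.log (1 / (12 * δ)) + C with hSm
  have hlogt : Tendsto (fun X : ℕ => Real.log (X : ℝ)) atTop atTop :=
    Real.tendsto_log_atTop.comp tendsto_natCast_atTop_atTop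
  have hllt : Tendsto (fun X : ℕ => Real.log (Real.log (X : ℝ))) atTop atTop :=
    Real.tendsto_log_atTop.comp hlogt
  have ev1 : ∀ᶠ X : ℕ in atTop, 52 * (1 + 1 / (13 * δ)) ≤ Real.log (Real.log X) :=
    hllt.eventually_ge_atTop _
  have ev2 : ∀ᶠ X : ℕ in atTop, 4 / ε ≤ (Real.log X) ^ (3 * δ) :=
    ((tendsto_rpow_atTop (by positivity : 0 < 3 * δ)).comp hlogt).eventually_ge_atTop _
  have ev3 : ∀ᶠ X : ℕ in atTop, 4 / ε ≤ (Real.log X) ^ (1 / 2 : ℝ) :=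
    ((tendsto_rpow_atTop (by norm_num : (0 : ℝ) < 1 / 2)).comp hlogt).eventually_ge_atTop _
  have ev4 : ∀ᶠ X : ℕ in atTop, 2 + 2 * Sm ≤ (Real.log X) ^ (1 / 4 : ℝ) :=
    ((tendsto_rpow_atTop (by norm_num : (0 : ℝ) < 1 / 4)).comp hlogt).eventually_ge_atTop _
  have ev5 : ∀ᶠ X : ℕ in atTop, 1 ≤ Real.log (X : ℝ) := hlogt.eventually_ge_atTop _
  obtain ⟨X₂, hX₂⟩ := eventually_atTop.1 (ev1.and (ev2.and (ev3.and (ev4.and ev5))))
  refine ⟨δ, max X₁ X₂, hδ0, fun X H hX hH1 hH2 => ?_⟩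
  have hXa : X₁ ≤ X := (le_max_left _ _).trans hX
  obtain ⟨e1, e2, e3, e4, e5⟩ := hX₂ X ((le_max_right _ _).trans hX)
  set t : ℝ := Real.log X with ht
  set L : ℝ := Real.log t with hL
  have ht0 : 0 < t := by linarith
  have htL : t = Real.exp L := (Real.exp_log ht0).symm
  have hq0 : 0 < 1 / (13 * δ) := by positivity
  have hL52 : 52 ≤ L := by nlinarith
  have hL0 : 0 < L := by linarith
  set u : ℕ := ⌈3 * δ * L⌉₊ with hu
  set v : ℕ := ⌊L / 4⌋₊ with hv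
  have hu1 : 3 * δ * L ≤ u := Nat.le_ceil _
  have hu2 : (u : ℝ) < 3 * δ * L + 1 := Nat.ceil_lt_add_one (by positivity)
  have hu0 : 1 ≤ u := Nat.one_le_ceil_iff.2 (by positivity)
  have hv1 : (v : ℝ) ≤ L / 4 := Nat.floor_le (by positivity)
  have hv2 : L / 4 < v + 1 := Nat.lt_floor_add_one _
  have hu0' : (0 : ℝ) < u := by exact_mod_cast hu0
  have huv13 : (u : ℝ) ≤ 13 * δ * v := by
    have a1 : 13 * δ * (L / 4 - 1) ≤ 13 * δ * v := mul_le_mul_of_nonneg_left (by linarith) (by positivity)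
    have a2 : 13 * δ * (52 * (1 + 1 / (13 * δ))) ≤ 13 * δ * L :=
      mul_le_mul_of_nonneg_left e1 (by positivity)
    have a3 : 13 * δ * (52 * (1 + 1 / (13 * δ))) = 52 * (13 * δ + 1) := by field_simp
    rw [a3] at a2
    nlinarith
  have hvR : (u : ℝ) ≤ v := by
    have h13 : 13 * δ ≤ 1 := by linarith
    have hv0 : (0 : ℝ) ≤ v := by positivity
    nlinarith
  have huv : u ≤ v := by exact_mod_cast hvR
  have hv0 : (0 : ℝ) < v := by linarith
  -- size of S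
  set S : ℝ := RS u v with hSdef
  obtain ⟨r1, r2⟩ := hRS u v hu0 huv
  have hSlow : S0 ≤ S := by
    have b1 : 1 / (13 * δ) ≤ (v : ℝ) / u := by
      rw [div_le_div_iff₀ (by positivity) hu0']
      linarith
    have b2 := Real.log_le_log hq0 b1
    rw [hlogδ] at b2
    linarith
  have hSup : S ≤ Sm := by
    have b1 : (v : ℝ) / u ≤ 1 / (12 * δ) := by
      rw [div_le_div_iff₀ hu0' (by positivity)]
      nlinarith
    have b2 := Real.log_le_log (by positivity) b1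
    rw [hSm]
    linarith
  have hS1 : 1 ≤ S := hS01.trans hSlow
  have hSpos : 0 < S := by linarith
  -- exponentials
  have hLexp : ∀ x : ℝ, t ^ x = Real.exp (L * x) := fun x => Real.rpow_def_of_pos ht0 x
  have hexpu : t ^ (3 * δ) ≤ Real.exp u := by
    rw [hLexp]
    exact Real.exp_le_exp.2 (by linarith)
  have hexpv : Real.exp v ≤ t ^ (1 / 4 : ℝ) := by
    rw [hLexp]
    exact Real.exp_le_exp.2 (by linarith)
  have hmono : ∀ x y : ℝ, x ≤ y → t ^ x ≤ t ^ y := fun x y h => Real.rpow_le_rpow_of_exponent_le e5 h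
  have hadd : ∀ x y : ℝ, t ^ x * t ^ y = t ^ (x + y) := fun x y => (Real.rpow_add ht0 x y).symm
  have hHpos : (0 : ℝ) < H := lt_of_lt_of_le (Real.rpow_pos_of_pos ht0 _) hH1
  -- the dilation estimate
  have hd := hdil X H u v hXa hu0 huv
    ((hmono _ _ (by linarith)).trans hexpu)
    (by
      calc t ^ (1 + 2 * δ) = t ^ (3 * δ) * t ^ (1 - δ) := by rw [hadd]; congr 1; ring
        _ ≤ Real.exp u * H := mul_le_mul hexpu hH1 (by positivity) (Real.exp_pos _).le)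
    (by
      calc Real.exp v * t ^ (2 * δ) ≤ t ^ (1 / 4 : ℝ) * t ^ (2 * δ) :=
            mul_le_mul_of_nonneg_right hexpv (by positivity)
        _ = t ^ (1 / 4 + 2 * δ) := hadd _ _
        _ ≤ t ^ (1 - δ) := hmono _ _ (by linarith)
        _ ≤ H := hH1)
    hH2
  -- the hypothesis of `tk`
  have hQ : ((QQ u v).card : ℝ) ≤ t ^ (1 / 4 : ℝ) := (QQ_card u v).trans hexpv
  set T : ℝ := t ^ (1 / 4 : ℝ) with hT
  have hT1 : 1 ≤ T := Real.one_le_rpow e5 (by norm_num)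
  have hQ0 : (0 : ℝ) ≤ ((QQ u v).card : ℝ) := Nat.cast_nonneg _
  have hTT : T * T * T ≤ H := by
    calc T * T * T = t ^ (3 / 4 : ℝ) := by
          rw [hT, hadd, hadd]
          norm_num
      _ ≤ t ^ (1 - δ) := hmono _ _ (by linarith)
      _ ≤ H := hH1
  have hprime : ∀ q ∈ QQ u v, q.Prime := fun q hq => (mem_filter.1 hq).2
  have htk : ((QQ u v).card : ℝ) ^ 2 + (QQ u v).card +
      2 * (∑ q ∈ QQ u v, (1 : ℝ) / q) * (QQ u v).card ≤ H := by
    have hS' : ∑ q ∈ QQ u v, (1 : ℝ) / q = S := rfl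
    rw [hS']
    have c1 : ((QQ u v).card : ℝ) ^ 2 ≤ T * T := by
      rw [sq]
      exact mul_le_mul hQ hQ hQ0 (by linarith)
    have c2 : ((QQ u v).card : ℝ) ≤ T * T := by nlinarith
    have c3 : 2 * S * ((QQ u v).card : ℝ) ≤ 2 * Sm * (T * T) :=
      mul_le_mul (by linarith) c2 hQ0 (by linarith)
    have c4 : (2 + 2 * Sm) * (T * T) ≤ T * (T * T) := mul_le_mul_of_nonneg_right e4 (by positivity)
    nlinarith
  -- sum the pointwise inequality
  have hpt : ∀ p ∈ PP X, S * ‖∑ n ∈ Ioc p (p + H), mu n‖ ≤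
      ∑ q ∈ QQ u v, (‖∑ m ∈ Ioc (p / q) ((p + H) / q), mu m‖ + (H / (q : ℝ) ^ 2 + 1)) +
        H * Real.sqrt (S + 1) := fun p _ => point (QQ u v) hprime p H htk
  have hqsum : ∑ q ∈ QQ u v, ((H : ℝ) / (q : ℝ) ^ 2 + 1) ≤ H * (S * (ε / 4)) + (ε / 4) * H := by
    rw [sum_add_distrib]
    refine add_le_add ?_ ?_
    · rw [hSdef, RS, sum_mul, mul_sum]
      refine sum_le_sum fun q hq => ?_
      have hq1 := (mem_Ioc.1 (mem_filter.1 hq).1).1
      have hqexp : Real.exp u < q := (Nat.floor_lt (Real.exp_pos _).le).1 hq1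
      have hq0 : (0 : ℝ) < q := (Real.exp_pos _).trans hqexp
      have d1 : 4 / ε ≤ q := (e2.trans hexpu).trans hqexp.le
      have d2 : 1 / (q : ℝ) ≤ ε / 4 := by
        rw [div_le_iff₀ hq0]
        rw [div_le_iff₀ hε] at d1
        linarith
      calc (H : ℝ) / (q : ℝ) ^ 2 = H * (1 / q * (1 / q)) := by field_simp
        _ ≤ H * (1 / q * (ε / 4)) :=
            mul_le_mul_of_nonneg_left (mul_le_mul_of_nonneg_left d2 (by positivity)) hHpos.le
    · rw [sum_const, nsmul_eq_mul, mul_one]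
      refine hQ.trans ?_
      have d3 : 4 / ε * T ≤ T * T * T := by
        have d4 : (t ^ (1 / 2 : ℝ)) = T * T := by
          rw [hT, hadd]
          norm_num
        rw [d4] at e3
        exact mul_le_mul_of_nonneg_right e3 (by linarith)
      have d5 : 4 / ε * T ≤ H := d3.trans hTT
      rw [div_mul_eq_mul_div, div_le_iff₀ hε] at d5
      linarith
  have hsqrt : Real.sqrt (S + 1) ≤ S * (ε / 4) := by
    rw [Real.sqrt_le_left (by positivity)]
    have f1 : 32 / ε ^ 2 ≤ S := by linarith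
    rw [div_le_iff₀ (by positivity)] at f1
    nlinarith
  have hsum : S * ∑ p ∈ PP X, ‖∑ n ∈ Ioc p (p + H), mu n‖ ≤ S * (ε * H * (PP X).card) := by
    rw [mul_sum]
    refine (sum_le_sum hpt).trans ?_
    rw [sum_add_distrib, sum_const, nsmul_eq_mul]
    have g1 : ∑ p ∈ PP X, ∑ q ∈ QQ u v, (‖∑ m ∈ Ioc (p / q) ((p + H) / q), mu m‖ +
        (H / (q : ℝ) ^ 2 + 1)) = ∑ p ∈ PP X, ∑ q ∈ QQ u v, ‖∑ m ∈ Ioc (p / q) ((p + H) / q), mu m‖ +
        (PP X).card * ∑ q ∈ QQ u v, ((H : ℝ) / (q : ℝ) ^ 2 + 1) := by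
      rw [← nsmul_eq_mul, ← sum_const, ← sum_add_distrib]
      exact sum_congr rfl fun p _ => sum_add_distrib
    rw [g1]
    have hP0 : (0 : ℝ) ≤ ((PP X).card : ℝ) := Nat.cast_nonneg _
    have g2 : ((PP X).card : ℝ) * ∑ q ∈ QQ u v, ((H : ℝ) / (q : ℝ) ^ 2 + 1) ≤
        (PP X).card * (H * (S * (ε / 4)) + (ε / 4) * H) := mul_le_mul_of_nonneg_left hqsum hP0
    have g3 : ((PP X).card : ℝ) * (H * Real.sqrt (S + 1)) ≤ (PP X).card * (H * (S * (ε / 4))) :=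
      mul_le_mul_of_nonneg_left (mul_le_mul_of_nonneg_left hsqrt hHpos.le) hP0
    have g4 : (0 : ℝ) ≤ (H : ℝ) * (PP X).card := mul_nonneg hHpos.le hP0
    have g5 : (1 : ℝ) * ((H : ℝ) * (PP X).card) ≤ S * ((H : ℝ) * (PP X).card) :=
      mul_le_mul_of_nonneg_right hS1 g4
    have g6 := mul_le_mul_of_nonneg_left g5 (by positivity : 0 ≤ ε / 4)
    have g7 := mul_le_mul_of_nonneg_left g5 (by positivity : 0 ≤ ε / 8)
    linarith
  exact le_of_mul_le_mul_left hsum hSpos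

theorem short_mu_all (ε : ℝ) (hε : 0 < ε) : ∃ (δ : ℝ) (X₀ : ℕ), 0 < δ ∧ ∀ X H : ℕ, X₀ ≤ X →
    (Real.log X) ^ (1 - δ) ≤ H → H ≤ X →
    ∑ p ∈ PP X, ‖∑ n ∈ Ioc p (p + H), mu n‖ ≤ ε * H * (PP X).card := by
  obtain ⟨δ, X₁, hδ, h1⟩ := short_mu_small ε hε
  obtain ⟨K, X₂, h2⟩ := long_mu ε hε
  have hlog : ∀ᶠ X : ℕ in atTop, max K 0 ≤ Real.log X :=
    (Real.tendsto_log_atTop.comp tendsto_natCast_atTop_atTop).eventually_ge_atTop _
  obtain ⟨X₃, hX₃⟩ := eventually_atTop.1 hlog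
  refine ⟨δ, max (max X₁ X₂) X₃, hδ, fun X H hX hH hHX => ?_⟩
  have hXa : X₁ ≤ X := (le_max_left _ _).trans ((le_max_left _ _).trans hX)
  have hXb : X₂ ≤ X := (le_max_right _ _).trans ((le_max_left _ _).trans hX)
  have hXc := hX₃ X ((le_max_right _ _).trans hX)
  rcases le_or_gt (H : ℝ) ((Real.log X) ^ 2) with h | h
  · exact h1 X H hXa hH h
  · refine h2 X H hXb ?_ hHX
    have h3 : K ≤ Real.log X := (le_max_left _ _).trans hXc
    have h4 : 0 ≤ Real.log X := (le_max_right _ _).trans hXc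
    calc K * Real.log X ≤ Real.log X * Real.log X := mul_le_mul_of_nonneg_right h3 h4
      _ = (Real.log X) ^ 2 := by ring
      _ ≤ H := h.le

end Pool.SWP
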