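import Mathlib
import Pool.Agent.SWP.ShortMu

/-!
# SWP/PosSmall: a positive proportion of each sign on `(p, p+H]`, `(log X)^θ ≤ H ≤ (log X)²`

See the header of `SWP/PosMu`.
-/

set_option autoImplicit false

namespace Pool.SWP

open Finset Pool.MRZ

namespace PosAux

lemma markov (P : Finset ℕ) (f : ℕ → ℝ) (hf : ∀ p ∈ P, 0 ≤ f p) (t : ℝ) :
    ((P.filter (fun p => t < f p)).card : ℝ) * t ≤ ∑ p ∈ P, f p := by
  have h1 : ∑ p ∈ P.filter (fun p => t < f p), t ≤ ∑ p ∈ P.filter (fun p => t < f p), f p :=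
    sum_le_sum fun p hp => (mem_filter.1 hp).2.le
  rw [sum_const, nsmul_eq_mul] at h1
  refine h1.trans ?_
  exact sum_le_sum_of_subset_of_nonneg (filter_subset _ _) fun p hp _ => hf p hp

lemma norm_musq_le {c₀ : ℝ} (h0 : 0 ≤ c₀) (h1 : c₀ ≤ 1) (n : ℕ) : ‖mu n ^ 2 - (c₀ : ℂ)‖ ≤ 1 := by
  have h : mu n ^ 2 = 0 ∨ mu n ^ 2 = 1 := by
    unfold mu
    rcases ArithmeticFunction.moebius_eq_or n with h | h | h
    · left; rw [h]; simp
    · right; rw [h]; simp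
    · right; rw [h]; simp
  rcases h with h | h
  · rw [h, zero_sub, norm_neg, Complex.norm_real, Real.norm_eq_abs, abs_of_nonneg h0]
    exact h1
  · rw [h]
    have e : (1 : ℂ) - (c₀ : ℂ) = ((1 - c₀ : ℝ) : ℂ) := by push_cast; ring
    rw [e, Complex.norm_real, Real.norm_eq_abs, abs_of_nonneg (by linarith)]
    linarith

/-- the parameters `u`, `v` -/
lemma params (θ : ℝ) (hθ : 1 / 2 < θ) (hθ1 : θ ≤ 1) (u₀ : ℕ) (B : ℝ) :
    ∃ X₀ : ℕ, ∀ X : ℕ, X₀ ≤ X → 2 ≤ X ∧ 1 ≤ Real.log X ∧ (Real.log X) ^ 8 ≤ X ∧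
      B ≤ (Real.log X) ^ ((θ - 1 / 2) / 4) ∧
      ∃ u v : ℕ, u₀ ≤ u ∧ 1 ≤ u ∧ u ≤ v ∧ (1 / (2 * (3 / 4 - θ / 2))) * (u : ℝ) ≤ v ∧
        (v : ℝ) / u ≤ (θ / 2 + 1 / 4) / (3 / 4 - θ / 2) ∧
        (Real.log X) ^ (3 / 4 - θ / 2) ≤ Real.exp u ∧
        Real.exp v ≤ (Real.log X) ^ (θ / 2 + 1 / 4) := by
  have hlog : Filter.Tendsto (fun X : ℕ => Real.log (X : ℝ)) Filter.atTop Filter.atTop :=
    Real.tendsto_log_atTop.comp tendsto_natCast_atTop_atTop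
  have hll : Filter.Tendsto (fun X : ℕ => Real.log (Real.log (X : ℝ))) Filter.atTop Filter.atTop :=
    Real.tendsto_log_atTop.comp hlog
  have hpw : Filter.Tendsto (fun X : ℕ => (Real.log (X : ℝ)) ^ ((θ - 1 / 2) / 4)) Filter.atTop
      Filter.atTop := (tendsto_rpow_atTop (by linarith)).comp hlog
  have h8 : ∀ᶠ X : ℕ in Filter.atTop, (Real.log (X : ℝ)) ^ 8 ≤ X := by
    have h := (Real.isLittleO_pow_log_id_atTop (n := 8)).bound (show (0 : ℝ) < 1 from one_pos)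
    have h2 := tendsto_natCast_atTop_atTop.eventually h
    filter_upwards [h2, Filter.eventually_ge_atTop 1] with X hX h1
    have h3 : (1 : ℝ) ≤ X := by exact_mod_cast h1
    simp only [id_eq, Real.norm_eq_abs, one_mul] at hX
    rw [abs_of_nonneg (by positivity), abs_of_nonneg (by positivity)] at hX
    exact hX
  have hE := (((Filter.eventually_ge_atTop 2).and (hlog.eventually_ge_atTop 1)).and
    (h8.and (hpw.eventually_ge_atTop B))).and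
    (((hll.eventually_ge_atTop ((u₀ + 1) / (3 / 4 - θ / 2)))).and
      (hll.eventually_ge_atTop ((1 + 1 / (2 * (3 / 4 - θ / 2))) / (θ / 2 - 1 / 4))))
  obtain ⟨X₀, hX₀⟩ := Filter.eventually_atTop.1 hE
  refine ⟨X₀, fun X hX => ?_⟩
  obtain ⟨⟨⟨h2, h1⟩, h8, hB⟩, hl1, hl2⟩ := hX₀ X hX
  refine ⟨h2, h1, h8, hB, ?_⟩
  obtain ⟨l, hl⟩ : ∃ l, l = Real.log (Real.log X) := ⟨_, rfl⟩
  rw [← hl] at hl1 hl2
  have ha : 0 < 3 / 4 - θ / 2 := by linarith
  have hb : 0 < θ / 2 - 1 / 4 := by linarith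
  rw [div_le_iff₀ ha] at hl1
  rw [div_le_iff₀ hb] at hl2
  have hu0 : (0 : ℝ) ≤ u₀ := Nat.cast_nonneg _
  have hlpos : 0 < l := by
    by_contra hneg
    push Not at hneg
    have := mul_nonpos_of_nonpos_of_nonneg hneg ha.le
    linarith
  have hpow : ∀ t : ℝ, (Real.log X) ^ t = Real.exp (l * t) := by
    intro t
    rw [Real.rpow_def_of_pos (by linarith), hl]
  have hu1 : (3 / 4 - θ / 2) * l ≤ (⌈(3 / 4 - θ / 2) * l⌉₊ : ℝ) := Nat.le_ceil _
  have hu2 : (⌈(3 / 4 - θ / 2) * l⌉₊ : ℝ) < (3 / 4 - θ / 2) * l + 1 :=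
    Nat.ceil_lt_add_one (by positivity)
  have hv1 : (⌊(θ / 2 + 1 / 4) * l⌋₊ : ℝ) ≤ (θ / 2 + 1 / 4) * l :=
    Nat.floor_le (mul_nonneg (by linarith) hlpos.le)
  have hv2 : (θ / 2 + 1 / 4) * l < (⌊(θ / 2 + 1 / 4) * l⌋₊ : ℝ) + 1 := Nat.lt_floor_add_one _
  have hκ : 1 ≤ 1 / (2 * (3 / 4 - θ / 2)) := by
    rw [le_div_iff₀ (by positivity)]
    linarith
  have hku : (1 / (2 * (3 / 4 - θ / 2))) * (⌈(3 / 4 - θ / 2) * l⌉₊ : ℝ) ≤
      (⌊(θ / 2 + 1 / 4) * l⌋₊ : ℝ) := by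
    have h3 : (1 / (2 * (3 / 4 - θ / 2))) * (⌈(3 / 4 - θ / 2) * l⌉₊ : ℝ) ≤
        (1 / (2 * (3 / 4 - θ / 2))) * ((3 / 4 - θ / 2) * l + 1) :=
      mul_le_mul_of_nonneg_left hu2.le (by linarith)
    have h4 : (1 / (2 * (3 / 4 - θ / 2))) * ((3 / 4 - θ / 2) * l + 1) =
        l / 2 + 1 / (2 * (3 / 4 - θ / 2)) := by
      have h5 : ∀ t : ℝ, 0 < t → 1 / (2 * t) * (t * l + 1) = l / 2 + 1 / (2 * t) := by
        intro t ht
        field_simp
      exact h5 _ ha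
    rw [h4] at h3
    nlinarith
  refine ⟨⌈(3 / 4 - θ / 2) * l⌉₊, ⌊(θ / 2 + 1 / 4) * l⌋₊, ?_, ?_, ?_, hku, ?_, ?_, ?_⟩
  · have h3 : (u₀ : ℝ) ≤ (⌈(3 / 4 - θ / 2) * l⌉₊ : ℝ) := by linarith
    exact_mod_cast h3
  · have h3 : (1 : ℝ) ≤ (⌈(3 / 4 - θ / 2) * l⌉₊ : ℝ) := by linarith
    exact_mod_cast h3
  · have h3 : (⌈(3 / 4 - θ / 2) * l⌉₊ : ℝ) ≤ (⌊(θ / 2 + 1 / 4) * l⌋₊ : ℝ) := by
      refine le_trans ?_ hku
      exact le_mul_of_one_le_left (Nat.cast_nonneg _) hκ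
    exact_mod_cast h3
  · have h3 : (0 : ℝ) < (⌈(3 / 4 - θ / 2) * l⌉₊ : ℝ) := by linarith
    rw [div_le_div_iff₀ h3 ha]
    have h5 : (θ / 2 + 1 / 4) * ((3 / 4 - θ / 2) * l) ≤
        (θ / 2 + 1 / 4) * (⌈(3 / 4 - θ / 2) * l⌉₊ : ℝ) :=
      mul_le_mul_of_nonneg_left hu1 (by linarith)
    have h6 : (⌊(θ / 2 + 1 / 4) * l⌋₊ : ℝ) * (3 / 4 - θ / 2) ≤
        (θ / 2 + 1 / 4) * l * (3 / 4 - θ / 2) :=
      mul_le_mul_of_nonneg_right hv1 ha.le
    linarith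
  · rw [hpow]
    apply Real.exp_le_exp.2
    linarith
  · rw [hpow]
    apply Real.exp_le_exp.2
    linarith

end PosAux

open PosAux

theorem pos_small (θ ε : ℝ) (hθ : 1 / 2 < θ) (hθ1 : θ ≤ 1) (hε : 0 < ε) : ∃ (c : ℝ) (X₀ : ℕ), 0 < c ∧
    ∀ X H : ℕ, X₀ ≤ X → (Real.log X) ^ θ ≤ H → (H : ℝ) ≤ (Real.log X) ^ 2 →
    ∃ E ⊆ PP X, (E.card : ℝ) ≤ ε * (PP X).card ∧ ∀ p ∈ PP X \ E,
      c * H ≤ (((Ioc p (p + H)).filter (fun n => ArithmeticFunction.moebius n = 1)).card : ℝ) ∧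
      c * H ≤ (((Ioc p (p + H)).filter (fun n => ArithmeticFunction.moebius n = -1)).card : ℝ) := by
  classical
  obtain ⟨c₀, hc0, hc1, hsh⟩ := short_sq
  have ha : 0 < 3 / 4 - θ / 2 := by linarith
  obtain ⟨c₁, u₀, hc₁, hRS⟩ := RS_pos (1 / (2 * (3 / 4 - θ / 2)))
    (by rw [lt_div_iff₀ (by positivity)]; linarith)
  obtain ⟨Cb, hCb, hbd⟩ := RS_bounds
  obtain ⟨Co, hCo, hom⟩ := om_second
  obtain ⟨cp, Cp, hcp, hCp, hpi⟩ := pi_bounds
  -- upper bound for S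
  obtain ⟨C₁, hC₁d⟩ : ∃ C₁, C₁ = |Real.log ((θ / 2 + 1 / 4) / (3 / 4 - θ / 2))| + Cb := ⟨_, rfl⟩
  have hC₁ : 0 ≤ C₁ := by
    rw [hC₁d]
    positivity
  obtain ⟨c₂, hc₂d⟩ : ∃ c₂, c₂ = c₀ / 4 * c₁ := ⟨_, rfl⟩
  have hc₂ : 0 < c₂ := by
    rw [hc₂d]
    exact mul_pos (by linarith) hc₁
  obtain ⟨ε₁, hε₁d⟩ : ∃ ε₁, ε₁ = ε * c₂ / (8 * (1 + C₁)) := ⟨_, rfl⟩
  have hε₁ : 0 < ε₁ := by
    rw [hε₁d]
    positivity
  obtain ⟨B, hBd⟩ : ∃ B, B = 4 * (C₁ + 3) / (ε * c₂) := ⟨_, rfl⟩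
  have hB : 0 < B := by
    rw [hBd]
    positivity
  obtain ⟨Xa, hXa⟩ := dil mu norm_mu_le short_mu ε₁ ((θ - 1 / 2) / 4) hε₁ (by linarith)
  obtain ⟨Xb, hXb⟩ := dil (fun n => mu n ^ 2 - (c₀ : ℂ)) (norm_musq_le (by linarith) hc1) hsh ε₁
    ((θ - 1 / 2) / 4) hε₁ (by linarith)
  obtain ⟨Xc, hXc⟩ := params θ hθ hθ1 u₀ B
  obtain ⟨M, hMd⟩ : ∃ M, M = Co * (1 + C₁) ^ 2 / cp := ⟨_, rfl⟩
  have hM : 0 < M := by
    rw [hMd]
    positivity
  obtain ⟨C₃, hC₃d⟩ : ∃ C₃, C₃ = 2 * M / ε := ⟨_, rfl⟩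
  have hC₃ : 0 < C₃ := by
    rw [hC₃d]
    positivity
  refine ⟨c₂ ^ 2 / C₃, max Xa (max Xb Xc), by positivity, ?_⟩
  intro X H hX hH1 hH2
  have hXa' : Xa ≤ X := (le_max_left _ _).trans hX
  have hXb' : Xb ≤ X := ((le_max_left _ _).trans (le_max_right _ _)).trans hX
  have hXc' : Xc ≤ X := ((le_max_right _ _).trans (le_max_right _ _)).trans hX
  obtain ⟨hX2, hL1, hL8, hLB, u, v, hu0, hu1, huv, hκv, hvu, heu, hev⟩ := hXc X hXc'
  obtain ⟨L, hLd⟩ : ∃ L, L = Real.log X := ⟨_, rfl⟩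
  rw [← hLd] at hL1 hL8 hLB heu hev hH1 hH2
  have hL0 : 0 < L := by linarith
  have hH0 : (0 : ℝ) < H := lt_of_lt_of_le (Real.rpow_pos_of_pos hL0 θ) hH1
  -- conditions for dil
  have hd1 : L ^ ((θ - 1 / 2) / 4) ≤ Real.exp u :=
    (Real.rpow_le_rpow_of_exponent_le hL1 (by linarith)).trans heu
  have hd2 : L ^ (1 + (θ - 1 / 2) / 4) ≤ Real.exp u * H := by
    have h1 : L ^ (3 / 4 - θ / 2) * L ^ θ ≤ Real.exp u * H :=
      mul_le_mul heu hH1 (Real.rpow_nonneg hL0.le _) (Real.exp_pos _).le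
    rw [← Real.rpow_add hL0] at h1
    refine le_trans (Real.rpow_le_rpow_of_exponent_le hL1 ?_) h1
    linarith
  have hd3 : Real.exp v * L ^ ((θ - 1 / 2) / 4) ≤ H := by
    have h1 : Real.exp v * L ^ ((θ - 1 / 2) / 4) ≤
        L ^ (θ / 2 + 1 / 4) * L ^ ((θ - 1 / 2) / 4) :=
      mul_le_mul_of_nonneg_right hev (Real.rpow_nonneg hL0.le _)
    rw [← Real.rpow_add hL0] at h1
    refine h1.trans (le_trans (Real.rpow_le_rpow_of_exponent_le hL1 ?_) hH1)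
    linarith
  -- S
  obtain ⟨S, hS⟩ : ∃ S, S = RS u v := ⟨_, rfl⟩
  have hS1 : c₁ ≤ S := by
    rw [hS]
    exact hRS u v hu0 hκv
  have hS2 : S ≤ C₁ := by
    rw [hS, hC₁d]
    refine (hbd u v hu1 huv).2.trans ?_
    have h1 : (0 : ℝ) < (v : ℝ) / u := by
      have h2 : 1 ≤ v := hu1.trans huv
      positivity
    have h2 := Real.log_le_log h1 hvu
    have h3 := le_abs_self (Real.log ((θ / 2 + 1 / 4) / (3 / 4 - θ / 2)))
    linarith
  have hS0 : 0 < S := lt_of_lt_of_le hc₁ hS1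
  have hprime : ∀ q ∈ QQ u v, q.Prime := fun q hq => (mem_filter.1 hq).2
  have hSd : ∑ q ∈ QQ u v, (1 : ℝ) / q = S := by
    rw [hS]
    rfl
  have hDa := hXa X H u v hXa' hu1 huv (by rw [← hLd]; exact hd1) (by rw [← hLd]; exact hd2)
    (by rw [← hLd]; exact hd3) (by rw [← hLd]; exact hH2)
  have hDb := hXb X H u v hXb' hu1 huv (by rw [← hLd]; exact hd1) (by rw [← hLd]; exact hd2)
    (by rw [← hLd]; exact hd3) (by rw [← hLd]; exact hH2)
  rw [← hS] at hDa hDb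
  -- the simple error
  have hsimple : ∑ q ∈ QQ u v, ((H : ℝ) / (q : ℝ) ^ 2 + 3) ≤ (C₁ + 3) / B * H := by
    rw [sum_add_distrib]
    have hLB0 : 0 < L ^ ((θ - 1 / 2) / 4) := Real.rpow_pos_of_pos hL0 _
    have h1 : ∑ q ∈ QQ u v, (H : ℝ) / (q : ℝ) ^ 2 ≤ C₁ / B * H := by
      have h2 : ∀ q ∈ QQ u v, (H : ℝ) / (q : ℝ) ^ 2 ≤ (H / B) * (1 / q) := by
        intro q hq
        have h3 : Real.exp u < q := by
          have h4 := (mem_Ioc.1 (mem_filter.1 hq).1).1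
          exact (Nat.floor_lt (Real.exp_pos _).le).1 h4
        have h4 : B ≤ q := hLB.trans (hd1.trans h3.le)
        have h5 : (0 : ℝ) < q := lt_of_lt_of_le hB h4
        rw [div_mul_div_comm, mul_one]
        refine div_le_div_of_nonneg_left hH0.le (mul_pos hB h5) ?_
        rw [pow_two]
        exact mul_le_mul_of_nonneg_right h4 h5.le
      refine (sum_le_sum h2).trans ?_
      rw [← mul_sum, hSd]
      have h3 : (H : ℝ) / B * S ≤ H / B * C₁ :=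
        mul_le_mul_of_nonneg_left hS2 (by positivity)
      refine h3.trans (le_of_eq ?_)
      ring
    have h2 : ∑ q ∈ QQ u v, (3 : ℝ) ≤ 3 / B * H := by
      rw [sum_const, nsmul_eq_mul]
      have h3 := QQ_card u v
      have h4 : Real.exp v * B ≤ H :=
        (mul_le_mul_of_nonneg_left hLB (Real.exp_pos _).le).trans hd3
      have h5 : Real.exp v ≤ H / B := by
        rw [le_div_iff₀ hB]
        exact h4
      have h6 : (3 : ℝ) / B * H = (H / B) * 3 := by ring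
      rw [h6]
      exact mul_le_mul_of_nonneg_right (h3.trans h5) (by norm_num)
    rw [add_div, add_mul]
    exact add_le_add h1 h2
  -- the error terms
  obtain ⟨Err, hErr⟩ : ∃ Err : ℕ → ℝ, ∀ p, Err p =
      ∑ q ∈ QQ u v, (‖∑ m ∈ Ioc (p / q) ((p + H) / q), mu m‖ +
        ‖∑ m ∈ Ioc (p / q) ((p + H) / q), (mu m ^ 2 - (c₀ : ℂ))‖ + (H / (q : ℝ) ^ 2 + 3)) :=
    ⟨_, fun _ => rfl⟩
  have hErr0 : ∀ p ∈ PP X, 0 ≤ Err p := by
    intro p _
    rw [hErr]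
    exact sum_nonneg fun q _ => by positivity
  have hErrsum : ∑ p ∈ PP X, Err p ≤ (ε / 2) * c₂ * H * (PP X).card := by
    have h1 : ∑ p ∈ PP X, Err p =
        ∑ p ∈ PP X, ∑ q ∈ QQ u v, ‖∑ m ∈ Ioc (p / q) ((p + H) / q), mu m‖ +
        ∑ p ∈ PP X, ∑ q ∈ QQ u v, ‖∑ m ∈ Ioc (p / q) ((p + H) / q), (mu m ^ 2 - (c₀ : ℂ))‖ +
        ∑ p ∈ PP X, ∑ q ∈ QQ u v, ((H : ℝ) / (q : ℝ) ^ 2 + 3) := by
      rw [← sum_add_distrib, ← sum_add_distrib]
      refine sum_congr rfl fun p _ => ?_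
      rw [hErr, sum_add_distrib, sum_add_distrib]
    have h2 : ∑ p ∈ PP X, ∑ q ∈ QQ u v, ((H : ℝ) / (q : ℝ) ^ 2 + 3) ≤
        (C₁ + 3) / B * H * (PP X).card := by
      rw [sum_const, nsmul_eq_mul, mul_comm]
      exact mul_le_mul_of_nonneg_right hsimple (Nat.cast_nonneg _)
    have hπ : (0 : ℝ) ≤ H * (PP X).card := by positivity
    have h3 : ε₁ * (1 + S) * H * (PP X).card ≤ (ε * c₂ / 8) * H * (PP X).card := by
      rw [mul_assoc, mul_assoc (ε * c₂ / 8)]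
      refine mul_le_mul_of_nonneg_right ?_ hπ
      have h4 : ε₁ * (1 + S) ≤ ε₁ * (1 + C₁) :=
        mul_le_mul_of_nonneg_left (by linarith) hε₁.le
      refine h4.trans (le_of_eq ?_)
      rw [hε₁d]
      field_simp
    have h5 : (C₁ + 3) / B = ε * c₂ / 4 := by
      rw [hBd]
      field_simp
    rw [h5] at h2
    rw [h1]
    have h6 := hDa.trans h3
    have h7 := hDb.trans h3
    have h8 : (ε / 2) * c₂ * H * (PP X).card = (ε * c₂ / 8) * H * (PP X).card +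
        (ε * c₂ / 8) * H * (PP X).card + ε * c₂ / 4 * H * (PP X).card := by ring
    rw [h8]
    exact add_le_add (add_le_add h6 h7) h2
  -- the second moment
  obtain ⟨Q2, hQ2⟩ : ∃ Q2 : ℕ → ℝ, ∀ p, Q2 p = ∑ n ∈ Ioc p (p + H), (om (QQ u v) n : ℝ) ^ 2 :=
    ⟨_, fun _ => rfl⟩
  have hQ20 : ∀ p ∈ PP X, 0 ≤ Q2 p := by
    intro p _
    rw [hQ2]
    exact sum_nonneg fun n _ => by positivity
  have hQ2sum : ∑ p ∈ PP X, Q2 p ≤ M * H * (PP X).card := by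
    have hexpv : Real.exp v ≤ L := by
      refine hev.trans ?_
      have h1 := Real.rpow_le_rpow_of_exponent_le hL1 (show θ / 2 + 1 / 4 ≤ 1 by linarith)
      rwa [Real.rpow_one] at h1
    have hZ1 : ⌊Real.exp (v : ℝ)⌋₊ ^ 8 ≤ X := by
      have h1 : ((⌊Real.exp (v : ℝ)⌋₊ : ℕ) : ℝ) ≤ L :=
        (Nat.floor_le (Real.exp_pos _).le).trans hexpv
      have h2 : ((⌊Real.exp (v : ℝ)⌋₊ : ℕ) : ℝ) ^ 8 ≤ X :=
        (pow_le_pow_left₀ (Nat.cast_nonneg _) h1 8).trans hL8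
      exact_mod_cast h2
    have hZ2 : ⌊Real.exp (v : ℝ)⌋₊ ≤ H := by
      have h1 : ((⌊Real.exp (v : ℝ)⌋₊ : ℕ) : ℝ) ≤ H := by
        refine (Nat.floor_le (Real.exp_pos _).le).trans (hev.trans (le_trans ?_ hH1))
        exact Real.rpow_le_rpow_of_exponent_le hL1 (by linarith)
      exact_mod_cast h1
    have h1 := hom X H ⌊Real.exp (v : ℝ)⌋₊ (QQ u v) hX2
      (fun q hq => ⟨hprime q hq, (mem_Ioc.1 (mem_filter.1 hq).1).2⟩) hZ1 hZ2
    rw [hSd] at h1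
    have h2 : ∑ p ∈ PP X, Q2 p = ∑ p ∈ PP X, ∑ n ∈ Ioc p (p + H), (om (QQ u v) n : ℝ) ^ 2 :=
      sum_congr rfl fun p _ => hQ2 p
    rw [h2]
    refine h1.trans ?_
    have h3 := (hpi X hX2).1
    have h4 : (X : ℝ) / Real.log X ≤ (PP X).card / cp := by
      rw [le_div_iff₀ hcp]
      calc (X : ℝ) / Real.log X * cp = cp * X / Real.log X := by ring
        _ ≤ _ := h3
    have h5 : Co * (1 + S) ^ 2 * H ≤ Co * (1 + C₁) ^ 2 * H := by
      refine mul_le_mul_of_nonneg_right (mul_le_mul_of_nonneg_left ?_ hCo.le) hH0.le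
      exact pow_le_pow_left₀ (by linarith) (by linarith) 2
    have h6 : 0 ≤ (X : ℝ) / Real.log X := by
      rw [← hLd]
      positivity
    calc Co * (1 + S) ^ 2 * H * (X / Real.log X) ≤
        Co * (1 + C₁) ^ 2 * H * ((PP X).card / cp) :=
          mul_le_mul h5 h4 h6 (by positivity)
      _ = M * H * (PP X).card := by
          rw [hMd]
          ring
  -- the exceptional set
  refine ⟨(PP X).filter (fun p => c₂ * H < Err p) ∪ (PP X).filter (fun p => C₃ * H < Q2 p),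
    union_subset (filter_subset _ _) (filter_subset _ _), ?_, ?_⟩
  · have h1 := markov (PP X) Err hErr0 (c₂ * H)
    have h2 := markov (PP X) Q2 hQ20 (C₃ * H)
    have h3 : (((PP X).filter (fun p => c₂ * H < Err p)).card : ℝ) ≤ ε / 2 * (PP X).card := by
      have h4 := h1.trans hErrsum
      have h5 : ε / 2 * c₂ * H * (PP X).card = (ε / 2 * (PP X).card) * (c₂ * H) := by ring
      rw [h5] at h4
      exact le_of_mul_le_mul_right h4 (by positivity)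
    have h4 : (((PP X).filter (fun p => C₃ * H < Q2 p)).card : ℝ) ≤ ε / 2 * (PP X).card := by
      have h4 := h2.trans hQ2sum
      have h5 : M * H * (PP X).card = (ε / 2 * (PP X).card) * (C₃ * H) := by
        rw [hC₃d]
        field_simp
      rw [h5] at h4
      exact le_of_mul_le_mul_right h4 (by positivity)
    have h5 : (((PP X).filter (fun p => c₂ * H < Err p) ∪
        (PP X).filter (fun p => C₃ * H < Q2 p)).card : ℝ) ≤
        (((PP X).filter (fun p => c₂ * H < Err p)).card : ℝ) +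
        (((PP X).filter (fun p => C₃ * H < Q2 p)).card : ℝ) := by
      exact_mod_cast card_union_le _ _
    linarith
  · intro p hp
    obtain ⟨hpX, hpE⟩ := mem_sdiff.1 hp
    have hp1 : Err p ≤ c₂ * H := by
      by_contra h
      exact hpE (mem_union_left _ (mem_filter.2 ⟨hpX, not_le.1 h⟩))
    have hp2 : Q2 p ≤ C₃ * H := by
      by_contra h
      exact hpE (mem_union_right _ (mem_filter.2 ⟨hpX, not_le.1 h⟩))
    have hmain : ∀ s : ℤ, s = 1 ∨ s = -1 → c₂ ^ 2 / C₃ * H ≤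
        (((Ioc p (p + H)).filter (fun n => ArithmeticFunction.moebius n = s)).card : ℝ) := by
      intro s hs
      have h1 := sign_dil (QQ u v) hprime p H s hs c₀ (by linarith) hc1
      rw [← hErr, hSd] at h1
      have h2 : c₂ * H ≤ ∑ n ∈ (Ioc p (p + H)).filter (fun n => ArithmeticFunction.moebius n = s),
          (om (QQ u v) n : ℝ) := by
        have h3 : 2 * (c₂ * H) ≤ c₀ / 2 * H * S := by
          rw [hc₂d]
          have h4 : c₀ / 2 * H * c₁ ≤ c₀ / 2 * H * S :=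
            mul_le_mul_of_nonneg_left hS1 (by positivity)
          linarith
        linarith
      have h3 := sq_sum_le_card_mul_sum_sq
        (s := (Ioc p (p + H)).filter (fun n => ArithmeticFunction.moebius n = s))
        (f := fun n => (om (QQ u v) n : ℝ))
      have h4 : ∑ n ∈ (Ioc p (p + H)).filter (fun n => ArithmeticFunction.moebius n = s),
          (om (QQ u v) n : ℝ) ^ 2 ≤ C₃ * H := by
        refine le_trans ?_ hp2
        rw [hQ2]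
        exact sum_le_sum_of_subset_of_nonneg (filter_subset _ _) fun n _ _ => by positivity
      have h5 : (c₂ * H) ^ 2 ≤
          (((Ioc p (p + H)).filter (fun n => ArithmeticFunction.moebius n = s)).card : ℝ) *
            (C₃ * H) := by
        refine (pow_le_pow_left₀ (by positivity) h2 2).trans (h3.trans ?_)
        exact mul_le_mul_of_nonneg_left h4 (Nat.cast_nonneg _)
      have h6 : (c₂ * H) ^ 2 = (c₂ ^ 2 / C₃ * H) * (C₃ * H) := by
        field_simp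
      rw [h6] at h5
      exact le_of_mul_le_mul_right h5 (by positivity)
    exact ⟨hmain 1 (Or.inl rfl), hmain (-1) (Or.inr rfl)⟩

end Pool.SWP
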