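import Mathlib
import Pool.Agent.SWP.PosSmall

/-!
# SWP/PosLong: a positive proportion of each sign on `(p, p+H]`, `K log X ≤ H ≤ X`

See the header of `SWP/PosMu`.
-/

set_option autoImplicit false

namespace Pool.SWP

open Finset Pool.MRZ Pool.Agent.Lib.PrimePairs

namespace PosAux

lemma card_dvd_Ioc (d x H : ℕ) (hd : 0 < d) :
    (((Ioc x (x + H)).filter (fun n => d ∣ n)).card : ℝ) ≤ (H : ℝ) / d + 1 := by
  have h1 : (Ioc x (x + H)).filter (fun n => d ∣ n) ⊆
      (Ioc (x / d) ((x + H) / d)).image (fun m => d * m) := by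
    intro n hn
    obtain ⟨hn1, m, rfl⟩ := mem_filter.1 hn
    obtain ⟨h2, h3⟩ := mem_Ioc.1 hn1
    refine mem_image.2 ⟨m, mem_Ioc.2 ⟨?_, ?_⟩, rfl⟩
    · exact Nat.div_lt_of_lt_mul h2
    · rw [Nat.le_div_iff_mul_le hd, mul_comm]
      exact h3
  have h2 := (card_le_card h1).trans card_image_le
  rw [Nat.card_Ioc] at h2
  have hd' : (0 : ℝ) < d := by exact_mod_cast hd
  have h3 : (((x + H) / d : ℕ) : ℝ) ≤ ((x : ℝ) + H) / d := by
    have := Nat.cast_div_le (α := ℝ) (m := x + H) (n := d)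
    push_cast at this
    exact this
  have h4 : (x : ℝ) / d ≤ ((x / d : ℕ) : ℝ) + 1 := by
    rw [div_le_iff₀ hd']
    have h5 := Nat.lt_div_mul_add (a := x) hd
    have h6 : (x : ℝ) < ((x / d * d + d : ℕ) : ℝ) := by exact_mod_cast h5
    push_cast at h6
    nlinarith
  have h5 : (((x + H) / d - x / d : ℕ) : ℝ) = (((x + H) / d : ℕ) : ℝ) - ((x / d : ℕ) : ℝ) :=
    Nat.cast_sub (Nat.div_le_div_right (Nat.le_add_right _ _))
  have h6 : (((Ioc x (x + H)).filter (fun n => d ∣ n)).card : ℝ) ≤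
      (((x + H) / d - x / d : ℕ) : ℝ) := by exact_mod_cast h2
  rw [h5] at h6
  rw [add_div] at h3
  linarith

lemma card_AP_triv (X d h : ℕ) (hd : 0 < d) :
    (((PP X).filter (fun p => d ∣ p + h)).card : ℝ) ≤ (X : ℝ) / d + 1 := by
  refine le_trans ?_ (card_dvd_Ioc d h X hd)
  have h1 : ((PP X).filter (fun p => d ∣ p + h)).card ≤
      ((Ioc h (h + X)).filter (fun n => d ∣ n)).card := by
    refine card_le_card_of_injOn (fun p => p + h) ?_ ?_
    · intro p hp
      obtain ⟨hp1, hp2⟩ := mem_filter.1 hp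
      obtain ⟨hp3, hp4⟩ := mem_Icc.1 (mem_filter.1 hp1).1
      refine mem_coe.2 (mem_filter.2 ⟨mem_Ioc.2 ⟨?_, ?_⟩, hp2⟩)
      · show h < p + h
        omega
      · show p + h ≤ h + X
        omega
    · intro p _ p' _ hpp
      have : p + h = p' + h := hpp
      omega
  exact_mod_cast h1

lemma card_shift (d p H : ℕ) : ((Ioc p (p + H)).filter (fun n => d ∣ n)).card ≤
    ∑ h ∈ Icc 1 H, if d ∣ p + h then 1 else 0 := by
  rw [← card_filter]
  refine card_le_card_of_injOn (fun n => n - p) ?_ ?_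
  · intro n hn
    obtain ⟨hn1, hn2⟩ := mem_filter.1 hn
    obtain ⟨h2, h3⟩ := mem_Ioc.1 hn1
    refine mem_coe.2 (mem_filter.2 ⟨mem_Icc.2 ⟨?_, ?_⟩, ?_⟩)
    · show 1 ≤ n - p
      omega
    · show n - p ≤ H
      omega
    · show d ∣ p + (n - p)
      rw [show p + (n - p) = n by omega]
      exact hn2
  · intro n hn m hm hnm
    have h1 := (mem_Ioc.1 (mem_filter.1 hn).1).1
    have h2 := (mem_Ioc.1 (mem_filter.1 hm).1).1
    have h3 : n - p = m - p := hnm
    omega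

/-- squares of primes: the sum of the reciprocals -/
lemma sq_sum (z : ℕ) (hz : 6 ≤ z) :
    ∑ q ∈ (Icc 1 z).filter Nat.Prime, (1 : ℝ) / (q : ℝ) ^ 2 ≤ 0.568 - 1 / (z : ℝ) := by
  induction z, hz using Nat.le_induction with
  | base =>
    have h : (Icc 1 6).filter Nat.Prime = {2, 3, 5} := by decide
    rw [h]
    rw [sum_insert (by decide), sum_insert (by decide), sum_singleton]
    norm_num
  | succ z hz ih =>
    have h0 : (0 : ℝ) < z := by
      have : 0 < z := by omega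
      exact_mod_cast this
    have h1 : ∑ q ∈ (Icc 1 (z + 1)).filter Nat.Prime, (1 : ℝ) / (q : ℝ) ^ 2 ≤
        ∑ q ∈ (Icc 1 z).filter Nat.Prime, (1 : ℝ) / (q : ℝ) ^ 2 + 1 / ((z : ℝ) + 1) ^ 2 := by
      rw [sum_filter, sum_filter, sum_Icc_succ_top (by omega)]
      refine add_le_add le_rfl ?_
      split_ifs
      · push_cast
        exact le_rfl
      · positivity
    have h2 : (1 : ℝ) / ((z : ℝ) + 1) ^ 2 ≤ 1 / z - 1 / ((z : ℝ) + 1) := by
      rw [div_sub_div _ _ h0.ne' (by positivity), div_le_div_iff₀ (by positivity) (by positivity)]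
      nlinarith
    push_cast
    linarith

lemma tail_sum (a b : ℕ) (ha : 1 ≤ a) : ∑ n ∈ Ioc a b, (1 : ℝ) / (n : ℝ) ^ 2 ≤ 1 / (a : ℝ) := by
  rcases le_total a b with hab | hab
  · have h := sum_Ioc_inv_sq_le_sub (α := ℝ) (k := a) (n := b) (by omega) hab
    have h2 : ∑ n ∈ Ioc a b, (1 : ℝ) / (n : ℝ) ^ 2 = ∑ n ∈ Ioc a b, ((n : ℝ) ^ 2)⁻¹ :=
      sum_congr rfl fun n _ => one_div _
    rw [h2, one_div]
    have h3 : (0 : ℝ) ≤ (b : ℝ)⁻¹ := by positivity
    linarith
  · rw [Ioc_eq_empty (by omega), sum_empty]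
    positivity

lemma F_sq (q : ℕ) (hq : q.Prime) : F (q ^ 2) ≤ 2 := by
  unfold F
  rw [Nat.divisors_prime_pow hq, sum_map]
  have h2 : (2 : ℝ) ≤ q := by exact_mod_cast hq.two_le
  have h3 : ∑ x ∈ range (2 + 1), (1 : ℝ) / (((⟨(q ^ ·), Nat.pow_right_injective hq.two_le⟩ :
      ℕ ↪ ℕ) x : ℕ) : ℝ) = 1 + 1 / q + 1 / (q : ℝ) ^ 2 := by
    rw [sum_range_succ, sum_range_succ, sum_range_one]
    simp
  rw [h3]
  have h4 : (1 : ℝ) / q ≤ 1 / 2 := one_div_le_one_div_of_le (by norm_num) h2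
  have h5 : (1 : ℝ) / (q : ℝ) ^ 2 ≤ 1 / 2 ^ 2 :=
    one_div_le_one_div_of_le (by norm_num) (pow_le_pow_left₀ (by norm_num) h2 2)
  have h6 : (1 : ℝ) / 2 ^ 2 = 1 / 4 := by norm_num
  linarith

open Classical in
/-- number of elements of the window divisible by the square of a prime above `z` -/
noncomputable def TT (z H p : ℕ) : ℕ :=
  ((Ioc p (p + H)).filter (fun n => ∃ q : ℕ, q.Prime ∧ z < q ∧ q ^ 2 ∣ n)).card

lemma TT_le (X z H p : ℕ) (hp : p ∈ PP X) (hHX : H ≤ X) :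
    TT z H p ≤ ∑ q ∈ (Ioc z (Nat.sqrt (2 * X))).filter Nat.Prime,
      ∑ h ∈ Icc 1 H, if q ^ 2 ∣ p + h then 1 else 0 := by
  have h1 : TT z H p ≤ (((Ioc z (Nat.sqrt (2 * X))).filter Nat.Prime).biUnion
        (fun q => (Ioc p (p + H)).filter (fun n => q ^ 2 ∣ n))).card := by
    unfold TT
    refine card_le_card ?_
    intro n hn
    classical
    obtain ⟨hn1, q, hq, hzq, hqn⟩ := mem_filter.1 hn
    have hpX := (mem_Icc.1 (mem_filter.1 hp).1).2
    obtain ⟨h2, h3⟩ := mem_Ioc.1 hn1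
    refine mem_biUnion.2 ⟨q, mem_filter.2 ⟨mem_Ioc.2 ⟨hzq, ?_⟩, hq⟩, mem_filter.2 ⟨hn1, hqn⟩⟩
    rw [Nat.le_sqrt']
    exact (Nat.le_of_dvd (by omega) hqn).trans (by omega)
  refine h1.trans (card_biUnion_le.trans ?_)
  exact sum_le_sum fun q _ => card_shift (q ^ 2) p H

lemma sum_TT_le (X z H : ℕ) (hHX : H ≤ X) :
    (∑ p ∈ PP X, (TT z H p : ℝ)) ≤ ∑ q ∈ (Ioc z (Nat.sqrt (2 * X))).filter Nat.Prime,
      ∑ h ∈ Icc 1 H, (((PP X).filter (fun p => q ^ 2 ∣ p + h)).card : ℝ) := by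
  have h1 : ∑ p ∈ PP X, TT z H p ≤ ∑ p ∈ PP X,
      ∑ q ∈ (Ioc z (Nat.sqrt (2 * X))).filter Nat.Prime,
        ∑ h ∈ Icc 1 H, (if q ^ 2 ∣ p + h then 1 else 0) :=
    sum_le_sum fun p hp => TT_le X z H p hp hHX
  have h2 : ∑ p ∈ PP X, ∑ q ∈ (Ioc z (Nat.sqrt (2 * X))).filter Nat.Prime,
        ∑ h ∈ Icc 1 H, (if q ^ 2 ∣ p + h then 1 else 0) =
      ∑ q ∈ (Ioc z (Nat.sqrt (2 * X))).filter Nat.Prime, ∑ h ∈ Icc 1 H,
        ((PP X).filter (fun p => q ^ 2 ∣ p + h)).card := by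
    rw [sum_comm]
    refine sum_congr rfl fun q _ => ?_
    rw [sum_comm]
    refine sum_congr rfl fun h _ => ?_
    rw [card_filter]
  rw [h2] at h1
  exact_mod_cast h1

/-- the two ranges of `q` -/
lemma sum_TT_bound : ∃ C : ℝ, 0 < C ∧ ∀ X z H Q : ℕ, 2 ≤ X → 1 ≤ z → z ≤ Q → Q ^ 8 ≤ X → H ≤ X →
    (∑ p ∈ PP X, (TT z H p : ℝ)) ≤
      H * (C * (X / Real.log X) * (1 / z) + (X * (1 / (Q : ℝ)) + Nat.sqrt (2 * X))) := by
  obtain ⟨C, hC, hAP⟩ := card_AP_le
  refine ⟨2 * C, by positivity, ?_⟩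
  intro X z H Q hX hz hzQ hQ hHX
  refine (sum_TT_le X z H hHX).trans ?_
  have hlog : 0 < Real.log X := Real.log_pos (by exact_mod_cast hX)
  have hterm : ∀ q ∈ (Ioc z (Nat.sqrt (2 * X))).filter Nat.Prime,
      ∑ h ∈ Icc 1 H, (((PP X).filter (fun p => q ^ 2 ∣ p + h)).card : ℝ) ≤
      H * (if q ≤ Q then 2 * C * (X / Real.log X) * (1 / (q : ℝ) ^ 2) else
        X * (1 / (q : ℝ) ^ 2) + 1) := by
    intro q hq
    have hqp := (mem_filter.1 hq).2
    have hq0 : (0 : ℝ) < q := by exact_mod_cast hqp.pos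
    have h1 : ∀ h ∈ Icc 1 H, (((PP X).filter (fun p => q ^ 2 ∣ p + h)).card : ℝ) ≤
        (if q ≤ Q then 2 * C * (X / Real.log X) * (1 / (q : ℝ) ^ 2) else
          X * (1 / (q : ℝ) ^ 2) + 1) := by
      intro h _
      split_ifs with hqQ
      · have h2 : (q ^ 2) ^ 4 ≤ X := by
          rw [← pow_mul]
          exact (Nat.pow_le_pow_left hqQ 8).trans hQ
        refine (hAP X (q ^ 2) h hX (Nat.one_le_pow _ _ hqp.pos) h2).trans ?_
        push_cast
        have h3 := F_sq q hqp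
        have h4 : C * F (q ^ 2) * X / ((q : ℝ) ^ 2 * Real.log X) =
            F (q ^ 2) * (C * (X / Real.log X) * (1 / (q : ℝ) ^ 2)) := by
          field_simp
        have h5 : 2 * C * (X / Real.log X) * (1 / (q : ℝ) ^ 2) =
            2 * (C * (X / Real.log X) * (1 / (q : ℝ) ^ 2)) := by ring
        rw [h4, h5]
        exact mul_le_mul_of_nonneg_right h3 (by positivity)
      · have h2 := card_AP_triv X (q ^ 2) h (pow_pos hqp.pos 2)
        push_cast at h2
        refine h2.trans (le_of_eq ?_)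
        ring
    refine (sum_le_card_nsmul _ _ _ h1).trans ?_
    rw [Nat.card_Icc, nsmul_eq_mul, Nat.add_sub_cancel]
  refine (sum_le_sum hterm).trans ?_
  rw [← mul_sum]
  refine mul_le_mul_of_nonneg_left ?_ (Nat.cast_nonneg _)
  rw [sum_ite]
  refine add_le_add ?_ ?_
  · rw [← mul_sum]
    refine mul_le_mul_of_nonneg_left ?_ (by positivity)
    refine le_trans ?_ (tail_sum z Q hz)
    refine sum_le_sum_of_subset_of_nonneg ?_ fun n _ _ => by positivity
    intro q hq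
    obtain ⟨h1, h2⟩ := mem_filter.1 hq
    exact mem_Ioc.2 ⟨(mem_Ioc.1 (mem_filter.1 h1).1).1, h2⟩
  · rw [sum_add_distrib, ← mul_sum]
    refine add_le_add (mul_le_mul_of_nonneg_left ?_ (Nat.cast_nonneg _)) ?_
    · refine le_trans ?_ (tail_sum Q (Nat.sqrt (2 * X)) (hz.trans hzQ))
      refine sum_le_sum_of_subset_of_nonneg ?_ fun n _ _ => by positivity
      intro q hq
      obtain ⟨h1, h2⟩ := mem_filter.1 hq
      exact mem_Ioc.2 ⟨not_le.1 h2, (mem_Ioc.1 (mem_filter.1 h1).1).2⟩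
    · rw [sum_const, nsmul_eq_mul, mul_one]
      have h1 : (((Ioc z (Nat.sqrt (2 * X))).filter Nat.Prime).filter (fun q => ¬ q ≤ Q)).card ≤
          Nat.sqrt (2 * X) := by
        refine (card_le_card ((filter_subset _ _).trans (filter_subset _ _))).trans ?_
        rw [Nat.card_Ioc]
        omega
      exact_mod_cast h1

/-- large squares are rare on average over the primes -/
lemma sum_TT_small (δ : ℝ) (hδ : 0 < δ) : ∃ z X₀ : ℕ, 6 ≤ z ∧ ∀ X H : ℕ, X₀ ≤ X → H ≤ X →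
    (∑ p ∈ PP X, (TT z H p : ℝ)) ≤ δ * H * (PP X).card := by
  obtain ⟨C, hC, hT⟩ := sum_TT_bound
  obtain ⟨cp, Cp, hcp, hCp, hpi⟩ := pi_bounds
  obtain ⟨z, hz⟩ := exists_nat_ge (max 6 (2 * C / (δ * cp)))
  have hz6 : 6 ≤ z := by
    have : (6 : ℝ) ≤ z := (le_max_left _ _).trans hz
    exact_mod_cast this
  have hzC : 2 * C / (δ * cp) ≤ z := (le_max_right _ _).trans hz
  have hlog : Filter.Tendsto (fun X : ℕ => Real.log (X : ℝ)) Filter.atTop Filter.atTop :=
    Real.tendsto_log_atTop.comp tendsto_natCast_atTop_atTop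
  have h16 : ∀ᶠ X : ℕ in Filter.atTop, 256 * (Real.log (X : ℝ)) ^ 16 ≤ X := by
    have h := (Real.isLittleO_pow_log_id_atTop (n := 16)).bound
      (show (0 : ℝ) < 1 / 256 by norm_num)
    have h2 := tendsto_natCast_atTop_atTop.eventually h
    filter_upwards [h2, Filter.eventually_ge_atTop 1] with X hX h1
    have h3 : (1 : ℝ) ≤ X := by exact_mod_cast h1
    simp only [id_eq, Real.norm_eq_abs] at hX
    rw [abs_of_nonneg (by positivity), abs_of_nonneg (by positivity)] at hX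
    linarith
  have hE := ((Filter.eventually_ge_atTop 2).and (hlog.eventually_ge_atTop 2)).and
    (h16.and ((hlog.eventually_ge_atTop (z : ℝ)).and (hlog.eventually_ge_atTop (4 / (δ * cp)))))
  obtain ⟨X₀, hX₀⟩ := Filter.eventually_atTop.1 hE
  refine ⟨z, X₀, hz6, fun X H hX hHX => ?_⟩
  obtain ⟨⟨hX2, hL2⟩, h16, hLz, hLc⟩ := hX₀ X hX
  obtain ⟨L, hLd⟩ : ∃ L, L = Real.log X := ⟨_, rfl⟩
  rw [← hLd] at hL2 h16 hLz hLc
  have hL0 : 0 < L := by linarith
  have hX0 : (0 : ℝ) < X := by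
    have : 0 < X := by omega
    exact_mod_cast this
  -- Q
  obtain ⟨Q, hQd⟩ : ∃ Q, Q = ⌈L ^ 2⌉₊ := ⟨_, rfl⟩
  have hQ1 : L ^ 2 ≤ Q := by
    rw [hQd]
    exact Nat.le_ceil _
  have hQ2 : (Q : ℝ) ≤ 2 * L ^ 2 := by
    rw [hQd]
    have := (Nat.ceil_lt_add_one (show 0 ≤ L ^ 2 by positivity)).le
    nlinarith
  have hQ8 : Q ^ 8 ≤ X := by
    have h1 : (Q : ℝ) ^ 8 ≤ X := by
      refine (pow_le_pow_left₀ (Nat.cast_nonneg _) hQ2 8).trans (le_trans (le_of_eq ?_) h16)
      ring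
    exact_mod_cast h1
  have hzQ : z ≤ Q := by
    have h1 : (z : ℝ) ≤ Q := by nlinarith
    exact_mod_cast h1
  have hsqrt : (Nat.sqrt (2 * X) : ℝ) ≤ X / L ^ 2 := by
    rw [le_div_iff₀ (by positivity)]
    have h1 : (Nat.sqrt (2 * X) : ℝ) ^ 2 ≤ 2 * X := by exact_mod_cast Nat.sqrt_le' (2 * X)
    have h2 : ((Nat.sqrt (2 * X) : ℝ) * L ^ 2) ^ 2 ≤ (X : ℝ) ^ 2 := by
      rw [mul_pow]
      have h3 : 2 * (L ^ 2) ^ 2 ≤ X := by
        have h4 : (1 : ℝ) ≤ L ^ 12 := one_le_pow₀ (by linarith)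
        have h5 : L ^ 16 = L ^ 4 * L ^ 12 := by ring
        have h6 : (L ^ 2) ^ 2 = L ^ 4 := by ring
        have h7 : L ^ 4 * 1 ≤ L ^ 4 * L ^ 12 := mul_le_mul_of_nonneg_left h4 (by positivity)
        rw [h6]
        nlinarith [pow_pos hL0 16]
      calc (Nat.sqrt (2 * X) : ℝ) ^ 2 * (L ^ 2) ^ 2 ≤ 2 * X * (L ^ 2) ^ 2 :=
            mul_le_mul_of_nonneg_right h1 (by positivity)
        _ = (2 * (L ^ 2) ^ 2) * X := by ring
        _ ≤ X * X := mul_le_mul_of_nonneg_right h3 hX0.le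
        _ = (X : ℝ) ^ 2 := by ring
    exact le_of_sq_le_sq h2 hX0.le
  refine (hT X z H Q hX2 (by omega) hzQ hQ8 hHX).trans ?_
  rw [← hLd]
  have hπ := (hpi X hX2).1
  rw [← hLd] at hπ
  have hXL : (X : ℝ) / L ≤ (PP X).card / cp := by
    rw [le_div_iff₀ hcp]
    calc (X : ℝ) / L * cp = cp * X / L := by ring
      _ ≤ _ := hπ
  have hP0 : (0 : ℝ) ≤ (PP X).card := Nat.cast_nonneg _
  have hz0 : (0 : ℝ) < z := by
    have : 0 < z := by omega
    exact_mod_cast this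
  have hQ0 : (0 : ℝ) < Q := lt_of_lt_of_le (by positivity) hQ1
  have e1 : C * (X / L) * (1 / z) ≤ δ / 2 * (PP X).card := by
    have h1 : C * (X / L) * (1 / (z : ℝ)) ≤ C * ((PP X).card / cp) * (1 / z) :=
      mul_le_mul_of_nonneg_right (mul_le_mul_of_nonneg_left hXL hC.le) (by positivity)
    refine h1.trans ?_
    have h2 : C / (cp * z) ≤ δ / 2 := by
      rw [div_le_iff₀ (by positivity)]
      rw [div_le_iff₀ (by positivity)] at hzC
      linarith
    calc C * ((PP X).card / cp) * (1 / (z : ℝ)) = C / (cp * z) * (PP X).card := by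
          field_simp
      _ ≤ _ := mul_le_mul_of_nonneg_right h2 hP0
  have e2 : (X : ℝ) * (1 / (Q : ℝ)) + Nat.sqrt (2 * X) ≤ δ / 2 * (PP X).card := by
    have h1 : (X : ℝ) * (1 / (Q : ℝ)) ≤ X / L ^ 2 := by
      rw [mul_one_div]
      exact div_le_div_of_nonneg_left hX0.le (by positivity) hQ1
    have h2 : (X : ℝ) / L ^ 2 + X / L ^ 2 ≤ δ / 2 * (PP X).card := by
      have h3 : (X : ℝ) / L ^ 2 + X / L ^ 2 = 2 / L * (X / L) := by
        field_simp
        ring
      have h4 : 2 / L * ((X : ℝ) / L) ≤ 2 / L * ((PP X).card / cp) :=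
        mul_le_mul_of_nonneg_left hXL (by positivity)
      have h5 : 2 / (L * cp) ≤ δ / 2 := by
        rw [div_le_iff₀ (by positivity)]
        rw [div_le_iff₀ (by positivity)] at hLc
        linarith
      rw [h3]
      refine h4.trans ?_
      calc 2 / L * ((PP X).card / cp) = 2 / (L * cp) * (PP X).card := by
            field_simp
        _ ≤ _ := mul_le_mul_of_nonneg_right h5 hP0
    linarith
  have e3 := add_le_add e1 e2
  calc (H : ℝ) * (C * (X / L) * (1 / z) + (X * (1 / (Q : ℝ)) + Nat.sqrt (2 * X))) ≤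
      H * (δ / 2 * (PP X).card + δ / 2 * (PP X).card) :=
        mul_le_mul_of_nonneg_left e3 (Nat.cast_nonneg _)
    _ = δ * H * (PP X).card := by ring

/-- number of elements with `μ = 0` in a window -/
lemma card_zero_le (z H p : ℕ) (hz : 6 ≤ z) :
    (((Ioc p (p + H)).filter (fun n => ArithmeticFunction.moebius n = 0)).card : ℝ) ≤
      0.568 * H + z + TT z H p := by
  have h1 : ((Ioc p (p + H)).filter (fun n => ArithmeticFunction.moebius n = 0)).card ≤
      (∑ q ∈ (Icc 1 z).filter Nat.Prime, ((Ioc p (p + H)).filter (fun n => q ^ 2 ∣ n)).card) +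
        TT z H p := by
    classical
    have h2 : (Ioc p (p + H)).filter (fun n => ArithmeticFunction.moebius n = 0) ⊆
        (((Icc 1 z).filter Nat.Prime).biUnion
          (fun q => (Ioc p (p + H)).filter (fun n => q ^ 2 ∣ n))) ∪
        (Ioc p (p + H)).filter (fun n => ∃ q : ℕ, q.Prime ∧ z < q ∧ q ^ 2 ∣ n) := by
      intro n hn
      obtain ⟨hn1, hn2⟩ := mem_filter.1 hn
      have hn3 : ¬ Squarefree n := by
        rw [← ArithmeticFunction.moebius_ne_zero_iff_squarefree]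
        exact not_not.2 hn2
      have hn0 : n ≠ 0 := by
        have := (mem_Ioc.1 hn1).1
        omega
      rw [Nat.squarefree_iff_prime_squarefree] at hn3
      push Not at hn3
      obtain ⟨q, hq, hqn⟩ := hn3
      rw [← pow_two] at hqn
      rcases le_or_gt q z with h | h
      · refine mem_union_left _ (mem_biUnion.2 ⟨q, mem_filter.2 ⟨mem_Icc.2 ⟨hq.one_le, h⟩, hq⟩,
          mem_filter.2 ⟨hn1, hqn⟩⟩)
      · exact mem_union_right _ (mem_filter.2 ⟨hn1, q, hq, h, hqn⟩)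
    refine (card_le_card h2).trans ((card_union_le _ _).trans ?_)
    refine add_le_add card_biUnion_le ?_
    unfold TT
    refine le_of_eq ?_
    congr
  have h2 : (∑ q ∈ (Icc 1 z).filter Nat.Prime,
      (((Ioc p (p + H)).filter (fun n => q ^ 2 ∣ n)).card : ℝ)) ≤ 0.568 * H + z := by
    have h3 : ∀ q ∈ (Icc 1 z).filter Nat.Prime,
        (((Ioc p (p + H)).filter (fun n => q ^ 2 ∣ n)).card : ℝ) ≤
          H * (1 / (q : ℝ) ^ 2) + 1 := by
      intro q hq
      have h4 := card_dvd_Ioc (q ^ 2) p H (pow_pos (mem_filter.1 hq).2.pos 2)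
      push_cast at h4
      refine h4.trans (le_of_eq ?_)
      ring
    refine (sum_le_sum h3).trans ?_
    rw [sum_add_distrib, ← mul_sum, sum_const, nsmul_eq_mul, mul_one]
    have h4 := sq_sum z hz
    have h5 : (0 : ℝ) ≤ 1 / z := by positivity
    have h6 : (((Icc 1 z).filter Nat.Prime).card : ℝ) ≤ z := by
      have h7 : ((Icc 1 z).filter Nat.Prime).card ≤ z := by
        refine (card_le_card (filter_subset _ _)).trans ?_
        rw [Nat.card_Icc]
        omega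
      exact_mod_cast h7
    have h7 : (H : ℝ) * ∑ q ∈ (Icc 1 z).filter Nat.Prime, (1 : ℝ) / (q : ℝ) ^ 2 ≤ H * 0.568 :=
      mul_le_mul_of_nonneg_left (by linarith) (Nat.cast_nonneg _)
    linarith
  have h3 : (((Ioc p (p + H)).filter (fun n => ArithmeticFunction.moebius n = 0)).card : ℝ) ≤
      (∑ q ∈ (Icc 1 z).filter Nat.Prime,
        (((Ioc p (p + H)).filter (fun n => q ^ 2 ∣ n)).card : ℝ)) + TT z H p := by
    exact_mod_cast h1
  linarith

/-- the three values of `μ` -/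
lemma mu_cards (S : Finset ℕ) :
    ((S.filter (fun n => ArithmeticFunction.moebius n = 1)).card : ℝ) +
      ((S.filter (fun n => ArithmeticFunction.moebius n = -1)).card : ℝ) +
      ((S.filter (fun n => ArithmeticFunction.moebius n = 0)).card : ℝ) = S.card ∧
    (∑ n ∈ S, mu n) =
      ((((S.filter (fun n => ArithmeticFunction.moebius n = 1)).card : ℝ) -
      ((S.filter (fun n => ArithmeticFunction.moebius n = -1)).card : ℝ) : ℝ) : ℂ) := by
  constructor
  · rw [card_filter, card_filter, card_filter]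
    push_cast
    rw [← sum_add_distrib, ← sum_add_distrib]
    have h : ∀ n ∈ S, (((if ArithmeticFunction.moebius n = 1 then (1 : ℝ) else 0) +
        (if ArithmeticFunction.moebius n = -1 then (1 : ℝ) else 0)) +
        (if ArithmeticFunction.moebius n = 0 then (1 : ℝ) else 0)) = 1 := by
      intro n _
      rcases ArithmeticFunction.moebius_eq_or n with h | h | h <;> rw [h] <;> norm_num
    rw [sum_congr rfl h]
    simp
  · rw [card_filter, card_filter]
    push_cast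
    rw [← sum_sub_distrib]
    refine sum_congr rfl fun n _ => ?_
    unfold mu
    rcases ArithmeticFunction.moebius_eq_or n with h | h | h <;> rw [h] <;> norm_num

end PosAux

open PosAux

theorem pos_long (ε : ℝ) (hε : 0 < ε) : ∃ (K : ℝ) (X₀ : ℕ),
    ∀ X H : ℕ, X₀ ≤ X → K * Real.log X ≤ H → H ≤ X →
    ∃ E ⊆ PP X, (E.card : ℝ) ≤ ε * (PP X).card ∧ ∀ p ∈ PP X \ E,
      (1 / 8) * (H : ℝ) ≤ (((Ioc p (p + H)).filter (fun n => ArithmeticFunction.moebius n = 1)).card : ℝ) ∧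
      (1 / 8) * (H : ℝ) ≤ (((Ioc p (p + H)).filter (fun n => ArithmeticFunction.moebius n = -1)).card : ℝ) := by
  classical
  obtain ⟨K₁, X₁, h1⟩ := long_mu (ε / 16) (by positivity)
  obtain ⟨z, X₂, hz, h2⟩ := sum_TT_small (ε / 100) (by positivity)
  have hlog : Filter.Tendsto (fun X : ℕ => Real.log (X : ℝ)) Filter.atTop Filter.atTop :=
    Real.tendsto_log_atTop.comp tendsto_natCast_atTop_atTop
  obtain ⟨X₃, h3⟩ := Filter.eventually_atTop.1 (hlog.eventually_ge_atTop (100 * (z : ℝ)))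
  refine ⟨max K₁ 1, max X₁ (max X₂ X₃), ?_⟩
  intro X H hX hKH hHX
  have hX1 : X₁ ≤ X := (le_max_left _ _).trans hX
  have hX2 : X₂ ≤ X := ((le_max_left _ _).trans (le_max_right _ _)).trans hX
  have hX3 : X₃ ≤ X := ((le_max_right _ _).trans (le_max_right _ _)).trans hX
  have hL := h3 X hX3
  have hz0 : (6 : ℝ) ≤ z := by exact_mod_cast hz
  have hL0 : 0 < Real.log X := by linarith
  have hK1 : K₁ * Real.log X ≤ H :=
    (mul_le_mul_of_nonneg_right (le_max_left _ _) hL0.le).trans hKH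
  have hK2 : Real.log X ≤ H := by
    have := mul_le_mul_of_nonneg_right (le_max_right K₁ 1) hL0.le
    linarith
  have hzH : (z : ℝ) ≤ 0.01 * H := by linarith
  have hH0 : (0 : ℝ) < H := by linarith
  have a1 := h1 X H hX1 hK1 hHX
  have a2 := h2 X H hX2 hHX
  refine ⟨(PP X).filter (fun p => 1 / 8 * (H : ℝ) < ‖∑ n ∈ Ioc p (p + H), mu n‖) ∪
    (PP X).filter (fun p => 1 / 50 * (H : ℝ) < (TT z H p : ℝ)),
    union_subset (filter_subset _ _) (filter_subset _ _), ?_, ?_⟩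
  · have b1 := (markov (PP X) (fun p => ‖∑ n ∈ Ioc p (p + H), mu n‖) (fun p _ => norm_nonneg _)
      (1 / 8 * (H : ℝ))).trans a1
    have b2 := (markov (PP X) (fun p => (TT z H p : ℝ)) (fun p _ => Nat.cast_nonneg _)
      (1 / 50 * (H : ℝ))).trans a2
    have c1 : (((PP X).filter (fun p => 1 / 8 * (H : ℝ) <
        ‖∑ n ∈ Ioc p (p + H), mu n‖)).card : ℝ) ≤ ε / 2 * (PP X).card := by
      have e : ε / 16 * H * (PP X).card = (ε / 2 * (PP X).card) * (1 / 8 * H) := by ring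
      rw [e] at b1
      exact le_of_mul_le_mul_right b1 (by positivity)
    have c2 : (((PP X).filter (fun p => 1 / 50 * (H : ℝ) < (TT z H p : ℝ))).card : ℝ) ≤
        ε / 2 * (PP X).card := by
      have e : ε / 100 * H * (PP X).card = (ε / 2 * (PP X).card) * (1 / 50 * H) := by ring
      rw [e] at b2
      exact le_of_mul_le_mul_right b2 (by positivity)
    have c3 : (((PP X).filter (fun p => 1 / 8 * (H : ℝ) < ‖∑ n ∈ Ioc p (p + H), mu n‖) ∪
        (PP X).filter (fun p => 1 / 50 * (H : ℝ) < (TT z H p : ℝ))).card : ℝ) ≤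
        (((PP X).filter (fun p => 1 / 8 * (H : ℝ) <
          ‖∑ n ∈ Ioc p (p + H), mu n‖)).card : ℝ) +
        (((PP X).filter (fun p => 1 / 50 * (H : ℝ) < (TT z H p : ℝ))).card : ℝ) := by
      exact_mod_cast card_union_le _ _
    linarith
  · intro p hp
    obtain ⟨hpX, hpE⟩ := mem_sdiff.1 hp
    have hp1 : ‖∑ n ∈ Ioc p (p + H), mu n‖ ≤ 1 / 8 * H := by
      by_contra h
      exact hpE (mem_union_left _ (mem_filter.2 ⟨hpX, not_le.1 h⟩))
    have hp2 : (TT z H p : ℝ) ≤ 1 / 50 * H := by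
      by_contra h
      exact hpE (mem_union_right _ (mem_filter.2 ⟨hpX, not_le.1 h⟩))
    have hp3 := card_zero_le z H p hz
    obtain ⟨hp4, hp5⟩ := mu_cards (Ioc p (p + H))
    rw [hp5, Complex.norm_real, Real.norm_eq_abs, abs_le] at hp1
    rw [Nat.card_Ioc, Nat.add_sub_cancel_left] at hp4
    constructor <;> linarith [hp1.1, hp1.2]

end Pool.SWP
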