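import Pool.Agent.SWP.Base

/-!
# Weights of cycles: basic facts

MODULE Cy. Everything here is elementary. `wt u B` is the sum of `u` over `B` (indicator form), `cyc s u d` is the sum
over the cycle of `d`, `pot s u` is the sum of the squares of the cycle weights in the form `∑ d, u d * cyc s u d`.
Since `D` is finite, `s.SameCycle d e` implies `e = (s ^ n) d` for a natural number `n`
(`Equiv.Perm.SameCycle.exists_nat_pow_eq`), which gives `mem_of_same` and `same_congr` by induction on `n`.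
-/

set_option autoImplicit false

namespace Pool.Agent.SWP

open Equiv

variable {D : Type} [Fintype D] {s t : Perm D} {u v : D → ℝ}

theorem wt_nonneg (hu : ∀ d, 0 ≤ u d) (B : Set D) : 0 ≤ wt u B :=
  Finset.sum_nonneg fun d _ => Set.indicator_nonneg (fun e _ => hu e) d

theorem wt_mono (hu : ∀ d, 0 ≤ u d) {A B : Set D} (h : A ⊆ B) : wt u A ≤ wt u B :=
  Finset.sum_le_sum fun d _ => Set.indicator_le_indicator_of_subset h hu d

theorem wt_mono_fun {B : Set D} (h : ∀ d ∈ B, u d ≤ v d) : wt u B ≤ wt v B := by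
  refine Finset.sum_le_sum fun d _ => ?_
  by_cases hd : d ∈ B
  · rw [Set.indicator_of_mem hd, Set.indicator_of_mem hd]
    exact h d hd
  · rw [Set.indicator_of_notMem hd, Set.indicator_of_notMem hd]

theorem wt_congr {B : Set D} (h : ∀ d ∈ B, u d = v d) : wt u B = wt v B :=
  le_antisymm (wt_mono_fun fun d hd => (h d hd).le) (wt_mono_fun fun d hd => (h d hd).ge)

theorem wt_union_le (hu : ∀ d, 0 ≤ u d) (A B : Set D) : wt u (A ∪ B) ≤ wt u A + wt u B := by
  unfold wt
  rw [← Finset.sum_add_distrib]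
  refine Finset.sum_le_sum fun d _ => ?_
  by_cases hA : d ∈ A
  · rw [Set.indicator_of_mem (Set.mem_union_left B hA), Set.indicator_of_mem hA]
    have := Set.indicator_nonneg (s := B) (fun e _ => hu e) d
    linarith
  · by_cases hB : d ∈ B
    · rw [Set.indicator_of_mem (Set.mem_union_right A hB), Set.indicator_of_notMem hA,
        Set.indicator_of_mem hB]
      linarith
    · rw [Set.indicator_of_notMem (fun h => h.elim hA hB : d ∉ A ∪ B), Set.indicator_of_notMem hA,
        Set.indicator_of_notMem hB]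
      linarith

theorem wt_disj {A B : Set D} (h : Disjoint A B) : wt u (A ∪ B) = wt u A + wt u B := by
  unfold wt
  rw [← Finset.sum_add_distrib]
  refine Finset.sum_congr rfl fun d _ => ?_
  rw [Set.indicator_union_of_disjoint h]

theorem wt_univ : wt u Set.univ = ∑ d, u d := by
  unfold wt
  simp only [Set.indicator_univ]

theorem wt_le_sum (hu : ∀ d, 0 ≤ u d) (B : Set D) : wt u B ≤ ∑ d, u d := by
  rw [← wt_univ]
  exact wt_mono hu (Set.subset_univ B)

theorem wt_add (B : Set D) : wt (fun d => u d + v d) B = wt u B + wt v B := by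
  unfold wt
  rw [← Finset.sum_add_distrib]
  refine Finset.sum_congr rfl fun d _ => ?_
  by_cases hd : d ∈ B
  · rw [Set.indicator_of_mem hd, Set.indicator_of_mem hd, Set.indicator_of_mem hd]
  · rw [Set.indicator_of_notMem hd, Set.indicator_of_notMem hd, Set.indicator_of_notMem hd, add_zero]

theorem wt_compl (B : Set D) : wt u B + wt u Bᶜ = ∑ d, u d := by
  rw [← wt_disj (disjoint_compl_right : Disjoint B Bᶜ), Set.union_compl_self, wt_univ]

/-- weight of a union of finitely many sets -/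
theorem wt_iUnion_le (hu : ∀ d, 0 ≤ u d) (m : ℕ) (B : ℕ → Set D) :
    wt u {d | ∃ i, i < m ∧ d ∈ B i} ≤ ∑ i ∈ Finset.range m, wt u (B i) := by
  induction m with
  | zero =>
    have h : {d | ∃ i, i < 0 ∧ d ∈ B i} = (∅ : Set D) := by
      ext d
      simp
    rw [h]
    unfold wt
    simp
  | succ m ih =>
    rw [Finset.sum_range_succ]
    have h : {d | ∃ i, i < m + 1 ∧ d ∈ B i} ⊆ {d | ∃ i, i < m ∧ d ∈ B i} ∪ B m := by
      rintro d ⟨i, hi, hd⟩
      rcases Nat.lt_succ_iff_lt_or_eq.1 hi with h | h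
      · exact Or.inl ⟨i, h, hd⟩
      · exact Or.inr (h ▸ hd)
    refine (wt_mono hu h).trans ((wt_union_le hu _ _).trans ?_)
    linarith

theorem cyc_eq_wt (d : D) : cyc s u d = wt u {e | s.SameCycle d e} := rfl

theorem cyc_nonneg (hu : ∀ d, 0 ≤ u d) (d : D) : 0 ≤ cyc s u d := by
  rw [cyc_eq_wt]
  exact wt_nonneg hu _

theorem cyc_le_sum (hu : ∀ d, 0 ≤ u d) (d : D) : cyc s u d ≤ ∑ e, u e := by
  rw [cyc_eq_wt]
  exact wt_le_sum hu _

theorem le_cyc (hu : ∀ d, 0 ≤ u d) (d : D) : u d ≤ cyc s u d := by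
  have h := Finset.single_le_sum (f := fun e => Set.indicator {e | s.SameCycle d e} u e)
    (fun e _ => Set.indicator_nonneg (fun e _ => hu e) e) (Finset.mem_univ d)
  have h2 : Set.indicator {e | s.SameCycle d e} u d = u d :=
    Set.indicator_of_mem (show d ∈ {e | s.SameCycle d e} from Perm.SameCycle.refl s d) u
  simp only [h2] at h
  exact h

theorem cyc_same {x y : D} (h : s.SameCycle x y) : cyc s u x = cyc s u y := by
  have h2 : {e | s.SameCycle x e} = {e | s.SameCycle y e} := by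
    ext e
    exact ⟨fun h3 => h.symm.trans h3, fun h3 => h.trans h3⟩
  rw [cyc_eq_wt, cyc_eq_wt, h2]

theorem cyc_mono_fun (h : ∀ d, u d ≤ v d) (d : D) : cyc s u d ≤ cyc s v d := by
  rw [cyc_eq_wt, cyc_eq_wt]
  exact wt_mono_fun fun e _ => h e

omit [Fintype D] in
private theorem pow_mem_of {Z : Set D} (hZ : ∀ d ∈ Z, s d ∈ Z) {d : D} (hd : d ∈ Z) (n : ℕ) :
    (s ^ n) d ∈ Z := by
  induction n with
  | zero => simpa using hd
  | succ n ih =>
    rw [pow_succ', Perm.mul_apply]
    exact hZ _ ih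

omit [Fintype D] in
/-- a set closed under `s` contains the cycles of its elements -/
theorem mem_of_same [Finite D] {Z : Set D} (hZ : ∀ d ∈ Z, s d ∈ Z) {d e : D} (hd : d ∈ Z) (h : s.SameCycle d e) :
    e ∈ Z := by
  obtain ⟨n, hn⟩ := h.exists_nat_pow_eq
  rw [← hn]
  exact pow_mem_of hZ hd n

theorem cyc_le_wt (hu : ∀ d, 0 ≤ u d) {Z : Set D} (hZ : ∀ d ∈ Z, s d ∈ Z) {d : D} (hd : d ∈ Z) :
    cyc s u d ≤ wt u Z := by
  rw [cyc_eq_wt]
  exact wt_mono hu fun e he => mem_of_same hZ hd he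

omit [Fintype D] in
private theorem pow_eq_of {Z : Set D} (hZ : ∀ d ∈ Z, s d ∈ Z) (hst : ∀ d ∈ Z, s d = t d) {d : D} (hd : d ∈ Z)
    (n : ℕ) : (s ^ n) d = (t ^ n) d := by
  induction n with
  | zero => simp
  | succ n ih =>
    rw [pow_succ', Perm.mul_apply, pow_succ', Perm.mul_apply, ← ih]
    exact hst _ (pow_mem_of hZ hd n)

omit [Fintype D] in
/-- two permutations which agree on a set closed under `s` have the same cycles there -/
theorem same_congr [Finite D] {Z : Set D} (hZ : ∀ d ∈ Z, s d ∈ Z) (hst : ∀ d ∈ Z, s d = t d) {d : D} (hd : d ∈ Z)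
    (e : D) : s.SameCycle d e ↔ t.SameCycle d e := by
  constructor
  · intro h
    obtain ⟨n, hn⟩ := h.exists_nat_pow_eq
    refine ⟨n, ?_⟩
    rw [zpow_natCast, ← pow_eq_of hZ hst hd n, hn]
  · intro h
    obtain ⟨n, hn⟩ := h.exists_nat_pow_eq
    refine ⟨n, ?_⟩
    rw [zpow_natCast, pow_eq_of hZ hst hd n, hn]

theorem cyc_congr {Z : Set D} (hZ : ∀ d ∈ Z, s d ∈ Z) (hst : ∀ d ∈ Z, s d = t d)
    (huv : ∀ d ∈ Z, u d = v d) {d : D} (hd : d ∈ Z) : cyc s u d = cyc t v d := by
  have h2 : {e | s.SameCycle d e} = {e | t.SameCycle d e} := by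
    ext e
    exact same_congr hZ hst hd e
  rw [cyc_eq_wt, cyc_eq_wt, ← h2]
  exact wt_congr fun e he => huv e (mem_of_same hZ hd he)

/-- if a property is invariant under `s` it is constant on cycles -/
theorem iff_of_same {Q : D → Prop} (hQ : ∀ d, Q (s d) ↔ Q d) {d e : D} (h : s.SameCycle d e) : Q d ↔ Q e := by
  constructor
  · intro h1
    exact mem_of_same (Z := {d | Q d}) (fun d hd => (hQ d).2 hd) h1 h
  · intro h1
    exact mem_of_same (Z := {d | Q d}) (fun d hd => (hQ d).2 hd) h1 h.symm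

theorem pot_nonneg (hu : ∀ d, 0 ≤ u d) : 0 ≤ pot s u :=
  Finset.sum_nonneg fun d _ => mul_nonneg (hu d) (cyc_nonneg hu d)

theorem pot_le (hu : ∀ d, 0 ≤ u d) : pot s u ≤ (∑ d, u d) ^ 2 := by
  unfold pot
  rw [sq, Finset.sum_mul]
  exact Finset.sum_le_sum fun d _ => mul_le_mul_of_nonneg_left (cyc_le_sum hu d) (hu d)

namespace St

variable {S : St} {Y : Set S.D}

theorem uw_nonneg (d : S.D) : 0 ≤ S.uw Y d := Set.indicator_nonneg (fun e _ => S.wnn e) d

theorem uw_mem {d : S.D} (h : d ∈ Y) : S.uw Y d = 0 :=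
  Set.indicator_of_notMem (fun h2 : d ∈ Yᶜ => h2 h) _

theorem uw_notMem {d : S.D} (h : d ∉ Y) : S.uw Y d = S.w d :=
  Set.indicator_of_mem (show d ∈ Yᶜ from h) _

theorem uw_le (d : S.D) : S.uw Y d ≤ S.w d := by
  by_cases h : d ∈ Y
  · rw [uw_mem h]
    exact S.wnn d
  · rw [uw_notMem h]

theorem sum_uw : ∑ d, S.uw Y d = S.total - wt S.w Y := by
  have h : ∑ d, S.uw Y d = wt S.w Yᶜ := rfl
  have h2 := wt_compl (u := S.w) Y
  rw [h]
  unfold total
  linarith

theorem face_mem (hY : S.Cl Y) {d : S.D} (h : d ∈ Y) : S.face Y d = S.r (S.a d) := by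
  unfold face
  rw [Perm.mul_apply, S.beta_mem hY h]

theorem face_notMem {d : S.D} (h : d ∉ Y) : S.face Y d = S.r d := by
  unfold face
  rw [Perm.mul_apply, S.beta_notMem h]

theorem fl_nonneg (d : S.D) : 0 ≤ S.fl Y d := cyc_nonneg (fun e => uw_nonneg e) d

theorem len_nonneg (d : S.D) : 0 ≤ S.len d := cyc_nonneg S.wnn d

theorem w_le_len (d : S.D) : S.w d ≤ S.len d := le_cyc S.wnn d

theorem len_le_total (d : S.D) : S.len d ≤ S.total := cyc_le_sum S.wnn d

end St

end Pool.Agent.SWP
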