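import Pool.Agent.SWP.Cy

/-!
# Arcs of cycles

MODULE Ar. `Arc s x y d`: the letter `d` is reached from `x` by iterating `s` before `y` is hit (`d = (s ^ i) x` and
`(s ^ i') x ≠ y` for all `i' ≤ i`). If `x ≠ y` lie on one cycle of the permutation `s` of a finite set, this cycle is the
disjoint union of the arcs `[x, y)` and `[y, x)`: let `m` be the least natural number with `(s ^ m) x = y`
(`Equiv.Perm.SameCycle.exists_nat_pow_eq`); then `[x, y) = {(s ^ i) x | i < m}`, and if `m'` is the least number with
`(s ^ m') y = x` then `[y, x) = {(s ^ i) y | i < m'}`, and the letters `(s ^ i) x, i < m + m'` are the whole cycle, without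
repetition. Useful: `s d ≠ x` for `d` in `[x, y)` (otherwise iterating from `x` we would return to `x` without
hitting `y`, and never hit `y`).

Transpositions: `sw x y * s` sends the last letter of `[x, y)` (whose image under `s` is `y`) to `x`, all other letters
of the arc are mapped as by `s`; so `[x, y)` is the cycle of `x` under `sw x y * s`, and `[y, x)` is the cycle of `y`.
The cycles which do not contain `x` or `y` are not changed.
-/

set_option autoImplicit false

namespace Pool.Agent.SWP

open Equiv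

section
variable {D : Type} {s : Perm D} {x y d : D}

private theorem pow_add_apply (m n : ℕ) (z : D) : (s ^ (m + n)) z = (s ^ m) ((s ^ n) z) := by
  rw [pow_add, Perm.mul_apply]

private theorem pow_succ_apply (n : ℕ) (z : D) : (s ^ (n + 1)) z = s ((s ^ n) z) := by
  rw [pow_succ', Perm.mul_apply]

private theorem pow_mod_apply {m : ℕ} {z : D} (h : (s ^ m) z = z) (n : ℕ) :
    (s ^ n) z = (s ^ (n % m)) z := by
  have h1 : ∀ k : ℕ, (s ^ (m * k)) z = z := by
    intro k
    induction k with
    | zero => simp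
    | succ k ih => rw [Nat.mul_succ, pow_add_apply, h, ih]
  have h2 : (s ^ n) z = (s ^ (n % m + m * (n / m))) z := by rw [Nat.mod_add_div]
  rw [h2, pow_add_apply, h1]

theorem arc_same (h : Arc s x y d) : s.SameCycle x d := by
  obtain ⟨i, hi, _⟩ := h
  exact ⟨i, by rw [zpow_natCast]; exact hi⟩

theorem arc_self (h : Arc s x x d) : False := by
  obtain ⟨i, _, hi⟩ := h
  exact hi 0 (Nat.zero_le _) (by simp)

theorem arc_left (h : x ≠ y) : Arc s x y x := by
  refine ⟨0, by simp, fun i' hi' => ?_⟩
  have : i' = 0 := Nat.le_zero.1 hi'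
  subst this
  simpa using h

theorem arc_step (h : Arc s x y d) (h2 : s d ≠ y) : Arc s x y (s d) := by
  obtain ⟨i, hi, hi'⟩ := h
  refine ⟨i + 1, by rw [pow_succ_apply, hi], fun j hj => ?_⟩
  rcases Nat.lt_or_ge i j with h | h
  · have : j = i + 1 := by omega
    subst this
    rw [pow_succ_apply, hi]
    exact h2
  · exact hi' j h

theorem arc_ne_right (h : Arc s x y d) : d ≠ y := by
  obtain ⟨i, hi, hi'⟩ := h
  rw [← hi]
  exact hi' i le_rfl

theorem arc_step_ne [Finite D] (hs : s.SameCycle x y) (h : Arc s x y d) : s d ≠ x := by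
  obtain ⟨i, hi, hi'⟩ := h
  intro hc
  obtain ⟨n, hn⟩ := hs.exists_nat_pow_eq
  have h1 : (s ^ (i + 1)) x = x := by rw [pow_succ_apply, hi, hc]
  rw [pow_mod_apply h1 n] at hn
  exact hi' (n % (i + 1)) (Nat.lt_succ_iff.1 (Nat.mod_lt _ (Nat.succ_pos i))) hn

theorem arc_split [Finite D] (h : x ≠ y) (hs : s.SameCycle x y) (d : D) :
    s.SameCycle x d ↔ Arc s x y d ∨ Arc s y x d := by
  constructor
  · intro h1
    refine mem_of_same (Z := {d | Arc s x y d ∨ Arc s y x d}) ?_ (Or.inl (arc_left h)) h1
    rintro e (he | he)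
    · by_cases h2 : s e = y
      · rw [h2]
        exact Or.inr (arc_left h.symm)
      · exact Or.inl (arc_step he h2)
    · by_cases h2 : s e = x
      · rw [h2]
        exact Or.inl (arc_left h)
      · exact Or.inr (arc_step he h2)
  · rintro (h1 | h1)
    · exact arc_same h1
    · exact hs.trans (arc_same h1)

theorem arc_disj [Finite D] (hs : s.SameCycle x y) (h : Arc s x y d) : ¬ Arc s y x d := by
  obtain ⟨i, hi, hi'⟩ := h
  rintro ⟨j, hj, hj'⟩
  rcases le_total j i with h | h
  · refine hi' (i - j) (Nat.sub_le _ _) ?_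
    apply (s ^ j).injective
    rw [← pow_add_apply, Nat.add_sub_cancel' h, hi, hj]
  · refine hj' (j - i) (Nat.sub_le _ _) ?_
    apply (s ^ i).injective
    rw [← pow_add_apply, Nat.add_sub_cancel' h, hi, hj]

theorem sw_same_left [Finite D] (h : x ≠ y) (hs : s.SameCycle x y) (d : D) :
    (sw x y * s).SameCycle x d ↔ Arc s x y d := by
  constructor
  · intro h1
    refine mem_of_same (Z := {d | Arc s x y d}) ?_ (arc_left h) h1
    intro e he
    rw [Perm.mul_apply]
    by_cases h2 : s e = y
    · rw [h2, sw_right]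
      exact arc_left h
    · rw [sw_of_ne (arc_step_ne hs he) h2]
      exact arc_step he h2
  · rintro ⟨i, hi, hi'⟩
    have key : ∀ j ≤ i, (sw x y * s).SameCycle x ((s ^ j) x) := by
      intro j
      induction j with
      | zero => intro _; simpa using Perm.SameCycle.refl _ _
      | succ j ih =>
        intro hj
        have h1 := ih (by omega)
        have harc : Arc s x y ((s ^ j) x) := ⟨j, rfl, fun k hk => hi' k (by omega)⟩
        have h2 : (sw x y * s) ((s ^ j) x) = (s ^ (j + 1)) x := by
          rw [Perm.mul_apply, ← pow_succ_apply, sw_of_ne _ (hi' (j + 1) hj)]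
          rw [pow_succ_apply]
          exact arc_step_ne hs harc
        rw [← h2]
        exact h1.trans (Perm.sameCycle_apply_right.2 (Perm.SameCycle.refl _ _))
    rw [← hi]
    exact key i le_rfl

theorem sw_same_right [Finite D] (h : x ≠ y) (hs : s.SameCycle x y) (d : D) :
    (sw x y * s).SameCycle y d ↔ Arc s y x d := by
  rw [sw_comm]
  exact sw_same_left h.symm hs.symm d

theorem sw_same_off [Finite D] (hx : ¬ s.SameCycle x d) (hy : ¬ s.SameCycle y d) (e : D) :
    (sw x y * s).SameCycle d e ↔ s.SameCycle d e := by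
  refine (same_congr (s := s) (t := sw x y * s) (Z := {e | s.SameCycle d e}) ?_ ?_
    (Perm.SameCycle.refl _ _) e).symm
  · intro f hf
    exact Perm.sameCycle_apply_right.2 hf
  · intro f hf
    have h1 : s.SameCycle d (s f) := Perm.sameCycle_apply_right.2 hf
    rw [Perm.mul_apply, sw_of_ne]
    · intro hc
      exact hx (hc ▸ h1).symm
    · intro hc
      exact hy (hc ▸ h1).symm

/-- arcs and iterates -/
theorem arc_pow (k : ℕ) (h : ∀ i, 1 ≤ i → i ≤ k → (s ^ i) x ≠ x) (d : D) :
    Arc s x ((s ^ k) x) d ↔ ∃ i < k, (s ^ i) x = d := by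
  constructor
  · rintro ⟨i, hi, hi'⟩
    refine ⟨i, ?_, hi⟩
    by_contra hc
    exact hi' k (by omega) rfl
  · rintro ⟨i, hik, hi⟩
    refine ⟨i, hi, fun j hj hc => ?_⟩
    refine h (k - j) (by omega) (by omega) ?_
    apply (s ^ j).injective
    rw [← pow_add_apply, Nat.add_sub_cancel' (by omega : j ≤ k), ← hc]

theorem exists_pow_of_same [Finite D] (h : x ≠ y) (hs : s.SameCycle x y) :
    ∃ k, 1 ≤ k ∧ (s ^ k) x = y ∧ ∀ i, 1 ≤ i → i ≤ k → (s ^ i) x ≠ x := by
  classical
  have hex := hs.exists_nat_pow_eq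
  refine ⟨Nat.find hex, ?_, Nat.find_spec hex, ?_⟩
  · rw [Nat.one_le_iff_ne_zero]
    intro h0
    have h1 := Nat.find_spec hex
    rw [h0] at h1
    exact h (by simpa using h1)
  · intro i h1 h2 hc
    refine Nat.find_min hex (m := Nat.find hex - i) (by omega) ?_
    have h3 := Nat.find_spec hex
    rw [← Nat.sub_add_cancel h2, pow_add_apply, hc] at h3
    exact h3

end

section
variable {D : Type} [Fintype D] {s : Perm D} {u : D → ℝ} {x y : D}

theorem arcw_nonneg (hu : ∀ d, 0 ≤ u d) (x y : D) : 0 ≤ arcw s u x y :=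
  wt_nonneg hu _

theorem cyc_arc (h : x ≠ y) (hs : s.SameCycle x y) : cyc s u x = arcw s u x y + arcw s u y x := by
  rw [cyc_eq_wt]
  unfold arcw
  rw [← wt_disj]
  · congr 1
    ext d
    exact arc_split h hs d
  · rw [Set.disjoint_left]
    intro d h1 h2
    exact arc_disj hs h1 h2

theorem arcw_pow (k : ℕ) (h : ∀ i, 1 ≤ i → i ≤ k → (s ^ i) x ≠ x) :
    arcw s u x ((s ^ k) x) = ∑ i ∈ Finset.range k, u ((s ^ i) x) := by
  have hset : {d | Arc s x ((s ^ k) x) d} = {d | ∃ i < k, (s ^ i) x = d} := by
    ext d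
    exact arc_pow k h d
  unfold arcw
  rw [hset]
  clear hset
  induction k with
  | zero =>
    have h0 : {d | ∃ i < 0, (s ^ i) x = d} = (∅ : Set D) := by
      ext d
      simp
    rw [h0]
    unfold wt
    simp
  | succ k ih =>
    have h1 : {d | ∃ i < k + 1, (s ^ i) x = d} = {d | ∃ i < k, (s ^ i) x = d} ∪ {(s ^ k) x} := by
      ext d
      constructor
      · rintro ⟨i, hi, hd⟩
        rcases Nat.lt_succ_iff_lt_or_eq.1 hi with h2 | h2
        · exact Or.inl ⟨i, h2, hd⟩
        · subst h2
          exact Or.inr hd.symm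
      · rintro (⟨i, hi, hd⟩ | hd)
        · exact ⟨i, by omega, hd⟩
        · exact ⟨k, by omega, hd.symm⟩
    rw [h1, wt_disj, ih (fun i hi hik => h i hi (by omega)), Finset.sum_range_succ]
    · congr 1
      unfold wt
      rw [Finset.sum_eq_single ((s ^ k) x)]
      · exact Set.indicator_of_mem (Set.mem_singleton _) _
      · intro b _ hb
        exact Set.indicator_of_notMem (show b ∉ ({(s ^ k) x} : Set D) from hb) u
      · intro hc
        exact absurd (Finset.mem_univ _) hc
    · rw [Set.disjoint_left]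
      rintro d ⟨i, hi, hd⟩ hd2
      have hd2' : d = (s ^ k) x := hd2
      refine h (k - i) (by omega) (by omega) ?_
      apply (s ^ i).injective
      rw [← pow_add_apply, Nat.add_sub_cancel' (by omega : i ≤ k), hd, hd2']

end

end Pool.Agent.SWP
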