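import Pool.Agent.SWP.Def

/-!
# SWP/DefR (helper73): refinements with new vertices at arbitrary points of the sides, Euler characteristic

Addition to the definitions of `Pool/Agent/SWP/Def.lean`.
-/

set_option autoImplicit false

namespace Pool.Agent.GW

open Equiv Pool.Agent.SWP

/-- Subdivide the side `b` (and its partner) by a new vertex at distance `x` from the end of `b` (as `sub`, which is the
case `x = 0`). -/
noncomputable def cutS (S : St) (b : S.D) (x : ℝ) (h0 : 0 ≤ x) (h1 : x ≤ S.w b) : St where
  D := S.D ⊕ Bool
  fD := inferInstance
  r := sw (Sum.inl (S.a b)) (Sum.inr false) * Equiv.sumCongr S.r (Equiv.refl Bool) * sw (Sum.inl b) (Sum.inr true)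
  a := Equiv.sumCongr S.a Equiv.boolNot
  w := Sum.elim (fun d => S.w d - Set.indicator {d | d = b ∨ d = S.a b} (fun _ => x) d) (fun _ => x)
  aa := St.ext_aa S.a S.aa
  wa := by
    rintro (d | d)
    · have h : (S.a d = b ∨ S.a d = S.a b) ↔ (d = b ∨ d = S.a b) := by
        constructor
        · rintro (h | h)
          · right; rw [← h, S.aa]
          · left; exact S.a.injective h
        · rintro (h | h)
          · right; rw [h]
          · left; rw [h, S.aa]
      change S.w (S.a d) - _ = S.w d - _
      rw [S.wa]
      congr 1
      by_cases hd : d = b ∨ d = S.a b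
      · rw [Set.indicator_of_mem (show d ∈ {d | d = b ∨ d = S.a b} from hd),
          Set.indicator_of_mem (show S.a d ∈ {d | d = b ∨ d = S.a b} from h.2 hd)]
      · rw [Set.indicator_of_notMem (show d ∉ {d | d = b ∨ d = S.a b} from hd),
          Set.indicator_of_notMem (show S.a d ∉ {d | d = b ∨ d = S.a b} from fun h' => hd (h.1 h'))]
    · rfl
  wnn := by
    rintro (d | d)
    · change 0 ≤ S.w d - _
      by_cases hd : d = b ∨ d = S.a b
      · rw [Set.indicator_of_mem (show d ∈ {d | d = b ∨ d = S.a b} from hd)]
        rcases hd with rfl | rfl
        · linarith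
        · rw [S.wa]; linarith
      · rw [Set.indicator_of_notMem (show d ∉ {d | d = b ∨ d = S.a b} from hd)]
        have := S.wnn d
        linarith
    · exact h0
  w0 := by
    rintro (d | d) h
    · have hd : S.a d = d := by simpa using h
      have h2 := S.w0 d hd
      change S.w d - _ = 0
      by_cases hd : d = b ∨ d = S.a b
      · rw [Set.indicator_of_mem (show d ∈ {d | d = b ∨ d = S.a b} from hd)]
        have h3 : S.w b = 0 := by
          rcases hd with rfl | rfl
          · exact h2
          · rw [← S.wa]; exact h2
        linarith
      · rw [Set.indicator_of_notMem (show d ∉ {d | d = b ∨ d = S.a b} from hd), h2]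
        ring
    · cases d <;> simp at h

/-- The refinements of zero area: `Ref` and new vertices on the sides. -/
inductive RefR : St → St → Prop
  | ref (S T : St) : Ref S T → RefR S T
  | cut (S : St) (b : S.D) (x : ℝ) (h0 : 0 ≤ x) (h1 : x ≤ S.w b) : S.a b ≠ b → RefR S (cutS S b x h0 h1)

/-- Some refinement of the state can be glued completely with all boundary components of length at most `L`. -/
def SweepR (L : ℝ) (S : St) : Prop := ∃ T, Relation.ReflTransGen RefR S T ∧ GlueAll L T

/-- number of cycles of a permutation (fixed points included) -/
noncomputable def ncyc {D : Type} (s : Perm D) : ℕ := Nat.card (Quotient (Perm.SameCycle.setoid s))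

/-- number of connected components of the surface -/
noncomputable def comps (S : St) : ℕ := Nat.card (Quot (fun x y : S.D => y = S.r x ∨ y = S.a x))

/-- Euler characteristic of the closed surface: number of vertices (cycles of `r * a`: the letters starting at one vertex)
minus number of edges (cycles of `a`: pairs of sides) plus number of polygons (cycles of `r`) -/
noncomputable def chi (S : St) : ℤ := ncyc (S.r * S.a) - ncyc S.a + ncyc S.r

end Pool.Agent.GW
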