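import Pool.Agent.SWP.Cy

/-!
# Grouping the words

MODULE Grp. Choose an injection `e : D → ℕ` (`Fintype.equivFin`), let `rep d` be the least `e d'` over the cycle of `d` (constant on
cycles, different on different cycles), `pre d = ∑ over all d' with rep d' < rep d of w d'` and `grp d = ⌊pre d / g⌋₊`. `grp` is constant on
cycles and `grp d ≤ pre d / g ≤ M / g`. Weight of `G = {d | grp d = i}`: if nonempty, let `d1, d2 ∈ G` with `rep d1` least and `rep d2`
greatest. All letters of `G` have `rep d1 ≤ rep ≤ rep d2`, so `G` is contained in the disjoint union of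
`{rep < rep d2} \ {rep < rep d1}` and the cycle of `d2`, so `wt w G ≤ pre d2 - pre d1 + cyc r w d2 ≤ g + κ`, because
`i ≤ pre / g < i + 1` for both.

`pair_exists`: the total weight is the sum over the pairs `(i, j)`, `i, j < n`, of the weights of
`{d | grp d = i ∧ grp (a d) = j}`; so some pair has at least the fraction `1 / n^2`.
-/

set_option autoImplicit false

namespace Pool.Agent.SWP

open Equiv

/-- the least label in the cycle -/
private noncomputable def gRep {D : Type} [Fintype D] (r : Perm D) (d : D) : ℕ :=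
  sInf ((fun d' => ((Fintype.equivFin D d' : Fin (Fintype.card D)) : ℕ)) '' {d' | r.SameCycle d d'})

private theorem gRep_mem {D : Type} [Fintype D] (r : Perm D) (d : D) :
    ∃ d', r.SameCycle d d' ∧ ((Fintype.equivFin D d' : Fin (Fintype.card D)) : ℕ) = gRep r d := by
  have h : ((fun d' => ((Fintype.equivFin D d' : Fin (Fintype.card D)) : ℕ)) ''
      {d' | r.SameCycle d d'}).Nonempty := ⟨_, d, Perm.SameCycle.refl r d, rfl⟩
  obtain ⟨d', hd', h2⟩ := Nat.sInf_mem h
  exact ⟨d', hd', h2⟩

private theorem gRep_eq {D : Type} [Fintype D] (r : Perm D) {d e : D} (h : r.SameCycle d e) :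
    gRep r d = gRep r e := by
  unfold gRep
  congr 2
  ext x
  exact ⟨fun hx => h.symm.trans hx, fun hx => h.trans hx⟩

private theorem gRep_inj {D : Type} [Fintype D] (r : Perm D) {d e : D} (h : gRep r d = gRep r e) :
    r.SameCycle d e := by
  obtain ⟨d', hd, hd'⟩ := gRep_mem r d
  obtain ⟨e', he, he'⟩ := gRep_mem r e
  have h1 : d' = e' := by
    apply (Fintype.equivFin D).injective
    apply Fin.ext
    rw [hd', he', h]
  subst h1
  exact hd.trans he.symm

private theorem wt_mono_set {D : Type} [Fintype D] (w : D → ℝ) (hw : ∀ d, 0 ≤ w d) (B : Set D) :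
    wt w B ≤ ∑ d, w d := by
  unfold wt
  refine Finset.sum_le_sum fun d _ => ?_
  exact Set.indicator_le_self' (fun _ _ => hw _) d

theorem grouping {D : Type} [Fintype D] (r : Perm D) (w : D → ℝ) (hw : ∀ d, 0 ≤ w d) (κ g M : ℝ) (hg : 0 < g)
    (hκ0 : 0 ≤ κ) (hκ : ∀ d, cyc r w d ≤ κ) (hM : ∑ d, w d ≤ M) :
    ∃ grp : D → ℕ, (∀ d, grp (r d) = grp d) ∧ (∀ i, wt w {d | grp d = i} ≤ g + κ) ∧ ∀ d, (grp d : ℝ) ≤ M / g := by
  classical
  have hpre0 : ∀ d, 0 ≤ wt w {d' | gRep r d' < gRep r d} := by
    intro d
    exact Finset.sum_nonneg fun e _ => Set.indicator_nonneg (fun e _ => hw e) e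
  refine ⟨fun d => ⌊wt w {d' | gRep r d' < gRep r d} / g⌋₊, ?_, ?_, ?_⟩
  · intro d
    have h : gRep r (r d) = gRep r d := gRep_eq r (Perm.sameCycle_apply_left.2 (Perm.SameCycle.refl r d))
    simp only [h]
  · intro i
    by_cases hne : ∃ d, ⌊wt w {d' | gRep r d' < gRep r d} / g⌋₊ = i
    · set G : Finset D := Finset.univ.filter fun d => ⌊wt w {d' | gRep r d' < gRep r d} / g⌋₊ = i with hG
      have hGne : G.Nonempty := by
        obtain ⟨d, hd⟩ := hne
        exact ⟨d, by rw [hG, Finset.mem_filter]; exact ⟨Finset.mem_univ _, hd⟩⟩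
      obtain ⟨d1, hd1, hmin⟩ := Finset.exists_min_image G (gRep r) hGne
      obtain ⟨d2, hd2, hmax⟩ := Finset.exists_max_image G (gRep r) hGne
      have h1 : ⌊wt w {d' | gRep r d' < gRep r d1} / g⌋₊ = i := by
        rw [hG, Finset.mem_filter] at hd1
        exact hd1.2
      have h2 : ⌊wt w {d' | gRep r d' < gRep r d2} / g⌋₊ = i := by
        rw [hG, Finset.mem_filter] at hd2
        exact hd2.2
      have hle : wt w {d | ⌊wt w {d' | gRep r d' < gRep r d} / g⌋₊ = i} ≤
          wt w {d' | gRep r d' < gRep r d2} - wt w {d' | gRep r d' < gRep r d1} + cyc r w d2 := by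
        unfold wt cyc
        rw [← Finset.sum_sub_distrib, ← Finset.sum_add_distrib]
        refine Finset.sum_le_sum fun e _ => ?_
        by_cases heG : e ∈ G
        · have ha := hmin e heG
          have hb := hmax e heG
          have hA : Set.indicator {d | ⌊(∑ e, Set.indicator {d' | gRep r d' < gRep r d} w e) / g⌋₊ = i} w e ≤ w e :=
            Set.indicator_le_self' (fun _ _ => hw _) e
          have hB : Set.indicator {d' | gRep r d' < gRep r d1} w e = 0 := by
            rw [Set.indicator_of_notMem]
            exact not_lt.2 ha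
          have hC0 : 0 ≤ Set.indicator {d' | gRep r d' < gRep r d2} w e :=
            Set.indicator_nonneg (fun e _ => hw e) e
          have hD0 : 0 ≤ Set.indicator {x | r.SameCycle d2 x} w e :=
            Set.indicator_nonneg (fun e _ => hw e) e
          rcases hb.lt_or_eq with hlt | heq
          · have hC : Set.indicator {d' | gRep r d' < gRep r d2} w e = w e :=
              Set.indicator_of_mem (show e ∈ {d' | gRep r d' < gRep r d2} from hlt) w
            linarith
          · have hD : Set.indicator {x | r.SameCycle d2 x} w e = w e :=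
              Set.indicator_of_mem (show e ∈ {x | r.SameCycle d2 x} from gRep_inj r heq.symm) w
            linarith
        · have hA : Set.indicator {d | ⌊(∑ e, Set.indicator {d' | gRep r d' < gRep r d} w e) / g⌋₊ = i} w e = 0 := by
            rw [Set.indicator_of_notMem]
            intro hmem
            apply heG
            rw [hG, Finset.mem_filter]
            exact ⟨Finset.mem_univ _, hmem⟩
          have hmm : gRep r d1 ≤ gRep r d2 := hmin d2 hd2
          have hBC : Set.indicator {d' | gRep r d' < gRep r d1} w e ≤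
              Set.indicator {d' | gRep r d' < gRep r d2} w e := by
            refine Set.indicator_le_indicator_of_subset ?_ hw e
            intro x hx
            exact lt_of_lt_of_le hx hmm
          have hD0 : 0 ≤ Set.indicator {x | r.SameCycle d2 x} w e :=
            Set.indicator_nonneg (fun e _ => hw e) e
          rw [hA]
          linarith
      have h3 : (i : ℝ) ≤ wt w {d' | gRep r d' < gRep r d1} / g := by
        rw [← h1]
        exact Nat.floor_le (div_nonneg (hpre0 d1) hg.le)
      have h4 : wt w {d' | gRep r d' < gRep r d2} / g < (i : ℝ) + 1 := by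
        rw [← h2]
        exact Nat.lt_floor_add_one _
      rw [le_div_iff₀ hg] at h3
      rw [div_lt_iff₀ hg] at h4
      have h5 := hκ d2
      have h6 : wt w {d' | gRep r d' < gRep r d2} - wt w {d' | gRep r d' < gRep r d1} ≤ g := by
        nlinarith
      linarith
    · have hempty : {d | ⌊wt w {d' | gRep r d' < gRep r d} / g⌋₊ = i} = (∅ : Set D) := by
        ext d
        constructor
        · intro hd
          exact hne ⟨d, hd⟩
        · intro hd
          exact hd.elim
      rw [hempty]
      unfold wt
      simp only [Set.indicator_empty, Finset.sum_const_zero]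
      linarith
  · intro d
    refine (Nat.floor_le (div_nonneg (hpre0 d) hg.le)).trans ?_
    have := (wt_mono_set w hw {d' | gRep r d' < gRep r d}).trans hM
    gcongr

theorem pair_exists {D : Type} [Fintype D] (a : Perm D) (w : D → ℝ) (hw : ∀ d, 0 ≤ w d) (grp : D → ℕ) (n : ℕ)
    (hn : 0 < n) (hgrp : ∀ d, grp d < n) :
    ∃ i j : ℕ, (∑ d, w d) / (n : ℝ) ^ 2 ≤ wt w {d | grp d = i ∧ grp (a d) = j} := by
  classical
  by_contra hcon
  push Not at hcon
  have hsum : ∑ p ∈ (Finset.range n) ×ˢ (Finset.range n), wt w {d | grp d = p.1 ∧ grp (a d) = p.2} =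
      ∑ d, w d := by
    unfold wt
    rw [Finset.sum_comm]
    refine Finset.sum_congr rfl fun d _ => ?_
    rw [Finset.sum_eq_single (grp d, grp (a d))]
    · exact Set.indicator_of_mem (show d ∈ {d' | grp d' = grp d ∧ grp (a d') = grp (a d)} from ⟨rfl, rfl⟩) w
    · intro p _ hp
      rw [Set.indicator_of_notMem]
      rintro ⟨h1, h2⟩
      apply hp
      exact Prod.ext h1.symm h2.symm
    · intro h
      exfalso
      apply h
      rw [Finset.mem_product, Finset.mem_range, Finset.mem_range]
      exact ⟨hgrp _, hgrp _⟩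
  have hlt : ∑ p ∈ (Finset.range n) ×ˢ (Finset.range n), wt w {d | grp d = p.1 ∧ grp (a d) = p.2} <
      ∑ _p ∈ (Finset.range n) ×ˢ (Finset.range n), (∑ d, w d) / (n : ℝ) ^ 2 := by
    refine Finset.sum_lt_sum_of_nonempty ?_ fun p _ => hcon p.1 p.2
    exact ⟨(0, 0), by rw [Finset.mem_product, Finset.mem_range]; exact ⟨hn, hn⟩⟩
  rw [hsum, Finset.sum_const, Finset.card_product, Finset.card_range, nsmul_eq_mul] at hlt
  have hn' : (n : ℝ) ≠ 0 := by exact_mod_cast hn.ne'
  have : ((n * n : ℕ) : ℝ) * ((∑ d, w d) / (n : ℝ) ^ 2) = ∑ d, w d := by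
    push_cast
    field_simp
  linarith

end Pool.Agent.SWP
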