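import Pool.Agent.SWP.Cy

/-!
# Adding dead letters in separate words

MODULE Emb. `Emb S T j`: `j` is an injective map of the letters of `S` into the letters of `T` which commutes with `r` and `a` and preserves
`w`, and all letters of `T` outside of the image are dead (so they have weight 0). The image and its complement are
invariant under `T.r` (finite sets).

`sweep_emb`: (1) If `Emb S T j` and `Ref S S'` then there is `T'` with `Ref T T'` and `Emb S' T' j'`, `j' = Sum.map j id`: for `S' = S.dbl e` take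
`T' = T.dbl (j e)` etc.; `j'` maps the transpositions of letters to the transpositions of their images, so it commutes with all
factors of `r` (`sw (j' x) (j' y) (j' d) = j' (sw x y d)` by injectivity). Letters outside of the image of `j'` are `inl t` with `t` outside of
the image of `j`. Conditions: `S.a e ≠ e` gives `T.a (j e) ≠ j e`; `(S.r * S.a).SameCycle p q` gives the same for the images.
(2) If `Emb S T j` and `GlueAll L S` then `GlueAll L T` (`0 ≤ L`): induction: `nil`: all letters of `T` are dead. `cons`: `T.len (j d) = S.len d`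
(the cycle of `j d` is the image of the cycle of `d`), `T.len t = 0 ≤ L` for `t` outside of the image (its cycle is outside of the
image, all weights 0); `Emb (S.glue b) (T.glue (j b)) j`.
-/

set_option autoImplicit false

namespace Pool.Agent.SWP

open Equiv

structure Emb (S T : St) (j : S.D → T.D) : Prop where
  inj : Function.Injective j
  r : ∀ d, T.r (j d) = j (S.r d)
  a : ∀ d, T.a (j d) = j (S.a d)
  w : ∀ d, T.w (j d) = S.w d
  dead : ∀ t, (∀ d, j d ≠ t) → T.a t = t

/-- injective maps respect transpositions -/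
private theorem map_sw {A B : Type} (j : A → B) (hj : Function.Injective j) (x y d : A) :
    sw (j x) (j y) (j d) = j (sw x y d) := by
  by_cases h1 : d = x
  · subst h1; rw [sw_left, sw_left]
  by_cases h2 : d = y
  · subst h2; rw [sw_right, sw_right]
  rw [sw_of_ne h1 h2, sw_of_ne (hj.ne h1) (hj.ne h2)]

private theorem map_pow {A B : Type} (j : A → B) (f : Perm A) (g : Perm B) (h : ∀ d, g (j d) = j (f d)) (n : ℕ) (d : A) :
    (g ^ n) (j d) = j ((f ^ n) d) := by
  induction n generalizing d with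
  | zero => simp
  | succ n ih => rw [pow_succ, pow_succ, Perm.mul_apply, Perm.mul_apply, h, ih]

private theorem map_zpow {A B : Type} (j : A → B) (f : Perm A) (g : Perm B) (h : ∀ d, g (j d) = j (f d)) (n : ℤ) (d : A) :
    (g ^ n) (j d) = j ((f ^ n) d) := by
  obtain ⟨m, rfl | rfl⟩ := n.eq_nat_or_neg
  · rw [zpow_natCast, zpow_natCast]; exact map_pow j f g h m d
  · rw [zpow_neg, zpow_neg, zpow_natCast, zpow_natCast, Perm.inv_eq_iff_eq, map_pow j f g h]
    rw [← Perm.mul_apply, mul_inv_cancel, Perm.one_apply]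

private theorem map_same {A B : Type} (j : A → B) (hj : Function.Injective j) (f : Perm A) (g : Perm B)
    (h : ∀ d, g (j d) = j (f d)) (x y : A) : g.SameCycle (j x) (j y) ↔ f.SameCycle x y := by
  constructor
  · rintro ⟨n, hn⟩
    exact ⟨n, hj (by rw [← map_zpow j f g h, hn])⟩
  · rintro ⟨n, hn⟩
    exact ⟨n, by rw [map_zpow j f g h, hn]⟩

private theorem map_same_out {A B : Type} (j : A → B) (f : Perm A) (g : Perm B)
    (h : ∀ d, g (j d) = j (f d)) (t : B) (x : A) (hs : g.SameCycle t (j x)) : ∃ d, j d = t := by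
  obtain ⟨n, hn⟩ := hs.symm
  exact ⟨(f ^ n) x, by rw [← map_zpow j f g h, hn]⟩

private theorem map_congr {A B : Type} (j : A → B) (f : Perm A) (g : Perm B) (e : Perm Bool) (h : ∀ d, g (j d) = j (f d))
    (d : A ⊕ Bool) :
    Equiv.sumCongr g e (Sum.map j id d) = Sum.map j id (Equiv.sumCongr f e d) := by
  rcases d with d | d
  · simp [h]
  · simp

private theorem map_inj {A B : Type} (j : A → B) (hj : Function.Injective j) :
    Function.Injective (Sum.map j (id : Bool → Bool)) := hj.sumMap Function.injective_id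

private theorem emb_ext {S T : St} {j : S.D → T.D} (h : Emb S T j) (t : T.D ⊕ Bool)
    (ht : ∀ d : S.D ⊕ Bool, Sum.map j (id : Bool → Bool) d ≠ t) : Equiv.sumCongr T.a Equiv.boolNot t = t := by
  rcases t with t | t
  · have h2 : T.a t = t := h.dead t (fun d hd => ht (Sum.inl d) (by simp [hd]))
    simp [h2]
  · exact absurd (show Sum.map j (id : Bool → Bool) (Sum.inr t) = Sum.inr t from rfl) (ht (Sum.inr t))

private theorem emb_dbl {S T : St} {j : S.D → T.D} (h : Emb S T j) (e : S.D) :
    Emb (S.dbl e) (T.dbl (j e)) (Sum.map j (id : Bool → Bool)) where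
  inj := map_inj j h.inj
  r := by
    intro d
    have h1 := map_sw (Sum.map j (id : Bool → Bool)) (map_inj j h.inj)
    change (sw (Sum.inl (j e)) (Sum.inr false) * Equiv.sumCongr T.r (Equiv.refl Bool) * sw (Sum.inr true) (Sum.inr false)
      * sw (Sum.inl (j e)) (Sum.inr false) : Perm (T.D ⊕ Bool)) (Sum.map j id d) = Sum.map j id ((sw (Sum.inl e) (Sum.inr false) *
      Equiv.sumCongr S.r (Equiv.refl Bool) * sw (Sum.inr true) (Sum.inr false) * sw (Sum.inl e) (Sum.inr false) : Perm (S.D ⊕ Bool)) d)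
    simp only [Perm.mul_apply]
    rw [← h1 (Sum.inl e) (Sum.inr false), ← map_congr j S.r T.r (Equiv.refl Bool) h.r,
      ← h1 (Sum.inr true) (Sum.inr false), ← h1 (Sum.inl e) (Sum.inr false)]
    rfl
  a := by
    intro d
    exact map_congr j S.a T.a Equiv.boolNot h.a d
  w := by
    rintro (d | d)
    · exact h.w d
    · exact h.w e
  dead := fun t ht => emb_ext h t ht

private theorem emb_sub {S T : St} {j : S.D → T.D} (h : Emb S T j) (b : S.D) :
    Emb (S.sub b) (T.sub (j b)) (Sum.map j (id : Bool → Bool)) where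
  inj := map_inj j h.inj
  r := by
    intro d
    have h1 := map_sw (Sum.map j (id : Bool → Bool)) (map_inj j h.inj)
    change (sw (Sum.inl (T.a (j b))) (Sum.inr false) * Equiv.sumCongr T.r (Equiv.refl Bool) *
      sw (Sum.inl (j b)) (Sum.inr true) : Perm (T.D ⊕ Bool)) (Sum.map j id d) = Sum.map j id ((sw (Sum.inl (S.a b)) (Sum.inr false) *
      Equiv.sumCongr S.r (Equiv.refl Bool) * sw (Sum.inl b) (Sum.inr true) : Perm (S.D ⊕ Bool)) d)
    simp only [Perm.mul_apply]
    rw [← h1 (Sum.inl (S.a b)) (Sum.inr false), ← map_congr j S.r T.r (Equiv.refl Bool) h.r,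
      ← h1 (Sum.inl b) (Sum.inr true), h.a]
    rfl
  a := by
    intro d
    exact map_congr j S.a T.a Equiv.boolNot h.a d
  w := by
    rintro (d | d)
    · exact h.w d
    · rfl
  dead := fun t ht => emb_ext h t ht

private theorem emb_zedge {S T : St} {j : S.D → T.D} (h : Emb S T j) (p q : S.D) :
    Emb (S.zedge p q) (T.zedge (j p) (j q)) (Sum.map j (id : Bool → Bool)) where
  inj := map_inj j h.inj
  r := by
    intro d
    have h1 := map_sw (Sum.map j (id : Bool → Bool)) (map_inj j h.inj)
    change (sw (Sum.inl (j p)) (Sum.inr true) * sw (Sum.inl (j q)) (Sum.inr false) *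
      Equiv.sumCongr T.r (Equiv.refl Bool) : Perm (T.D ⊕ Bool)) (Sum.map j id d) = Sum.map j id ((sw (Sum.inl p) (Sum.inr true) *
      sw (Sum.inl q) (Sum.inr false) * Equiv.sumCongr S.r (Equiv.refl Bool) : Perm (S.D ⊕ Bool)) d)
    simp only [Perm.mul_apply]
    rw [← h1 (Sum.inl p) (Sum.inr true), ← h1 (Sum.inl q) (Sum.inr false),
      ← map_congr j S.r T.r (Equiv.refl Bool) h.r]
    rfl
  a := by
    intro d
    exact map_congr j S.a T.a Equiv.boolNot h.a d
  w := by
    rintro (d | d)
    · exact h.w d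
    · rfl
  dead := fun t ht => emb_ext h t ht

private theorem emb_ref {S S' T : St} {j : S.D → T.D} (h : Emb S T j) (hr : Ref S S') :
    ∃ (T' : St) (j' : S'.D → T'.D), Ref T T' ∧ Emb S' T' j' := by
  cases hr with
  | dbl e he =>
    exact ⟨T.dbl (j e), _, Ref.dbl T (j e) (by rw [h.a]; exact h.inj.ne he), emb_dbl h e⟩
  | sub b hb =>
    exact ⟨T.sub (j b), _, Ref.sub T (j b) (by rw [h.a]; exact h.inj.ne hb), emb_sub h b⟩
  | zedge p q hp hq hpq hs =>
    refine ⟨T.zedge (j p) (j q), _, Ref.zedge T (j p) (j q) (by rw [h.a]; exact h.inj.ne hp)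
      (by rw [h.a]; exact h.inj.ne hq) (h.inj.ne hpq) ?_, emb_zedge h p q⟩
    refine (map_same j h.inj (S.r * S.a) (T.r * T.a) ?_ p q).2 hs
    intro d
    rw [Perm.mul_apply, Perm.mul_apply, h.a, h.r]

private theorem emb_len {S T : St} {j : S.D → T.D} (h : Emb S T j) (d : S.D) : T.len (j d) = S.len d := by
  unfold St.len cyc
  symm
  apply Fintype.sum_of_injective j h.inj
  · intro t ht
    apply Set.indicator_apply_eq_zero.2
    intro _
    exact T.w0 t (h.dead t (fun d hd => ht ⟨d, hd⟩))
  · intro e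
    by_cases he : S.r.SameCycle d e
    · rw [Set.indicator_of_mem (show e ∈ {e | S.r.SameCycle d e} from he),
        Set.indicator_of_mem (show j e ∈ {e | T.r.SameCycle (j d) e} from (map_same j h.inj S.r T.r h.r d e).2 he), h.w]
    · rw [Set.indicator_of_notMem (show e ∉ {e | S.r.SameCycle d e} from he),
        Set.indicator_of_notMem (show j e ∉ {e | T.r.SameCycle (j d) e} from
          fun h2 => he ((map_same j h.inj S.r T.r h.r d e).1 h2))]

private theorem emb_len_out {S T : St} {j : S.D → T.D} (h : Emb S T j) (t : T.D) (ht : ∀ d, j d ≠ t) : T.len t = 0 := by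
  unfold St.len cyc
  apply Finset.sum_eq_zero
  intro e _
  apply Set.indicator_apply_eq_zero.2
  intro he
  apply T.w0
  apply h.dead
  intro d hd
  subst hd
  obtain ⟨d', hd'⟩ := map_same_out j S.r T.r h.r t d he
  exact ht d' hd'

private theorem emb_glue {S T : St} {j : S.D → T.D} (h : Emb S T j) (b : S.D) :
    Emb (S.glue b) (T.glue (j b)) j where
  inj := h.inj
  r := by
    intro (d : S.D)
    change (T.r * sw (j b) (T.a (j b))) (j d) = j ((S.r * sw b (S.a b)) d)
    rw [Perm.mul_apply, Perm.mul_apply, h.a, map_sw j h.inj, h.r]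
  a := by
    intro (d : S.D)
    change (T.a * sw (j b) (T.a (j b))) (j d) = j ((S.a * sw b (S.a b)) d)
    rw [Perm.mul_apply, Perm.mul_apply, h.a b, map_sw j h.inj, h.a]
  w := by
    intro (d : S.D)
    change Set.indicator {d | d ≠ j b ∧ d ≠ T.a (j b)} T.w (j d) = Set.indicator {d | d ≠ b ∧ d ≠ S.a b} S.w d
    by_cases hd : d ≠ b ∧ d ≠ S.a b
    · rw [Set.indicator_of_mem (show d ∈ {d | d ≠ b ∧ d ≠ S.a b} from hd),
        Set.indicator_of_mem (show j d ∈ {d | d ≠ j b ∧ d ≠ T.a (j b)} from
          ⟨h.inj.ne hd.1, by rw [h.a]; exact h.inj.ne hd.2⟩), h.w]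
    · rw [Set.indicator_of_notMem (show d ∉ {d | d ≠ b ∧ d ≠ S.a b} from hd),
        Set.indicator_of_notMem (show j d ∉ {d | d ≠ j b ∧ d ≠ T.a (j b)} from
          fun h2 => hd ⟨fun h3 => h2.1 (by rw [h3]), fun h3 => h2.2 (by rw [h.a, h3])⟩)]
  dead := by
    intro (t : T.D) (ht : ∀ d : S.D, j d ≠ t)
    change (T.a * sw (j b) (T.a (j b))) t = t
    rw [Perm.mul_apply, sw_of_ne (fun h2 => ht b h2.symm) (fun h2 => ht (S.a b) (by rw [h2, h.a])), h.dead t ht]

private theorem emb_glueAll (L : ℝ) (hL : 0 ≤ L) (S : St) (hs : GlueAll L S) :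
    ∀ (T : St) (j : S.D → T.D), Emb S T j → GlueAll L T := by
  induction hs with
  | nil S hd =>
    intro T j h
    apply GlueAll.nil
    intro t
    by_cases ht : ∃ d, j d = t
    · obtain ⟨d, rfl⟩ := ht
      rw [h.a, hd]
    · exact h.dead t (fun d hd => ht ⟨d, hd⟩)
  | cons S b hb hl _ ih =>
    intro T j h
    refine GlueAll.cons T (j b) (by rw [h.a]; exact h.inj.ne hb) ?_ (ih (T.glue (j b)) j (emb_glue h b))
    intro t
    by_cases ht : ∃ d, j d = t
    · obtain ⟨d, rfl⟩ := ht
      rw [emb_len h]; exact hl d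
    · rw [emb_len_out h t (fun d hd => ht ⟨d, hd⟩)]; exact hL

theorem sweep_emb (L : ℝ) (hL : 0 ≤ L) (S T : St) (j : S.D → T.D) (h : Emb S T j) (hs : Sweep L S) : Sweep L T := by
  obtain ⟨S', hr, hg⟩ := hs
  have key : ∃ (T' : St) (j' : S'.D → T'.D), Relation.ReflTransGen Ref T T' ∧ Emb S' T' j' := by
    clear hg
    induction hr with
    | refl => exact ⟨T, j, Relation.ReflTransGen.refl, h⟩
    | tail _ hr2 ih =>
      obtain ⟨T1, j1, h1, h2⟩ := ih
      obtain ⟨T2, j2, h3, h4⟩ := emb_ref h2 hr2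
      exact ⟨T2, j2, h1.tail h3, h4⟩
  obtain ⟨T', j', h1, h2⟩ := key
  exact ⟨T', h1, emb_glueAll L hL S' hg T' j' h2⟩

end Pool.Agent.SWP
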