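import Pool.Agent.SWP.Cy

/-!
# Moving a dead letter

MODULE Gho. `X.setr r` is the state `X` with the permutation `r` instead of `X.r`. Let `g` be a dead letter of `X` with `X.r g = g`. The
permutation `sw g y * X.r` has `g` inserted in the word of `y` in front of `y` (`y = g`: alone). Claim: sweeps do not depend on `y`.

Relation: `GR S T`: there are `X, g, y, y1` with `X.a g = g`, `X.r g = g`, `S = X.setr (sw g y * X.r)`, `T = X.setr (sw g y1 * X.r)`.
(1) If `GR S T` and `Ref S S'` then there is `T'` with `Ref T T'`, `GR S' T'`. For `S' = S.dbl e` (`e` live, so `e ≠ g`): with `X' = X.dbl e`,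
`(X.setr (sw g y * X.r)).dbl e = X'.setr (sw (inl g) y' * X'.r)`, `y' = s (inl y)`, `s = sw (inl e) (inr false)`, because
`(sw g y * X.r) ⊕ 1 = sw (inl g) (inl y) * (X.r ⊕ 1)` and `s * sw (inl g) (inl y) = sw (inl g) (s (inl y)) * s` (`s` fixes `inl g`). Also
`X'.r (inl g) = inl g`. The same for `T` with `y1`. `sub b`: `y' = s (inl y)` with `s = sw (inl (a b)) (inr false)`; `zedge p q`: with
`s = sw (inl p) (inr true) * sw (inl q) (inr false)`; the vertex condition: `(sw g y * X.r) * X.a` and `(sw g y1 * X.r) * X.a` have the first return map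
`X.r * X.a` to the letters `≠ g` (`X.r * X.a` fixes `g`): for `p, q ≠ g` `(sw g y * n).SameCycle p q ↔ n.SameCycle p q` when `n g = g`.
(2) If `GR S T` and `GlueAll L S` then `GlueAll L T` (`0 ≤ L`): induction on `GlueAll`. `nil` clear. `cons b` (`b` live, so `b, a b ≠ g`):
`(X.setr (sw g y * X.r)).glue b = (X.glue b).setr (sw g y * (X.glue b).r)`, `(X.glue b).r g = g`. Lengths: the words of `S` and `T` agree up to the
letter `g` of weight 0: `(sw g y * X.r).SameCycle d e ↔ X.r.SameCycle d e` for `d, e ≠ g`, so `S.len d = X.len d = T.len d` for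
`d ≠ g`; and `T.len g = T.len e` if the word of `g` contains some `e ≠ g`, else `T.len g = 0`.
(3) Induct on `ReflTransGen Ref S S'` to transport the refinement.
-/

set_option autoImplicit false

namespace Pool.Agent.SWP

open Equiv

/-- the state with another permutation -/
def St.setr (S : St) (r : Perm S.D) : St where
  D := S.D
  fD := S.fD
  r := r
  a := S.a
  w := S.w
  aa := S.aa
  wa := S.wa
  wnn := S.wnn
  w0 := S.w0

private theorem gho_mul_sw {D : Type} (f : Perm D) (x y : D) : f * sw x y = sw (f x) (f y) * f := by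
  ext d
  simp only [Perm.mul_apply]
  by_cases h1 : d = x
  · subst h1
    rw [sw_left, sw_left]
  by_cases h2 : d = y
  · subst h2
    rw [sw_right, sw_right]
  rw [sw_of_ne h1 h2, sw_of_ne (fun h => h1 (f.injective h)) (fun h => h2 (f.injective h))]

private theorem gho_sumCongr {D : Type} (g y : D) (r : Perm D) :
    Equiv.sumCongr (sw g y * r) (Equiv.refl Bool) =
      sw (Sum.inl g) (Sum.inl y) * Equiv.sumCongr r (Equiv.refl Bool) := by
  ext d
  rcases d with d | d
  · simp only [Perm.mul_apply, Equiv.sumCongr_apply, Sum.map_inl]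
    by_cases h1 : r d = g
    · rw [h1, sw_left, sw_left]
    by_cases h2 : r d = y
    · rw [h2, sw_right, sw_right]
    rw [sw_of_ne h1 h2, sw_of_ne (fun h => h1 (Sum.inl_injective h))
      (fun h => h2 (Sum.inl_injective h))]
  · simp only [Perm.mul_apply, Equiv.sumCongr_apply, Sum.map_inr]
    rw [sw_of_ne Sum.inr_ne_inl Sum.inr_ne_inl]

private theorem gho_same {D : Type} [Finite D] {n : Perm D} {g y : D} (hn : n g = g) {p q : D} (hp : p ≠ g)
    (hq : q ≠ g) : (sw g y * n).SameCycle p q ↔ n.SameCycle p q := by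
  by_cases hy : y = g
  · rw [hy, sw_self, one_mul]
  have hng : ∀ d, d ≠ g → n d ≠ g := fun d hd h => hd (n.injective (h.trans hn.symm))
  constructor
  · intro h
    have hZ : ∀ d ∈ {d | n.SameCycle p d ∨ (d = g ∧ n.SameCycle p y)},
        (sw g y * n) d ∈ {d | n.SameCycle p d ∨ (d = g ∧ n.SameCycle p y)} := by
      intro d hd
      simp only [Set.mem_setOf_eq, Perm.mul_apply] at hd ⊢
      rcases hd with hd | ⟨rfl, hd⟩
      · by_cases h1 : n d = y
        · right
          rw [h1, sw_right]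
          exact ⟨rfl, h1 ▸ hd.apply_right⟩
        · by_cases h2 : n d = g
          · exfalso
            have h3 : d = g := n.injective (h2.trans hn.symm)
            rw [h3] at hd
            have h4 : n.SameCycle g p := hd.symm
            obtain ⟨i, hi⟩ := h4
            have h5 : ∀ k : ℤ, (n ^ k) g = g := fun k =>
              Function.IsFixedPt.perm_zpow (show Function.IsFixedPt n g from hn) k
            rw [h5] at hi
            exact hp hi.symm
          · left
            rw [sw_of_ne h2 h1]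
            exact hd.apply_right
      · left
        rw [hn, sw_left]
        exact hd
    have h1 := mem_of_same hZ (Or.inl (Perm.SameCycle.refl n p)) h
    rcases h1 with h1 | ⟨h1, -⟩
    · exact h1
    · exact absurd h1 hq
  · intro h
    have hZ : ∀ d ∈ {d | d ≠ g ∧ (sw g y * n).SameCycle p d},
        n d ∈ {d | d ≠ g ∧ (sw g y * n).SameCycle p d} := by
      rintro d ⟨hd, hd'⟩
      refine ⟨hng d hd, ?_⟩
      by_cases h1 : n d = y
      · have h2 : (sw g y * n) ((sw g y * n) d) = n d := by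
          simp only [Perm.mul_apply]
          rw [h1, sw_right, hn, sw_left]
        rw [← h2]
        exact hd'.apply_right.apply_right
      · have h2 : (sw g y * n) d = n d := by
          simp only [Perm.mul_apply]
          rw [sw_of_ne (hng d hd) h1]
        rw [← h2]
        exact hd'.apply_right
    exact (mem_of_same hZ ⟨hp, Perm.SameCycle.refl _ p⟩ h).2

private theorem gho_cyc {D : Type} [Fintype D] {n : Perm D} {g y : D} (hn : n g = g) {u : D → ℝ}
    (hu : u g = 0) {d : D} (hd : d ≠ g) : cyc (sw g y * n) u d = cyc n u d := by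
  unfold cyc
  refine Finset.sum_congr rfl fun e _ => ?_
  by_cases he : e = g
  · subst he
    rw [Set.indicator_apply_eq_zero.2 (fun _ => hu), Set.indicator_apply_eq_zero.2 (fun _ => hu)]
  · by_cases h : n.SameCycle d e
    · rw [Set.indicator_of_mem (show e ∈ {e | n.SameCycle d e} from h),
        Set.indicator_of_mem (show e ∈ {e | (sw g y * n).SameCycle d e} from (gho_same hn hd he).2 h)]
    · rw [Set.indicator_of_notMem (show e ∉ {e | n.SameCycle d e} from h),
        Set.indicator_of_notMem (show e ∉ {e | (sw g y * n).SameCycle d e} from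
          fun h' => h ((gho_same hn hd he).1 h'))]

private theorem gho_pdbl {D : Type} (g y e : D) (r : Perm D) (hge : g ≠ e) :
    sw (Sum.inl e) (Sum.inr false) * Equiv.sumCongr (sw g y * r) (Equiv.refl Bool) *
      sw (Sum.inr true) (Sum.inr false) * sw (Sum.inl e) (Sum.inr false) =
      sw (Sum.inl g) (sw (Sum.inl e) (Sum.inr false) (Sum.inl y)) *
        (sw (Sum.inl e) (Sum.inr false) * Equiv.sumCongr r (Equiv.refl Bool) *
          sw (Sum.inr true) (Sum.inr false) * sw (Sum.inl e) (Sum.inr false)) := by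
  have h3 : sw (Sum.inl e : D ⊕ Bool) (Sum.inr false) (Sum.inl g) = Sum.inl g :=
    sw_of_ne (fun h => hge (Sum.inl_injective h)) Sum.inl_ne_inr
  have h4 := gho_mul_sw (sw (Sum.inl e : D ⊕ Bool) (Sum.inr false)) (Sum.inl g) (Sum.inl y)
  rw [h3] at h4
  rw [gho_sumCongr, ← mul_assoc, h4]
  simp only [mul_assoc]

private theorem gho_psub {D : Type} (g y b c : D) (r : Perm D) (hgb : g ≠ c) :
    sw (Sum.inl c) (Sum.inr false) * Equiv.sumCongr (sw g y * r) (Equiv.refl Bool) *
      sw (Sum.inl b) (Sum.inr true) =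
      sw (Sum.inl g) (sw (Sum.inl c) (Sum.inr false) (Sum.inl y)) *
        (sw (Sum.inl c) (Sum.inr false) * Equiv.sumCongr r (Equiv.refl Bool) *
          sw (Sum.inl b) (Sum.inr true)) := by
  have h3 : sw (Sum.inl c : D ⊕ Bool) (Sum.inr false) (Sum.inl g) = Sum.inl g :=
    sw_of_ne (fun h => hgb (Sum.inl_injective h)) Sum.inl_ne_inr
  have h4 := gho_mul_sw (sw (Sum.inl c : D ⊕ Bool) (Sum.inr false)) (Sum.inl g) (Sum.inl y)
  rw [h3] at h4
  rw [gho_sumCongr, ← mul_assoc, h4]
  simp only [mul_assoc]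

private theorem gho_pz {D : Type} (g y p q : D) (r : Perm D) (hgp : g ≠ p) (hgq : g ≠ q) :
    sw (Sum.inl p) (Sum.inr true) * sw (Sum.inl q) (Sum.inr false) *
        Equiv.sumCongr (sw g y * r) (Equiv.refl Bool) =
      sw (Sum.inl g) ((sw (Sum.inl p) (Sum.inr true) * sw (Sum.inl q) (Sum.inr false))
        (Sum.inl y)) * (sw (Sum.inl p) (Sum.inr true) * sw (Sum.inl q) (Sum.inr false) *
          Equiv.sumCongr r (Equiv.refl Bool)) := by
  have h3 : (sw (Sum.inl p : D ⊕ Bool) (Sum.inr true) * sw (Sum.inl q) (Sum.inr false))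
      (Sum.inl g) = Sum.inl g := by
    rw [Perm.mul_apply, sw_of_ne (fun h => hgq (Sum.inl_injective h)) Sum.inl_ne_inr,
      sw_of_ne (fun h => hgp (Sum.inl_injective h)) Sum.inl_ne_inr]
  have h4 := gho_mul_sw (sw (Sum.inl p : D ⊕ Bool) (Sum.inr true) *
    sw (Sum.inl q) (Sum.inr false)) (Sum.inl g) (Sum.inl y)
  rw [h3] at h4
  rw [gho_sumCongr, ← mul_assoc, h4]
  simp only [mul_assoc]

private theorem gho_dbl (X : St) {g y : X.D} (e : X.D) (hge : g ≠ e) :
    (X.setr (sw g y * X.r)).dbl e = (X.dbl e).setr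
      (@sw (X.dbl e).D (Sum.inl g) (sw (Sum.inl e : X.D ⊕ Bool) (Sum.inr false) (Sum.inl y)) *
        (X.dbl e).r) := by
  have h1 : (X.setr (sw g y * X.r)).dbl e =
      (X.dbl e).setr ((X.setr (sw g y * X.r)).dbl e).r := rfl
  have h2 : ((X.setr (sw g y * X.r)).dbl e).r =
      @sw (X.dbl e).D (Sum.inl g) (sw (Sum.inl e : X.D ⊕ Bool) (Sum.inr false) (Sum.inl y)) *
        (X.dbl e).r := gho_pdbl g y e X.r hge
  exact h1.trans (congrArg (X.dbl e).setr h2)

private theorem gho_sub (X : St) {g y : X.D} (b : X.D) (hgb : g ≠ X.a b) :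
    (X.setr (sw g y * X.r)).sub b = (X.sub b).setr
      (@sw (X.sub b).D (Sum.inl g) (sw (Sum.inl (X.a b) : X.D ⊕ Bool) (Sum.inr false) (Sum.inl y)) *
        (X.sub b).r) := by
  have h1 : (X.setr (sw g y * X.r)).sub b =
      (X.sub b).setr ((X.setr (sw g y * X.r)).sub b).r := rfl
  have h2 : ((X.setr (sw g y * X.r)).sub b).r =
      @sw (X.sub b).D (Sum.inl g) (sw (Sum.inl (X.a b) : X.D ⊕ Bool) (Sum.inr false) (Sum.inl y)) *
        (X.sub b).r := gho_psub g y b (X.a b) X.r hgb
  exact h1.trans (congrArg (X.sub b).setr h2)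

private theorem gho_zedge (X : St) {g y : X.D} (p q : X.D) (hgp : g ≠ p) (hgq : g ≠ q) :
    (X.setr (sw g y * X.r)).zedge p q = (X.zedge p q).setr
      (@sw (X.zedge p q).D (Sum.inl g) ((sw (Sum.inl p : X.D ⊕ Bool) (Sum.inr true) *
        sw (Sum.inl q) (Sum.inr false)) (Sum.inl y)) * (X.zedge p q).r) := by
  have h1 : (X.setr (sw g y * X.r)).zedge p q =
      (X.zedge p q).setr ((X.setr (sw g y * X.r)).zedge p q).r := rfl
  have h2 : ((X.setr (sw g y * X.r)).zedge p q).r =
      @sw (X.zedge p q).D (Sum.inl g) ((sw (Sum.inl p : X.D ⊕ Bool) (Sum.inr true) *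
        sw (Sum.inl q) (Sum.inr false)) (Sum.inl y)) * (X.zedge p q).r := gho_pz g y p q X.r hgp hgq
  exact h1.trans (congrArg (X.zedge p q).setr h2)

private theorem gho_glue (X : St) {g y : X.D} (b : X.D) :
    (X.setr (sw g y * X.r)).glue b = (X.glue b).setr (@sw (X.glue b).D g y * (X.glue b).r) := by
  have h1 : (X.setr (sw g y * X.r)).glue b =
      (X.glue b).setr ((X.setr (sw g y * X.r)).glue b).r := rfl
  have h2 : ((X.setr (sw g y * X.r)).glue b).r = @sw (X.glue b).D g y * (X.glue b).r := by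
    change sw g y * X.r * sw b (X.a b) = sw g y * (X.r * sw b (X.a b))
    rw [mul_assoc]
  exact h1.trans (congrArg (X.glue b).setr h2)

private theorem gho_glue_a (X : St) {g b : X.D} (hgb : g ≠ b) (hgab : g ≠ X.a b) (hg : X.a g = g) :
    (X.glue b).a g = g := by
  change (X.a * sw b (X.a b)) g = g
  rw [Perm.mul_apply, sw_of_ne hgb hgab, hg]

private theorem gho_glue_r (X : St) {g b : X.D} (hgb : g ≠ b) (hgab : g ≠ X.a b) (hr : X.r g = g) :
    (X.glue b).r g = g := by
  change (X.r * sw b (X.a b)) g = g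
  rw [Perm.mul_apply, sw_of_ne hgb hgab, hr]

private theorem gho_dbl_r (X : St) {g e : X.D} (hge : g ≠ e) (hr : X.r g = g) :
    (X.dbl e).r (Sum.inl g) = Sum.inl g := by
  change (sw (Sum.inl e : X.D ⊕ Bool) (Sum.inr false) * Equiv.sumCongr X.r (Equiv.refl Bool) *
    sw (Sum.inr true) (Sum.inr false) * sw (Sum.inl e) (Sum.inr false) : Perm (X.D ⊕ Bool))
    (Sum.inl g) = Sum.inl g
  have h3 : sw (Sum.inl e : X.D ⊕ Bool) (Sum.inr false) (Sum.inl g) = Sum.inl g :=
    sw_of_ne (fun h => hge (Sum.inl_injective h)) Sum.inl_ne_inr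
  simp only [Perm.mul_apply]
  rw [h3, sw_of_ne Sum.inl_ne_inr Sum.inl_ne_inr, Equiv.sumCongr_apply, Sum.map_inl, hr, h3]

private theorem gho_sub_r (X : St) {g b : X.D} (hgb : g ≠ b) (hgab : g ≠ X.a b) (hr : X.r g = g) :
    (X.sub b).r (Sum.inl g) = Sum.inl g := by
  change (sw (Sum.inl (X.a b)) (Sum.inr false) * Equiv.sumCongr X.r (Equiv.refl Bool) *
    sw (Sum.inl b) (Sum.inr true)) (Sum.inl g) = Sum.inl g
  simp only [Perm.mul_apply]
  rw [sw_of_ne (fun h => hgb (Sum.inl_injective h)) Sum.inl_ne_inr, Equiv.sumCongr_apply,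
    Sum.map_inl, hr, sw_of_ne (fun h => hgab (Sum.inl_injective h)) Sum.inl_ne_inr]

private theorem gho_zedge_r (X : St) {g p q : X.D} (hgp : g ≠ p) (hgq : g ≠ q) (hr : X.r g = g) :
    (X.zedge p q).r (Sum.inl g) = Sum.inl g := by
  change (sw (Sum.inl p) (Sum.inr true) * sw (Sum.inl q) (Sum.inr false) *
    Equiv.sumCongr X.r (Equiv.refl Bool)) (Sum.inl g) = Sum.inl g
  simp only [Perm.mul_apply]
  rw [Equiv.sumCongr_apply, Sum.map_inl, hr,
    sw_of_ne (fun h => hgq (Sum.inl_injective h)) Sum.inl_ne_inr,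
    sw_of_ne (fun h => hgp (Sum.inl_injective h)) Sum.inl_ne_inr]

private theorem gho_zs (X : St) {g y y1 p q : X.D} (hn : (X.r * X.a) g = g) (hp : p ≠ g) (hq : q ≠ g)
    (hs : (sw g y * X.r * X.a).SameCycle p q) : (sw g y1 * X.r * X.a).SameCycle p q := by
  rw [mul_assoc] at hs ⊢
  exact (gho_same hn hp hq).2 ((gho_same hn hp hq).1 hs)

private theorem gho_step (X : St) (g y y1 : X.D) (hg : X.a g = g) (hr : X.r g = g) (S' : St)
    (h : Ref (X.setr (sw g y * X.r)) S') :
    ∃ (X' : St) (g' y' y1' : X'.D), X'.a g' = g' ∧ X'.r g' = g' ∧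
      S' = X'.setr (sw g' y' * X'.r) ∧
      Ref (X.setr (sw g y1 * X.r)) (X'.setr (sw g' y1' * X'.r)) := by
  cases h with
  | dbl e he =>
    have he' : X.a e ≠ e := he
    have hge : g ≠ e := by
      rintro rfl
      exact he' hg
    refine ⟨X.dbl e, Sum.inl g, sw (Sum.inl e : X.D ⊕ Bool) (Sum.inr false) (Sum.inl y),
      sw (Sum.inl e : X.D ⊕ Bool) (Sum.inr false) (Sum.inl y1), ?_, ?_, gho_dbl X e hge, ?_⟩
    · change Sum.inl (X.a g) = Sum.inl g
      rw [hg]
    · exact gho_dbl_r X hge hr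
    · rw [← gho_dbl X (y := y1) e hge]
      exact Ref.dbl (X.setr (sw g y1 * X.r)) e he'
  | sub b hb =>
    have hb' : X.a b ≠ b := hb
    have hgb : g ≠ b := by
      rintro rfl
      exact hb' hg
    have hgab : g ≠ X.a b := by
      intro h
      apply hgb
      rw [← X.aa b, ← h, hg]
    refine ⟨X.sub b, Sum.inl g, sw (Sum.inl (X.a b) : X.D ⊕ Bool) (Sum.inr false) (Sum.inl y),
      sw (Sum.inl (X.a b) : X.D ⊕ Bool) (Sum.inr false) (Sum.inl y1), ?_, ?_,
      gho_sub X b hgab, ?_⟩
    · change Sum.inl (X.a g) = Sum.inl g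
      rw [hg]
    · exact gho_sub_r X hgb hgab hr
    · rw [← gho_sub X (y := y1) b hgab]
      exact Ref.sub (X.setr (sw g y1 * X.r)) b hb'
  | zedge p q hp hq hpq hs =>
    have hp' : X.a p ≠ p := hp
    have hq' : X.a q ≠ q := hq
    have hgp : g ≠ p := by
      rintro rfl
      exact hp' hg
    have hgq : g ≠ q := by
      rintro rfl
      exact hq' hg
    refine ⟨X.zedge p q, Sum.inl g, (sw (Sum.inl p : X.D ⊕ Bool) (Sum.inr true) *
        sw (Sum.inl q : X.D ⊕ Bool) (Sum.inr false) : Perm (X.D ⊕ Bool)) (Sum.inl y),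
        (sw (Sum.inl p : X.D ⊕ Bool) (Sum.inr true) *
        sw (Sum.inl q : X.D ⊕ Bool) (Sum.inr false) : Perm (X.D ⊕ Bool)) (Sum.inl y1),
        ?_, ?_, gho_zedge X p q hgp hgq, ?_⟩
    · change Sum.inl (X.a g) = Sum.inl g
      rw [hg]
    · exact gho_zedge_r X hgp hgq hr
    · rw [← gho_zedge X (y := y1) p q hgp hgq]
      refine Ref.zedge (X.setr (sw g y1 * X.r)) p q hp' hq' hpq ?_
      have hn : (X.r * X.a) g = g := by
        rw [Perm.mul_apply, hg, hr]
      exact gho_zs X hn hgp.symm hgq.symm hs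

private theorem gho_steps (S S' : St) (h : Relation.ReflTransGen Ref S S') :
    ∀ (X : St) (g y y1 : X.D), X.a g = g → X.r g = g → S = X.setr (sw g y * X.r) →
      ∃ (X' : St) (g' y' y1' : X'.D), X'.a g' = g' ∧ X'.r g' = g' ∧
        S' = X'.setr (sw g' y' * X'.r) ∧
        Relation.ReflTransGen Ref (X.setr (sw g y1 * X.r)) (X'.setr (sw g' y1' * X'.r)) := by
  induction h with
  | refl =>
    intro X g y y1 hg hr hS
    exact ⟨X, g, y, y1, hg, hr, hS, Relation.ReflTransGen.refl⟩
  | tail _ hstep ih =>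
    intro X g y y1 hg hr hS
    obtain ⟨X1, g1, z, z1, hg1, hr1, hS1, hT1⟩ := ih X g y y1 hg hr hS
    rw [hS1] at hstep
    obtain ⟨X2, g2, z2, z3, hg2, hr2, hS2, hT2⟩ := gho_step X1 g1 z z1 hg1 hr1 _ hstep
    exact ⟨X2, g2, z2, z3, hg2, hr2, hS2, hT1.tail hT2⟩

private theorem gho_len (L : ℝ) (hL : 0 ≤ L) (X : St) (g y y1 : X.D) (hg : X.a g = g) (hr : X.r g = g)
    (h : ∀ d, (X.setr (sw g y * X.r)).len d ≤ L) (d : X.D) : (X.setr (sw g y1 * X.r)).len d ≤ L := by
  have hw : X.w g = 0 := X.w0 g hg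
  have key : ∀ d, d ≠ g → cyc (sw g y1 * X.r) X.w d ≤ L := by
    intro d hd
    have h1 : cyc (sw g y * X.r) X.w d ≤ L := h d
    rw [gho_cyc hr hw hd] at h1 ⊢
    exact h1
  change cyc (sw g y1 * X.r) X.w d ≤ L
  by_cases hd : d = g
  · subst hd
    by_cases hy : y1 = d
    · rw [hy, sw_self, one_mul]
      have h1 : cyc X.r X.w d = 0 := by
        unfold cyc
        refine Finset.sum_eq_zero fun e _ => ?_
        rw [Set.indicator_apply_eq_zero]
        intro he
        obtain ⟨i, hi⟩ := (show X.r.SameCycle d e from he)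
        have h5 : (X.r ^ i) d = d :=
          Function.IsFixedPt.perm_zpow (show Function.IsFixedPt X.r d from hr) i
        rw [← hi, h5, hw]
      rw [h1]
      exact hL
    · have h2 : (sw d y1 * X.r).SameCycle d y1 := by
        have h3 : (sw d y1 * X.r) d = y1 := by
          rw [Perm.mul_apply, hr, sw_left]
        have h4 := Perm.SameCycle.refl (sw d y1 * X.r) d
        have h5 := h4.apply_right
        rwa [h3] at h5
      rw [cyc_same h2]
      exact key y1 hy
  · exact key d hd

private theorem gho_glueAll (L : ℝ) (hL : 0 ≤ L) (S : St) (h : GlueAll L S) :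
    ∀ (X : St) (g y y1 : X.D), X.a g = g → X.r g = g → S = X.setr (sw g y * X.r) →
      GlueAll L (X.setr (sw g y1 * X.r)) := by
  induction h with
  | nil S hd =>
    intro X g y y1 hg hr hS
    subst hS
    exact GlueAll.nil _ hd
  | cons S b hb hlen _ ih =>
    intro X g y y1 hg hr hS
    subst hS
    have hb' : X.a b ≠ b := hb
    have hgb : g ≠ b := by
      rintro rfl
      exact hb' hg
    have hgab : g ≠ X.a b := by
      intro h
      apply hgb
      rw [← X.aa b, ← h, hg]
    refine GlueAll.cons _ b hb' (gho_len L hL X g y y1 hg hr hlen) ?_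
    rw [gho_glue X (y := y1) b]
    exact ih (X.glue b) g y y1 (gho_glue_a X hgb hgab hg) (gho_glue_r X hgb hgab hr)
      (gho_glue X b)

theorem sweep_ghost (L : ℝ) (hL : 0 ≤ L) (X : St) (g : X.D) (hg : X.a g = g) (hr : X.r g = g) (y y1 : X.D)
    (h : Sweep L (X.setr (sw g y * X.r))) : Sweep L (X.setr (sw g y1 * X.r)) := by
  obtain ⟨T, hT, hG⟩ := h
  obtain ⟨X', g', y', y1', hg', hr', hS', hT'⟩ := gho_steps _ T hT X g y y1 hg hr rfl
  exact ⟨_, hT', gho_glueAll L hL T hG X' g' y' y1' hg' hr' hS'⟩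

end Pool.Agent.SWP
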