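import Pool.Agent.SWP.Comm
import Pool.Agent.SWP.Emb
import Pool.Agent.SWP.Gho

/-!
# From internal sweeps to sweeps

MODULE Trans.

`sweep_vtx`: Let `X` be the state with letters `S.D ⊕ Bool`, `r = (sw p q * S.r) ⊕ 1`, `a = S.a ⊕ 1`, `w = Sum.elim S.w 0`. `Emb (S.vtx p q) X inl`, so
`Sweep L X` (`sweep_emb`). Write `z = inr true`, `z' = inr false`; both are dead and fixed by `X.r`. By `sweep_ghost` with `g = z'`
(from `y = z'` to `y1 = inl p`) and then for the state `X1 = X.setr (sw z' (inl p) * X.r)`, which fixes `z`, with `g = z` (from `z` to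
`inl q`) we get `Sweep L (X.setr (sw z (inl q) * (sw z' (inl p) * X.r)))`. This state equals `(S.zedge p q).glue z`:
`r`: `sw (inl p) z * sw (inl q) z' * (S.r ⊕ 1) * sw z z'` versus `sw z (inl q) * sw z' (inl p) * ((sw p q * S.r) ⊕ 1)`; check on letters
(`t` with `S.r t = p` goes to `z` and `z` goes to `inl q`; `t'` with `S.r t' = q` goes to `z'` and `z'` goes to `inl p`; other letters as by
`S.r`) for both. `a`: `(S.a ⊕ boolNot) * sw z z' = S.a ⊕ 1`. `w`: both are `Sum.elim S.w 0`. So `Sweep L ((S.zedge p q).glue z)`, and `sweep_glue`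
(`z` is live in `S.zedge p q`; `St.zedge_len`) gives `Sweep L (S.zedge p q)`, and so `Sweep L S` (first step `Ref.zedge`).

`sweep_of_SW`: induction on `SW`. `done`: `T = S`, `GlueAll.nil`. `glue`: `sweep_glue`. `dbl`, `sub`: one more refinement step. `vtx`:
`sweep_vtx`. `ghost`: let `X = S.ghost g`: `X.r g = g` (`sw g (r g) (r g) = g`); `X = X.setr (sw g g * X.r)` (`sw_self`) and
`S = X.setr (sw g (S.r g) * X.r)` (`sw_sq`), use `sweep_ghost`. The bound `2 w ≤ L` is inherited (new letters have weight `w e` or 0).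
-/

set_option autoImplicit false

namespace Pool.Agent.SWP

open Equiv

/-- the state with joined words and two additional dead letters -/
private noncomputable def addB (S : St) (p q : S.D) : St where
  D := S.D ⊕ Bool
  fD := inferInstance
  r := Equiv.sumCongr (sw p q * S.r) (Equiv.refl Bool)
  a := Equiv.sumCongr S.a (Equiv.refl Bool)
  w := Sum.elim S.w (fun _ => 0)
  aa := by rintro (d | d) <;> simp [S.aa]
  wa := by rintro (d | d) <;> simp [S.wa]
  wnn := by rintro (d | d) <;> simp [S.wnn]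
  w0 := by
    rintro (d | d) h
    · simp at h ⊢; exact S.w0 d h
    · simp

private theorem addB_emb (S : St) (p q : S.D) : Emb (S.vtx p q) (addB S p q) (Sum.inl : S.D → S.D ⊕ Bool) where
  inj := Sum.inl_injective
  r := fun d => rfl
  a := fun d => rfl
  w := fun d => rfl
  dead := by
    rintro (t | t) ht
    · exact absurd rfl (ht t)
    · rfl

private theorem addB_eq (S : St) (p q : S.D) (hpq : p ≠ q) :
    (addB S p q).setr (sw (Sum.inr true : S.D ⊕ Bool) (Sum.inl q) *
      (sw (Sum.inr false : S.D ⊕ Bool) (Sum.inl p) * Equiv.sumCongr (sw p q * S.r) (Equiv.refl Bool))) =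
    (S.zedge p q).glue (Sum.inr true : S.D ⊕ Bool) := by
  have h1 : ∀ t u : S.D, t ≠ u → (Sum.inl t : S.D ⊕ Bool) ≠ Sum.inl u := fun t u h => Sum.inl_injective.ne h
  have hr : (sw (Sum.inr true : S.D ⊕ Bool) (Sum.inl q) *
      (sw (Sum.inr false : S.D ⊕ Bool) (Sum.inl p) * Equiv.sumCongr (sw p q * S.r) (Equiv.refl Bool))) =
      sw (Sum.inl p) (Sum.inr true) * sw (Sum.inl q) (Sum.inr false) * Equiv.sumCongr S.r (Equiv.refl Bool) *
        sw (Sum.inr true : S.D ⊕ Bool) (Sum.inr false) := by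
    ext x
    rcases x with t | c
    · have e1 : (Equiv.sumCongr (sw p q * S.r) (Equiv.refl Bool)) (Sum.inl t : S.D ⊕ Bool) =
        Sum.inl (sw p q (S.r t)) := rfl
      have e2 : (Equiv.sumCongr S.r (Equiv.refl Bool)) (Sum.inl t : S.D ⊕ Bool) = Sum.inl (S.r t) := rfl
      rw [Perm.mul_apply, Perm.mul_apply, Perm.mul_apply, Perm.mul_apply, Perm.mul_apply,
        sw_of_ne (x := (Sum.inr true : S.D ⊕ Bool)) (y := Sum.inr false) (d := Sum.inl t) Sum.inl_ne_inr Sum.inl_ne_inr,
        e1, e2]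
      by_cases hp : S.r t = p
      · rw [hp, sw_left,
          sw_of_ne (x := (Sum.inr false : S.D ⊕ Bool)) (y := Sum.inl p) (d := Sum.inl q) Sum.inl_ne_inr (h1 q p hpq.symm),
          sw_right,
          sw_of_ne (x := (Sum.inl q : S.D ⊕ Bool)) (y := Sum.inr false) (d := Sum.inl p) (h1 p q hpq) Sum.inl_ne_inr,
          sw_left]
      by_cases hq : S.r t = q
      · rw [hq, sw_right, sw_right, sw_left,
          sw_of_ne (x := (Sum.inr true : S.D ⊕ Bool)) (y := Sum.inl q) (d := Sum.inr false)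
            (Sum.inr_injective.ne (by decide)) Sum.inr_ne_inl,
          sw_of_ne (x := (Sum.inl p : S.D ⊕ Bool)) (y := Sum.inr true) (d := Sum.inr false)
            Sum.inr_ne_inl (Sum.inr_injective.ne (by decide))]
      · rw [sw_of_ne hp hq,
          sw_of_ne (x := (Sum.inr false : S.D ⊕ Bool)) (y := Sum.inl p) (d := Sum.inl (S.r t)) Sum.inl_ne_inr (h1 _ _ hp),
          sw_of_ne (x := (Sum.inr true : S.D ⊕ Bool)) (y := Sum.inl q) (d := Sum.inl (S.r t)) Sum.inl_ne_inr (h1 _ _ hq),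
          sw_of_ne (x := (Sum.inl q : S.D ⊕ Bool)) (y := Sum.inr false) (d := Sum.inl (S.r t)) (h1 _ _ hq) Sum.inl_ne_inr,
          sw_of_ne (x := (Sum.inl p : S.D ⊕ Bool)) (y := Sum.inr true) (d := Sum.inl (S.r t)) (h1 _ _ hp) Sum.inl_ne_inr]
    · have e1 : ∀ c : Bool, (Equiv.sumCongr (sw p q * S.r) (Equiv.refl Bool)) (Sum.inr c : S.D ⊕ Bool) =
        Sum.inr c := fun c => rfl
      have e2 : ∀ c : Bool, (Equiv.sumCongr S.r (Equiv.refl Bool)) (Sum.inr c : S.D ⊕ Bool) = Sum.inr c :=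
        fun c => rfl
      rw [Perm.mul_apply, Perm.mul_apply, Perm.mul_apply, Perm.mul_apply, Perm.mul_apply, e1]
      cases c
      · rw [sw_left, sw_right, e2,
          sw_of_ne (x := (Sum.inl q : S.D ⊕ Bool)) (y := Sum.inr false) (d := Sum.inr true)
            Sum.inr_ne_inl (Sum.inr_injective.ne (by decide)),
          sw_right,
          sw_of_ne (x := (Sum.inr true : S.D ⊕ Bool)) (y := Sum.inl q) (d := Sum.inl p)
            Sum.inl_ne_inr (h1 p q hpq)]
      · rw [sw_of_ne (x := (Sum.inr false : S.D ⊕ Bool)) (y := Sum.inl p) (d := Sum.inr true)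
            (Sum.inr_injective.ne (by decide)) Sum.inr_ne_inl,
          sw_left, sw_left, e2, sw_right,
          sw_of_ne (x := (Sum.inl p : S.D ⊕ Bool)) (y := Sum.inr true) (d := Sum.inl q)
            (h1 q p hpq.symm) Sum.inl_ne_inr]
  have ha : (Equiv.sumCongr S.a (Equiv.refl Bool) : Perm (S.D ⊕ Bool)) =
      Equiv.sumCongr S.a Equiv.boolNot * sw (Sum.inr true : S.D ⊕ Bool) (Sum.inr false) := by
    ext x
    rcases x with t | c
    · rw [Perm.mul_apply, sw_of_ne (x := (Sum.inr true : S.D ⊕ Bool)) (y := Sum.inr false) (d := Sum.inl t)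
        Sum.inl_ne_inr Sum.inl_ne_inr]
      rfl
    · cases c
      · rw [Perm.mul_apply, sw_right]; rfl
      · rw [Perm.mul_apply, sw_left]; rfl
  have hw : (Sum.elim S.w (fun _ => 0) : S.D ⊕ Bool → ℝ) =
      Set.indicator {d | d ≠ Sum.inr true ∧ d ≠ Sum.inr false} (Sum.elim S.w (fun _ => 0)) := by
    funext x
    rcases x with t | c
    · rw [Set.indicator_of_mem (show (Sum.inl t : S.D ⊕ Bool) ∈ {d | d ≠ Sum.inr true ∧ d ≠ Sum.inr false} from
        ⟨Sum.inl_ne_inr, Sum.inl_ne_inr⟩)]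
    · by_cases h : (Sum.inr c : S.D ⊕ Bool) ∈ ({d | d ≠ Sum.inr true ∧ d ≠ Sum.inr false} : Set (S.D ⊕ Bool))
      · rw [Set.indicator_of_mem h]
      · rw [Set.indicator_of_notMem h]; rfl
  exact St.ext_same (S.zedge p q) _ _ _ _ _ _ hr ha hw _ _ _ _ _ _ _ _

theorem sweep_vtx (L : ℝ) (hL : 0 ≤ L) (S : St) (p q : S.D) (hp : S.a p ≠ p) (hq : S.a q ≠ q) (hpq : p ≠ q)
    (hv : (S.r * S.a).SameCycle p q) (hlen : ∀ d, S.len d ≤ L) (hw : ∀ d, 2 * S.w d ≤ L)
    (h : Sweep L (S.vtx p q)) : Sweep L S := by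
  have h1 : Sweep L (addB S p q) := sweep_emb L hL (S.vtx p q) (addB S p q) _ (addB_emb S p q) h
  have h2 : Sweep L ((addB S p q).setr (sw (Sum.inr false : S.D ⊕ Bool) (Sum.inl p) *
      Equiv.sumCongr (sw p q * S.r) (Equiv.refl Bool))) := by
    refine sweep_ghost L hL (addB S p q) (Sum.inr false : S.D ⊕ Bool) rfl rfl (Sum.inr false : S.D ⊕ Bool)
      (Sum.inl p : S.D ⊕ Bool) ?_
    rw [sw_self, one_mul]
    exact h1
  have h3 : Sweep L ((addB S p q).setr (sw (Sum.inr true : S.D ⊕ Bool) (Sum.inl q) *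
      (sw (Sum.inr false : S.D ⊕ Bool) (Sum.inl p) * Equiv.sumCongr (sw p q * S.r) (Equiv.refl Bool)))) := by
    refine sweep_ghost L hL ((addB S p q).setr (sw (Sum.inr false : S.D ⊕ Bool) (Sum.inl p) *
      Equiv.sumCongr (sw p q * S.r) (Equiv.refl Bool))) (Sum.inr true : S.D ⊕ Bool) rfl ?_
      (Sum.inr true : S.D ⊕ Bool) (Sum.inl q : S.D ⊕ Bool) ?_
    · exact sw_of_ne (x := (Sum.inr false : S.D ⊕ Bool)) (y := Sum.inl p) (d := Sum.inr true)
        (Sum.inr_injective.ne (by decide)) Sum.inr_ne_inl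
    · rw [sw_self, one_mul]
      exact h2
  rw [addB_eq S p q hpq] at h3
  have h4 : Sweep L (S.zedge p q) := by
    refine sweep_glue L (S.zedge p q) (Sum.inr true : S.D ⊕ Bool) ?_ (S.zedge_len p q hpq L hlen) ?_ h3
    · exact (Sum.inr_injective.ne (by decide) : (Sum.inr (!true) : S.D ⊕ Bool) ≠ Sum.inr true)
    · rintro (d | d)
      · exact hw d
      · show 2 * (0 : ℝ) ≤ L
        linarith
  obtain ⟨T, hT, hg⟩ := h4
  exact ⟨T, Relation.ReflTransGen.head (Ref.zedge S p q hp hq hpq hv) hT, hg⟩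

theorem sweep_of_SW (L : ℝ) (hL : 0 ≤ L) (S : St) (h : SW L S) (hw : ∀ d, 2 * S.w d ≤ L) : Sweep L S := by
  induction h with
  | done S hS => exact ⟨S, Relation.ReflTransGen.refl, GlueAll.nil S hS⟩
  | glue S b hb hl _ ih =>
    have key : ∀ d : S.D, 2 * Set.indicator {d | d ≠ b ∧ d ≠ S.a b} S.w d ≤ L := by
      intro d
      by_cases hd : d ∈ ({d | d ≠ b ∧ d ≠ S.a b} : Set S.D)
      · rw [Set.indicator_of_mem hd]; exact hw d
      · rw [Set.indicator_of_notMem hd]; linarith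
    exact sweep_glue L S b hb hl hw (ih key)
  | dbl S e he _ ih =>
    obtain ⟨T, hT, hg⟩ := ih (by
      rintro (d | d)
      · exact hw d
      · exact hw e)
    exact ⟨T, Relation.ReflTransGen.head (Ref.dbl S e he) hT, hg⟩
  | sub S b hb _ ih =>
    obtain ⟨T, hT, hg⟩ := ih (by
      rintro (d | d)
      · exact hw d
      · show 2 * (0 : ℝ) ≤ L
        linarith)
    exact ⟨T, Relation.ReflTransGen.head (Ref.sub S b hb) hT, hg⟩
  | vtx S p q hp hq hpq hv hl _ ih =>
    exact sweep_vtx L hL S p q hp hq hpq hv hl hw (ih hw)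
  | ghost S g hg _ ih =>
    have h1 : Sweep L (S.ghost g) := ih hw
    have h2 : Sweep L ((S.ghost g).setr (sw g (S.r g) * (sw g (S.r g) * S.r))) := by
      refine sweep_ghost L hL (S.ghost g) g hg (sw_right g (S.r g)) g (S.r g) ?_
      rw [sw_self, one_mul]
      exact h1
    have h3 : sw g (S.r g) * (sw g (S.r g) * S.r) = S.r := by
      ext x
      rw [Perm.mul_apply, Perm.mul_apply, sw_sq]
    rw [h3] at h2
    exact h2

end Pool.Agent.SWP
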