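import Pool.Agent.SWP.Macro
import Pool.Agent.SWP.Trans

/-!
# The theorem on sublinear sweeps

MODULE Fin.

`sublinear_polygons`: let `δ0` be the constant of `mainSW ε` and `δ = min δ0 (ε / 2)`. A state without dead letters is clean.
`mainSW` gives `SW (ε * S.total) S` (`len ≤ δ * total ≤ δ0 * total`, `0 ≤ total`), and `2 w d ≤ 2 len d ≤ 2 δ total ≤ ε total`, so `sweep_of_SW`
applies.

`sublinear_triangles`: apply the first theorem with `ε / 3`; `(tri n α h h').total = 3 n`, every word has length `3` (only `≤ 3` is needed: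
`r ^ 3 = 1`, so the cycle of `d` is contained in `{d, r d, r (r d)}`), and `3 ≤ δ * (3 n)` as soon as `n ≥ 1 / δ`. `ε / 3 * (3 n) = ε n`.
-/

set_option autoImplicit false

namespace Pool.Agent.SWP

open Equiv

private theorem fin_total_nonneg (S : St) : 0 ≤ S.total :=
  Finset.sum_nonneg fun d _ => S.wnn d

private theorem fin_w_le_len (S : St) (d : S.D) : S.w d ≤ S.len d := by
  unfold St.len cyc
  have h : S.w d = Set.indicator {e | S.r.SameCycle d e} S.w d := by
    rw [Set.indicator_of_mem]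
    exact Equiv.Perm.SameCycle.refl S.r d
  rw [h]
  exact Finset.single_le_sum (f := fun e => Set.indicator {e | S.r.SameCycle d e} S.w e)
    (fun e _ => Set.indicator_nonneg (fun e _ => S.wnn e) e) (Finset.mem_univ d)

theorem sublinear_polygons (ε : ℝ) (h0 : 0 < ε) : ∃ δ : ℝ, 0 < δ ∧ ∀ S : St, (∀ d, S.a d ≠ d) →
    (∀ d, S.len d ≤ δ * S.total) → Sweep (ε * S.total) S := by
  obtain ⟨δ0, hδ0, H⟩ := mainSW ε h0
  refine ⟨min δ0 (ε / 2), lt_min hδ0 (by linarith), fun S hS hlen => ?_⟩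
  have ht := fin_total_nonneg S
  have h1 : SW (ε * S.total) S := by
    refine H S (fun d hd => absurd hd (hS d)) (fun d => (hlen d).trans ?_)
    exact mul_le_mul_of_nonneg_right (min_le_left _ _) ht
  refine sweep_of_SW _ (mul_nonneg h0.le ht) S h1 (fun d => ?_)
  have h2 := fin_w_le_len S d
  have h3 := hlen d
  have h4 : min δ0 (ε / 2) * S.total ≤ ε / 2 * S.total :=
    mul_le_mul_of_nonneg_right (min_le_right _ _) ht
  linarith

private theorem fin_fst {n : ℕ} (s : Perm (Fin n × ZMod 3)) (hs : ∀ d, (s d).1 = d.1)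
    {d e : Fin n × ZMod 3} (h : s.SameCycle d e) : e.1 = d.1 := by
  obtain ⟨i, -, -, hi⟩ := h.exists_pow_eq''
  have key : ∀ j : ℕ, ((s ^ j) d).1 = d.1 := by
    intro j
    induction j with
    | zero => simp
    | succ j ih => rw [pow_succ', Perm.mul_apply, hs, ih]
  rw [← hi]
  exact key i

private theorem fin_cyc {n : ℕ} (s : Perm (Fin n × ZMod 3)) (hs : ∀ d, (s d).1 = d.1)
    (d : Fin n × ZMod 3) : cyc s (fun _ => (1 : ℝ)) d ≤ 3 := by
  unfold cyc
  have h1 : ∀ e : Fin n × ZMod 3, Set.indicator {e | s.SameCycle d e}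
      (fun _ => (1 : ℝ)) e ≤ if e.1 = d.1 then 1 else 0 := by
    intro e
    by_cases he : s.SameCycle d e
    · rw [Set.indicator_of_mem (show e ∈ {e | s.SameCycle d e} from he)]
      rw [if_pos (fin_fst s hs he)]
    · rw [Set.indicator_of_notMem (show e ∉ {e | s.SameCycle d e} from he)]
      split_ifs <;> norm_num
  have h2 : (∑ e : Fin n × ZMod 3, Set.indicator {e | s.SameCycle d e}
      (fun _ => (1 : ℝ)) e) ≤ ∑ e : Fin n × ZMod 3, if e.1 = d.1 then (1 : ℝ) else 0 :=
    Finset.sum_le_sum fun e _ => h1 e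
  refine h2.trans (le_of_eq ?_)
  rw [Fintype.sum_prod_type, Finset.sum_eq_single d.1]
  · simp only [if_true]
    rw [Finset.sum_const, Finset.card_univ, ZMod.card]
    norm_num
  · intro b _ hb
    exact Finset.sum_eq_zero fun x _ => if_neg hb
  · intro hb
    exact absurd (Finset.mem_univ _) hb

theorem sublinear_triangles (ε : ℝ) (h0 : 0 < ε) : ∃ N : ℕ, ∀ n : ℕ, N ≤ n → ∀ (α : Perm (Fin n × ZMod 3))
    (h : ∀ d, α (α d) = d) (h' : ∀ d, α d ≠ d), Sweep (ε * n) (tri n α h h') := by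
  obtain ⟨δ, hδ, H⟩ := sublinear_polygons (ε / 3) (by linarith)
  obtain ⟨N, hN⟩ := exists_nat_ge (1 / δ)
  refine ⟨N, fun n hn α h h' => ?_⟩
  have htot : (tri n α h h').total = 3 * n := by
    unfold St.total
    show (∑ _d : Fin n × ZMod 3, (1 : ℝ)) = 3 * n
    rw [Finset.sum_const, Finset.card_univ, Fintype.card_prod, ZMod.card, Fintype.card_fin]
    simp [mul_comm]
  have hlen : ∀ d, (tri n α h h').len d ≤ 3 := fun d =>
    fin_cyc (n := n) (Equiv.prodCongr (Equiv.refl (Fin n)) (Equiv.addRight (1 : ZMod 3)))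
      (fun x => rfl) d
  have h1 : 3 ≤ δ * (3 * n) := by
    have h2 : (N : ℝ) ≤ n := by exact_mod_cast hn
    have h3 : 1 / δ ≤ n := hN.trans h2
    rw [div_le_iff₀ hδ] at h3
    linarith
  have h2 := H (tri n α h h') h' (fun d => by rw [htot]; exact (hlen d).trans h1)
  rw [htot] at h2
  have h3 : ε / 3 * (3 * (n : ℝ)) = ε * n := by ring
  rwa [h3] at h2

end Pool.Agent.SWP
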