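import Mathlib
import Pool.Agent.SWP.ShortMu
import Pool.Agent.SWP.PosSmall
import Pool.Agent.SWP.PosLong

/-!
# SWP/PosMu: a positive proportion of each sign on `(p, p+H]`, `(log X)^θ ≤ H ≤ X`, `θ > 1/2`

* `pos_small` (file `SWP/PosSmall`): for `1/2 < θ ≤ 1`, `ε > 0` there are `c > 0`, `X₀` such that for `X ≥ X₀`,
  `(log X)^θ ≤ H ≤ (log X)²`: for all but `ε π(X)` primes `p ≤ X`, `#{p<n≤p+H : μ(n) = s} ≥ c H` for `s = 1` and
  `s = -1`. Proof: `θ' = (θ + 1/2)/2 ∈ (1/2, θ)`, `κ = (θ - 1/2)/4`, `u = ⌈(1-θ') log log X⌉`, `v = ⌊θ' log log X⌋`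
  (so that `e^v (log X)^κ ≤ H`: `θ' + κ ≤ θ`), `𝒬 = QQ u v`, `S = RS u v`. `v ≥ κ' u` with
  `κ' = 1/(2(1-θ')) > 1`, so `S ≥ c₁ > 0` (`RS_pos`), and `S ≤ C₁` (`RS_bounds`). By `sign_dil` (with `c₀` of
  `short_sq`) and `dil` for `g = mu` and for `g = mu² - c₀` (norm `≤ 1`; `κ ≤ 1-θ'`, `e^u H ≥ (log X)^{1-θ'+θ}`): the
  sum over `p ≤ X` of the error terms in `sign_dil` is `≤ (2ε'(1+S) + o(1)) H π(X)`. So for all but `(ε/2) π(X)`
  primes the errors are `≤ (c₀/4) c₁ H` and `∑_{μ(n)=s} om(n) ≥ (c₀/4) c₁ H = c₂ H`. By `om_second`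
  (`Z = ⌊e^v⌋ ≤ H`, `Z^8 ≤ X`) and Markov, for all but `(ε/2)π(X)` primes `∑_{p<n≤p+H} om(n)² ≤ C₃ H`. Cauchy–Schwarz:
  `(c₂H)² ≤ #{μ(n)=s} C₃ H`.
* `pos_long` (file `SWP/PosLong`): for `ε > 0` there are `K, X₀`: for `K log X ≤ H ≤ X` all but `ε π(X)` primes
  `p ≤ X` have `#{p<n≤p+H : μ(n) = s} ≥ H/8` for both `s`. Proof: by `long_mu` and Markov `|∑ μ(n)| ≤ H/8` for all but
  `(ε/2)π(X)` primes. It remains to show that `#{p<n≤p+H : μ(n) = 0} ≤ 0.6 H` for all but `(ε/2) π(X)` primes: the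
  number of `n ∈ (p,p+H]` divisible by some `q²`, `q ≤ z` prime, is `≤ 0.568 H + z`, for every `p`, and those divisible
  by some `q²`, `q > z`, are rare on average over `p` (`card_AP_le` for `q ≤ (log X)²`, trivially for larger `q`).
* `pos_all`: combination.
-/

set_option autoImplicit false

namespace Pool.SWP

open Finset Pool.MRZ

theorem pos_all (θ ε : ℝ) (hθ : 1 / 2 < θ) (hε : 0 < ε) : ∃ (c : ℝ) (X₀ : ℕ), 0 < c ∧
    ∀ X H : ℕ, X₀ ≤ X → (Real.log X) ^ θ ≤ H → H ≤ X →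
    ∃ E ⊆ PP X, (E.card : ℝ) ≤ ε * (PP X).card ∧ ∀ p ∈ PP X \ E,
      c * H ≤ (((Ioc p (p + H)).filter (fun n => ArithmeticFunction.moebius n = 1)).card : ℝ) ∧
      c * H ≤ (((Ioc p (p + H)).filter (fun n => ArithmeticFunction.moebius n = -1)).card : ℝ) := by
  obtain ⟨c, X₁, hc, h1⟩ := pos_small (min θ 1) ε (lt_min hθ (by norm_num)) (min_le_right _ _) hε
  obtain ⟨K, X₂, h2⟩ := pos_long ε hε
  have hlog : Filter.Tendsto (fun X : ℕ => Real.log (X : ℝ)) Filter.atTop Filter.atTop :=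
    Real.tendsto_log_atTop.comp tendsto_natCast_atTop_atTop
  obtain ⟨X₃, h3⟩ := Filter.eventually_atTop.1 (hlog.eventually_ge_atTop (max K 1))
  refine ⟨min c (1 / 8), max X₁ (max X₂ X₃), lt_min hc (by norm_num), ?_⟩
  intro X H hX hH hHX
  have hX1 : X₁ ≤ X := (le_max_left _ _).trans hX
  have hX2 : X₂ ≤ X := ((le_max_left _ _).trans (le_max_right _ _)).trans hX
  have hX3 : X₃ ≤ X := ((le_max_right _ _).trans (le_max_right _ _)).trans hX
  have hL := h3 X hX3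
  have hL1 : 1 ≤ Real.log X := (le_max_right _ _).trans hL
  have hLK : K ≤ Real.log X := (le_max_left _ _).trans hL
  have hH0 : (0 : ℝ) ≤ H := Nat.cast_nonneg _
  rcases le_or_gt (H : ℝ) ((Real.log X) ^ 2) with h | h
  · have hH' : (Real.log X) ^ (min θ 1) ≤ H :=
      (Real.rpow_le_rpow_of_exponent_le hL1 (min_le_left _ _)).trans hH
    obtain ⟨E, hE, hEc, hEp⟩ := h1 X H hX1 hH' h
    refine ⟨E, hE, hEc, fun p hp => ?_⟩
    obtain ⟨a, b⟩ := hEp p hp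
    have hmin : min c (1 / 8) * (H : ℝ) ≤ c * H :=
      mul_le_mul_of_nonneg_right (min_le_left _ _) hH0
    exact ⟨hmin.trans a, hmin.trans b⟩
  · have hH' : K * Real.log X ≤ H := by
      have h4 : K * Real.log X ≤ Real.log X * Real.log X :=
        mul_le_mul_of_nonneg_right hLK (by linarith)
      nlinarith
    obtain ⟨E, hE, hEc, hEp⟩ := h2 X H hX2 hH' hHX
    refine ⟨E, hE, hEc, fun p hp => ?_⟩
    obtain ⟨a, b⟩ := hEp p hp
    have hmin : min c (1 / 8) * (H : ℝ) ≤ 1 / 8 * H :=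
      mul_le_mul_of_nonneg_right (min_le_right _ _) hH0
    exact ⟨hmin.trans a, hmin.trans b⟩

end Pool.SWP
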