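import Mathlib
import Pool.Agent.SWP.CoreS
import Pool.Agent.MRZ.SupLam

/-!
# SWP/Run: the Liouville function changes sign on `(p, p + C √(log X)]` for almost all primes `p`

`run_bound`: for `ε > 0` there are `C, X₀`: for `X ≥ X₀`, `H ≥ C √(log X)` the number of primes `p ≤ X` such that `λ` is
constant on `(p, p+H]` is at most `ε π(X)`.

Proof. Let `η > 0` be small (in terms of `ε`). `sup_lam` with `α = 0` gives `ℓ ≥ 1` and `X₁` with
`∑_{x<Y} |∑_{x<n≤x+ℓ} λ(n)| ≤ η ℓ Y` for `Y ≥ X₁`, `Y ≥ ℓ`; so `#{y < Y : λ constant on (y, y+ℓ]} ≤ η Y`.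
Let `D = ⌈√(log X)⌉`, `𝒟 = (D, 2D]`, `b = 1`, `C = 4ℓ + 4`, so `H ≥ 2Dℓ` for large `X`. `∑_{d∈𝒟} F(d)³ ≤ ∑_{d≤2D} F(d)⁴
≤ 2W⁴ D = B #𝒟`-bound with `B = 2W⁴ + 1` (`sum_F_pow_four_le`). Let `f(y) = 1` if `λ` is constant on `(y, y+ℓ]`, else `0`:
`∑_{y ≤ X/D} f(y) ≤ η (X/D + 1) ≤ 2η X/D`. If `p` is bad (`λ = s` on `(p, p+H]`) and `d ∈ 𝒟` then `f(⌊p/d⌋) = 1`: for
`m ∈ (p/d, p/d + ℓ]` we have `p < dm ≤ p + dℓ ≤ p + 2Dℓ ≤ p + H`, so `λ(m) = λ(d) λ(dm) = λ(d) s`. By `core`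
`#bad · D ≤ C' B (X/log X) √(2η) √(D² + log X) + D √X ≤ C'' √η D X/log X + D √X` (`D² ≥ log X`), so
`#bad ≤ C'' √η X/log X + √X ≤ ε π(X)` for `η` small and `X` large (`pi_bounds`).
-/

set_option autoImplicit false

namespace Pool.SWP

open Finset Pool.MRZ Pool.Agent.Lib.PrimePairs

private lemma liou_pm {d : ℕ} (hd : d ≠ 0) :
    ArithmeticFunction.liouville d = 1 ∨ ArithmeticFunction.liouville d = -1 := by
  rw [ArithmeticFunction.liouville_apply hd]
  exact neg_one_pow_eq_or ℤ _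

/-- `λ` is constant on `(y, y+l]` -/
private def Cst (y l : ℕ) : Prop := (∀ n ∈ Ioc y (y + l), ArithmeticFunction.liouville n = 1) ∨
  (∀ n ∈ Ioc y (y + l), ArithmeticFunction.liouville n = -1)

private lemma cst_norm {y l : ℕ} (h : Cst y l) :
    ‖∑ n ∈ Ioc y (y + l), lam n * ee (0 * n)‖ = l := by
  rcases h with h | h
  · have h1 : ∑ n ∈ Ioc y (y + l), lam n * ee (0 * n) = ∑ n ∈ Ioc y (y + l), (1 : ℂ) :=
      Finset.sum_congr rfl fun n hn => by
        rw [zero_mul, ee_zero, mul_one]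
        unfold lam
        rw [h n hn]
        norm_num
    rw [h1, Finset.sum_const, Nat.card_Ioc]
    simp
  · have h1 : ∑ n ∈ Ioc y (y + l), lam n * ee (0 * n) = ∑ n ∈ Ioc y (y + l), (-1 : ℂ) :=
      Finset.sum_congr rfl fun n hn => by
        rw [zero_mul, ee_zero, mul_one]
        unfold lam
        rw [h n hn]
        norm_num
    rw [h1, Finset.sum_const, Nat.card_Ioc]
    simp

private lemma cst_div {p H d l : ℕ} (hd : 0 < d) (hdl : d * l ≤ H) (h : Cst p H) :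
    Cst (p / d) l := by
  have key : ∀ n ∈ Ioc (p / d) (p / d + l), d * n ∈ Ioc p (p + H) := by
    intro n hn
    obtain ⟨h1, h2⟩ := Finset.mem_Ioc.1 hn
    rw [Finset.mem_Ioc]
    constructor
    · have := (Nat.div_lt_iff_lt_mul hd).1 h1
      rwa [mul_comm]
    · have h3 := Nat.mul_le_mul_left d h2
      have h4 := Nat.mul_div_le p d
      rw [mul_add] at h3
      omega
  rcases h with h | h
  · rcases liou_pm hd.ne' with e | e
    · left
      intro n hn
      have h1 := h _ (key n hn)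
      rw [ArithmeticFunction.liouville_apply_mul, e, one_mul] at h1
      exact h1
    · right
      intro n hn
      have h1 := h _ (key n hn)
      rw [ArithmeticFunction.liouville_apply_mul, e] at h1
      linarith
  · rcases liou_pm hd.ne' with e | e
    · right
      intro n hn
      have h1 := h _ (key n hn)
      rw [ArithmeticFunction.liouville_apply_mul, e, one_mul] at h1
      exact h1
    · left
      intro n hn
      have h1 := h _ (key n hn)
      rw [ArithmeticFunction.liouville_apply_mul, e] at h1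
      linarith

private lemma sum_F3 (D : ℕ) : ∑ d ∈ Ioc D (2 * D), Pool.Agent.Lib.PrimePairs.F d ^ 3 ≤
    (2 * Pool.Agent.Lib.PrimePairs.W ^ 4 + 1) * ((Ioc D (2 * D)).card : ℝ) := by
  have h1 : ∑ d ∈ Ioc D (2 * D), Pool.Agent.Lib.PrimePairs.F d ^ 3 ≤
      ∑ d ∈ Icc 1 (2 * D), Pool.Agent.Lib.PrimePairs.F d ^ 4 := by
    refine (Finset.sum_le_sum fun d hd => ?_).trans
      (Finset.sum_le_sum_of_subset_of_nonneg (s := Ioc D (2 * D)) ?_ fun d _ _ => ?_)
    · have h2 := F_ge_one d (by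
        have := (Finset.mem_Ioc.1 hd).1
        omega)
      exact pow_le_pow_right₀ h2 (by norm_num)
    · intro d hd
      rw [Finset.mem_Ioc] at hd
      rw [Finset.mem_Icc]
      omega
    · have := Pool.Agent.Lib.PrimePairs.F_nonneg d
      positivity
  have h2 := sum_F_pow_four_le (2 * D)
  have h3 : ((Ioc D (2 * D)).card : ℝ) = D := by
    rw [Nat.card_Ioc]
    congr 1
    omega
  rw [h3]
  push_cast at h2
  have h4 : (0 : ℝ) ≤ D := Nat.cast_nonneg D
  nlinarith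

theorem run_bound (ε : ℝ) (hε : 0 < ε) : ∃ (C : ℝ) (X₀ : ℕ), ∀ X H : ℕ, X₀ ≤ X →
    C * Real.sqrt (Real.log X) ≤ H →
    (((PP X).filter (fun p => (∀ n ∈ Ioc p (p + H), ArithmeticFunction.liouville n = 1) ∨
      (∀ n ∈ Ioc p (p + H), ArithmeticFunction.liouville n = -1))).card : ℝ) ≤ ε * (PP X).card := by
  classical
  obtain ⟨c₁, C₁, hc₁, -, hpi⟩ := pi_bounds
  obtain ⟨C', X', hC', hcore⟩ := core
  obtain ⟨B, hB⟩ : ∃ B : ℝ, B = 2 * Pool.Agent.Lib.PrimePairs.W ^ 4 + 1 := ⟨_, rfl⟩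
  have hB1 : 1 ≤ B := by
    have : 0 ≤ Pool.Agent.Lib.PrimePairs.W ^ 4 := by positivity
    linarith
  have hB0 : 0 < B := by linarith
  obtain ⟨ρ, hρ⟩ : ∃ ρ : ℝ, ρ = ε * c₁ / (4 * C' * B) := ⟨_, rfl⟩
  have hρ0 : 0 < ρ := by
    rw [hρ]
    positivity
  obtain ⟨m, hm⟩ : ∃ m : ℝ, m = ρ ^ 2 := ⟨_, rfl⟩
  have hm0 : 0 < m := by
    rw [hm]
    positivity
  obtain ⟨Hs, Xs, hsup⟩ := sup_lam (m / 2) (by positivity)
  obtain ⟨l, hl⟩ : ∃ l : ℕ, l = max Hs 1 := ⟨_, rfl⟩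
  have hl1 : 1 ≤ l := by
    rw [hl]
    exact le_max_right _ _
  have hlH : Hs ≤ l := by
    rw [hl]
    exact le_max_left _ _
  obtain ⟨κ, hκ⟩ : ∃ κ : ℝ, κ = ε * c₁ / 2 := ⟨_, rfl⟩
  have hκ0 : 0 < κ := by
    rw [hκ]
    positivity
  obtain ⟨K, hK, hK0⟩ : ∃ K : ℝ, (2 : ℝ) ^ 100 = K ∧ 0 < K := ⟨_, rfl, by positivity⟩
  have hev : ∀ᶠ x : ℝ in Filter.atTop, 1 ≤ Real.log x ∧ K * Real.log x ^ 50 ≤ x ∧
      Real.log x ^ 2 ≤ κ ^ 2 * x := by
    have h1 := Real.tendsto_log_atTop.eventually_ge_atTop 1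
    have h2 := (Real.isLittleO_pow_log_id_atTop (n := 50)).bound
      (show (0 : ℝ) < 1 / K by positivity)
    have h3 := (Real.isLittleO_pow_log_id_atTop (n := 2)).bound
      (show (0 : ℝ) < κ ^ 2 by positivity)
    filter_upwards [h1, h2, h3, Filter.eventually_gt_atTop (0 : ℝ)] with x a1 a2 a3 a4
    refine ⟨a1, ?_, ?_⟩
    · rw [Real.norm_eq_abs, id, Real.norm_eq_abs, abs_of_pos a4,
        abs_of_nonneg (by positivity)] at a2
      have : K * Real.log x ^ 50 ≤ K * (1 / K * x) :=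
        mul_le_mul_of_nonneg_left a2 hK0.le
      refine this.trans (le_of_eq ?_)
      rw [← mul_assoc, mul_one_div_cancel hK0.ne', one_mul]
    · rw [Real.norm_eq_abs, id, Real.norm_eq_abs, abs_of_pos a4,
        abs_of_nonneg (by positivity)] at a3
      exact a3
  obtain ⟨x0, hx0⟩ := Filter.eventually_atTop.1 hev
  refine ⟨4 * l, max (max ⌈x0⌉₊ X') (max ((Xs + l) ^ 2) 3), ?_⟩
  intro X H hX hH
  have hX1 : ⌈x0⌉₊ ≤ X := ((le_max_left _ _).trans (le_max_left _ _)).trans hX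
  have hX2 : X' ≤ X := ((le_max_right _ _).trans (le_max_left _ _)).trans hX
  have hX3 : (Xs + l) ^ 2 ≤ X := ((le_max_left _ _).trans (le_max_right _ _)).trans hX
  have hX4 : 3 ≤ X := ((le_max_right _ _).trans (le_max_right _ _)).trans hX
  have hXr : x0 ≤ (X : ℝ) := (Nat.le_ceil x0).trans (by exact_mod_cast hX1)
  obtain ⟨hL1, hL50, hLk⟩ := hx0 X hXr
  have hXpos : (0 : ℝ) < X := by
    have : 0 < X := by omega
    exact_mod_cast this
  set L := Real.log X with hLdef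
  set D := ⌈Real.sqrt L⌉₊ with hD
  have hsq1 : 1 ≤ Real.sqrt L := Real.one_le_sqrt.2 hL1
  have hDle : Real.sqrt L ≤ D := Nat.le_ceil _
  have hDlt : (D : ℝ) ≤ 2 * Real.sqrt L := by
    have := Nat.ceil_lt_add_one (Real.sqrt_nonneg L)
    rw [← hD] at this
    linarith
  have hD1 : 1 ≤ D := by
    have : (1 : ℝ) ≤ D := hsq1.trans hDle
    exact_mod_cast this
  have hDsq : L ≤ (D : ℝ) ^ 2 := by
    have h1 := Real.sq_sqrt (show 0 ≤ L by linarith)
    rw [← h1]
    exact pow_le_pow_left₀ (Real.sqrt_nonneg _) hDle 2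
  have hD100 : D ^ 100 ≤ X := by
    have h1 : (D : ℝ) ^ 100 ≤ (2 * Real.sqrt L) ^ 100 :=
      pow_le_pow_left₀ (Nat.cast_nonneg _) hDlt 100
    have h2 : (2 * Real.sqrt L) ^ 100 = K * L ^ 50 := by
      have h3 : (Real.sqrt L) ^ 100 = L ^ 50 := by
        have h4 : (Real.sqrt L) ^ (2 * 50) = ((Real.sqrt L) ^ 2) ^ 50 := pow_mul _ _ _
        rw [Real.sq_sqrt (by linarith)] at h4
        exact h4
      rw [mul_pow, hK, h3]
    have h3 : ((D ^ 100 : ℕ) : ℝ) ≤ X := by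
      push_cast
      linarith
    exact_mod_cast h3
  have hDX : D ^ 2 ≤ X := (Nat.pow_le_pow_right hD1 (by norm_num)).trans hD100
  have hDs : D ≤ Nat.sqrt X := by
    rw [Nat.le_sqrt']
    exact hDX
  have hXls : Xs + l ≤ Nat.sqrt X := by
    rw [Nat.le_sqrt']
    exact hX3
  have hXlD : Xs + l ≤ X / D := by
    rw [Nat.le_div_iff_mul_le (by omega)]
    calc (Xs + l) * D ≤ Nat.sqrt X * Nat.sqrt X := Nat.mul_le_mul hXls hDs
      _ ≤ X := Nat.sqrt_le X
  -- the indicator function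
  set f : ℕ → ℝ := fun y => if Cst y l then 1 else 0 with hf
  have hf01 : ∀ y, 0 ≤ f y ∧ f y ≤ 1 := by
    intro y
    simp only [hf]
    split_ifs <;> norm_num
  have hfsum : ∑ y ∈ range (X / (1 * D) + 1), f y ≤ m * ((X : ℝ) / ((1 : ℕ) * D)) := by
    have h1 := hsup (X / D + 1) l (by omega) hlH (by omega) 0
    have h2 : ∀ y ∈ range (X / D + 1), (l : ℝ) * f y ≤
        ‖∑ n ∈ Ioc y (y + l), lam n * ee (0 * n)‖ := by
      intro y _
      simp only [hf]
      split_ifs with h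
      · rw [cst_norm h, mul_one]
      · rw [mul_zero]
        exact norm_nonneg _
    have h3 := (Finset.sum_le_sum h2).trans h1
    rw [← Finset.mul_sum] at h3
    have hl0 : (0 : ℝ) < l := by exact_mod_cast hl1
    have h4 : ∑ y ∈ range (X / D + 1), f y ≤ m / 2 * ((X / D + 1 : ℕ) : ℝ) := by
      have h5 : m / 2 * (l : ℝ) * ((X / D + 1 : ℕ) : ℝ) =
          (l : ℝ) * (m / 2 * ((X / D + 1 : ℕ) : ℝ)) := by ring
      rw [h5] at h3
      exact le_of_mul_le_mul_left h3 hl0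
    rw [one_mul]
    refine h4.trans ?_
    have hD0 : (0 : ℝ) < D := by exact_mod_cast hD1
    have h6 : ((X / D : ℕ) : ℝ) ≤ (X : ℝ) / D := Nat.cast_div_le
    have h7 : (1 : ℝ) ≤ ((X / D : ℕ) : ℝ) := by
      have : 1 ≤ X / D := by omega
      exact_mod_cast this
    push_cast
    rw [one_mul]
    have h8 : ((X / D : ℕ) : ℝ) + 1 ≤ 2 * ((X : ℝ) / D) := by linarith
    calc m / 2 * (((X / D : ℕ) : ℝ) + 1) ≤ m / 2 * (2 * ((X : ℝ) / D)) :=
          mul_le_mul_of_nonneg_left h8 (by positivity)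
      _ = m * ((X : ℝ) / D) := by ring
  have hmain := hcore X D 1 0 (Ioc D (2 * D)) B m f hX2 hD1 (by norm_num)
    (by rw [one_mul]; exact hD100) (Finset.Subset.refl _) hB1 (by rw [hB]; exact sum_F3 D)
    hf01 hm0.le hfsum
  have hcard : ((Ioc D (2 * D)).card : ℝ) = D := by
    rw [Nat.card_Ioc]
    congr 1
    omega
  rw [hcard] at hmain
  set bad := (PP X).filter (fun p => (∀ n ∈ Ioc p (p + H), ArithmeticFunction.liouville n = 1) ∨
      (∀ n ∈ Ioc p (p + H), ArithmeticFunction.liouville n = -1)) with hbad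
  have hlow : (D : ℝ) * (bad.card : ℝ) ≤
      ∑ d ∈ Ioc D (2 * D), ∑ p ∈ PP X, f (p / (1 * d)) := by
    have h1 : ∀ d ∈ Ioc D (2 * D), (bad.card : ℝ) ≤ ∑ p ∈ PP X, f (p / (1 * d)) := by
      intro d hd
      obtain ⟨hd1, hd2⟩ := Finset.mem_Ioc.1 hd
      have h2 : (bad.card : ℝ) = ∑ p ∈ bad, (1 : ℝ) := by simp
      rw [h2]
      refine (Finset.sum_le_sum fun p hp => ?_).trans
        (Finset.sum_le_sum_of_subset_of_nonneg (Finset.filter_subset _ _) fun p _ _ => (hf01 _).1)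
      have hp2 : Cst p H := (Finset.mem_filter.1 hp).2
      have hdl : d * l ≤ H := by
        have h3 : ((d * l : ℕ) : ℝ) ≤ H := by
          refine le_trans ?_ hH
          push_cast
          have h4 : (d : ℝ) ≤ 2 * D := by exact_mod_cast hd2
          have h5 : (d : ℝ) ≤ 4 * Real.sqrt L := by linarith
          calc (d : ℝ) * l ≤ 4 * Real.sqrt L * l :=
                mul_le_mul_of_nonneg_right h5 (Nat.cast_nonneg _)
            _ = 4 * l * Real.sqrt L := by ring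
        exact_mod_cast h3
      have h6 := cst_div (l := l) (by omega : 0 < d) hdl hp2
      simp only [hf, one_mul, if_pos h6, le_refl]
    calc (D : ℝ) * (bad.card : ℝ) = ∑ d ∈ Ioc D (2 * D), (bad.card : ℝ) := by
          rw [Finset.sum_const, nsmul_eq_mul, hcard]
      _ ≤ _ := Finset.sum_le_sum h1
  have hD0 : (0 : ℝ) < D := by exact_mod_cast hD1
  have hL0 : 0 < L := by linarith
  have hsqrt : Real.sqrt ((D : ℝ) ^ 2 + D * L / ((1 : ℕ) * D)) ≤ 2 * D := by
    apply Real.sqrt_le_iff.2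
    refine ⟨by positivity, ?_⟩
    have h1 : (D : ℝ) * L / ((1 : ℕ) * D) = L := by
      push_cast
      field_simp
    rw [h1]
    nlinarith
  have hsm : Real.sqrt m = ρ := by
    rw [hm]
    exact Real.sqrt_sq hρ0.le
  have hsX : Real.sqrt X ≤ κ * X / L := by
    rw [le_div_iff₀ hL0]
    have h1 : L ≤ κ * Real.sqrt X := by
      have h2 : L ^ 2 ≤ (κ * Real.sqrt X) ^ 2 := by
        rw [mul_pow, Real.sq_sqrt hXpos.le]
        exact hLk
      exact (sq_le_sq₀ hL0.le (by positivity)).1 h2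
    calc Real.sqrt X * L ≤ Real.sqrt X * (κ * Real.sqrt X) :=
          mul_le_mul_of_nonneg_left h1 (Real.sqrt_nonneg _)
      _ = κ * (Real.sqrt X * Real.sqrt X) := by ring
      _ = κ * X := by rw [Real.mul_self_sqrt hXpos.le]
  have hfin : (D : ℝ) * (bad.card : ℝ) ≤ D * (ε * c₁ * X / L) := by
    refine hlow.trans (hmain.trans ?_)
    rw [hsm]
    have h1 : C' * B * (X / L) * ρ * Real.sqrt ((D : ℝ) ^ 2 + D * L / ((1 : ℕ) * D)) ≤
        C' * B * (X / L) * ρ * (2 * D) :=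
      mul_le_mul_of_nonneg_left hsqrt (by positivity)
    have h2 : C' * B * (X / L) * ρ * (2 * D) = D * (ε * c₁ / 2 * (X / L)) := by
      rw [hρ]
      field_simp
      ring
    have h3 : (D : ℝ) * Real.sqrt X ≤ D * (κ * X / L) := mul_le_mul_of_nonneg_left hsX hD0.le
    have h4 : (D : ℝ) * (κ * X / L) = D * (ε * c₁ / 2 * (X / L)) := by
      rw [hκ]
      ring
    calc C' * B * (X / L) * ρ * Real.sqrt ((D : ℝ) ^ 2 + D * L / ((1 : ℕ) * D)) +
          D * Real.sqrt X ≤ D * (ε * c₁ / 2 * (X / L)) + D * (ε * c₁ / 2 * (X / L)) := by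
          linarith
      _ = D * (ε * c₁ * X / L) := by ring
  have hfin2 : (bad.card : ℝ) ≤ ε * c₁ * X / L := le_of_mul_le_mul_left hfin hD0
  refine hfin2.trans ?_
  have h1 := (hpi X (by omega)).1
  calc ε * c₁ * X / L = ε * (c₁ * X / L) := by ring
    _ ≤ ε * (PP X).card := mul_le_mul_of_nonneg_left h1 hε.le

end Pool.SWP
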