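import Mathlib
import Pool.Agent.SWP.CoreS
import Pool.Agent.SWP.SqfWin
import Pool.Agent.Lib.PNT

/-!
# SWP/RunMu: `μ` takes both values `1` and `-1` on `(p, p + C √(log X log log X)]` for almost all primes `p`

Proof. As in `SWP/Run` with the *primes* `𝒟 = {q prime : D < q ≤ 2D}`, `D = ⌈√(log X log log X)⌉`, `b = 1`. By the prime
number theorem `#𝒟 ≥ c D/log D`, so `#𝒟 · D ≥ c D²/log D ≥ c' log X` (`log D ≤ log log X` for large `X`), and
`F(q)³ ≤ 8`: `B = 8`. `sign_win` gives `L = ℓ ≥ 16` for `η`; `f(y) = 1` if `(y, y+ℓ]` is one of the bad windows there;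
`∑_{y≤X/D} f(y) ≤ 2ηX/D`. Let `C = 4ℓ+4`, so `H ≥ 2Dℓ`, `D > ℓ`. If `p` is bad for the sign `s` (no `n ∈ (p,p+H]` has
`μ(n) = s`) and `q ∈ 𝒟` then for all `m ∈ (p/q, p/q+ℓ]` with `q ∤ m`: `μ(qm) = -μ(m) ≠ s`, so `μ(m) ≠ -s`; at most one
`m` of the window is divisible by `q > ℓ`; so `#{m : μ(m) = -s} ≤ 1 < ℓ/8` and `f(⌊p/q⌋) = 1`. By `core`
`#bad · #𝒟 ≤ 8C (X/log X) √(2η) √(#𝒟² + #𝒟 log X/D) + #𝒟√X`, and `log X/D ≤ #𝒟/c'`, so `#bad ≤ C'' √η X/log X + √X`.
-/

set_option autoImplicit false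

namespace Pool.SWP

open Finset Pool.MRZ Pool.Agent.Lib.PrimePairs

lemma runmu_count (D : ℕ) : Nat.primeCounting (2 * D) =
    Nat.primeCounting D + ((Ioc D (2 * D)).filter Nat.Prime).card := by
  have h1 : ∀ n : ℕ, Nat.primeCounting n = ((Finset.range (n + 1)).filter Nat.Prime).card := by
    intro n
    rw [Nat.primeCounting, Nat.primeCounting', Nat.count_eq_card_filter_range]
  rw [h1, h1, ← Finset.card_union_of_disjoint]
  · congr 1
    ext k
    simp only [Finset.mem_filter, Finset.mem_range, Finset.mem_union, Finset.mem_Ioc]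
    constructor
    · rintro ⟨h2, h3⟩
      by_cases h4 : k ≤ D
      · exact Or.inl ⟨by omega, h3⟩
      · exact Or.inr ⟨by omega, h3⟩
    · rintro (⟨h2, h3⟩ | ⟨h2, h3⟩)
      · exact ⟨by omega, h3⟩
      · exact ⟨by omega, h3⟩
  · rw [Finset.disjoint_left]
    intro k h2 h3
    simp only [Finset.mem_filter, Finset.mem_range, Finset.mem_Ioc] at h2 h3
    omega

lemma runmu_primes : ∃ n₀ : ℕ, ∀ D : ℕ, n₀ ≤ D →
    (D : ℝ) / (2 * Real.log D) ≤ (((Ioc D (2 * D)).filter Nat.Prime).card : ℝ) := by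
  have h1 := Pool.Agent.Lib.PNT.pi_nat
  have h2 : ∀ᶠ n : ℕ in Filter.atTop,
      |(Nat.primeCounting n : ℝ) * Real.log n / n - 1| < 1 / 10 := by
    have h3 := h1.eventually (Metric.ball_mem_nhds 1 (by norm_num : (0 : ℝ) < 1 / 10))
    filter_upwards [h3] with n hn
    rwa [Real.dist_eq] at hn
  obtain ⟨n₁, hn₁⟩ := Filter.eventually_atTop.1 h2
  refine ⟨max n₁ 1024, fun D hD => ?_⟩
  have hD1 : 1024 ≤ D := le_trans (le_max_right _ _) hD
  have hD2 := hn₁ D (le_trans (le_max_left _ _) hD)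
  have hD3 := hn₁ (2 * D) (le_trans (le_trans (le_max_left _ _) hD) (by omega))
  have hD1' : (1024 : ℝ) ≤ D := by exact_mod_cast hD1
  have hDp : (0 : ℝ) < D := by linarith
  have hlog2 : 10 * Real.log 2 ≤ Real.log D := by
    have h3 : Real.log ((2 : ℝ) ^ 10) ≤ Real.log D :=
      Real.log_le_log (by norm_num) (by norm_num; exact hD1)
    rw [Real.log_pow] at h3
    exact_mod_cast h3
  have hl2 : 0 < Real.log 2 := Real.log_pos (by norm_num)
  have hlD : 0 < Real.log D := by linarith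
  rw [abs_lt] at hD2 hD3
  have e1 : Real.log ((2 * D : ℕ) : ℝ) = Real.log 2 + Real.log D := by
    push_cast
    rw [Real.log_mul (by norm_num) hDp.ne']
  rw [e1] at hD3
  have h3 : (Nat.primeCounting D : ℝ) * Real.log D ≤ 11 / 10 * D := by
    have h4 : (Nat.primeCounting D : ℝ) * Real.log D / D < 11 / 10 := by linarith [hD2.2]
    rw [div_lt_iff₀ hDp] at h4
    exact h4.le
  have h4 : 9 / 10 * (2 * D) ≤ (Nat.primeCounting (2 * D) : ℝ) * (Real.log 2 + Real.log D) := by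
    have h5 : 9 / 10 < (Nat.primeCounting (2 * D) : ℝ) * (Real.log 2 + Real.log D) /
      ((2 * D : ℕ) : ℝ) := by linarith [hD3.1]
    rw [lt_div_iff₀ (by push_cast; positivity)] at h5
    push_cast at h5
    exact h5.le
  rw [runmu_count] at h4
  push_cast at h4
  set N : ℝ := (((Ioc D (2 * D)).filter Nat.Prime).card : ℝ) with hN
  have hN0 : 0 ≤ N := Nat.cast_nonneg _
  have hP0 : (0 : ℝ) ≤ Nat.primeCounting D := Nat.cast_nonneg _
  have h6 : ((Nat.primeCounting D : ℝ) + N) * (Real.log 2 + Real.log D) ≤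
      ((Nat.primeCounting D : ℝ) + N) * (11 / 10 * Real.log D) :=
    mul_le_mul_of_nonneg_left (by linarith) (by linarith)
  rw [div_le_iff₀ (by positivity)]
  linarith

lemma runmu_bad {p q H ℓ D : ℕ} (hℓ : 16 ≤ ℓ) (hq : q.Prime) (hq1 : D < q) (hq2 : q ≤ 2 * D)
    (hDl : ℓ ≤ D) (hH : 2 * D * ℓ ≤ H) (s : ℤ)
    (h : ∀ n ∈ Ioc p (p + H), ArithmeticFunction.moebius n ≠ s) :
    8 * ((Ioc (p / q) (p / q + ℓ)).filter
      (fun n => ArithmeticFunction.moebius n = -s)).card < ℓ := by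
  have h1 : ((Ioc (p / q) (p / q + ℓ)).filter
      (fun n => ArithmeticFunction.moebius n = -s)).card ≤ 1 := by
    rw [Finset.card_le_one]
    have h2 : ∀ m ∈ (Ioc (p / q) (p / q + ℓ)).filter
        (fun n => ArithmeticFunction.moebius n = -s), q ∣ m := by
      intro m hm
      rw [mem_filter, mem_Ioc] at hm
      by_contra hqm
      apply h (q * m)
      · rw [mem_Ioc]
        have e1 : q * (p / q) ≤ p := Nat.mul_div_le p q
        have e2 : p < q * (p / q + 1) := Nat.lt_mul_div_succ p hq.pos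
        constructor
        · exact lt_of_lt_of_le e2 (Nat.mul_le_mul_left q hm.1.1)
        · calc q * m ≤ q * (p / q + ℓ) := Nat.mul_le_mul_left q hm.1.2
            _ = q * (p / q) + q * ℓ := by ring
            _ ≤ p + 2 * D * ℓ := add_le_add e1 (Nat.mul_le_mul_right ℓ hq2)
            _ ≤ p + H := by omega
      · have hc : Nat.Coprime q m := (Nat.Prime.coprime_iff_not_dvd hq).2 hqm
        rw [ArithmeticFunction.isMultiplicative_moebius.map_mul_of_coprime hc,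
          ArithmeticFunction.moebius_apply_prime hq, hm.2]
        ring
    intro a ha b hb
    obtain ⟨a', rfl⟩ := h2 a ha
    obtain ⟨b', rfl⟩ := h2 b hb
    rw [mem_filter, mem_Ioc] at ha hb
    have h3 : ∀ x y : ℕ, p / q < q * x → q * y ≤ p / q + ℓ → y ≤ x := by
      intro x y hx hy
      by_contra hxy
      have h4 : q * (x + 1) ≤ q * y := Nat.mul_le_mul_left q (by omega)
      have h5 : q * (x + 1) = q * x + q := by ring
      omega
    have h6 : a' = b' :=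
      le_antisymm (h3 b' a' hb.1.1 ha.1.2) (h3 a' b' ha.1.1 hb.1.2)
    rw [h6]
  omega

lemma runmu_large (a : ℝ) (ha : 0 < a) (K X₁ : ℕ) : ∃ X₀ : ℕ, ∀ X : ℕ, X₀ ≤ X → X₁ ≤ X ∧ 2 ≤ X ∧
    1 ≤ Real.log X ∧ 1 ≤ Real.log (Real.log X) ∧ (K : ℝ) ≤ Real.sqrt (Real.log X) ∧
    (2 * Real.log X) ^ 100 ≤ X ∧ Real.sqrt X ≤ a * X / Real.log X := by
  have hl : Filter.Tendsto (fun X : ℕ => Real.log X) Filter.atTop Filter.atTop :=
    Real.tendsto_log_atTop.comp tendsto_natCast_atTop_atTop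
  have e1 := hl.eventually_ge_atTop 1
  have e2 := (Real.tendsto_log_atTop.comp hl).eventually_ge_atTop 1
  have e3 := (Real.tendsto_sqrt_atTop.comp hl).eventually_ge_atTop (K : ℝ)
  have e4 := tendsto_natCast_atTop_atTop.eventually
    ((Real.isLittleO_pow_log_id_atTop (n := 100)).def (show (0 : ℝ) < (1 / 2) ^ 100 by positivity))
  have e5 := tendsto_natCast_atTop_atTop.eventually
    ((isLittleO_log_rpow_atTop (show (0 : ℝ) < 1 / 2 by norm_num)).def ha)
  have e6 := Filter.eventually_ge_atTop X₁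
  have e7 := Filter.eventually_ge_atTop 2
  obtain ⟨X₀, hX₀⟩ := Filter.eventually_atTop.1
    (e1.and (e2.and (e3.and (e4.and (e5.and (e6.and e7))))))
  refine ⟨X₀, fun X hX => ?_⟩
  obtain ⟨h1, h2, h3, h4, h5, h6, h7⟩ := hX₀ X hX
  have hXp : (0 : ℝ) < X := by
    have : 0 < X := by omega
    exact_mod_cast this
  refine ⟨h6, h7, h1, h2, h3, ?_, ?_⟩
  · simp only [id] at h4
    rw [Real.norm_of_nonneg (by positivity), Real.norm_of_nonneg hXp.le] at h4
    rw [mul_pow]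
    calc (2 : ℝ) ^ 100 * Real.log X ^ 100 ≤ 2 ^ 100 * ((1 / 2) ^ 100 * X) :=
          mul_le_mul_of_nonneg_left h4 (by positivity)
      _ = X := by
        rw [← mul_assoc, ← mul_pow]
        norm_num
  · rw [← Real.sqrt_eq_rpow, Real.norm_of_nonneg (by linarith),
      Real.norm_of_nonneg (Real.sqrt_nonneg _)] at h5
    rw [le_div_iff₀ (by linarith)]
    calc Real.sqrt X * Real.log X ≤ Real.sqrt X * (a * Real.sqrt X) :=
          mul_le_mul_of_nonneg_left h5 (Real.sqrt_nonneg _)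
      _ = a * (Real.sqrt X * Real.sqrt X) := by ring
      _ = a * X := by rw [Real.mul_self_sqrt hXp.le]

lemma runmu_F {q : ℕ} (hq : q.Prime) : F q ^ 3 ≤ 8 := by
  have h1 : F q = 1 + 1 / q := by
    unfold F
    rw [hq.sum_divisors]
    simp [add_comm]
  have hq2 : (2 : ℝ) ≤ q := by exact_mod_cast hq.two_le
  have h2 : (1 : ℝ) / q ≤ 1 := by
    rw [div_le_one (by linarith)]
    linarith
  have h3 : (0 : ℝ) ≤ 1 / q := by positivity
  rw [h1]
  calc (1 + 1 / (q : ℝ)) ^ 3 ≤ 2 ^ 3 := pow_le_pow_left₀ (by linarith) (by linarith) 3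
    _ = 8 := by norm_num

theorem run_mu (ε : ℝ) (hε : 0 < ε) : ∃ (C : ℝ) (X₀ : ℕ), ∀ X H : ℕ, X₀ ≤ X →
    C * Real.sqrt (Real.log X * Real.log (Real.log X)) ≤ H →
    (((PP X).filter (fun p => (∀ n ∈ Ioc p (p + H), ArithmeticFunction.moebius n ≠ 1) ∨
      (∀ n ∈ Ioc p (p + H), ArithmeticFunction.moebius n ≠ -1))).card : ℝ) ≤ ε * (PP X).card := by
  classical
  obtain ⟨c, _, hc, _, hpi⟩ := pi_bounds
  obtain ⟨C₀, X₁, hC₀, hcore⟩ := core
  set δ : ℝ := ε * c / (16 * C₀) with hδ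
  have hδ0 : 0 < δ := by positivity
  set η : ℝ := δ ^ 2 / 10 with hη
  have hη0 : 0 < η := by positivity
  obtain ⟨L₀, Y₀, hwin⟩ := sign_win η hη0
  set ℓ : ℕ := max L₀ 16 with hℓ
  have hℓ16 : 16 ≤ ℓ := le_max_right _ _
  have hℓ0 : L₀ ≤ ℓ := le_max_left _ _
  obtain ⟨n₀, hn₀⟩ := runmu_primes
  obtain ⟨X₀, hX₀⟩ := runmu_large (ε * c / 2) (by positivity) (ℓ + Y₀ + n₀ + 3) X₁
  refine ⟨4 * ℓ + 4, X₀, ?_⟩
  intro X H hX hH
  obtain ⟨hX1, hX2, ht1, hu1, hK, hX100, hXs⟩ := hX₀ X hX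
  set t : ℝ := Real.log X with ht
  set u : ℝ := Real.log t with hu
  set s : ℝ := Real.sqrt (t * u) with hs
  set D : ℕ := ⌈s⌉₊ with hD
  have hXp : (0 : ℝ) < X := by
    have : 0 < X := by omega
    exact_mod_cast this
  have hut : u ≤ t := (Real.log_le_sub_one_of_pos (by linarith)).trans (by linarith)
  have hst : s ≤ t := by
    rw [hs]
    apply Real.sqrt_le_iff.2
    exact ⟨by linarith, by nlinarith⟩
  have hts : Real.sqrt t ≤ s := Real.sqrt_le_sqrt (by nlinarith)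
  have hsD : s ≤ D := Nat.le_ceil s
  have hs0 : 0 ≤ s := Real.sqrt_nonneg _
  have hDs : (D : ℝ) < s + 1 := Nat.ceil_lt_add_one hs0
  have hDK : ℓ + Y₀ + n₀ + 3 ≤ D := by
    have h1 : ((ℓ + Y₀ + n₀ + 3 : ℕ) : ℝ) ≤ D := hK.trans (hts.trans hsD)
    exact_mod_cast h1
  have hD3 : (3 : ℝ) ≤ D := by
    have : 3 ≤ D := by omega
    exact_mod_cast this
  have hDp : (0 : ℝ) < D := by linarith
  have hs1 : 1 ≤ s := by linarith
  have hD2t : (D : ℝ) ≤ 2 * t := by linarith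
  have hlogD : Real.log D ≤ 2 * u := by
    have h1 : Real.log D ≤ Real.log (2 * t) := Real.log_le_log hDp hD2t
    rw [Real.log_mul (by norm_num) (by linarith)] at h1
    have h2 : Real.log 2 ≤ 1 := (Real.log_le_sub_one_of_pos (by norm_num)).trans (by norm_num)
    linarith
  have hlogD0 : 0 < Real.log D := Real.log_pos (by linarith)
  set 𝒟 : Finset ℕ := (Ioc D (2 * D)).filter Nat.Prime with h𝒟
  have hN := hn₀ D (by omega)
  rw [← h𝒟] at hN
  set N : ℝ := (𝒟.card : ℝ) with hNdef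
  have hD2 : t * u ≤ (D : ℝ) ^ 2 := by
    have h1 : s ^ 2 = t * u := Real.sq_sqrt (by nlinarith)
    rw [← h1]
    exact pow_le_pow_left₀ hs0 hsD 2
  have hNt : t ≤ 4 * (N * D) := by
    have h1 : (D : ℝ) ≤ N * (2 * Real.log D) := by
      rwa [div_le_iff₀ (by positivity)] at hN
    have hN0 : 0 ≤ N := Nat.cast_nonneg _
    have h2 : N * (2 * Real.log D) ≤ N * (4 * u) :=
      mul_le_mul_of_nonneg_left (by linarith) hN0
    have h3 : (D : ℝ) ^ 2 ≤ 4 * (N * D) * u := by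
      have h4 : (D : ℝ) * D ≤ N * (4 * u) * D :=
        mul_le_mul_of_nonneg_right (h1.trans h2) hDp.le
      calc (D : ℝ) ^ 2 = D * D := by ring
        _ ≤ N * (4 * u) * D := h4
        _ = 4 * (N * D) * u := by ring
    have h5 : t * u ≤ 4 * (N * D) * u := hD2.trans h3
    exact le_of_mul_le_mul_right h5 (by linarith)
  have hN0 : 0 < N := by
    by_contra h
    have h1 : N = 0 := le_antisymm (not_lt.1 h) (Nat.cast_nonneg _)
    rw [h1] at hNt
    linarith
  have hD100 : (1 * D) ^ 100 ≤ X := by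
    have h1 : ((D : ℝ)) ^ 100 ≤ X := (pow_le_pow_left₀ hDp.le hD2t 100).trans hX100
    rw [one_mul]
    exact_mod_cast h1
  have hDD : D * D ≤ X := by
    have h1 : D ^ 2 ≤ D ^ 100 := Nat.pow_le_pow_right (by omega) (by norm_num)
    rw [one_mul] at hD100
    have h2 : D ^ 2 = D * D := by ring
    omega
  have hDX : D ≤ X / D := by
    rw [Nat.le_div_iff_mul_le (by omega)]
    exact hDD
  set bw : ℕ → Prop := fun y =>
    8 * ((Ioc y (y + ℓ)).filter (fun n => ArithmeticFunction.moebius n = 1)).card < ℓ ∨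
      8 * ((Ioc y (y + ℓ)).filter (fun n => ArithmeticFunction.moebius n = -1)).card < ℓ with hbw
  set f : ℕ → ℝ := fun y => if bw y then 1 else 0 with hf
  have hf01 : ∀ y, 0 ≤ f y ∧ f y ≤ 1 := by
    intro y
    rw [hf]
    simp only
    split_ifs <;> norm_num
  have hfsum : ∑ y ∈ range (X / (1 * D) + 1), f y ≤ 2 * η * ((X : ℝ) / ((1 : ℕ) * D)) := by
    rw [one_mul, Nat.cast_one, one_mul, hf, Finset.sum_boole]
    have h1 := hwin ℓ (X / D + 1) hℓ0 (by omega) (by omega)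
    refine h1.trans ?_
    have h2 : ((X / D + 1 : ℕ) : ℝ) ≤ 2 * ((X : ℝ) / D) := by
      push_cast
      have h3 : ((X / D : ℕ) : ℝ) ≤ (X : ℝ) / D := Nat.cast_div_le
      have h4 : (1 : ℝ) ≤ (X : ℝ) / D := by
        rw [one_le_div hDp]
        have h5 : D ≤ X := by nlinarith
        exact_mod_cast h5
      linarith
    calc η * ((X / D + 1 : ℕ) : ℝ) ≤ η * (2 * ((X : ℝ) / D)) :=
          mul_le_mul_of_nonneg_left h2 hη0.le
      _ = 2 * η * ((X : ℝ) / D) := by ring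
  have hFs : ∑ d ∈ 𝒟, F d ^ 3 ≤ 8 * (𝒟.card : ℝ) := by
    rw [mul_comm, ← nsmul_eq_mul]
    refine Finset.sum_le_card_nsmul _ _ _ fun d hd => ?_
    rw [h𝒟, mem_filter] at hd
    exact runmu_F hd.2
  have hmain := hcore X D 1 0 𝒟 8 (2 * η) f hX1 (by omega) (by norm_num) hD100
    (Finset.filter_subset _ _) (by norm_num) hFs hf01 (by positivity) hfsum
  -- lower bound
  have hHD : 2 * D * ℓ ≤ H := by
    have hℓr : (0 : ℝ) ≤ ℓ := Nat.cast_nonneg _
    have h1 : ((2 * D * ℓ : ℕ) : ℝ) ≤ H := by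
      refine le_trans ?_ hH
      push_cast
      nlinarith
    exact_mod_cast h1
  set Bd := (PP X).filter (fun p => (∀ n ∈ Ioc p (p + H), ArithmeticFunction.moebius n ≠ 1) ∨
      (∀ n ∈ Ioc p (p + H), ArithmeticFunction.moebius n ≠ -1)) with hBd
  have hlow : N * (Bd.card : ℝ) ≤ ∑ d ∈ 𝒟, ∑ p ∈ PP X, f (p / (1 * d)) := by
    rw [hNdef, ← nsmul_eq_mul]
    refine Finset.card_nsmul_le_sum _ _ _ fun q hq => ?_
    rw [h𝒟, mem_filter, mem_Ioc] at hq
    have h1 : ((Bd.card : ℕ) : ℝ) = ∑ p ∈ Bd, (1 : ℝ) := by simp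
    rw [h1]
    refine (Finset.sum_le_sum (g := fun p => f (p / (1 * q))) fun p hp => ?_).trans
      (Finset.sum_le_sum_of_subset_of_nonneg (Finset.filter_subset _ _)
        fun p _ _ => (hf01 _).1)
    rw [hBd, mem_filter] at hp
    have h2 : bw (p / q) := by
      rcases hp.2 with h3 | h3
      · exact Or.inr (runmu_bad hℓ16 hq.2 hq.1.1 hq.1.2 (by omega) hHD 1 h3)
      · have h4 := runmu_bad hℓ16 hq.2 hq.1.1 hq.1.2 (by omega) hHD (-1) h3
        rw [neg_neg] at h4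
        exact Or.inl h4
    simp only [one_mul, hf]
    rw [if_pos h2]
  have hsq : Real.sqrt (2 * η) * Real.sqrt (N ^ 2 + N * t / (((1 : ℕ) : ℝ) * D)) ≤ δ * N := by
    have h1 : N ^ 2 + N * t / (((1 : ℕ) : ℝ) * D) ≤ 5 * N ^ 2 := by
      have h2 : N * t / (((1 : ℕ) : ℝ) * D) ≤ 4 * N ^ 2 := by
        rw [Nat.cast_one, one_mul, div_le_iff₀ hDp]
        calc N * t ≤ N * (4 * (N * D)) := mul_le_mul_of_nonneg_left hNt hN0.le
          _ = 4 * N ^ 2 * D := by ring
      linarith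
    rw [← Real.sqrt_mul (by positivity)]
    refine (Real.sqrt_le_sqrt (mul_le_mul_of_nonneg_left h1 (by positivity))).trans (le_of_eq ?_)
    have h3 : 2 * η * (5 * N ^ 2) = (δ * N) ^ 2 := by
      rw [hη]
      ring
    rw [h3, Real.sqrt_sq (by positivity)]
  have hfin : N * (Bd.card : ℝ) ≤ N * (ε * c / 2 * (X / t) + Real.sqrt X) := by
    refine (hlow.trans hmain).trans ?_
    have h1 : C₀ * 8 * (X / t) * Real.sqrt (2 * η) *
        Real.sqrt (N ^ 2 + N * t / (((1 : ℕ) : ℝ) * D)) ≤ C₀ * 8 * (X / t) * (δ * N) := by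
      rw [mul_assoc (C₀ * 8 * (X / t))]
      exact mul_le_mul_of_nonneg_left hsq (by positivity)
    have h2 : C₀ * 8 * (X / t) * (δ * N) = N * (ε * c / 2 * (X / t)) := by
      rw [hδ]
      field_simp
      ring
    rw [h2] at h1
    linarith
  have h3 := le_of_mul_le_mul_left hfin hN0
  have h4 := (hpi X hX2).1
  calc (Bd.card : ℝ) ≤ ε * c / 2 * (X / t) + Real.sqrt X := h3
    _ ≤ ε * c / 2 * (X / t) + ε * c / 2 * X / t := by linarith
    _ = ε * (c * X / t) := by ring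
    _ ≤ ε * (PP X).card := mul_le_mul_of_nonneg_left h4 hε.le

end Pool.SWP
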