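import Pool.Agent.SWP.Def

/-!
# Sweeps: auxiliary definitions (internal)
-/

set_option autoImplicit false

namespace Pool.Agent.SWP

open Equiv

/-- potential of a permutation with weights: sum of squares of the cycle weights -/
noncomputable def pot {D : Type} [Fintype D] (s : Perm D) (u : D → ℝ) : ℝ := ∑ d, u d * cyc s u d

/-- push a weight function forward along a map -/
noncomputable def push {D D' : Type} [Fintype D'] (π : D' → D) (u : D' → ℝ) (t : D) : ℝ :=
  ∑ e, Set.indicator {e | π e = t} u e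

/-- `d` lies in the half open arc `[x, y)` of the permutation `s`: it is reached from `x` before `y` is hit -/
def Arc {D : Type} (s : Perm D) (x y d : D) : Prop :=
  ∃ i : ℕ, (s ^ i) x = d ∧ ∀ i' ≤ i, (s ^ i') x ≠ y

/-- weight of the arc `[x, y)` -/
noncomputable def arcw {D : Type} [Fintype D] (s : Perm D) (u : D → ℝ) (x y : D) : ℝ := wt u {d | Arc s x y d}

/-- `y` is reached from `x` by free moves inside words (cycles of `r`) and at most `k` moves inside short faces
(cycles of `f` consisting of letters with `sh`) -/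
def Nb {D : Type} (r f : Perm D) (sh : D → Prop) : ℕ → D → D → Prop
  | 0, x, y => r.SameCycle x y
  | (k + 1), x, y => Nb r f sh k x y ∨
      ∃ g h, Nb r f sh k x g ∧ sh g ∧ f.SameCycle g h ∧ r.SameCycle h y

/-- `s` is the first return map of `s'` to the old letters `j D`; `π d'` is the first old letter at or after `d'` -/
structure Trace {D D' : Type} (j : D → D') (π : D' → D) (s' : Perm D') (s : Perm D) : Prop where
  pj : ∀ d, π (j d) = d
  new : ∀ d', (∀ d, j d ≠ d') → π (s' d') = π d'
  old : ∀ d, π (s' (j d)) = s d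
  reach : ∀ d', ∃ (k : ℕ) (d : D), (s' ^ k) d' = j d

namespace St

/-- `Y` is closed under the partner map -/
def Cl (S : St) (Y : Set S.D) : Prop := ∀ d ∈ Y, S.a d ∈ Y

/-- the partner map on `Y`, the identity elsewhere (as a function) -/
noncomputable def betaFun (S : St) (Y : Set S.D) (d : S.D) : S.D :=
  @ite _ (d ∈ Y ∧ S.a d ∈ Y) (Classical.propDecidable _) (S.a d) d

theorem betaFun_pos (S : St) {Y : Set S.D} {d : S.D} (h : d ∈ Y ∧ S.a d ∈ Y) : S.betaFun Y d = S.a d := by
  unfold betaFun; rw [if_pos h]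

theorem betaFun_neg (S : St) {Y : Set S.D} {d : S.D} (h : ¬(d ∈ Y ∧ S.a d ∈ Y)) : S.betaFun Y d = d := by
  unfold betaFun; rw [if_neg h]

theorem betaFun_inv (S : St) (Y : Set S.D) : Function.Involutive (S.betaFun Y) := by
  intro d
  by_cases h : d ∈ Y ∧ S.a d ∈ Y
  · have h2 : S.a d ∈ Y ∧ S.a (S.a d) ∈ Y := ⟨h.2, by rw [S.aa]; exact h.1⟩
    rw [S.betaFun_pos h, S.betaFun_pos h2, S.aa]
  · rw [S.betaFun_neg h, S.betaFun_neg h]

/-- the partner map on `Y`, the identity elsewhere -/
noncomputable def beta (S : St) (Y : Set S.D) : Perm S.D := Function.Involutive.toPerm (S.betaFun Y) (S.betaFun_inv Y)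

/-- faces after gluing `Y` -/
noncomputable def face (S : St) (Y : Set S.D) : Perm S.D := S.r * S.beta Y

/-- lengths of the letters which are not in `Y` -/
noncomputable def uw (S : St) (Y : Set S.D) : S.D → ℝ := Set.indicator Yᶜ S.w

/-- length of the face of `d` after gluing `Y` -/
noncomputable def fl (S : St) (Y : Set S.D) (d : S.D) : ℝ := cyc (S.face Y) (S.uw Y) d

/-- every dead letter is alone in its word -/
def Clean (S : St) : Prop := ∀ d, S.a d = d → S.r d = d

/-- cut or join the words at a vertex -/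
noncomputable def vtx (S : St) (p q : S.D) : St where
  D := S.D
  fD := S.fD
  r := sw p q * S.r
  a := S.a
  w := S.w
  aa := S.aa
  wa := S.wa
  wnn := S.wnn
  w0 := S.w0

/-- take the letter `g` out of its word -/
noncomputable def ghost (S : St) (g : S.D) : St where
  D := S.D
  fD := S.fD
  r := sw g (S.r g) * S.r
  a := S.a
  w := S.w
  aa := S.aa
  wa := S.wa
  wnn := S.wnn
  w0 := S.w0

theorem beta_mem (S : St) {Y : Set S.D} (h : S.Cl Y) {d : S.D} (hd : d ∈ Y) : S.beta Y d = S.a d := by
  exact S.betaFun_pos ⟨hd, h d hd⟩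

theorem beta_notMem (S : St) {Y : Set S.D} {d : S.D} (hd : d ∉ Y) : S.beta Y d = d := by
  exact S.betaFun_neg (fun h => hd h.1)

/-- glue all letters of `Y` to their partners -/
noncomputable def glueSet (S : St) (Y : Set S.D) (hY : S.Cl Y) : St where
  D := S.D
  fD := S.fD
  r := S.r * S.beta Y
  a := S.a * S.beta Y
  w := Set.indicator Yᶜ S.w
  aa := by
    intro d
    simp only [Perm.mul_apply]
    by_cases h : d ∈ Y
    · rw [S.beta_mem hY h, S.aa, S.beta_mem hY h, S.aa]
    · have h2 : S.a d ∉ Y := fun h2 => h (by rw [← S.aa d]; exact hY _ h2)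
      rw [S.beta_notMem h, S.beta_notMem h2, S.aa]
  wa := by
    intro d
    simp only [Perm.mul_apply]
    by_cases h : d ∈ Y
    · rw [S.beta_mem hY h, S.aa]
    · have h2 : S.a d ∉ Y := fun h2 => h (by rw [← S.aa d]; exact hY _ h2)
      rw [S.beta_notMem h, Set.indicator_of_mem (show S.a d ∈ Yᶜ from h2), Set.indicator_of_mem (show d ∈ Yᶜ from h), S.wa]
  wnn := fun d => Set.indicator_nonneg (fun e _ => S.wnn e) d
  w0 := by
    intro d hd
    by_cases h : d ∈ Y
    · rw [Set.indicator_of_notMem]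
      exact fun h2 => h2 h
    · simp only [Perm.mul_apply, S.beta_notMem h] at hd
      rw [Set.indicator_of_mem (show d ∈ Yᶜ from h)]
      exact S.w0 d hd

end St

/-- Internal notion of a sweep: gluing and refining are mixed, words may be cut or joined at a vertex, dead letters may
be taken out of their words. -/
inductive SW (L : ℝ) : St → Prop
  | done (S : St) : (∀ d, S.a d = d) → SW L S
  | glue (S : St) (b : S.D) : S.a b ≠ b → (∀ d, S.len d ≤ L) → SW L (S.glue b) → SW L S
  | dbl (S : St) (e : S.D) : S.a e ≠ e → SW L (S.dbl e) → SW L S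
  | sub (S : St) (b : S.D) : S.a b ≠ b → SW L (S.sub b) → SW L S
  | vtx (S : St) (p q : S.D) : S.a p ≠ p → S.a q ≠ q → p ≠ q → (S.r * S.a).SameCycle p q →
      (∀ d, S.len d ≤ L) → SW L (S.vtx p q) → SW L S
  | ghost (S : St) (g : S.D) : S.a g = g → SW L (S.ghost g) → SW L S

/-- Zero-length faces join the two words of every letter of `Y`. -/
def ZProp (S : St) (Y : Set S.D) : Prop :=
  ∀ b ∈ Y, ∃ d e, S.fl Y d = 0 ∧ (S.face Y).SameCycle d e ∧ S.r.SameCycle d b ∧ S.r.SameCycle e (S.a b)

/-- `S'` with `Y'`, `B'` is a refinement of `S` with `Y`, `B` of additional weight at most `δ`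
(`Y`: letters to be glued, `B`: a union of words containing `Y`). -/
structure Rfn (S : St) (Y B : Set S.D) (S' : St) (Y' B' : Set S'.D) (δ : ℝ) : Prop where
  clean : S.Clean → S'.Clean
  cl : S'.Cl Y'
  sub : Y' ⊆ B'
  inv : ∀ d, S'.r d ∈ B' ↔ d ∈ B'
  total : S'.total ≤ S.total + δ
  wY : wt S.w Y ≤ wt S'.w Y'
  wB : wt S'.w B' ≤ wt S.w B + δ
  len : ∀ c : ℝ, (∀ d, S.len d ≤ c) → ∀ d, S'.len d ≤ c
  sw : ∀ L : ℝ, (∀ d, S.len d ≤ L) → SW L S' → SW L S

theorem Rfn.trans {S : St} {Y B : Set S.D} {S' : St} {Y' B' : Set S'.D} {S'' : St} {Y'' B'' : Set S''.D} {δ δ' : ℝ}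
    (h : Rfn S Y B S' Y' B' δ) (h' : Rfn S' Y' B' S'' Y'' B'' δ') : Rfn S Y B S'' Y'' B'' (δ + δ') where
  clean := fun hc => h'.clean (h.clean hc)
  cl := h'.cl
  sub := h'.sub
  inv := h'.inv
  total := by have := h.total; have := h'.total; linarith
  wY := h.wY.trans h'.wY
  wB := by have := h.wB; have := h'.wB; linarith
  len := fun c hc => h'.len c (h.len c hc)
  sw := fun L hL hs => h.sw L hL (h'.sw L (h.len L hL) hs)

end Pool.Agent.SWP
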