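import Pool.Agent.SWP.Ar

/-!
# Blocks of long cycles

MODULE Blk. `f` is a permutation of a finite set with weights `u`, `0 ≤ u ≤ ρ`. The long cycles (weight `≥ θ ≥ ρ`) are divided into
blocks of weight about `ρ`; there are at most `2 U / ρ` blocks, `U = ∑ u`.

Positions. Choose for every cycle a base point (for instance `base d` = the letter of the cycle of `d` with least index for a
fixed enumeration `D ≃ Fin N`; or `Quotient.out` of the `SameCycle` setoid). For `d` in the cycle of `c0 = base d` let `idx d` be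
the least `i` with `(f ^ i) c0 = d`, and `pos d = ∑ i < idx d, u ((f ^ i) c0)`. Let `c = cyc f u c0`. Facts, for `d, e` in one
cycle: (a) `0 ≤ pos d ≤ c`. (b) If `idx d < idx e` then `arcw f u d e = pos e - pos d` and
`arcw f u e d = c - (pos e - pos d)` (`arcw_pow` with `e = (f ^ (idx e - idx d)) d`, and `cyc_arc`). For `d = e` the arc weights are 0
(`arc_self`). (c) For reals `α ≤ γ` the weight of the letters `d` of the cycle with `α ≤ pos d ≤ γ` is at most `γ - α + ρ`: the
letters are `(f ^ i) c0` with `i1 ≤ i ≤ i2` (`pos` is monotone in `idx`), and the sum of `u` is `pos` (last) `+ u` (last) `- pos` (first).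
Blocks: `blk d` encodes the pair (base point, `⌊pos d / ρ⌋₊`). For one long cycle of weight `c ≥ ρ` there are at most
`⌊c / ρ⌋₊ + 1 ≤ 2 c / ρ` values of `⌊pos / ρ⌋₊`; the sum over the long cycles is at most `2 U / ρ` (the weights of different
cycles sum up to at most `U`). So the set of pairs which occur for long letters has at most `2 U / ρ` elements;
number them by `0, ..., m - 1`.
Neighbourhoods: let `d` be long, `n = ⌊pos d / ρ⌋₊`, and let `y` be in the cycle of `d` such that some `x` in the block of `d` has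
`arcw f u x y < ρ` or `arcw f u y x < ρ`. `n ρ ≤ pos x < (n + 1) ρ`. By (b) `|pos y - pos x| < ρ` or
`|pos y - pos x| > c - ρ`. In the first case `(n - 1) ρ ≤ pos y < (n + 2) ρ`; in the second case `pos y > c - ρ` or
`pos y < ρ` (because `0 ≤ pos ≤ c`). By (c) the total weight is at most `(3 ρ + ρ) + (ρ + ρ) + (ρ + ρ) = 8 ρ`.
-/

set_option autoImplicit false

namespace Pool.Agent.SWP

open Equiv

namespace BlkAux

variable {D : Type} [Fintype D] (f : Perm D) (u : D → ℝ)

omit [Fintype D] in
/-- base point of the cycle of `d` -/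
noncomputable def bs (d : D) : D :=
  Quotient.out (s := Perm.SameCycle.setoid f) (Quotient.mk (Perm.SameCycle.setoid f) d)

omit [Fintype D] in
theorem bs_same (d : D) : f.SameCycle (bs f d) d :=
  Quotient.exact (s := Perm.SameCycle.setoid f) (Quotient.out_eq _)

omit [Fintype D] in
theorem bs_eq {d e : D} (h : f.SameCycle d e) : bs f d = bs f e := by
  have h1 : Quotient.mk (Perm.SameCycle.setoid f) d = Quotient.mk (Perm.SameCycle.setoid f) e :=
    Quotient.sound (s := Perm.SameCycle.setoid f) h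
  unfold bs
  rw [h1]

omit [Fintype D] in
theorem bs_bs (d : D) : bs f (bs f d) = bs f d := bs_eq f (bs_same f d)

theorem exists_ix (d : D) : ∃ i : ℕ, (f ^ i) (bs f d) = d := (bs_same f d).exists_nat_pow_eq

omit [Fintype D] in
/-- position (number of steps from the base point) -/
noncomputable def ix (d : D) : ℕ := sInf {i : ℕ | (f ^ i) (bs f d) = d}

theorem ix_spec (d : D) : (f ^ ix f d) (bs f d) = d := Nat.sInf_mem (exists_ix f d)

omit [Fintype D] in
theorem ix_le {d : D} {i : ℕ} (h : (f ^ i) (bs f d) = d) : ix f d ≤ i := Nat.sInf_le h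

omit [Fintype D] in
/-- partial sums along a cycle -/
noncomputable def pre (c : D) (i : ℕ) : ℝ := ∑ j ∈ Finset.range i, u ((f ^ j) c)

omit [Fintype D] in
/-- position (weight from the base point) -/
noncomputable def ps (d : D) : ℝ := pre f u (bs f d) (ix f d)

theorem ix_inj {d : D} {i j : ℕ} (hij : i < j) (hj : j ≤ ix f d) :
    (f ^ i) (bs f d) ≠ (f ^ j) (bs f d) := by
  intro h
  have h1 : (f ^ (j - i)) (bs f d) = bs f d := by
    have h2 : (f ^ j) (bs f d) = (f ^ i) ((f ^ (j - i)) (bs f d)) := by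
      rw [← Perm.mul_apply, ← pow_add]
      congr 2
      omega
    rw [h2] at h
    exact ((f ^ i).injective h).symm
  have h3 : (f ^ (ix f d - (j - i))) (bs f d) = d := by
    conv_lhs => rw [← h1]
    rw [← Perm.mul_apply, ← pow_add]
    have h4 : ix f d - (j - i) + (j - i) = ix f d := by omega
    rw [h4]
    exact ix_spec f d
  have h5 := ix_le f h3
  omega

theorem ix_ne {d e : D} (h : f.SameCycle d e) (hne : d ≠ e) : ix f d ≠ ix f e := by
  intro h1
  apply hne
  rw [← ix_spec f d, ← ix_spec f e, h1, bs_eq f h]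

/-- the partial sum up to and including `d` is at most the weight of the cycle -/
theorem pre_le (hu : ∀ d, 0 ≤ u d) (d : D) : pre f u (bs f d) (ix f d + 1) ≤ cyc f u d := by
  classical
  have hinj : Set.InjOn (fun i => (f ^ i) (bs f d)) (Finset.range (ix f d + 1) : Finset ℕ) := by
    intro i hi j hj h
    rw [Finset.mem_coe, Finset.mem_range] at hi hj
    rcases lt_trichotomy i j with h1 | h1 | h1
    · exact absurd h (ix_inj f h1 (by omega))
    · exact h1
    · exact absurd h.symm (ix_inj f h1 (by omega))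
  unfold pre
  rw [← Finset.sum_image (f := u) hinj]
  unfold cyc
  have h2 : ∑ e ∈ (Finset.range (ix f d + 1)).image (fun i => (f ^ i) (bs f d)), u e =
      ∑ e ∈ (Finset.range (ix f d + 1)).image (fun i => (f ^ i) (bs f d)),
        Set.indicator {e | f.SameCycle d e} u e := by
    refine Finset.sum_congr rfl fun e he => ?_
    rw [Finset.mem_image] at he
    obtain ⟨i, -, rfl⟩ := he
    have h3 : f.SameCycle d ((f ^ i) (bs f d)) :=
      (bs_same f d).symm.trans ((Perm.SameCycle.refl f (bs f d)).pow_right (n := i))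
    rw [Set.indicator_of_mem (show (f ^ i) (bs f d) ∈ {e | f.SameCycle d e} from h3)]
  rw [h2]
  exact Finset.sum_le_sum_of_subset_of_nonneg (Finset.subset_univ _)
    fun e _ _ => Set.indicator_nonneg (fun e _ => hu e) e

omit [Fintype D] in
theorem ps_nonneg (hu : ∀ d, 0 ≤ u d) (d : D) : 0 ≤ ps f u d := by
  unfold ps pre
  exact Finset.sum_nonneg fun _ _ => hu _

theorem pow_ix (d : D) (k : ℕ) : (f ^ k) d = (f ^ (ix f d + k)) (bs f d) := by
  have h : (f ^ k) ((f ^ ix f d) (bs f d)) = (f ^ (ix f d + k)) (bs f d) := by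
    rw [← Perm.mul_apply, ← pow_add, add_comm]
  rw [ix_spec] at h
  exact h

theorem ps_add (d : D) : pre f u (bs f d) (ix f d + 1) = ps f u d + u d := by
  unfold ps pre
  rw [Finset.sum_range_succ, ix_spec]

theorem ps_le (hu : ∀ d, 0 ≤ u d) (d : D) : ps f u d + u d ≤ cyc f u d := by
  rw [← ps_add]
  exact pre_le f u hu d

/-- the arc weights -/
theorem arcw_ps {d e : D} (h : f.SameCycle d e) (hlt : ix f d < ix f e) :
    arcw f u d e = ps f u e - ps f u d := by
  have hb := bs_eq f h
  have hk : (f ^ (ix f e - ix f d)) d = e := by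
    rw [pow_ix, hb]
    have h4 : ix f d + (ix f e - ix f d) = ix f e := by omega
    rw [h4]
    exact ix_spec f e
  have h1 := arcw_pow (s := f) (u := u) (x := d) (ix f e - ix f d) (by
    intro i hi1 hi2 hcon
    have h2 : (f ^ i) d = (f ^ (ix f d + i)) (bs f e) := by
      rw [pow_ix, hb]
    have h3 : d = (f ^ ix f d) (bs f e) := by rw [← hb, ix_spec]
    rw [h2] at hcon
    exact ix_inj f (d := e) (i := ix f d) (j := ix f d + i) (by omega) (by omega)
      (h3.symm.trans hcon.symm))
  rw [hk] at h1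
  rw [h1]
  unfold ps pre
  have h5 : ix f e = ix f d + (ix f e - ix f d) := by omega
  conv_rhs => rw [h5]
  rw [Finset.sum_range_add, ← hb, add_sub_cancel_left]
  refine Finset.sum_congr rfl fun i _ => ?_
  rw [pow_ix]

/-- weight of the letters with position in an interval -/
theorem wt_ps (hu : ∀ d, 0 ≤ u d) {ρ : ℝ} (hρ : 0 < ρ) (hu1 : ∀ d, u d ≤ ρ) (d : D) {α γ : ℝ}
    (hαγ : α ≤ γ) : wt u {y | f.SameCycle d y ∧ α ≤ ps f u y ∧ ps f u y ≤ γ} ≤ γ - α + ρ := by
  classical
  set Y : Finset D := Finset.univ.filter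
    (fun y => f.SameCycle d y ∧ α ≤ ps f u y ∧ ps f u y ≤ γ) with hY
  have hw : wt u {y | f.SameCycle d y ∧ α ≤ ps f u y ∧ ps f u y ≤ γ} = ∑ y ∈ Y, u y := by
    unfold wt
    rw [hY, Finset.sum_filter]
    refine Finset.sum_congr rfl fun y _ => ?_
    by_cases h : f.SameCycle d y ∧ α ≤ ps f u y ∧ ps f u y ≤ γ
    · rw [if_pos h, Set.indicator_of_mem]
      exact h
    · rw [if_neg h, Set.indicator_of_notMem]
      exact h
  rw [hw]
  rcases Y.eq_empty_or_nonempty with h0 | h0
  · rw [h0, Finset.sum_empty]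
    linarith
  · obtain ⟨y1, hy1, h1⟩ := Y.exists_min_image (ix f) h0
    obtain ⟨y2, hy2, h2⟩ := Y.exists_max_image (ix f) h0
    have hY' : ∀ y ∈ Y, f.SameCycle d y ∧ α ≤ ps f u y ∧ ps f u y ≤ γ := fun y hy => by
      rw [hY, Finset.mem_filter] at hy
      exact hy.2
    have hbs : ∀ y ∈ Y, bs f y = bs f d := fun y hy => (bs_eq f (hY' y hy).1).symm
    have hinj : Set.InjOn (ix f) (Y : Set D) := by
      intro a ha b hb hab
      by_contra hne
      exact ix_ne f ((hY' a ha).1.symm.trans (hY' b hb).1) hne hab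
    have h12 : ix f y1 ≤ ix f y2 := h1 y2 hy2
    have h3 : ∑ y ∈ Y, u y ≤
        ∑ i ∈ Finset.Ico (ix f y1) (ix f y2 + 1), u ((f ^ i) (bs f d)) := by
      have h4 : ∑ y ∈ Y, u y = ∑ i ∈ Y.image (ix f), u ((f ^ i) (bs f d)) := by
        rw [Finset.sum_image hinj]
        refine Finset.sum_congr rfl fun y hy => ?_
        rw [← hbs y hy, ix_spec]
      rw [h4]
      refine Finset.sum_le_sum_of_subset_of_nonneg ?_ fun _ _ _ => hu _
      intro i hi
      rw [Finset.mem_image] at hi
      obtain ⟨y, hy, rfl⟩ := hi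
      rw [Finset.mem_Ico]
      exact ⟨h1 y hy, Nat.lt_succ_of_le (h2 y hy)⟩
    have h5 : ∑ i ∈ Finset.Ico (ix f y1) (ix f y2 + 1), u ((f ^ i) (bs f d)) =
        ps f u y2 + u y2 - ps f u y1 := by
      rw [Finset.sum_Ico_eq_sub _ (by omega : ix f y1 ≤ ix f y2 + 1), ← ps_add]
      unfold ps pre
      rw [hbs y1 hy1, hbs y2 hy2]
    rw [h5] at h3
    have h6 := (hY' y1 hy1).2.1
    have h7 := (hY' y2 hy2).2.2
    have h8 := hu1 y2
    linarith

/-- the weights of different cycles sum up to at most the total weight -/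
theorem sum_cyc_le (hu : ∀ d, 0 ≤ u d) (B : Finset D) (hB : ∀ b ∈ B, bs f b = b) :
    ∑ b ∈ B, cyc f u b ≤ ∑ d, u d := by
  classical
  unfold cyc
  rw [Finset.sum_comm]
  refine Finset.sum_le_sum fun e _ => ?_
  have h1 : ∑ b ∈ B, Set.indicator {e | f.SameCycle b e} u e ≤
      ∑ b ∈ B, (if b = bs f e then u e else 0) := by
    refine Finset.sum_le_sum fun b hb => ?_
    by_cases h : f.SameCycle b e
    · rw [Set.indicator_of_mem (show e ∈ {e | f.SameCycle b e} from h)]
      have h2 : b = bs f e := by rw [← bs_eq f h, hB b hb]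
      rw [if_pos h2]
    · rw [Set.indicator_of_notMem (show e ∉ {e | f.SameCycle b e} from h)]
      split_ifs
      · exact hu e
      · exact le_rfl
  refine h1.trans ?_
  rw [Finset.sum_ite_eq']
  split_ifs
  · exact le_rfl
  · exact hu e

omit [Fintype D] in
theorem exists_num {α : Type} (s : Finset α) : ∃ g : α → ℕ, Set.InjOn g (s : Set α) ∧
    ∀ x ∈ s, g x < s.card := by
  classical
  refine ⟨fun x => if h : x ∈ s then (s.equivFin ⟨x, h⟩ : ℕ) else 0, ?_, ?_⟩
  · intro x hx y hy hxy
    have hx' : x ∈ s := hx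
    have hy' : y ∈ s := hy
    simp only [dif_pos hx', dif_pos hy'] at hxy
    have h1 := s.equivFin.injective (Fin.ext hxy)
    exact congrArg Subtype.val h1
  · intro x hx
    simp only [dif_pos hx]
    exact (s.equivFin ⟨x, hx⟩).isLt

end BlkAux

open BlkAux

theorem blocks {D : Type} [Fintype D] (f : Perm D) (u : D → ℝ) (hu : ∀ d, 0 ≤ u d) (ρ θ : ℝ) (hρ : 0 < ρ)
    (hu1 : ∀ d, u d ≤ ρ) (hθ : ρ ≤ θ) :
    ∃ (m : ℕ) (blk : D → ℕ), (m : ℝ) ≤ 2 * (∑ d, u d) / ρ ∧
      (∀ d, θ ≤ cyc f u d → blk d < m) ∧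
      (∀ d, θ ≤ cyc f u d →
        wt u {y | f.SameCycle d y ∧ ∃ x, θ ≤ cyc f u x ∧ blk x = blk d ∧ (¬ f.SameCycle x y ∨
          arcw f u x y < ρ ∨ arcw f u y x < ρ)} ≤ 8 * ρ) := by
  classical
  set Lg : Finset D := Finset.univ.filter (fun d => θ ≤ cyc f u d) with hLg
  set key : D → D × ℕ := fun d => (bs f d, ⌊ps f u d / ρ⌋₊) with hkey
  set Pr : Finset (D × ℕ) := Lg.image key with hPr
  have hmemL : ∀ d, d ∈ Lg ↔ θ ≤ cyc f u d := fun d => by
    rw [hLg, Finset.mem_filter]
    exact ⟨fun h => h.2, fun h => ⟨Finset.mem_univ d, h⟩⟩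
  have hmemP : ∀ d, θ ≤ cyc f u d → key d ∈ Pr := fun d hd =>
    Finset.mem_image_of_mem _ ((hmemL d).2 hd)
  obtain ⟨g, hg1, hg2⟩ := exists_num Pr
  refine ⟨Pr.card, fun d => g (key d), ?_, fun d hd => hg2 _ (hmemP d hd), fun d hd => ?_⟩
  · -- the number of blocks
    set B : Finset D := Lg.image (bs f) with hB
    have hBb : ∀ b ∈ B, bs f b = b ∧ θ ≤ cyc f u b := by
      intro b hb
      rw [hB, Finset.mem_image] at hb
      obtain ⟨d, hd, rfl⟩ := hb
      refine ⟨bs_bs f d, ?_⟩
      rw [cyc_same (bs_same f d)]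
      exact (hmemL d).1 hd
    have hsub : Pr ⊆ B.biUnion (fun b => (Finset.range (⌊cyc f u b / ρ⌋₊ + 1)).image
        (fun k => (b, k))) := by
      intro x hx
      rw [hPr, Finset.mem_image] at hx
      obtain ⟨d, hd, rfl⟩ := hx
      rw [Finset.mem_biUnion]
      refine ⟨bs f d, Finset.mem_image_of_mem _ hd, ?_⟩
      rw [Finset.mem_image]
      refine ⟨⌊ps f u d / ρ⌋₊, ?_, rfl⟩
      rw [Finset.mem_range]
      apply Nat.lt_succ_of_le
      apply Nat.floor_le_floor
      have h1 := ps_le f u hu d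
      have h2 := hu d
      rw [cyc_same (bs_same f d)]
      exact div_le_div_of_nonneg_right (by linarith) hρ.le
    have h3 : (Pr.card : ℝ) ≤ ∑ b ∈ B, ((⌊cyc f u b / ρ⌋₊ + 1 : ℕ) : ℝ) := by
      have h4 : Pr.card ≤ ∑ b ∈ B, (⌊cyc f u b / ρ⌋₊ + 1) := by
        refine (Finset.card_le_card hsub).trans (Finset.card_biUnion_le.trans ?_)
        refine Finset.sum_le_sum fun b _ => ?_
        refine Finset.card_image_le.trans ?_
        rw [Finset.card_range]
      exact_mod_cast h4
    refine h3.trans ?_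
    have h5 : ∑ b ∈ B, ((⌊cyc f u b / ρ⌋₊ + 1 : ℕ) : ℝ) ≤ ∑ b ∈ B, 2 / ρ * cyc f u b := by
      refine Finset.sum_le_sum fun b hb => ?_
      have h6 := (hBb b hb).2
      have h7 : 1 ≤ cyc f u b / ρ := by
        rw [le_div_iff₀ hρ]
        linarith
      have h8 : (⌊cyc f u b / ρ⌋₊ : ℝ) ≤ cyc f u b / ρ := Nat.floor_le (by linarith)
      push_cast
      have h9 : 2 / ρ * cyc f u b = cyc f u b / ρ + cyc f u b / ρ := by ring
      rw [h9]
      linarith
    refine h5.trans ?_
    rw [← Finset.mul_sum]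
    have h10 := sum_cyc_le f u hu B (fun b hb => (hBb b hb).1)
    calc 2 / ρ * ∑ b ∈ B, cyc f u b ≤ 2 / ρ * ∑ d, u d :=
          mul_le_mul_of_nonneg_left h10 (by positivity)
      _ = 2 * (∑ d, u d) / ρ := by ring
  · -- neighbourhoods
    set c := cyc f u d with hc
    set n : ℕ := ⌊ps f u d / ρ⌋₊ with hn
    have hsub : {y | f.SameCycle d y ∧ ∃ x, θ ≤ cyc f u x ∧ g (key x) = g (key d) ∧
        (¬ f.SameCycle x y ∨ arcw f u x y < ρ ∨ arcw f u y x < ρ)} ⊆
        ({y | f.SameCycle d y ∧ ((n : ℝ) - 1) * ρ ≤ ps f u y ∧ ps f u y ≤ ((n : ℝ) + 2) * ρ} ∪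
          {y | f.SameCycle d y ∧ c - ρ ≤ ps f u y ∧ ps f u y ≤ c}) ∪
          {y | f.SameCycle d y ∧ 0 ≤ ps f u y ∧ ps f u y ≤ ρ} := by
      rintro y ⟨hdy, x, hx, hgx, h⟩
      have hkx : key x = key d := hg1 (hmemP x hx) (hmemP d hd) hgx
      have hb : bs f x = bs f d := congrArg Prod.fst hkx
      have hfl : ⌊ps f u x / ρ⌋₊ = n := congrArg Prod.snd hkx
      have hxd : f.SameCycle x d := (bs_same f x).symm.trans (hb ▸ bs_same f d)
      have hxy : f.SameCycle x y := hxd.trans hdy
      have hcx : cyc f u x = c := cyc_same hxd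
      have hcy : cyc f u y = c := (cyc_same hdy).symm
      have hx0 := ps_nonneg f u hu x
      have hy0 := ps_nonneg f u hu y
      have hx1 : ps f u x ≤ c := by
        have := ps_le f u hu x
        have := hu x
        linarith
      have hy1 : ps f u y ≤ c := by
        have := ps_le f u hu y
        have := hu y
        linarith
      have hn1 : (n : ℝ) * ρ ≤ ps f u x := by
        have h1 : (⌊ps f u x / ρ⌋₊ : ℝ) ≤ ps f u x / ρ := Nat.floor_le (by positivity)
        rw [hfl, le_div_iff₀ hρ] at h1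
        exact h1
      have hn2 : ps f u x < ((n : ℝ) + 1) * ρ := by
        have h1 := Nat.lt_floor_add_one (ps f u x / ρ)
        rw [hfl, div_lt_iff₀ hρ] at h1
        exact h1
      have h' : arcw f u x y < ρ ∨ arcw f u y x < ρ := by
        rcases h with h | h
        · exact absurd hxy h
        · exact h
      by_cases hne : x = y
      · subst hne
        left; left
        exact ⟨hdy, by linarith, by linarith⟩
      rcases lt_or_gt_of_ne (ix_ne f hxy hne) with hlt | hlt
      · -- `x` before `y`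
        have e1 := arcw_ps f u hxy hlt
        have e2 := cyc_arc (u := u) hne hxy
        rw [hcx] at e2
        have hmono : ps f u x ≤ ps f u y := by
          have := arcw_nonneg (s := f) hu x y
          linarith
        rcases h' with h' | h'
        · left; left
          exact ⟨hdy, by linarith, by linarith⟩
        · left; right
          exact ⟨hdy, by linarith, hy1⟩
      · have e1 := arcw_ps f u hxy.symm hlt
        have e2 := cyc_arc (u := u) hne hxy
        rw [hcx] at e2
        have hmono : ps f u y ≤ ps f u x := by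
          have := arcw_nonneg (s := f) hu y x
          linarith
        rcases h' with h' | h'
        · right
          exact ⟨hdy, hy0, by linarith⟩
        · left; left
          exact ⟨hdy, by linarith, by linarith⟩
    refine (wt_mono hu hsub).trans ?_
    refine (wt_union_le hu _ _).trans ?_
    have w1 := wt_union_le hu
      {y | f.SameCycle d y ∧ ((n : ℝ) - 1) * ρ ≤ ps f u y ∧ ps f u y ≤ ((n : ℝ) + 2) * ρ}
      {y | f.SameCycle d y ∧ c - ρ ≤ ps f u y ∧ ps f u y ≤ c}
    have w2 := wt_ps f u hu hρ hu1 d (α := ((n : ℝ) - 1) * ρ) (γ := ((n : ℝ) + 2) * ρ)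
      (by nlinarith)
    have w3 := wt_ps f u hu hρ hu1 d (α := c - ρ) (γ := c) (by linarith)
    have w4 := wt_ps f u hu hρ hu1 d (α := 0) (γ := ρ) hρ.le
    have e : ((n : ℝ) + 2) * ρ - ((n : ℝ) - 1) * ρ + ρ = 4 * ρ := by ring
    rw [e] at w2
    linarith

end Pool.Agent.SWP
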