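import Pool.Agent.SWP.Cy

/-!
# Short chains of words and short faces

MODULE Chain. `Nb r f sh k x y`: `y` is reached from `x` with at most `k` moves inside cycles of `f` consisting of letters
with `sh`, and free moves inside cycles of `r` (words). `sh` is constant on the cycles of `f` (`hsh`).

`nb_mono`: `Nb k` implies `Nb k'` for `k ≤ k'`. `nb_word`: `Nb k x y` and `r.SameCycle y z` imply `Nb k x z`, and similarly on the
left. `nb_face`: if `Nb k x g`, `sh g`, `f.SameCycle g h`, then `Nb (k + 1) x h`.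

`chain`: Let `lev y` be the least `k` with `Nb k x y` (defined for the reachable letters). It is constant on words. Claim: if
`lev y = k` then there are `a, b : ℕ → D` with `a 0 = x`, `b k = y`, `a l` and `b l` in one word for `l ≤ k`,
`b l` and `a (l+1)` in one short face for `l < k`, and `lev (a l) = lev (b l) = l` for `l ≤ k`. Induct on `k`: for `k = 0` take
`a 0 = x`, `b 0 = y`. If `lev y = k + 1` then by definition there are `g, h` with `Nb k x g`, `sh g`, `g, h` in one face,
`h, y` in one word. `lev g ≤ k`, and `lev g < k` is impossible (then `lev y ≤ k`), so `lev g = k`. Apply the induction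
hypothesis to `g` and put `a (k+1) = h`, `b (k+1) = y` (use functions defined by `if l ≤ k then .. else ..`).
Words: `a l`, `a m` have different levels for `l ≠ m`, so they are in different words. Faces: suppose `1 ≤ l < m ≤ k` and
`a l`, `a m` in one face. This face is short and contains `b (l-1)` of level `l - 1`, so all its letters have
level at most `l`; but `lev (a m) = m > l`. Contradiction.
For the theorem: `Nb k x y` gives `lev y = k' ≤ k`.
-/

set_option autoImplicit false

namespace Pool.Agent.SWP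

open Equiv

variable {D : Type} {r f : Perm D} {sh : D → Prop}

theorem nb_mono {k k' : ℕ} (hk : k ≤ k') {x y : D} (h : Nb r f sh k x y) : Nb r f sh k' x y := by
  induction hk with
  | refl => exact h
  | step _ ih => exact Or.inl ih

theorem nb_word {k : ℕ} {x y z : D} (h : Nb r f sh k x y) (h2 : r.SameCycle y z) : Nb r f sh k x z := by
  induction k with
  | zero => exact Equiv.Perm.SameCycle.trans h h2
  | succ k ih =>
    rcases h with h | ⟨g, e, h3, h4, h5, h6⟩
    · exact Or.inl (ih h)
    · exact Or.inr ⟨g, e, h3, h4, h5, h6.trans h2⟩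

theorem nb_word_left {k : ℕ} {x y z : D} (h : Nb r f sh k x y) (h2 : r.SameCycle x z) : Nb r f sh k z y := by
  induction k generalizing y with
  | zero => exact Equiv.Perm.SameCycle.trans h2.symm h
  | succ k ih =>
    rcases h with h | ⟨g, e, h3, h4, h5, h6⟩
    · exact Or.inl (ih h)
    · exact Or.inr ⟨g, e, ih h3, h4, h5, h6⟩

theorem nb_face {k : ℕ} {x g h : D} (h1 : Nb r f sh k x g) (h2 : sh g) (h3 : f.SameCycle g h) :
    Nb r f sh (k + 1) x h := by
  exact Or.inr ⟨g, h, h1, h2, h3, Equiv.Perm.SameCycle.refl r h⟩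

private theorem chain_aux {x : D} (k : ℕ) : ∀ y : D, Nb r f sh k x y →
    (∀ j < k, ¬ Nb r f sh j x y) →
    ∃ a b : ℕ → D, a 0 = x ∧ b k = y ∧ (∀ l ≤ k, r.SameCycle (a l) (b l)) ∧
      (∀ l < k, sh (b l) ∧ f.SameCycle (b l) (a (l + 1))) ∧
      (∀ l ≤ k, Nb r f sh l x (a l) ∧ ∀ j < l, ¬ Nb r f sh j x (a l)) := by
  induction k with
  | zero =>
    intro y h _
    refine ⟨fun _ => x, fun _ => y, rfl, rfl, fun l _ => h, fun l hl => absurd hl (Nat.not_lt_zero l),
      fun l hl => ?_⟩
    obtain rfl : l = 0 := Nat.le_zero.1 hl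
    exact ⟨Equiv.Perm.SameCycle.refl r x, fun j hj => absurd hj (Nat.not_lt_zero j)⟩
  | succ k ih =>
    intro y h hmin
    rcases h with h | ⟨g, e, h3, h4, h5, h6⟩
    · exact absurd h (hmin k (Nat.lt_succ_self k))
    · have hg : ∀ j < k, ¬ Nb r f sh j x g := fun j hj hn =>
        hmin (j + 1) (by omega) (nb_word (nb_face hn h4 h5) h6)
      obtain ⟨a, b, ha0, hbk, hw, hf, hl⟩ := ih g h3 hg
      refine ⟨fun l => if l ≤ k then a l else e, fun l => if l ≤ k then b l else y, ?_, ?_, ?_, ?_,
        ?_⟩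
      · simp only [Nat.zero_le, if_true]
        exact ha0
      · have : ¬ k + 1 ≤ k := by omega
        simp only [this, if_false]
      · intro l hlk
        by_cases hl' : l ≤ k
        · simp only [hl', if_true]
          exact hw l hl'
        · simp only [hl', if_false]
          exact h6
      · intro l hlk
        have hl1 : l ≤ k := by omega
        by_cases hl2 : l + 1 ≤ k
        · simp only [hl1, hl2, if_true]
          exact hf l (by omega)
        · obtain rfl : l = k := by omega
          simp only [hl1, hl2, if_true, if_false]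
          rw [hbk]
          exact ⟨h4, h5⟩
      · intro l hlk
        by_cases hl' : l ≤ k
        · simp only [hl', if_true]
          exact hl l hl'
        · obtain rfl : l = k + 1 := by omega
          simp only [hl', if_false]
          exact ⟨nb_face h3 h4 h5, fun j hj hn => hmin j hj (nb_word hn h6)⟩

theorem chain (hsh : ∀ g h, f.SameCycle g h → sh g → sh h) {K : ℕ} {x y : D} (h : Nb r f sh K x y) :
    ∃ (k : ℕ) (a b : ℕ → D), k ≤ K ∧ a 0 = x ∧ b k = y ∧ (∀ l ≤ k, r.SameCycle (a l) (b l)) ∧
      (∀ l < k, sh (b l) ∧ f.SameCycle (b l) (a (l + 1))) ∧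
      (∀ l ≤ k, ∀ m ≤ k, l ≠ m → ¬ r.SameCycle (a l) (a m)) ∧
      (∀ l, 1 ≤ l → l ≤ k → ∀ m, 1 ≤ m → m ≤ k → l ≠ m → ¬ f.SameCycle (a l) (a m)) := by
  classical
  have hex : ∃ k, Nb r f sh k x y := ⟨K, h⟩
  have hk := Nat.find_spec hex
  have hmin : ∀ j < Nat.find hex, ¬ Nb r f sh j x y := fun j hj => Nat.find_min hex hj
  have hK : Nat.find hex ≤ K := Nat.find_min' hex h
  generalize Nat.find hex = k at hk hmin hK
  obtain ⟨a, b, ha0, hbk, hw, hf, hl⟩ := chain_aux k y hk hmin
  have w1 : ∀ l ≤ k, ∀ m ≤ k, l < m → ¬ r.SameCycle (a l) (a m) := by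
    intro l hlk m hmk hlm hs
    exact (hl m hmk).2 l hlm (nb_word (hl l hlk).1 hs)
  have w2 : ∀ l, 1 ≤ l → l ≤ k → ∀ m ≤ k, l < m → ¬ f.SameCycle (a l) (a m) := by
    intro l hl1 hlk m hmk hlm hs
    obtain ⟨l', rfl⟩ : ∃ l', l = l' + 1 := ⟨l - 1, by omega⟩
    obtain ⟨h1, h2⟩ := hf l' (by omega)
    have h3 : Nb r f sh l' x (b l') := nb_word (hl l' (by omega)).1 (hw l' (by omega))
    exact (hl m hmk).2 (l' + 1) hlm (nb_face h3 h1 (h2.trans hs))
  refine ⟨k, a, b, hK, ha0, hbk, hw, hf, ?_, ?_⟩
  · intro l hlk m hmk hne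
    rcases lt_or_gt_of_ne hne with h' | h'
    · exact w1 l hlk m hmk h'
    · exact fun hs => w1 m hmk l hlk h' hs.symm
  · intro l hl1 hlk m hm1 hmk hne
    rcases lt_or_gt_of_ne hne with h' | h'
    · exact w2 l hl1 hlk m hmk h'
    · exact fun hs => w2 m hm1 hmk l hlk h' hs.symm

end Pool.Agent.SWP
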