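import Pool.Agent.SWP.Mv

/-!
# Refinements commute with gluing

MODULE Comm. `St.setr S r` is the state `S` with another permutation. `sweep_glue`: claim: if `T = X.glue d`, `d` live in `X`, all words
of `X` have length at most `L`, all letters have `2 w ≤ L`, and `Ref (X.glue d) T'`, then there are `X'` with `Ref X X'` and `d'` live
in `X'` with `T' = X'.glue d'`, with the same bounds. Indeed `d' = inl d` and:
`(X.glue d).dbl e = (X.dbl e).glue (inl d)`: `e` is live in `X.glue d`, so `e ≠ d, X.a d` and `e` is live in `X`; the `r` parts are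
`s * ((r * sw d (a d)) ⊕ 1) * sw c c' * s` and `(s * (r ⊕ 1) * sw c c' * s) * sw (inl d) (inl (a d))` with `s = sw (inl e) (inr false)`; they
agree because the transposition of `inl d, inl (a d)` commutes with `s` and `sw c c'` (disjoint). `(X.glue d).sub b = (X.sub b).glue (inl d)`:
`b ≠ d, X.a d`, `(X.glue d).a b = X.a b`; the same. `(X.glue d).zedge p q = (X.zedge p q).glue (inl d)`:
`p, q` are live in `X.glue d`; and `(X.glue d).r * (X.glue d).a = X.r * X.a` (the two transpositions cancel because `sw d (a d)` commutes with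
`a`), so the condition on the vertex is the same. The `a` and `w` parts: check on `inl`, `inr` letters (the new letters are not
`inl d`). Prove the equality of states from the equality of the fields `r`, `a`, `w` (the types are the same by definition):
`St.ext_same`. Bounds for `X'`: `St.dbl_len`, `St.sub_len`, `St.zedge_len`; new letters have weight `w e` or `0` (`0 ≤ L` because `2 w d ≤ L`).
Now induct on `Relation.ReflTransGen Ref (S.glue b) T` (head induction generalised over `S, b`, or build the chain step by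
step): we get `T'` with `ReflTransGen Ref S T'`, `T = T'.glue b'`, `b'` live, words of `T'` at most `L`; then `GlueAll.cons`.
-/

set_option autoImplicit false

namespace Pool.Agent.SWP

open Equiv

/-- states with the same letters are equal if `r`, `a`, `w` agree -/
theorem St.ext_same (S : St) (r r' a a' : Perm S.D) (w w' : S.D → ℝ) (hr : r = r') (ha : a = a') (hw : w = w')
    (h1 : ∀ d, a (a d) = d) (h1' : ∀ d, a' (a' d) = d) (h2 : ∀ d, w (a d) = w d) (h2' : ∀ d, w' (a' d) = w' d)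
    (h3 : ∀ d, 0 ≤ w d) (h3' : ∀ d, 0 ≤ w' d) (h4 : ∀ d, a d = d → w d = 0) (h4' : ∀ d, a' d = d → w' d = 0) :
    (St.mk S.D S.fD r a w h1 h2 h3 h4 : St) = St.mk S.D S.fD r' a' w' h1' h2' h3' h4' := by
  subst hr ha hw; rfl

/-- the vertices are not changed by gluing -/
theorem glue_vertex (S : St) (b : S.D) : (S.glue b).r * (S.glue b).a = S.r * S.a := by
  have key : (sw b (S.a b) * S.a * sw b (S.a b) : Perm S.D) = S.a := by
    ext d
    simp only [Perm.mul_apply]
    by_cases h1 : d = b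
    · subst h1
      rw [sw_left, S.aa, sw_left]
    by_cases h2 : d = S.a b
    · subst h2
      rw [sw_right, sw_right, S.aa]
    have h3 : S.a d ≠ b := fun h => h2 (by rw [← h, S.aa])
    have h4 : S.a d ≠ S.a b := fun h => h1 (S.a.injective h)
    rw [sw_of_ne h1 h2, sw_of_ne h3 h4]
  show (S.r * sw b (S.a b)) * (S.a * sw b (S.a b)) = S.r * S.a
  rw [mul_assoc, ← mul_assoc (sw b (S.a b)) S.a, key]

/-- disjoint transpositions commute -/
theorem sw_commute {D : Type} (x y z w : D) (h1 : x ≠ z) (h2 : x ≠ w) (h3 : y ≠ z) (h4 : y ≠ w) :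
    sw x y * sw z w = sw z w * sw x y := by
  ext d
  simp only [Perm.mul_apply]
  by_cases hx : d = x
  · subst hx
    rw [sw_of_ne h1 h2, sw_left, sw_of_ne h3 h4]
  by_cases hy : d = y
  · subst hy
    rw [sw_of_ne h3 h4, sw_right, sw_of_ne h1 h2]
  by_cases hz : d = z
  · subst hz
    rw [sw_left, sw_of_ne h2.symm h4.symm, sw_of_ne h1.symm h3.symm, sw_left]
  by_cases hw : d = w
  · subst hw
    rw [sw_right, sw_of_ne h1.symm h3.symm, sw_of_ne h2.symm h4.symm, sw_right]
  rw [sw_of_ne hz hw, sw_of_ne hx hy, sw_of_ne hz hw]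

theorem sumCongr_sw {D : Type} (r : Perm D) (x y : D) :
    (Equiv.sumCongr (r * sw x y) (Equiv.refl Bool) : Perm (D ⊕ Bool))
      = Equiv.sumCongr r (Equiv.refl Bool) * sw (Sum.inl x) (Sum.inl y) := by
  ext d
  rcases d with d | c
  · by_cases h1 : d = x
    · subst h1
      simp [Perm.mul_apply, sw_left]
    by_cases h2 : d = y
    · subst h2
      simp [Perm.mul_apply, sw_right]
    simp only [Perm.mul_apply]
    rw [sw_of_ne (show (Sum.inl d : D ⊕ Bool) ≠ Sum.inl x from fun h => h1 (Sum.inl.inj h))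
      (show (Sum.inl d : D ⊕ Bool) ≠ Sum.inl y from fun h => h2 (Sum.inl.inj h))]
    simp [sw_of_ne h1 h2]
  · simp only [Perm.mul_apply]
    rw [sw_of_ne (show (Sum.inr c : D ⊕ Bool) ≠ Sum.inl x from by simp)
      (show (Sum.inr c : D ⊕ Bool) ≠ Sum.inl y from by simp)]
    simp

theorem sumCongr_sw_not {D : Type} (r : Perm D) (x y : D) :
    (Equiv.sumCongr (r * sw x y) Equiv.boolNot : Perm (D ⊕ Bool))
      = Equiv.sumCongr r Equiv.boolNot * sw (Sum.inl x) (Sum.inl y) := by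
  ext d
  rcases d with d | c
  · by_cases h1 : d = x
    · subst h1
      simp [Perm.mul_apply, sw_left]
    by_cases h2 : d = y
    · subst h2
      simp [Perm.mul_apply, sw_right]
    simp only [Perm.mul_apply]
    rw [sw_of_ne (show (Sum.inl d : D ⊕ Bool) ≠ Sum.inl x from fun h => h1 (Sum.inl.inj h))
      (show (Sum.inl d : D ⊕ Bool) ≠ Sum.inl y from fun h => h2 (Sum.inl.inj h))]
    simp [sw_of_ne h1 h2]
  · simp only [Perm.mul_apply]
    rw [sw_of_ne (show (Sum.inr c : D ⊕ Bool) ≠ Sum.inl x from by simp)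
      (show (Sum.inr c : D ⊕ Bool) ≠ Sum.inl y from by simp)]
    simp

theorem elim_indicator {D : Type} (w : D → ℝ) (x y : D) (c : ℝ) :
    (Sum.elim (Set.indicator {d | d ≠ x ∧ d ≠ y} w) (fun _ => c) : D ⊕ Bool → ℝ)
      = Set.indicator {d : D ⊕ Bool | d ≠ Sum.inl x ∧ d ≠ Sum.inl y} (Sum.elim w (fun _ => c)) := by
  funext d
  rcases d with d | b
  · by_cases h : d ≠ x ∧ d ≠ y
    · rw [Set.indicator_of_mem (show (Sum.inl d : D ⊕ Bool) ∈ {d : D ⊕ Bool | d ≠ Sum.inl x ∧ d ≠ Sum.inl y} from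
        ⟨fun h' => h.1 (Sum.inl.inj h'), fun h' => h.2 (Sum.inl.inj h')⟩)]
      simp only [Sum.elim_inl]
      rw [Set.indicator_of_mem (show d ∈ {d | d ≠ x ∧ d ≠ y} from h)]
    · rw [Set.indicator_of_notMem (show (Sum.inl d : D ⊕ Bool) ∉ {d : D ⊕ Bool | d ≠ Sum.inl x ∧ d ≠ Sum.inl y} from
        fun h' => h ⟨fun e => h'.1 (by rw [e]), fun e => h'.2 (by rw [e])⟩)]
      simp only [Sum.elim_inl]
      rw [Set.indicator_of_notMem (show d ∉ {d | d ≠ x ∧ d ≠ y} from h)]
  · rw [Set.indicator_of_mem (show (Sum.inr b : D ⊕ Bool) ∈ {d : D ⊕ Bool | d ≠ Sum.inl x ∧ d ≠ Sum.inl y} from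
        ⟨by simp, by simp⟩)]
    simp

theorem dbl_core {D : Type} (r : Perm D) (e d d' : D) (h1 : e ≠ d) (h2 : e ≠ d') :
    (sw (Sum.inl e) (Sum.inr false) * Equiv.sumCongr (r * sw d d') (Equiv.refl Bool)
        * sw (Sum.inr true) (Sum.inr false) * sw (Sum.inl e) (Sum.inr false) : Perm (D ⊕ Bool))
      = (sw (Sum.inl e) (Sum.inr false) * Equiv.sumCongr r (Equiv.refl Bool) * sw (Sum.inr true) (Sum.inr false)
        * sw (Sum.inl e) (Sum.inr false)) * sw (Sum.inl d) (Sum.inl d') := by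
  have c1 : (sw (Sum.inl e) (Sum.inr false) * sw (Sum.inl d) (Sum.inl d') : Perm (D ⊕ Bool))
      = sw (Sum.inl d) (Sum.inl d') * sw (Sum.inl e) (Sum.inr false) := by
    apply sw_commute
    · exact fun h => h1 (Sum.inl.inj h)
    · exact fun h => h2 (Sum.inl.inj h)
    · simp
    · simp
  have c2 : (sw (Sum.inr true) (Sum.inr false) * sw (Sum.inl d) (Sum.inl d') : Perm (D ⊕ Bool))
      = sw (Sum.inl d) (Sum.inl d') * sw (Sum.inr true) (Sum.inr false) := by
    apply sw_commute <;> simp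
  have e0 : (Equiv.sumCongr (r * sw d d') (Equiv.refl Bool) : Perm (D ⊕ Bool))
      = (Equiv.sumCongr r (Equiv.refl Bool) : Perm (D ⊕ Bool)) * sw (Sum.inl d) (Sum.inl d') := sumCongr_sw r d d'
  generalize (sw (Sum.inl e) (Sum.inr false) : Perm (D ⊕ Bool)) = A at *
  generalize (sw (Sum.inl d) (Sum.inl d') : Perm (D ⊕ Bool)) = B at *
  generalize (sw (Sum.inr true) (Sum.inr false) : Perm (D ⊕ Bool)) = C at *
  generalize (Equiv.sumCongr (r * sw d d') (Equiv.refl Bool) : Perm (D ⊕ Bool)) = E at *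
  generalize (Equiv.sumCongr r (Equiv.refl Bool) : Perm (D ⊕ Bool)) = F at *
  subst e0
  calc A * (F * B) * C * A = A * F * (B * C) * A := by simp only [mul_assoc]
    _ = A * F * (C * B) * A := by rw [c2]
    _ = A * F * C * (B * A) := by simp only [mul_assoc]
    _ = A * F * C * (A * B) := by rw [c1]
    _ = (A * F * C * A) * B := by simp only [mul_assoc]

theorem sub_core {D : Type} (r : Perm D) (b b' b'' d d' : D) (h1 : b ≠ d) (h2 : b ≠ d') (hb : b'' = b') :
    (sw (Sum.inl b'') (Sum.inr false) * Equiv.sumCongr (r * sw d d') (Equiv.refl Bool)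
        * sw (Sum.inl b) (Sum.inr true) : Perm (D ⊕ Bool))
      = (sw (Sum.inl b') (Sum.inr false) * Equiv.sumCongr r (Equiv.refl Bool)
        * sw (Sum.inl b) (Sum.inr true)) * sw (Sum.inl d) (Sum.inl d') := by
  subst hb
  have c1 : (sw (Sum.inl b) (Sum.inr true) * sw (Sum.inl d) (Sum.inl d') : Perm (D ⊕ Bool))
      = sw (Sum.inl d) (Sum.inl d') * sw (Sum.inl b) (Sum.inr true) := by
    apply sw_commute
    · exact fun h => h1 (Sum.inl.inj h)
    · exact fun h => h2 (Sum.inl.inj h)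
    · simp
    · simp
  have e0 : (Equiv.sumCongr (r * sw d d') (Equiv.refl Bool) : Perm (D ⊕ Bool))
      = (Equiv.sumCongr r (Equiv.refl Bool) : Perm (D ⊕ Bool)) * sw (Sum.inl d) (Sum.inl d') := sumCongr_sw r d d'
  generalize (sw (Sum.inl b'') (Sum.inr false) : Perm (D ⊕ Bool)) = A at *
  generalize (sw (Sum.inl d) (Sum.inl d') : Perm (D ⊕ Bool)) = B at *
  generalize (sw (Sum.inl b) (Sum.inr true) : Perm (D ⊕ Bool)) = C at *
  generalize (Equiv.sumCongr (r * sw d d') (Equiv.refl Bool) : Perm (D ⊕ Bool)) = E at *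
  generalize (Equiv.sumCongr r (Equiv.refl Bool) : Perm (D ⊕ Bool)) = F at *
  subst e0
  calc A * (F * B) * C = A * F * (B * C) := by simp only [mul_assoc]
    _ = A * F * (C * B) := by rw [c1]
    _ = (A * F * C) * B := by simp only [mul_assoc]

theorem zedge_core {D : Type} (r : Perm D) (p q d d' : D) :
    (sw (Sum.inl p) (Sum.inr true) * sw (Sum.inl q) (Sum.inr false)
        * Equiv.sumCongr (r * sw d d') (Equiv.refl Bool) : Perm (D ⊕ Bool))
      = (sw (Sum.inl p) (Sum.inr true) * sw (Sum.inl q) (Sum.inr false) * Equiv.sumCongr r (Equiv.refl Bool))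
        * sw (Sum.inl d) (Sum.inl d') := by
  have e0 : (Equiv.sumCongr (r * sw d d') (Equiv.refl Bool) : Perm (D ⊕ Bool))
      = (Equiv.sumCongr r (Equiv.refl Bool) : Perm (D ⊕ Bool)) * sw (Sum.inl d) (Sum.inl d') := sumCongr_sw r d d'
  generalize (sw (Sum.inl p) (Sum.inr true) : Perm (D ⊕ Bool)) = A at *
  generalize (sw (Sum.inl d) (Sum.inl d') : Perm (D ⊕ Bool)) = B at *
  generalize (sw (Sum.inl q) (Sum.inr false) : Perm (D ⊕ Bool)) = C at *
  generalize (Equiv.sumCongr (r * sw d d') (Equiv.refl Bool) : Perm (D ⊕ Bool)) = E at *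
  generalize (Equiv.sumCongr r (Equiv.refl Bool) : Perm (D ⊕ Bool)) = F at *
  subst e0
  calc A * C * (F * B) = (A * C * F) * B := by simp only [mul_assoc]

theorem glue_dbl (X : St) (d e : X.D) (h1 : e ≠ d) (h2 : e ≠ X.a d) :
    (X.glue d).dbl e = (X.dbl e).glue (Sum.inl d) := by
  have hr : ((X.glue d).dbl e).r = ((X.dbl e).glue (Sum.inl d)).r := dbl_core X.r e d (X.a d) h1 h2
  have ha : ((X.glue d).dbl e).a = ((X.dbl e).glue (Sum.inl d)).a := sumCongr_sw_not X.a d (X.a d)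
  have hw : ((X.glue d).dbl e).w = ((X.dbl e).glue (Sum.inl d)).w := by
    have := elim_indicator X.w d (X.a d) (X.w e)
    show Sum.elim (Set.indicator {t | t ≠ d ∧ t ≠ X.a d} X.w) (fun _ => Set.indicator {t | t ≠ d ∧ t ≠ X.a d} X.w e)
      = Set.indicator {t : X.D ⊕ Bool | t ≠ Sum.inl d ∧ t ≠ Sum.inl (X.a d)} (Sum.elim X.w (fun _ => X.w e))
    rw [Set.indicator_of_mem (show e ∈ {t | t ≠ d ∧ t ≠ X.a d} from ⟨h1, h2⟩)]
    exact this
  exact St.ext_same (X.dbl e) _ _ _ _ _ _ hr ha hw _ _ _ _ _ _ _ _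

theorem glue_sub (X : St) (d b : X.D) (h1 : b ≠ d) (h2 : b ≠ X.a d) :
    (X.glue d).sub b = (X.sub b).glue (Sum.inl d) := by
  have hab : (X.glue d).a b = X.a b := by
    show X.a (sw d (X.a d) b) = X.a b
    rw [sw_of_ne h1 h2]
  have hr : ((X.glue d).sub b).r = ((X.sub b).glue (Sum.inl d)).r :=
    sub_core X.r b (X.a b) _ d (X.a d) h1 h2 hab
  have ha : ((X.glue d).sub b).a = ((X.sub b).glue (Sum.inl d)).a := sumCongr_sw_not X.a d (X.a d)
  have hw : ((X.glue d).sub b).w = ((X.sub b).glue (Sum.inl d)).w := elim_indicator X.w d (X.a d) 0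
  exact St.ext_same (X.sub b) _ _ _ _ _ _ hr ha hw _ _ _ _ _ _ _ _

theorem glue_zedge (X : St) (d p q : X.D) :
    (X.glue d).zedge p q = (X.zedge p q).glue (Sum.inl d) := by
  have hr : ((X.glue d).zedge p q).r = ((X.zedge p q).glue (Sum.inl d)).r := zedge_core X.r p q d (X.a d)
  have ha : ((X.glue d).zedge p q).a = ((X.zedge p q).glue (Sum.inl d)).a := sumCongr_sw_not X.a d (X.a d)
  have hw : ((X.glue d).zedge p q).w = ((X.zedge p q).glue (Sum.inl d)).w := elim_indicator X.w d (X.a d) 0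
  exact St.ext_same (X.zedge p q) _ _ _ _ _ _ hr ha hw _ _ _ _ _ _ _ _

theorem glue_live (X : St) (d e : X.D) (h : (X.glue d).a e ≠ e) : e ≠ d ∧ e ≠ X.a d ∧ X.a e ≠ e := by
  have h' : X.a (sw d (X.a d) e) ≠ e := h
  by_cases h1 : e = d
  · subst h1
    rw [sw_left, X.aa] at h'
    exact absurd rfl h'
  by_cases h2 : e = X.a d
  · subst h2
    rw [sw_right] at h'
    exact absurd rfl h'
  rw [sw_of_ne h1 h2] at h'
  exact ⟨h1, h2, h'⟩

/-- one refinement after a gluing can be done before it -/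
theorem ref_glue (L : ℝ) (X : St) (d : X.D) (hd : X.a d ≠ d) (hlen : ∀ t, X.len t ≤ L) (hw : ∀ t, 2 * X.w t ≤ L)
    (T : St) (h : Ref (X.glue d) T) :
    ∃ X' : St, Ref X X' ∧ ∃ d' : X'.D, X'.a d' ≠ d' ∧ T = X'.glue d' ∧ (∀ t, X'.len t ≤ L) ∧ ∀ t, 2 * X'.w t ≤ L := by
  have hL : 0 ≤ L := le_trans (mul_nonneg zero_le_two (X.wnn d)) (hw d)
  cases h with
  | dbl e he =>
    obtain ⟨h1, h2, h3⟩ := glue_live X d e he
    refine ⟨X.dbl e, Ref.dbl X e h3, Sum.inl d, ?_, glue_dbl X d e h1 h2, X.dbl_len e L hlen (hw e), ?_⟩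
    · exact fun h => hd (Sum.inl.inj h)
    · rintro (t | t)
      · exact hw t
      · exact hw e
  | sub b hb =>
    obtain ⟨h1, h2, h3⟩ := glue_live X d b hb
    refine ⟨X.sub b, Ref.sub X b h3, Sum.inl d, ?_, glue_sub X d b h1 h2, X.sub_len b L hlen, ?_⟩
    · exact fun h => hd (Sum.inl.inj h)
    · rintro (t | t)
      · exact hw t
      · show 2 * (0 : ℝ) ≤ L
        simpa using hL
  | zedge p q hp hq hpq hs =>
    obtain ⟨p1, p2, p3⟩ := glue_live X d p hp
    obtain ⟨q1, q2, q3⟩ := glue_live X d q hq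
    have hs' : (X.r * X.a).SameCycle p q := by rw [← glue_vertex X d]; exact hs
    refine ⟨X.zedge p q, Ref.zedge X p q p3 q3 hpq hs', Sum.inl d, ?_, glue_zedge X d p q,
      X.zedge_len p q hpq L hlen, ?_⟩
    · exact fun h => hd (Sum.inl.inj h)
    · rintro (t | t)
      · exact hw t
      · show 2 * (0 : ℝ) ≤ L
        simpa using hL

theorem sweep_glue (L : ℝ) (S : St) (b : S.D) (hb : S.a b ≠ b) (hlen : ∀ d, S.len d ≤ L) (hw : ∀ d, 2 * S.w d ≤ L)
    (h : Sweep L (S.glue b)) : Sweep L S := by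
  obtain ⟨T, hT, hg⟩ := h
  have key : ∃ X : St, Relation.ReflTransGen Ref S X ∧ ∃ d : X.D, X.a d ≠ d ∧ T = X.glue d ∧ (∀ t, X.len t ≤ L) ∧
      ∀ t, 2 * X.w t ≤ L := by
    clear hg
    induction hT with
    | refl => exact ⟨S, Relation.ReflTransGen.refl, b, hb, rfl, hlen, hw⟩
    | tail _ hstep ih =>
      obtain ⟨X, hX, d, hd, rfl, hl, hw'⟩ := ih
      obtain ⟨X', hX', d', hd', hT', hl', hw''⟩ := ref_glue L X d hd hl hw' _ hstep
      exact ⟨X', hX.tail hX', d', hd', hT', hl', hw''⟩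
  obtain ⟨X, hX, d, hd, rfl, hl, _⟩ := key
  exact ⟨X, hX, GlueAll.cons X d hd hl hg⟩

end Pool.Agent.SWP
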