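import Pool.Agent.SWP.CutDef

/-!
# Cutting off `k + 1` letters from cutting off `k` letters

MODULE CutA. Context in `CutDef.lean`. Write `r = S.r`, `q = (r ^ k) p`, `f = r q = (r ^ (k + 1)) p`.

`raw_one` (`k = 1`): `S' = S.dbl p`, `j = inl`, `π = S.dblP p`, `c = inr true`: `St.dbl_trace`, `St.dbl_r_e`, `St.dbl_r_false`
(`r p ≠ p`), the partner of `inr true` is `inr false`; the new letters are `inr true` (projection `p`) and `inr false`
(projection `r p`), both of weight `w p`.

`raw_step`. Let `S' j π c` be as in `Raw S p k`, `e = j q`, `T = S'.dbl e`, `T2 = T.vtx (inl c) (inl e)`, so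
`T2.r = sw (inl c) (inl e) * T.r`.
(0) `S'.r e = j f`: by the trace `π (S'.r e) = sw p q (r q) = f` because `f ≠ p`, `f ≠ q` (`f = q` would give `r p = p`); new
letters have projection `p` or `q`, so `S'.r e` is old, hence `= j f` (`Trace.pj`). Note `j f ≠ e`. Also `π c = p`:
`c = S'.r (j (r^(k-1) p))`, so `π c = sw p q (r (r^(k-1) p)) = sw p q q = p`.
(1) vertex condition: `(T.r * T.a) (inl c) = T.r (inl (S'.a c)) = inr false` because `S'.r (S'.a c) = e` (`ca`), `S'.a c ≠ e`
(`S'.a c` is new, since `S'.a (S'.a c) = c` is new and `ja`), by `St.dbl_r_before`; and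
`(T.r * T.a) (inr false) = T.r (inr true) = inl e`. So `inl c` and `inl e` are in one cycle of `T.r * T.a`. Both are live
in `T`.
(2) Trace of `T2`. By `St.dbl_trace` `Trace inl (S'.dblP e) T.r (sw e (j f) * S'.r)`. By `Trace.mul_left` with
`A' = sw (inl c) (inl e)`, `A = sw c e`: `Trace inl π1 T2.r σ` with `σ = sw c e * (sw e (j f) * S'.r)` and
`π1 (inl d) = d, π1 (inr true) = A e = c, π1 (inr false) = A (j f) = j f`.
(3) `Trace j π2 σ (sw p f * r)` with `π2 d' = if d' is new and π d' = q then f else π d'`. Check: the letters with special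
images are: `σ (j (r^(k-1) p)) = e` (there `S'.r` gives `c`), `σ e = c` (there `S'.r` gives `j f`), and if `S'.r d' = e` then
`σ d' = j f`; all other `σ d' = S'.r d'`. For new `d'`: `S'.r d' ≠ c` (only the old letter `j (r^(k-1) p)` is mapped to `c`)
and `S'.r d' ≠ j f` (only `e` is mapped to `j f`). If `S'.r d' = e` then `π d' = π e = q`, `π2 d' = f = π2 (j f)`. Otherwise
`σ d' = S'.r d'`, `π d' = π (S'.r d')`, and if `S'.r d' = j t` is old then `t ≠ q`, so `π2 d' = t`; if it is new the two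
values agree as well. For old `d' = j d`: `d = r^(k-1) p`: `π2 e = q = sw p f (r d)` (`q ≠ p, f`); `d = q`: `π2 c = p = sw p f (r q)`;
`r d = p`: `π (S'.r (j d)) = sw p q p = q`, so either `S'.r (j d) = e`, `σ = j f`, or it is new with projection `q`; in both
cases `π2 = f = sw p f p`. Otherwise `t = r d` is none of `p, q, f`; `π (S'.r (j d)) = t`, not `p` or `q`, so `S'.r (j d) = j t`,
`σ (j d) = j t` and `sw p f t = t`. Reach: the forward orbit of a new letter under `σ` is the one under `S'.r` until the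
first old letter (which is replaced by `j f` if it is `e`).
(4) Compose (`Trace.comp`): `Trace (inl ∘ j) (π2 ∘ π1) T2.r (sw p f * r)`.
(5) New letters of `T2`: `inl e'` with `e'` new (projection `p` if `π e' = p`, `f` if `π e' = q`), `inr true` (projection
`π2 c = p`), `inr false` (projection `f`), the last two of weight `S'.w e = w q`. This gives `newp`, `wp`, `wq`, `live`.
`cr`: `T2.r (inl e) = sw .. (inr true) = inr true` (`St.dbl_r_e`). `ca`: `T2.r (inr false) = sw .. (inl (j f)) = inl (j f)`.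
-/

set_option autoImplicit false

namespace Pool.Agent.SWP

open Equiv

private theorem cutA_wt_dbl (S : St) (e : S.D) (B : Set (S.dbl e).D) :
    wt (S.dbl e).w B = wt S.w {d | (Sum.inl d : (S.dbl e).D) ∈ B} +
      (Set.indicator B (S.dbl e).w (Sum.inr true : (S.dbl e).D) +
        Set.indicator B (S.dbl e).w (Sum.inr false : (S.dbl e).D)) := by
  have h1 : wt (S.dbl e).w B = ∑ x : S.D ⊕ Bool, Set.indicator B (S.dbl e).w x := rfl
  rw [h1, Fintype.sum_sum_type, Fintype.sum_bool]
  congr 1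

private theorem cutA_wt_dbl0 (S : St) (e : S.D) (B : Set (S.dbl e).D) (hB : ∀ d, (Sum.inl d : (S.dbl e).D) ∉ B) :
    wt (S.dbl e).w B = Set.indicator B (S.dbl e).w (Sum.inr true : (S.dbl e).D) +
        Set.indicator B (S.dbl e).w (Sum.inr false : (S.dbl e).D) := by
  have h1 : wt S.w {d | (Sum.inl d : (S.dbl e).D) ∈ B} = 0 := by
    unfold wt
    refine Finset.sum_eq_zero fun d _ => ?_
    rw [Set.indicator_of_notMem]
    exact hB d
  rw [cutA_wt_dbl, h1, zero_add]

private theorem cutA_swl {D : Type} (c e d : D) :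
    (sw (Sum.inl c) (Sum.inl e) : Perm (D ⊕ Bool)) (Sum.inl d) = Sum.inl (sw c e d) := by
  by_cases g1 : d = c
  · rw [g1, sw_left, sw_left]
  · by_cases g2 : d = e
    · rw [g2, sw_right, sw_right]
    · rw [sw_of_ne g1 g2, sw_of_ne]
      · exact fun hx => g1 (Sum.inl.inj hx)
      · exact fun hx => g2 (Sum.inl.inj hx)

private theorem cutA_new {S S' : St} {j : S.D → S'.D} {e : S'.D} {x : (S'.dbl e).D}
    (hx : ∀ d, (Sum.inl (j d) : (S'.dbl e).D) ≠ x) :
    (∃ e', x = (Sum.inl e' : (S'.dbl e).D) ∧ ∀ d, j d ≠ e') ∨ x = (Sum.inr true : (S'.dbl e).D) ∨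
      x = (Sum.inr false : (S'.dbl e).D) := by
  rcases x with e' | b
  · left
    exact ⟨e', rfl, fun d hd => hx d (by rw [hd])⟩
  · right
    cases b
    · exact Or.inr rfl
    · exact Or.inl rfl

theorem raw_one (S : St) (p : S.D) (hp : S.r p ≠ p) :
    Raw S p 1 (S.dbl p) Sum.inl (S.dblP p) (Sum.inr true) := by
  have hnew : ∀ e : (S.dbl p).D, (∀ d, (Sum.inl d : (S.dbl p).D) ≠ e) →
      e = (Sum.inr true : (S.dbl p).D) ∨ e = (Sum.inr false : (S.dbl p).D) := by
    intro e he
    rcases e with e' | b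
    · exact absurd rfl (he e')
    · cases b
      · exact Or.inr rfl
      · exact Or.inl rfl
  have e1 : (S.r ^ 1) p = S.r p := by rw [pow_one]
  have hw : ∀ b : Bool, (S.dbl p).w (Sum.inr b : (S.dbl p).D) = S.w p := fun b => rfl
  refine ⟨?_, ?_, ?_, ?_, ?_, ?_, ?_, ?_, ?_, ?_⟩
  · rw [e1]
    exact S.dbl_trace p hp
  · intro d
    rfl
  · intro d
    rfl
  · intro e he
    rcases hnew e he with rfl | rfl
    · intro h
      have h2 : (Sum.inr false : S.D ⊕ Bool) = Sum.inr true := h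
      simp at h2
    · intro h
      have h2 : (Sum.inr true : S.D ⊕ Bool) = Sum.inr false := h
      simp at h2
  · intro e he
    rcases hnew e he with rfl | rfl
    · left
      rfl
    · right
      rw [e1]
      rfl
  · intro d h
    simp at h
  · exact S.dbl_r_e p
  · rw [e1]
    exact S.dbl_r_false p hp
  · rw [cutA_wt_dbl0 _ _ _ (fun d hd => hd.1 d rfl), Finset.sum_range_one, pow_zero, Perm.one_apply,
      Set.indicator_of_mem, Set.indicator_of_notMem, hw]
    · ring
    · intro h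
      exact hp h.2
    · exact ⟨fun d hd => by simp at hd, rfl⟩
  · rw [cutA_wt_dbl0 _ _ _ (fun d hd => hd.1 d rfl), Finset.sum_range_one, pow_zero, Perm.one_apply,
      Set.indicator_of_notMem, Set.indicator_of_mem, hw]
    · ring
    · exact ⟨fun d hd => by simp at hd, by rw [e1]; rfl⟩
    · intro h
      have h2 : p = (S.r ^ 1) p := h.2
      rw [e1] at h2
      exact hp h2.symm

theorem raw_vtx (S : St) (p : S.D) (k : ℕ) (S' : St) (j : S.D → S'.D) (π : S'.D → S.D) (c : S'.D)
    (h : Raw S p k S' j π c) (hl : S.a ((S.r ^ k) p) ≠ (S.r ^ k) p) :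
    (S'.dbl (j ((S.r ^ k) p))).a (Sum.inl c) ≠ Sum.inl c ∧
    (S'.dbl (j ((S.r ^ k) p))).a (Sum.inl (j ((S.r ^ k) p))) ≠ Sum.inl (j ((S.r ^ k) p)) ∧
    (Sum.inl c : (S'.dbl (j ((S.r ^ k) p))).D) ≠ Sum.inl (j ((S.r ^ k) p)) ∧
    ((S'.dbl (j ((S.r ^ k) p))).r * (S'.dbl (j ((S.r ^ k) p))).a).SameCycle (Sum.inl c)
      (Sum.inl (j ((S.r ^ k) p))) := by
  have hac : ∀ d, j d ≠ S'.a c := by
    intro d hd
    apply h.cnew (S.a d)
    rw [← h.ja, hd, S'.aa]
  refine ⟨?_, ?_, ?_, ?_⟩
  · intro h1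
    have h2 : (Sum.inl (S'.a c) : S'.D ⊕ Bool) = Sum.inl c := h1
    exact h.live c h.cnew (Sum.inl.inj h2)
  · intro h1
    have h2 : (Sum.inl (S'.a (j ((S.r ^ k) p))) : S'.D ⊕ Bool) = Sum.inl (j ((S.r ^ k) p)) := h1
    have h3 := Sum.inl.inj h2
    rw [h.ja] at h3
    exact hl (h.tr.inj h3)
  · intro h1
    have h2 : (Sum.inl c : S'.D ⊕ Bool) = Sum.inl (j ((S.r ^ k) p)) := h1
    exact h.cnew _ (Sum.inl.inj h2).symm
  · refine ⟨2, ?_⟩
    have h1 : (S'.dbl (j ((S.r ^ k) p))).r (Sum.inl (S'.a c)) = Sum.inr false :=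
      S'.dbl_r_before _ _ h.ca (fun h2 => hac _ h2.symm)
    have h2 := S'.dbl_r_true (j ((S.r ^ k) p))
    have e1 : ((S'.dbl (j ((S.r ^ k) p))).r * (S'.dbl (j ((S.r ^ k) p))).a)
        (Sum.inl c : (S'.dbl (j ((S.r ^ k) p))).D) = (Sum.inr false : (S'.dbl (j ((S.r ^ k) p))).D) := h1
    have e2 : ((S'.dbl (j ((S.r ^ k) p))).r * (S'.dbl (j ((S.r ^ k) p))).a)
        (Sum.inr false : (S'.dbl (j ((S.r ^ k) p))).D) =
        (Sum.inl (j ((S.r ^ k) p)) : (S'.dbl (j ((S.r ^ k) p))).D) := h2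
    rw [show (2 : ℤ) = ((2 : ℕ) : ℤ) from rfl, zpow_natCast, pow_two, Perm.mul_apply, e1, e2]

/-- the two images used below -/
private theorem cutA_sw2 {D' : Type} {c e f x : D'} (s : Perm D') (hce : c ≠ e) (hcf : c ≠ f) (hef : f ≠ e) :
    (s x = c → (sw c e * (sw e f * s)) x = e) ∧ (s x = f → (sw c e * (sw e f * s)) x = c) ∧
      (s x = e → (sw c e * (sw e f * s)) x = f) ∧
      (s x ≠ c → s x ≠ f → s x ≠ e → (sw c e * (sw e f * s)) x = s x) := by
  simp only [Perm.mul_apply]
  refine ⟨?_, ?_, ?_, ?_⟩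
  · intro h
    rw [h, sw_of_ne hce hcf, sw_left]
  · intro h
    rw [h, sw_right, sw_right]
  · intro h
    rw [h, sw_left, sw_of_ne hcf.symm hef]
  · intro h1 h2 h3
    rw [sw_of_ne h3 h2, sw_of_ne h1 h3]

/-- the projection of step (3) -/
private noncomputable def cutA_p2 {D D' : Type} (j : D → D') (π : D' → D) (q f : D) (d' : D') : D :=
  @ite _ ((∀ d, j d ≠ d') ∧ π d' = q) (Classical.propDecidable _) f (π d')

private theorem cutA_p2_pos {D D' : Type} {j : D → D'} {π : D' → D} {q f : D} {d' : D'}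
    (h1 : ∀ d, j d ≠ d') (h2 : π d' = q) : cutA_p2 j π q f d' = f := by
  unfold cutA_p2
  rw [if_pos ⟨h1, h2⟩]

private theorem cutA_p2_ne {D D' : Type} {j : D → D'} {π : D' → D} {q f : D} {d' : D'}
    (h2 : π d' ≠ q) : cutA_p2 j π q f d' = π d' := by
  unfold cutA_p2
  rw [if_neg (fun h => h2 h.2)]

private theorem cutA_p2_old {D D' : Type} {j : D → D'} {π : D' → D} {q f : D} (hpj : ∀ d, π (j d) = d) (d : D) :
    cutA_p2 j π q f (j d) = d := by
  unfold cutA_p2
  rw [if_neg (fun h => h.1 d rfl), hpj]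

private theorem cutA_step3 {D D' : Type} {j : D → D'} {π : D' → D} {s' : Perm D'} {r : Perm D} {p q f u : D}
    {c : D'} (h : Trace j π s' (sw p q * r)) (hnp : ∀ e, (∀ d, j d ≠ e) → π e = p ∨ π e = q)
    (hc : ∀ d, j d ≠ c) (hpc : π c = p) (hu : r u = q) (hcu : s' (j u) = c) (hq : r q = f) (hqf : s' (j q) = j f)
    (h1 : q ≠ p) (h2 : f ≠ p) (h3 : f ≠ q) :
    Trace j (cutA_p2 j π q f) (sw c (j q) * (sw (j q) (j f) * s')) (sw p f * r) := by
  have hjf : j f ≠ j q := fun h4 => h3 (h.inj h4)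
  have S2 := fun x => cutA_sw2 (x := x) s' (hc q).symm (hc f).symm hjf
  have nc : ∀ x, s' x = c → x = j u := fun x hx => s'.injective (by rw [hx, hcu])
  have nf : ∀ x, s' x = j f → x = j q := fun x hx => s'.injective (by rw [hx, hqf])
  refine ⟨fun d => cutA_p2_old h.pj d, ?_, ?_, ?_⟩
  · intro d' hd'
    have hπ := h.new d' hd'
    have g1 : s' d' ≠ c := fun hx => hd' _ (nc d' hx).symm
    have g2 : s' d' ≠ j f := fun hx => hd' _ (nf d' hx).symm
    by_cases g3 : s' d' = j q
    · rw [(S2 d').2.2.1 g3, cutA_p2_old h.pj]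
      rw [g3, h.pj] at hπ
      rw [cutA_p2_pos hd' hπ.symm]
    · rw [(S2 d').2.2.2 g1 g2 g3]
      by_cases g4 : ∃ t, j t = s' d'
      · obtain ⟨t, ht⟩ := g4
        rw [← ht, cutA_p2_old h.pj]
        rw [← ht, h.pj] at hπ
        have htq : t ≠ q := by
          intro hx
          rw [hx] at ht
          exact g3 ht.symm
        rw [cutA_p2_ne (by rw [← hπ]; exact htq), hπ]
      · have g5 : ∀ d, j d ≠ s' d' := fun d hd => g4 ⟨d, hd⟩
        by_cases g6 : π d' = q
        · rw [cutA_p2_pos hd' g6, cutA_p2_pos g5 (hπ.trans g6)]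
        · rw [cutA_p2_ne g6, cutA_p2_ne (by rw [hπ]; exact g6), hπ]
  · intro d
    have hπ := h.old d
    rw [Perm.mul_apply] at hπ
    rw [show (sw p f * r) d = sw p f (r d) from rfl]
    by_cases g1 : s' (j d) = c
    · have hd : d = u := h.inj (nc _ g1)
      rw [(S2 (j d)).1 g1, cutA_p2_old h.pj, hd, hu, sw_of_ne h1 (Ne.symm h3)]
    · by_cases g2 : s' (j d) = j f
      · have hd : d = q := h.inj (nf _ g2)
        rw [(S2 (j d)).2.1 g2, cutA_p2_ne (by rw [hpc]; exact h1.symm), hpc, hd, hq, sw_right]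
      · by_cases g3 : s' (j d) = j q
        · rw [(S2 (j d)).2.2.1 g3, cutA_p2_old h.pj]
          rw [g3, h.pj] at hπ
          have hrd : r d = p := by
            have := congrArg (sw p q) hπ
            rw [sw_sq, sw_right] at this
            exact this.symm
          rw [hrd, sw_left]
        · rw [(S2 (j d)).2.2.2 g1 g2 g3]
          by_cases k1 : r d = p
          · rw [k1, sw_left] at hπ
            have g5 : ∀ t, j t ≠ s' (j d) := by
              intro t ht
              rw [← ht, h.pj] at hπ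
              rw [hπ] at ht
              exact g3 ht.symm
            rw [cutA_p2_pos g5 hπ, k1, sw_left]
          · have k2 : r d ≠ q := by
              intro hx
              apply g1
              have : d = u := r.injective (by rw [hx, hu])
              rw [this, hcu]
            have k3 : r d ≠ f := by
              intro hx
              apply g2
              have : d = q := r.injective (by rw [hx, hq])
              rw [this, hqf]
            rw [sw_of_ne k1 k2] at hπ
            by_cases g4 : ∃ t, j t = s' (j d)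
            · obtain ⟨t, ht⟩ := g4
              rw [← ht, h.pj] at hπ
              rw [← ht, cutA_p2_old h.pj, hπ, sw_of_ne k1 k3]
            · exfalso
              rcases hnp _ (fun t ht => g4 ⟨t, ht⟩) with g6 | g6
              · exact k1 (hπ.symm.trans g6)
              · exact k2 (hπ.symm.trans g6)
  · intro d'
    obtain ⟨n, d, hn⟩ := h.reach d'
    induction n generalizing d' with
    | zero => exact ⟨0, d, hn⟩
    | succ n ih =>
      by_cases hd' : ∃ t, j t = d'
      · obtain ⟨t, ht⟩ := hd'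
        exact ⟨0, t, ht.symm⟩
      · have hd2 : ∀ t, j t ≠ d' := fun t ht => hd' ⟨t, ht⟩
        have g1 : s' d' ≠ c := fun hx => hd2 _ (nc d' hx).symm
        have g2 : s' d' ≠ j f := fun hx => hd2 _ (nf d' hx).symm
        by_cases g3 : s' d' = j q
        · refine ⟨1, f, ?_⟩
          rw [pow_one]
          exact (S2 d').2.2.1 g3
        · rw [pow_succ, Perm.mul_apply] at hn
          obtain ⟨m, t, hm⟩ := ih (s' d') hn
          refine ⟨m + 1, t, ?_⟩
          rw [pow_succ, Perm.mul_apply, (S2 d').2.2.2 g1 g2 g3]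
          exact hm

theorem raw_step (S : St) (p : S.D) (k : ℕ) (hk : 1 ≤ k) (S' : St) (j : S.D → S'.D) (π : S'.D → S.D) (c : S'.D)
    (h : Raw S p k S' j π c) (hp : ∀ i, 1 ≤ i → i ≤ k + 1 → (S.r ^ i) p ≠ p)
    (hl : S.a ((S.r ^ k) p) ≠ (S.r ^ k) p) :
    ∃ π' : ((S'.dbl (j ((S.r ^ k) p))).vtx (Sum.inl c) (Sum.inl (j ((S.r ^ k) p)))).D → S.D,
      Raw S p (k + 1) ((S'.dbl (j ((S.r ^ k) p))).vtx (Sum.inl c) (Sum.inl (j ((S.r ^ k) p))))
        (Sum.inl ∘ j) π' (Sum.inr true) := by
  have h1 : (S.r ^ k) p ≠ p := hp k hk (Nat.le_succ k)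
  have h2 : (S.r ^ (k + 1)) p ≠ p := hp (k + 1) (by omega) le_rfl
  have h3 : (S.r ^ (k + 1)) p ≠ (S.r ^ k) p := by
    rw [pow_succ, Perm.mul_apply]
    intro hx
    exact hp 1 le_rfl (by omega) (by rw [pow_one]; exact (S.r ^ k).injective hx)
  have hq : S.r ((S.r ^ k) p) = (S.r ^ (k + 1)) p := by rw [pow_succ', Perm.mul_apply]
  have hu : S.r ((S.r ^ (k - 1)) p) = (S.r ^ k) p := by
    rw [← Perm.mul_apply, ← pow_succ', Nat.sub_add_cancel hk]
  have hsum : ∀ w : S.D → ℝ, ∑ i ∈ Finset.range (k + 1), w ((S.r ^ i) p) =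
      ∑ i ∈ Finset.range k, w ((S.r ^ i) p) + w ((S.r ^ k) p) := fun w => Finset.sum_range_succ _ _
  have hcr := h.cr
  have hca := h.ca
  have htr := h.tr
  have hnp := h.newp
  have hwp := h.wp
  have hwq := h.wq
  generalize hqq : (S.r ^ k) p = q at *
  generalize hff : (S.r ^ (k + 1)) p = f at *
  generalize huu : (S.r ^ (k - 1)) p = u at *
  have hqf : S'.r (j q) = j f := by
    have g1 := htr.old q
    rw [Perm.mul_apply, hq, sw_of_ne h2 h3] at g1
    by_cases g2 : ∃ t, j t = S'.r (j q)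
    · obtain ⟨t, ht⟩ := g2
      rw [← ht, htr.pj] at g1
      rw [← ht, g1]
    · exfalso
      rcases hnp _ (fun t ht => g2 ⟨t, ht⟩) with g3 | g3
      · exact h2 (g1.symm.trans g3)
      · exact h3 (g1.symm.trans g3)
  have hpc : π c = p := by
    have g1 := htr.old u
    rw [Perm.mul_apply, hu, sw_right, hcr] at g1
    exact g1
  have hjf : j f ≠ j q := fun h4 => h3 (htr.inj h4)
  have hT := S'.dbl_trace (j q) (by rw [hqf]; exact hjf)
  rw [hqf] at hT
  have hT2 := hT.mul_left (sw (Sum.inl c) (Sum.inl (j q)) : Perm (S'.dbl (j q)).D) (sw c (j q)) (fun d => cutA_swl c (j q) d)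
    (by
      intro d' hd'
      exact sw_of_ne (fun hx => hd' c hx.symm) (fun hx => hd' (j q) hx.symm))
    (Sum.elim id (fun b => if b = true then c else j f)) (fun d => rfl) (by
      intro d' hd'
      rcases d' with d | b
      · exact absurd rfl (hd' d)
      · cases b
        · have e1 : S'.dblP (j q) (Sum.inr false) = j f := hqf
          rw [e1, sw_of_ne (h.cnew f) hjf]
          rfl
        · have e1 : S'.dblP (j q) (Sum.inr true) = j q := rfl
          rw [e1, sw_right]
          rfl)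
  have hT3 := cutA_step3 htr hnp h.cnew hpc hu hcr hq hqf h1 h2 h3
  have hT4 := hT3.comp hT2
  have hp2 : ∀ e', (∀ d, j d ≠ e') → (cutA_p2 j π q f e' = p ↔ π e' = p) ∧
      (cutA_p2 j π q f e' = f ↔ π e' = q) := by
    intro e' he'
    rcases hnp e' he' with g1 | g1
    · rw [cutA_p2_ne (by rw [g1]; exact h1.symm), g1]
      exact ⟨Iff.rfl, ⟨fun hx => absurd hx.symm h2, fun hx => absurd hx.symm h1⟩⟩
    · rw [cutA_p2_pos he' g1, g1]
      exact ⟨⟨fun hx => absurd hx h2, fun hx => absurd hx h1⟩, ⟨fun _ => rfl, fun _ => rfl⟩⟩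
  have hw : ∀ b : Bool, (S'.dbl (j q)).w (Sum.inr b : (S'.dbl (j q)).D) = S.w q := fun b => h.jw q
  have hpt : cutA_p2 j π q f c = p := by
    rw [cutA_p2_ne (by rw [hpc]; exact h1.symm), hpc]
  have hpf : cutA_p2 j π q f (j f) = f := cutA_p2_old htr.pj f
  refine ⟨cutA_p2 j π q f ∘ Sum.elim id (fun b => if b = true then c else j f), ?_, ?_, ?_, ?_, ?_, ?_, ?_, ?_, ?_, ?_⟩
  · rw [hff]
    exact hT4
  · intro d
    exact congrArg Sum.inl (h.ja d)
  · intro d
    exact h.jw d
  · intro e he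
    rcases cutA_new (j := j) (e := j q) (x := e) he with ⟨e', rfl, he'⟩ | rfl | rfl
    · intro hx
      have hx2 : (Sum.inl (S'.a e') : S'.D ⊕ Bool) = Sum.inl e' := hx
      exact h.live e' he' (Sum.inl.inj hx2)
    · intro hx
      have hx2 : (Sum.inr false : S'.D ⊕ Bool) = Sum.inr true := hx
      simp at hx2
    · intro hx
      have hx2 : (Sum.inr true : S'.D ⊕ Bool) = Sum.inr false := hx
      simp at hx2
  · intro e he
    rw [hff]
    rcases cutA_new (j := j) (e := j q) (x := e) he with ⟨e', rfl, he'⟩ | rfl | rfl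
    · rcases hnp e' he' with g1 | g1
      · left
        exact (hp2 e' he').1.2 g1
      · right
        exact (hp2 e' he').2.2 g1
    · left
      exact hpt
    · right
      exact hpf
  · intro d hx
    have hx2 : (Sum.inl (j d) : S'.D ⊕ Bool) = Sum.inr true := hx
    simp at hx2
  · rw [Nat.add_sub_cancel, hqq]
    have g1 := S'.dbl_r_e (j q)
    change (sw (Sum.inl c) (Sum.inl (j q)) : Perm (S'.dbl (j q)).D) ((S'.dbl (j q)).r (Sum.inl (j q))) = Sum.inr true
    rw [g1]
    exact sw_of_ne (fun hx => by simp at hx) (fun hx => by simp at hx)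
  · rw [hff]
    have g1 := S'.dbl_r_false (j q) (by rw [hqf]; exact hjf)
    change (sw (Sum.inl c) (Sum.inl (j q)) : Perm (S'.dbl (j q)).D) ((S'.dbl (j q)).r (Sum.inr false)) = Sum.inl (j f)
    rw [g1, hqf]
    exact sw_of_ne (fun hx => h.cnew f (Sum.inl.inj hx)) (fun hx => hjf (Sum.inl.inj hx))
  · rw [hsum, ← hwp]
    change wt (S'.dbl (j q)).w _ = _
    rw [cutA_wt_dbl, Set.indicator_of_mem, Set.indicator_of_notMem, hw, add_zero]
    · congr 2
      ext e'
      constructor
      · rintro ⟨g1, g2⟩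
        have g3 : ∀ d, j d ≠ e' := fun d hd => g1 d (congrArg Sum.inl hd)
        exact ⟨g3, (hp2 e' g3).1.1 g2⟩
      · rintro ⟨g1, g2⟩
        exact ⟨fun d hd => g1 d (Sum.inl.inj hd), (hp2 e' g1).1.2 g2⟩
    · intro hx
      have hx2 : cutA_p2 j π q f (j f) = p := hx.2
      rw [hpf] at hx2
      exact h2 hx2
    · exact ⟨fun d hd => by simp at hd, hpt⟩
  · rw [hsum, ← hwq, hff]
    change wt (S'.dbl (j q)).w _ = _
    rw [cutA_wt_dbl, Set.indicator_of_notMem, Set.indicator_of_mem, hw, zero_add]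
    · congr 2
      ext e'
      constructor
      · rintro ⟨g1, g2⟩
        have g3 : ∀ d, j d ≠ e' := fun d hd => g1 d (congrArg Sum.inl hd)
        exact ⟨g3, (hp2 e' g3).2.1 g2⟩
      · rintro ⟨g1, g2⟩
        exact ⟨fun d hd => g1 d (Sum.inl.inj hd), (hp2 e' g1).2.2 g2⟩
    · exact ⟨fun d hd => by simp at hd, hpf⟩
    · intro hx
      have hx2 : cutA_p2 j π q f c = f := hx.2
      rw [hpt] at hx2
      exact h2 hx2.symm

end Pool.Agent.SWP
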