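import Pool.Agent.SWP.CutA

/-!
# Cutting a word at two letters

MODULE CutB. Context in `CutDef.lean`. Write `r = S.r`, `q = (r ^ k) p`, `x = ∑ i < k, w (r^i p)`.

`raw_len`: `S'.len d' = cyc (sw p q * r) (push π S'.w) (π d')` (`Trace.cyc_push`) and by `Trace.push_eq` the pushed weight is
`w t` plus `x` at `t = p` and plus `x` at `t = q` (`wp`, `wq`, `newp`). Cycles of `sw p q * r`: the arc `[p, q)` (weight `x`, by `arcw_pow`)
contains `p`: pushed weight `2 x ≤ B`; the arc `[q, p)` (weight `len p - x`, `cyc_arc`) contains `q`: pushed weight `len p ≤ B`;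
the other cycles are cycles of `r` with unchanged weight (`sw_same_left`, `sw_same_right`, `sw_same_off`, `arc_split`).

`cutK`: induction on `k ≥ 1`. `k = 1`: `raw_one` and the constructor `SW.dbl`. Step: `raw_step`, `raw_vtx`;
`SW L (vtx ..)` gives `SW L (S'.dbl e)` by `SW.vtx` (lengths `≤ L`: `raw_len` for `k` and `St.dbl_len` with
`2 w e ≤ 2 ∑ i < k + 1, ..≤ L`), then `SW L S'` by `SW.dbl` (`S'.a e ≠ e` by `ja` and `Trace.inj`), then `SW L S`.

`cut1`: By `exists_pow_of_same` `q = (r^k) p` and `p = (r^k') q`, with the non return conditions. All letters of the word are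
live: if `S.a t = t` for some `t` in the word, then `r t = t` by `Clean`, so the word is `{t}`, `p = q`. With
`x = arcw r w p q`, `x' = arcw r w q p` we have `x + x' = len p` (`arcw_pow`, `cyc_arc`), so `2 x ≤ len p` or `2 x' ≤ len p`.
In the first case use `cutK` at `p`, in the second case at `q` (`sw q p = sw p q`, `sw_comm`; `len q = len p`).
The fields: `newp`: `sw p q` moves `p` and `q`. `wnew`: `wp + wq = 2 x`. `len`: `raw_len`. `clean`: if `S'.a d' = d'`
then `d' = j t` is old (`live`), `S.a t = t`, so `r t = t`, `t ≠ p, q`, `π (S'.r (j t)) = sw p q (r t) = t`, which is not `p` or `q`,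
so `S'.r (j t)` is old, hence `= j t`.
-/

set_option autoImplicit false

namespace Pool.Agent.SWP

open Equiv

private theorem cutB_wt_zero {D : Type} [Fintype D] {u : D → ℝ} {B : Set D} (h : ∀ d ∈ B, u d = 0) :
    wt u B = 0 := by
  rw [wt_congr (v := fun _ => 0) h]
  unfold wt
  refine Finset.sum_eq_zero fun e _ => ?_
  by_cases he : e ∈ B
  · rw [Set.indicator_of_mem he]
  · rw [Set.indicator_of_notMem he]

private theorem cutB_wt_single {D : Type} [Fintype D] {u : D → ℝ} {B : Set D} {p : D} (hp : p ∈ B)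
    (h : ∀ d ∈ B, d ≠ p → u d = 0) : wt u B = u p := by
  unfold wt
  rw [Finset.sum_eq_single p]
  · rw [Set.indicator_of_mem hp]
  · intro e _ he
    by_cases heB : e ∈ B
    · rw [Set.indicator_of_mem heB, h e heB he]
    · rw [Set.indicator_of_notMem heB]
  · intro h1
    exact absurd (Finset.mem_univ p) h1

private theorem cutB_push {S : St} {p : S.D} {k : ℕ} {S' : St} {j : S.D → S'.D} {π : S'.D → S.D} {c : S'.D}
    (h : Raw S p k S' j π c) (Z : Set S.D) :
    wt (push π S'.w) Z = wt S.w Z + wt (fun t => wt S'.w {e | (∀ d, j d ≠ e) ∧ π e = t}) Z := by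
  rw [← wt_add]
  refine wt_congr fun d _ => ?_
  rw [Trace.push_eq h.tr, h.jw]

private theorem cutB_e0 {S : St} {p : S.D} {k : ℕ} {S' : St} {j : S.D → S'.D} {π : S'.D → S.D} {c : S'.D}
    (h : Raw S p k S' j π c) {t : S.D} (h1 : t ≠ p) (h2 : t ≠ (S.r ^ k) p) :
    wt S'.w {e | (∀ d, j d ≠ e) ∧ π e = t} = 0 := by
  refine cutB_wt_zero ?_
  rintro e ⟨he, rfl⟩
  rcases h.newp e he with h3 | h3
  · exact absurd h3 h1
  · exact absurd h3 h2

theorem raw_len (S : St) (p : S.D) (k : ℕ) (hk : 1 ≤ k) (S' : St) (j : S.D → S'.D) (π : S'.D → S.D) (c : S'.D)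
    (h : Raw S p k S' j π c) (hp : ∀ i, 1 ≤ i → i ≤ k → (S.r ^ i) p ≠ p) (B : ℝ) (hB : ∀ d, S.len d ≤ B)
    (hx : 2 * ∑ i ∈ Finset.range k, S.w ((S.r ^ i) p) ≤ B) (d : S'.D) : S'.len d ≤ B := by
  have hqp : (S.r ^ k) p ≠ p := hp k hk le_rfl
  have hs : S.r.SameCycle p ((S.r ^ k) p) := ⟨(k : ℤ), by rw [zpow_natCast]⟩
  have hxa : arcw S.r S.w p ((S.r ^ k) p) = ∑ i ∈ Finset.range k, S.w ((S.r ^ i) p) := arcw_pow k hp
  have hlen : S'.len d = wt (push π S'.w) {e | (sw p ((S.r ^ k) p) * S.r).SameCycle (π d) e} := by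
    unfold St.len
    rw [Trace.cyc_push h.tr, cyc_eq_wt]
  rw [hlen]
  by_cases hA : S.r.SameCycle p (π d)
  · rcases (arc_split hqp.symm hs (π d)).1 hA with h1 | h1
    · have h2 : {e | (sw p ((S.r ^ k) p) * S.r).SameCycle (π d) e} = {e | Arc S.r p ((S.r ^ k) p) e} := by
        ext e
        have h3 := (sw_same_left hqp.symm hs (π d)).2 h1
        rw [Set.mem_setOf_eq, Set.mem_setOf_eq, ← sw_same_left hqp.symm hs e]
        exact ⟨fun h4 => h3.trans h4, fun h4 => h3.symm.trans h4⟩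
      rw [h2, cutB_push h]
      have h5 : wt (fun t => wt S'.w {e | (∀ d, j d ≠ e) ∧ π e = t}) {e | Arc S.r p ((S.r ^ k) p) e} =
          wt S'.w {e | (∀ d, j d ≠ e) ∧ π e = p} :=
        cutB_wt_single (u := fun t => wt S'.w {e | (∀ d, j d ≠ e) ∧ π e = t}) (arc_left hqp.symm)
          (fun t ht htp => cutB_e0 h htp (arc_ne_right ht))
      have h6 : wt S.w {e | Arc S.r p ((S.r ^ k) p) e} = ∑ i ∈ Finset.range k, S.w ((S.r ^ i) p) := hxa
      rw [h5, h6, h.wp]
      linarith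
    · have h2 : {e | (sw p ((S.r ^ k) p) * S.r).SameCycle (π d) e} = {e | Arc S.r ((S.r ^ k) p) p e} := by
        ext e
        have h3 := (sw_same_right hqp.symm hs (π d)).2 h1
        rw [Set.mem_setOf_eq, Set.mem_setOf_eq, ← sw_same_right hqp.symm hs e]
        exact ⟨fun h4 => h3.trans h4, fun h4 => h3.symm.trans h4⟩
      rw [h2, cutB_push h]
      have h5 : wt (fun t => wt S'.w {e | (∀ d, j d ≠ e) ∧ π e = t}) {e | Arc S.r ((S.r ^ k) p) p e} =
          wt S'.w {e | (∀ d, j d ≠ e) ∧ π e = (S.r ^ k) p} :=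
        cutB_wt_single (u := fun t => wt S'.w {e | (∀ d, j d ≠ e) ∧ π e = t}) (arc_left hqp)
          (fun t ht htp => cutB_e0 h (arc_ne_right ht) htp)
      have h6 : cyc S.r S.w p = arcw S.r S.w p ((S.r ^ k) p) + arcw S.r S.w ((S.r ^ k) p) p :=
        cyc_arc hqp.symm hs
      have h7 : wt S.w {e | Arc S.r ((S.r ^ k) p) p e} = arcw S.r S.w ((S.r ^ k) p) p := rfl
      have h8 : cyc S.r S.w p ≤ B := hB p
      rw [h5, h7, h.wq, ← hxa]
      linarith
  · have hA' : ¬ S.r.SameCycle ((S.r ^ k) p) (π d) := fun h1 => hA (hs.trans h1)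
    have h2 : {e | (sw p ((S.r ^ k) p) * S.r).SameCycle (π d) e} = {e | S.r.SameCycle (π d) e} := by
      ext e
      rw [Set.mem_setOf_eq, Set.mem_setOf_eq]
      exact sw_same_off hA hA' e
    rw [h2, cutB_push h]
    have h5 : wt (fun t => wt S'.w {e | (∀ d, j d ≠ e) ∧ π e = t}) {e | S.r.SameCycle (π d) e} = 0 := by
      refine cutB_wt_zero fun t ht => cutB_e0 h ?_ ?_
      · rintro rfl
        exact hA (Equiv.Perm.SameCycle.symm ht)
      · rintro rfl
        exact hA' (Equiv.Perm.SameCycle.symm ht)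
    rw [h5, add_zero]
    exact hB (π d)

theorem cutK (S : St) (p : S.D) (k : ℕ) (hk : 1 ≤ k) (hp : ∀ i, 1 ≤ i → i ≤ k → (S.r ^ i) p ≠ p)
    (hl : ∀ i < k, S.a ((S.r ^ i) p) ≠ (S.r ^ i) p) :
    ∃ (S' : St) (j : S.D → S'.D) (π : S'.D → S.D) (c : S'.D), Raw S p k S' j π c ∧
      ∀ L : ℝ, (∀ d, S.len d ≤ L) → 2 * ∑ i ∈ Finset.range k, S.w ((S.r ^ i) p) ≤ L → SW L S' → SW L S := by
  induction k, hk using Nat.le_induction with
  | base =>
    have h1 : S.r p ≠ p := by
      have := hp 1 le_rfl le_rfl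
      rwa [pow_one] at this
    refine ⟨S.dbl p, Sum.inl, S.dblP p, Sum.inr true, raw_one S p h1, ?_⟩
    intro L _ _ h2
    have h3 := hl 0 (by norm_num)
    rw [pow_zero, Perm.one_apply] at h3
    exact SW.dbl S p h3 h2
  | succ k hk ih =>
    obtain ⟨S', j, π, c, hR, hS⟩ := ih (fun i h1 h2 => hp i h1 (by omega)) (fun i h1 => hl i (by omega))
    have hlk := hl k (Nat.lt_succ_self k)
    obtain ⟨π', hR'⟩ := raw_step S p k hk S' j π c hR hp hlk
    refine ⟨_, _, π', _, hR', ?_⟩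
    intro L hL hx hsw
    obtain ⟨v1, v2, v3, v4⟩ := raw_vtx S p k S' j π c hR hlk
    have hnn : ∀ i ∈ Finset.range k, 0 ≤ S.w ((S.r ^ i) p) := fun i _ => S.wnn _
    have h0 : 0 ≤ ∑ i ∈ Finset.range k, S.w ((S.r ^ i) p) := Finset.sum_nonneg hnn
    rw [Finset.sum_range_succ] at hx
    have hwk := S.wnn ((S.r ^ k) p)
    have hx1 : 2 * ∑ i ∈ Finset.range k, S.w ((S.r ^ i) p) ≤ L := by linarith
    have hx2 : 2 * S'.w (j ((S.r ^ k) p)) ≤ L := by
      rw [hR.jw]
      linarith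
    have hlS' := raw_len S p k hk S' j π c hR (fun i h1 h2 => hp i h1 (by omega)) L hL hx1
    have hlT := St.dbl_len S' (j ((S.r ^ k) p)) L hlS' hx2
    refine hS L hL hx1 ?_
    refine SW.dbl S' (j ((S.r ^ k) p)) ?_ (SW.vtx _ _ _ v1 v2 v3 v4 hlT hsw)
    intro h1
    rw [hR.ja] at h1
    exact hlk (Trace.inj hR.tr h1)

private theorem cutB_out (S : St) (hS : S.Clean) (p : S.D) (k : ℕ) (hk : 1 ≤ k)
    (hp : ∀ i, 1 ≤ i → i ≤ k → (S.r ^ i) p ≠ p) (hl : ∀ i < k, S.a ((S.r ^ i) p) ≠ (S.r ^ i) p)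
    (hx : 2 * ∑ i ∈ Finset.range k, S.w ((S.r ^ i) p) ≤ S.len p) :
    ∃ (S' : St) (j : S.D → S'.D) (π : S'.D → S.D), CutOut S (sw p ((S.r ^ k) p)) S' j π (S.len p) := by
  obtain ⟨S', j, π, c, hR, hSW⟩ := cutK S p k hk hp hl
  have hqp : (S.r ^ k) p ≠ p := hp k hk le_rfl
  refine ⟨S', j, π, hR.tr, hR.ja, hR.jw, hR.live, ?_, ?_, ?_, ?_, ?_⟩
  · intro e he
    rcases hR.newp e he with h1 | h1
    · rw [h1, sw_left]
      exact hqp
    · rw [h1, sw_right]
      exact hqp.symm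
  · have h1 : {e | ∀ d, j d ≠ e} ⊆
        {e | (∀ d, j d ≠ e) ∧ π e = p} ∪ {e | (∀ d, j d ≠ e) ∧ π e = (S.r ^ k) p} := by
      intro e he
      rcases hR.newp e he with h2 | h2
      · exact Or.inl ⟨he, h2⟩
      · exact Or.inr ⟨he, h2⟩
    refine (wt_mono S'.wnn h1).trans ((wt_union_le S'.wnn _ _).trans ?_)
    rw [hR.wp, hR.wq]
    linarith
  · intro hC d' hd'
    have h1 : ∃ t, j t = d' := by
      by_contra hc
      push Not at hc
      exact hR.live d' hc hd'
    obtain ⟨t, rfl⟩ := h1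
    rw [hR.ja] at hd'
    have h2 : S.a t = t := Trace.inj hR.tr hd'
    have h3 : S.r t = t := hC t h2
    have htp : t ≠ p := by
      rintro rfl
      have := hp 1 le_rfl hk
      rw [pow_one] at this
      exact this h3
    have htq : t ≠ (S.r ^ k) p := by
      rintro rfl
      have h4 : (S.r ^ k) (S.r p) = (S.r ^ k) p := by
        rw [← Perm.mul_apply, ← pow_succ, pow_succ', Perm.mul_apply]
        exact h3
      have := hp 1 le_rfl hk
      rw [pow_one] at this
      exact this ((S.r ^ k).injective h4)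
    have h5 : π (S'.r (j t)) = t := by
      rw [hR.tr.old, Perm.mul_apply, h3, sw_of_ne htp htq]
    by_cases h6 : ∀ d, j d ≠ S'.r (j t)
    · rcases hR.newp _ h6 with h7 | h7
      · rw [h5] at h7
        exact absurd h7 htp
      · rw [h5] at h7
        exact absurd h7 htq
    · push Not at h6
      obtain ⟨t2, ht2⟩ := h6
      rw [← ht2, hR.tr.pj] at h5
      rw [← ht2, h5]
  · intro B hB
    exact raw_len S p k hk S' j π c hR hp B hB (hx.trans (hB p))
  · intro L hL hsw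
    exact hSW L hL (hx.trans (hL p)) hsw

private theorem cutB_live {S : St} (hS : S.Clean) {p q : S.D} (hpq : p ≠ q) (h : S.r.SameCycle p q) (i : ℕ) :
    S.a ((S.r ^ i) p) ≠ (S.r ^ i) p := by
  intro h1
  have h2 : S.r ((S.r ^ i) p) = (S.r ^ i) p := hS _ h1
  have h3 : (S.r ^ i) (S.r p) = (S.r ^ i) p := by
    rw [← Perm.mul_apply, ← pow_succ, pow_succ', Perm.mul_apply]
    exact h2
  have h4 : S.r p = p := (S.r ^ i).injective h3
  obtain ⟨m, hm⟩ := h
  rw [Equiv.Perm.zpow_apply_eq_self_of_apply_eq_self h4] at hm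
  exact hpq hm

theorem cut1 (S : St) (hS : S.Clean) (p q : S.D) (hpq : p ≠ q) (h : S.r.SameCycle p q) :
    ∃ (S' : St) (j : S.D → S'.D) (π : S'.D → S.D), CutOut S (sw p q) S' j π (S.len p) := by
  obtain ⟨k, hk, hkq, hkp⟩ := exists_pow_of_same hpq h
  obtain ⟨k', hk', hkq', hkp'⟩ := exists_pow_of_same hpq.symm h.symm
  have h1 : cyc S.r S.w p = arcw S.r S.w p q + arcw S.r S.w q p := cyc_arc hpq h
  have h2 : arcw S.r S.w p ((S.r ^ k) p) = ∑ i ∈ Finset.range k, S.w ((S.r ^ i) p) := arcw_pow k hkp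
  have h3 : arcw S.r S.w q ((S.r ^ k') q) = ∑ i ∈ Finset.range k', S.w ((S.r ^ i) q) := arcw_pow k' hkp'
  rw [hkq] at h2
  rw [hkq'] at h3
  have h4 : S.len q = S.len p := cyc_same h.symm
  have h5 : S.len p = arcw S.r S.w p q + arcw S.r S.w q p := h1
  rcases le_total (arcw S.r S.w p q) (arcw S.r S.w q p) with h6 | h6
  · have h7 := cutB_out S hS p k hk hkp (fun i _ => cutB_live hS hpq h i) (by rw [← h2]; linarith)
    rwa [hkq] at h7
  · have h7 := cutB_out S hS q k' hk' hkp' (fun i _ => cutB_live hS hpq.symm h.symm i)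
      (by rw [← h3, h4]; linarith)
    rwa [hkq', sw_comm, h4] at h7

end Pool.Agent.SWP
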