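import Pool.Agent.SWP.Mv

/-!
# Cuts of words: definitions

Context. A word `v = (x_1 ... x_k y)` (a cycle of `r`), `p = x_1`, `q` = first letter of `y`, is cut at `p` and `q` as follows:
for each `i` insert a digon `(x_i c_i)` along `x_i` (`St.dbl`), the partner `c'_i` of `c_i` replaces `x_i` in the word; then
join the digons at the common vertices (`St.vtx` at `c_i` and `x_{i+1}`). The result are the words
`(x_1 ... x_k c_k ... c_1)` and `(c'_1 ... c'_k y)`. The first return map to the old letters is `sw p q * r`, the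
projections are `π c_i = p`, `π c'_i = q`.
-/

set_option autoImplicit false

namespace Pool.Agent.SWP

open Equiv

/-- Result of cutting off the arc of the `k` letters `p, r p, ..., r^(k-1) p` of a word
(`j`, `π`: inclusion of the old letters and projection; `c`: the last of the new letters `c_k`). -/
structure Raw (S : St) (p : S.D) (k : ℕ) (S' : St) (j : S.D → S'.D) (π : S'.D → S.D) (c : S'.D) : Prop where
  tr : Trace j π S'.r (sw p ((S.r ^ k) p) * S.r)
  ja : ∀ d, S'.a (j d) = j (S.a d)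
  jw : ∀ d, S'.w (j d) = S.w d
  live : ∀ e, (∀ d, j d ≠ e) → S'.a e ≠ e
  newp : ∀ e, (∀ d, j d ≠ e) → π e = p ∨ π e = (S.r ^ k) p
  cnew : ∀ d, j d ≠ c
  cr : S'.r (j ((S.r ^ (k - 1)) p)) = c
  ca : S'.r (S'.a c) = j ((S.r ^ k) p)
  wp : wt S'.w {e | (∀ d, j d ≠ e) ∧ π e = p} = ∑ i ∈ Finset.range k, S.w ((S.r ^ i) p)
  wq : wt S'.w {e | (∀ d, j d ≠ e) ∧ π e = (S.r ^ k) p} = ∑ i ∈ Finset.range k, S.w ((S.r ^ i) p)

/-- Result of a sequence of cuts: `P` is the product of the transpositions, `E` bounds the weight of the new letters. -/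
structure CutOut (S : St) (P : Perm S.D) (S' : St) (j : S.D → S'.D) (π : S'.D → S.D) (E : ℝ) : Prop where
  tr : Trace j π S'.r (P * S.r)
  ja : ∀ d, S'.a (j d) = j (S.a d)
  jw : ∀ d, S'.w (j d) = S.w d
  live : ∀ e, (∀ d, j d ≠ e) → S'.a e ≠ e
  newp : ∀ e, (∀ d, j d ≠ e) → P (π e) ≠ π e
  wnew : wt S'.w {e | ∀ d, j d ≠ e} ≤ E
  clean : S.Clean → S'.Clean
  len : ∀ c : ℝ, (∀ d, S.len d ≤ c) → ∀ d, S'.len d ≤ c
  sw : ∀ L : ℝ, (∀ d, S.len d ≤ L) → SW L S' → SW L S

end Pool.Agent.SWP
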