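import Mathlib

/-!
# Sweeps of polygonal surfaces: definitions (MP_37d33d_gt)

A closed oriented surface glued from polygons is encoded by its set `D` of sides (letters), the permutation `r`
(next side in the same polygon), the involution `a` (the side glued to the given one) and the side lengths `w`.
During a sweep some sides have been glued already: these are dead letters (`a d = d`, length zero); the cycles of `r`
are then the boundary components of the part glued so far (dead letters are kept as marks of length zero).
-/

set_option autoImplicit false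

namespace Pool.Agent.SWP

open Equiv

/-- the transposition of `x` and `y` -/
noncomputable def sw {D : Type} (x y : D) : Perm D := @Equiv.swap D (Classical.decEq D) x y

/-- States: letters, next letter of the boundary word, partner letter, length. A letter with `a d = d` is dead. -/
structure St where
  D : Type
  fD : Fintype D
  r : Perm D
  a : Perm D
  w : D → ℝ
  aa : ∀ d, a (a d) = d
  wa : ∀ d, w (a d) = w d
  wnn : ∀ d, 0 ≤ w d
  w0 : ∀ d, a d = d → w d = 0

attribute [instance] St.fD

/-- weight of the cycle of `d` -/
noncomputable def cyc {D : Type} [Fintype D] (s : Perm D) (u : D → ℝ) (d : D) : ℝ :=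
  ∑ e, Set.indicator {e | s.SameCycle d e} u e

/-- total weight of a set of letters -/
noncomputable def wt {D : Type} [Fintype D] (u : D → ℝ) (B : Set D) : ℝ := ∑ e, Set.indicator B u e

theorem sw_left {D : Type} (x y : D) : sw x y x = y := by
  unfold sw; exact @Equiv.swap_apply_left D (Classical.decEq D) x y

theorem sw_right {D : Type} (x y : D) : sw x y y = x := by
  unfold sw; exact @Equiv.swap_apply_right D (Classical.decEq D) x y

theorem sw_of_ne {D : Type} {x y d : D} (h1 : d ≠ x) (h2 : d ≠ y) : sw x y d = d := by
  unfold sw; exact @Equiv.swap_apply_of_ne_of_ne D (Classical.decEq D) x y d h1 h2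

theorem sw_sq {D : Type} (x y d : D) : sw x y (sw x y d) = d := by
  unfold sw; exact @Equiv.swap_apply_self D (Classical.decEq D) x y d

theorem sw_self {D : Type} (x : D) : sw x x = 1 := by
  unfold sw; exact @Equiv.swap_self D (Classical.decEq D) x

theorem sw_comm {D : Type} (x y : D) : sw x y = sw y x := by
  unfold sw; exact @Equiv.swap_comm D (Classical.decEq D) x y

namespace St

/-- length of the boundary component (word) containing the letter `d` -/
noncomputable def len (S : St) (d : S.D) : ℝ := cyc S.r S.w d

/-- total length of all letters -/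
noncomputable def total (S : St) : ℝ := ∑ d, S.w d

/-- Glue the side `b` to its partner `a b`; both become dead letters. -/
noncomputable def glue (S : St) (b : S.D) : St where
  D := S.D
  fD := S.fD
  r := S.r * sw b (S.a b)
  a := S.a * sw b (S.a b)
  w := Set.indicator {d | d ≠ b ∧ d ≠ S.a b} S.w
  aa := by
    intro d
    simp only [Perm.mul_apply]
    by_cases h1 : d = b
    · subst h1; simp [sw_left, S.aa]
    by_cases h2 : d = S.a b
    · subst h2; simp [sw_right]
    have h3 : S.a d ≠ b := fun h => h2 (by rw [← h, S.aa])
    have h4 : S.a d ≠ S.a b := fun h => h1 (S.a.injective h)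
    rw [sw_of_ne h1 h2, sw_of_ne h3 h4, S.aa]
  wa := by
    intro d
    simp only [Perm.mul_apply]
    by_cases h1 : d = b
    · subst h1; simp [sw_left, S.aa]
    by_cases h2 : d = S.a b
    · subst h2; simp [sw_right]
    have h3 : S.a d ≠ b := fun h => h2 (by rw [← h, S.aa])
    have h4 : S.a d ≠ S.a b := fun h => h1 (S.a.injective h)
    rw [sw_of_ne h1 h2, Set.indicator_of_mem (show S.a d ∈ {d | d ≠ b ∧ d ≠ S.a b} from ⟨h3, h4⟩),
      Set.indicator_of_mem (show d ∈ {d | d ≠ b ∧ d ≠ S.a b} from ⟨h1, h2⟩), S.wa]
  wnn := fun d => Set.indicator_nonneg (fun e _ => S.wnn e) d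
  w0 := by
    intro d hd
    by_cases h : d ≠ b ∧ d ≠ S.a b
    · simp only [Perm.mul_apply] at hd
      rw [sw_of_ne h.1 h.2] at hd
      rw [Set.indicator_of_mem (show d ∈ {d | d ≠ b ∧ d ≠ S.a b} from h)]
      exact S.w0 d hd
    · rw [Set.indicator_of_notMem]
      exact h

/-- the partner map on letters with two additional letters which are partners -/
theorem ext_aa {D : Type} (a : Perm D) (h : ∀ d, a (a d) = d) (d : D ⊕ Bool) :
    (Equiv.sumCongr a Equiv.boolNot) ((Equiv.sumCongr a Equiv.boolNot) d) = d := by
  rcases d with d | d
  · simp [h]
  · cases d <;> simp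

/-- Insert a digon with sides `e` and the new letter `inr true` along the side `e`; the other new letter `inr false`
(the partner of `inr true`) replaces `e` in its old word. The digon has area zero. -/
noncomputable def dbl (S : St) (e : S.D) : St where
  D := S.D ⊕ Bool
  fD := inferInstance
  r := sw (Sum.inl e) (Sum.inr false) * Equiv.sumCongr S.r (Equiv.refl Bool) * sw (Sum.inr true) (Sum.inr false)
    * sw (Sum.inl e) (Sum.inr false)
  a := Equiv.sumCongr S.a Equiv.boolNot
  w := Sum.elim S.w (fun _ => S.w e)
  aa := ext_aa S.a S.aa
  wa := by rintro (d | d) <;> simp [S.wa]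
  wnn := by rintro (d | d) <;> simp [S.wnn]
  w0 := by
    rintro (d | d) h
    · simp at h ⊢; exact S.w0 d h
    · cases d <;> simp at h

/-- Subdivide the side `b` (and its partner) by a new vertex at distance zero from the end of `b`: the word of `b`
gets the new letter `inr true` after `b`, the word of the partner gets the new letter `inr false` before `a b`. -/
noncomputable def sub (S : St) (b : S.D) : St where
  D := S.D ⊕ Bool
  fD := inferInstance
  r := sw (Sum.inl (S.a b)) (Sum.inr false) * Equiv.sumCongr S.r (Equiv.refl Bool) * sw (Sum.inl b) (Sum.inr true)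
  a := Equiv.sumCongr S.a Equiv.boolNot
  w := Sum.elim S.w (fun _ => 0)
  aa := ext_aa S.a S.aa
  wa := by rintro (d | d) <;> simp [S.wa]
  wnn := by rintro (d | d) <;> simp [S.wnn]
  w0 := by
    rintro (d | d) h
    · simp at h ⊢; exact S.w0 d h
    · simp

/-- Blow up a vertex to an edge of length zero between the corners in front of the letters `p` and `q`
(used only if the letters `p` and `q` start at the same vertex of the closed surface). -/
noncomputable def zedge (S : St) (p q : S.D) : St where
  D := S.D ⊕ Bool
  fD := inferInstance
  r := sw (Sum.inl p) (Sum.inr true) * sw (Sum.inl q) (Sum.inr false) * Equiv.sumCongr S.r (Equiv.refl Bool)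
  a := Equiv.sumCongr S.a Equiv.boolNot
  w := Sum.elim S.w (fun _ => 0)
  aa := ext_aa S.a S.aa
  wa := by rintro (d | d) <;> simp [S.wa]
  wnn := by rintro (d | d) <;> simp [S.wnn]
  w0 := by
    rintro (d | d) h
    · simp at h ⊢; exact S.w0 d h
    · simp

end St

/-- The elementary refinements of zero area. The letters starting at one vertex of the closed surface form a cycle of
`r * a` (next side after the partner). -/
inductive Ref : St → St → Prop
  | dbl (S : St) (e : S.D) : S.a e ≠ e → Ref S (S.dbl e)
  | sub (S : St) (b : S.D) : S.a b ≠ b → Ref S (S.sub b)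
  | zedge (S : St) (p q : S.D) : S.a p ≠ p → S.a q ≠ q → p ≠ q → (S.r * S.a).SameCycle p q → Ref S (S.zedge p q)

/-- All sides can be glued one pair after the other such that at each moment all boundary components have length at
most `L`. -/
inductive GlueAll (L : ℝ) : St → Prop
  | nil (S : St) : (∀ d, S.a d = d) → GlueAll L S
  | cons (S : St) (b : S.D) : S.a b ≠ b → (∀ d, S.len d ≤ L) → GlueAll L (S.glue b) → GlueAll L S

/-- Some refinement of the state can be glued completely with all boundary components of length at most `L`. -/
def Sweep (L : ℝ) (S : St) : Prop := ∃ T, Relation.ReflTransGen Ref S T ∧ GlueAll L T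

/-- The closed surface glued from `n` triangles with unit sides: the sides of triangle `i` are `(i, 0), (i, 1), (i, 2)`,
the side `d` is glued to `α d`. -/
noncomputable def tri (n : ℕ) (α : Perm (Fin n × ZMod 3)) (h : ∀ d, α (α d) = d) (h' : ∀ d, α d ≠ d) : St where
  D := Fin n × ZMod 3
  fD := inferInstance
  r := Equiv.prodCongr (Equiv.refl (Fin n)) (Equiv.addRight (1 : ZMod 3))
  a := α
  w := fun _ => 1
  aa := h
  wa := fun _ => rfl
  wnn := fun _ => zero_le_one
  w0 := fun d hd => absurd hd (h' d)

end Pool.Agent.SWP
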