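import Pool.Agent.SWP.Cy

/-!
# Gluing a set of letters inside a light union of words

MODULE GSet. `glueSet_sw`: induct on the number of live letters of `X`. If no letter of `X` is live, `S.beta X = 1`, all letters of
`X` have length 0 and `S.glueSet X hX = S` (equality of states with the same letters: the fields `r`, `a`, `w` agree). Otherwise let
`b ∈ X` be live, `S1 = S.glue b`. `S.beta X = sw b (S.a b) * S1.beta X` (`S1.a = S.a * sw b (S.a b)`: on `b, S.a b` the map
`S1.beta X` is the identity), so `S.glueSet X hX = S1.glueSet X hX1` (fields: `r`: `S.r * S.beta X = (S.r * sw ..) * S1.beta X`; `a` is the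
identity on `X` and `S.a` outside in both cases, `w` is the indicator of the complement of `X`). Hypotheses for `S1`: `B` is invariant
under `S1.r` because `b, S.a b ∈ X ⊆ B`; `wt S1.w B ≤ wt S.w B ≤ L`; `S1.len d ≤ L`: if `d ∈ B` then the word is contained in `B`, so its
length is at most `wt S1.w B ≤ L`; if `d ∉ B`, its word is contained in the complement of `B`, where `S1.r = S.r` and
`S1.w = S.w`, so `S1.len d = S.len d` (`cyc_congr` for `Bᶜ`). So by induction `SW L S1`, and `SW.glue` gives `SW L S`.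

`clean_exists`: take the dead letters which are not alone out of their words, one after the other: induct on the number
of dead letters `g` with `S.r g ≠ g`. For such a `g` let `S1 = S.ghost g`, `S1.r = sw g (S.r g) * S.r`. `S1.r g = g`, and if `h` is dead
with `S.r h = h` then `S1.r h = h` (`h ≠ g`, `h ≠ S.r g`). `S1.r d = S.r g` if `S.r d = g`, otherwise `S1.r d = S.r d` (`d ≠ g`): so the word of `g`
loses the letter `g` (weight 0), and the other words are unchanged: for `d ≠ g` `S1.len d ≤ S.len d` (the word of `d` in `S1` is contained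
in the word of `d` in `S`: the set `{e | S.r.SameCycle d e}` is invariant under `S1.r`, use `cyc_le_wt`; `S.r g` and `g` are in the same word);
`S1.len g = S.w g = 0 ≤ c`.

`glue_all_sw`: everything can be glued if the total length is at most `L`: `glueSet_sw` with `X = B = univ`.
-/

set_option autoImplicit false

namespace Pool.Agent.SWP

open Equiv

private theorem GSet_ext (D : Type) (fD : Fintype D) (r r' a a' : Perm D) (w w' : D → ℝ) (h1 : r = r') (h2 : a = a')
    (h3 : w = w') (p1 : ∀ d, a (a d) = d) (p2 : ∀ d, w (a d) = w d) (p3 : ∀ d, 0 ≤ w d) (p4 : ∀ d, a d = d → w d = 0)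
    (q1 : ∀ d, a' (a' d) = d) (q2 : ∀ d, w' (a' d) = w' d) (q3 : ∀ d, 0 ≤ w' d) (q4 : ∀ d, a' d = d → w' d = 0) :
    (⟨D, fD, r, a, w, p1, p2, p3, p4⟩ : St) = ⟨D, fD, r', a', w', q1, q2, q3, q4⟩ := by
  subst h1 h2 h3
  rfl

private theorem GSet_cl (S : St) (X : Set S.D) (hX : S.Cl X) (b : S.D) (hb : b ∈ X) : (S.glue b).Cl X := by
  refine fun (d : S.D) (hd : d ∈ X) => ?_
  show S.a (sw b (S.a b) d) ∈ X
  by_cases h1 : d = b
  · subst h1
    rw [sw_left, S.aa]
    exact hd
  by_cases h2 : d = S.a b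
  · subst h2
    rw [sw_right]
    exact hd
  rw [sw_of_ne h1 h2]
  exact hX d hd

private noncomputable def GSet_b (S : St) (b : S.D) (X : Set S.D) : Perm S.D := (S.glue b).beta X

private theorem GSet_beta (S : St) (X : Set S.D) (hX : S.Cl X) (b : S.D) (hb : b ∈ X) :
    S.beta X = sw b (S.a b) * GSet_b S b X := by
  have hX1 := GSet_cl S X hX b hb
  ext d
  rw [Perm.mul_apply]
  by_cases hd : d ∈ X
  · rw [S.beta_mem hX hd]
    have e1 : GSet_b S b X d = S.a (sw b (S.a b) d) := (S.glue b).beta_mem hX1 hd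
    rw [e1]
    by_cases h1 : d = b
    · subst h1
      rw [sw_left, S.aa, sw_left]
    by_cases h2 : d = S.a b
    · subst h2
      rw [sw_right, S.aa, sw_right]
    have h3 : S.a d ≠ b := fun h => h2 (by rw [← h, S.aa])
    have h4 : S.a d ≠ S.a b := fun h => h1 (S.a.injective h)
    rw [sw_of_ne h1 h2, sw_of_ne h3 h4]
  · rw [S.beta_notMem hd]
    have e1 : GSet_b S b X d = d := (S.glue b).beta_notMem hd
    rw [e1, sw_of_ne (fun h => hd (by rw [h]; exact hb)) (fun h => hd (by rw [h]; exact hX b hb))]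

private theorem GSet_glue (S : St) (X : Set S.D) (hX : S.Cl X) (b : S.D) (hb : b ∈ X) (hX1 : (S.glue b).Cl X) :
    S.glueSet X hX = (S.glue b).glueSet X hX1 := by
  have hβ := GSet_beta S X hX b hb
  refine GSet_ext S.D S.fD _ _ _ _ _ _ ?_ ?_ ?_ _ _ _ _ _ _ _ _
  · show S.r * S.beta X = S.r * sw b (S.a b) * GSet_b S b X
    rw [hβ, mul_assoc]
  · show S.a * S.beta X = S.a * sw b (S.a b) * GSet_b S b X
    rw [hβ, mul_assoc]
  · show Set.indicator Xᶜ S.w = Set.indicator Xᶜ (Set.indicator {d | d ≠ b ∧ d ≠ S.a b} S.w)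
    funext d
    by_cases hd : d ∈ X
    · rw [Set.indicator_of_notMem (show d ∉ Xᶜ from fun h => h hd),
        Set.indicator_of_notMem (show d ∉ Xᶜ from fun h => h hd)]
    · rw [Set.indicator_of_mem (show d ∈ Xᶜ from hd), Set.indicator_of_mem (show d ∈ Xᶜ from hd),
        Set.indicator_of_mem (show d ∈ {d | d ≠ b ∧ d ≠ S.a b} from
          ⟨fun h => hd (by rw [h]; exact hb), fun h => hd (by rw [h]; exact hX b hb)⟩)]

private theorem GSet_none (S : St) (X : Set S.D) (hX : S.Cl X) (h0 : ∀ d ∈ X, S.a d = d) : S.glueSet X hX = S := by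
  have hβ : S.beta X = 1 := by
    ext d
    by_cases hd : d ∈ X
    · rw [S.beta_mem hX hd, h0 d hd]
      rfl
    · rw [S.beta_notMem hd]
      rfl
  refine GSet_ext S.D S.fD _ _ _ _ _ _ ?_ ?_ ?_ _ _ _ _ _ _ _ _
  · show S.r * S.beta X = S.r
    rw [hβ, mul_one]
  · show S.a * S.beta X = S.a
    rw [hβ, mul_one]
  · show Set.indicator Xᶜ S.w = S.w
    funext d
    by_cases hd : d ∈ X
    · rw [Set.indicator_of_notMem (show d ∉ Xᶜ from fun h => h hd), S.w0 d (h0 d hd)]
    · rw [Set.indicator_of_mem (show d ∈ Xᶜ from hd)]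

private theorem GSet_aux (L : ℝ) (n : ℕ) : ∀ (S : St) (X B : Set S.D) (hX : S.Cl X), X ⊆ B →
    (∀ d, S.r d ∈ B ↔ d ∈ B) → wt S.w B ≤ L → (∀ d, S.len d ≤ L) → SW L (S.glueSet X hX) →
    Set.ncard {d | d ∈ X ∧ S.a d ≠ d} ≤ n → SW L S := by
  induction n with
  | zero =>
    intro S X B hX hXB hB hw hlen h hn
    have h0 : {d | d ∈ X ∧ S.a d ≠ d} = (∅ : Set S.D) :=
      (Set.ncard_eq_zero (Set.toFinite _)).1 (Nat.le_zero.1 hn)
    have h1 : ∀ d ∈ X, S.a d = d := by
      intro d hd
      by_contra hc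
      have : d ∈ (∅ : Set S.D) := h0 ▸ (show d ∈ {d | d ∈ X ∧ S.a d ≠ d} from ⟨hd, hc⟩)
      exact this
    rw [GSet_none S X hX h1] at h
    exact h
  | succ n ih =>
    intro S X B hX hXB hB hw hlen h hn
    by_cases hall : ∀ d ∈ X, S.a d = d
    · rw [GSet_none S X hX hall] at h
      exact h
    push Not at hall
    obtain ⟨b, hb, hab⟩ := hall
    have hX1 := GSet_cl S X hX b hb
    have hbB : b ∈ B := hXB hb
    have habB : S.a b ∈ B := hXB (hX b hb)
    have hwle : ∀ d : S.D, (S.glue b).w d ≤ S.w d := by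
      intro d
      exact Set.indicator_le_self' (fun e _ => S.wnn e) d
    have hB1 : ∀ d : S.D, (S.glue b).r d ∈ B ↔ d ∈ B := by
      intro d
      show S.r (sw b (S.a b) d) ∈ B ↔ d ∈ B
      rw [hB]
      by_cases h1 : d = b
      · subst h1
        rw [sw_left]
        exact ⟨fun _ => hbB, fun _ => habB⟩
      by_cases h2 : d = S.a b
      · rw [h2, sw_right]
        exact ⟨fun _ => habB, fun _ => hbB⟩
      rw [sw_of_ne h1 h2]
    have hw1 : wt (S.glue b).w B ≤ L := le_trans (wt_mono_fun (fun d _ => hwle d)) hw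
    have hlen1 : ∀ d : S.D, (S.glue b).len d ≤ L := by
      intro d
      by_cases hd : d ∈ B
      · exact le_trans (cyc_le_wt (S.glue b).wnn (fun e he => (hB1 e).2 he) hd) hw1
      · have hc : cyc (S.glue b).r (S.glue b).w d = cyc S.r S.w d := by
          refine cyc_congr (Z := Bᶜ) (fun e he => fun h' => he ((hB1 e).1 h')) ?_ ?_ hd
          · refine fun (e : S.D) he => ?_
            show S.r (sw b (S.a b) e) = S.r e
            rw [sw_of_ne (fun h => he (by rw [h]; exact hbB)) (fun h => he (by rw [h]; exact habB))]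
          · refine fun (e : S.D) he => ?_
            show Set.indicator {d | d ≠ b ∧ d ≠ S.a b} S.w e = S.w e
            rw [Set.indicator_of_mem (show e ∈ {d | d ≠ b ∧ d ≠ S.a b} from
              ⟨fun h => he (by rw [h]; exact hbB), fun h => he (by rw [h]; exact habB)⟩)]
        show cyc (S.glue b).r (S.glue b).w d ≤ L
        rw [hc]
        exact hlen d
    have h1 : SW L ((S.glue b).glueSet X hX1) := by
      rw [← GSet_glue S X hX b hb hX1]
      exact h
    refine SW.glue S b hab hlen (ih (S.glue b) X B hX1 hXB hB1 hw1 hlen1 h1 ?_)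
    have hsub : {d : S.D | d ∈ X ∧ (S.glue b).a d ≠ d} ⊂ {d : S.D | d ∈ X ∧ S.a d ≠ d} := by
      refine ⟨?_, ?_⟩
      · rintro d ⟨hd, hd2⟩
        refine ⟨hd, fun hc => hd2 ?_⟩
        show S.a (sw b (S.a b) d) = d
        by_cases h1 : d = b
        · exact absurd (h1 ▸ hc) hab
        by_cases h2 : d = S.a b
        · rw [h2, sw_right]
        rw [sw_of_ne h1 h2, hc]
      · intro hc
        have h2 := hc (show b ∈ {d | d ∈ X ∧ S.a d ≠ d} from ⟨hb, hab⟩)
        apply h2.2
        show S.a (sw b (S.a b) b) = b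
        rw [sw_left, S.aa]
    have hlt := Set.ncard_lt_ncard hsub (Set.toFinite _)
    have : Set.ncard {d : S.D | d ∈ X ∧ (S.glue b).a d ≠ d} < n + 1 := lt_of_lt_of_le hlt hn
    exact Nat.lt_succ_iff.1 this

theorem glueSet_sw (L : ℝ) (S : St) (X B : Set S.D) (hX : S.Cl X) (hXB : X ⊆ B) (hB : ∀ d, S.r d ∈ B ↔ d ∈ B)
    (hw : wt S.w B ≤ L) (hlen : ∀ d, S.len d ≤ L) (h : SW L (S.glueSet X hX)) : SW L S := by
  exact GSet_aux L _ S X B hX hXB hB hw hlen h le_rfl

private theorem GSet_clean (n : ℕ) : ∀ S : St, Set.ncard {g | S.a g = g ∧ S.r g ≠ g} ≤ n →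
    ∃ S' : St, S'.Clean ∧ S'.total = S.total ∧
    (∀ c : ℝ, 0 ≤ c → (∀ d, S.len d ≤ c) → ∀ d, S'.len d ≤ c) ∧ ∀ L : ℝ, SW L S' → SW L S := by
  induction n with
  | zero =>
    intro S hn
    have h0 : {g | S.a g = g ∧ S.r g ≠ g} = (∅ : Set S.D) :=
      (Set.ncard_eq_zero (Set.toFinite _)).1 (Nat.le_zero.1 hn)
    refine ⟨S, ?_, rfl, fun c _ hc => hc, fun L h => h⟩
    intro d hd
    by_contra hc
    have : d ∈ (∅ : Set S.D) := h0 ▸ (show d ∈ {g | S.a g = g ∧ S.r g ≠ g} from ⟨hd, hc⟩)
    exact this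
  | succ n ih =>
    intro S hn
    by_cases hall : S.Clean
    · exact ⟨S, hall, rfl, fun c _ hc => hc, fun L h => h⟩
    unfold St.Clean at hall
    push Not at hall
    obtain ⟨g, hg, hrg⟩ := hall
    have hr : ∀ e : S.D, (S.ghost g).r e = sw g (S.r g) (S.r e) := fun e => rfl
    have hsub : {h : S.D | (S.ghost g).a h = h ∧ (S.ghost g).r h ≠ h} ⊂ {h : S.D | S.a h = h ∧ S.r h ≠ h} := by
      refine ⟨?_, ?_⟩
      · rintro h ⟨h1, h2⟩
        refine ⟨h1, fun hc => h2 ?_⟩
        rw [hr]
        have h3 : h ≠ g := by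
          rintro rfl
          exact hrg hc
        have h4 : h ≠ S.r g := by
          intro h5
          apply h3
          apply S.r.injective
          rw [hc]
          exact h5
        rw [hc, sw_of_ne h3 h4]
      · intro hc
        have h2 := hc (show g ∈ {h | S.a h = h ∧ S.r h ≠ h} from ⟨hg, hrg⟩)
        apply h2.2
        rw [hr, sw_right]
    have hlt := Set.ncard_lt_ncard hsub (Set.toFinite _)
    have hn1 : Set.ncard {h : S.D | (S.ghost g).a h = h ∧ (S.ghost g).r h ≠ h} < n + 1 := lt_of_lt_of_le hlt hn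
    obtain ⟨S', h1, h2, h3, h4⟩ := ih (S.ghost g) (Nat.lt_succ_iff.1 hn1)
    have hlen : ∀ d : S.D, (S.ghost g).len d ≤ S.len d := by
      intro d
      show cyc (S.ghost g).r S.w d ≤ cyc S.r S.w d
      rw [cyc_eq_wt (s := S.r)]
      refine cyc_le_wt S.wnn (Z := {e | S.r.SameCycle d e}) ?_ (Perm.SameCycle.refl _ _)
      intro e he
      show S.r.SameCycle d (sw g (S.r g) (S.r e))
      have he1 : S.r.SameCycle d (S.r e) := Perm.sameCycle_apply_right.2 he
      by_cases h5 : S.r e = g
      · rw [h5, sw_left]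
        rw [h5] at he1
        exact Perm.sameCycle_apply_right.2 he1
      by_cases h6 : S.r e = S.r g
      · rw [h6, sw_right]
        have h7 : e = g := S.r.injective h6
        rw [← h7]
        exact he
      rw [sw_of_ne h5 h6]
      exact he1
    exact ⟨S', h1, h2, fun c hc hd => h3 c hc (fun d => (hlen d).trans (hd d)), fun L h => SW.ghost S g hg (h4 L h)⟩

theorem clean_exists (S : St) : ∃ S' : St, S'.Clean ∧ S'.total = S.total ∧
    (∀ c : ℝ, 0 ≤ c → (∀ d, S.len d ≤ c) → ∀ d, S'.len d ≤ c) ∧ ∀ L : ℝ, SW L S' → SW L S := by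
  exact GSet_clean _ S le_rfl

theorem glue_all_sw (L : ℝ) (S : St) (h : S.total ≤ L) : SW L S := by
  have hX : S.Cl Set.univ := fun d _ => Set.mem_univ _
  refine glueSet_sw L S Set.univ Set.univ hX (le_refl _) (fun d => by simp) ?_ ?_ ?_
  · rw [wt_univ]
    exact h
  · intro d
    exact (St.len_le_total d).trans h
  · refine SW.done _ ?_
    intro d
    show S.a (S.beta Set.univ d) = d
    rw [S.beta_mem hX (Set.mem_univ d), S.aa]

end Pool.Agent.SWP
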