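import Pool.Agent.SWP.Chain

/-!
# A layer of the distance which cuts little

MODULE Lay. `r`: words, `f`: faces, `sh`: short (constant on faces, `hsh`), `Y` closed under the involution `a`, and for every
`b ∈ Y` some short face has letters in the words of `b` and of `a b` (`hZ`). For a set `N` of letters let
`A s = {y | ∃ x ∈ N, Nb r f sh s x y}`. `A s` is a union of words, increasing in `s`, and if a short face meets `A s` it is
contained in `A (s + 1)` (`nb_face`); by `hZ` and `nb_word`: if `b ∈ Y`, `b ∈ A s` then `a b ∈ A (s + 1)` (use `d, e` of `hZ`: `d` in the word of `b`).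
`CutS s`: the letters `d ∈ Y` such that exactly one of `d, a d` is in `A s`, and the letters `d ∉ Y` on short faces which meet `A s` but
are not contained in `A s`. Every letter is in `CutS s` for at most one `s`: suppose `s' < s` and `d ∈ CutS s' ∩ CutS s`. If
`d ∈ Y`: one of `d, a d` is in `A s'`, so both are in `A (s' + 1) ⊆ A s`, contradiction. If `d ∉ Y`: the face meets `A s'`, so it is
contained in `A (s' + 1) ⊆ A s`, contradiction. Therefore `∑ s < K, wt w (CutS s) ≤ ∑ d, w d`, and some `s < K` satisfies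
`wt w (CutS s) ≤ (∑ d, w d) / K`.
-/

set_option autoImplicit false

namespace Pool.Agent.SWP

open Equiv

/-- the ball of radius `s` around `N` -/
def Ball {D : Type} (r f : Perm D) (sh : D → Prop) (N : Set D) (s : ℕ) : Set D := {y | ∃ x ∈ N, Nb r f sh s x y}

/-- the letters cut by the set `A`: letters of `Y` with exactly one of `d, a d` in `A`, and letters outside of `Y` on short
faces which meet `A` but are not contained in `A` -/
def CutS {D : Type} (f a : Perm D) (sh : D → Prop) (Y A : Set D) : Set D :=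
  {d | (d ∈ Y ∧ ¬ (d ∈ A ↔ a d ∈ A)) ∨ (d ∉ Y ∧ sh d ∧ ∃ g h, f.SameCycle d g ∧ f.SameCycle d h ∧ g ∈ A ∧ h ∉ A)}

private theorem ball_mono {D : Type} {r f : Perm D} {sh : D → Prop} {N : Set D} {s s' : ℕ} (h : s ≤ s') {y : D}
    (hy : y ∈ Ball r f sh N s) : y ∈ Ball r f sh N s' := by
  obtain ⟨x, hx, hn⟩ := hy
  exact ⟨x, hx, nb_mono h hn⟩

private theorem ball_word {D : Type} {r f : Perm D} {sh : D → Prop} {N : Set D} {s : ℕ} {y z : D}
    (hy : y ∈ Ball r f sh N s) (h : r.SameCycle y z) : z ∈ Ball r f sh N s := by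
  obtain ⟨x, hx, hn⟩ := hy
  exact ⟨x, hx, nb_word hn h⟩

private theorem ball_face {D : Type} {r f : Perm D} {sh : D → Prop} {N : Set D} {s : ℕ} {g h : D}
    (hg : g ∈ Ball r f sh N s) (hs : sh g) (hf : f.SameCycle g h) : h ∈ Ball r f sh N (s + 1) := by
  obtain ⟨x, hx, hn⟩ := hg
  exact ⟨x, hx, nb_face hn hs hf⟩

private theorem ball_y {D : Type} {r f a : Perm D} {sh : D → Prop} {Y : Set D}
    (hZ : ∀ b ∈ Y, ∃ d e, sh d ∧ f.SameCycle d e ∧ r.SameCycle d b ∧ r.SameCycle e (a b)) {N : Set D} {s : ℕ} {b : D}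
    (hb : b ∈ Y) (hA : b ∈ Ball r f sh N s) : a b ∈ Ball r f sh N (s + 1) := by
  obtain ⟨d, e, h1, h2, h3, h4⟩ := hZ b hb
  exact ball_word (ball_face (ball_word hA h3.symm) h1 h2) h4

private theorem cut_unique {D : Type} {r f a : Perm D} (ha : ∀ d, a (a d) = d) {sh : D → Prop} {Y : Set D}
    (hsh : ∀ g h, f.SameCycle g h → sh g → sh h) (hY : ∀ d ∈ Y, a d ∈ Y)
    (hZ : ∀ b ∈ Y, ∃ d e, sh d ∧ f.SameCycle d e ∧ r.SameCycle d b ∧ r.SameCycle e (a b)) {N : Set D} {s s' : ℕ}
    (hs : s' < s) {d : D} (h1 : d ∈ CutS f a sh Y (Ball r f sh N s')) (h2 : d ∈ CutS f a sh Y (Ball r f sh N s)) :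
    False := by
  rcases h1 with ⟨hd, h1⟩ | ⟨hd, hsd, g, h, hg, hh, hgA, hhA⟩
  · have h3 : d ∈ Ball r f sh N s ∧ a d ∈ Ball r f sh N s := by
      by_cases h4 : d ∈ Ball r f sh N s'
      · exact ⟨ball_mono hs.le h4, ball_mono hs (ball_y hZ hd h4)⟩
      · have h5 : a d ∈ Ball r f sh N s' := by
          by_contra h5
          exact h1 ⟨fun h => absurd h h4, fun h => absurd h h5⟩
        have h6 := ball_y hZ (hY d hd) h5
        rw [ha] at h6
        exact ⟨ball_mono hs h6, ball_mono hs.le h5⟩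
    rcases h2 with ⟨_, h2⟩ | ⟨h2, _⟩
    · exact h2 ⟨fun _ => h3.2, fun _ => h3.1⟩
    · exact h2 hd
  · rcases h2 with ⟨h2, _⟩ | ⟨_, _, g', h', _, hh', _, hhA'⟩
    · exact hd h2
    · exact hhA' (ball_mono hs (ball_face hgA (hsh d g hg hsd) (hg.symm.trans hh')))

theorem layers {D : Type} [Fintype D] (r f a : Perm D) (ha : ∀ d, a (a d) = d) (sh : D → Prop) (Y : Set D) (w : D → ℝ)
    (hw : ∀ d, 0 ≤ w d) (hsh : ∀ g h, f.SameCycle g h → sh g → sh h) (hY : ∀ d ∈ Y, a d ∈ Y)
    (hZ : ∀ b ∈ Y, ∃ d e, sh d ∧ f.SameCycle d e ∧ r.SameCycle d b ∧ r.SameCycle e (a b)) (N : Set D) (K : ℕ)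
    (hK : 0 < K) :
    ∃ s < K, wt w (CutS f a sh Y (Ball r f sh N s)) ≤ (∑ d, w d) / K := by
  have hsum : ∑ s ∈ Finset.range K, wt w (CutS f a sh Y (Ball r f sh N s)) ≤ ∑ d, w d := by
    unfold wt
    rw [Finset.sum_comm]
    refine Finset.sum_le_sum fun e _ => ?_
    by_cases h : ∃ s0 ∈ Finset.range K, e ∈ CutS f a sh Y (Ball r f sh N s0)
    · obtain ⟨s0, hs0, he⟩ := h
      rw [Finset.sum_eq_single s0]
      · rw [Set.indicator_of_mem he]
      · intro s _ hne
        apply Set.indicator_of_notMem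
        intro h2
        rcases lt_or_gt_of_ne hne with h3 | h3
        · exact cut_unique ha hsh hY hZ h3 h2 he
        · exact cut_unique ha hsh hY hZ h3 he h2
      · intro h2
        exact absurd hs0 h2
    · rw [Finset.sum_eq_zero]
      · exact hw e
      · intro s hs
        apply Set.indicator_of_notMem
        intro h2
        exact h ⟨s, hs, h2⟩
  have hK' : (K : ℝ) ≠ 0 := by
    have : (0 : ℝ) < K := by exact_mod_cast hK
    exact this.ne'
  obtain ⟨s, hs, hle⟩ := Finset.exists_le_of_sum_le (s := Finset.range K)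
    (f := fun s => wt w (CutS f a sh Y (Ball r f sh N s))) (g := fun _ => (∑ d, w d) / K)
    ⟨0, Finset.mem_range.2 hK⟩ (by
      rw [Finset.sum_const, Finset.card_range, nsmul_eq_mul, mul_div_cancel₀ _ hK']
      exact hsum)
  exact ⟨s, Finset.mem_range.1 hs, hle⟩

end Pool.Agent.SWP
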