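import Pool.Agent.SWP.CutB

/-!
# Cutting several words

MODULE MCut. Induction on `k` (the words of `a 0, ..., a k` are pairwise distinct). For `k = 0` this is `cut1`. Step from
`k` to `k + 1`: let `P1, S1, j1, π1` be the result for `a 0, ..., a k`, and `a = a (k+1)`, `b = b (k+1)`. Let `Z` be the word of `a`
(`{d | S.r.SameCycle a d}`); `P1` fixes the elements of `Z` (the words are distinct and `b l` is in the word of `a l`). So
`(P1 * S.r)` agrees with `S.r` on `Z` (closed under both): `(P1 * S.r).SameCycle a b` (`same_congr`), hence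
`S1.r.SameCycle (j1 a) (j1 b)` (`Trace.same_old`). `cut1` for `S1`, `j1 a`, `j1 b` gives `S2, j2, π2` with
`Trace j2 π2 S2.r (sw (j1 a) (j1 b) * S1.r)`. By `Trace.mul_left` (`A' = sw (j1 a) (j1 b)`, `A = sw a b`, `π' = π1`: for new `c`
`P1 (π1 c) ≠ π1 c`, so `π1 c` is one of `a l, b l`, `l ≤ k`, and is fixed by `sw a b`) we get
`Trace j1 π1 (sw (j1 a) (j1 b) * S1.r) (sw a b * (P1 * S.r))`; with `Trace.comp`:
`Trace (j2 ∘ j1) (π1 ∘ π2) S2.r ((sw a b * P1) * S.r)`. Take `P = sw a b * P1`.
`newp`: new letters `e` of `S2`: if `e` is new for `j2` then `π2 e` is `j1 a` or `j1 b` (it is moved by `sw (j1 a) (j1 b)`), the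
projection is `a` or `b`, which `P` moves. If `e = j2 e'` with `e'` new for `j1` then the projection is `π1 e'`, one of
`a l, b l` (`l ≤ k`), and `P (π1 e') = P1 (π1 e') ≠ π1 e'`.
`wnew`: weight of the letters new for `j2`: at most `S1.len (j1 a)`, and this is
`cyc (P1 * S.r) (push π1 S1.w) a = cyc S.r S.w a = S.len a` (`Trace.cyc_push`, `Trace.push_eq`, `cyc_congr` on `Z`: no new letter
projects to `Z`, because the projections are moved by `P1`); the others have the weight of the new letters of `S1`.
`clean, len, sw`: composition.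
-/

set_option autoImplicit false
namespace Pool.Agent.SWP
open Equiv

theorem mcut_total {S S' : St} {j : S.D → S'.D} (hj : Function.Injective j) (hw : ∀ d, S'.w (j d) = S.w d) :
    S'.total = S.total + wt S'.w {e | ∀ d, j d ≠ e} := by
  classical
  have h1 := wt_compl (u := S'.w) {e | ∀ d, j d ≠ e}
  have h2 : wt S'.w {e | ∀ d, j d ≠ e}ᶜ = ∑ d, S.w d := by
    unfold wt
    have h3 : ∀ e : S'.D, Set.indicator {e | ∀ d, j d ≠ e}ᶜ S'.w e = if e ∈ Finset.univ.image j then S'.w e else 0 := by
      intro e
      by_cases he : ∃ d, j d = e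
      · obtain ⟨d, rfl⟩ := he
        rw [Set.indicator_of_mem (show j d ∈ {e | ∀ d, j d ≠ e}ᶜ from fun h => h d rfl), if_pos (by simp)]
      · push Not at he
        rw [Set.indicator_of_notMem (show e ∉ {e | ∀ d, j d ≠ e}ᶜ from fun h => h he), if_neg]
        simpa using he
    rw [Finset.sum_congr rfl (fun e _ => h3 e), ← Finset.sum_filter, Finset.filter_mem_eq_inter, Finset.univ_inter,
      Finset.sum_image (fun x _ y _ h => hj h)]
    exact Finset.sum_congr rfl (fun d _ => hw d)
  unfold St.total
  rw [← h1, h2]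
  ring

theorem sw_map {D D' : Type} {j : D → D'} (hj : Function.Injective j) (x y d : D) :
    sw (j x) (j y) (j d) = j (sw x y d) := by
  by_cases h1 : d = x
  · subst h1; rw [sw_left, sw_left]
  by_cases h2 : d = y
  · subst h2; rw [sw_right, sw_right]
  rw [sw_of_ne h1 h2, sw_of_ne (fun h => h1 (hj h)) (fun h => h2 (hj h))]

theorem sw_ne {D : Type} {x y d : D} (h : sw x y d ≠ d) : d = x ∨ d = y := by
  by_contra hc
  push Not at hc
  exact h (sw_of_ne hc.1 hc.2)

theorem mcut (S : St) (hS : S.Clean) (k : ℕ) (a b : ℕ → S.D) (h1 : ∀ l ≤ k, a l ≠ b l)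
    (h2 : ∀ l ≤ k, S.r.SameCycle (a l) (b l))
    (h3 : ∀ l ≤ k, ∀ m ≤ k, l ≠ m → ¬ S.r.SameCycle (a l) (a m)) :
    ∃ (P : Perm S.D) (S' : St) (j : S.D → S'.D) (π : S'.D → S.D),
      (∀ l ≤ k, P (a l) = b l) ∧ (∀ l ≤ k, P (b l) = a l) ∧ (∀ d, (∀ l ≤ k, d ≠ a l ∧ d ≠ b l) → P d = d) ∧
      CutOut S P S' j π (∑ l ∈ Finset.range (k + 1), S.len (a l)) := by
  induction k with
  | zero =>
    obtain ⟨S', j, π, hC⟩ := cut1 S hS (a 0) (b 0) (h1 0 le_rfl) (h2 0 le_rfl)
    refine ⟨sw (a 0) (b 0), S', j, π, ?_, ?_, ?_, ?_⟩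
    · intro l hl; obtain rfl := Nat.le_zero.mp hl; exact sw_left _ _
    · intro l hl; obtain rfl := Nat.le_zero.mp hl; exact sw_right _ _
    · intro d hd; exact sw_of_ne (hd 0 le_rfl).1 (hd 0 le_rfl).2
    · simpa using hC
  | succ k ih =>
    obtain ⟨P1, S1, j1, π1, hPa, hPb, hPc, hC⟩ := ih (fun l hl => h1 l (by omega)) (fun l hl => h2 l (by omega))
      (fun l hl m hm => h3 l (by omega) m (by omega))
    set a' := a (k + 1) with ha'
    set b' := b (k + 1) with hb'
    have hab : a' ≠ b' := h1 (k + 1) le_rfl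
    have habs : S.r.SameCycle a' b' := h2 (k + 1) le_rfl
    have hfix : ∀ d, S.r.SameCycle a' d → P1 d = d := by
      intro d hd
      apply hPc
      intro l hl
      constructor
      · rintro rfl
        exact h3 (k + 1) le_rfl l (by omega) (by omega) hd
      · rintro rfl
        exact h3 (k + 1) le_rfl l (by omega) (by omega) (hd.trans (h2 l (by omega)).symm)
    have hPa' : P1 a' = a' := hfix a' (Perm.SameCycle.refl _ _)
    have hPb' : P1 b' = b' := hfix b' habs
    have hZr : ∀ d ∈ {d | S.r.SameCycle a' d}, S.r d ∈ {d | S.r.SameCycle a' d} :=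
      fun d hd => Perm.sameCycle_apply_right.mpr hd
    have hZst : ∀ d ∈ {d | S.r.SameCycle a' d}, S.r d = (P1 * S.r) d := fun d hd => (hfix _ (hZr d hd)).symm
    have haZ : a' ∈ {d | S.r.SameCycle a' d} := Perm.SameCycle.refl _ _
    have hs1 : S1.r.SameCycle (j1 a') (j1 b') :=
      (hC.tr.same_old a' b').mpr ((same_congr hZr hZst haZ b').mp habs)
    have hinj := hC.tr.inj
    obtain ⟨S2, j2, π2, hC2⟩ := cut1 S1 (hC.clean hS) (j1 a') (j1 b') (fun h => hab (hinj h)) hs1
    have hinj2 := hC2.tr.inj
    have hlen : S1.len (j1 a') = S.len a' := by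
      unfold St.len
      rw [hC.tr.cyc_push, hC.tr.pj]
      refine cyc_congr (Z := {d | S.r.SameCycle a' d}) ?_ ?_ ?_ haZ
      · intro d hd; rw [← hZst d hd]; exact hZr d hd
      · intro d hd; exact (hZst d hd).symm
      · intro d hd
        rw [hC.tr.push_eq, hC.jw]
        have : wt S1.w {c | (∀ d, j1 d ≠ c) ∧ π1 c = d} = 0 := by
          unfold wt
          refine Finset.sum_eq_zero (fun c _ => ?_)
          refine Set.indicator_of_notMem ?_ _
          rintro ⟨hc1, hc2⟩
          exact hC.newp c hc1 (by rw [hc2]; exact hfix d hd)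
        rw [this, add_zero]
    have hT1 : Trace j1 π1 (sw (j1 a') (j1 b') * S1.r) (sw a' b' * (P1 * S.r)) := by
      refine hC.tr.mul_left _ _ (fun d => sw_map hinj _ _ _) ?_ π1 hC.tr.pj ?_
      · intro d' hd'; exact sw_of_ne (fun h => hd' a' h.symm) (fun h => hd' b' h.symm)
      · intro d' hd'
        have := hC.newp d' hd'
        refine (sw_of_ne ?_ ?_).symm
        · intro h; rw [h] at this; exact this hPa'
        · intro h; rw [h] at this; exact this hPb'
    have hT := hT1.comp hC2.tr
    rw [← mul_assoc] at hT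
    have hbl : ∀ l ≤ k, b l ≠ a' ∧ b l ≠ b' := by
      intro l hl
      have hn := h3 (k + 1) le_rfl l (by omega) (by omega)
      constructor
      · intro h; exact hn (by rw [← ha', ← h]; exact (h2 l (by omega)).symm)
      · intro h; exact hn (habs.trans (by rw [← h]; exact (h2 l (by omega)).symm))
    have hal : ∀ l ≤ k, a l ≠ a' ∧ a l ≠ b' := by
      intro l hl
      have hn := h3 (k + 1) le_rfl l (by omega) (by omega)
      constructor
      · intro h; exact hn (by rw [← ha', ← h])
      · intro h; exact hn (by rw [h]; exact habs)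
    refine ⟨sw a' b' * P1, S2, j2 ∘ j1, π1 ∘ π2, ?_, ?_, ?_, ?_⟩
    · intro l hl
      rw [Perm.mul_apply]
      rcases Nat.lt_or_ge l (k + 1) with h | h
      · rw [hPa l (by omega), sw_of_ne (hbl l (by omega)).1 (hbl l (by omega)).2]
      · obtain rfl : l = k + 1 := by omega
        rw [← ha', hPa', sw_left]
    · intro l hl
      rw [Perm.mul_apply]
      rcases Nat.lt_or_ge l (k + 1) with h | h
      · rw [hPb l (by omega), sw_of_ne (hal l (by omega)).1 (hal l (by omega)).2]
      · obtain rfl : l = k + 1 := by omega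
        rw [← hb', hPb', sw_right]
    · intro d hd
      rw [Perm.mul_apply, hPc d (fun l hl => hd l (by omega)), sw_of_ne (hd (k + 1) le_rfl).1 (hd (k + 1) le_rfl).2]
    · have hcase : ∀ e : S2.D, (∀ d, (j2 ∘ j1) d ≠ e) → (∀ d, j2 d ≠ e) ∨ ∃ e', (∀ d, j1 d ≠ e') ∧ j2 e' = e := by
        intro e he
        by_cases h : ∃ e', j2 e' = e
        · obtain ⟨e', rfl⟩ := h
          exact Or.inr ⟨e', fun d hd => he d (by simp only [Function.comp_apply]; rw [hd]), rfl⟩
        · push Not at h; exact Or.inl h
      refine ⟨hT, ?_, ?_, ?_, ?_, ?_, ?_, ?_, ?_⟩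
      · intro d; simp only [Function.comp_apply]; rw [hC2.ja, hC.ja]
      · intro d; simp only [Function.comp_apply]; rw [hC2.jw, hC.jw]
      · intro e he
        rcases hcase e he with h | ⟨e', h, rfl⟩
        · exact hC2.live e h
        · rw [hC2.ja]; intro h4; exact hC.live e' h (hinj2 h4)
      · intro e he
        simp only [Function.comp_apply, Perm.mul_apply]
        rcases hcase e he with h | ⟨e', h, rfl⟩
        · rcases sw_ne (hC2.newp e h) with h5 | h5
          · rw [h5, hC.tr.pj, hPa', sw_left]; exact hab.symm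
          · rw [h5, hC.tr.pj, hPb', sw_right]; exact hab
        · rw [hC2.tr.pj]
          have h6 := hC.newp e' h
          rw [sw_of_ne]
          · exact h6
          · intro h7
            have : π1 e' = a' := P1.injective (by rw [h7, hPa'])
            rw [this] at h6; exact h6 hPa'
          · intro h7
            have : π1 e' = b' := P1.injective (by rw [h7, hPb'])
            rw [this] at h6; exact h6 hPb'
      · have e1 := mcut_total hinj hC.jw
        have e2 := mcut_total hinj2 hC2.jw
        have e3 := mcut_total (S := S) (S' := S2) (j := j2 ∘ j1) (hinj2.comp hinj)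
          (fun d => by simp only [Function.comp_apply]; rw [hC2.jw, hC.jw])
        have w1 := hC.wnew
        have w2 := hC2.wnew
        rw [hlen] at w2
        rw [Finset.sum_range_succ]
        linarith
      · exact fun hc => hC2.clean (hC.clean hc)
      · exact fun c hc => hC2.len c (hC.len c hc)
      · exact fun L hL hs => hC.sw L hL (hC2.sw L (hC.len L hL) hs)

end Pool.Agent.SWP
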