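import Pool.Agent.SWP.Tcl
import Pool.Agent.SWP.GSet
import Pool.Agent.SWP.Grp

/-!
# The iteration

MODULE Macro.

`bigstep`: let `n` be a natural number with `8 / ε < n ≤ 10 / ε` (`⌊8 / ε⌋₊ + 1`) and `c = ε / (2 n^2)`. Given `κ' > 0` let
`τ = min (κ', ε / 4, ε / (4 n^2))` and `κ` = the constant of `tcl τ`, but at most `ε / 8`. Let `S` be clean with
`S.total ≤ M`, `ε M < S.total`, all words of length at most `κ M`.
`grouping` with `g = ε M / 8`: `grp ≤ 8 / ε`, so `grp d < n`; each group has weight at most `ε M / 8 + κ M ≤ ε M / 4`.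
`pair_exists` (with `a = S.a`): `i, j`. Let `B = {d | grp d = i ∨ grp d = j}` (invariant under `S.r`, weight at most `ε M / 2`) and
`Y = {d | d ∈ B ∧ S.a d ∈ B}` (closed under `S.a`); `wt S.w Y ≥ S.total / n^2 ≥ ε M / n^2`.
`tcl`: `S', Y', B', T`. `X = Y' \ T` is closed (if `d ∈ X` and `S'.a d ∈ T` then `d = S'.a (S'.a d) ∈ T`), `X ⊆ B'`,
`wt S'.w B' ≤ ε M / 2 + τ M ≤ ε M`; `S'.len ≤ κ M ≤ ε M` (`Rfn.len`). So by `glueSet_sw` `SW (ε M) (S'.glueSet X)` implies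
`SW (ε M) S'` and then `SW (ε M) S` (`Rfn.sw`). The words of `S'.glueSet X` have length `cyc (S'.r * S'.beta X) (S'.uw X) d ≤ τ M ≤ κ' M`
(definitional). Its total is `S'.total - wt S'.w X = S'.total - wt S'.w Y' + wt S'.w T ≤ S.total + τ M - ε M / n^2 + τ M ≤
S.total - ε M / (2 n^2)`. Finally `clean_exists`.

`iterate`: induct on `k`: for `k = 0` (`S.total ≤ ε M`) use `glue_all_sw`. Step: let `κ'` be the constant for `k`, and `κ` the constant
of `bigstep` for `κ'`. If `S.total ≤ ε M` use `glue_all_sw`, otherwise `bigstep`: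
`S'.total ≤ S.total - c M ≤ (ε + (k + 1) c) M - c M`, `≤ M`.

`mainSW`: assume `ε ≤ 1` (otherwise use the constant for `1`; if `ε > 1` then `S.total ≤ ε * S.total` and `glue_all_sw` does it). Take `k` with
`ε + k c ≥ 1` and `δ = κ`. If `S.total = 0` use `glue_all_sw`. Otherwise `M = S.total`.
-/

set_option autoImplicit false

namespace Pool.Agent.SWP

open Equiv

private theorem mac_wt_le {D : Type} [Fintype D] (u : D → ℝ) (hu : ∀ d, 0 ≤ u d) {A B C : Set D}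
    (h : A ⊆ B ∪ C) : wt u A ≤ wt u B + wt u C := by
  classical
  unfold wt
  rw [← Finset.sum_add_distrib]
  refine Finset.sum_le_sum fun e _ => ?_
  by_cases hA : e ∈ A
  · rw [Set.indicator_of_mem hA]
    rcases h hA with hB | hC
    · rw [Set.indicator_of_mem hB]
      have : 0 ≤ Set.indicator C u e := Set.indicator_nonneg (fun e _ => hu e) e
      linarith
    · rw [Set.indicator_of_mem hC]
      have : 0 ≤ Set.indicator B u e := Set.indicator_nonneg (fun e _ => hu e) e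
      linarith
  · rw [Set.indicator_of_notMem hA]
    have h1 : 0 ≤ Set.indicator C u e := Set.indicator_nonneg (fun e _ => hu e) e
    have h2 : 0 ≤ Set.indicator B u e := Set.indicator_nonneg (fun e _ => hu e) e
    linarith

private theorem mac_wt_mono {D : Type} [Fintype D] (u : D → ℝ) (hu : ∀ d, 0 ≤ u d) {A B : Set D}
    (h : A ⊆ B) : wt u A ≤ wt u B := by
  classical
  unfold wt
  exact Finset.sum_le_sum fun e _ => Set.indicator_le_indicator_of_subset h hu e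

private theorem mac_glue_total (S : St) (Y T : Set S.D) (hT : T ⊆ Y) (hX : S.Cl (Y \ T)) :
    (S.glueSet (Y \ T) hX).total = S.total - wt S.w Y + wt S.w T := by
  classical
  have h : (S.glueSet (Y \ T) hX).total = ∑ d, Set.indicator (Y \ T)ᶜ S.w d := rfl
  rw [h]
  unfold St.total wt
  rw [← Finset.sum_sub_distrib, ← Finset.sum_add_distrib]
  refine Finset.sum_congr rfl fun e _ => ?_
  by_cases hY : e ∈ Y
  · by_cases hTe : e ∈ T
    · rw [Set.indicator_of_mem hY, Set.indicator_of_mem hTe, Set.indicator_of_mem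
        (show e ∈ (Y \ T)ᶜ from fun h => h.2 hTe)]
      ring
    · rw [Set.indicator_of_mem hY, Set.indicator_of_notMem hTe, Set.indicator_of_notMem
        (show e ∉ (Y \ T)ᶜ from fun h => h ⟨hY, hTe⟩)]
      ring
  · have hTe : e ∉ T := fun h => hY (hT h)
    rw [Set.indicator_of_notMem hY, Set.indicator_of_notMem hTe, Set.indicator_of_mem
        (show e ∈ (Y \ T)ᶜ from fun h => hY h.1)]
    ring

private theorem mac_total_nonneg (S : St) : 0 ≤ S.total :=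
  Finset.sum_nonneg fun d _ => S.wnn d

theorem bigstep (ε : ℝ) (h0 : 0 < ε) (h1 : ε ≤ 1) : ∃ c : ℝ, 0 < c ∧ ∀ κ' : ℝ, 0 < κ' → ∃ κ : ℝ, 0 < κ ∧
    ∀ M : ℝ, 0 < M → ∀ S : St, S.Clean → S.total ≤ M → ε * M < S.total → (∀ d, S.len d ≤ κ * M) →
      ∃ S' : St, S'.Clean ∧ (∀ d, S'.len d ≤ κ' * M) ∧ S'.total ≤ S.total - c * M ∧
        (SW (ε * M) S' → SW (ε * M) S) := by
  obtain ⟨n, hnd⟩ : ∃ n : ℕ, n = ⌊8 / ε⌋₊ + 1 := ⟨_, rfl⟩
  have hn : (8 / ε : ℝ) < n := by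
    rw [hnd]
    push_cast
    exact Nat.lt_floor_add_one _
  have hn0 : 0 < n := by omega
  have hnr : (0 : ℝ) < (n : ℝ) ^ 2 := by positivity
  refine ⟨ε / (2 * (n : ℝ) ^ 2), by positivity, fun κ' hκ' => ?_⟩
  obtain ⟨τ, hτ0, hτ1, hτ2, hτ3⟩ : ∃ τ : ℝ, 0 < τ ∧ τ ≤ κ' ∧ τ ≤ ε / 4 ∧
      τ ≤ ε / (4 * (n : ℝ) ^ 2) := by
    refine ⟨min κ' (min (ε / 4) (ε / (4 * (n : ℝ) ^ 2))), lt_min hκ' (lt_min (by positivity)
      (by positivity)), min_le_left _ _, (min_le_right _ _).trans (min_le_left _ _),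
      (min_le_right _ _).trans (min_le_right _ _)⟩
  obtain ⟨κ₁, hκ₁0, hκ₁τ, htcl⟩ := tcl τ hτ0 (by linarith)
  refine ⟨min κ₁ (ε / 8), lt_min hκ₁0 (by positivity), fun M hM S hS htot hbig hlen => ?_⟩
  have hlen1 : ∀ d, S.len d ≤ κ₁ * M := fun d =>
    (hlen d).trans (mul_le_mul_of_nonneg_right (min_le_left _ _) hM.le)
  have hlen2 : ∀ d, S.len d ≤ ε / 8 * M := fun d =>
    (hlen d).trans (mul_le_mul_of_nonneg_right (min_le_right _ _) hM.le)
  have hlen3 : ∀ d, S.len d ≤ ε * M := fun d => (hlen2 d).trans (by nlinarith [mul_pos h0 hM])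
  obtain ⟨grp, hg1, hg2, hg3⟩ := grouping S.r S.w S.wnn (ε / 8 * M) (ε / 8 * M) M (by positivity)
    (by positivity) hlen2 htot
  have hgn : ∀ d, grp d < n := by
    intro d
    have h3 := hg3 d
    have h4 : M / (ε / 8 * M) = 8 / ε := by field_simp
    rw [h4] at h3
    exact_mod_cast lt_of_le_of_lt h3 hn
  obtain ⟨i, j, hij⟩ := pair_exists S.a S.w S.wnn grp n hn0 hgn
  obtain ⟨B, hBd⟩ : ∃ B : Set S.D, B = {d | grp d = i ∨ grp d = j} := ⟨_, rfl⟩
  have hBinv : ∀ d, S.r d ∈ B ↔ d ∈ B := by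
    intro d
    rw [hBd]
    show (grp (S.r d) = i ∨ grp (S.r d) = j) ↔ (grp d = i ∨ grp d = j)
    rw [hg1]
  have hBw : wt S.w B ≤ ε / 2 * M := by
    have h3 : wt S.w B ≤ wt S.w {d | grp d = i} + wt S.w {d | grp d = j} := by
      apply mac_wt_le S.w S.wnn
      intro d hd
      rw [hBd] at hd
      exact hd
    have h4 := hg2 i
    have h5 := hg2 j
    linarith
  obtain ⟨Y, hYd⟩ : ∃ Y : Set S.D, Y = {d | d ∈ B ∧ S.a d ∈ B} := ⟨_, rfl⟩
  have hYcl : S.Cl Y := by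
    intro d hd
    rw [hYd] at hd ⊢
    exact ⟨hd.2, by rw [S.aa]; exact hd.1⟩
  have hYB : Y ⊆ B := by
    intro d hd
    rw [hYd] at hd
    exact hd.1
  have hYw : ε * M / (n : ℝ) ^ 2 ≤ wt S.w Y := by
    have h3 : wt S.w {d | grp d = i ∧ grp (S.a d) = j} ≤ wt S.w Y := by
      apply mac_wt_mono S.w S.wnn
      intro d hd
      rw [hYd, hBd]
      exact ⟨Or.inl hd.1, Or.inr hd.2⟩
    have h4 : ε * M / (n : ℝ) ^ 2 ≤ S.total / (n : ℝ) ^ 2 :=
      div_le_div_of_nonneg_right hbig.le hnr.le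
    exact (h4.trans hij).trans h3
  obtain ⟨S', Y', B', T, hR, hTY, hTcl, hTw, hface⟩ := htcl M hM S Y B hS hYcl hYB hBinv htot hlen1
  have hX : S'.Cl (Y' \ T) := by
    intro d hd
    refine ⟨hR.cl d hd.1, fun h => hd.2 ?_⟩
    have := hTcl _ h
    rwa [S'.aa] at this
  obtain ⟨S'', hc1, hc2, hc3, hc4⟩ := clean_exists (S'.glueSet (Y' \ T) hX)
  refine ⟨S'', hc1, ?_, ?_, ?_⟩
  · apply hc3 (κ' * M) (by positivity)
    intro d
    have h3 : (S'.glueSet (Y' \ T) hX).len d = cyc (S'.r * S'.beta (Y' \ T)) (S'.uw (Y' \ T)) d :=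
      rfl
    rw [h3]
    exact (hface d).trans (mul_le_mul_of_nonneg_right hτ1 hM.le)
  · rw [hc2, mac_glue_total S' Y' T hTY hX]
    have h3 := hR.total
    have h4 := hR.wY
    have h5 : τ * M ≤ ε / (4 * (n : ℝ) ^ 2) * M := mul_le_mul_of_nonneg_right hτ3 hM.le
    have h6 : ε * M / (n : ℝ) ^ 2 = 4 * (ε / (4 * (n : ℝ) ^ 2) * M) := by
      field_simp
    have h7 : ε / (2 * (n : ℝ) ^ 2) * M = 2 * (ε / (4 * (n : ℝ) ^ 2) * M) := by
      field_simp
      ring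
    linarith
  · intro hsw
    apply hR.sw (ε * M) hlen3
    apply glueSet_sw (ε * M) S' (Y' \ T) B' hX (fun d hd => hR.sub hd.1) hR.inv _
      (hR.len _ hlen3) (hc4 _ hsw)
    have h3 := hR.wB
    have h4 : τ * M ≤ ε / 4 * M := mul_le_mul_of_nonneg_right hτ2 hM.le
    have h5 : 0 < ε * M := mul_pos h0 hM
    linarith

theorem iterate (ε : ℝ) (h0 : 0 < ε) (h1 : ε ≤ 1) : ∃ c : ℝ, 0 < c ∧ ∀ k : ℕ, ∃ κ : ℝ, 0 < κ ∧
    ∀ M : ℝ, 0 < M → ∀ S : St, S.Clean → S.total ≤ M → S.total ≤ (ε + k * c) * M → (∀ d, S.len d ≤ κ * M) →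
      SW (ε * M) S := by
  obtain ⟨c, hc, hb⟩ := bigstep ε h0 h1
  refine ⟨c, hc, fun k => ?_⟩
  induction k with
  | zero =>
    refine ⟨1, one_pos, fun M hM S hS h3 h4 h5 => ?_⟩
    apply glue_all_sw
    simpa using h4
  | succ k ih =>
    obtain ⟨κ', hκ', hih⟩ := ih
    obtain ⟨κ, hκ, hbb⟩ := hb κ' hκ'
    refine ⟨κ, hκ, fun M hM S hS h3 h4 h5 => ?_⟩
    rcases le_or_gt S.total (ε * M) with h6 | h6
    · exact glue_all_sw _ _ h6
    · obtain ⟨S', g1, g2, g3, g4⟩ := hbb M hM S hS h3 h6 h5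
      apply g4
      have h7 : 0 < c * M := mul_pos hc hM
      apply hih M hM S' g1 (by linarith) _ g2
      push_cast at h4
      have h8 : (ε + (k + 1) * c) * M = (ε + k * c) * M + c * M := by ring
      linarith

theorem mainSW (ε : ℝ) (h0 : 0 < ε) : ∃ δ : ℝ, 0 < δ ∧ ∀ S : St, S.Clean → (∀ d, S.len d ≤ δ * S.total) →
    SW (ε * S.total) S := by
  rcases le_or_gt ε 1 with h1 | h1
  · obtain ⟨c, hc, hk⟩ := iterate ε h0 h1
    obtain ⟨k, hk1⟩ := exists_nat_ge (1 / c)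
    obtain ⟨κ, hκ, hkk⟩ := hk k
    refine ⟨κ, hκ, fun S hS hlen => ?_⟩
    have h3 := mac_total_nonneg S
    rcases h3.lt_or_eq with h4 | h4
    · refine hkk S.total h4 S hS le_rfl ?_ hlen
      have h5 : 1 ≤ (k : ℝ) * c := by
        rwa [div_le_iff₀ hc] at hk1
      nlinarith
    · apply glue_all_sw
      rw [← h4, mul_zero]
  · refine ⟨1, one_pos, fun S _ _ => ?_⟩
    apply glue_all_sw
    have h3 := mac_total_nonneg S
    nlinarith

end Pool.Agent.SWP
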