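import Pool.Agent.SWP.Tr
import Pool.Agent.SWP.Ar

/-!
# The elementary refinements: first return maps and lengths of words

MODULE Mv. The new letters of `S.dbl e`, `S.sub b`, `S.zedge p q` are `Sum.inr true`, `Sum.inr false`; the old letters are
`Sum.inl d`. Just evaluate the products of transpositions (`sw_left, sw_right, sw_of_ne`, and
`Equiv.sumCongr S.r (Equiv.refl Bool)` maps `inl d` to `inl (S.r d)` and fixes `inr b`).

`dbl`: with `c = inr true`, `c' = inr false`: `e → c → e` (if `r e ≠ e`), `c' → r e`, and if `r t = e` with `t ≠ e` then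
`t → c'`. So the first return map to the old letters is `sw e (r e) * r` (it fixes `e`, and sends `t` to `r e`), the
projections are `π c = e`, `π c' = r e`.
`sub`: `b → inr true → r b` and `t → inr false → a b` if `r t = a b` (also if `t = b`, i.e. `r b = a b`:
`b → inr true → inr false → a b`). First return map `r`, projections `π (inr true) = r b`, `π (inr false) = a b`.
`zedge` (`p ≠ q`): the letter in front of `p` goes to `inr true → p`, the letter in front of `q` to `inr false → q`. First
return map `r`, projections `p`, `q`.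

Lengths: by `Trace.cyc_push` and `Trace.push_eq` the length of the word of `d'` is the weight of the cycle of `π d'` of
the first return map for the pushed weight. For `sub`, `zedge` the new letters have weight zero, so the length is that
of the word of `π d'` in `S`. For `dbl` and `r e ≠ e`: the pushed weight is `w` plus `w e` at `e` and `w e` at `r e`; the cycles
of `sw e (r e) * r` are `{e}` (pushed weight `2 w e`), the arc `[r e, e)` (pushed weight `(len e - w e) + w e = len e`) and
the cycles of `r` not containing `e` (unchanged): use `sw_same_left, sw_same_right, sw_same_off, cyc_arc`, with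
`Arc r e (r e) d ↔ d = e`. If `r e = e`: then the words of `S.dbl e` are the digon `{inl e, inr true}` of length `2 w e`, the word
`{inr false}` of length `w e ≤ 2 w e`, and the other words of `S` unchanged (the letters `inl d`, `d ≠ e`, are mapped as by
`r`).
-/

set_option autoImplicit false

namespace Pool.Agent.SWP

open Equiv

section plain

variable {D : Type}

/-- the permutation of `S.dbl e` -/
noncomputable def dblR (r : Perm D) (e : D) : Perm (D ⊕ Bool) :=
  sw (Sum.inl e) (Sum.inr false) * Equiv.sumCongr r (Equiv.refl Bool) * sw (Sum.inr true) (Sum.inr false)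
    * sw (Sum.inl e) (Sum.inr false)

/-- the permutation of `S.sub b` (`c` the partner of `b`) -/
noncomputable def subR (r : Perm D) (b c : D) : Perm (D ⊕ Bool) :=
  sw (Sum.inl c) (Sum.inr false) * Equiv.sumCongr r (Equiv.refl Bool) * sw (Sum.inl b) (Sum.inr true)

/-- the permutation of `S.zedge p q` -/
noncomputable def zedgeR (r : Perm D) (p q : D) : Perm (D ⊕ Bool) :=
  sw (Sum.inl p) (Sum.inr true) * sw (Sum.inl q) (Sum.inr false) * Equiv.sumCongr r (Equiv.refl Bool)

theorem sc_inl (r : Perm D) (d : D) :
    (Equiv.sumCongr r (Equiv.refl Bool)) (Sum.inl d) = Sum.inl (r d) := rfl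

theorem sc_inr (r : Perm D) (c : Bool) :
    (Equiv.sumCongr r (Equiv.refl Bool)) (Sum.inr c) = Sum.inr c := rfl

theorem dblR_e (r : Perm D) (e : D) : dblR r e (Sum.inl e) = Sum.inr true := by
  unfold dblR
  simp only [Perm.mul_apply, sw_left, sw_right]
  rw [sc_inr, sw_of_ne (by simp) (by simp)]

theorem dblR_true (r : Perm D) (e : D) : dblR r e (Sum.inr true) = Sum.inl e := by
  unfold dblR
  simp only [Perm.mul_apply]
  rw [sw_of_ne (x := Sum.inl e) (y := Sum.inr false) (d := Sum.inr true) (by simp) (by simp), sw_left,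
    sc_inr, sw_right]

theorem dblR_false' (r : Perm D) (e : D) : dblR r e (Sum.inr false) =
    sw (Sum.inl e) (Sum.inr false) (Sum.inl (r e)) := by
  unfold dblR
  simp only [Perm.mul_apply]
  rw [sw_right, sw_of_ne (x := Sum.inr true) (y := Sum.inr false) (d := Sum.inl e) (by simp) (by simp),
    sc_inl]

theorem dblR_false (r : Perm D) (e : D) (he : r e ≠ e) : dblR r e (Sum.inr false) = Sum.inl (r e) := by
  rw [dblR_false', sw_of_ne (by simpa using he) (by simp)]

theorem dblR_false_fix (r : Perm D) (e : D) (he : r e = e) : dblR r e (Sum.inr false) = Sum.inr false := by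
  rw [dblR_false', he, sw_left]

theorem dblR_inl (r : Perm D) (e t : D) (ht : t ≠ e) : dblR r e (Sum.inl t) =
    sw (Sum.inl e) (Sum.inr false) (Sum.inl (r t)) := by
  unfold dblR
  simp only [Perm.mul_apply]
  rw [sw_of_ne (x := Sum.inl e) (y := Sum.inr false) (d := Sum.inl t) (by simpa using ht) (by simp),
    sw_of_ne (x := Sum.inr true) (y := Sum.inr false) (d := Sum.inl t) (by simp) (by simp), sc_inl]

theorem dblR_before (r : Perm D) (e t : D) (h : r t = e) (ht : t ≠ e) :
    dblR r e (Sum.inl t) = Sum.inr false := by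
  rw [dblR_inl r e t ht, h, sw_left]

theorem dblR_other (r : Perm D) (e t : D) (h : r t ≠ e) (ht : t ≠ e) :
    dblR r e (Sum.inl t) = Sum.inl (r t) := by
  rw [dblR_inl r e t ht, sw_of_ne (by simpa using h) (by simp)]

theorem dblR_trace (r : Perm D) (e : D) (he : r e ≠ e) :
    Trace (Sum.inl : D → D ⊕ Bool) (Sum.elim id (fun b => if b = true then e else r e)) (dblR r e)
      (sw e (r e) * r) where
  pj := fun d => rfl
  new := by
    rintro (d | b) h
    · exact absurd rfl (h d)
    · cases b
      · rw [dblR_false r e he]; rfl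
      · rw [dblR_true r e]; rfl
  old := by
    intro d
    rw [Perm.mul_apply]
    by_cases hd : d = e
    · subst hd
      rw [dblR_e, sw_right]; rfl
    · by_cases h2 : r d = e
      · rw [dblR_before r e d h2 hd, h2, sw_left]; rfl
      · rw [dblR_other r e d h2 hd, sw_of_ne h2 (fun h3 => hd (r.injective h3))]; rfl
  reach := by
    rintro (d | b)
    · exact ⟨0, d, rfl⟩
    · cases b
      · exact ⟨1, r e, by rw [pow_one]; exact dblR_false r e he⟩
      · exact ⟨1, e, by rw [pow_one]; exact dblR_true r e⟩

theorem subR_b (r : Perm D) (b c : D) : subR r b c (Sum.inl b) = Sum.inr true := by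
  unfold subR
  simp only [Perm.mul_apply]
  rw [sw_left, sc_inr, sw_of_ne (by simp) (by simp)]

theorem subR_true (r : Perm D) (b c : D) : subR r b c (Sum.inr true) =
    sw (Sum.inl c) (Sum.inr false) (Sum.inl (r b)) := by
  unfold subR
  simp only [Perm.mul_apply]
  rw [sw_right, sc_inl]

theorem subR_false (r : Perm D) (b c : D) : subR r b c (Sum.inr false) = Sum.inl c := by
  unfold subR
  simp only [Perm.mul_apply]
  rw [sw_of_ne (x := Sum.inl b) (y := Sum.inr true) (d := Sum.inr false) (by simp) (by simp),
    sc_inr, sw_right]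

theorem subR_inl (r : Perm D) (b c t : D) (ht : t ≠ b) : subR r b c (Sum.inl t) =
    sw (Sum.inl c) (Sum.inr false) (Sum.inl (r t)) := by
  unfold subR
  simp only [Perm.mul_apply]
  rw [sw_of_ne (x := Sum.inl b) (y := Sum.inr true) (d := Sum.inl t) (by simpa using ht) (by simp),
    sc_inl]

/-- the projection of the letter after a transposition -/
theorem subP_sw (y c x : D) :
    (Sum.elim id (fun b => if b = true then y else c) : D ⊕ Bool → D)
      (sw (Sum.inl c) (Sum.inr false) (Sum.inl x)) = x := by
  by_cases h : x = c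
  · rw [h, sw_left]; rfl
  · rw [sw_of_ne (by simpa using h) (by simp)]; rfl

theorem subR_trace (r : Perm D) (b c : D) :
    Trace (Sum.inl : D → D ⊕ Bool) (Sum.elim id (fun x => if x = true then r b else c))
      (subR r b c) r where
  pj := fun d => rfl
  new := by
    rintro (d | x) h
    · exact absurd rfl (h d)
    · cases x
      · rw [subR_false r b c]; rfl
      · rw [subR_true r b c]; exact subP_sw _ _ _
  old := by
    intro d
    by_cases hd : d = b
    · subst hd
      rw [subR_b]; rfl
    · rw [subR_inl r b c d hd]; exact subP_sw _ _ _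
  reach := by
    rintro (d | x)
    · exact ⟨0, d, rfl⟩
    · cases x
      · exact ⟨1, c, by rw [pow_one]; exact subR_false r b c⟩
      · by_cases h : r b = c
        · refine ⟨2, c, ?_⟩
          rw [pow_two, Perm.mul_apply, subR_true r b c, h, sw_left]
          exact subR_false r b c
        · refine ⟨1, r b, ?_⟩
          rw [pow_one, subR_true r b c, sw_of_ne (by simpa using h) (by simp)]

theorem zedgeR_inl (r : Perm D) (p q t : D) : zedgeR r p q (Sum.inl t) =
    sw (Sum.inl p) (Sum.inr true) (sw (Sum.inl q) (Sum.inr false) (Sum.inl (r t))) := rfl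

theorem zedgeR_true (r : Perm D) (p q : D) : zedgeR r p q (Sum.inr true) = Sum.inl p := by
  unfold zedgeR
  simp only [Perm.mul_apply]
  rw [sc_inr, sw_of_ne (x := Sum.inl q) (y := Sum.inr false) (d := Sum.inr true) (by simp) (by simp),
    sw_right]

theorem zedgeR_false (r : Perm D) (p q : D) (h : p ≠ q) :
    zedgeR r p q (Sum.inr false) = Sum.inl q := by
  unfold zedgeR
  simp only [Perm.mul_apply]
  rw [sc_inr, sw_right, sw_of_ne (by simpa using h.symm) (by simp)]

theorem zedgeR_trace (r : Perm D) (p q : D) (h : p ≠ q) :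
    Trace (Sum.inl : D → D ⊕ Bool) (Sum.elim id (fun x => if x = true then p else q))
      (zedgeR r p q) r where
  pj := fun d => rfl
  new := by
    rintro (d | c) h2
    · exact absurd rfl (h2 d)
    · cases c
      · rw [zedgeR_false r p q h]; rfl
      · rw [zedgeR_true r p q]; rfl
  old := by
    intro d
    rw [zedgeR_inl]
    by_cases h1 : r d = q
    · rw [h1, sw_left, sw_of_ne (by simp) (by simp)]; rfl
    · rw [sw_of_ne (x := Sum.inl q) (y := Sum.inr false) (by simpa using h1) (by simp)]
      by_cases h2 : r d = p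
      · rw [h2, sw_left]; rfl
      · rw [sw_of_ne (by simpa using h2) (by simp)]; rfl
  reach := by
    rintro (d | c)
    · exact ⟨0, d, rfl⟩
    · cases c
      · exact ⟨1, q, by rw [pow_one]; exact zedgeR_false r p q h⟩
      · exact ⟨1, p, by rw [pow_one]; exact zedgeR_true r p q⟩

theorem wt_sum_type [Fintype D] (u : D ⊕ Bool → ℝ) (B : Set (D ⊕ Bool)) :
    wt u B = ∑ d, Set.indicator (Sum.inl ⁻¹' B) (fun d => u (Sum.inl d)) d +
      (Set.indicator B u (Sum.inr true) + Set.indicator B u (Sum.inr false)) := by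
  unfold wt
  rw [Fintype.sum_sum_type, Fintype.sum_bool]
  rfl

theorem dblR_len [Fintype D] (r : Perm D) (w : D → ℝ) (hw : ∀ d, 0 ≤ w d) (e : D) (B : ℝ)
    (h : ∀ d, cyc r w d ≤ B) (he : 2 * w e ≤ B) (d : D ⊕ Bool) :
    cyc (dblR r e) (Sum.elim w (fun _ => w e)) d ≤ B := by
  classical
  have hu : ∀ x, 0 ≤ (Sum.elim w (fun _ => w e) : D ⊕ Bool → ℝ) x := by
    rintro (x | x)
    · exact hw x
    · exact hw e
  -- the digon
  have c1 : ∀ x, x ∈ ({x | x = Sum.inl e ∨ x = Sum.inr true} : Set (D ⊕ Bool)) →
      cyc (dblR r e) (Sum.elim w (fun _ => w e)) x ≤ B := by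
    intro x hx
    have h1 : cyc (dblR r e) (Sum.elim w (fun _ => w e)) x ≤
        wt (Sum.elim w (fun _ => w e)) ({x | x = Sum.inl e ∨ x = Sum.inr true} : Set (D ⊕ Bool)) := by
      apply cyc_le_wt hu _ hx
      rintro y (rfl | rfl)
      · right
        exact dblR_e r e
      · left
        exact dblR_true r e
    refine h1.trans ?_
    rw [wt_sum_type]
    have e1 : (Sum.inl ⁻¹' ({x | x = Sum.inl e ∨ x = Sum.inr true} : Set (D ⊕ Bool))) = {e} := by
      ext; simp
    rw [e1, Finset.sum_eq_single e]
    · rw [Set.indicator_of_mem (by simp), Set.indicator_of_mem (by simp),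
        Set.indicator_of_notMem (by simp)]
      simp only [Sum.elim_inl, Sum.elim_inr]
      linarith
    · intro b _ hb
      exact Set.indicator_of_notMem (by simpa using hb) _
    · intro h3
      exact absurd (Finset.mem_univ e) h3
  -- the rest of the word of `e`
  have c2 : ∀ x, x ∈ ({x | x = Sum.inr false ∨ ∃ y, r.SameCycle e y ∧ y ≠ e ∧ x = Sum.inl y} :
      Set (D ⊕ Bool)) → cyc (dblR r e) (Sum.elim w (fun _ => w e)) x ≤ B := by
    intro x hx
    have h1 : cyc (dblR r e) (Sum.elim w (fun _ => w e)) x ≤ wt (Sum.elim w (fun _ => w e))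
        ({x | x = Sum.inr false ∨ ∃ y, r.SameCycle e y ∧ y ≠ e ∧ x = Sum.inl y} : Set (D ⊕ Bool)) := by
      apply cyc_le_wt hu _ hx
      rintro z (rfl | ⟨y, hy1, hy2, rfl⟩)
      · by_cases hr : r e = e
        · left
          exact dblR_false_fix r e hr
        · right
          refine ⟨r e, ?_, hr, dblR_false r e hr⟩
          exact Equiv.Perm.sameCycle_apply_right.2 (Equiv.Perm.SameCycle.refl _ _)
      · by_cases hr : r y = e
        · left
          exact dblR_before r e y hr hy2
        · right
          exact ⟨r y, Equiv.Perm.sameCycle_apply_right.2 hy1, hr, dblR_other r e y hr hy2⟩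
    refine h1.trans ?_
    rw [wt_sum_type]
    have e1 : (Sum.inl ⁻¹' ({x | x = Sum.inr false ∨ ∃ y, r.SameCycle e y ∧ y ≠ e ∧ x = Sum.inl y} :
        Set (D ⊕ Bool))) = {y | r.SameCycle e y ∧ y ≠ e} := by
      ext y
      simp only [Set.mem_preimage, Set.mem_setOf_eq, reduceCtorEq, false_or, Sum.inl.injEq]
      constructor
      · rintro ⟨y', h1, h2, rfl⟩; exact ⟨h1, h2⟩
      · rintro ⟨h1, h2⟩; exact ⟨y, h1, h2, rfl⟩
    rw [e1, Set.indicator_of_notMem (s := {x | x = Sum.inr false ∨ ∃ y, r.SameCycle e y ∧ y ≠ e ∧ x = Sum.inl y})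
      (a := Sum.inr true) (by simp), Set.indicator_of_mem (by simp)]
    simp only [Sum.elim_inl, Sum.elim_inr, zero_add]
    have h3 : cyc r w e = ∑ d, Set.indicator {y | r.SameCycle e y ∧ y ≠ e} w d + w e := by
      unfold cyc
      have h4 : ∀ d, Set.indicator {y | r.SameCycle e y} w d =
          Set.indicator {y | r.SameCycle e y ∧ y ≠ e} w d + (if d = e then w e else 0) := by
        intro d
        by_cases hd : d = e
        · subst hd
          rw [Set.indicator_of_mem (show d ∈ {y | r.SameCycle d y} from Equiv.Perm.SameCycle.refl _ _),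
            Set.indicator_of_notMem (by simp), if_pos rfl, zero_add]
        · rw [if_neg hd, add_zero]
          by_cases hc : r.SameCycle e d
          · rw [Set.indicator_of_mem (show d ∈ {y | r.SameCycle e y} from hc),
              Set.indicator_of_mem (show d ∈ {y | r.SameCycle e y ∧ y ≠ e} from ⟨hc, hd⟩)]
          · rw [Set.indicator_of_notMem (show d ∉ {y | r.SameCycle e y} from hc),
              Set.indicator_of_notMem (show d ∉ {y | r.SameCycle e y ∧ y ≠ e} from fun h => hc h.1)]
      simp_rw [h4]
      rw [Finset.sum_add_distrib, Finset.sum_ite_eq' Finset.univ e (fun _ => w e)]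
      simp
    have h5 := h e
    linarith
  -- the other words
  have c3 : ∀ t : D, ¬ r.SameCycle e t →
      cyc (dblR r e) (Sum.elim w (fun _ => w e)) (Sum.inl t) ≤ B := by
    intro t ht
    have h1 : cyc (dblR r e) (Sum.elim w (fun _ => w e)) (Sum.inl t) ≤ wt (Sum.elim w (fun _ => w e))
        ({x | ∃ y, r.SameCycle t y ∧ x = Sum.inl y} : Set (D ⊕ Bool)) := by
      apply cyc_le_wt hu
      · rintro z ⟨y, hy, rfl⟩
        have hy1 : r.SameCycle t (r y) := Equiv.Perm.sameCycle_apply_right.2 hy
        refine ⟨r y, hy1, dblR_other r e y ?_ ?_⟩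
        · rintro h3
          rw [h3] at hy1
          exact ht hy1.symm
        · rintro h3
          rw [h3] at hy
          exact ht hy.symm
      · exact ⟨t, Equiv.Perm.SameCycle.refl _ _, rfl⟩
    refine h1.trans ?_
    rw [wt_sum_type]
    have e1 : (Sum.inl ⁻¹' ({x | ∃ y, r.SameCycle t y ∧ x = Sum.inl y} :
        Set (D ⊕ Bool))) = {y | r.SameCycle t y} := by
      ext y
      simp only [Set.mem_preimage, Set.mem_setOf_eq, Sum.inl.injEq]
      constructor
      · rintro ⟨y', h1, rfl⟩; exact h1
      · intro h1; exact ⟨y, h1, rfl⟩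
    rw [e1, Set.indicator_of_notMem (by simp), Set.indicator_of_notMem (by simp), add_zero, add_zero]
    exact h t
  rcases d with t | b
  · by_cases h1 : t = e
    · exact c1 _ (by left; rw [h1])
    · by_cases h2 : r.SameCycle e t
      · exact c2 _ (Or.inr ⟨t, h2, h1, rfl⟩)
      · exact c3 t h2
  · cases b
    · exact c2 _ (Or.inl rfl)
    · exact c1 _ (by right; rfl)

/-- new letters of weight zero do not change the pushed weight -/
theorem push_zero [Fintype D] (w : D → ℝ) (π : D ⊕ Bool → D) (hπ : ∀ d, π (Sum.inl d) = d) :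
    push π (Sum.elim w (fun _ => 0)) = w := by
  classical
  funext t
  unfold push
  rw [Fintype.sum_sum_type, Fintype.sum_bool]
  have h1 : ∀ c : Bool, Set.indicator {e | π e = t} (Sum.elim w (fun _ => 0)) (Sum.inr c) = 0 := by
    intro c
    by_cases hc : (Sum.inr c : D ⊕ Bool) ∈ {e | π e = t}
    · rw [Set.indicator_of_mem hc]; rfl
    · rw [Set.indicator_of_notMem hc]
  rw [h1, h1, add_zero, add_zero, Finset.sum_eq_single t]
  · rw [Set.indicator_of_mem (show (Sum.inl t : D ⊕ Bool) ∈ {e | π e = t} from hπ t)]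
    rfl
  · intro b _ hb
    rw [Set.indicator_of_notMem]
    intro h2
    exact hb ((hπ b).symm.trans h2)
  · intro h3
    exact absurd (Finset.mem_univ t) h3

theorem subR_len [Fintype D] (r : Perm D) (w : D → ℝ) (b c : D) (B : ℝ)
    (h : ∀ d, cyc r w d ≤ B) (d : D ⊕ Bool) :
    cyc (subR r b c) (Sum.elim w (fun _ => 0)) d ≤ B := by
  rw [(subR_trace r b c).cyc_push, push_zero w _ (fun _ => rfl)]
  exact h _

theorem zedgeR_len [Fintype D] (r : Perm D) (w : D → ℝ) (p q : D) (hpq : p ≠ q) (B : ℝ)
    (h : ∀ d, cyc r w d ≤ B) (d : D ⊕ Bool) :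
    cyc (zedgeR r p q) (Sum.elim w (fun _ => 0)) d ≤ B := by
  rw [(zedgeR_trace r p q hpq).cyc_push, push_zero w _ (fun _ => rfl)]
  exact h _

end plain

namespace St

/-- projection of the letters of `S.dbl e` -/
noncomputable def dblP (S : St) (e : S.D) : (S.dbl e).D → S.D := Sum.elim id (fun b => if b = true then e else S.r e)

/-- projection of the letters of `S.sub b` -/
noncomputable def subP (S : St) (b : S.D) : (S.sub b).D → S.D := Sum.elim id (fun c => if c = true then S.r b else S.a b)

/-- projection of the letters of `S.zedge p q` -/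
noncomputable def zedgeP (S : St) (p q : S.D) : (S.zedge p q).D → S.D := Sum.elim id (fun c => if c = true then p else q)

theorem dbl_trace (S : St) (e : S.D) (he : S.r e ≠ e) :
    Trace (Sum.inl : S.D → (S.dbl e).D) (S.dblP e) (S.dbl e).r (sw e (S.r e) * S.r) :=
  dblR_trace S.r e he

/-- the values of the new permutation needed later -/
theorem dbl_r_e (S : St) (e : S.D) : (S.dbl e).r (Sum.inl e) = Sum.inr true := dblR_e S.r e

theorem dbl_r_true (S : St) (e : S.D) : (S.dbl e).r (Sum.inr true) = Sum.inl e := dblR_true S.r e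

theorem dbl_r_false (S : St) (e : S.D) (he : S.r e ≠ e) : (S.dbl e).r (Sum.inr false) = Sum.inl (S.r e) :=
  dblR_false S.r e he

theorem dbl_r_before (S : St) (e t : S.D) (h : S.r t = e) (ht : t ≠ e) : (S.dbl e).r (Sum.inl t) = Sum.inr false :=
  dblR_before S.r e t h ht

theorem dbl_r_other (S : St) (e t : S.D) (h : S.r t ≠ e) (ht : t ≠ e) :
    (S.dbl e).r (Sum.inl t) = Sum.inl (S.r t) :=
  dblR_other S.r e t h ht

theorem sub_trace (S : St) (b : S.D) :
    Trace (Sum.inl : S.D → (S.sub b).D) (S.subP b) (S.sub b).r S.r :=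
  subR_trace S.r b (S.a b)

theorem zedge_trace (S : St) (p q : S.D) (h : p ≠ q) :
    Trace (Sum.inl : S.D → (S.zedge p q).D) (S.zedgeP p q) (S.zedge p q).r S.r :=
  zedgeR_trace S.r p q h

theorem dbl_len (S : St) (e : S.D) (B : ℝ) (h : ∀ d, S.len d ≤ B) (he : 2 * S.w e ≤ B) (d : (S.dbl e).D) :
    (S.dbl e).len d ≤ B :=
  dblR_len S.r S.w S.wnn e B h he d

theorem sub_len (S : St) (b : S.D) (B : ℝ) (h : ∀ d, S.len d ≤ B) (d : (S.sub b).D) : (S.sub b).len d ≤ B :=
  subR_len S.r S.w b (S.a b) B h d

theorem zedge_len (S : St) (p q : S.D) (hpq : p ≠ q) (B : ℝ) (h : ∀ d, S.len d ≤ B) (d : (S.zedge p q).D) :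
    (S.zedge p q).len d ≤ B :=
  zedgeR_len S.r S.w p q hpq B h d

end St

end Pool.Agent.SWP
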