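import Pool.Agent.SWP.Ar

/-!
# A path of transpositions splits a cycle

MODULE PSplit. Context: `f` is the face permutation; `C` the cycle of `a 0`, which contains `b k`; for `1 ≤ l ≤ k` let `F_l` be
the cycle of `a l`, which contains `b (l-1)`; the cycles `C, F_1, ..., F_k` are pairwise distinct. `P` is the product of the
transpositions of `a l` and `b l`.

`psplit`: Let `Z` be the set of all `d` with `Arc f (a 0) (b k) d` or `Arc f (a l) (b (l-1)) d` for some `1 ≤ l ≤ k`, and let `Z'` be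
the set of all `d` with `Arc f (b k) (a 0) d` or `Arc f (b (l-1)) (a l) d` for some `1 ≤ l ≤ k`. By `arc_split`, `arc_disj` and since the
cycles are distinct, `Z` and `Z'` are disjoint and their union is `C ∪ F_1 ∪ ... ∪ F_k`.
Claim: `P (f d) ∈ Z` for `d ∈ Z`. Case `Arc f (a 0) (b k) d`: if `f d = b k` then `P (f d) = a k`, which is in `Z` (if `k = 0` it is
`a 0`, `arc_left`, else `Arc f (a k) (b (k-1)) (a k)` by `arc_left` and `hne`). If `f d ≠ b k` then `Arc f (a 0) (b k) (f d)` by `arc_step`;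
`f d ≠ a 0` by `arc_step_ne`; all other `a l, b l` are not in `C`; so `P (f d) = f d`. Case `Arc f (a l) (b (l-1)) d`: if
`f d = b (l-1)` then `P (f d) = a (l-1)`, in `Z` by `arc_left` (`l = 1`: `a 0`, needs `a 0 ≠ b k`; `l ≥ 2`: `a (l-1) ≠ b (l-2)`, `hne`). Otherwise
`f d` is in the same arc, `f d ≠ a l` by `arc_step_ne`, and the other `a m, b m` lie in other cycles, so `P (f d) = f d`.
In the same way `P (f d) ∈ Z'` for `d ∈ Z'`: `f d = a 0` gives `P (f d) = b 0` (in `[b k, a 0)` if `k = 0`, else in `[b 0, a 1)`);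
`f d = a l` (`d` in `[b (l-1), a l)`) gives `b l` (in `[b l, a (l+1))` or, if `l = k`, in `[b k, a 0)`).
If `d` is in neither, then `f d` is in none of the cycles, so `P (f d) = f d ∉ Z`. Together: `d ∈ Z ↔ P (f d) ∈ Z`.

`psplit_off`: outside of the union of the cycles `P * f` agrees with `f`.
-/

set_option autoImplicit false

namespace Pool.Agent.SWP

open Equiv

/-- the hypotheses on the path of transpositions -/
structure PathH {D : Type} (f P : Perm D) (k : ℕ) (a b : ℕ → D) : Prop where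
  h0 : a 0 ≠ b k
  hC : f.SameCycle (a 0) (b k)
  hF : ∀ l < k, f.SameCycle (b l) (a (l + 1))
  hne : ∀ l < k, b l ≠ a (l + 1)
  hd0 : ∀ l, 1 ≤ l → l ≤ k → ¬ f.SameCycle (a 0) (a l)
  hd : ∀ l, 1 ≤ l → l ≤ k → ∀ m, 1 ≤ m → m ≤ k → l ≠ m → ¬ f.SameCycle (a l) (a m)
  hP1 : ∀ l ≤ k, P (a l) = b l
  hP2 : ∀ l ≤ k, P (b l) = a l
  hP3 : ∀ d, (∀ l ≤ k, d ≠ a l ∧ d ≠ b l) → P d = d

/-- the general statement, with an arbitrary index set -/
private theorem ps_gen {D ι : Type} [Finite D] {f P : Perm D} {a e : ι → D} (nx pv : ι → ι)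
    (hne : ∀ l, a l ≠ e l) (hs : ∀ l, f.SameCycle (a l) (e l))
    (hd : ∀ l m, l ≠ m → ¬ f.SameCycle (a l) (a m)) (hP1 : ∀ l, P (a l) = e (nx l))
    (hP2 : ∀ l, P (e l) = a (pv l)) (hP3 : ∀ d, (∀ l, d ≠ a l ∧ d ≠ e l) → P d = d) :
    (∀ d, (∃ l, Arc f (a l) (e l) d) → (∃ l, Arc f (e l) (a l) d) → False) ∧
      ∀ d, (∃ l, Arc f (a l) (e l) d) ↔ ∃ l, Arc f (a l) (e l) (P (f d)) := by
  have hdis : ∀ d, (∃ l, Arc f (a l) (e l) d) → (∃ l, Arc f (e l) (a l) d) → False := by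
    rintro d ⟨l, hl⟩ ⟨m, hm⟩
    have h1 := arc_same hl
    have h2 := (hs m).trans (arc_same hm)
    by_cases hlm : l = m
    · subst hlm
      exact arc_disj (hs l) hl hm
    · exact hd l m hlm (h1.trans h2.symm)
  -- a letter of the cycle `l` which is not marked is fixed by `P`
  have hfix : ∀ l x, f.SameCycle (a l) x → x ≠ a l → x ≠ e l → P x = x := by
    intro l x hx h1 h2
    refine hP3 x fun m => ?_
    by_cases hlm : l = m
    · subst hlm
      exact ⟨h1, h2⟩
    · refine ⟨?_, ?_⟩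
      · rintro rfl
        exact hd l m hlm hx
      · rintro rfl
        exact hd l m hlm (hx.trans (hs m).symm)
  have hstep : ∀ x d, f.SameCycle x d → f.SameCycle x (f d) := fun x d h =>
    Equiv.Perm.sameCycle_apply_right.2 h
  have hZ : ∀ d, (∃ l, Arc f (a l) (e l) d) → ∃ l, Arc f (a l) (e l) (P (f d)) := by
    rintro d ⟨l, hl⟩
    by_cases h1 : f d = e l
    · rw [h1, hP2]
      exact ⟨pv l, arc_left (hne _)⟩
    · have h2 := arc_step hl h1
      have h3 := arc_step_ne (hs l) hl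
      rw [hfix l (f d) (arc_same h2) h3 h1]
      exact ⟨l, h2⟩
  have hZ' : ∀ d, (∃ l, Arc f (e l) (a l) d) → ∃ l, Arc f (e l) (a l) (P (f d)) := by
    rintro d ⟨l, hl⟩
    by_cases h1 : f d = a l
    · rw [h1, hP1]
      exact ⟨nx l, arc_left (hne _).symm⟩
    · have h2 := arc_step hl h1
      have h3 := arc_step_ne (hs l).symm hl
      rw [hfix l (f d) ((hs l).trans (arc_same h2)) h1 h3]
      exact ⟨l, h2⟩
  refine ⟨hdis, fun d => ⟨hZ d, ?_⟩⟩
  intro hPd
  by_cases hd1 : ∃ l, f.SameCycle (a l) d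
  · obtain ⟨l, hl⟩ := hd1
    rcases (arc_split (hne l) (hs l) d).1 hl with h1 | h1
    · exact ⟨l, h1⟩
    · exact absurd (hZ' d ⟨l, h1⟩) fun h2 => hdis _ hPd h2
  · exfalso
    have h1 : ∀ l, ¬ f.SameCycle (a l) (f d) := fun l hl =>
      hd1 ⟨l, Equiv.Perm.sameCycle_apply_right.1 hl⟩
    have h2 : P (f d) = f d := by
      refine hP3 _ fun m => ⟨?_, ?_⟩
      · intro h3
        exact h1 m (by rw [h3])
      · intro h3
        apply h1 m
        rw [h3]
        exact hs m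
    obtain ⟨l, hl⟩ := hPd
    rw [h2] at hl
    exact h1 l (arc_same hl)

/-- the previous index, cyclically -/
private def psPv (k : ℕ) (l : Fin (k + 1)) : Fin (k + 1) :=
  if (l : ℕ) = 0 then ⟨k, by omega⟩ else ⟨(l : ℕ) - 1, by omega⟩

/-- the next index, cyclically -/
private def psNx (k : ℕ) (l : Fin (k + 1)) : Fin (k + 1) :=
  if h : (l : ℕ) < k then ⟨(l : ℕ) + 1, by omega⟩ else ⟨0, by omega⟩

private theorem psPv_nx (k : ℕ) (l : Fin (k + 1)) : ((psPv k (psNx k l) : Fin (k + 1)) : ℕ) = l := by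
  unfold psPv psNx
  by_cases h : (l : ℕ) < k
  · simp [h]
  · have := l.2
    simp [h]
    omega

private theorem ps_zero {D : Type} {f P : Perm D} {k : ℕ} {a b : ℕ → D} (h : PathH f P k a b)
    (l : Fin (k + 1)) : a l ≠ b (psPv k l) ∧ f.SameCycle (a l) (b (psPv k l)) := by
  unfold psPv
  by_cases h0 : (l : ℕ) = 0
  · rw [if_pos h0, h0]
    exact ⟨h.h0, h.hC⟩
  · rw [if_neg h0]
    have h1 : (l : ℕ) - 1 < k := by
      have := l.2
      omega
    have h2 := h.hF _ h1
    have h3 := h.hne _ h1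
    have h4 : (l : ℕ) - 1 + 1 = l := by omega
    rw [h4] at h2 h3
    exact ⟨h3.symm, h2.symm⟩

theorem psplit {D : Type} [Finite D] {f P : Perm D} {k : ℕ} {a b : ℕ → D} (h : PathH f P k a b) :
    ∃ Z : Set D, (∀ d, d ∈ Z ↔ P (f d) ∈ Z) ∧ (∀ d, Arc f (a 0) (b k) d → d ∈ Z) ∧
      (∀ d, Arc f (b k) (a 0) d → d ∉ Z) ∧ (∀ d ∈ Z, ∃ l ≤ k, f.SameCycle (a l) d) := by
  have hle : ∀ l : Fin (k + 1), (l : ℕ) ≤ k := fun l => by
    have := l.2
    omega
  obtain ⟨g1, g2⟩ := ps_gen (f := f) (P := P) (ι := Fin (k + 1)) (a := fun l => a l)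
    (e := fun l => b (psPv k l)) (psNx k) (psPv k) (fun l => (ps_zero h l).1)
    (fun l => (ps_zero h l).2)
    (by
      intro l m hlm
      have hlm' : (l : ℕ) ≠ m := fun hh => hlm (Fin.ext hh)
      by_cases hl : (l : ℕ) = 0
      · have := h.hd0 m (by omega) (hle m)
        rw [hl]
        exact this
      · by_cases hm : (m : ℕ) = 0
        · have := h.hd0 l (by omega) (hle l)
          rw [hm]
          exact fun hh => this hh.symm
        · exact h.hd l (by omega) (hle l) m (by omega) (hle m) hlm')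
    (by
      intro l
      rw [psPv_nx]
      exact h.hP1 l (hle l))
    (fun l => h.hP2 _ (hle _))
    (by
      intro d hd
      refine h.hP3 d fun l hl => ?_
      refine ⟨(hd ⟨l, by omega⟩).1, ?_⟩
      have h3 := (hd (psNx k ⟨l, by omega⟩)).2
      rw [psPv_nx] at h3
      exact h3)
  have e0 : psPv k ⟨0, by omega⟩ = ⟨k, by omega⟩ := by
    unfold psPv
    simp
  refine ⟨{d | ∃ l : Fin (k + 1), Arc f (a l) (b (psPv k l)) d}, g2, ?_, ?_, ?_⟩
  · intro d hd
    refine ⟨⟨0, by omega⟩, ?_⟩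
    rw [e0]
    exact hd
  · intro d hd hZ
    refine g1 d hZ ⟨⟨0, by omega⟩, ?_⟩
    simp only
    rw [e0]
    exact hd
  · rintro d ⟨l, hl⟩
    exact ⟨l, hle l, arc_same hl⟩

theorem psplit_off {D : Type} {f P : Perm D} {k : ℕ} {a b : ℕ → D} (h : PathH f P k a b) (d : D)
    (hd : ∀ l ≤ k, ¬ f.SameCycle (a l) d) : P (f d) = f d ∧ ∀ l ≤ k, ¬ f.SameCycle (a l) (f d) := by
  have h1 : ∀ l ≤ k, ¬ f.SameCycle (a l) (f d) := fun l hl hs =>
    hd l hl (Equiv.Perm.sameCycle_apply_right.1 hs)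
  refine ⟨?_, h1⟩
  refine h.hP3 _ fun l hl => ⟨?_, ?_⟩
  · intro h2
    exact h1 l hl (by rw [h2])
  · intro h2
    rcases Nat.lt_or_ge l k with h3 | h3
    · apply h1 (l + 1) (by omega)
      rw [h2]
      exact (h.hF l h3).symm
    · have h4 : l = k := by omega
      apply h1 0 (by omega)
      rw [h2, h4]
      exact h.hC

end Pool.Agent.SWP
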