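import Pool.Agent.SWP.PSplit

/-!
# The potential drops

MODULE PotDrop. `pot s u = ∑ d, u d * cyc s u d` is the sum of the squares of the weights of the cycles. Let `A` be the union
of the cycles `C` (of `a 0`), `F_l` (of `a l`, `1 ≤ l ≤ k`), `c = cyc f u (a 0)`, `n = ∑ d, N d`, `g = ∑ l < k, cyc f u (a (l+1))`, so that
`wt u A = c + g` (the cycles are disjoint; only `≤` is needed), and `v = u + N`. `N` vanishes outside of `A` (`hN`: the letters
`a l`, `b l` are in `A`; `b k` is in `C`, `b l` in `F_(l+1)`).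
(1) `d ∉ A`: `P * f` agrees with `f` there (`psplit_off`) and `v = u`, so `v d * cyc (P * f) v d = u d * cyc f u d` (`cyc_congr` with `Aᶜ`).
(2) Let `Z` be as in `psplit`, `z1 = wt v Z`, `z2 = wt v (A \ Z)`. `Z` and `A \ Z` are closed under `P * f`. So `cyc (P * f) v d ≤ z1`
for `d ∈ Z` and `≤ z2` for `d ∈ A \ Z` (`cyc_le_wt`). The part of `pot (P * f) v` in `A` is at most `z1 ^ 2 + z2 ^ 2`.
(3) The part of `pot f u` in `A` is at least its part in `C`, which is `c ^ 2`.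
(4) `z1 ≥ arcw f u (a 0) (b k) ≥ ρ` and `z2 ≥ arcw f u (b k) (a 0) ≥ ρ` (the arc `[b k, a 0)` is in `A \ Z`),
`z1 + z2 = wt v A ≤ s := c + g + n`, and `c ≥ 2 ρ` (`cyc_arc`), so `s ≥ 2 ρ`. Hence
`z1^2 + z2^2 = (z1+z2)^2 - 2 z1 z2 ≤ (z1+z2)^2 - 2 ρ (z1 + z2 - ρ)`, and since `z1 + z2 ≥ 2 ρ` this is at most
`(z1+z2)^2 - ρ (z1+z2) ≤ s^2 - ρ s` (the function `t^2 - ρ t` increases for `t ≥ ρ / 2`).
So `pot (P * f) v - pot f u ≤ s^2 - ρ s - c^2 = (g + n) (s + c) - ρ s ≤ (ρ / 4) (2 s) - ρ s = - ρ s / 2 ≤ - ρ ^ 2`.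
-/

set_option autoImplicit false

namespace Pool.Agent.SWP

open Equiv

private theorem wt_mul_const {D : Type} [Fintype D] (u : D → ℝ) (c : ℝ) (B : Set D) :
    wt (fun d => u d * c) B = wt u B * c := by
  unfold wt
  rw [Finset.sum_mul]
  refine Finset.sum_congr rfl (fun d _ => ?_)
  by_cases hd : d ∈ B
  · rw [Set.indicator_of_mem hd, Set.indicator_of_mem hd]
  · rw [Set.indicator_of_notMem hd, Set.indicator_of_notMem hd, zero_mul]

private theorem real_part {z1 z2 c e ρ : ℝ} (hρ : 0 < ρ) (h1 : ρ ≤ z1) (h2 : ρ ≤ z2) (h3 : z1 + z2 ≤ c + e)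
    (h4 : e ≤ ρ / 4) (h5 : 0 ≤ e) (h6 : 2 * ρ ≤ c) : z1 * z1 + z2 * z2 ≤ c * c - ρ ^ 2 := by
  have a1 : 0 ≤ (z1 - ρ) * (z2 - ρ) := mul_nonneg (by linarith) (by linarith)
  have a2 : 0 ≤ ρ * (z1 + z2 - 2 * ρ) := mul_nonneg hρ.le (by linarith)
  have a3 : 0 ≤ (c + e - (z1 + z2)) * (c + e + (z1 + z2) - ρ) := mul_nonneg (by linarith) (by linarith)
  have a4 : 0 ≤ (ρ / 4 - e) * (c + e + c) := mul_nonneg (by linarith) (by linarith)
  have a5 : 0 ≤ ρ * (c - 2 * ρ) := mul_nonneg hρ.le (by linarith)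
  have a6 : 0 ≤ ρ * e := mul_nonneg hρ.le h5
  nlinarith

theorem potdrop {D : Type} [Fintype D] {f P : Perm D} {k : ℕ} {a b : ℕ → D} (h : PathH f P k a b) (u N : D → ℝ)
    (hu : ∀ d, 0 ≤ u d) (hN0 : ∀ d, 0 ≤ N d) (hN : ∀ d, N d ≠ 0 → ∃ l ≤ k, d = a l ∨ d = b l) (ρ : ℝ) (hρ : 0 < ρ)
    (h1 : ρ ≤ arcw f u (a 0) (b k)) (h2 : ρ ≤ arcw f u (b k) (a 0))
    (h3 : ∑ l ∈ Finset.range k, cyc f u (a (l + 1)) + ∑ d, N d ≤ ρ / 4) :
    pot (P * f) (fun d => u d + N d) ≤ pot f u - ρ ^ 2 := by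
  obtain ⟨Z, hZ, hZ1, hZ2, hZ3⟩ := psplit h
  set v : D → ℝ := fun d => u d + N d with hv
  have hv0 : ∀ d, 0 ≤ v d := fun d => add_nonneg (hu d) (hN0 d)
  have huv : ∀ d, u d ≤ v d := fun d => by rw [hv]; simp only; linarith [hN0 d]
  set A : Set D := {d | ∃ l, l ≤ k ∧ f.SameCycle (a l) d} with hA
  have haA : ∀ l ≤ k, a l ∈ A := fun l hl => ⟨l, hl, Equiv.Perm.SameCycle.refl _ _⟩
  have hbA : ∀ l ≤ k, b l ∈ A := by
    intro l hl
    rcases Nat.lt_or_ge l k with hlk | hlk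
    · exact ⟨l + 1, hlk, (h.hF l hlk).symm⟩
    · have : l = k := le_antisymm hl hlk
      subst this
      exact ⟨0, Nat.zero_le _, h.hC⟩
  have hfA : ∀ d, d ∈ A → f d ∈ A := by
    rintro d ⟨l, hl, hs⟩
    exact ⟨l, hl, (Equiv.Perm.sameCycle_apply_right).mpr hs⟩
  have hPA : ∀ d, d ∈ A → P d ∈ A := by
    intro d hd
    by_cases hx : ∃ l ≤ k, d = a l ∨ d = b l
    · obtain ⟨l, hl, rfl | rfl⟩ := hx
      · rw [h.hP1 l hl]; exact hbA l hl
      · rw [h.hP2 l hl]; exact haA l hl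
    · rw [h.hP3 d]
      · exact hd
      · intro l hl
        exact ⟨fun e => hx ⟨l, hl, Or.inl e⟩, fun e => hx ⟨l, hl, Or.inr e⟩⟩
  have hZA : Z ⊆ A := fun d hd => hZ3 d hd
  have hoff : ∀ d ∈ Aᶜ, P (f d) = f d ∧ f d ∈ Aᶜ := by
    intro d hd
    have := psplit_off h d (fun l hl hs => hd ⟨l, hl, hs⟩)
    refine ⟨this.1, ?_⟩
    rintro ⟨l, hl, hs⟩
    exact this.2 l hl hs
  have huvA : ∀ d ∈ Aᶜ, v d = u d := by
    intro d hd
    have : N d = 0 := by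
      by_contra hne
      obtain ⟨l, hl, rfl | rfl⟩ := hN d hne
      · exact hd (haA l hl)
      · exact hd (hbA l hl)
    rw [hv]; simp only; rw [this, add_zero]
  -- the functions summed in the potentials
  set g : D → ℝ := fun d => v d * cyc (P * f) v d with hg
  set g0 : D → ℝ := fun d => u d * cyc f u d with hg0
  have hg0n : ∀ d, 0 ≤ g0 d := fun d => mul_nonneg (hu d) (cyc_nonneg hu d)
  have e1 : pot (P * f) v = wt g A + wt g Aᶜ := by rw [wt_compl]; rfl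
  have e2 : pot f u = wt g0 A + wt g0 Aᶜ := by rw [wt_compl]; rfl
  have e3 : wt g Aᶜ = wt g0 Aᶜ := by
    refine wt_congr (fun d hd => ?_)
    have c1 : cyc (P * f) v d = cyc f u d := by
      refine cyc_congr (Z := Aᶜ) ?_ ?_ huvA hd
      · intro e he
        rw [Equiv.Perm.mul_apply, (hoff e he).1]
        exact (hoff e he).2
      · intro e he
        rw [Equiv.Perm.mul_apply, (hoff e he).1]
    rw [hg, hg0]
    simp only
    rw [c1, huvA d hd]
  have hun : Z ∪ (A \ Z) = A := Set.union_sdiff_cancel hZA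
  have hdj : Disjoint Z (A \ Z) := Set.disjoint_sdiff_right
  have e4 : wt g A = wt g Z + wt g (A \ Z) := by rw [← wt_disj hdj, hun]
  have e5 : wt v A = wt v Z + wt v (A \ Z) := by rw [← wt_disj hdj, hun]
  have b1 : wt g Z ≤ wt v Z * wt v Z := by
    rw [← wt_mul_const]
    refine wt_mono_fun (fun d hd => ?_)
    refine mul_le_mul_of_nonneg_left ?_ (hv0 d)
    exact cyc_le_wt hv0 (fun e he => (hZ e).mp he) hd
  have b2 : wt g (A \ Z) ≤ wt v (A \ Z) * wt v (A \ Z) := by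
    rw [← wt_mul_const]
    refine wt_mono_fun (fun d hd => ?_)
    refine mul_le_mul_of_nonneg_left ?_ (hv0 d)
    refine cyc_le_wt hv0 (fun e he => ?_) hd
    exact ⟨hPA _ (hfA e he.1), fun hx => he.2 ((hZ e).mpr hx)⟩
  have hCA : {d | f.SameCycle (a 0) d} ⊆ A := fun d hd => ⟨0, Nat.zero_le _, hd⟩
  have b3 : cyc f u (a 0) * cyc f u (a 0) ≤ wt g0 A := by
    refine le_trans (le_of_eq ?_) (wt_mono hg0n hCA)
    rw [cyc_eq_wt, ← wt_mul_const]
    refine wt_congr (fun d hd => ?_)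
    rw [hg0]
    simp only
    rw [← cyc_eq_wt, cyc_same hd]
  have b4 : ρ ≤ wt v Z := by
    refine h1.trans ?_
    unfold arcw
    exact (wt_mono hu (fun d hd => hZ1 d hd)).trans (wt_mono_fun (fun d _ => huv d))
  have b5 : ρ ≤ wt v (A \ Z) := by
    refine h2.trans ?_
    unfold arcw
    refine (wt_mono hu (fun d hd => ?_)).trans (wt_mono_fun (fun d _ => huv d))
    exact ⟨⟨0, Nat.zero_le _, h.hC.trans (arc_same hd)⟩, hZ2 d hd⟩
  have b6 : wt v A ≤ cyc f u (a 0) + (∑ l ∈ Finset.range k, cyc f u (a (l + 1)) + ∑ d, N d) := by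
    rw [hv, wt_add]
    have c1 : wt N A ≤ ∑ d, N d := wt_le_sum hN0 A
    have c2 : wt u A ≤ ∑ l ∈ Finset.range (k + 1), cyc f u (a l) := by
      have hAe : A = {d | ∃ i, i < k + 1 ∧ d ∈ (fun i => {d | f.SameCycle (a i) d}) i} := by
        ext d
        simp only [hA, Set.mem_ofPred_eq, Nat.lt_succ_iff]
      rw [hAe]
      exact wt_iUnion_le hu (k + 1) _
    rw [Finset.sum_range_succ'] at c2
    linarith
  have b7 : cyc f u (a 0) = arcw f u (a 0) (b k) + arcw f u (b k) (a 0) := cyc_arc h.h0 h.hC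
  have b8 : 0 ≤ ∑ l ∈ Finset.range k, cyc f u (a (l + 1)) + ∑ d, N d :=
    add_nonneg (Finset.sum_nonneg (fun l _ => cyc_nonneg hu _)) (Finset.sum_nonneg (fun d _ => hN0 d))
  have key := real_part hρ b4 b5 (by rw [← e5]; exact b6) h3 b8 (by linarith)
  rw [e1, e2, e3, e4]
  linarith

end Pool.Agent.SWP
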