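import Mathlib

/-!
# The scales

MODULE Scl. Purely about real numbers. Let `I` be a natural number with `I ≥ 8 / τ`. Put `t 0 = τ` and recursively
`ρ i = τ * t i / 64` (so `16 * ρ i / t i = τ / 4` and `ρ i ≤ t i` as `τ ≤ 1`), `K i = ⌈32 / (ρ i * τ)⌉₊` (so `K i ≥ 1` and
`8 / (ρ i * K i) ≤ τ / 4`), `t (i + 1) = min (t i) (ρ i / (8 * K i))` (so `K i * t (i + 1) ≤ ρ i / 8`). All are positive.
Let `ρ0` be the minimum of `ρ i`, `i < I + 1`, (the `t i` decrease, so it is `ρ I`), `Kmax` the maximum of the `K i`,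
and `κ0` so small that `(Kmax + 1) * κ0 ≤ ρ0 / 8` and `κ0 ≤ ρ0`.
-/

set_option autoImplicit false

namespace Pool.Agent.SWP

theorem scales (τ : ℝ) (h0 : 0 < τ) (h1 : τ ≤ 1) :
    ∃ (I : ℕ) (t ρ : ℕ → ℝ) (K : ℕ → ℕ) (Km : ℕ) (ρ0 κ0 : ℝ), 0 < I ∧ 8 ≤ τ * I ∧ 0 < ρ0 ∧ 0 < κ0 ∧ t 0 ≤ τ ∧
      (∀ i, 0 < t (i + 1) ∧ t (i + 1) ≤ t i) ∧
      ∀ i < I, 0 < K i ∧ K i ≤ Km ∧ ρ0 ≤ ρ i ∧ κ0 ≤ ρ i ∧ ρ i ≤ t i ∧ 16 * ρ i / t i ≤ τ / 4 ∧
        8 / (ρ i * K i) ≤ τ / 4 ∧ K i * t (i + 1) + (K i + 1) * κ0 ≤ ρ i / 4 := by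
  obtain ⟨I, hI⟩ := exists_nat_ge (8 / τ)
  have hI8 : 8 ≤ τ * I := by
    rw [div_le_iff₀ h0] at hI
    linarith
  have hIpos : 0 < I := by
    rcases Nat.eq_zero_or_pos I with h | h
    · exfalso
      rw [h] at hI8
      simp at hI8
      linarith
    · exact h
  -- the step
  obtain ⟨κ, hκ⟩ : ∃ κ : ℝ → ℕ, ∀ s, κ s = ⌈32 / (τ * s / 64 * τ)⌉₊ := ⟨_, fun _ => rfl⟩
  obtain ⟨g, hg⟩ : ∃ g : ℝ → ℝ, ∀ s, g s = min s (τ * s / 64 / (8 * (κ s : ℝ))) :=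
    ⟨_, fun _ => rfl⟩
  have hκpos : ∀ s, 0 < s → 0 < κ s := by
    intro s hs
    rw [hκ]
    exact Nat.ceil_pos.2 (by positivity)
  have hgpos : ∀ s, 0 < s → 0 < g s := by
    intro s hs
    rw [hg]
    have h2 : (0 : ℝ) < κ s := by exact_mod_cast hκpos s hs
    exact lt_min hs (by positivity)
  have hgle : ∀ s, g s ≤ s := by
    intro s
    rw [hg]
    exact min_le_left _ _
  obtain ⟨t, ht0, ht1⟩ : ∃ t : ℕ → ℝ, t 0 = τ ∧ ∀ i, t (i + 1) = g (t i) :=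
    ⟨fun i => g^[i] τ, rfl, fun i => Function.iterate_succ_apply' g i τ⟩
  have htpos : ∀ i, 0 < t i := by
    intro i
    induction i with
    | zero => rw [ht0]; exact h0
    | succ i ih => rw [ht1]; exact hgpos _ ih
  have htle : ∀ i, t (i + 1) ≤ t i := fun i => by rw [ht1]; exact hgle _
  have hanti : Antitone t := antitone_nat_of_succ_le htle
  have hKm : ∀ i < I, κ (t i) ≤ (Finset.range I).sup (fun i => κ (t i)) := fun i hi =>
    Finset.le_sup (f := fun i => κ (t i)) (Finset.mem_range.2 hi)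
  generalize hKmd : (Finset.range I).sup (fun i => κ (t i)) = Km at hKm
  refine ⟨I, t, fun i => τ * t i / 64, fun i => κ (t i), Km, τ * t I / 64,
    τ * t I / 64 / (8 * (Km + 1)), hIpos, hI8, ?_, ?_, ht0.le, fun i => ⟨htpos _, htle _⟩, ?_⟩
  · have := htpos I
    positivity
  · have := htpos I
    positivity
  intro i hi
  have hti := htpos i
  have htI := htpos I
  have hK := hκpos (t i) hti
  have hKr : (0 : ℝ) < κ (t i) := by exact_mod_cast hK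
  have hρI : τ * t I / 64 ≤ τ * t i / 64 := by
    have := hanti hi.le
    gcongr
  have hκ0 : τ * t I / 64 / (8 * ((Km : ℝ) + 1)) ≤ τ * t I / 64 := by
    apply div_le_self (by positivity)
    have : (0 : ℝ) ≤ Km := Nat.cast_nonneg _
    linarith
  refine ⟨hK, hKm i hi, hρI, hκ0.trans hρI, ?_, ?_, ?_, ?_⟩
  · have : τ * t i ≤ 1 * t i := by gcongr
    linarith
  · apply le_of_eq
    field_simp
    norm_num
  · have h2 : 32 / (τ * t i / 64 * τ) ≤ κ (t i) := by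
      rw [hκ]
      exact Nat.le_ceil _
    have h3 : 0 < τ * t i / 64 * τ := by positivity
    rw [div_le_iff₀ h3] at h2
    rw [div_le_iff₀ (by positivity)]
    nlinarith
  · have h2 : (κ (t i) : ℝ) * t (i + 1) ≤ τ * t i / 64 / 8 := by
      have h3 : t (i + 1) ≤ τ * t i / 64 / (8 * (κ (t i) : ℝ)) := by
        rw [ht1, hg]
        exact min_le_right _ _
      calc (κ (t i) : ℝ) * t (i + 1) ≤ κ (t i) * (τ * t i / 64 / (8 * (κ (t i) : ℝ))) := by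
            gcongr
        _ = τ * t i / 64 / 8 := by
            field_simp
    have h4 : ((κ (t i) : ℝ) + 1) * (τ * t I / 64 / (8 * ((Km : ℝ) + 1))) ≤ τ * t I / 64 / 8 := by
      have h5 : (κ (t i) : ℝ) ≤ Km := by exact_mod_cast hKm i hi
      have h6 : (0 : ℝ) < (Km : ℝ) + 1 := by positivity
      calc ((κ (t i) : ℝ) + 1) * (τ * t I / 64 / (8 * ((Km : ℝ) + 1)))
          ≤ ((Km : ℝ) + 1) * (τ * t I / 64 / (8 * ((Km : ℝ) + 1))) := by
            gcongr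
        _ = τ * t I / 64 / 8 := by
            field_simp
    show (κ (t i) : ℝ) * t (i + 1) + ((κ (t i) : ℝ) + 1) * (τ * t I / 64 / (8 * ((Km : ℝ) + 1))) ≤
      τ * t i / 64 / 4
    linarith

end Pool.Agent.SWP
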