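import Pool.Agent.SWP.MCut
import Pool.Agent.SWP.Chain
import Pool.Agent.SWP.PotDrop

/-!
# Splitting a long face

MODULE StepA. Write `f = S.face Y`, `u = S.uw Y`, `sh d := S.fl Y d < θ` (constant on faces by `cyc_same`). `x`, `y` lie on one face of length at
least `θ`, both arcs between them have weight at least `ρ`, and `Nb S.r f sh K x y`.
(1) `x ≠ y`: otherwise `arcw f u x y = 0` (`arc_self`). `chain` gives `k ≤ K`, `a`, `b` with `a 0 = x`, `b k = y`, etc.
(2) `a l ≠ b l` for `l ≤ k`: `k = 0`: `x ≠ y`. `k ≥ 1`: `a 0 = x` is not short, `b 0` is short; `b k = y` is not short, `a k` is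
short; for `1 ≤ l < k` `a l` and `b l` are in the faces of `a l` and `a (l+1)`, which are distinct.
(3) `mcut` (with `S.Clean`) gives `P, S', j, π` and `CutOut S P S' j π E`, `E = ∑ l < k + 1, S.len (a l) ≤ (k + 1) κ ≤ (K + 1) κ`.
(4) `PathH f P k a b`: `hne`: `b l` and `a (l+1)` are in different words; `hd0`: `a l` (`l ≥ 1`) is short, `a 0` is not.
(5) `Y' = j '' Y`, `B' = π ⁻¹' B`. `S'.beta Y' (j d) = j (S.beta Y d)` (`ja`; `j` is injective) and `S'.beta Y'` fixes the new letters. By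
`Trace.mul_right`: `Trace j π (S'.face Y') (P * f)` (associativity). By `Trace.pot_push`:
`pot (S'.face Y') (S'.uw Y') = pot (P * f) (push π (S'.uw Y'))`, and by `Trace.push_eq` the pushed weight of `t` is
`S'.uw Y' (j t) + N t = u t + N t` with `N t = wt (S'.uw Y') {c | new, π c = t}` (and `S'.uw Y' = S'.w` on new letters). `N t ≠ 0` implies
that `P t ≠ t` (`newp`), so `t` is some `a l` or `b l`. `∑ N = ` weight of the new letters `≤ E`.
`∑ l < k, cyc f u (a (l+1)) ≤ k θ`. Now `potdrop` applies because of `hK`.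
(6) `Rfn`: `clean`, `len`, `sw` from `CutOut`. `cl`: `ja`. `sub`: `π (j d) = d ∈ Y ⊆ B`. `inv`: `π (S'.r e)` is `π e` for new `e` and
`P (S.r d)` for `e = j d`; `B` is invariant under `S.r` and under `P` (`P` exchanges `a l`, `b l`, which are in one word, and fixes
all other letters). `total`: `S'.total = ∑ push π S'.w = S.total + new weight`. `wY`: equality. `wB`:
`wt S'.w (π ⁻¹' B) ≤ wt S.w B + new weight`.
-/

set_option autoImplicit false

namespace Pool.Agent.SWP

open Equiv

private theorem sum_fib {D D' : Type} [Fintype D] [Fintype D'] {j : D → D'} {π : D' → D} (v : D' → ℝ) :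
    ∑ t, wt v {c | (∀ d, j d ≠ c) ∧ π c = t} = wt v {c | ∀ d, j d ≠ c} := by
  have h := Trace.sum_push (D := D) (D' := D') π (Set.indicator {c | ∀ d, j d ≠ c} v)
  have e1 : ∀ t, push π (Set.indicator {c | ∀ d, j d ≠ c} v) t = wt v {c | (∀ d, j d ≠ c) ∧ π c = t} := by
    intro t
    unfold push wt
    refine Finset.sum_congr rfl (fun e _ => ?_)
    rw [Set.indicator_indicator]
    have : ({e | π e = t} ∩ {c | ∀ d, j d ≠ c} : Set D') = {c | (∀ d, j d ≠ c) ∧ π c = t} := by
      ext c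
      exact ⟨fun h => ⟨h.2, h.1⟩, fun h => ⟨h.2, h.1⟩⟩
    rw [this]
  simp_rw [e1] at h
  rw [h]
  rfl

private theorem sum_split {D D' : Type} [Fintype D] [Fintype D'] {j : D → D'} {π : D' → D} {s' : Perm D'}
    {s : Perm D} (h : Trace j π s' s) (v : D' → ℝ) :
    ∑ e, v e = ∑ t, v (j t) + wt v {c | ∀ d, j d ≠ c} := by
  rw [← sum_fib (j := j) (π := π) v, ← Finset.sum_add_distrib, ← Trace.sum_push π v]
  exact Finset.sum_congr rfl (fun t _ => h.push_eq v t)

theorem stepA (S : St) (Y B : Set S.D) (hS : S.Clean) (hY : S.Cl Y) (hYB : Y ⊆ B) (hB : ∀ d, S.r d ∈ B ↔ d ∈ B)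
    (κ θ ρ : ℝ) (K : ℕ) (hκ : ∀ d, S.len d ≤ κ) (hκ0 : 0 ≤ κ) (hθ : 0 ≤ θ) (hρ : 0 < ρ)
    (hK : K * θ + (K + 1) * κ ≤ ρ / 4) (x y : S.D) (hx : θ ≤ S.fl Y x) (hxy : (S.face Y).SameCycle x y)
    (h1 : ρ ≤ arcw (S.face Y) (S.uw Y) x y) (h2 : ρ ≤ arcw (S.face Y) (S.uw Y) y x)
    (hNb : Nb S.r (S.face Y) (fun d => S.fl Y d < θ) K x y) :
    ∃ (S' : St) (Y' B' : Set S'.D), Rfn S Y B S' Y' B' ((K + 1) * κ) ∧
      pot (S'.face Y') (S'.uw Y') ≤ pot (S.face Y) (S.uw Y) - ρ ^ 2 := by
  classical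
  have hsh : ∀ g h, (S.face Y).SameCycle g h → S.fl Y g < θ → S.fl Y h < θ := by
    intro g h hs hg
    have : S.fl Y g = S.fl Y h := cyc_same hs
    rw [← this]; exact hg
  have hxyne : x ≠ y := by
    rintro rfl
    have : arcw (S.face Y) (S.uw Y) x x = 0 := by
      unfold arcw wt
      refine Finset.sum_eq_zero (fun e _ => ?_)
      have h0 : e ∉ {d | Arc (S.face Y) x x d} := fun h => arc_self h
      exact Set.indicator_of_notMem h0 _
    linarith
  obtain ⟨k, a, b, hkK, ha0, hbk, hw, hf, hd1, hd2⟩ := chain hsh hNb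
  have hfly : θ ≤ S.fl Y y := by
    have : S.fl Y x = S.fl Y y := cyc_same hxy
    rw [← this]; exact hx
  have hshort : ∀ l, 1 ≤ l → l ≤ k → S.fl Y (a l) < θ := by
    intro l hl1 hlk
    obtain ⟨l', rfl⟩ : ∃ l', l = l' + 1 := ⟨l - 1, by omega⟩
    obtain ⟨h3, h4⟩ := hf l' (by omega)
    exact hsh _ _ h4 h3
  have hab : ∀ l ≤ k, a l ≠ b l := by
    intro l hl he
    by_cases hlk : l = k
    · subst hlk
      by_cases hl0 : l = 0
      · subst hl0
        rw [ha0, hbk] at he
        exact hxyne he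
      · have := hshort l (by omega) le_rfl
        rw [he, hbk] at this
        linarith
    · have hlt : l < k := lt_of_le_of_ne hl hlk
      obtain ⟨h3, h4⟩ := hf l hlt
      by_cases hl0 : l = 0
      · subst hl0
        rw [← he, ha0] at h3
        linarith
      · rw [← he] at h4
        exact hd2 l (by omega) hl (l + 1) (by omega) (by omega) (by omega) h4
  obtain ⟨P, S', j, π, hP1, hP2, hP3, out⟩ := mcut S hS k a b hab hw hd1
  have hE : ∑ l ∈ Finset.range (k + 1), S.len (a l) ≤ (K + 1) * κ := by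
    calc ∑ l ∈ Finset.range (k + 1), S.len (a l) ≤ ∑ l ∈ Finset.range (k + 1), κ :=
          Finset.sum_le_sum (fun l _ => hκ _)
      _ = (k + 1 : ℝ) * κ := by
          rw [Finset.sum_const, Finset.card_range, nsmul_eq_mul]; push_cast; ring
      _ ≤ (K + 1) * κ := by
          have : (k : ℝ) ≤ K := by exact_mod_cast hkK
          nlinarith
  have hpath : PathH (S.face Y) P k a b := by
    refine ⟨?_, ?_, fun l hl => (hf l hl).2, ?_, ?_, hd2, hP1, hP2, hP3⟩
    · rw [ha0, hbk]; exact hxyne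
    · rw [ha0, hbk]; exact hxy
    · intro l hl he
      refine hd1 l hl.le (l + 1) (by omega) (by omega) ?_
      rw [← he]
      exact hw l hl.le
    · intro l hl1 hlk hs
      have h3 := hshort l hl1 hlk
      have h4 : S.fl Y (a 0) = S.fl Y (a l) := cyc_same hs
      rw [ha0] at h4
      linarith
  have hinj := out.tr.inj
  set Y' : Set S'.D := j '' Y with hY'
  set B' : Set S'.D := π ⁻¹' B with hB'
  set New : Set S'.D := {c | ∀ d, j d ≠ c} with hNew
  have hcl : S'.Cl Y' := by
    rintro _ ⟨d, hd, rfl⟩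
    rw [out.ja]
    exact ⟨_, hY d hd, rfl⟩
  have hmemY : ∀ d, j d ∈ Y' ↔ d ∈ Y := fun d => hinj.mem_set_image
  have hbeta1 : ∀ d, S'.beta Y' (j d) = j (S.beta Y d) := by
    intro d
    by_cases hd : d ∈ Y
    · rw [S'.beta_mem hcl ((hmemY d).2 hd), S.beta_mem hY hd, out.ja]
    · rw [S'.beta_notMem (fun h => hd ((hmemY d).1 h)), S.beta_notMem hd]
  have hbeta2 : ∀ d', (∀ d, j d ≠ d') → S'.beta Y' d' = d' := by
    intro d' hd'
    refine S'.beta_notMem ?_
    rintro ⟨d, _, rfl⟩
    exact hd' d rfl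
  have htr : Trace j π (S'.face Y') (P * S.face Y) := by
    have := out.tr.mul_right (S'.beta Y') (S.beta Y) hbeta1 hbeta2
    unfold St.face
    rw [← mul_assoc]
    exact this
  have huj : ∀ t, S'.uw Y' (j t) = S.uw Y t := by
    intro t
    by_cases ht : t ∈ Y
    · rw [St.uw_mem ht, St.uw_mem ((hmemY t).2 ht)]
    · rw [St.uw_notMem ht, St.uw_notMem (fun h => ht ((hmemY t).1 h)), out.jw]
  set N : S.D → ℝ := fun t => wt (S'.uw Y') {c | (∀ d, j d ≠ c) ∧ π c = t} with hN
  have hNnn : ∀ t, 0 ≤ N t := fun t => wt_nonneg (fun e => St.uw_nonneg e) _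
  have hpush : push π (S'.uw Y') = fun t => S.uw Y t + N t := by
    funext t
    rw [htr.push_eq, huj]
  have hN2 : ∀ t, N t ≠ 0 → ∃ l ≤ k, t = a l ∨ t = b l := by
    intro t ht
    by_contra hcon
    push Not at hcon
    apply ht
    have hPt : P t = t := hP3 t (fun l hl => hcon l hl)
    have : ({c | (∀ d, j d ≠ c) ∧ π c = t} : Set S'.D) = ∅ := by
      ext c
      constructor
      · rintro ⟨h3, h4⟩
        exact absurd (by rw [h4]; exact hPt) (out.newp c h3)
      · intro h; exact absurd h (Set.notMem_empty c)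
    rw [hN]
    simp only
    rw [this]
    unfold wt
    simp
  have hsumN : ∑ t, N t ≤ (K + 1) * κ := by
    rw [hN]
    simp only
    rw [sum_fib]
    refine le_trans ?_ (out.wnew.trans hE)
    exact wt_mono_fun (fun e _ => St.uw_le e)
  have hdrop : pot (P * S.face Y) (fun d => S.uw Y d + N d) ≤ pot (S.face Y) (S.uw Y) - ρ ^ 2 := by
    refine potdrop hpath (S.uw Y) N (fun d => St.uw_nonneg d) hNnn hN2 ρ hρ ?_ ?_ ?_
    · rw [ha0, hbk]; exact h1
    · rw [ha0, hbk]; exact h2
    · have h3 : ∑ l ∈ Finset.range k, cyc (S.face Y) (S.uw Y) (a (l + 1)) ≤ K * θ := by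
        calc ∑ l ∈ Finset.range k, cyc (S.face Y) (S.uw Y) (a (l + 1))
            ≤ ∑ l ∈ Finset.range k, θ := by
              refine Finset.sum_le_sum (fun l hl => ?_)
              have := hshort (l + 1) (by omega) (by have := Finset.mem_range.1 hl; omega)
              exact this.le
          _ = k * θ := by rw [Finset.sum_const, Finset.card_range, nsmul_eq_mul]
          _ ≤ K * θ := by
              have : (k : ℝ) ≤ K := by exact_mod_cast hkK
              exact mul_le_mul_of_nonneg_right this hθ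
      linarith
  have hPB : ∀ t, P t ∈ B ↔ t ∈ B := by
    intro t
    by_cases ht : ∃ l ≤ k, t = a l ∨ t = b l
    · obtain ⟨l, hl, rfl | rfl⟩ := ht
      · rw [hP1 l hl]
        exact (iff_of_same (Q := fun d => d ∈ B) hB (hw l hl)).symm
      · rw [hP2 l hl]
        exact iff_of_same (Q := fun d => d ∈ B) hB (hw l hl)
    · push Not at ht
      rw [hP3 t ht]
  refine ⟨S', Y', B', ⟨out.clean, hcl, ?_, ?_, ?_, ?_, ?_, out.len, out.sw⟩, ?_⟩
  · rintro _ ⟨d, hd, rfl⟩
    change π (j d) ∈ B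
    rw [out.tr.pj]
    exact hYB hd
  · intro d'
    change π (S'.r d') ∈ B ↔ π d' ∈ B
    by_cases hn : ∀ d, j d ≠ d'
    · rw [out.tr.new d' hn]
    · push Not at hn
      obtain ⟨d, rfl⟩ := hn
      rw [out.tr.old, out.tr.pj, Perm.mul_apply, hPB, hB]
  · have h3 : S'.total = S.total + wt S'.w {c | ∀ d, j d ≠ c} := by
      unfold St.total
      rw [sum_split out.tr S'.w]
      simp_rw [out.jw]
    rw [h3]
    have := out.wnew
    linarith
  · have h3 : wt S'.w Y' = ∑ t, Set.indicator Y' S'.w (j t) +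
        wt (Set.indicator Y' S'.w) {c | ∀ d, j d ≠ c} := sum_split out.tr _
    have h4 : ∀ t, Set.indicator Y' S'.w (j t) = Set.indicator Y S.w t := by
      intro t
      by_cases ht : t ∈ Y
      · rw [Set.indicator_of_mem ht, Set.indicator_of_mem ((hmemY t).2 ht), out.jw]
      · rw [Set.indicator_of_notMem ht, Set.indicator_of_notMem (fun h => ht ((hmemY t).1 h))]
    simp_rw [h4] at h3
    have h5 : 0 ≤ wt (Set.indicator Y' S'.w) {c | ∀ d, j d ≠ c} :=
      wt_nonneg (fun d => Set.indicator_nonneg (fun e _ => S'.wnn e) d) _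
    rw [h3]
    unfold wt at h5 ⊢
    linarith
  · have h3 : wt S'.w B' = ∑ t, Set.indicator B' S'.w (j t) +
        wt (Set.indicator B' S'.w) {c | ∀ d, j d ≠ c} := sum_split out.tr _
    have h4 : ∀ t, Set.indicator B' S'.w (j t) = Set.indicator B S.w t := by
      intro t
      have hm : j t ∈ B' ↔ t ∈ B := by
        change π (j t) ∈ B ↔ t ∈ B
        rw [out.tr.pj]
      by_cases ht : t ∈ B
      · rw [Set.indicator_of_mem ht, Set.indicator_of_mem (hm.2 ht), out.jw]
      · rw [Set.indicator_of_notMem ht, Set.indicator_of_notMem (fun h => ht (hm.1 h))]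
    simp_rw [h4] at h3
    have h5 : wt (Set.indicator B' S'.w) {c | ∀ d, j d ≠ c} ≤ wt S'.w {c | ∀ d, j d ≠ c} :=
      wt_mono_fun (fun e _ => Set.indicator_le_self' (fun _ _ => S'.wnn _) e)
    have h6 := out.wnew
    rw [h3]
    unfold wt at h5 h6 ⊢
    linarith
  · rw [htr.pot_push, hpush]
    exact hdrop

end Pool.Agent.SWP
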