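import Pool.Agent.SWP.Blk
import Pool.Agent.SWP.Lay

/-!
# Removing a light set of letters makes all faces short

MODULE StepB. Write `f = S.face Y`, `u = S.uw Y`, `fl = S.fl Y`, `sh d := fl d < θ2`. Long: `fl ≥ θ1`. Medium: `θ2 ≤ fl < θ1`.
(1) `blocks f u ρ θ1` gives `m ≤ 2 (∑ u) / ρ ≤ 4 M / ρ` and `blk`. For `i < m` let `N i = {x | θ1 ≤ fl x ∧ blk x = i}`.
(2) `layers` for `N i` (with `w = S.w`; `hZ` from `ZProp`, because `0 < θ2`) gives `s i < K` with `wt S.w (CutS .. (A i)) ≤ 2 M / K`, where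
`A i = Ball S.r f sh (N i) (s i)`. Let `T = {b ∈ Y | ∃ i < m, ¬ (b ∈ A i ↔ S.a b ∈ A i)}` and
`E = {d | d ∉ Y ∧ sh d ∧ ∃ i < m, the face of d meets A i and is not contained in A i}`. `T ∪ E` is contained in the union of the
`CutS .. (A i)`, so `wt w (T ∪ E) ≤ m * (2 M / K) ≤ 8 M^2 / (ρ K) ≤ τ / 4` (`wt_iUnion_le`). `T` is closed under `S.a`.
(3) Let `g = S.r * S.beta (Y \ T)`. Each `A i` is invariant under `g`: words are contained in `A i` or disjoint from it (`nb_word`), and for
`b ∈ Y \ T`: `b ∈ A i ↔ a b ∈ A i`. So (`iff_of_same`) all letters of one cycle `O` of `g` are in the same sets `A i`.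
(4) Let `O` be the cycle of `d0` under `g`. Case 1: `O` contains a letter `d` with `sh d` whose face `F` (cycle of `f`) is not cut by any `A i`
(`i < m`). Then `F ∩ T = ∅`: for `b ∈ F ∩ Y` we have `f b = S.r (S.a b) ∈ F`, so for each `i`: `b ∈ A i ↔ f b ∈ A i ↔ a b ∈ A i`. So on `F` the
permutations `g` and `f` agree, `O = F` (`same_congr`), and `S.uw (Y \ T) = u` on `F`; the weight is `fl d < θ2 ≤ τ`.
Case 2: every letter of `O` with `sh` lies on a cut face. Then each letter `e ∈ O` with `S.uw (Y \ T) e ≠ 0` is in `T`, or is not in `Y`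
and is long or medium or in `E`. So the weight of `O` is at most `wt u (O ∩ long) + wt u medium + wt w (T ∪ E)`.
(5) `wt u (O ∩ long) ≤ τ / 4`: for each long face `C` meeting `O` choose `x0 ∈ C ∩ O`, `i = blk x0`. `x0 ∈ N i ⊆ A i` (`Nb` is reflexive), so
`O ⊆ A i`. For `y ∈ C ∩ O` there is `x ∈ N i` with `Nb (s i) x y`, hence `Nb K x y` (`nb_mono`). If `x`, `y` are in one cycle of `f`, `hA` says
that `arcw f u x y < ρ` or `arcw f u y x < ρ`. So `y` is in the set of the third property of `blocks` (with `d = x0`), whose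
weight is at most `8 ρ`. The number of long faces is at most `2 M / θ1`: the sum over the long faces of their weights is
at most `∑ u ≤ 2 M`. Total: `16 M ρ / θ1 ≤ τ / 4`. (In Lean: sum over the images of a choice of representatives of the long
cycles; or use `∑ over long letters e of u e ≤ ∑ over representatives`.)
(6) Total `≤ 3 τ / 4 ≤ τ`, and `wt w T ≤ τ / 4 ≤ τ`.
-/

set_option autoImplicit false

namespace Pool.Agent.SWP

open Equiv

/-- double counting: weight on the long cycles from the bound on each long cycle -/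
theorem stepB_count {D : Type} [Fintype D] (f : Perm D) (u : D → ℝ) (hu : ∀ d, 0 ≤ u d) (O : Set D) (θ c : ℝ)
    (hθ : 0 < θ) (hc : 0 ≤ c)
    (h : ∀ y, θ ≤ cyc f u y → wt u (O ∩ {e | f.SameCycle y e}) ≤ c) :
    wt u (O ∩ {e | θ ≤ cyc f u e}) ≤ c / θ * ∑ d, u d := by
  classical
  -- the kernel
  set k : D → D → ℝ := fun e y => Set.indicator (O ∩ {e | θ ≤ cyc f u e}) u e *
    Set.indicator {y | f.SameCycle e y} u y / cyc f u e with hk
  have h1 : wt u (O ∩ {e | θ ≤ cyc f u e}) = ∑ e, ∑ y, k e y := by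
    unfold wt
    refine Finset.sum_congr rfl fun e _ => ?_
    by_cases he : e ∈ O ∩ {e | θ ≤ cyc f u e}
    · have hpos : 0 < cyc f u e := lt_of_lt_of_le hθ he.2
      simp only [hk]
      rw [← Finset.sum_div, ← Finset.mul_sum]
      change _ = _ * cyc f u e / cyc f u e
      field_simp
    · simp only [hk, Set.indicator_of_notMem he, zero_mul, zero_div, Finset.sum_const_zero]
  rw [h1, Finset.sum_comm, Finset.mul_sum]
  refine Finset.sum_le_sum fun y _ => ?_
  by_cases hy : θ ≤ cyc f u y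
  · have hpos : 0 < cyc f u y := lt_of_lt_of_le hθ hy
    have h2 : ∑ e, k e y = u y / cyc f u y * wt u (O ∩ {e | f.SameCycle y e}) := by
      unfold wt
      rw [Finset.mul_sum]
      refine Finset.sum_congr rfl fun e _ => ?_
      simp only [hk]
      by_cases hs : f.SameCycle y e
      · have e1 : cyc f u e = cyc f u y := (cyc_same hs).symm
        rw [Set.indicator_of_mem (show y ∈ {y | f.SameCycle e y} from hs.symm), e1]
        by_cases hO : e ∈ O
        · rw [Set.indicator_of_mem (show e ∈ O ∩ {e | θ ≤ cyc f u e} from ⟨hO, by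
            show θ ≤ cyc f u e
            rw [e1]; exact hy⟩),
            Set.indicator_of_mem (show e ∈ O ∩ {e | f.SameCycle y e} from ⟨hO, hs⟩)]
          ring
        · rw [Set.indicator_of_notMem (show e ∉ O ∩ {e | θ ≤ cyc f u e} from fun h => hO h.1),
            Set.indicator_of_notMem (show e ∉ O ∩ {e | f.SameCycle y e} from fun h => hO h.1)]
          ring
      · rw [Set.indicator_of_notMem (show y ∉ {y | f.SameCycle e y} from fun h => hs h.symm),
          Set.indicator_of_notMem (show e ∉ O ∩ {e | f.SameCycle y e} from fun h => hs h.2)]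
        ring
    rw [h2]
    calc u y / cyc f u y * wt u (O ∩ {e | f.SameCycle y e}) ≤ u y / θ * c := by
          apply mul_le_mul _ (h y hy) (wt_nonneg hu _) (div_nonneg (hu y) hθ.le)
          exact div_le_div_of_nonneg_left (hu y) hθ hy
      _ = c / θ * u y := by ring
  · have h2 : ∑ e, k e y = 0 := by
      refine Finset.sum_eq_zero fun e _ => ?_
      simp only [hk]
      by_cases hs : f.SameCycle e y
      · have e1 : cyc f u e = cyc f u y := cyc_same hs
        rw [Set.indicator_of_notMem (show e ∉ O ∩ {e | θ ≤ cyc f u e} from fun h => hy (by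
          rw [← e1]; exact h.2))]
        simp
      · rw [Set.indicator_of_notMem (show y ∉ {y | f.SameCycle e y} from hs)]
        simp
    rw [h2]
    exact mul_nonneg (div_nonneg hc hθ.le) (hu y)

theorem stepB (S : St) (Y : Set S.D) (hY : S.Cl Y) (hZ : ZProp S Y) (M τ θ1 θ2 ρ : ℝ) (K : ℕ)
    (hM : S.total ≤ 2 * M) (hM0 : 0 < M) (hτ : 0 < τ) (hρ : 0 < ρ) (hK : 0 < K) (hw : ∀ d, S.w d ≤ ρ) (hθ1 : ρ ≤ θ1)
    (hθ2 : 0 < θ2) (h12 : θ2 ≤ θ1) (h2τ : θ2 ≤ τ)
    (hmed : wt (S.uw Y) {d | θ2 ≤ S.fl Y d ∧ S.fl Y d < θ1} ≤ τ / 4)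
    (hlong : 16 * M * ρ / θ1 ≤ τ / 4) (hcut : 8 * M ^ 2 / (ρ * K) ≤ τ / 4)
    (hA : ∀ x y, θ1 ≤ S.fl Y x → (S.face Y).SameCycle x y → ρ ≤ arcw (S.face Y) (S.uw Y) x y →
      ρ ≤ arcw (S.face Y) (S.uw Y) y x → ¬ Nb S.r (S.face Y) (fun d => S.fl Y d < θ2) K x y) :
    ∃ T ⊆ Y, S.Cl T ∧ wt S.w T ≤ τ ∧ ∀ d, cyc (S.r * S.beta (Y \ T)) (S.uw (Y \ T)) d ≤ τ := by
  classical
  set f := S.face Y with hf
  set u := S.uw Y with hu
  have hfl : ∀ d, S.fl Y d = cyc f u d := fun d => rfl
  have hunn : ∀ d, 0 ≤ u d := fun d => St.uw_nonneg d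
  have hule : ∀ d, u d ≤ S.w d := fun d => by
    rw [hu]
    unfold St.uw
    by_cases h : d ∈ Yᶜ
    · rw [Set.indicator_of_mem h]
    · rw [Set.indicator_of_notMem h]
      exact S.wnn d
  have hsumw : ∑ d, S.w d ≤ 2 * M := hM
  have hsumu : ∑ d, u d ≤ 2 * M := (Finset.sum_le_sum fun d _ => hule d).trans hsumw
  set sh : S.D → Prop := fun d => S.fl Y d < θ2 with hsh
  have hshc : ∀ g h, f.SameCycle g h → sh g → sh h := by
    intro g h hgh hg
    simp only [hsh, hfl] at hg ⊢
    rw [← cyc_same hgh]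
    exact hg
  have hZ' : ∀ b ∈ Y, ∃ d e, sh d ∧ f.SameCycle d e ∧ S.r.SameCycle d b ∧ S.r.SameCycle e (S.a b) := by
    intro b hb
    obtain ⟨d, e, h1, h2, h3, h4⟩ := hZ b hb
    exact ⟨d, e, by simp only [hsh]; rw [h1]; exact hθ2, h2, h3, h4⟩
  obtain ⟨m, blk, hm, hblk, hnear⟩ := blocks f u hunn ρ θ1 hρ (fun d => (hule d).trans (hw d)) hθ1
  have hlay := fun i : ℕ => layers S.r f S.a S.aa sh Y S.w S.wnn hshc hY hZ'
    {x | θ1 ≤ cyc f u x ∧ blk x = i} K hK
  choose s hs hscut using hlay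
  set A : ℕ → Set S.D := fun i => Ball S.r f sh {x | θ1 ≤ cyc f u x ∧ blk x = i} (s i) with hAdef
  have hAr : ∀ i x, S.r x ∈ A i ↔ x ∈ A i := by
    intro i x
    constructor
    · rintro ⟨z, hz, hn⟩
      exact ⟨z, hz, nb_word hn (Perm.SameCycle.symm (Perm.sameCycle_apply_right.2 (Perm.SameCycle.refl _ _)))⟩
    · rintro ⟨z, hz, hn⟩
      exact ⟨z, hz, nb_word hn (Perm.sameCycle_apply_right.2 (Perm.SameCycle.refl _ _))⟩
  set T : Set S.D := {b | b ∈ Y ∧ ∃ i, i < m ∧ ¬ (b ∈ A i ↔ S.a b ∈ A i)} with hT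
  set E : Set S.D := {d | d ∉ Y ∧ sh d ∧ ∃ i, i < m ∧ ∃ g h, f.SameCycle d g ∧ f.SameCycle d h ∧
    g ∈ A i ∧ h ∉ A i} with hE
  have hTY : T ⊆ Y := fun b hb => hb.1
  have hTcl : S.Cl T := by
    rintro b ⟨hb, i, hi, hn⟩
    refine ⟨hY b hb, i, hi, ?_⟩
    rw [S.aa]
    exact fun h => hn h.symm
  have hTE : wt S.w (T ∪ E) ≤ τ / 4 := by
    have hsub : T ∪ E ⊆ {d | ∃ i, i < m ∧ d ∈ CutS f S.a sh Y (A i)} := by
      rintro d (⟨hd, i, hi, hn⟩ | ⟨hd, hsd, i, hi, g, h, h1, h2, h3, h4⟩)
      · exact ⟨i, hi, Or.inl ⟨hd, hn⟩⟩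
      · exact ⟨i, hi, Or.inr ⟨hd, hsd, g, h, h1, h2, h3, h4⟩⟩
    have hK0 : (0 : ℝ) < K := by exact_mod_cast hK
    calc wt S.w (T ∪ E) ≤ wt S.w {d | ∃ i, i < m ∧ d ∈ CutS f S.a sh Y (A i)} := wt_mono S.wnn hsub
      _ ≤ ∑ i ∈ Finset.range m, wt S.w (CutS f S.a sh Y (A i)) := wt_iUnion_le S.wnn m _
      _ ≤ ∑ _i ∈ Finset.range m, 2 * M / K := by
          refine Finset.sum_le_sum fun i _ => ?_
          exact (hscut i).trans (div_le_div_of_nonneg_right hsumw hK0.le)
      _ = m * (2 * M / K) := by simp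
      _ ≤ (4 * M / ρ) * (2 * M / K) := by
          apply mul_le_mul_of_nonneg_right _ (by positivity)
          refine hm.trans ?_
          apply div_le_div_of_nonneg_right _ hρ.le
          linarith
      _ = 8 * M ^ 2 / (ρ * K) := by
          field_simp
          ring
      _ ≤ τ / 4 := hcut
  have hTw : wt S.w T ≤ τ / 4 := (wt_mono S.wnn Set.subset_union_left).trans hTE
  refine ⟨T, hTY, hTcl, by linarith, fun d0 => ?_⟩
  have hYT : S.Cl (Y \ T) := by
    rintro b ⟨hb, hbT⟩
    refine ⟨hY b hb, fun h => hbT ?_⟩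
    have := hTcl _ h
    rwa [S.aa] at this
  set g := S.r * S.beta (Y \ T) with hg
  set u' := S.uw (Y \ T) with hu'
  have hginv : ∀ i, i < m → ∀ d, g d ∈ A i ↔ d ∈ A i := by
    intro i hi d
    have e1 : g d = S.r (S.beta (Y \ T) d) := rfl
    rw [e1, hAr]
    by_cases hd : d ∈ Y \ T
    · rw [S.beta_mem hYT hd]
      by_contra hcon
      exact hd.2 ⟨hd.1, i, hi, fun h => hcon h.symm⟩
    · rw [S.beta_notMem hd]
  have hgsame : ∀ i, i < m → ∀ d e, g.SameCycle d e → (d ∈ A i ↔ e ∈ A i) := fun i hi d e h =>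
    iff_of_same (Q := fun x => x ∈ A i) (hginv i hi) h
  have hu'nn : ∀ d, 0 ≤ u' d := fun d => St.uw_nonneg d
  by_cases hcase : ∃ d, g.SameCycle d0 d ∧ sh d ∧
      ∀ i, i < m → ∀ x y, f.SameCycle d x → f.SameCycle d y → (x ∈ A i ↔ y ∈ A i)
  · obtain ⟨d, hd0, hshd, hnc⟩ := hcase
    have hstep : ∀ e, f.SameCycle d e → f.SameCycle d (f e) := fun e he =>
      Perm.sameCycle_apply_right.2 he
    have hmem : ∀ e, f.SameCycle d e → (e ∈ Y ↔ e ∈ Y \ T) := by
      intro e he
      refine ⟨fun hY1 => ⟨hY1, fun hT1 => ?_⟩, fun h => h.1⟩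
      obtain ⟨-, i, hi, hn⟩ := hT1
      apply hn
      rw [hnc i hi e (f e) he (hstep e he)]
      have e1 : f e = S.r (S.beta Y e) := rfl
      rw [e1, hAr, S.beta_mem hY hY1]
    have hfg : ∀ e ∈ {e | f.SameCycle d e}, f e = g e := by
      intro e he
      have e1 : f e = S.r (S.beta Y e) := rfl
      have e2 : g e = S.r (S.beta (Y \ T) e) := rfl
      rw [e1, e2]
      by_cases hY1 : e ∈ Y
      · rw [S.beta_mem hY hY1, S.beta_mem hYT ((hmem e he).1 hY1)]
      · rw [S.beta_notMem hY1, S.beta_notMem (fun h => hY1 h.1)]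
    have huu : ∀ e ∈ {e | f.SameCycle d e}, u e = u' e := by
      intro e he
      rw [hu, hu']
      unfold St.uw
      by_cases hY1 : e ∈ Y
      · rw [Set.indicator_of_notMem (fun h : e ∈ Yᶜ => h hY1),
          Set.indicator_of_notMem (fun h : e ∈ (Y \ T)ᶜ => h ((hmem e he).1 hY1))]
      · rw [Set.indicator_of_mem (show e ∈ Yᶜ from hY1),
          Set.indicator_of_mem (show e ∈ (Y \ T)ᶜ from fun h => hY1 h.1)]
    have h1 : cyc f u d = cyc g u' d :=
      cyc_congr (Z := {e | f.SameCycle d e}) (fun e he => hstep e he) hfg huu (Perm.SameCycle.refl _ _)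
    have h2 : cyc g u' d0 = cyc g u' d := cyc_same hd0
    rw [h2, ← h1]
    have h3 : cyc f u d < θ2 := hshd
    linarith
  · push Not at hcase
    set O : Set S.D := {e | g.SameCycle d0 e} with hO
    have hlongO : wt u (O ∩ {e | θ1 ≤ cyc f u e}) ≤ τ / 4 := by
      have hcnt := stepB_count f u hunn O θ1 (8 * ρ) (by linarith) (by linarith) (fun y hy => by
        by_cases hne : ∃ x0, x0 ∈ O ∧ f.SameCycle y x0
        · obtain ⟨x0, hx0, hyx0⟩ := hne
          have hx0l : θ1 ≤ cyc f u x0 := by rw [← cyc_same hyx0]; exact hy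
          have hx0m : blk x0 < m := hblk x0 hx0l
          have hx0A : x0 ∈ A (blk x0) := by
            refine ⟨x0, ⟨hx0l, rfl⟩, ?_⟩
            exact nb_mono (Nat.zero_le _) (show Nb S.r f sh 0 x0 x0 from Perm.SameCycle.refl _ _)
          refine (wt_mono hunn ?_).trans (hnear x0 hx0l)
          rintro z ⟨hzO, hyz⟩
          refine ⟨hyx0.symm.trans hyz, ?_⟩
          have hzA : z ∈ A (blk x0) := by
            have h1 : g.SameCycle x0 z := Perm.SameCycle.trans (Perm.SameCycle.symm hx0) hzO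
            exact (hgsame _ hx0m _ _ h1).1 hx0A
          obtain ⟨x, ⟨hxl, hxb⟩, hn⟩ := hzA
          refine ⟨x, hxl, hxb, ?_⟩
          by_cases hxz : f.SameCycle x z
          · right
            by_contra hcon
            push Not at hcon
            exact hA x z hxl hxz hcon.1 hcon.2 (nb_mono (hs (blk x0)).le hn)
          · exact Or.inl hxz
        · have h0 : O ∩ {e | f.SameCycle y e} = ∅ := by
            ext z
            simp only [Set.mem_inter_iff, Set.mem_ofPred_eq, Set.mem_empty_iff_false, iff_false]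
            rintro ⟨h1, h2⟩
            exact hne ⟨z, h1, h2⟩
          rw [h0]
          unfold wt
          simp only [Set.indicator_empty, Pi.zero_apply, Finset.sum_const_zero]
          linarith)
      refine hcnt.trans (le_trans ?_ hlong)
      have hθ0 : 0 < θ1 := by linarith
      calc 8 * ρ / θ1 * ∑ d, u d ≤ 8 * ρ / θ1 * (2 * M) :=
            mul_le_mul_of_nonneg_left hsumu (by positivity)
        _ = 16 * M * ρ / θ1 := by ring
    have hpt : ∀ e, Set.indicator O u' e ≤ Set.indicator (O ∩ {e | θ1 ≤ cyc f u e}) u e +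
        Set.indicator {d | θ2 ≤ S.fl Y d ∧ S.fl Y d < θ1} u e + Set.indicator (T ∪ E) S.w e := by
      intro e
      have n1 : 0 ≤ Set.indicator (O ∩ {e | θ1 ≤ cyc f u e}) u e :=
        Set.indicator_nonneg (fun x _ => hunn x) e
      have n2 : 0 ≤ Set.indicator {d | θ2 ≤ S.fl Y d ∧ S.fl Y d < θ1} u e :=
        Set.indicator_nonneg (fun x _ => hunn x) e
      have n3 : 0 ≤ Set.indicator (T ∪ E) S.w e := Set.indicator_nonneg (fun x _ => S.wnn x) e
      by_cases heO : e ∈ O
      · rw [Set.indicator_of_mem heO]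
        by_cases hY1 : e ∈ Y
        · by_cases hT1 : e ∈ T
          · rw [Set.indicator_of_mem (show e ∈ T ∪ E from Or.inl hT1)]
            have h1 : u' e ≤ S.w e := by
              rw [hu']
              unfold St.uw
              rw [Set.indicator_of_mem (show e ∈ (Y \ T)ᶜ from fun h => h.2 hT1)]
            linarith
          · have h1 : u' e = 0 := by
              rw [hu']
              exact St.uw_mem (show e ∈ Y \ T from ⟨hY1, hT1⟩)
            rw [h1]
            linarith
        · have h1 : u' e = S.w e := by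
            rw [hu']
            unfold St.uw
            rw [Set.indicator_of_mem (show e ∈ (Y \ T)ᶜ from fun h => hY1 h.1)]
          have h2 : u e = S.w e := by
            rw [hu]
            unfold St.uw
            rw [Set.indicator_of_mem (show e ∈ Yᶜ from hY1)]
          by_cases hse : sh e
          · obtain ⟨i, hi, x, y, hx, hy, hxy⟩ := hcase e heO hse
            have hmem : e ∈ E := by
              refine ⟨hY1, hse, i, hi, ?_⟩
              rcases hxy with ⟨h3, h4⟩ | ⟨h3, h4⟩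
              · exact ⟨x, y, hx, hy, h3, h4⟩
              · exact ⟨y, x, hy, hx, h4, h3⟩
            rw [Set.indicator_of_mem (show e ∈ T ∪ E from Or.inr hmem), h1]
            linarith
          · have h3 : θ2 ≤ S.fl Y e := not_lt.1 hse
            by_cases hl : S.fl Y e < θ1
            · rw [Set.indicator_of_mem (show e ∈ {d | θ2 ≤ S.fl Y d ∧ S.fl Y d < θ1} from ⟨h3, hl⟩),
                h1, h2]
              linarith
            · rw [Set.indicator_of_mem (show e ∈ O ∩ {e | θ1 ≤ cyc f u e} from ⟨heO, not_lt.1 hl⟩),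
                h1, h2]
              linarith
      · rw [Set.indicator_of_notMem heO]
        linarith
    calc cyc g u' d0 = ∑ e, Set.indicator O u' e := rfl
      _ ≤ ∑ e, (Set.indicator (O ∩ {e | θ1 ≤ cyc f u e}) u e +
        Set.indicator {d | θ2 ≤ S.fl Y d ∧ S.fl Y d < θ1} u e + Set.indicator (T ∪ E) S.w e) :=
          Finset.sum_le_sum fun e _ => hpt e
      _ = wt u (O ∩ {e | θ1 ≤ cyc f u e}) + wt u {d | θ2 ≤ S.fl Y d ∧ S.fl Y d < θ1} +
          wt S.w (T ∪ E) := by
          rw [Finset.sum_add_distrib, Finset.sum_add_distrib]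
          rfl
      _ ≤ τ := by linarith

end Pool.Agent.SWP
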