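import Pool.Agent.SWP.Mv

/-!
# Subdividing the letters of `Y`

MODULE SubA. `Zb S Y b`: there is a face of length zero with letters in the word of `b` and in the word of `a b`
(`ZProp S Y` says this for all `b ∈ Y`).

`sub1`: `S' = S.sub b`, `Y' = inl '' Y ∪ {inr true, inr false}`, `π = S.subP b`, `B' = π ⁻¹' B`. Write `b' = S.a b ≠ b`, `t = inr true`,
`g = inr false`, `f = S.face Y`, `f' = S'.face Y'`. Partner map of `S'`: `inl d ↦ inl (a d)`, `t ↔ g`. `S'.r (inl b) = t`,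
`S'.r t = J (r b)`, `S'.r g = inl b'`, `S'.r (inl d) = J (r d)` for `d ≠ b`, where `J d = if d = b' then g else inl d`.
(1) `{inl b', t}` is a cycle of `f'`: `f' (inl b') = S'.r (inl b) = t`, `f' t = S'.r g = inl b'`. Both letters are in `Y'`, so the face
has length 0.
(2) `f' (J d) = J (f d)` for all `d`: `d = b'`: `f' g = S'.r t = J (r b) = J (f b')`; `d = b`: `f' (inl b) = S'.r (inl b') = J (r b')` (`b' ≠ b`)
`= J (f b)`; `d ∈ Y` other: `f' (inl d) = S'.r (inl (a d)) = J (r (a d))` (`a d ≠ b`); `d ∉ Y`: `f' (inl d) = S'.r (inl d) = J (r d)` (`d ≠ b` because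
`b ∈ Y`). So `J` maps cycles of `f` onto cycles of `f'`, injectively, with `S'.uw Y' (J d) = S.uw Y d` (for `d = b'` both are 0). The
letters of `S'` are the `J d` and `inl b'`, `t`, which have `uw = 0`. Hence `S'.fl Y' (J d) = S.fl Y d` and `pot` is unchanged.
(3) `Zb` for `inl b`: faces letters `t` (in the word of `inl b`) and `inl b'`. For `inl b'`: `inl b'` and `t` (in the word of `inl b`). For
`t`: `t` and `inl b'` (in the word of `g`: `S'.r g = inl b'`). For `g`: `inl b'` and `t`.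
(4) If `Zb S Y e` with face letters `d1, d2` then `Zb S' Y' (inl e)` with `J d1, J d2`: `J d` is in the word of `inl d`, and
`S'.r.SameCycle (inl d) (inl e) ↔ S.r.SameCycle d e` (`St.sub_trace`, `Trace.same_old`).
(5) `Rfn`: `clean`: dead letters of `S'` are `inl d` with `d` dead, `r d = d`; `d ≠ b, b'`, so `S'.r (inl d) = inl d`. `cl`, `sub`: `r b ∈ B`,
`b' ∈ Y ⊆ B`. `inv`: `π (S'.r e)` is `π e` or `S.r (π e)`. `total`, `wY`, `wB`: the new letters have weight 0 (`wt S'.w B' = wt S.w B`). `len`: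
`St.sub_len`. `sw`: constructor `SW.sub`.

`subAll`: induct on the number of letters `b ∈ Y` with `¬ Zb S Y b` (`Set.ncard` or a `Finset` card). If there is one, `S.a b ≠ b`:
otherwise `r b = b` (`Clean`), the face of `b` is `{b}` of length 0 (`b ∈ Y`) and `d = e = b` show `Zb`. Apply `sub1`: by (3), (4)
the bad letters of `S'` are `inl e` with `e ≠ b` bad in `S`, fewer than before. Use `Rfn.trans` (`0 + 0`). If there is no bad
letter take `S' = S` (`Rfn` is reflexive with `δ = 0`; this needs only `Cl Y`, `Y ⊆ B`, the invariance of `B`).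
-/

set_option autoImplicit false

namespace Pool.Agent.SWP

open Equiv

/-- a face of length zero joins the words of `b` and its partner -/
def Zb (S : St) (Y : Set S.D) (b : S.D) : Prop :=
  ∃ d e, S.fl Y d = 0 ∧ (S.face Y).SameCycle d e ∧ S.r.SameCycle d b ∧ S.r.SameCycle e (S.a b)

theorem rfn_refl (S : St) (Y B : Set S.D) (hY : S.Cl Y) (hYB : Y ⊆ B) (hB : ∀ d, S.r d ∈ B ↔ d ∈ B) :
    Rfn S Y B S Y B 0 where
  clean := fun h => h
  cl := hY
  sub := hYB
  inv := hB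
  total := by linarith
  wY := le_refl _
  wB := by linarith
  len := fun _ h => h
  sw := fun _ _ h => h

namespace SubA

/-- a semiconjugation by an injective map preserves cycles -/
theorem same_semiconj {D D' : Type} [Finite D] [Finite D'] (J : D → D') (hJ : Function.Injective J) (f : Perm D)
    (f' : Perm D') (h : ∀ d, f' (J d) = J (f d)) (d e : D) :
    f'.SameCycle (J d) (J e) ↔ f.SameCycle d e := by
  have hp : ∀ (n : ℕ) (d : D), (f' ^ n) (J d) = J ((f ^ n) d) := by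
    intro n
    induction n with
    | zero => intro d; simp
    | succ n ih =>
      intro d
      rw [pow_succ', Perm.mul_apply, ih, h, pow_succ', Perm.mul_apply]
  constructor
  · intro h1
    obtain ⟨n, hn⟩ := h1.exists_nat_pow_eq
    rw [hp] at hn
    exact ⟨n, by rw [zpow_natCast]; exact hJ hn⟩
  · intro h1
    obtain ⟨n, hn⟩ := h1.exists_nat_pow_eq
    exact ⟨n, by rw [zpow_natCast, hp, hn]⟩

/-- the letters with `false` in place of `c` -/
noncomputable def J {D : Type} (c d : D) : D ⊕ Bool := sw (Sum.inl c) (Sum.inr false) (Sum.inl d)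

theorem J_self {D : Type} (c : D) : J c c = Sum.inr false := sw_left _ _

theorem J_ne {D : Type} {c d : D} (h : d ≠ c) : J c d = Sum.inl d :=
  sw_of_ne (by simpa using h) (by simp)

theorem J_inj {D : Type} (c : D) : Function.Injective (J c) := by
  intro x y h
  exact Sum.inl_injective ((sw (Sum.inl c : D ⊕ Bool) (Sum.inr false)).injective h)

/-- the new set of letters -/
def Yn {D : Type} (Y : Set D) : Set (D ⊕ Bool) := {x | Sum.elim (fun d => d ∈ Y) (fun _ => True) x}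

theorem Yn_inl {D : Type} {Y : Set D} {d : D} : (Sum.inl d : D ⊕ Bool) ∈ Yn Y ↔ d ∈ Y := Iff.rfl

theorem Yn_inr {D : Type} {Y : Set D} {c : Bool} : (Sum.inr c : D ⊕ Bool) ∈ Yn Y := trivial

/-- cycle weights do not change -/
theorem cyc_J {D : Type} [Fintype D] (f : Perm D) (f' : Perm (D ⊕ Bool)) (c : D) (h : ∀ d, f' (J c d) = J c (f d))
    (u : D → ℝ) (u' : D ⊕ Bool → ℝ) (hc : u c = 0) (h0 : ∀ x, u' (Sum.inr x) = 0) (h1 : ∀ d, u' (Sum.inl d) = u d)
    (d : D) : cyc f' u' (J c d) = cyc f u d := by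
  unfold cyc
  rw [Fintype.sum_sum_type, Fintype.sum_bool]
  have h2 : ∀ x : Bool, Set.indicator {e | f'.SameCycle (J c d) e} u' (Sum.inr x) = 0 := by
    intro x
    by_cases hx : (Sum.inr x : D ⊕ Bool) ∈ {e | f'.SameCycle (J c d) e}
    · rw [Set.indicator_of_mem hx]; exact h0 x
    · rw [Set.indicator_of_notMem hx]
  rw [h2, h2, add_zero, add_zero]
  refine Finset.sum_congr rfl fun e _ => ?_
  by_cases he : e = c
  · subst he
    rw [Set.indicator_apply_eq_zero.2 (fun _ => hc), Set.indicator_apply_eq_zero.2 (fun _ => (h1 e).trans hc)]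
  · have h3 : (Sum.inl e : D ⊕ Bool) ∈ {x | f'.SameCycle (J c d) x} ↔ e ∈ {x | f.SameCycle d x} := by
      have := same_semiconj (J c) (J_inj c) f f' h d e
      rw [J_ne he] at this
      exact this
    by_cases h4 : e ∈ {x | f.SameCycle d x}
    · rw [Set.indicator_of_mem h4, Set.indicator_of_mem (h3.2 h4), h1]
    · rw [Set.indicator_of_notMem h4, Set.indicator_of_notMem (fun h5 => h4 (h3.1 h5))]

/-- the potential does not change -/
theorem pot_J {D : Type} [Fintype D] (f : Perm D) (f' : Perm (D ⊕ Bool)) (c : D) (h : ∀ d, f' (J c d) = J c (f d))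
    (u : D → ℝ) (u' : D ⊕ Bool → ℝ) (hc : u c = 0) (h0 : ∀ x, u' (Sum.inr x) = 0) (h1 : ∀ d, u' (Sum.inl d) = u d) :
    pot f' u' = pot f u := by
  unfold pot
  rw [Fintype.sum_sum_type, Fintype.sum_bool, h0, h0, zero_mul, zero_mul, add_zero, add_zero]
  refine Finset.sum_congr rfl fun e _ => ?_
  by_cases he : e = c
  · subst he
    rw [h1, hc, zero_mul, zero_mul]
  · rw [h1, ← cyc_J f f' c h u u' hc h0 h1 e, J_ne he]

theorem wt_zero {D : Type} [Fintype D] (w : D → ℝ) (B : Set (D ⊕ Bool)) :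
    wt (Sum.elim w (fun _ => 0)) B = wt w (Sum.inl ⁻¹' B) := by
  rw [wt_sum_type]
  have h : ∀ x : Bool, Set.indicator B (Sum.elim w (fun _ => (0 : ℝ))) (Sum.inr x) = 0 := by
    intro x
    by_cases hx : (Sum.inr x : D ⊕ Bool) ∈ B
    · rw [Set.indicator_of_mem hx]; rfl
    · rw [Set.indicator_of_notMem hx]
  rw [h, h, add_zero, add_zero]
  rfl

/-- the letters `Y` of the subdivided state -/
def Y1 (S : St) (b : S.D) (Y : Set S.D) : Set (S.sub b).D := Yn Y

theorem a_inl (S : St) (b d : S.D) : (S.sub b).a (Sum.inl d : S.D ⊕ Bool) = (Sum.inl (S.a d) : S.D ⊕ Bool) := rfl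

theorem a_true (S : St) (b : S.D) : (S.sub b).a (Sum.inr true : S.D ⊕ Bool) = (Sum.inr false : S.D ⊕ Bool) := rfl

theorem a_false (S : St) (b : S.D) : (S.sub b).a (Sum.inr false : S.D ⊕ Bool) = (Sum.inr true : S.D ⊕ Bool) := rfl

theorem r_b (S : St) (b : S.D) : (S.sub b).r (Sum.inl b : S.D ⊕ Bool) = (Sum.inr true : S.D ⊕ Bool) :=
  subR_b S.r b (S.a b)

theorem r_true (S : St) (b : S.D) : (S.sub b).r (Sum.inr true : S.D ⊕ Bool) = J (S.a b) (S.r b) :=
  subR_true S.r b (S.a b)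

theorem r_false (S : St) (b : S.D) : (S.sub b).r (Sum.inr false : S.D ⊕ Bool) = (Sum.inl (S.a b) : S.D ⊕ Bool) :=
  subR_false S.r b (S.a b)

theorem r_inl (S : St) (b d : S.D) (h : d ≠ b) : (S.sub b).r (Sum.inl d : S.D ⊕ Bool) = J (S.a b) (S.r d) :=
  subR_inl S.r b (S.a b) d h

theorem cl1 (S : St) (b : S.D) (Y : Set S.D) (hY : S.Cl Y) : (S.sub b).Cl (Y1 S b Y) := by
  rintro (d | c) hd
  · exact hY d hd
  · exact trivial

theorem uw_inl (S : St) (b : S.D) (Y : Set S.D) (d : S.D) :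
    (S.sub b).uw (Y1 S b Y) (Sum.inl d : S.D ⊕ Bool) = S.uw Y d := by
  by_cases h : d ∈ Y
  · rw [St.uw_mem h]
    exact St.uw_mem (S := S.sub b) (Y := Y1 S b Y) (d := (Sum.inl d : S.D ⊕ Bool)) h
  · rw [St.uw_notMem h]
    exact St.uw_notMem (S := S.sub b) (Y := Y1 S b Y) (d := (Sum.inl d : S.D ⊕ Bool)) h

theorem uw_inr (S : St) (b : S.D) (Y : Set S.D) (c : Bool) :
    (S.sub b).uw (Y1 S b Y) (Sum.inr c : S.D ⊕ Bool) = 0 :=
  St.uw_mem (S := S.sub b) (Y := Y1 S b Y) (d := (Sum.inr c : S.D ⊕ Bool)) trivial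

/-- the digon -/
theorem face_c (S : St) (b : S.D) (Y : Set S.D) (hY : S.Cl Y) (hb : b ∈ Y) :
    (S.sub b).face (Y1 S b Y) (Sum.inl (S.a b) : S.D ⊕ Bool) = (Sum.inr true : S.D ⊕ Bool) := by
  have h := St.face_mem (S := S.sub b) (Y := Y1 S b Y) (cl1 S b Y hY) (d := (Sum.inl (S.a b) : S.D ⊕ Bool))
    (hY b hb)
  rw [h, a_inl, S.aa]
  exact r_b S b

theorem face_true (S : St) (b : S.D) (Y : Set S.D) (hY : S.Cl Y) :
    (S.sub b).face (Y1 S b Y) (Sum.inr true : S.D ⊕ Bool) = (Sum.inl (S.a b) : S.D ⊕ Bool) := by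
  have h := St.face_mem (S := S.sub b) (Y := Y1 S b Y) (cl1 S b Y hY) (d := (Sum.inr true : S.D ⊕ Bool)) trivial
  rw [h, a_true]
  exact r_false S b

theorem face_J (S : St) (b : S.D) (Y : Set S.D) (hY : S.Cl Y) (hb : b ∈ Y) (_hl : S.a b ≠ b) (d : S.D) :
    (S.sub b).face (Y1 S b Y) (J (S.a b) d) = J (S.a b) (S.face Y d) := by
  by_cases h1 : d = S.a b
  · subst h1
    rw [J_self, St.face_mem hY (hY b hb), S.aa]
    have h := St.face_mem (S := S.sub b) (Y := Y1 S b Y) (cl1 S b Y hY) (d := (Sum.inr false : S.D ⊕ Bool)) trivial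
    rw [h, a_false]
    exact r_true S b
  · rw [J_ne h1]
    by_cases h2 : d ∈ Y
    · rw [St.face_mem hY h2]
      have h := St.face_mem (S := S.sub b) (Y := Y1 S b Y) (cl1 S b Y hY) (d := (Sum.inl d : S.D ⊕ Bool)) h2
      rw [h, a_inl]
      exact r_inl S b (S.a d) (fun h3 => h1 (by rw [← h3, S.aa]))
    · rw [St.face_notMem h2]
      have h := St.face_notMem (S := S.sub b) (Y := Y1 S b Y) (d := (Sum.inl d : S.D ⊕ Bool)) h2
      rw [h]
      exact r_inl S b d (fun h3 => h2 (by rw [h3]; exact hb))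

theorem fl_J (S : St) (b : S.D) (Y : Set S.D) (hY : S.Cl Y) (hb : b ∈ Y) (hl : S.a b ≠ b) (d : S.D) :
    (S.sub b).fl (Y1 S b Y) (J (S.a b) d) = S.fl Y d :=
  cyc_J (S.face Y) ((S.sub b).face (Y1 S b Y)) (S.a b) (face_J S b Y hY hb hl) (S.uw Y)
    ((S.sub b).uw (Y1 S b Y)) (St.uw_mem (hY b hb)) (uw_inr S b Y) (uw_inl S b Y) d

theorem pot_sub (S : St) (b : S.D) (Y : Set S.D) (hY : S.Cl Y) (hb : b ∈ Y) (hl : S.a b ≠ b) :
    pot ((S.sub b).face (Y1 S b Y)) ((S.sub b).uw (Y1 S b Y)) = pot (S.face Y) (S.uw Y) :=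
  pot_J (S.face Y) ((S.sub b).face (Y1 S b Y)) (S.a b) (face_J S b Y hY hb hl) (S.uw Y)
    ((S.sub b).uw (Y1 S b Y)) (St.uw_mem (hY b hb)) (uw_inr S b Y) (uw_inl S b Y)

/-- a cycle inside a set of letters of weight zero -/
theorem cyc_zero {D : Type} [Fintype D] (f : Perm D) (u : D → ℝ) (Z : Set D) (hZ : ∀ x ∈ Z, f x ∈ Z)
    (hu : ∀ x ∈ Z, u x = 0) (d : D) (hd : d ∈ Z) : cyc f u d = 0 := by
  unfold cyc
  refine Finset.sum_eq_zero fun e _ => ?_
  rw [Set.indicator_apply_eq_zero]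
  intro he
  exact hu e (mem_of_same hZ hd he)

theorem digon_zero (S : St) (b : S.D) (Y : Set S.D) (hY : S.Cl Y) (hb : b ∈ Y) (x : (S.sub b).D)
    (hx : x ∈ ({x | x = Sum.inl (S.a b) ∨ x = Sum.inr true} : Set (S.D ⊕ Bool))) :
    (S.sub b).fl (Y1 S b Y) x = 0 := by
  refine cyc_zero ((S.sub b).face (Y1 S b Y)) ((S.sub b).uw (Y1 S b Y))
    ({x | x = Sum.inl (S.a b) ∨ x = Sum.inr true} : Set (S.D ⊕ Bool)) ?_ ?_ x hx
  · rintro y (rfl | rfl)
    · right
      exact face_c S b Y hY hb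
    · left
      exact face_true S b Y hY
  · rintro y (rfl | rfl)
    · exact (uw_inl S b Y (S.a b)).trans (St.uw_mem (hY b hb))
    · exact uw_inr S b Y true

theorem same_step {D : Type} (f : Perm D) {x y : D} (h : f x = y) : f.SameCycle x y := by
  rw [← h]
  exact Equiv.Perm.sameCycle_apply_right.2 (Equiv.Perm.SameCycle.refl _ _)

theorem J_word (S : St) (b d : S.D) : (S.sub b).r.SameCycle (J (S.a b) d) (Sum.inl d : S.D ⊕ Bool) := by
  by_cases h : d = S.a b
  · subst h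
    rw [J_self]
    exact same_step (S.sub b).r (r_false S b)
  · exact ⟨0, J_ne h⟩

theorem zb_inl (S : St) (b : S.D) (Y : Set S.D) (hY : S.Cl Y) (hb : b ∈ Y) (hl : S.a b ≠ b) (e : S.D)
    (h : Zb S Y e) : Zb (S.sub b) (Y1 S b Y) (Sum.inl e : S.D ⊕ Bool) := by
  obtain ⟨d1, d2, h1, h2, h3, h4⟩ := h
  refine ⟨J (S.a b) d1, J (S.a b) d2, ?_, ?_, ?_, ?_⟩
  · rw [fl_J S b Y hY hb hl]
    exact h1
  · exact (same_semiconj (J (S.a b)) (J_inj _) (S.face Y) ((S.sub b).face (Y1 S b Y)) (face_J S b Y hY hb hl)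
      d1 d2).2 h2
  · exact (J_word S b d1).trans (((S.sub_trace b).same_old d1 e).2 h3)
  · exact (J_word S b d2).trans (((S.sub_trace b).same_old d2 (S.a e)).2 h4)

theorem zb_new (S : St) (b : S.D) (Y : Set S.D) (hY : S.Cl Y) (hb : b ∈ Y) (x : (S.sub b).D)
    (h : (S.sub b).r.SameCycle (Sum.inr true : S.D ⊕ Bool) x)
    (h' : (S.sub b).r.SameCycle (Sum.inl (S.a b) : S.D ⊕ Bool) ((S.sub b).a x)) :
    Zb (S.sub b) (Y1 S b Y) x :=
  ⟨(Sum.inr true : S.D ⊕ Bool), (Sum.inl (S.a b) : S.D ⊕ Bool), digon_zero S b Y hY hb _ (Or.inr rfl),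
    same_step _ (face_true S b Y hY), h, h'⟩

theorem zb_new' (S : St) (b : S.D) (Y : Set S.D) (hY : S.Cl Y) (hb : b ∈ Y) (x : (S.sub b).D)
    (h : (S.sub b).r.SameCycle (Sum.inl (S.a b) : S.D ⊕ Bool) x)
    (h' : (S.sub b).r.SameCycle (Sum.inr true : S.D ⊕ Bool) ((S.sub b).a x)) :
    Zb (S.sub b) (Y1 S b Y) x :=
  ⟨(Sum.inl (S.a b) : S.D ⊕ Bool), (Sum.inr true : S.D ⊕ Bool), digon_zero S b Y hY hb _ (Or.inl rfl),
    same_step _ (face_c S b Y hY hb), h, h'⟩

end SubA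

open SubA in
theorem sub1 (S : St) (Y B : Set S.D) (hY : S.Cl Y) (hYB : Y ⊆ B) (hB : ∀ d, S.r d ∈ B ↔ d ∈ B)
    (b : S.D) (hb : b ∈ Y) (hl : S.a b ≠ b) :
    ∃ (Y' B' : Set (S.sub b).D), Rfn S Y B (S.sub b) Y' B' 0 ∧
      pot ((S.sub b).face Y') ((S.sub b).uw Y') = pot (S.face Y) (S.uw Y) ∧
      ∀ e ∈ Y', ¬ Zb (S.sub b) Y' e → ∃ d ∈ Y, d ≠ b ∧ ¬ Zb S Y d ∧ e = Sum.inl d := by
  refine ⟨Y1 S b Y, (S.subP b) ⁻¹' B, ?_, pot_sub S b Y hY hb hl, ?_⟩
  · refine ⟨?_, cl1 S b Y hY, ?_, ?_, ?_, ?_, ?_, ?_, ?_⟩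
    · -- clean
      intro hc
      rintro (d | c) hd
      · have h1 : S.a d = d := Sum.inl_injective hd
        have h2 : d ≠ b := by
          rintro rfl
          exact hl h1
        have h3 : d ≠ S.a b := by
          rintro rfl
          rw [S.aa] at h1
          exact hl h1.symm
        have h4 := r_inl S b d h2
        rw [hc d h1, J_ne h3] at h4
        exact h4
      · exfalso
        have h1 : (Sum.inr (!c) : S.D ⊕ Bool) = Sum.inr c := hd
        have h2 : (!c) = c := Sum.inr_injective h1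
        cases c <;> simp at h2
    · -- sub
      rintro (d | c) hd
      · exact hYB hd
      · cases c
        · exact hYB (hY b hb)
        · exact (hB b).2 (hYB hb)
    · -- inv
      rintro (d | c)
      · have h1 := (S.sub_trace b).old d
        exact (iff_of_eq (congrArg (fun t => t ∈ B) h1)).trans (hB d)
      · have h1 := (S.sub_trace b).new (Sum.inr c : S.D ⊕ Bool) (fun d => Sum.inl_ne_inr)
        exact iff_of_eq (congrArg (fun t => t ∈ B) h1)
    · -- total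
      have h1 : (S.sub b).total = S.total := by
        show ∑ x : S.D ⊕ Bool, (Sum.elim S.w (fun _ => (0 : ℝ))) x = ∑ d, S.w d
        rw [Fintype.sum_sum_type]
        simp
      rw [h1, add_zero]
    · -- wY
      have h1 : wt (S.sub b).w (Y1 S b Y) = wt S.w Y := wt_zero S.w (Yn Y)
      rw [h1]
    · -- wB
      have h1 : wt (S.sub b).w ((S.subP b) ⁻¹' B) = wt S.w B := wt_zero S.w ((S.subP b) ⁻¹' B)
      rw [h1, add_zero]
    · intro c hc d
      exact S.sub_len b c hc d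
    · intro L _ h
      exact SW.sub S b hl h
  · rintro (d | c) hd hz
    · refine ⟨d, hd, ?_, fun h => hz (zb_inl S b Y hY hb hl d h), rfl⟩
      rintro rfl
      refine hz (zb_new S d Y hY hb _ ?_ ?_)
      · exact (same_step (S.sub d).r (r_b S d)).symm
      · exact Equiv.Perm.SameCycle.refl _ _
    · exfalso
      cases c
      · refine hz (zb_new' S b Y hY hb _ ?_ ?_)
        · exact (same_step (S.sub b).r (r_false S b)).symm
        · exact Equiv.Perm.SameCycle.refl _ _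
      · refine hz (zb_new S b Y hY hb _ ?_ ?_)
        · exact Equiv.Perm.SameCycle.refl _ _
        · exact (same_step (S.sub b).r (r_false S b)).symm

open SubA in
theorem subAll_aux (n : ℕ) : ∀ (S : St) (Y B : Set S.D), S.Clean → S.Cl Y → Y ⊆ B → (∀ d, S.r d ∈ B ↔ d ∈ B) →
    {b | b ∈ Y ∧ ¬ Zb S Y b}.ncard ≤ n →
    ∃ (S' : St) (Y' B' : Set S'.D), Rfn S Y B S' Y' B' 0 ∧
      pot (S'.face Y') (S'.uw Y') = pot (S.face Y) (S.uw Y) ∧ ZProp S' Y' := by
  induction n with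
  | zero =>
    intro S Y B _ hY hYB hB hn
    refine ⟨S, Y, B, rfn_refl S Y B hY hYB hB, rfl, ?_⟩
    intro b hb
    have h0 : {b | b ∈ Y ∧ ¬ Zb S Y b} = (∅ : Set S.D) :=
      (Set.ncard_eq_zero (Set.toFinite _)).1 (Nat.le_zero.1 hn)
    by_contra h
    have h1 : b ∈ {b | b ∈ Y ∧ ¬ Zb S Y b} := ⟨hb, h⟩
    rw [h0] at h1
    exact h1
  | succ n ih =>
    intro S Y B hS hY hYB hB hn
    by_cases hex : ∃ b, b ∈ Y ∧ ¬ Zb S Y b
    · obtain ⟨b, hb, hz⟩ := hex
      have hl : S.a b ≠ b := by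
        intro h1
        have h2 : S.r b = b := hS b h1
        apply hz
        have h3 : S.face Y b = b := by rw [St.face_mem hY hb, h1, h2]
        refine ⟨b, b, ?_, Equiv.Perm.SameCycle.refl _ _, Equiv.Perm.SameCycle.refl _ _, ?_⟩
        · refine cyc_zero (S.face Y) (S.uw Y) {b} ?_ ?_ b rfl
          · intro x hx
            rw [Set.mem_singleton_iff] at hx
            rw [hx]
            exact h3
          · intro x hx
            rw [Set.mem_singleton_iff] at hx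
            rw [hx]
            exact St.uw_mem hb
        · rw [h1]
      obtain ⟨Y1, B1, hR, hp, hbad⟩ := sub1 S Y B hY hYB hB b hb hl
      have hcard : {e | e ∈ Y1 ∧ ¬ Zb (S.sub b) Y1 e}.ncard ≤ n := by
        have h1 : {e | e ∈ Y1 ∧ ¬ Zb (S.sub b) Y1 e} ⊆
            (Sum.inl : S.D → (S.sub b).D) '' ({b | b ∈ Y ∧ ¬ Zb S Y b} \ {b}) := by
          rintro e ⟨he1, he2⟩
          obtain ⟨d, hd, hdb, hdz, hed⟩ := hbad e he1 he2
          exact ⟨d, ⟨⟨hd, hdz⟩, hdb⟩, hed.symm⟩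
        have h2 := Set.ncard_le_ncard h1 (Set.toFinite _)
        have h3 : ((Sum.inl : S.D → (S.sub b).D) '' ({b | b ∈ Y ∧ ¬ Zb S Y b} \ {b})).ncard ≤
            ({b | b ∈ Y ∧ ¬ Zb S Y b} \ {b}).ncard := Set.ncard_image_le (Set.toFinite _)
        have h4 : ({b | b ∈ Y ∧ ¬ Zb S Y b} \ {b}).ncard < {b | b ∈ Y ∧ ¬ Zb S Y b}.ncard :=
          Set.ncard_sdiff_singleton_lt_of_mem (show b ∈ {b | b ∈ Y ∧ ¬ Zb S Y b} from ⟨hb, hz⟩) (Set.toFinite _)
        exact Nat.le_of_lt_succ (lt_of_le_of_lt (h2.trans h3) (lt_of_lt_of_le h4 hn))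
      obtain ⟨S', Y', B', hR', hp', hZ'⟩ := ih (S.sub b) Y1 B1 (hR.clean hS) hR.cl hR.sub hR.inv hcard
      refine ⟨S', Y', B', ?_, hp'.trans hp, hZ'⟩
      have h := hR.trans hR'
      rw [add_zero] at h
      exact h
    · refine ⟨S, Y, B, rfn_refl S Y B hY hYB hB, rfl, ?_⟩
      intro b hb
      by_contra h
      exact hex ⟨b, hb, h⟩

theorem subAll (S : St) (Y B : Set S.D) (hS : S.Clean) (hY : S.Cl Y) (hYB : Y ⊆ B) (hB : ∀ d, S.r d ∈ B ↔ d ∈ B) :
    ∃ (S' : St) (Y' B' : Set S'.D), Rfn S Y B S' Y' B' 0 ∧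
      pot (S'.face Y') (S'.uw Y') = pot (S.face Y) (S.uw Y) ∧ ZProp S' Y' :=
  subAll_aux _ S Y B hS hY hYB hB (le_refl _)

end Pool.Agent.SWP
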