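import Pool.Agent.SWP.StepA
import Pool.Agent.SWP.StepB
import Pool.Agent.SWP.SubA
import Pool.Agent.SWP.Scl

/-!
# The top chop lemma

MODULE Tcl. Let `I, t, ρ, K, Km, ρ0, κ0` be as in `scales τ`.

`tcl_aux`: for fixed `M > 0`, `0 < κ ≤ κ0`, induct on `q`: for every clean state `S` with `Y ⊆ B` (`Cl Y`, `B` invariant), all word
lengths at most `κ M`, `pot (S.face Y) (S.uw Y) ≤ q * (ρ0 * M) ^ 2` and `S.total + q * ((Km + 1) * (κ * M)) ≤ 2 * M` the conclusion holds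
with `δ = q * ((Km + 1) * (κ * M))`. Proof: first `subAll`: `S1, Y1, B1` with `ZProp`, the same potential, `Rfn .. 0`. For `i < I` let
`μ i = wt (S1.uw Y1) {d | t (i+1) * M ≤ fl d ∧ fl d < t i * M}`. These sets are disjoint for different `i` (`t` decreases), so
`∑ i < I, μ i ≤ ∑ uw ≤ S1.total ≤ 2 M`, and some `i < I` has `μ i ≤ 2 M / I ≤ τ M / 4` (`8 ≤ τ I`). Put
`θ1 = t i * M`, `θ2 = t (i+1) * M`, `ρ = ρ i * M`, `K = K i`.
Case A: there are `x, y` violating `hA` of `stepB`, i.e. `θ1 ≤ fl x`, etc. and `Nb .. K x y`. If `q = 0`, `stepA` gives a state with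
`pot ≤ 0 - ρ^2 < 0`, contradicting `pot_nonneg`. If `q = q' + 1`: `stepA` (with `κ := κ M`, `θ := θ2`; the length bound by `Rfn.len`;
`K θ2 + (K+1) κ M ≤ ρ / 4` from `scales` times `M`, `κ ≤ κ0`) gives `S2, Y2, B2` with
`Rfn S1 .. S2 .. ((K+1) κ M)` and `pot ≤ q (ρ0 M)^2 - ρ^2 ≤ q' (ρ0 M)^2`. Apply the induction hypothesis to `S2`
(`S2.total + q' .. ≤ S1.total + (K+1) κ M + q' .. ≤ 2 M`), compose the refinements and enlarge `δ` (`K ≤ Km`; `Rfn.mono`).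
Case B: otherwise `stepB` with `τ := τ M` applied to `S1, Y1` gives `T`; take `S' = S1` etc., enlarge `δ` from `0`. The hypotheses:
`S1.w d ≤ S1.len d ≤ κ M ≤ ρ`; `hlong`: `16 M (ρ i M) / (t i M) = M (16 ρ i / t i) ≤ τ M / 4`;
`hcut`: `8 M^2 / (ρ i M K) = M (8 / (ρ i K)) ≤ τ M / 4`; `θ2 ≤ θ1 ≤ t 0 M ≤ τ M` (`t` is antitone).

`tcl`: choose `q` with `q ρ0^2 ≥ 1` and `κ ≤ κ0, τ` with `q (Km + 1) κ ≤ τ`. Since `S.total ≤ M`, `pot ≤ (∑ uw)^2 ≤ M^2 ≤ q (ρ0 M)^2`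
(`pot_le`), and `S.total + q (Km+1) κ M ≤ M + τ M ≤ 2 M`.
-/

set_option autoImplicit false

namespace Pool.Agent.SWP

open Equiv

theorem Rfn.mono {S : St} {Y B : Set S.D} {S' : St} {Y' B' : Set S'.D} {δ δ' : ℝ}
    (h : Rfn S Y B S' Y' B' δ) (hδ : δ ≤ δ') : Rfn S Y B S' Y' B' δ' where
  clean := h.clean
  cl := h.cl
  sub := h.sub
  inv := h.inv
  total := h.total.trans (by linarith)
  wY := h.wY
  wB := h.wB.trans (by linarith)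
  len := h.len
  sw := h.sw

/-- the conclusion of the top chop lemma with refinement weight `δ` and target `τ` -/
def TopChop (S : St) (Y B : Set S.D) (δ τ : ℝ) : Prop :=
  ∃ (S' : St) (Y' B' T : Set S'.D), Rfn S Y B S' Y' B' δ ∧ T ⊆ Y' ∧ S'.Cl T ∧ wt S'.w T ≤ τ ∧
    ∀ d, cyc (S'.r * S'.beta (Y' \ T)) (S'.uw (Y' \ T)) d ≤ τ

theorem tcl_sum {D : Type} [Fintype D] {u fl : D → ℝ} (hu : ∀ d, 0 ≤ u d) (c : ℕ → ℝ)
    (hc : ∀ i, c (i + 1) ≤ c i) (n : ℕ) :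
    ∑ i ∈ Finset.range n, wt u {d | c (i + 1) ≤ fl d ∧ fl d < c i} ≤ wt u {d | c n ≤ fl d} := by
  induction n with
  | zero =>
    rw [Finset.sum_range_zero]
    exact wt_nonneg hu _
  | succ n ih =>
    rw [Finset.sum_range_succ]
    have hd : Disjoint {d | c n ≤ fl d} {d | c (n + 1) ≤ fl d ∧ fl d < c n} := by
      rw [Set.disjoint_left]
      intro d h1 h2
      exact absurd h2.2 (not_lt.2 h1)
    have h := wt_disj (u := u) hd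
    have h2 : wt u ({d | c n ≤ fl d} ∪ {d | c (n + 1) ≤ fl d ∧ fl d < c n}) ≤
        wt u {d | c (n + 1) ≤ fl d} := by
      refine wt_mono hu ?_
      rintro d (h3 | h3)
      · exact (hc n).trans h3
      · exact h3.1
    linarith

theorem tcl_step (τ : ℝ) (h0 : 0 < τ) (h1 : τ ≤ 1) (I : ℕ) (t ρ : ℕ → ℝ) (K : ℕ → ℕ) (Km : ℕ) (ρ0 κ0 : ℝ)
    (hI : 0 < I) (hI8 : 8 ≤ τ * I) (hρ0 : 0 < ρ0) (hκ0 : 0 < κ0) (ht0 : t 0 ≤ τ)
    (ht : ∀ i, 0 < t (i + 1) ∧ t (i + 1) ≤ t i)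
    (hi : ∀ i < I, 0 < K i ∧ K i ≤ Km ∧ ρ0 ≤ ρ i ∧ κ0 ≤ ρ i ∧ ρ i ≤ t i ∧ 16 * ρ i / t i ≤ τ / 4 ∧
        8 / (ρ i * K i) ≤ τ / 4 ∧ K i * t (i + 1) + (K i + 1) * κ0 ≤ ρ i / 4)
    (M κ : ℝ) (hM : 0 < M) (hκ : 0 < κ) (hκκ : κ ≤ κ0) (q : ℕ) (S : St) (Y B : Set S.D)
    (S1 : St) (Y1 B1 : Set S1.D) (hS : S.Clean)
    (hlen : ∀ d, S.len d ≤ κ * M)
    (hpot : pot (S.face Y) (S.uw Y) ≤ q * (ρ0 * M) ^ 2)
    (htot : S.total + q * ((Km + 1) * (κ * M)) ≤ 2 * M)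
    (hR : Rfn S Y B S1 Y1 B1 0) (hp1 : pot (S1.face Y1) (S1.uw Y1) = pot (S.face Y) (S.uw Y))
    (hZ : ZProp S1 Y1)
    (ih : ∀ q' : ℕ, q = q' + 1 → ∀ (S : St) (Y B : Set S.D), S.Clean → S.Cl Y →
      Y ⊆ B → (∀ d, S.r d ∈ B ↔ d ∈ B) → (∀ d, S.len d ≤ κ * M) →
      pot (S.face Y) (S.uw Y) ≤ q' * (ρ0 * M) ^ 2 →
      S.total + q' * ((Km + 1) * (κ * M)) ≤ 2 * M →
      TopChop S Y B (q' * ((Km + 1) * (κ * M))) (τ * M)) :
    TopChop S Y B (q * ((Km + 1) * (κ * M))) (τ * M) := by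
  have hc1 := hR.clean hS
  have hl1 := hR.len (κ * M) hlen
  have ht1 := hR.total
  have hκM : 0 < κ * M := mul_pos hκ hM
  have hq0 : 0 ≤ (q : ℝ) * ((Km + 1) * (κ * M)) := by positivity
  have htM : S1.total ≤ 2 * M := by linarith
  -- the index
  obtain ⟨i, hiI, hmed⟩ : ∃ i < I, wt (S1.uw Y1) {d | t (i + 1) * M ≤ S1.fl Y1 d ∧ S1.fl Y1 d < t i * M} ≤
      τ * M / 4 := by
    by_contra hcon
    push Not at hcon
    have hs := tcl_sum (u := S1.uw Y1) (fl := S1.fl Y1) (fun d => St.uw_nonneg d) (fun i => t i * M)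
      (fun i => mul_le_mul_of_nonneg_right (ht i).2 hM.le) I
    have hs2 : wt (S1.uw Y1) {d | t I * M ≤ S1.fl Y1 d} ≤ ∑ d, S1.uw Y1 d :=
      wt_le_sum (fun d => St.uw_nonneg d) _
    have hs3 := St.sum_uw (S := S1) (Y := Y1)
    have hs4 : 0 ≤ wt S1.w Y1 := wt_nonneg S1.wnn _
    have hs5 : ∑ i ∈ Finset.range I, τ * M / 4 <
        ∑ i ∈ Finset.range I, wt (S1.uw Y1) {d | t (i + 1) * M ≤ S1.fl Y1 d ∧ S1.fl Y1 d < t i * M} :=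
      Finset.sum_lt_sum_of_nonempty (Finset.nonempty_range_iff.2 hI.ne')
        (fun i hi' => hcon i (Finset.mem_range.1 hi'))
    rw [Finset.sum_const, Finset.card_range, nsmul_eq_mul] at hs5
    have hs6 : 8 * M ≤ τ * I * M := mul_le_mul_of_nonneg_right hI8 hM.le
    nlinarith
  obtain ⟨hK0, hKm, hρi, hκρ, hρt, h16, h8, hKt⟩ := hi i hiI
  have hρpos : 0 < ρ i := hρ0.trans_le hρi
  have htpos : 0 < t i := (ht i).1.trans_le (ht i).2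
  have hK0' : (0 : ℝ) < K i := Nat.cast_pos.2 hK0
  have hKm' : (K i : ℝ) ≤ Km := Nat.cast_le.2 hKm
  have h12 : t (i + 1) * M ≤ t i * M := mul_le_mul_of_nonneg_right (ht i).2 hM.le
  by_cases hA : ∀ x y, t i * M ≤ S1.fl Y1 x → (S1.face Y1).SameCycle x y →
      ρ i * M ≤ arcw (S1.face Y1) (S1.uw Y1) x y → ρ i * M ≤ arcw (S1.face Y1) (S1.uw Y1) y x →
      ¬ Nb S1.r (S1.face Y1) (fun d => S1.fl Y1 d < t (i + 1) * M) (K i) x y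
  · -- case B
    have htt : ∀ j, t j ≤ t 0 := by
      intro j
      induction j with
      | zero => exact le_rfl
      | succ j ihj => exact (ht j).2.trans ihj
    obtain ⟨T, hT1, hT2, hT3, hT4⟩ := stepB S1 Y1 hR.cl hZ M (τ * M) (t i * M) (t (i + 1) * M) (ρ i * M)
      (K i) htM hM (mul_pos h0 hM) (mul_pos hρpos hM) hK0
      (fun d => (St.w_le_len d).trans ((hl1 d).trans
        (mul_le_mul_of_nonneg_right (hκκ.trans hκρ) hM.le)))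
      (mul_le_mul_of_nonneg_right hρt hM.le) (mul_pos (ht i).1 hM) h12
      (mul_le_mul_of_nonneg_right (((ht i).2.trans (htt i)).trans ht0) hM.le) hmed
      (by
        have e : 16 * M * (ρ i * M) / (t i * M) = (16 * ρ i / t i) * M := by
          field_simp
        rw [e]
        nlinarith)
      (by
        have e : 8 * M ^ 2 / (ρ i * M * K i) = (8 / (ρ i * K i)) * M := by
          field_simp
        rw [e]
        nlinarith)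
      hA
    exact ⟨S1, Y1, B1, T, hR.mono hq0, hT1, hT2, hT3, hT4⟩
  · push Not at hA
    obtain ⟨x, y, hx, hxy, ha1, ha2, hNb⟩ := hA
    obtain ⟨S2, Y2, B2, hR2, hp2⟩ := stepA S1 Y1 B1 hc1 hR.cl hR.sub hR.inv (κ * M) (t (i + 1) * M)
      (ρ i * M) (K i) hl1 hκM.le (mul_pos (ht i).1 hM).le (mul_pos hρpos hM)
      (by
        have h5 : (K i * t (i + 1) + (K i + 1) * κ0) * M ≤ ρ i / 4 * M :=
          mul_le_mul_of_nonneg_right hKt hM.le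
        have h6 : ((K i : ℝ) + 1) * (κ * M) ≤ (K i + 1) * (κ0 * M) :=
          mul_le_mul_of_nonneg_left (mul_le_mul_of_nonneg_right hκκ hM.le) (by positivity)
        nlinarith)
      x y (h12.trans hx) hxy ha1 ha2 hNb
    have hsq : (ρ0 * M) ^ 2 ≤ (ρ i * M) ^ 2 :=
      pow_le_pow_left₀ (mul_pos hρ0 hM).le (mul_le_mul_of_nonneg_right hρi hM.le) 2
    have hsq0 : 0 < (ρ0 * M) ^ 2 := pow_pos (mul_pos hρ0 hM) 2
    have hpn : 0 ≤ pot (S2.face Y2) (S2.uw Y2) := pot_nonneg (fun d => St.uw_nonneg d)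
    rcases q with _ | q'
    · exfalso
      rw [Nat.cast_zero, zero_mul] at hpot
      linarith
    · push_cast at hpot htot hq0 ⊢
      have hKK : ((K i : ℝ) + 1) * (κ * M) ≤ (Km + 1) * (κ * M) :=
        mul_le_mul_of_nonneg_right (by linarith) hκM.le
      have ht2 := hR2.total
      obtain ⟨S3, Y3, B3, T, hR3, hT1, hT2, hT3, hT4⟩ := ih q' rfl S2 Y2 B2 (hR2.clean hc1) hR2.cl
        hR2.sub hR2.inv (hR2.len (κ * M) hl1) (by linarith) (by linarith)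
      exact ⟨S3, Y3, B3, T, (hR.trans (hR2.trans hR3)).mono (by linarith), hT1, hT2, hT3, hT4⟩

theorem tcl_aux (τ : ℝ) (h0 : 0 < τ) (h1 : τ ≤ 1) (I : ℕ) (t ρ : ℕ → ℝ) (K : ℕ → ℕ) (Km : ℕ) (ρ0 κ0 : ℝ)
    (hI : 0 < I) (hI8 : 8 ≤ τ * I) (hρ0 : 0 < ρ0) (hκ0 : 0 < κ0) (ht0 : t 0 ≤ τ)
    (ht : ∀ i, 0 < t (i + 1) ∧ t (i + 1) ≤ t i)
    (hi : ∀ i < I, 0 < K i ∧ K i ≤ Km ∧ ρ0 ≤ ρ i ∧ κ0 ≤ ρ i ∧ ρ i ≤ t i ∧ 16 * ρ i / t i ≤ τ / 4 ∧
        8 / (ρ i * K i) ≤ τ / 4 ∧ K i * t (i + 1) + (K i + 1) * κ0 ≤ ρ i / 4)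
    (M κ : ℝ) (hM : 0 < M) (hκ : 0 < κ) (hκκ : κ ≤ κ0) (q : ℕ) (S : St) (Y B : Set S.D) (hS : S.Clean) (hY : S.Cl Y)
    (hYB : Y ⊆ B) (hB : ∀ d, S.r d ∈ B ↔ d ∈ B) (hlen : ∀ d, S.len d ≤ κ * M)
    (hpot : pot (S.face Y) (S.uw Y) ≤ q * (ρ0 * M) ^ 2)
    (htot : S.total + q * ((Km + 1) * (κ * M)) ≤ 2 * M) :
    TopChop S Y B (q * ((Km + 1) * (κ * M))) (τ * M) := by
  induction q generalizing S Y B with
  | zero =>
    obtain ⟨S1, Y1, B1, hR, hp1, hZ⟩ := subAll S Y B hS hY hYB hB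
    exact tcl_step τ h0 h1 I t ρ K Km ρ0 κ0 hI hI8 hρ0 hκ0 ht0 ht hi M κ hM hκ hκκ 0 S Y B S1 Y1 B1 hS
      hlen hpot htot hR hp1 hZ (fun q' hq => absurd hq (by omega))
  | succ q ih =>
    obtain ⟨S1, Y1, B1, hR, hp1, hZ⟩ := subAll S Y B hS hY hYB hB
    refine tcl_step τ h0 h1 I t ρ K Km ρ0 κ0 hI hI8 hρ0 hκ0 ht0 ht hi M κ hM hκ hκκ (q + 1) S Y B S1 Y1 B1
      hS hlen hpot htot hR hp1 hZ ?_
    intro q' hq S2 Y2 B2 h2a h2b h2c h2d h2e h2f h2g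
    have hqq : q' = q := by omega
    subst hqq
    exact ih S2 Y2 B2 h2a h2b h2c h2d h2e h2f h2g

theorem tcl (τ : ℝ) (h0 : 0 < τ) (h1 : τ ≤ 1) : ∃ κ : ℝ, 0 < κ ∧ κ ≤ τ ∧ ∀ (M : ℝ), 0 < M →
    ∀ (S : St) (Y B : Set S.D), S.Clean → S.Cl Y → Y ⊆ B → (∀ d, S.r d ∈ B ↔ d ∈ B) → S.total ≤ M →
      (∀ d, S.len d ≤ κ * M) → TopChop S Y B (τ * M) (τ * M) := by
  obtain ⟨I, t, ρ, K, Km, ρ0, κ0, hI, hI8, hρ0, hκ0, ht0, ht, hi⟩ := scales τ h0 h1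
  obtain ⟨q, hq⟩ := exists_nat_ge (1 / ρ0 ^ 2)
  have hq1 : 1 ≤ (q : ℝ) * ρ0 ^ 2 := by
    rw [div_le_iff₀ (pow_pos hρ0 2)] at hq
    exact hq
  set c : ℝ := (q : ℝ) * (Km + 1) + 1 with hc
  have hc0 : 0 ≤ (q : ℝ) * (Km + 1) := by positivity
  have hc1 : 1 ≤ c := by rw [hc]; linarith
  have hcp : 0 < c := one_pos.trans_le hc1
  refine ⟨min κ0 (τ / c), lt_min hκ0 (div_pos h0 hcp), ?_, ?_⟩
  · refine (min_le_right _ _).trans ?_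
    rw [div_le_iff₀ hcp]
    nlinarith
  · intro M hM S Y B hS hY hYB hB htot hlen
    set κ : ℝ := min κ0 (τ / c) with hκdef
    have hκ : 0 < κ := lt_min hκ0 (div_pos h0 hcp)
    have hκc : (q : ℝ) * (Km + 1) * κ ≤ τ := by
      have h2 : κ ≤ τ / c := min_le_right _ _
      rw [le_div_iff₀ hcp] at h2
      have h3 : κ * c = (q : ℝ) * (Km + 1) * κ + κ := by rw [hc]; ring
      linarith
    have hκcM : (q : ℝ) * ((Km + 1) * (κ * M)) ≤ τ * M := by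
      have h3 : (q : ℝ) * ((Km + 1) * (κ * M)) = (q : ℝ) * (Km + 1) * κ * M := by ring
      rw [h3]
      exact mul_le_mul_of_nonneg_right hκc hM.le
    have hsum : ∑ d, S.uw Y d ≤ M := by
      have h2 := St.sum_uw (S := S) (Y := Y)
      have h3 : 0 ≤ wt S.w Y := wt_nonneg S.wnn _
      linarith
    have hsum0 : 0 ≤ ∑ d, S.uw Y d := Finset.sum_nonneg (fun d _ => St.uw_nonneg d)
    have hτM : τ * M ≤ M := by nlinarith
    have hpot : pot (S.face Y) (S.uw Y) ≤ q * (ρ0 * M) ^ 2 := by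
      have h2 : pot (S.face Y) (S.uw Y) ≤ (∑ d, S.uw Y d) ^ 2 := pot_le (fun d => St.uw_nonneg d)
      have h3 : (∑ d, S.uw Y d) ^ 2 ≤ M ^ 2 := pow_le_pow_left₀ hsum0 hsum 2
      have h4 : (q : ℝ) * (ρ0 * M) ^ 2 = q * ρ0 ^ 2 * M ^ 2 := by ring
      have h5 : 1 * M ^ 2 ≤ q * ρ0 ^ 2 * M ^ 2 := mul_le_mul_of_nonneg_right hq1 (sq_nonneg M)
      rw [h4]
      linarith
    obtain ⟨S', Y', B', T, hR, hT⟩ := tcl_aux τ h0 h1 I t ρ K Km ρ0 κ0 hI hI8 hρ0 hκ0 ht0 ht hi M κ hM hκ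
      (min_le_left _ _) q S Y B hS hY hYB hB hlen hpot (by linarith)
    exact ⟨S', Y', B', T, hR.mono hκcM, hT⟩

end Pool.Agent.SWP
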