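import Pool.Agent.SWP.Cy

/-!
# First return maps

MODULE Tr. `Trace j π s' s`: `j : D → D'` is the inclusion of the old letters, `s` is the first return map of `s'` to the
old letters and `π d'` is the first old letter at or after `d'` on the cycle of `d'`:
`π (j d) = d`; `π (s' d') = π d'` for every new letter `d'`; `π (s' (j d)) = s d`; every forward orbit meets the old letters.

`same`: from left to right: `π (s' d')` is `π d'` (new letters) or `s (π d')` (old letters, `d' = j (π d')`), so
`s.SameCycle (π d') (π (s' d'))`, now induct over the exponent (finite, so natural exponents suffice). From right to left: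
(1) every `d'` is in the same `s'` cycle as `j (π d')`: take the least `k` with `(s' ^ k) d'` old (`Nat.find`), then the
iterates before are new and so `π` is constant: `π d' = π ((s' ^ k) d') = π (j d) = d`. (2) `s' (j d)` is in the same cycle
as `j (π (s' (j d))) = j (s d)`. Hence `s'.SameCycle (j d) (j (s d))` and by induction `s'.SameCycle (j d) (j e)` whenever
`s.SameCycle d e`.

`comp`: if `d''` is new for `j2` then `π2 (s2 d'') = π2 d''`. If `d'' = j2 d'` with `d'` new for `j1` then
`π2 (s2 d'') = s1 d'`, `π1 (s1 d') = π1 d'`. If `d'' = j2 (j1 d)`: `π1 (π2 (s2 d'')) = π1 (s1 (j1 d)) = s d`. Reach: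
`d''` reaches `j2 (π2 d'')`; and the `s2` orbit of `j2 d'` reaches `j2 (s1 d')` (it reaches `j2 (π2 (s2 (j2 d')))`), so by
induction it reaches `j2 ((s1 ^ k) d')`, in particular `j2 (j1 d)`.

`mul_right`, `mul_left`: `β'` and `A'` act on old letters like `β`, `A` and fix the new letters. For `mul_left` the
projection of a new letter becomes `A (π c)`: a new letter `c` runs through new letters to the old letter `j (π c)`, which is
replaced by `j (A (π c))`. (Reach: induct on the least number of steps to the old letters.)

`cyc`, `pot`: group the letters of `D'` according to their projection.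
-/

set_option autoImplicit false
namespace Pool.Agent.SWP
open Equiv
namespace Trace
section
variable {D D' D'' : Type} {j : D → D'} {π : D' → D} {s' : Perm D'} {s : Perm D}

theorem inj (h : Trace j π s' s) : Function.Injective j := by
  intro a b hab
  have := congrArg π hab
  rwa [h.pj, h.pj] at this

theorem to_old (h : Trace j π s' s) (x : D') : s'.SameCycle x (j (π x)) := by
  obtain ⟨k, d, hk⟩ := h.reach x
  induction k using Nat.strong_induction_on generalizing x d with
  | _ k ih =>
    by_cases hx : ∃ e, j e = x
    · obtain ⟨e, rfl⟩ := hx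
      rw [h.pj]
    · push Not at hx
      cases k with
      | zero => exact absurd (by simpa using hk.symm) (hx d)
      | succ k =>
        have h1 := ih k (Nat.lt_succ_self k) (s' x) d (by rw [← hk, pow_succ, Perm.mul_apply])
        rw [h.new x hx] at h1
        exact (Perm.sameCycle_apply_left.mp h1)

theorem step (h : Trace j π s' s) (x : D') : s.SameCycle (π x) (π (s' x)) := by
  by_cases hx : ∃ e, j e = x
  · obtain ⟨e, rfl⟩ := hx
    rw [h.pj, h.old]
    exact Perm.sameCycle_apply_right.mpr (Perm.SameCycle.refl _ _)
  · push Not at hx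
    rw [h.new x hx]

theorem same [Finite D'] (h : Trace j π s' s) (x y : D') : s'.SameCycle x y ↔ s.SameCycle (π x) (π y) := by
  constructor
  · intro hxy
    obtain ⟨n, hn⟩ := hxy.exists_nat_pow_eq
    subst hn
    clear hxy
    induction n with
    | zero => exact Perm.SameCycle.refl _ _
    | succ n ih =>
      rw [pow_succ', Perm.mul_apply]
      exact ih.trans (h.step _)
  · intro hxy
    have hD : Finite D := Finite.of_injective j h.inj
    obtain ⟨n, hn⟩ := hxy.exists_nat_pow_eq
    have key : ∀ (n : ℕ) (d : D), s'.SameCycle (j d) (j ((s ^ n) d)) := by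
      intro n
      induction n with
      | zero => intro d; exact Perm.SameCycle.refl _ _
      | succ n ih =>
        intro d
        rw [pow_succ', Perm.mul_apply]
        refine (ih d).trans ?_
        have := h.to_old (s' (j ((s ^ n) d)))
        rw [h.old] at this
        exact Perm.sameCycle_apply_left.mp this
    refine (h.to_old x).trans ?_
    have := key n (π x)
    rw [hn] at this
    exact this.trans (h.to_old y).symm

theorem same_old [Finite D'] (h : Trace j π s' s) (x y : D) : s'.SameCycle (j x) (j y) ↔ s.SameCycle x y := by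
  rw [h.same, h.pj, h.pj]

theorem comp {j2 : D' → D''} {π2 : D'' → D'} {s2 : Perm D''} (h1 : Trace j π s' s) (h2 : Trace j2 π2 s2 s') :
    Trace (j2 ∘ j) (π ∘ π2) s2 s where
  pj d := by simp only [Function.comp_apply, h2.pj, h1.pj]
  new d'' hd := by
    simp only [Function.comp_apply]
    by_cases hx : ∃ e, j2 e = d''
    · obtain ⟨e, rfl⟩ := hx
      rw [h2.old, h2.pj]
      exact h1.new e (fun d hde => hd d (by simp only [Function.comp_apply]; rw [hde]))
    · push Not at hx
      rw [h2.new d'' hx]
  old d := by simp only [Function.comp_apply]; rw [h2.old, h1.old]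
  reach d'' := by
    have key1 : ∀ x : D'', ∃ k : ℕ, (s2 ^ k) x = j2 (π2 x) := by
      intro x
      obtain ⟨k, d, hk⟩ := h2.reach x
      induction k using Nat.strong_induction_on generalizing x d with
      | _ k ih =>
        by_cases hx : ∃ e, j2 e = x
        · obtain ⟨e, rfl⟩ := hx
          exact ⟨0, by rw [h2.pj]; rfl⟩
        · push Not at hx
          cases k with
          | zero => exact absurd (by simpa using hk.symm) (hx d)
          | succ k =>
            obtain ⟨m, hm⟩ := ih k (Nat.lt_succ_self k) (s2 x) d (by rw [← hk, pow_succ, Perm.mul_apply])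
            rw [h2.new x hx] at hm
            exact ⟨m + 1, by rw [pow_succ, Perm.mul_apply]; exact hm⟩
    have key2 : ∀ (n : ℕ) (x : D'), ∃ k : ℕ, (s2 ^ k) (j2 x) = j2 ((s' ^ n) x) := by
      intro n
      induction n with
      | zero => intro x; exact ⟨0, rfl⟩
      | succ n ih =>
        intro x
        obtain ⟨k, hk⟩ := ih x
        obtain ⟨m, hm⟩ := key1 (s2 (j2 ((s' ^ n) x)))
        rw [h2.old] at hm
        refine ⟨m + (1 + k), ?_⟩
        rw [pow_add, Perm.mul_apply, pow_add, Perm.mul_apply, hk, pow_one, hm, pow_succ' s', Perm.mul_apply]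
    obtain ⟨k, hk⟩ := key1 d''
    obtain ⟨n, d, hn⟩ := h1.reach (π2 d'')
    obtain ⟨m, hm⟩ := key2 n (π2 d'')
    exact ⟨m + k, d, by rw [pow_add, Perm.mul_apply, hk, hm, hn]; rfl⟩

theorem mul_right (h : Trace j π s' s) (β' : Perm D') (β : Perm D) (h1 : ∀ d, β' (j d) = j (β d))
    (h2 : ∀ d', (∀ d, j d ≠ d') → β' d' = d') : Trace j π (s' * β') (s * β) where
  pj := h.pj
  new d' hd := by rw [Perm.mul_apply, h2 d' hd]; exact h.new d' hd
  old d := by rw [Perm.mul_apply, h1, h.old]; rfl
  reach x := by
    obtain ⟨k, d, hk⟩ := h.reach x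
    induction k using Nat.strong_induction_on generalizing x d with
    | _ k ih =>
      by_cases hx : ∃ e, j e = x
      · obtain ⟨e, rfl⟩ := hx
        exact ⟨0, e, rfl⟩
      · push Not at hx
        cases k with
        | zero => exact absurd (by simpa using hk.symm) (hx d)
        | succ k =>
          obtain ⟨m, e, hm⟩ := ih k (Nat.lt_succ_self k) (s' x) d (by rw [← hk, pow_succ, Perm.mul_apply])
          refine ⟨m + 1, e, ?_⟩
          rw [pow_succ, Perm.mul_apply, Perm.mul_apply, h2 x hx]
          exact hm

theorem mul_left (h : Trace j π s' s) (A' : Perm D') (A : Perm D) (h1 : ∀ d, A' (j d) = j (A d))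
    (h2 : ∀ d', (∀ d, j d ≠ d') → A' d' = d') (π' : D' → D) (h3 : ∀ d, π' (j d) = d)
    (h4 : ∀ d', (∀ d, j d ≠ d') → π' d' = A (π d')) : Trace j π' (A' * s') (A * s) where
  pj := h3
  new d' hd := by
    rw [Perm.mul_apply, h4 d' hd, ← h.new d' hd]
    by_cases hx : ∃ e, j e = s' d'
    · obtain ⟨e, he⟩ := hx
      rw [← he, h1, h3, h.pj]
    · push Not at hx
      rw [h2 _ hx, h4 _ hx]
  old d := by
    rw [Perm.mul_apply, Perm.mul_apply, ← h.old d]
    by_cases hx : ∃ e, j e = s' (j d)
    · obtain ⟨e, he⟩ := hx
      rw [← he, h1, h3, h.pj]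
    · push Not at hx
      rw [h2 _ hx, h4 _ hx]
  reach x := by
    obtain ⟨k, d, hk⟩ := h.reach x
    induction k using Nat.strong_induction_on generalizing x d with
    | _ k ih =>
      by_cases hx : ∃ e, j e = x
      · obtain ⟨e, rfl⟩ := hx
        exact ⟨0, e, rfl⟩
      · push Not at hx
        cases k with
        | zero => exact absurd (by simpa using hk.symm) (hx d)
        | succ k =>
          by_cases hy : ∃ e, j e = s' x
          · obtain ⟨e, he⟩ := hy
            exact ⟨1, A e, by rw [pow_one, Perm.mul_apply, ← he, h1]⟩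
          · push Not at hy
            obtain ⟨m, e, hm⟩ := ih k (Nat.lt_succ_self k) (s' x) d (by rw [← hk, pow_succ, Perm.mul_apply])
            refine ⟨m + 1, e, ?_⟩
            rw [pow_succ, Perm.mul_apply, Perm.mul_apply, h2 _ hy]
            exact hm

end

section
variable {D D' : Type} [Fintype D] [Fintype D'] {j : D → D'} {π : D' → D} {s' : Perm D'} {s : Perm D}

theorem cyc_push (h : Trace j π s' s) (u : D' → ℝ) (x : D') : cyc s' u x = cyc s (push π u) (π x) := by
  classical
  unfold cyc push
  have : ∀ e : D, Set.indicator {e | s.SameCycle (π x) e} (fun t => ∑ e, Set.indicator {e | π e = t} u e) e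
      = ∑ e' : D', if s.SameCycle (π x) e ∧ π e' = e then u e' else 0 := by
    intro e
    by_cases he : s.SameCycle (π x) e
    · rw [Set.indicator_of_mem (show e ∈ {e | s.SameCycle (π x) e} from he)]
      refine Finset.sum_congr rfl (fun e' _ => ?_)
      by_cases h2 : π e' = e
      · rw [Set.indicator_of_mem (show e' ∈ {e' | π e' = e} from h2), if_pos ⟨he, h2⟩]
      · rw [Set.indicator_of_notMem (show e' ∉ {e' | π e' = e} from h2), if_neg (fun h => h2 h.2)]
    · rw [Set.indicator_of_notMem (show e ∉ {e | s.SameCycle (π x) e} from he)]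
      symm
      refine Finset.sum_eq_zero (fun e' _ => ?_)
      rw [if_neg (fun h => he h.1)]
  change _ = ∑ e, Set.indicator {e | s.SameCycle (π x) e} (fun t => ∑ e, Set.indicator {e | π e = t} u e) e
  rw [Finset.sum_congr rfl (fun e _ => this e), Finset.sum_comm]
  refine Finset.sum_congr rfl (fun e' _ => ?_)
  by_cases he : s'.SameCycle x e'
  · rw [Set.indicator_of_mem (show e' ∈ {e | s'.SameCycle x e} from he)]
    rw [Finset.sum_eq_single (π e')]
    · rw [if_pos ⟨(h.same x e').mp he, rfl⟩]
    · intro b _ hb
      rw [if_neg (fun h => hb h.2.symm)]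
    · intro h; exact absurd (Finset.mem_univ _) h
  · rw [Set.indicator_of_notMem (show e' ∉ {e | s'.SameCycle x e} from he)]
    symm
    refine Finset.sum_eq_zero (fun e _ => ?_)
    rw [if_neg]
    rintro ⟨h1, h2⟩
    exact he ((h.same x e').mpr (by rw [h2]; exact h1))

theorem sum_push (π : D' → D) (u : D' → ℝ) : ∑ t, push π u t = ∑ e, u e := by
  classical
  unfold push
  rw [Finset.sum_comm]
  refine Finset.sum_congr rfl (fun e _ => ?_)
  rw [Finset.sum_eq_single (π e)]
  · exact Set.indicator_of_mem (show e ∈ {x | π x = π e} from rfl) _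
  · intro b _ hb
    exact Set.indicator_of_notMem (show e ∉ {x | π x = b} from fun h => hb h.symm) _
  · intro h; exact absurd (Finset.mem_univ _) h

theorem sum_push_mul (π : D' → D) (u : D' → ℝ) (F : D → ℝ) : ∑ t, push π u t * F t = ∑ e, u e * F (π e) := by
  classical
  have h1 : ∀ t, push π u t * F t = push π (fun e => u e * F (π e)) t := by
    intro t
    unfold push
    rw [Finset.sum_mul]
    refine Finset.sum_congr rfl (fun e _ => ?_)
    by_cases he : π e = t
    · rw [Set.indicator_of_mem (show e ∈ {x | π x = t} from he), Set.indicator_of_mem (show e ∈ {x | π x = t} from he), he]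
    · rw [Set.indicator_of_notMem (show e ∉ {x | π x = t} from he), Set.indicator_of_notMem (show e ∉ {x | π x = t} from he), zero_mul]
  rw [Finset.sum_congr rfl (fun t _ => h1 t), sum_push]

theorem pot_push (h : Trace j π s' s) (u : D' → ℝ) : pot s' u = pot s (push π u) := by
  unfold pot
  rw [sum_push_mul]
  refine Finset.sum_congr rfl (fun e _ => ?_)
  rw [h.cyc_push]

/-- pushed weight = old weight + weight of the new letters in the fibre -/
theorem push_eq (h : Trace j π s' s) (u : D' → ℝ) (t : D) :
    push π u t = u (j t) + wt u {c | (∀ d, j d ≠ c) ∧ π c = t} := by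
  classical
  unfold push wt
  have h1 : u (j t) = ∑ e, Set.indicator {j t} u e := by
    rw [Finset.sum_eq_single (j t)]
    · exact (Set.indicator_of_mem (Set.mem_singleton _) _).symm
    · intro b _ hb
      exact Set.indicator_of_notMem (by simpa using hb) _
    · intro h; exact absurd (Finset.mem_univ _) h
  rw [h1, ← Finset.sum_add_distrib]
  refine Finset.sum_congr rfl (fun e _ => ?_)
  by_cases he : e = j t
  · subst he
    rw [Set.indicator_of_mem (show j t ∈ {x | π x = t} from h.pj t), Set.indicator_of_mem (Set.mem_singleton _),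
      Set.indicator_of_notMem (show j t ∉ {c | (∀ d, j d ≠ c) ∧ π c = t} from fun h2 => h2.1 t rfl), add_zero]
  · rw [Set.indicator_of_notMem (show e ∉ ({j t} : Set D') from he), zero_add]
    by_cases hp : π e = t
    · have h3 : ∀ d, j d ≠ e := by
        intro d hd
        apply he
        rw [← hd] at hp ⊢
        rw [h.pj] at hp
        rw [hp]
      rw [Set.indicator_of_mem (show e ∈ {x | π x = t} from hp),
        Set.indicator_of_mem (show e ∈ {c | (∀ d, j d ≠ c) ∧ π c = t} from ⟨h3, hp⟩)]
    · rw [Set.indicator_of_notMem (show e ∉ {x | π x = t} from hp),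
        Set.indicator_of_notMem (show e ∉ {c | (∀ d, j d ≠ c) ∧ π c = t} from fun h2 => hp h2.2)]

end
end Trace
end Pool.Agent.SWP
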